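import Pool.Agent.FMS.St4
import Pool.Agent.CUB.BR4

/-!
# Project FMS, module ACL (helper80): the closure properties at the level of algebras
-/

set_option autoImplicit false

open CategoryTheory AlgebraicGeometry Polynomial

namespace Pool.Agent.FMS

open Pool.Agent.Lib_helper55.Beil (Var)
open UQ (Mo DimLE sp szer)
open FMQ (FreeCl)

theorem t_ACL : M_ACL := by
  intro hCLF hGMD k _ P hP hF
  exact
    { clo := hCLF k P hP
      free := fun A C _ _ _ _ _ _ _ _ _ _ h1 h2 => hF A C h1 h2
      unline := fun A _ _ _ h => hP.unline (CUB.lineX A) h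
      gm := fun C _ _ _ U _ _ _ u hu h => hGMD k P hP C U u hu h }

end Pool.Agent.FMS
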