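import Pool.Agent.FMS.St

/-!
# Module ARE: Artin-Schreier coverings are finite etale
-/

set_option autoImplicit false

open CategoryTheory AlgebraicGeometry Polynomial

namespace Pool.Agent.FMS

open Pool.Agent.Lib_helper55.Beil (Var)
open UQ (Mo DimLE sp szer)

namespace AREAux

lemma lt_aux {A : Type} [CommRing A] {q : ℕ} (hq : 2 ≤ q) (α : A) :
    (-X - C α : A[X]).degree < (q : WithBot ℕ) := by
  have h1 : (-X - C α : A[X]).degree ≤ 1 := by
    refine (degree_sub_le _ _).trans (max_le ?_ ?_)
    · rw [degree_neg]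
      exact degree_X_le
    · exact degree_C_le.trans (by norm_num)
  refine lt_of_le_of_lt h1 ?_
  have h2 : ((1 : ℕ) : WithBot ℕ) < ((q : ℕ) : WithBot ℕ) := by
    exact_mod_cast (by omega : 1 < q)
  exact h2

lemma ap_eq {A : Type} [CommRing A] (q : ℕ) (α : A) : ap q α = X ^ q + (-X - C α) := by
  unfold ap
  ring

lemma monic_ap {A : Type} [CommRing A] {q : ℕ} (hq : 2 ≤ q) (α : A) : (ap q α).Monic := by
  rw [ap_eq]
  exact monic_X_pow_add (lt_aux hq α)

lemma derivative_ap {A : Type} [CommRing A] {q : ℕ} (hq : ((q : ℕ) : A) = 0) (α : A) :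
    derivative (ap q α) = -1 := by
  unfold ap
  rw [derivative_sub, derivative_sub, derivative_X_pow, derivative_X, derivative_C, hq, C_0,
    zero_mul]
  ring

/-- the standard etale pair -/
noncomputable def pair {A : Type} [CommRing A] {q : ℕ} (hq : 2 ≤ q) (hq0 : ((q : ℕ) : A) = 0)
    (α : A) : StandardEtalePair A where
  f := ap q α
  monic_f := monic_ap hq α
  g := 1
  cond := ⟨-1, 0, 0, by rw [derivative_ap hq0]; ring⟩

lemma etale_AS {A : Type} [CommRing A] {q : ℕ} (hq : 2 ≤ q) (hq0 : ((q : ℕ) : A) = 0) (α : A) :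
    Algebra.Etale A (AS q α) := by
  let P := pair hq hq0 α
  have h1 : Algebra.Etale A P.Ring := inferInstance
  have hu : IsUnit (AdjoinRoot.mk P.f P.g) := by
    change IsUnit (AdjoinRoot.mk (ap q α) 1)
    rw [map_one]
    exact isUnit_one
  let e1 : AdjoinRoot P.f ≃ₐ[AdjoinRoot P.f] Localization.Away (AdjoinRoot.mk P.f P.g) :=
    IsLocalization.atUnit (AdjoinRoot P.f) (Localization.Away (AdjoinRoot.mk P.f P.g))
      (AdjoinRoot.mk P.f P.g) hu
  let e2 : P.Ring ≃ₐ[A] AdjoinRoot P.f := P.equivAwayAdjoinRoot.trans (e1.restrictScalars A).symm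
  exact Algebra.Etale.of_equiv e2

lemma inj_AS {A : Type} [CommRing A] {q : ℕ} (hq : 2 ≤ q) (α : A) :
    Function.Injective (algebraMap A (AS q α)) := by
  rcases subsingleton_or_nontrivial A with h | h
  · exact Function.injective_of_subsingleton _
  · rw [injective_iff_map_eq_zero]
    intro a ha
    have h1 : AdjoinRoot.mk (ap q α) (C a) = 0 := ha
    rw [AdjoinRoot.mk_eq_zero] at h1
    by_contra hne
    refine (monic_ap hq α).not_dvd_of_degree_lt (C_ne_zero.2 hne) ?_ h1
    rw [degree_C hne, ap_eq, degree_add_eq_left_of_degree_lt (by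
      rw [degree_X_pow]; exact lt_aux hq α), degree_X_pow]
    exact_mod_cast (by omega : 0 < q)

end AREAux

open AREAux in
theorem t_ARE : S_ARE := by
  intro k K _ _ _ _ p q hD A _ _ _ α E _ _ _ e
  have hp : p.Prime := hD.pr
  obtain ⟨ν, hν, hqν⟩ := hD.pow
  have hq : 2 ≤ q := by
    rw [hqν]
    calc 2 ≤ p := hp.two_le
      _ = p ^ 1 := (pow_one p).symm
      _ ≤ p ^ ν := Nat.pow_le_pow_right hp.pos hν
  have hqK : ((q : ℕ) : K) = 0 := by
    have := hD.char
    have h1 : ((p : ℕ) : K) = 0 := CharP.cast_eq_zero K p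
    rw [hqν, Nat.cast_pow, h1, zero_pow (by omega)]
  have hqA : ((q : ℕ) : A) = 0 := by
    rw [← map_natCast (algebraMap K A), hqK, map_zero]
  have h1 : Algebra.Etale A (AS q α) := etale_AS hq hqA α
  have h2 : Module.Finite A (AS q α) := (monic_ap hq α).finite_adjoinRoot
  have h3 := inj_AS hq α
  let f : A →+* E := (e.toAlgHom.comp (IsScalarTower.toAlgHom K A (AS q α))).toRingHom
  have hf : ∀ a, f a = e (algebraMap A (AS q α) a) := fun a => rfl
  let _ : Algebra A E := f.toAlgebra
  let e' : AS q α ≃ₐ[A] E := { e.toRingEquiv with commutes' := fun _ => rfl }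
  have h4 : Algebra.Etale A E := Algebra.Etale.of_equiv e'
  have h5 : Module.Finite A E := Module.Finite.equiv e'.toLinearEquiv
  have h6 : Function.Injective (algebraMap A E) := fun a b hab =>
    h3 (e.injective ((hf a).symm.trans (hab.trans (hf b))))
  refine ⟨?_, ?_, ?_⟩
  · change IsFinite (Spec.map (CommRingCat.ofHom f))
    rw [IsFinite.SpecMap_iff]
    change (algebraMap A E).Finite
    exact RingHom.finite_algebraMap.2 inferInstance
  · change Etale (Spec.map (CommRingCat.ofHom f))
    rw [HasRingHomProperty.Spec_iff (P := @Etale)]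
    change (algebraMap A E).Etale
    exact RingHom.etale_algebraMap.2 inferInstance
  · refine ⟨?_⟩
    change Function.Surjective (PrimeSpectrum.comap (algebraMap A E))
    exact (algebraMap_isIntegral_iff.2 inferInstance).comap_surjective h6

end Pool.Agent.FMS
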