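import Pool.Agent.FMS.St

/-!
# FMS: the relation between the quotients of a double Artin-Schreier covering
-/

set_option autoImplicit false

open CategoryTheory AlgebraicGeometry Polynomial

namespace Pool.Agent.FMS

open Pool.Agent.Lib_helper55.Beil (Var)
open UQ (Mo DimLE sp szer)
open LFQ (BM)

universe v

namespace ARGAux

variable {k K : Type} [Field k] [Field K] [Algebra k K] [Module.Finite k K]

/-- Composition. -/
theorem rm_comp {D E F : Type} [CommRing D] [Algebra K D] [Algebra.FiniteType K D]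
    [CommRing E] [Algebra K E] [Algebra.FiniteType K E] [CommRing F] [Algebra K F]
    [Algebra.FiniteType K F] (f : D →ₐ[K] E) (g : E →ₐ[K] F) :
    (rm (k := k) g).g ≫ (rm (k := k) f).g = (rm (k := k) (g.comp f)).g := by
  change Spec.map _ ≫ Spec.map _ = Spec.map _
  rw [← Spec.map_comp, ← CommRingCat.ofHom_comp]
  rfl

theorem rm_one {D : Type} [CommRing D] [Algebra K D] [Algebra.FiniteType K D] :
    (rm (k := k) (AlgHom.id K D)).One := by
  change Spec.map (CommRingCat.ofHom (RingHom.id D)) = _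
  rw [CommRingCat.ofHom_id, Spec.map_id]
  rfl

theorem rm_pr {D : Type} [CommRing D] [Algebra K D] [Algebra.FiniteType K D]
    (f : D →ₐ[K] D) (hf : Function.Bijective f) : (rm (k := k) f).Pr := by
  have h : IsIso (CommRingCat.ofHom f.toRingHom) :=
    (ConcreteCategory.isIso_iff_bijective _).2 hf
  have h2 : IsIso (Spec.map (CommRingCat.ofHom f.toRingHom)) := inferInstance
  change IsProper (Spec.map (CommRingCat.ofHom f.toRingHom))
  infer_instance

/-- Galois coverings of spectra. -/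
theorem galM {D E : Type} [CommRing D] [Algebra K D] [Algebra.FiniteType K D]
    [CommRing E] [Algebra K E] [Algebra.FiniteType K E] (f : D →ₐ[K] E) {G : Type}
    (s : G → (E →ₐ[K] E)) (h1 : ∀ g, (s g).comp f = f)
    (h2 : ∀ (L : Type) [Field L] (x y : E →+* L), x.comp f.toRingHom = y.comp f.toRingHom →
      ∃! g : G, x.comp (s g).toRingHom = y) :
    GalM (rm (k := k) f) (fun g => rm (k := k) (s g)) := by
  refine ⟨fun g => ?_, fun L _ x y hxy => ?_⟩
  · rw [rm_comp, h1 g]
  · obtain ⟨x', rfl⟩ : ∃ x' : CommRingCat.of E ⟶ CommRingCat.of L, Spec.map x' = x :=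
      ⟨Spec.preimage x, Spec.map_preimage x⟩
    obtain ⟨y', rfl⟩ : ∃ y' : CommRingCat.of E ⟶ CommRingCat.of L, Spec.map y' = y :=
      ⟨Spec.preimage y, Spec.map_preimage y⟩
    have e1 : x'.hom.comp f.toRingHom = y'.hom.comp f.toRingHom := by
      have h3 : Spec.map x' ≫ Spec.map (CommRingCat.ofHom f.toRingHom) =
          Spec.map y' ≫ Spec.map (CommRingCat.ofHom f.toRingHom) := hxy
      rw [← Spec.map_comp, ← Spec.map_comp] at h3
      have h4 := Spec.map_injective h3
      exact congrArg CommRingCat.Hom.hom h4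
    obtain ⟨g, hg, hu⟩ := h2 L x'.hom y'.hom e1
    refine ⟨g, ?_, fun g' hg' => hu g' ?_⟩
    · change Spec.map x' ≫ Spec.map (CommRingCat.ofHom (s g).toRingHom) = Spec.map y'
      rw [← Spec.map_comp]
      congr 1
      exact CommRingCat.hom_ext hg
    · have h3 : Spec.map x' ≫ Spec.map (CommRingCat.ofHom (s g').toRingHom) = Spec.map y' := hg'
      rw [← Spec.map_comp] at h3
      exact congrArg CommRingCat.Hom.hom (Spec.map_injective h3)

/-- The counting lemma in every universe. -/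
theorem cnt (h : S_CNT) (p q : ℕ) (K : Type) [Field K] (hd : Dat p q K) (i : Fintype (Fq q K))
    (M : Type v) [AddCommGroup M] (F : K → K → M) :
    ∑ a : Fq q K, ∑ g : Fq q K, F (-(a * g)) g + ∑ g : Fq q K, F g 0 =
      q • F 0 0 + ∑ g : Fq q K, ∑ h : Fq q K, F g h := by
  have h1 := h p q K hd i ((K × K) →₀ ℤ) (fun a b => Finsupp.single (a, b) 1)
  have h2 := congrArg (Finsupp.liftAddHom (fun x : K × K => (zmultiplesHom M (F x.1 x.2)))) h1
  simp only [map_add, map_sum, map_nsmul, Finsupp.liftAddHom_apply_single, zmultiplesHom_apply,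
    one_zsmul] at h2
  exact h2

end ARGAux

open ARGAux

theorem t_ARG : M_ARG.{v} := by
  intro hFQ hARE hARR hCNT k Λ _ _ _ T hT hG K _ _ _ p q hd A _ _ _ α β h1 h2 i n
  obtain ⟨tr, fa, ea, c1, c2, c3, c4, c5, c6, c7, c8⟩ := hARR p q K hd A α β
  have hcard := (hFQ p q K hd).1
  have hp := hd.pr
  have hq : q ≠ 0 := by
    obtain ⟨ν, -, hν⟩ := hd.pow
    rw [hν]
    exact pow_ne_zero _ hp.ne_zero
  have hfin : Finite (Fq q K) := by
    apply Nat.finite_of_card_ne_zero
    rw [hcard]
    exact hq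
  let _ : Fintype (Fq q K) := Fintype.ofFinite _
  -- the morphisms
  set X := AS q (AdjoinRoot.of (ap q β) α) with hX
  let fA : ∀ a : Fq q K, Mo (rk k K X) (rk k K (AS q (α + a.1 • β))) := fun a => rm (k := k) (fa a)
  let f : Mo (rk k K X) (rk k K (AS q β)) := rm (k := k) (IsScalarTower.toAlgHom K (AS q β) X)
  let s : K → K → Mo (rk k K X) (rk k K X) := fun g h => rm (k := k) (tr g h)
  have etA : ∀ a, (fA a).Et := by
    intro a
    have h3 := hARE k K p q hd (AS q (α + a.1 • β)) (AdjoinRoot.of (ap q (α + a.1 • β)) β) X (ea a)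
    rw [← c4 a] at h3
    exact h3
  have etf : f.Et := by
    have h3 := hARE k K p q hd (AS q β) (AdjoinRoot.of (ap q β) α) X AlgEquiv.refl
    exact h3
  have gA : ∀ a : Fq q K, GalM (fA a) (fun g : Fq q K => s (-(a * g)) g) := fun a =>
    galM (fa a) (fun g : Fq q K => tr (-(a * g)) g) (c5 a) (fun L _ x y hxy => c7 a L x y hxy)
  have gf : GalM f (fun g : Fq q K => s g 0) :=
    galM (IsScalarTower.toAlgHom K (AS q β) X) (fun g : Fq q K => tr g 0) c6
      (fun L _ x y hxy => c8 L x y hxy)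
  -- the relation
  have key : ∀ t : T.H i n (rk k K X), (q : Λ) • t = ∑ a : Fq q K, T.R (fA a) (T.P (fA a) t) +
      T.R f (T.P f t) - ∑ h : Fq q K, T.R f (T.P f (T.P (s 0 h) t)) := by
    intro t
    have e1 : ∀ a : Fq q K, T.R (fA a) (T.P (fA a) t) = ∑ g : Fq q K, T.P (s (-(a * g)) g) t :=
      fun a => hG i n (fA a) (Fq q K) _ (etA a) (gA a) t
    have e2 : ∀ t' : T.H i n (rk k K X), T.R f (T.P f t') = ∑ g : Fq q K, T.P (s g 0) t' :=
      fun t' => hG i n f (Fq q K) _ etf gf t'
    have e3 : ∀ g h : Fq q K, T.P (s g 0) (T.P (s 0 h) t) = T.P (s g h) t := by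
      intro g h
      refine hT.push.comp i n (s 0 h) (s g 0) (s g h) ?_ ?_ ?_ t
      · have h0 : (0 : K) ^ q = 0 := zero_pow hq
        exact rm_pr _ (c2 ⟨0, h0⟩ h)
      · have h0 : (0 : K) ^ q = 0 := zero_pow hq
        exact rm_pr _ (c2 g ⟨0, h0⟩)
      · change (rm (k := k) (tr 0 h)).g ≫ (rm (k := k) (tr g 0)).g = (rm (k := k) (tr g h)).g
        rw [rm_comp, c3 g h]
    have e4 : T.P (s 0 0) t = t := by
      refine hT.push.one i n (s 0 0) ?_ t
      change (rm (k := k) (tr 0 0)).One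
      rw [c1]
      exact rm_one
    have e5 := cnt hCNT p q K hd inferInstance (T.H i n (rk k K X)) (fun g h => T.P (s g h) t)
    beta_reduce at e5
    rw [e4] at e5
    have e6 : ∑ h : Fq q K, T.R f (T.P f (T.P (s 0 h) t)) =
        ∑ g : Fq q K, ∑ h : Fq q K, T.P (s g h) t := by
      rw [Finset.sum_comm]
      refine Finset.sum_congr rfl fun h _ => ?_
      rw [e2]
      exact Finset.sum_congr rfl fun g _ => e3 g h
    rw [e6, e2 t, Finset.sum_congr rfl fun a _ => e1 a, e5, Nat.cast_smul_eq_nsmul,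
      add_sub_cancel_right]
  -- finite generation
  obtain ⟨N, hN, hm⟩ := hT.fin.quot i n (rk k K X) q hq
  have r1 : ∀ a : Fq q K, (LinearMap.range (T.pb i n (fA a))).FG := by
    intro a
    have h3 : Module.Finite Λ (T.H i n (rk k K (AS q (α + a.1 • β)))) := h1 a.1 a.2 i n
    have h4 : (⊤ : Submodule Λ (T.H i n (rk k K (AS q (α + a.1 • β))))).FG :=
      Module.Finite.fg_top
    rw [LinearMap.range_eq_map]
    exact h4.map _
  have r2 : (LinearMap.range (T.pb i n f)).FG := by
    have h3 : Module.Finite Λ (T.H i n (rk k K (AS q β))) := h2 i n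
    have h4 : (⊤ : Submodule Λ (T.H i n (rk k K (AS q β)))).FG := Module.Finite.fg_top
    rw [LinearMap.range_eq_map]
    exact h4.map _
  have r3 : ((⨆ a : Fq q K, LinearMap.range (T.pb i n (fA a))) ⊔
      LinearMap.range (T.pb i n f)).FG := (Submodule.fg_iSup _ r1).sup r2
  have r4 : (⊤ : Submodule Λ (T.H i n (rk k K X))) ≤
      ((⨆ a : Fq q K, LinearMap.range (T.pb i n (fA a))) ⊔ LinearMap.range (T.pb i n f)) ⊔ N := by
    intro m _
    obtain ⟨m', hm'⟩ := hm m
    have h4 : m = (q : Λ) • m' + (m - (q : Λ) • m') := by abel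
    rw [h4]
    refine Submodule.add_mem_sup ?_ hm'
    rw [key m']
    refine Submodule.sub_mem _ (Submodule.add_mem_sup (Submodule.sum_mem _ fun a _ => ?_) ?_)
      (Submodule.sum_mem _ fun h _ => ?_)
    · exact Submodule.mem_iSup_of_mem a ⟨_, rfl⟩
    · exact ⟨_, rfl⟩
    · exact Submodule.mem_sup_right ⟨_, rfl⟩
  have r5 := r3.sup hN
  rw [top_le_iff.mp r4] at r5
  exact ⟨r5⟩

end Pool.Agent.FMS
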