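import Pool.Agent.FMS.St

/-!
# Project FMS, module ARR (helper48): the double Artin-Schreier covering
-/

set_option autoImplicit false

open CategoryTheory AlgebraicGeometry Polynomial

namespace Pool.Agent.FMS

namespace ARRAux

section

variable {p q : ℕ} {K : Type} [Field K]

theorem q_pos (hD : Dat p q K) : q ≠ 0 := by
  obtain ⟨ν, _, rfl⟩ := hD.pow
  exact pow_ne_zero _ hD.pr.ne_zero

theorem q_two (hD : Dat p q K) : 2 ≤ q := by
  obtain ⟨ν, h1, rfl⟩ := hD.pow
  exact le_trans hD.pr.two_le (Nat.le_self_pow (by omega) p)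

theorem frob (hD : Dat p q K) (E : Type) [CommRing E] [Algebra K E] (x y : E) :
    (x + y) ^ q = x ^ q + y ^ q := by
  obtain ⟨ν, _, hq⟩ := hD.pow
  have hp := hD.pr
  have hc := hD.char
  cases subsingleton_or_nontrivial E with
  | inl h => exact Subsingleton.elim _ _
  | inr h =>
    have hE : CharP E p := charP_of_injective_algebraMap (algebraMap K E).injective p
    have hf : Fact p.Prime := ⟨hp⟩
    rw [hq]
    exact add_pow_char_pow x y p ν

theorem neg_pow' (hD : Dat p q K) (E : Type) [CommRing E] [Algebra K E] (x : E) :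
    (-x) ^ q = -x ^ q := by
  have h := frob hD E (-x) x
  rw [neg_add_cancel, zero_pow (q_pos hD)] at h
  exact eq_neg_of_add_eq_zero_left h.symm

theorem fq_neg (hD : Dat p q K) {g : K} (hg : g ^ q = g) : (-g) ^ q = -g := by
  rw [neg_pow' hD, hg]

theorem fq_add (hD : Dat p q K) {g h : K} (hg : g ^ q = g) (hh : h ^ q = h) :
    (g + h) ^ q = g + h := by
  rw [frob hD, hg, hh]

theorem fq_mul {g h : K} (hg : g ^ q = g) (hh : h ^ q = h) : (g * h) ^ q = g * h := by
  rw [mul_pow, hg, hh]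

/-- the elements of the subfield with `q` elements are the roots -/
theorem root_mem (hF : S_FQ) (hD : Dat p q K) {L : Type} [Field L] (ψ : K →+* L) (δ : L)
    (hδ : δ ^ q = δ) : ∃ g : Fq q K, ψ g.1 = δ := by
  classical
  have hcard := (hF p q K hD).1
  have hfin : Finite (Fq q K) := Nat.finite_of_card_ne_zero (by rw [hcard]; exact q_pos hD)
  let _ : Fintype (Fq q K) := Fintype.ofFinite _
  by_contra hcon
  push Not at hcon
  let s : Finset L := Finset.univ.image fun g : Fq q K => ψ g.1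
  have hs : s.card = q := by
    rw [Finset.card_image_of_injective _ (fun g g' h => Subtype.ext (ψ.injective h)),
      Finset.card_univ, ← Nat.card_eq_fintype_card, hcard]
  have hδs : δ ∉ s := by
    intro h
    obtain ⟨g, _, hg⟩ := Finset.mem_image.1 h
    exact hcon g hg
  have hsub : insert δ s ⊆ (X ^ q - X : L[X]).roots.toFinset := by
    have hne : (X ^ q - X : L[X]) ≠ 0 := FiniteField.X_pow_card_sub_X_ne_zero L (q_two hD)
    intro x hx
    rw [Multiset.mem_toFinset, mem_roots hne, IsRoot.def, eval_sub, eval_pow, eval_X, sub_eq_zero]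
    rcases Finset.mem_insert.1 hx with rfl | hx
    · exact hδ
    · obtain ⟨g, _, hg⟩ := Finset.mem_image.1 hx
      rw [← hg, ← map_pow, g.2]
  have h1 := Finset.card_le_card hsub
  rw [Finset.card_insert_of_notMem hδs, hs] at h1
  have h2 : (X ^ q - X : L[X]).roots.toFinset.card ≤ q := by
    refine (Multiset.toFinset_card_le _).trans ((card_roots' _).trans ?_)
    rw [FiniteField.X_pow_card_sub_X_natDegree_eq L (q_two hD)]
  omega

variable {A : Type} [CommRing A] [Algebra K A]

theorem root_eq (α : A) : (AdjoinRoot.root (ap q α)) ^ q - AdjoinRoot.root (ap q α) =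
    AdjoinRoot.of (ap q α) α := by
  have h := AdjoinRoot.eval₂_root (ap q α)
  unfold ap at h ⊢
  rw [eval₂_sub, eval₂_sub, eval₂_X_pow, eval₂_X, eval₂_C, sub_eq_zero] at h
  exact h

/-- the universal property -/
noncomputable def lf (α : A) {E : Type} [CommRing E] [Algebra K E] (φ : A →ₐ[K] E) (u : E)
    (h : u ^ q - u = φ α) : AS q α →ₐ[K] E :=
  AdjoinRoot.liftAlgHom (ap q α) φ u (by
    unfold ap
    rw [eval₂_sub, eval₂_sub, eval₂_X_pow, eval₂_X, eval₂_C, sub_eq_zero]
    exact h)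

theorem lf_root (α : A) {E : Type} [CommRing E] [Algebra K E] (φ : A →ₐ[K] E) (u : E)
    (h : u ^ q - u = φ α) : lf α φ u h (AdjoinRoot.root (ap q α)) = u :=
  AdjoinRoot.liftAlgHom_root ..

theorem lf_of (α : A) {E : Type} [CommRing E] [Algebra K E] (φ : A →ₐ[K] E) (u : E)
    (h : u ^ q - u = φ α) (x : A) : lf α φ u h (AdjoinRoot.of (ap q α) x) = φ x :=
  AdjoinRoot.liftAlgHom_of ..

/-- the double covering -/
abbrev XX (q : ℕ) {A : Type} [CommRing A] (α β : A) : Type := AS q (AdjoinRoot.of (ap q β) α)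

/-- the root `w_1` -/
noncomputable def w1 (q : ℕ) {A : Type} [CommRing A] (α β : A) : XX q α β := AdjoinRoot.root _

/-- the root `w_2` -/
noncomputable def w2 (q : ℕ) {A : Type} [CommRing A] (α β : A) : XX q α β :=
  AdjoinRoot.of (ap q (AdjoinRoot.of (ap q β) α)) (AdjoinRoot.root (ap q β))

/-- the elements of `A` -/
noncomputable def w0 (K : Type) [Field K] (q : ℕ) {A : Type} [CommRing A] [Algebra K A] (α β : A) :
    A →ₐ[K] XX q α β :=
  (AdjoinRoot.ofAlgHom K (ap q (AdjoinRoot.of (ap q β) α))).comp (AdjoinRoot.ofAlgHom K (ap q β))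

theorem w1_eq (α β : A) : w1 q α β ^ q - w1 q α β = w0 K q α β α :=
  root_eq _

theorem w2_eq (α β : A) : w2 q α β ^ q - w2 q α β = w0 K q α β β := by
  unfold w2
  rw [← map_pow, ← map_sub, root_eq]
  rfl

/-- the universal property of the double covering -/
noncomputable def lg (α β : A) {E : Type} [CommRing E] [Algebra K E] (φ : A →ₐ[K] E) (u1 u2 : E)
    (h1 : u1 ^ q - u1 = φ α) (h2 : u2 ^ q - u2 = φ β) : XX q α β →ₐ[K] E :=
  lf (AdjoinRoot.of (ap q β) α) (lf β φ u2 h2) u1 (by rw [lf_of]; exact h1)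

theorem lg_w1 (α β : A) {E : Type} [CommRing E] [Algebra K E] (φ : A →ₐ[K] E) (u1 u2 : E)
    (h1 : u1 ^ q - u1 = φ α) (h2 : u2 ^ q - u2 = φ β) : lg α β φ u1 u2 h1 h2 (w1 q α β) = u1 :=
  lf_root ..

theorem lg_w2 (α β : A) {E : Type} [CommRing E] [Algebra K E] (φ : A →ₐ[K] E) (u1 u2 : E)
    (h1 : u1 ^ q - u1 = φ α) (h2 : u2 ^ q - u2 = φ β) : lg α β φ u1 u2 h1 h2 (w2 q α β) = u2 := by
  unfold lg w2
  rw [lf_of, lf_root]

theorem lg_w0 (α β : A) {E : Type} [CommRing E] [Algebra K E] (φ : A →ₐ[K] E) (u1 u2 : E)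
    (h1 : u1 ^ q - u1 = φ α) (h2 : u2 ^ q - u2 = φ β) (a : A) :
    lg α β φ u1 u2 h1 h2 (w0 K q α β a) = φ a := by
  change lf _ (lf β φ u2 h2) u1 _ (AdjoinRoot.of _ (AdjoinRoot.of _ a)) = _
  rw [lf_of, lf_of]

theorem ring_ext (K : Type) [Field K] {A : Type} [CommRing A] [Algebra K A] {α β : A} {L : Type}
    [CommRing L] {x y : XX q α β →+* L}
    (h0 : ∀ a, x (w0 K q α β a) = y (w0 K q α β a)) (h1 : x (w1 q α β) = y (w1 q α β))
    (h2 : x (w2 q α β) = y (w2 q α β)) : x = y := by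
  refine AdjoinRoot.ringHom_ext ?_ h1
  refine AdjoinRoot.ringHom_ext ?_ h2
  exact RingHom.ext h0

theorem alg_ext {α β : A} {E : Type} [CommRing E] [Algebra K E] {x y : XX q α β →ₐ[K] E}
    (h0 : ∀ a, x (w0 K q α β a) = y (w0 K q α β a)) (h1 : x (w1 q α β) = y (w1 q α β))
    (h2 : x (w2 q α β) = y (w2 q α β)) : x = y := by
  have h : x.toRingHom = y.toRingHom := ring_ext K h0 h1 h2
  exact AlgHom.ext fun z => RingHom.congr_fun h z

theorem sh (hD : Dat p q K) {E : Type} [CommRing E] [Algebra K E] {u : E} {c : E} (g : K)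
    (hg : g ^ q = g) (hu : u ^ q - u = c) :
    (u + algebraMap K E g) ^ q - (u + algebraMap K E g) = c := by
  rw [frob hD, ← map_pow, hg, ← hu]
  ring

open Classical in
/-- the translations -/
noncomputable def tr (hD : Dat p q K) (α β : A) (g h : K) : XX q α β →ₐ[K] XX q α β :=
  if H : g ^ q = g ∧ h ^ q = h then
    lg α β (w0 K q α β) (w1 q α β + algebraMap K _ g) (w2 q α β + algebraMap K _ h)
      (sh hD g H.1 (w1_eq α β)) (sh hD h H.2 (w2_eq α β))
  else AlgHom.id K _

theorem tr_w1 (hD : Dat p q K) (α β : A) {g h : K} (hg : g ^ q = g) (hh : h ^ q = h) :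
    tr hD α β g h (w1 q α β) = w1 q α β + algebraMap K _ g := by
  unfold tr
  rw [dif_pos ⟨hg, hh⟩, lg_w1]

theorem tr_w2 (hD : Dat p q K) (α β : A) {g h : K} (hg : g ^ q = g) (hh : h ^ q = h) :
    tr hD α β g h (w2 q α β) = w2 q α β + algebraMap K _ h := by
  unfold tr
  rw [dif_pos ⟨hg, hh⟩, lg_w2]

theorem tr_w0 (hD : Dat p q K) (α β : A) {g h : K} (hg : g ^ q = g) (hh : h ^ q = h) (a : A) :
    tr hD α β g h (w0 K q α β a) = w0 K q α β a := by
  unfold tr
  rw [dif_pos ⟨hg, hh⟩, lg_w0]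

theorem tr_comp (hD : Dat p q K) (α β : A) {g h g' h' : K} (hg : g ^ q = g) (hh : h ^ q = h)
    (hg' : g' ^ q = g') (hh' : h' ^ q = h') :
    (tr hD α β g' h').comp (tr hD α β g h) = tr hD α β (g + g') (h + h') := by
  refine alg_ext (fun a => ?_) ?_ ?_
  · rw [AlgHom.comp_apply, tr_w0 hD α β hg hh, tr_w0 hD α β hg' hh',
      tr_w0 hD α β (fq_add hD hg hg') (fq_add hD hh hh')]
  · rw [AlgHom.comp_apply, tr_w1 hD α β hg hh, map_add, tr_w1 hD α β hg' hh', AlgHom.commutes,
      tr_w1 hD α β (fq_add hD hg hg') (fq_add hD hh hh'), map_add]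
    ring
  · rw [AlgHom.comp_apply, tr_w2 hD α β hg hh, map_add, tr_w2 hD α β hg' hh', AlgHom.commutes,
      tr_w2 hD α β (fq_add hD hg hg') (fq_add hD hh hh'), map_add]
    ring

theorem tr_zero (hD : Dat p q K) (α β : A) : tr hD α β 0 0 = AlgHom.id K _ := by
  have h0 : (0 : K) ^ q = 0 := zero_pow (q_pos hD)
  refine alg_ext (fun a => ?_) ?_ ?_
  · rw [tr_w0 hD α β h0 h0]
    rfl
  · rw [tr_w1 hD α β h0 h0, map_zero, add_zero]
    rfl
  · rw [tr_w2 hD α β h0 h0, map_zero, add_zero]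
    rfl

/-- the map from the other presentation -/
theorem ea_exists (hD : Dat p q K) (α β : A) (a : K) (ha : a ^ q = a) :
    ∃ e : XX q β (α + a • β) ≃ₐ[K] XX q α β,
      (∀ x, e (w0 K q β (α + a • β) x) = w0 K q α β x) ∧
      e (w2 q β (α + a • β)) = w1 q α β + algebraMap K _ a * w2 q α β ∧
      e (w1 q β (α + a • β)) = w2 q α β := by
  have k1 : (w1 q α β + algebraMap K _ a * w2 q α β) ^ q -
      (w1 q α β + algebraMap K _ a * w2 q α β) = w0 K q α β (α + a • β) := by
    rw [frob hD, mul_pow, ← map_pow, ha, map_add, map_smul, Algebra.smul_def, ← w1_eq (K := K),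
      ← w2_eq (K := K)]
    ring
  have k2 : (w2 q β (α + a • β) - algebraMap K _ a * w1 q β (α + a • β)) ^ q -
      (w2 q β (α + a • β) - algebraMap K _ a * w1 q β (α + a • β)) =
        w0 K q β (α + a • β) α := by
    have e1 := w2_eq (K := K) (q := q) β (α + a • β)
    have e2 := w1_eq (K := K) (q := q) β (α + a • β)
    have e3 : w0 K q β (α + a • β) (α + a • β) = w0 K q β (α + a • β) α +
        algebraMap K _ a * w0 K q β (α + a • β) β := by
      refine (map_add _ _ _).trans (congrArg _ ?_)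
      exact (map_smul _ _ _).trans (Algebra.smul_def _ _)
    have e4 : (w2 q β (α + a • β) - algebraMap K _ a * w1 q β (α + a • β)) ^ q =
        w2 q β (α + a • β) ^ q - algebraMap K _ a * w1 q β (α + a • β) ^ q := by
      rw [sub_eq_add_neg, frob hD, neg_pow' hD, mul_pow, ← map_pow, ha, ← sub_eq_add_neg]
    rw [e4]
    linear_combination e1 + e3 - algebraMap K _ a * e2
  let F : XX q β (α + a • β) →ₐ[K] XX q α β := lg β (α + a • β) (w0 K q α β) (w2 q α β)
    (w1 q α β + algebraMap K _ a * w2 q α β) (w2_eq α β) k1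
  let F' : XX q α β →ₐ[K] XX q β (α + a • β) := lg α β (w0 K q β (α + a • β))
    (w2 q β (α + a • β) - algebraMap K _ a * w1 q β (α + a • β)) (w1 q β (α + a • β)) k2
    (w1_eq β (α + a • β))
  have f0 : ∀ x, F (w0 K q β (α + a • β) x) = w0 K q α β x := fun x => lg_w0 ..
  have f1 : F (w1 q β (α + a • β)) = w2 q α β := lg_w1 ..
  have f2 : F (w2 q β (α + a • β)) = w1 q α β + algebraMap K _ a * w2 q α β := lg_w2 ..
  have g0 : ∀ x, F' (w0 K q α β x) = w0 K q β (α + a • β) x := fun x => lg_w0 ..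
  have g1 : F' (w1 q α β) = w2 q β (α + a • β) - algebraMap K _ a * w1 q β (α + a • β) := lg_w1 ..
  have g2 : F' (w2 q α β) = w1 q β (α + a • β) := lg_w2 ..
  refine ⟨AlgEquiv.ofAlgHom F F' ?_ ?_, f0, f2, f1⟩
  · refine alg_ext (fun x => ?_) ?_ ?_
    · rw [AlgHom.comp_apply, g0, f0]
      rfl
    · rw [AlgHom.comp_apply, g1, map_sub, map_mul, AlgHom.commutes, f1, f2, AlgHom.id_apply]
      ring
    · rw [AlgHom.comp_apply, g2, f1]
      rfl
  · refine alg_ext (fun x => ?_) ?_ ?_
    · rw [AlgHom.comp_apply, f0, g0]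
      rfl
    · rw [AlgHom.comp_apply, f1, g2]
      rfl
    · rw [AlgHom.comp_apply, f2, map_add, map_mul, AlgHom.commutes, g1, g2, AlgHom.id_apply]
      ring

end

end ARRAux

open ARRAux in
theorem t_ARR : M_ARR := by
  intro hF p q K _ hD A _ _ α β
  choose ea e0 e2 e1 using fun a : Fq q K => ea_exists hD α β a.1 a.2
  let fa : ∀ a : Fq q K, AS q (α + a.1 • β) →ₐ[K] XX q α β := fun a =>
    (ea a).toAlgHom.comp (IsScalarTower.toAlgHom K (AS q (α + a.1 • β))
      (AS q (AdjoinRoot.of (ap q (α + a.1 • β)) β)))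
  have h0 : (0 : K) ^ q = 0 := zero_pow (q_pos hD)
  -- the values of `fa`
  have fa0 : ∀ (a : Fq q K) (x : A), fa a (AdjoinRoot.of (ap q (α + a.1 • β)) x) = w0 K q α β x :=
    fun a x => e0 a x
  have far : ∀ a : Fq q K, fa a (AdjoinRoot.root (ap q (α + a.1 • β))) =
      w1 q α β + algebraMap K _ a.1 * w2 q α β := fun a => e2 a
  have hK : ∀ (L : Type) [Field L] (x : XX q α β →+* L), ∃ ψ : K →+* L,
      ∀ c, x (algebraMap K _ c) = ψ c := fun L _ x => ⟨x.comp (algebraMap K _), fun c => rfl⟩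
  refine ⟨tr hD α β, fa, ea, tr_zero hD α β, ?_, ?_, fun a => rfl, ?_, ?_, ?_, ?_⟩
  · intro g h
    have hg := fq_neg hD g.2
    have hh := fq_neg hD h.2
    rw [Function.bijective_iff_has_inverse]
    refine ⟨tr hD α β (-g.1) (-h.1), fun x => ?_, fun x => ?_⟩
    · rw [← AlgHom.comp_apply, tr_comp hD α β g.2 h.2 hg hh, add_neg_cancel, add_neg_cancel,
        tr_zero]
      rfl
    · rw [← AlgHom.comp_apply, tr_comp hD α β hg hh g.2 h.2, neg_add_cancel, neg_add_cancel,
        tr_zero]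
      rfl
  · intro g h
    rw [tr_comp hD α β g.2 h0 h0 h.2, add_zero, zero_add]
  · intro a g
    have hag : (-(a.1 * g.1)) ^ q = -(a.1 * g.1) := fq_neg hD (fq_mul a.2 g.2)
    refine AdjoinRoot.algHom_ext' ?_ ?_
    · refine AlgHom.ext fun x => ?_
      change tr hD α β (-(a.1 * g.1)) g.1 (fa a (AdjoinRoot.of _ x)) = fa a (AdjoinRoot.of _ x)
      rw [fa0, tr_w0 hD α β hag g.2]
    · change tr hD α β (-(a.1 * g.1)) g.1 (fa a (AdjoinRoot.root _)) = fa a (AdjoinRoot.root _)
      rw [far, map_add, map_mul, AlgHom.commutes, tr_w1 hD α β hag g.2, tr_w2 hD α β hag g.2,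
        map_neg, map_mul]
      ring
  · intro g
    refine AdjoinRoot.algHom_ext' ?_ ?_
    · refine AlgHom.ext fun x => ?_
      exact tr_w0 hD α β g.2 h0 x
    · have h := tr_w2 hD α β g.2 h0
      rw [map_zero, add_zero] at h
      exact h
  · intro a L _ x y hxy
    let ψ : K →+* L := x.comp (algebraMap K _)
    let _ : Algebra K L := ψ.toAlgebra
    have hψ : ∀ c : K, x (algebraMap K _ c) = ψ c := fun c => rfl
    have hA : ∀ z : A, x (w0 K q α β z) = y (w0 K q α β z) := by
      intro z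
      have h := RingHom.congr_fun hxy (AdjoinRoot.of (ap q (α + a.1 • β)) z)
      change x (fa a (AdjoinRoot.of _ z)) = y (fa a (AdjoinRoot.of _ z)) at h
      rwa [fa0] at h
    have hψy : ∀ c : K, y (algebraMap K _ c) = ψ c := by
      intro c
      have h := hA (algebraMap K A c)
      rw [AlgHom.commutes] at h
      exact h.symm
    have hr : x (w1 q α β) + ψ a.1 * x (w2 q α β) = y (w1 q α β) + ψ a.1 * y (w2 q α β) := by
      have h := RingHom.congr_fun hxy (AdjoinRoot.root (ap q (α + a.1 • β)))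
      change x (fa a (AdjoinRoot.root _)) = y (fa a (AdjoinRoot.root _)) at h
      rw [far, map_add, map_mul, map_add, map_mul, hψ, hψy] at h
      exact h
    have hδ : (y (w2 q α β) - x (w2 q α β)) ^ q = y (w2 q α β) - x (w2 q α β) := by
      have k1 : x (w2 q α β) ^ q - x (w2 q α β) = y (w2 q α β) ^ q - y (w2 q α β) := by
        rw [← map_pow, ← map_sub, ← map_pow, ← map_sub, w2_eq (K := K), hA]
      rw [sub_eq_add_neg, frob hD L, neg_pow' hD L]
      linear_combination -k1
    obtain ⟨g, hg⟩ := root_mem hF hD ψ _ hδ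
    have hag : ∀ g : Fq q K, (-(a.1 * g.1)) ^ q = -(a.1 * g.1) := fun g =>
      fq_neg hD (fq_mul a.2 g.2)
    refine ⟨g, ?_, ?_⟩
    · refine ring_ext K (fun z => ?_) ?_ ?_
      · change x (tr hD α β (-(a.1 * g.1)) g.1 (w0 K q α β z)) = _
        rw [tr_w0 hD α β (hag g) g.2, hA]
      · change x (tr hD α β (-(a.1 * g.1)) g.1 (w1 q α β)) = _
        rw [tr_w1 hD α β (hag g) g.2, map_add, hψ, map_neg, map_mul, hg]
        linear_combination hr
      · change x (tr hD α β (-(a.1 * g.1)) g.1 (w2 q α β)) = _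
        rw [tr_w2 hD α β (hag g) g.2, map_add, hψ, hg]
        ring
    · intro g' hg'
      have h := RingHom.congr_fun hg' (w2 q α β)
      change x (tr hD α β (-(a.1 * g'.1)) g'.1 (w2 q α β)) = _ at h
      rw [tr_w2 hD α β (hag g') g'.2, map_add, hψ] at h
      refine Subtype.ext (ψ.injective ?_)
      rw [hg, ← h]
      ring
  · intro L _ x y hxy
    let ψ : K →+* L := x.comp (algebraMap K _)
    let _ : Algebra K L := ψ.toAlgebra
    have hψ : ∀ c : K, x (algebraMap K _ c) = ψ c := fun c => rfl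
    have hA : ∀ z : A, x (w0 K q α β z) = y (w0 K q α β z) := fun z =>
      RingHom.congr_fun hxy (AdjoinRoot.of (ap q β) z)
    have hr : x (w2 q α β) = y (w2 q α β) := RingHom.congr_fun hxy (AdjoinRoot.root (ap q β))
    have hδ : (y (w1 q α β) - x (w1 q α β)) ^ q = y (w1 q α β) - x (w1 q α β) := by
      have k1 : x (w1 q α β) ^ q - x (w1 q α β) = y (w1 q α β) ^ q - y (w1 q α β) := by
        rw [← map_pow, ← map_sub, ← map_pow, ← map_sub, w1_eq (K := K), hA]
      rw [sub_eq_add_neg, frob hD L, neg_pow' hD L]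
      linear_combination -k1
    obtain ⟨g, hg⟩ := root_mem hF hD ψ _ hδ
    refine ⟨g, ?_, ?_⟩
    · refine ring_ext K (fun z => ?_) ?_ ?_
      · change x (tr hD α β g.1 0 (w0 K q α β z)) = _
        rw [tr_w0 hD α β g.2 h0, hA]
      · change x (tr hD α β g.1 0 (w1 q α β)) = _
        rw [tr_w1 hD α β g.2 h0, map_add, hψ, hg]
        ring
      · change x (tr hD α β g.1 0 (w2 q α β)) = _
        rw [tr_w2 hD α β g.2 h0, map_add, map_zero, map_zero, add_zero, hr]
    · intro g' hg'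
      have h := RingHom.congr_fun hg' (w1 q α β)
      change x (tr hD α β g'.1 0 (w1 q α β)) = _ at h
      rw [tr_w1 hD α β g'.2 h0, map_add, hψ] at h
      refine Subtype.ext (ψ.injective ?_)
      rw [hg, ← h]
      ring

end Pool.Agent.FMS
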