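import Pool.Agent.FMS.St4
import Pool.Agent.QCV.Asm

/-!
# FMS, module RTS: roots of the coefficients
-/

set_option autoImplicit false

open CategoryTheory AlgebraicGeometry Polynomial

namespace Pool.Agent.FMS

open QCV (DL)

namespace RTSAux

open TensorProduct

section BaseChange

variable {k C C₁ : Type} [Field k] [CommRing C] [Algebra k C] [CommRing C₁] [Algebra k C₁]
  [Algebra C C₁] [IsScalarTower k C C₁] {n : ℕ} {ι : Type}
  (f : ι → MvPolynomial (Fin n) C) (g : ι → MvPolynomial (Fin n) C₁)
  (hfg : ∀ i, MvPolynomial.map (algebraMap C C₁) (f i) = g i)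

/-- The algebra of a system. -/
abbrev QA {R : Type} [CommRing R] (f : ι → MvPolynomial (Fin n) R) : Type :=
  MvPolynomial (Fin n) R ⧸ Ideal.span (Set.range f)

include hfg in
/-- From the system over `C` to the system over `C₁`. -/
theorem up_aux : ∀ x ∈ Ideal.span (Set.range f),
    ((Ideal.Quotient.mk (Ideal.span (Set.range g))).comp
      (MvPolynomial.map (σ := Fin n) (algebraMap C C₁))) x = 0 := by
  intro x hx
  have h1 : Ideal.span (Set.range f) ≤ RingHom.ker
      ((Ideal.Quotient.mk (Ideal.span (Set.range g))).comp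
        (MvPolynomial.map (σ := Fin n) (algebraMap C C₁))) := by
    rw [Ideal.span_le]
    rintro _ ⟨i, rfl⟩
    rw [SetLike.mem_coe, RingHom.mem_ker, RingHom.comp_apply, hfg,
      Ideal.Quotient.eq_zero_iff_mem]
    exact Ideal.subset_span ⟨i, rfl⟩
  exact h1 hx

/-- From the system over `C` to the system over `C₁`. -/
noncomputable def up : QA f →ₐ[C] QA g where
  toRingHom := Ideal.Quotient.lift _ ((Ideal.Quotient.mk _).comp
    (MvPolynomial.map (algebraMap C C₁))) (up_aux f g hfg)
  commutes' := fun r => by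
    change Ideal.Quotient.lift _ ((Ideal.Quotient.mk _).comp
      (MvPolynomial.map (algebraMap C C₁))) (up_aux f g hfg)
        (Ideal.Quotient.mk _ (MvPolynomial.C r)) = Ideal.Quotient.mk _ (algebraMap C _ r)
    rw [Ideal.Quotient.lift_mk, RingHom.comp_apply, MvPolynomial.map_C]
    rfl

theorem up_mk (p : MvPolynomial (Fin n) C) :
    up f g hfg (Ideal.Quotient.mk _ p) =
      Ideal.Quotient.mk _ (MvPolynomial.map (algebraMap C C₁) p) := rfl

section Gen

variable {R : Type} [CommRing R] (a : QA f →+* R) (b : C₁ →+* R)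

/-- The evaluation. -/
noncomputable def ev : MvPolynomial (Fin n) C₁ →+* R :=
  MvPolynomial.eval₂Hom b
    fun i => a (Ideal.Quotient.mk (Ideal.span (Set.range f)) (MvPolynomial.X i))

omit [Algebra C C₁] in
theorem ev_C (c : C₁) : ev f a b (MvPolynomial.C c) = b c := by
  rw [ev, MvPolynomial.coe_eval₂Hom, MvPolynomial.eval₂_C]

omit [Algebra C C₁] in
theorem ev_X (i : Fin n) : ev f a b (MvPolynomial.X i) =
    a (Ideal.Quotient.mk (Ideal.span (Set.range f)) (MvPolynomial.X i)) := by
  rw [ev, MvPolynomial.coe_eval₂Hom, MvPolynomial.eval₂_X]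

variable (hab : ∀ r : C, a (algebraMap C (QA f) r) = b (algebraMap C C₁ r))

include hab in
theorem ev_map (p : MvPolynomial (Fin n) C) :
    ev f a b (MvPolynomial.map (algebraMap C C₁) p) =
      a (Ideal.Quotient.mk (Ideal.span (Set.range f)) p) := by
  have h : (ev f a b).comp (MvPolynomial.map (algebraMap C C₁)) =
      a.comp (Ideal.Quotient.mk (Ideal.span (Set.range f))) := by
    refine MvPolynomial.ringHom_ext (fun r => ?_) fun i => ?_
    · rw [RingHom.comp_apply, MvPolynomial.map_C, ev_C]
      exact (hab r).symm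
    · rw [RingHom.comp_apply, MvPolynomial.map_X, ev_X]
      rfl
  exact RingHom.congr_fun h p

include hab hfg in
theorem ev_zero : ∀ x ∈ Ideal.span (Set.range g), ev f a b x = 0 := by
  intro x hx
  have h1 : Ideal.span (Set.range g) ≤ RingHom.ker (ev f a b) := by
    rw [Ideal.span_le]
    rintro _ ⟨i, rfl⟩
    rw [SetLike.mem_coe, RingHom.mem_ker, ← hfg, ev_map f a b hab,
      Ideal.Quotient.eq_zero_iff_mem.2 (Ideal.subset_span (Set.mem_range_self i)), map_zero]
  exact h1 hx

/-- The homomorphism from the system over `C₁`. -/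
noncomputable def psi : QA g →+* R :=
  Ideal.Quotient.lift _ (ev f a b) (ev_zero f g hfg a b hab)

theorem psi_mk (p : MvPolynomial (Fin n) C₁) :
    psi f g hfg a b hab (Ideal.Quotient.mk _ p) = ev f a b p := rfl

end Gen

theorem comm_C (r : C) : (Algebra.TensorProduct.includeLeftRingHom : QA f →+* QA f ⊗[C] C₁)
    (algebraMap C (QA f) r) =
      (Algebra.TensorProduct.includeRight : C₁ →ₐ[C] QA f ⊗[C] C₁).toRingHom
        (algebraMap C C₁ r) := by
  change (algebraMap C (QA f) r) ⊗ₜ[C] (1 : C₁) = (1 : QA f) ⊗ₜ[C] (algebraMap C C₁ r)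
  rw [Algebra.algebraMap_eq_smul_one, Algebra.algebraMap_eq_smul_one,
    TensorProduct.tmul_smul, TensorProduct.smul_tmul']

/-- From the system over `C₁` to the tensor product. -/
noncomputable def dn : QA g →+* (QA f ⊗[C] C₁) :=
  psi (R := QA f ⊗[C] C₁) f g hfg
    (Algebra.TensorProduct.includeLeftRingHom : QA f →+* QA f ⊗[C] C₁)
    (Algebra.TensorProduct.includeRight : C₁ →ₐ[C] QA f ⊗[C] C₁).toRingHom (comm_C f)

theorem dn_C (c : C₁) : dn f g hfg (Ideal.Quotient.mk _ (MvPolynomial.C c)) =
    (1 : QA f) ⊗ₜ[C] c := by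
  unfold dn
  rw [psi_mk, ev_C]
  rfl

theorem dn_X (i : Fin n) : dn f g hfg (Ideal.Quotient.mk _ (MvPolynomial.X i)) =
    (Ideal.Quotient.mk (Ideal.span (Set.range f)) (MvPolynomial.X i)) ⊗ₜ[C] (1 : C₁) := by
  unfold dn
  rw [psi_mk, ev_X]
  rfl

theorem dn_up (a : QA f) : dn f g hfg (up f g hfg a) = a ⊗ₜ[C] (1 : C₁) := by
  obtain ⟨p, rfl⟩ := Ideal.Quotient.mk_surjective a
  unfold dn
  rw [up_mk, psi_mk, ev_map f _ _ (comm_C f)]
  rfl

/-- From the tensor product to the system over `C₁`. -/
noncomputable def bk : (QA f ⊗[C] C₁) →+* QA g :=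
  (Algebra.TensorProduct.productMap (up f g hfg)
    (@AlgHom.mk C C₁ (QA g) _ _ _ _ _ ((Ideal.Quotient.mk _).comp MvPolynomial.C)
      fun _ => rfl)).toRingHom

theorem bk_tmul (a : QA f) (b : C₁) :
    bk f g hfg (a ⊗ₜ[C] b) = up f g hfg a * Ideal.Quotient.mk _ (MvPolynomial.C b) := rfl

theorem dn_bk : (dn f g hfg).comp (bk f g hfg) = RingHom.id _ := by
  refine RingHom.ext fun t => ?_
  induction t with
  | zero => rw [map_zero, map_zero]
  | tmul a b =>
    rw [RingHom.comp_apply, bk_tmul, map_mul, dn_up, dn_C, Algebra.TensorProduct.tmul_mul_tmul,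
      mul_one, one_mul, RingHom.id_apply]
  | add x y hx hy => rw [map_add, map_add, hx, hy]

theorem bk_dn : (bk f g hfg).comp (dn f g hfg) = RingHom.id _ := by
  refine Ideal.Quotient.ringHom_ext (MvPolynomial.ringHom_ext (fun r => ?_) fun i => ?_)
  · change bk f g hfg (dn f g hfg (Ideal.Quotient.mk _ (MvPolynomial.C r))) =
      Ideal.Quotient.mk _ (MvPolynomial.C r)
    rw [dn_C, bk_tmul, map_one, one_mul]
  · change bk f g hfg (dn f g hfg (Ideal.Quotient.mk _ (MvPolynomial.X i))) =
      Ideal.Quotient.mk _ (MvPolynomial.X i)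
    rw [dn_X, bk_tmul, map_one, map_one, mul_one, up_mk, MvPolynomial.map_X]

/-- The change of the base. -/
noncomputable def bc : QA g ≃ₐ[k] (QA f ⊗[C] C₁) :=
  AlgEquiv.ofRingEquiv (f := RingEquiv.ofRingHom (dn f g hfg) (bk f g hfg)
    (dn_bk f g hfg) (bk_dn f g hfg)) (fun r => by
      change dn f g hfg (Ideal.Quotient.mk _ (MvPolynomial.C (algebraMap k C₁ r))) = _
      rw [dn_C, Algebra.TensorProduct.algebraMap_apply, IsScalarTower.algebraMap_apply k C C₁,
        IsScalarTower.algebraMap_apply k C (QA f)]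
      rw [Algebra.algebraMap_eq_smul_one (A := C₁), Algebra.algebraMap_eq_smul_one (A := QA f),
        TensorProduct.tmul_smul, TensorProduct.smul_tmul'])

end BaseChange

theorem map_sS {C C₁ : Type} [CommRing C] [CommRing C₁] [Algebra C C₁] {n r : ℕ}
    (S : Fin r → Finset (Fin n →₀ ℕ)) (a : Fin r → (Fin n →₀ ℕ) → C) (j : Fin r) :
    MvPolynomial.map (algebraMap C C₁) (sS S a j) =
      sS S (fun j α => algebraMap C C₁ (a j α)) j := by
  unfold sS
  rw [map_sum]
  exact Finset.sum_congr rfl fun α _ => MvPolynomial.map_monomial _ _ _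

theorem step {k : Type} [Field k] {Q : Prp k} (hQ : FMO.Clo k Q) (hF : FreeA Q) {n r : ℕ}
    (S : Fin r → Finset (Fin n →₀ ℕ)) (C : Type) [CommRing C] [Algebra k C]
    [Algebra.FiniteType k C] (a : Fin r → (Fin n →₀ ℕ) → C) (g : C[X]) (hg : g.Monic)
    (hd : 0 < g.natDegree)
    (h : Q (SA S fun j α => algebraMap C (AdjoinRoot g) (a j α))) : Q (SA S a) := by
  have hfin : Module.Finite C (AdjoinRoot g) := hg.finite_adjoinRoot
  have hfree : Module.Free C (AdjoinRoot g) := hg.free_adjoinRoot
  have hft : Algebra.FiniteType (SA S a) (SA S a ⊗[C] AdjoinRoot g) := inferInstance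
  have hft2 : Algebra.FiniteType k (SA S a ⊗[C] AdjoinRoot g) :=
    Algebra.FiniteType.trans (S := SA S a) inferInstance hft
  have h1 : Q (SA S a ⊗[C] AdjoinRoot g) :=
    hQ.iso (bc (k := k) (C₁ := AdjoinRoot g) (sS S a)
      (sS S fun j α => algebraMap C (AdjoinRoot g) (a j α)) (map_sS S a)) h
  rcases subsingleton_or_nontrivial (SA S a) with hs | hs
  · exact hQ.triv _ hs
  · have hC : Nontrivial C := (algebraMap C (SA S a)).domain_nontrivial
    refine hF (SA S a) (SA S a ⊗[C] AdjoinRoot g) ?_ h1
    rw [Module.finrank_baseChange]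
    have h2 : Module.finrank C (AdjoinRoot g) = g.natDegree :=
      (AdjoinRoot.powerBasis' hg).finrank
    rw [h2]; exact hd

end RTSAux

open RTSAux in
theorem t_RTS : S_RTS := by
  classical
  intro k _ Q hQ hF d n r N hN S h
  have key : ∀ (m : ℕ) (C : Type) [CommRing C] [Algebra k C] [Algebra.FiniteType k C]
      (a : Fin r → (Fin n →₀ ℕ) → C), DL k C d →
      (∀ j, ∀ α ∈ S j, a j α = 0 ∨ IsUnit (a j α)) →
      ((Finset.univ.sigma S).filter fun p : (_ : Fin r) × (Fin n →₀ ℕ) =>
        ¬ (a p.1 p.2 = 0 ∨ ∃ b : Cˣ, (b : C) ^ N = a p.1 p.2)).card = m → Q (SA S a) := by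
    intro m
    induction m using Nat.strong_induction_on with
    | _ m ih =>
      intro C _ _ _ a hd ha hm
      by_cases hall : ∀ j, ∀ α ∈ S j, a j α = 0 ∨ ∃ b : Cˣ, (b : C) ^ N = a j α
      · exact h C a hd hall
      · push Not at hall
        obtain ⟨j₀, α₀, hα₀, h0, hno⟩ := hall
        have hx : IsUnit (a j₀ α₀) := (ha j₀ α₀ hα₀).resolve_left h0
        set g : C[X] := X ^ N - Polynomial.C (a j₀ α₀) with hgd
        have hg : g.Monic := monic_X_pow_sub_C _ hN.ne'
        have hfin : Module.Finite C (AdjoinRoot g) := hg.finite_adjoinRoot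
        rcases subsingleton_or_nontrivial C with hs | hs
        · have : Subsingleton (SA S a) :=
            subsingleton_of_zero_eq_one (by
              have h1 : (0 : C) = 1 := Subsingleton.elim _ _
              have h2 := congrArg (algebraMap C (SA S a)) h1
              simpa using h2)
          exact hQ.triv _ this
        have hdeg : g.natDegree = N := natDegree_X_pow_sub_C
        refine step hQ hF S C a g hg (by rw [hdeg]; exact hN) ?_
        have hroot : (AdjoinRoot.root g) ^ N = algebraMap C (AdjoinRoot g) (a j₀ α₀) := by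
          have h1 := AdjoinRoot.eval₂_root g
          rw [hgd, eval₂_sub, eval₂_X_pow, eval₂_C, sub_eq_zero] at h1
          exact h1
        have hru : IsUnit (AdjoinRoot.root g) := by
          have h1 : IsUnit ((AdjoinRoot.root g) ^ N) := by
            rw [hroot]; exact hx.map _
          exact (isUnit_pow_iff hN.ne').1 h1
        refine ih _ ?_ (AdjoinRoot g) (fun j α => algebraMap C (AdjoinRoot g) (a j α))
          (QCV.Asm.s_DLR.2.2.1 k C (AdjoinRoot g) d hd) ?_ rfl
        · rw [← hm]
          refine Finset.card_lt_card (Finset.ssubset_iff_subset_ne.2 ⟨?_, ?_⟩)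
          · intro p hp
            simp only [Finset.mem_filter] at hp ⊢
            refine ⟨hp.1, fun h1 => hp.2 ?_⟩
            rcases h1 with h1 | ⟨b, hb⟩
            · left; rw [h1, map_zero]
            · right
              exact ⟨Units.map (algebraMap C (AdjoinRoot g)).toMonoidHom b, by
                rw [← hb, map_pow]; rfl⟩
          · intro heq
            have h1 : (⟨j₀, α₀⟩ : (_ : Fin r) × (Fin n →₀ ℕ)) ∈
                (Finset.univ.sigma S).filter fun p : (_ : Fin r) × (Fin n →₀ ℕ) =>
                  ¬ (a p.1 p.2 = 0 ∨ ∃ b : Cˣ, (b : C) ^ N = a p.1 p.2) := by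
              simp only [Finset.mem_filter, Finset.mem_sigma, Finset.mem_univ, true_and]
              refine ⟨hα₀, fun h2 => ?_⟩
              rcases h2 with h2 | ⟨b, hb⟩
              · exact h0 h2
              · exact hno b hb
            rw [← heq] at h1
            simp only [Finset.mem_filter] at h1
            refine h1.2 (Or.inr ⟨hru.unit, ?_⟩)
            rw [IsUnit.unit_spec]
            exact hroot
        · intro j α hα
          rcases ha j α hα with h1 | h1
          · left
            rw [h1, map_zero]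
          · right
            exact h1.map (algebraMap C (AdjoinRoot g))
  intro C _ _ _ a hd ha
  exact key _ C a hd ha rfl

end Pool.Agent.FMS
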