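import Pool.Agent.FMS.St6
import Pool.Agent.FMS.RTS

/-!
# FMS, module BCF (helper99): finite free change of the base
-/

set_option autoImplicit false

open CategoryTheory AlgebraicGeometry Polynomial

namespace Pool.Agent.FMS

open RTSAux TensorProduct in
theorem t_BCF : S_BCF := by
  intro k _ Q hQ hF C C' _ _ _ _ _ _ _ _ _ _ hr n r S a h
  have hft : Algebra.FiniteType (SA S a) (SA S a ⊗[C] C') := inferInstance
  have hft2 : Algebra.FiniteType k (SA S a ⊗[C] C') :=
    Algebra.FiniteType.trans (S := SA S a) inferInstance hft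
  have h1 : Q (SA S a ⊗[C] C') :=
    hQ.iso (bc (k := k) (C₁ := C') (sS S a)
      (sS S fun j α => algebraMap C C' (a j α)) (map_sS S a)) h
  rcases subsingleton_or_nontrivial (SA S a) with hs | hs
  · exact hQ.triv _ hs
  · have hC : Nontrivial C := (algebraMap C (SA S a)).domain_nontrivial
    refine hF (SA S a) (SA S a ⊗[C] C') ?_ h1
    rw [Module.finrank_baseChange]
    exact hr

end Pool.Agent.FMS
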