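import Pool.Agent.FMS.St6

/-!
# FMS, BDH (helper70): the bound for the residue fields under change of the ring
-/

set_option autoImplicit false

open CategoryTheory AlgebraicGeometry Polynomial Multiplicative

namespace Pool.Agent.FMS

open FMO (Kp)

namespace BDHAux

/-- the homomorphism of the residue fields -/
theorem residue (k : Type) [Field k] (C C' : Type) [CommRing C] [Algebra k C] [CommRing C']
    [Algebra k C'] (g : C →ₐ[k] C') (q' : PrimeSpectrum C') :
    ∃ (q : PrimeSpectrum C) (f : Kp q →ₐ[k] Kp q'), ∀ a, f (FMO.val q a) = FMO.val q' (g a) := by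
  let q : PrimeSpectrum C := PrimeSpectrum.comap g.toRingHom q'
  have hq : q.asIdeal = q'.asIdeal.comap g := rfl
  let h : C ⧸ q.asIdeal →ₐ[k] C' ⧸ q'.asIdeal :=
    Ideal.quotientMapₐ q'.asIdeal g (le_of_eq hq)
  have hinj : Function.Injective h :=
    Ideal.quotientMap_injective' (J := q.asIdeal) (I := q'.asIdeal) (f := g.toRingHom)
      (H := le_of_eq hq) (le_of_eq hq.symm)
  let h2 : C' ⧸ q'.asIdeal →ₐ[k] Kp q' := IsScalarTower.toAlgHom k (C' ⧸ q'.asIdeal) (Kp q')
  have h2inj : Function.Injective h2 := IsFractionRing.injective (C' ⧸ q'.asIdeal) (Kp q')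
  let h3 : C ⧸ q.asIdeal →ₐ[k] Kp q' := h2.comp h
  have h3inj : Function.Injective h3 := h2inj.comp hinj
  refine ⟨q, IsFractionRing.liftAlgHom (K := Kp q) (g := h3) h3inj, fun a => ?_⟩
  show IsFractionRing.liftAlgHom (K := Kp q) (g := h3) h3inj
    (algebraMap (C ⧸ q.asIdeal) (Kp q) (Ideal.Quotient.mk q.asIdeal a)) = _
  rw [IsFractionRing.liftAlgHom_apply, IsFractionRing.lift_algebraMap]
  rfl

end BDHAux

open BDHAux in
theorem t_BDH : S_BDH := by
  intro k _ V V' W W' d C C' _ _ _ _ g φ φ' hW hB q'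
  obtain ⟨q, f, hf⟩ := residue k C C' g q'
  have h1 := hB q
  set F := IntermediateField.adjoin k {x : Kp q | ∃ v ∈ W, x = FMO.val q (φ v)} with hF
  have h2 : IntermediateField.adjoin k {x : Kp q' | ∃ v ∈ W', x = FMO.val q' (φ' v)} ≤ F.map f := by
    rw [hF, IntermediateField.adjoin_map]
    refine IntermediateField.adjoin.mono _ _ _ ?_
    rintro x ⟨w', hw', rfl⟩
    obtain ⟨w, hw, e⟩ := hW w' hw'
    refine ⟨FMO.val q (φ w), ⟨w, hw, rfl⟩, ?_⟩
    rw [e]
    exact hf _
  calc Algebra.trdeg k (IntermediateField.adjoin k {x : Kp q' | ∃ v ∈ W', x = FMO.val q' (φ' v)})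
      ≤ Algebra.trdeg k (F.map f) :=
        trdeg_le_of_injective (IntermediateField.inclusion h2)
          (IntermediateField.inclusion h2).injective
    _ = Algebra.trdeg k F := (AlgEquiv.trdeg_eq (F.equivMap f)).symm
    _ ≤ d := h1

end Pool.Agent.FMS
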