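import Pool.Agent.FMS.St9

/-!
# Birational integral affine varieties (module BIR)
-/

set_option autoImplicit false

namespace Pool.Agent.FMS

namespace BIR

variable {k : Type} [Field k]

/-- the localization at `a`, embedded in a field -/
theorem exists_loc {A K : Type} [CommRing A] [IsDomain A] [Algebra k A] [Field K] [Algebra k K]
    (φ : A →ₐ[k] K) (hφ : Function.Injective φ) {a : A} (ha : a ≠ 0) :
    ∃ f : Localization.Away a →ₐ[k] K, Function.Injective f ∧
      ∀ x, x ∈ f.range ↔ ∃ (n : ℕ) (s : A), φ a ^ n * x = φ s := by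
  have h0 : φ a ≠ 0 := fun h => ha (hφ (by rw [h, map_zero]))
  have hu : ∀ y : Submonoid.powers a, IsUnit (φ y) := by
    rintro ⟨y, n, rfl⟩
    exact isUnit_iff_ne_zero.2 (by
      show φ (a ^ n) ≠ 0
      rw [map_pow]
      exact pow_ne_zero n h0)
  refine ⟨IsLocalization.liftAlgHom (M := Submonoid.powers a) (f := φ) hu, ?_, ?_⟩
  · intro x y hxy
    obtain ⟨s, t, rfl⟩ := IsLocalization.exists_mk'_eq (Submonoid.powers a) x
    obtain ⟨s', t', rfl⟩ := IsLocalization.exists_mk'_eq (Submonoid.powers a) y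
    have h1 : ∀ (s : A) (t : Submonoid.powers a),
        φ t * IsLocalization.liftAlgHom (M := Submonoid.powers a) (f := φ) hu
          (IsLocalization.mk' (Localization.Away a) s t) = φ s := by
      intro s t
      have h2 : algebraMap A (Localization.Away a) t *
          IsLocalization.mk' (Localization.Away a) s t = algebraMap A (Localization.Away a) s := by
        rw [mul_comm]
        exact IsLocalization.mk'_spec _ s t
      have h3 := congrArg (IsLocalization.liftAlgHom (M := Submonoid.powers a) (f := φ) hu) h2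
      rw [map_mul] at h3
      simpa using h3
    have h2 := h1 s t
    have h3 := h1 s' t'
    rw [← hxy] at h3
    rw [IsLocalization.mk'_eq_iff_eq]
    congr 1
    apply hφ
    rw [map_mul, map_mul, ← h2, ← h3]
    ring
  · intro x
    constructor
    · rintro ⟨y, rfl⟩
      obtain ⟨s, ⟨t, n, rfl⟩, rfl⟩ := IsLocalization.exists_mk'_eq (Submonoid.powers a) y
      refine ⟨n, s, ?_⟩
      have h2 : algebraMap A (Localization.Away a) (a ^ n) *
          IsLocalization.mk' (Localization.Away a) s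
            (⟨a ^ n, n, rfl⟩ : Submonoid.powers a) = algebraMap A (Localization.Away a) s := by
        rw [mul_comm]
        exact IsLocalization.mk'_spec _ s (⟨a ^ n, n, rfl⟩ : Submonoid.powers a)
      have h3 := congrArg (IsLocalization.liftAlgHom (M := Submonoid.powers a) (f := φ) hu) h2
      rw [map_mul] at h3
      simpa using h3
    · rintro ⟨n, s, h⟩
      refine ⟨IsLocalization.mk' (Localization.Away a) s
        (⟨a ^ n, n, rfl⟩ : Submonoid.powers a), ?_⟩
      have h2 : algebraMap A (Localization.Away a) (a ^ n) *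
          IsLocalization.mk' (Localization.Away a) s
            (⟨a ^ n, n, rfl⟩ : Submonoid.powers a) = algebraMap A (Localization.Away a) s := by
        rw [mul_comm]
        exact IsLocalization.mk'_spec _ s (⟨a ^ n, n, rfl⟩ : Submonoid.powers a)
      have h3 := congrArg (IsLocalization.liftAlgHom (M := Submonoid.powers a) (f := φ) hu) h2
      rw [map_mul] at h3
      have h4 : φ a ^ n * IsLocalization.liftAlgHom (M := Submonoid.powers a) (f := φ) hu
          (IsLocalization.mk' (Localization.Away a) s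
            (⟨a ^ n, n, rfl⟩ : Submonoid.powers a)) = φ s := by simpa using h3
      exact mul_left_cancel₀ (pow_ne_zero n h0) (h4.trans h.symm)

/-- finitely many elements have a common denominator -/
theorem exists_den {A B K : Type} [CommRing A] [IsDomain A] [Algebra k A] [CommRing B]
    [Algebra k B] [Algebra.FiniteType k B] [Field K] [Algebra k K] (φ : A →ₐ[k] K)
    (hφ : Function.Injective φ)
    (hden : ∀ s : Finset K, ∃ a : A, a ≠ 0 ∧ ∀ x ∈ s, ∃ t, φ a * x = φ t) (ψ : B →ₐ[k] K) :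
    ∃ a : A, a ≠ 0 ∧ ∀ t : B, ∃ (n : ℕ) (s : A), φ a ^ n * ψ t = φ s := by
  classical
  obtain ⟨S, hS⟩ := (Algebra.FiniteType.out : (⊤ : Subalgebra k B).FG)
  obtain ⟨a, ha, h⟩ := hden (S.image ψ)
  obtain ⟨f, -, hf⟩ := exists_loc φ hφ ha
  refine ⟨a, ha, fun t => (hf _).1 ?_⟩
  have h1 : (⊤ : Subalgebra k B).map ψ ≤ f.range := by
    rw [← hS, AlgHom.map_adjoin]
    refine Algebra.adjoin_le ?_
    rintro x ⟨y, hy, rfl⟩
    obtain ⟨t, ht⟩ := h (ψ y) (Finset.mem_image_of_mem ψ hy)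
    exact (hf _).2 ⟨1, t, by rw [pow_one]; exact ht⟩
  exact h1 ⟨t, Algebra.mem_top, rfl⟩

/-- one inclusion -/
theorem incl {A B K : Type} [CommRing A] [IsDomain A] [Algebra k A] [CommRing B] [IsDomain B]
    [Algebra k B] [Field K] [Algebra k K] (φ : A →ₐ[k] K) (ψ : B →ₐ[k] K)
    (hφ : Function.Injective φ) (hψ : Function.Injective ψ) {a c : A} {b d : B} {n m : ℕ}
    (ha : a ≠ 0) (hb : b ≠ 0) (hc : c ≠ 0) (hd : d ≠ 0)
    (h : ∀ t : B, ∃ (n : ℕ) (s : A), φ a ^ n * ψ t = φ s) (h1 : φ a ^ n * ψ b = φ c)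
    (h2 : ψ b ^ m * φ a = ψ d) {x : K} (hx : ∃ (N : ℕ) (t : B), ψ (b * d) ^ N * x = ψ t) :
    ∃ (N : ℕ) (s : A), φ (a * c) ^ N * x = φ s := by
  have h0 : ∀ {z : A}, z ≠ 0 → φ z ≠ 0 := fun hz h => hz (hφ (by rw [h, map_zero]))
  have h0' : ∀ {z : B}, z ≠ 0 → ψ z ≠ 0 := fun hz h => hz (hψ (by rw [h, map_zero]))
  obtain ⟨f, -, hf⟩ := exists_loc φ hφ (mul_ne_zero ha hc)
  rw [← hf]
  have hA : ∀ s : A, φ s ∈ f.range := fun s => (hf _).2 ⟨0, s, by rw [pow_zero, one_mul]⟩
  have hinv : (φ (a * c))⁻¹ ∈ f.range := (hf _).2 ⟨1, 1, by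
    rw [pow_one, map_one, mul_inv_cancel₀ (h0 (mul_ne_zero ha hc))]⟩
  have hai : (φ a)⁻¹ ∈ f.range := by
    have : (φ a)⁻¹ = φ c * (φ (a * c))⁻¹ := by
      rw [map_mul]
      have := h0 ha
      have := h0 hc
      field_simp
    rw [this]
    exact mul_mem (hA c) hinv
  have hci : (φ c)⁻¹ ∈ f.range := by
    have : (φ c)⁻¹ = φ a * (φ (a * c))⁻¹ := by
      rw [map_mul]
      have := h0 ha
      have := h0 hc
      field_simp
    rw [this]
    exact mul_mem (hA a) hinv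
  have hB : ∀ t : B, ψ t ∈ f.range := by
    intro t
    obtain ⟨N, s, hs⟩ := h t
    have : ψ t = φ s * (φ a)⁻¹ ^ N := by
      rw [← hs, inv_pow, mul_comm (φ a ^ N), mul_assoc, mul_inv_cancel₀ (pow_ne_zero _ (h0 ha)),
        mul_one]
    rw [this]
    exact mul_mem (hA s) (pow_mem hai N)
  have hbi : (ψ b)⁻¹ ∈ f.range := by
    have : (ψ b)⁻¹ = φ a ^ n * (φ c)⁻¹ := by
      rw [← h1, mul_inv, ← mul_assoc, mul_inv_cancel₀ (pow_ne_zero _ (h0 ha)), one_mul]
    rw [this]
    exact mul_mem (pow_mem (hA a) n) hci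
  have hdi : (ψ d)⁻¹ ∈ f.range := by
    have : (ψ d)⁻¹ = (ψ b)⁻¹ ^ m * (φ a)⁻¹ := by
      rw [← h2, mul_inv, inv_pow]
    rw [this]
    exact mul_mem (pow_mem hbi m) hai
  obtain ⟨N, t, ht⟩ := hx
  have : x = ψ t * ((ψ b)⁻¹ * (ψ d)⁻¹) ^ N := by
    rw [← ht, ← mul_inv, ← map_mul, inv_pow, mul_comm (ψ (b * d) ^ N), mul_assoc,
      mul_inv_cancel₀ (pow_ne_zero _ (h0' (mul_ne_zero hb hd))), mul_one]
  rw [this]
  exact mul_mem (hB t) (pow_mem (mul_mem hbi hdi) N)

theorem main (k A B : Type) [Field k] [CommRing A] [IsDomain A]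
    [Algebra k A] [Algebra.FiniteType k A] [CommRing B] [IsDomain B] [Algebra k B]
    [Algebra.FiniteType k B] (e : FractionRing A ≃ₐ[k] FractionRing B) :
    ∃ (a : A) (b : B), a ≠ 0 ∧ b ≠ 0 ∧
      Nonempty (Localization.Away a ≃ₐ[k] Localization.Away b) := by
  classical
  obtain ⟨φ, hφd⟩ : ∃ φ : A →ₐ[k] FractionRing A, ∀ x, φ x = algebraMap A (FractionRing A) x :=
    ⟨IsScalarTower.toAlgHom k A (FractionRing A), fun _ => rfl⟩
  obtain ⟨ψ, hψd⟩ : ∃ ψ : B →ₐ[k] FractionRing A,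
      ∀ x, ψ x = e.symm (algebraMap B (FractionRing B) x) :=
    ⟨(e.symm : FractionRing B →ₐ[k] FractionRing A).comp
      (IsScalarTower.toAlgHom k B (FractionRing B)), fun _ => rfl⟩
  have hφ : Function.Injective φ := by
    intro x y h
    rw [hφd, hφd] at h
    exact IsFractionRing.injective A (FractionRing A) h
  have hψ : Function.Injective ψ := by
    intro x y h
    rw [hψd, hψd] at h
    exact IsFractionRing.injective B (FractionRing B) (e.symm.injective h)
  have hdenA : ∀ s : Finset (FractionRing A), ∃ a : A, a ≠ 0 ∧ ∀ x ∈ s, ∃ t, φ a * x = φ t := by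
    intro s
    obtain ⟨a, ha⟩ := IsLocalization.exist_integer_multiples_of_finset (nonZeroDivisors A) s
    refine ⟨a, nonZeroDivisors.ne_zero a.2, fun x hx => ?_⟩
    obtain ⟨t, ht⟩ := ha x hx
    refine ⟨t, ?_⟩
    rw [hφd, hφd, ht, Algebra.smul_def]
  have hdenB : ∀ s : Finset (FractionRing A), ∃ b : B, b ≠ 0 ∧ ∀ x ∈ s, ∃ t, ψ b * x = ψ t := by
    intro s
    obtain ⟨b, hb⟩ := IsLocalization.exist_integer_multiples_of_finset (nonZeroDivisors B)
      (s.image e)
    refine ⟨b, nonZeroDivisors.ne_zero b.2, fun x hx => ?_⟩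
    obtain ⟨t, ht⟩ := hb (e x) (Finset.mem_image_of_mem e hx)
    refine ⟨t, ?_⟩
    rw [hψd, hψd, ht, Algebra.smul_def, map_mul, AlgEquiv.symm_apply_apply]
  obtain ⟨a, ha, h1⟩ := exists_den φ hφ hdenA ψ
  obtain ⟨b, hb, h2⟩ := exists_den ψ hψ hdenB φ
  obtain ⟨n, c, hc⟩ := h1 b
  obtain ⟨m, d, hd⟩ := h2 a
  have h0 : ∀ {z : A}, z ≠ 0 → φ z ≠ 0 := fun hz h => hz (hφ (by rw [h, map_zero]))
  have h0' : ∀ {z : B}, z ≠ 0 → ψ z ≠ 0 := fun hz h => hz (hψ (by rw [h, map_zero]))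
  have hc0 : c ≠ 0 := by
    rintro rfl
    rw [map_zero] at hc
    exact mul_ne_zero (pow_ne_zero _ (h0 ha)) (h0' hb) hc
  have hd0 : d ≠ 0 := by
    rintro rfl
    rw [map_zero] at hd
    exact mul_ne_zero (pow_ne_zero _ (h0' hb)) (h0 ha) hd
  obtain ⟨f, hf, hfr⟩ := exists_loc φ hφ (mul_ne_zero ha hc0)
  obtain ⟨g, hg, hgr⟩ := exists_loc ψ hψ (mul_ne_zero hb hd0)
  have heq : f.range = g.range := by
    refine le_antisymm (fun x hx => ?_) (fun x hx => ?_)
    · exact (hgr x).2 (incl ψ φ hψ hφ hb ha hd0 hc0 h2 hd hc ((hfr x).1 hx))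
    · exact (hfr x).2 (incl φ ψ hφ hψ ha hb hc0 hd0 h1 hc hd ((hgr x).1 hx))
  exact ⟨a * c, b * d, mul_ne_zero ha hc0, mul_ne_zero hb hd0,
    ⟨(AlgEquiv.ofInjective f hf).trans ((Subalgebra.equivOfEq _ _ heq).trans
      (AlgEquiv.ofInjective g hg).symm)⟩⟩

end BIR

theorem t_BIR : S_BIR := fun k A B => BIR.main k A B

end Pool.Agent.FMS
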