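import Pool.Agent.FMS.St6

/-!
# FMS, module BSG: varieties with small residue fields, for a property with four closure properties
-/

set_option autoImplicit false

open CategoryTheory AlgebraicGeometry Limits Polynomial TopologicalSpace

namespace Pool.Agent.FMS

open Pool.Agent.Lib_helper55.Beil Pool.Agent.Lib_helper66.OneP CUB
open UQ (Pt Mo di gp im IDim DimLE)
open FMO (At Sm Inv)
open LFQ (SPj)

namespace BSGAux

variable {k : Type} [Field k] {P : Var k → Prop}

lemma red (hP : Cl4 P) (X : Var k) (h : P (redVar X)) : P X :=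
  hP.paste (redVarIn X) (openVarIn X ⊥) (complementary_red X) h
    (hP.empty _ (isEmpty_openVar_bot X))

/-- noetherian induction: it is enough to treat the smooth affine integral subvarieties of `X₀` -/
lemma pf_aux [PerfectField k] (hP : Cl4 P) (X₀ : Var k)
    (hN : ∀ (V : Var k) (_ : IsIntegral V.X), IsAffine V.X → Smooth V.f →
      ∀ g : V.X ⟶ X₀.X, g ≫ X₀.f = V.f → IsPreimmersion g → P V)
    (C : Closeds X₀.X) :
    ∀ (Y : Var k) (g : Y.X ⟶ X₀.X), g ≫ X₀.f = Y.f → IsPreimmersion g → (∀ y, g y ∈ C) → P Y := by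
  induction C using WellFoundedLT.induction with
  | ind C ih =>
  intro Y g comm hg hC
  apply red hP
  have hred := isReduced_redVar Y
  have hcl := (redVarIn Y).closed
  set Y' := redVar Y
  set g' : Y'.X ⟶ X₀.X := (redVarIn Y).g ≫ g
  have comm' : g' ≫ X₀.f = Y'.f := by
    rw [Category.assoc, comm, (redVarIn Y).comm]
  have hC' : ∀ y, g' y ∈ C := fun y => hC _
  rcases isEmpty_or_nonempty Y'.X with he | ⟨⟨x⟩⟩
  · exact hP.empty _ he
  obtain ⟨η, -, hη⟩ := exists_maximal Y' x
  obtain ⟨U, hU1, -, hU3, hU4, hU5, hU6⟩ := exists_nice Y' η hη ⊤ trivial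
  have hop := (openVarIn Y' U).isOpen
  refine hP.paste (closedVarIn Y' U.compl) (openVarIn Y' U) (complementary_open Y' U) ?_
    (hN _ hU5 hU3 hU4 ((openVarIn Y' U).g ≫ g')
      (by rw [Category.assoc, comm', (openVarIn Y' U).comm]) inferInstance)
  have hcl := (closedVarIn Y' U.compl).closed
  refine ih (Closeds.closure (g' '' (U.compl : Set Y'.X)))
    (lt_of_closed g' C hC' U.compl η (fun hcon => hcon hU1))
    (closedVar Y' U.compl) ((closedVarIn Y' U.compl).g ≫ g') ?_ inferInstance ?_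
  · rw [Category.assoc, comm', (closedVarIn Y' U.compl).comm]
  · intro y
    have h1 : (closedVarIn Y' U.compl).g y ∈ (U.compl : Set Y'.X) := by
      rw [← range_closedVarIn]
      exact ⟨y, rfl⟩
    exact subset_closure ⟨_, h1, rfl⟩

/-- The complement of a nonempty open subvariety of an integral surface. -/
lemma exists_compl {U V : Var k} (j : OpenIn U V) [IsIntegral V.X] (h : Nonempty U.X)
    (hd : V.dim (genericPoint V.X) ≤ (2 : ℕ)) :
    ∃ (Z : Var k) (a : ClosedIn Z V), Complementary a j ∧ Z.DimLE (1 : ℕ) := by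
  obtain ⟨Z, a, ha⟩ := complementary_of_open j
  refine ⟨Z, a, ha, fun z => ?_⟩
  have hcl := a.closed
  have hop := j.isOpen
  have h1 : genericPoint V.X ∈ Set.range j.g := by
    obtain ⟨u⟩ := h
    exact (genericPoint_specializes (j.g u)).mem_open j.g.opensRange.2 ⟨u, rfl⟩
  have h2 : a.g z ∉ Set.range j.g := by
    have h3 : a.g z ∈ Set.range a.g := ⟨z, rfl⟩
    rw [ha] at h3
    exact h3
  have h3 : genericPoint V.X ≠ a.g z := fun h4 => h2 (h4 ▸ h1)
  have h4 := CUB.DST.dim_lt V _ _ (genericPoint_specializes (a.g z)) h3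
  have h5 : Z.dim z = V.dim (a.g z) := (dim_map a.g a.comm z).symm
  rw [h5]
  have h6 : V.dim (a.g z) < ((2 : ℕ) : Cardinal) := h4.trans_le hd
  obtain ⟨n, hn⟩ := Cardinal.lt_aleph0.1 (h6.trans (Cardinal.natCast_lt_aleph0))
  rw [hn] at h6 ⊢
  have h7 : n < 2 := by exact_mod_cast h6
  exact_mod_cast Nat.lt_succ_iff.1 h7

end BSGAux

open BSGAux in
theorem t_BSG : M_BSG := by
  intro hIMM hSMC k _ _ P hP hlow Φ hΦ hS hsurf X hX
  have hSm : Inv k (Sm Φ) := (hSMC k).1 Φ hΦ
  refine pf_aux hP X (fun V hint haff hsm g comm hg => ?_) ⊤ X (𝟙 _)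
    (Category.id_comp _) inferInstance (fun _ => trivial)
  have hV : ∀ v : Pt V, At (Sm Φ) V v :=
    fun v => (hIMM k V X g comm hg (Sm Φ) hSm v).2 (hX (g v))
  rcases hV (genericPoint V.X) with h | ⟨hd, hgp⟩
  · have h' : V.dim (genericPoint V.X) ≤ 1 := h
    have h1 : V.DimLE (1 : ℕ) := fun x =>
      (dim_le_of_specializes V (genericPoint_specializes x)).trans (by exact_mod_cast h')
    exact hlow V h1
  · have hd' : V.dim (genericPoint V.X) = ((2 : ℕ) : Cardinal) := by
      have h' : V.dim (genericPoint V.X) = 2 := hd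
      rw [h']
      norm_num
    obtain ⟨U', Y, a, b, ha, hb, hne, hY0⟩ := hS V ⟨hint, hd'⟩
    obtain ⟨hYs, ⟨hYi, hYd⟩, hYp⟩ := id hY0
    let ja : OpenIn U' V := UQ.toOp a ha
    let jb : OpenIn U' Y := UQ.toOp b hb
    have hja := ja.isOpen
    have hjb := jb.isOpen
    have hYint : IsIntegral Y.X := hYi
    have hne' : Nonempty U'.X := hne
    have hUint : IsIntegral U'.X := isIntegral_of_isOpenImmersion ja.g
    have e1 : ja.g (genericPoint U'.X) = genericPoint V.X :=
      genericPoint_eq_of_isOpenImmersion ja.g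
    have e2 : jb.g (genericPoint U'.X) = genericPoint Y.X :=
      genericPoint_eq_of_isOpenImmersion jb.g
    have hgp' : At Φ V (genericPoint V.X) := hgp
    have hY : At Φ Y (gp Y hYint) := by
      have h3 := (hIMM k U' V ja.g ja.comm inferInstance Φ hΦ (genericPoint U'.X)).2
        (by rw [e1]; exact hgp')
      have h4 := (hIMM k U' Y jb.g jb.comm inferInstance Φ hΦ (genericPoint U'.X)).1 h3
      rw [e2] at h4
      exact h4
    have hYP : P Y := hsurf Y hYint hY0 hY
    have hYd' : Y.dim (genericPoint Y.X) = ((2 : ℕ) : Cardinal) := hYd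
    obtain ⟨Z, z, hz, hZd⟩ := exists_compl jb hne' hYd'.le
    have hU : P U' := hP.cut z jb hz hYP (hlow Z hZd)
    obtain ⟨W, w, hw, hWd⟩ := exists_compl ja hne' hd'.le
    exact hP.paste w ja hw (hlow W hWd) hU

end Pool.Agent.FMS
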