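import Pool.Agent.FMS.St6

/-!
# FMS, module CMP: comparison of `CompA` with `FMO.Comp`
-/

set_option autoImplicit false

open CategoryTheory AlgebraicGeometry Polynomial Multiplicative

namespace Pool.Agent.FMS

open FMO (Univ Few Add CompX Comp Kp Laur At Sm Inv)

namespace CMPAux

/-- the elements of `L` which are algebraic over `K` -/
noncomputable def acl {k L : Type} [Field k] [Field L] [Algebra k L] (K : IntermediateField k L) :
    IntermediateField k L :=
  (algebraicClosure K L).restrictScalars k

lemma trdeg_acl {k L : Type} [Field k] [Field L] [Algebra k L] (K : IntermediateField k L)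
    (h : Algebra.trdeg k K ≤ 1) : Algebra.trdeg k (acl K) ≤ 1 := by
  have h1 : Algebra.trdeg K (algebraicClosure K L) = 0 :=
    trdeg_eq_zero_iff.2 inferInstance
  have h2 := trdeg_add_eq k K (A := algebraicClosure K L)
  have h3 : Algebra.trdeg k (algebraicClosure K L) = Algebra.trdeg k K := by
    rw [← h2, h1, add_zero]
  have h4 : Algebra.trdeg k (acl K) = Algebra.trdeg k (algebraicClosure K L) := rfl
  rw [h4, h3]
  exact h

lemma le_acl {k L : Type} [Field k] [Field L] [Algebra k L] (K : IntermediateField k L) :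
    K ≤ acl K := by
  intro x hx
  show x ∈ algebraicClosure K L
  exact (algebraicClosure K L).algebraMap_mem ⟨x, hx⟩

lemma alg_le_acl {k L : Type} [Field k] [Field L] [Algebra k L] (K K₀ : IntermediateField k L)
    (h : Algebra.IsAlgebraic k K₀) : K₀ ≤ acl K := by
  intro x hx
  show x ∈ algebraicClosure K L
  rw [mem_algebraicClosure_iff]
  have h1 : IsAlgebraic k (⟨x, hx⟩ : K₀) := h.isAlgebraic _
  have h2 : IsAlgebraic k x := h1.algebraMap (A := L)
  exact h2.tower_top K

end CMPAux

open CMPAux

theorem t_CMP : M_CMP := by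
  intro hctr hcin k _
  have hge : ∀ m : ℕ, 1 ≤ m → ∀ (F : Type) [Field F] [Algebra k F],
      CompA k m F ↔ Comp k m F := by
    intro m hm F _ _
    constructor
    · rintro ⟨L, iL, aL, e, K₀, K, h0, hK, he⟩
      refine ⟨L, iL, aL, e, fun j => acl (K j), fun j => trdeg_acl _ (hK j), fun x => ?_⟩
      have hle : K₀ ⊔ ⨆ j, K j ≤ ⨆ j, acl (K j) := by
        refine sup_le ?_ (iSup_mono fun j => le_acl (K j))
        exact (alg_le_acl (K ⟨0, hm⟩) K₀ h0).trans (le_iSup (fun j => acl (K j)) ⟨0, hm⟩)
      exact hle (he x)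
    · rintro ⟨L, iL, aL, e, K, hK, he⟩
      refine ⟨L, iL, aL, e, ⊥, K, ?_, hK, fun x => ?_⟩
      · have : Algebra.IsAlgebraic k (⊥ : IntermediateField k L) := inferInstance
        exact this
      · rw [bot_sup_eq]
        exact he x
  refine ⟨fun m => ?_, hge, fun F _ _ => ?_, fun F _ _ => ?_⟩
  · rintro F F' _ _ _ _ f ⟨L, iL, aL, e, K₀, K, h0, hK, he⟩
    exact ⟨L, iL, aL, e.comp (f.symm : F' →ₐ[k] F), K₀, K, h0, hK, fun x => he (f.symm x)⟩
  · constructor
    · rintro ⟨L, iL, aL, e, K₀, K, h0, hK, he⟩
      have h1 : Algebra.IsAlgebraic k F := by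
        refine ⟨fun x => ?_⟩
        have h2 : e x ∈ K₀ := by
          have h3 := he x
          rwa [iSup_of_empty, sup_bot_eq] at h3
        have h4 : IsAlgebraic k (⟨e x, h2⟩ : K₀) := h0.isAlgebraic _
        have h5 : IsAlgebraic k (e x) := h4.algebraMap (A := L)
        exact (isAlgebraic_algHom_iff e e.injective).1 h5
      exact (trdeg_eq_zero_iff.2 h1).le
    · intro h
      have h1 : Algebra.IsAlgebraic k F :=
        trdeg_eq_zero_iff.1 (le_antisymm h zero_le)
      refine ⟨F, inferInstance, inferInstance, AlgHom.id k F, ⊤, fun j => j.elim0, ?_,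
        fun j => j.elim0, fun x => ?_⟩
      · exact (IntermediateField.topEquiv (F := k) (E := F)).symm.isAlgebraic
      · rw [iSup_of_empty, sup_bot_eq]
        trivial
  · rw [hge 1 le_rfl]
    constructor
    · intro h
      have h1 := hctr k F 1 h
      rwa [Nat.cast_one] at h1
    · exact (hcin k 1).2 le_rfl F

end Pool.Agent.FMS
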