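import Pool.Agent.FMS.St

/-!
# FMS, module CNT: counting
-/

set_option autoImplicit false

open CategoryTheory AlgebraicGeometry Polynomial

namespace Pool.Agent.FMS

namespace CNTAux

variable {p q : ℕ} {K : Type} [Field K]

theorem neg_mul_mem (hD : Dat p q K) {a g : K} (ha : a ^ q = a) (hg : g ^ q = g) :
    (-(a * g)) ^ q = -(a * g) := by
  have hp := hD.pr
  have hc := hD.char
  obtain ⟨ν, -, rfl⟩ := hD.pow
  have : Fact p.Prime := ⟨hp⟩
  have h1 : (-(a * g)) ^ p ^ ν = -((a * g) ^ p ^ ν) := by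
    rw [← iterateFrobenius_def, ← iterateFrobenius_def, map_neg]
  rw [h1, mul_pow, ha, hg]

/-- The bijection `a ↦ -(a g)`. -/
noncomputable def eqv (hD : Dat p q K) (g : Fq q K) (hg : g.1 ≠ 0) : Fq q K ≃ Fq q K where
  toFun a := ⟨-(a.1 * g.1), neg_mul_mem hD a.2 g.2⟩
  invFun b := ⟨-(b.1 * g.1⁻¹), neg_mul_mem hD b.2 (by rw [inv_pow, g.2])⟩
  left_inv a := by
    apply Subtype.ext
    show -(-(a.1 * g.1) * g.1⁻¹) = a.1
    field_simp
  right_inv b := by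
    apply Subtype.ext
    show -(-(b.1 * g.1⁻¹) * g.1) = b.1
    field_simp

end CNTAux

open CNTAux in
/-- CNT: counting. -/
theorem t_CNT : M_CNT := by
  intro hFQ p q K _ hD _ M _ F
  classical
  have hcard : Fintype.card (Fq q K) = q := by
    rw [← Nat.card_eq_fintype_card]
    exact (hFQ p q K hD).1
  have hq0 : q ≠ 0 := by
    obtain ⟨ν, -, h⟩ := hD.pow
    rw [h]
    exact pow_ne_zero _ hD.pr.ne_zero
  let z : Fq q K := ⟨0, zero_pow hq0⟩
  have hA : ∀ g : Fq q K, g ≠ z → ∑ a : Fq q K, F (-(a.1 * g.1)) g.1 = ∑ b : Fq q K, F b.1 g.1 := by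
    intro g hg
    have hg0 : g.1 ≠ 0 := fun h => hg (Subtype.ext h)
    exact (eqv hD g hg0).sum_comp (fun b : Fq q K => F b.1 g.1)
  have hB : ∑ a : Fq q K, F (-(a.1 * z.1)) z.1 = q • F 0 0 := by
    have h1 : ∀ a : Fq q K, F (-(a.1 * z.1)) z.1 = F 0 0 := by
      intro a
      show F (-(a.1 * 0)) 0 = F 0 0
      rw [mul_zero, neg_zero]
    simp only [h1]
    rw [Finset.sum_const, Finset.card_univ, hcard]
  have h1 : ∑ a : Fq q K, ∑ g : Fq q K, F (-(a.1 * g.1)) g.1 =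
      ∑ g : Fq q K, ∑ a : Fq q K, F (-(a.1 * g.1)) g.1 := Finset.sum_comm
  have h2 : ∑ g : Fq q K, ∑ h : Fq q K, F g.1 h.1 =
      ∑ h : Fq q K, ∑ g : Fq q K, F g.1 h.1 := Finset.sum_comm
  rw [h1, h2, ← Finset.add_sum_erase Finset.univ _ (Finset.mem_univ z),
    ← Finset.add_sum_erase Finset.univ (fun h : Fq q K => ∑ g : Fq q K, F g.1 h.1)
      (Finset.mem_univ z), hB]
  have h3 : ∑ g ∈ Finset.univ.erase z, ∑ a : Fq q K, F (-(a.1 * g.1)) g.1 =
      ∑ g ∈ Finset.univ.erase z, ∑ b : Fq q K, F b.1 g.1 :=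
    Finset.sum_congr rfl fun g hg => hA g (Finset.ne_of_mem_erase hg)
  rw [h3]
  show q • F 0 0 + _ + ∑ g : Fq q K, F g.1 0 = q • F 0 0 + (∑ g : Fq q K, F g.1 0 + _)
  abel

end Pool.Agent.FMS
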