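import Pool.Agent.FMS.St4

/-!
# FMS, CPR: products of two curves
-/

set_option autoImplicit false

open CategoryTheory AlgebraicGeometry Polynomial

namespace Pool.Agent.FMS

open FMO (Comp Kp)
open QCV (DL)

namespace CPRAux

open scoped IntermediateField.algebraAdjoinAdjoin

/-- The field generated by the image of `A` has transcendence degree at most the dimension. -/
lemma td {k A L : Type} [Field k] [CommRing A] [Algebra k A] [Field L] [Algebra k L]
    (φ : A →ₐ[k] L) {d : ℕ} (h : DL k A d) :
    Algebra.trdeg k (IntermediateField.adjoin k (Set.range φ)) ≤ d := by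
  have h1 := trdeg_add_eq k (Algebra.adjoin k (Set.range φ))
    (A := IntermediateField.adjoin k (Set.range φ))
  have h0 : Algebra.trdeg (Algebra.adjoin k (Set.range φ))
      (IntermediateField.adjoin k (Set.range φ)) = 0 := trdeg_eq_zero
  rw [h0, add_zero] at h1
  rw [← h1]
  let p : PrimeSpectrum A := ⟨RingHom.ker φ.toRingHom, RingHom.ker_isPrime _⟩
  let g : A ⧸ p.asIdeal →ₐ[k] Algebra.adjoin k (Set.range φ) :=
    Ideal.Quotient.liftₐ p.asIdeal
      (φ.codRestrict (Algebra.adjoin k (Set.range φ))
        fun x => Algebra.subset_adjoin ⟨x, rfl⟩) (by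
        intro a ha
        apply Subtype.ext
        exact ha)
  have hg : Function.Surjective g := by
    rintro ⟨y, hy⟩
    have h2 : Algebra.adjoin k (Set.range φ) = φ.range := by
      rw [← AlgHom.coe_range, Algebra.adjoin_eq]
    rw [h2] at hy
    obtain ⟨a, ha⟩ := hy
    refine ⟨Ideal.Quotient.mk _ a, ?_⟩
    apply Subtype.ext
    exact ha
  exact (trdeg_le_of_surjective g hg).trans (h p)

end CPRAux

open TensorProduct in
/-- MODULE CPR -/
theorem t_CPR : S_CPR := by
  intro k _ A R _ _ _ _ _ _ hA hR q
  let ψ : A ⊗[k] R →ₐ[k] Kp q :=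
    (IsScalarTower.toAlgHom k ((A ⊗[k] R) ⧸ q.asIdeal) (Kp q)).comp
      (Ideal.Quotient.mkₐ k q.asIdeal)
  let φA : A →ₐ[k] Kp q := ψ.comp Algebra.TensorProduct.includeLeft
  let φR : R →ₐ[k] Kp q := ψ.comp Algebra.TensorProduct.includeRight
  refine ⟨Kp q, inferInstance, inferInstance, AlgHom.id k _,
    ![IntermediateField.adjoin k (Set.range φA), IntermediateField.adjoin k (Set.range φR)],
    ?_, ?_⟩
  · intro j
    fin_cases j
    · exact (CPRAux.td φA hA).trans (le_of_eq Nat.cast_one)
    · exact (CPRAux.td φR hR).trans (le_of_eq Nat.cast_one)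
  · set S : IntermediateField k (Kp q) := ⨆ j, (![IntermediateField.adjoin k (Set.range φA),
      IntermediateField.adjoin k (Set.range φR)] : Fin 2 → IntermediateField k (Kp q)) j with hS
    have hSA : ∀ a, φA a ∈ S := by
      intro a
      have h1 : IntermediateField.adjoin k (Set.range φA) ≤ S := by
        rw [hS]
        exact le_iSup (![IntermediateField.adjoin k (Set.range φA),
          IntermediateField.adjoin k (Set.range φR)] : Fin 2 → IntermediateField k (Kp q)) 0
      exact h1 (IntermediateField.subset_adjoin k _ ⟨a, rfl⟩)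
    have hSR : ∀ a, φR a ∈ S := by
      intro a
      have h1 : IntermediateField.adjoin k (Set.range φR) ≤ S := by
        rw [hS]
        exact le_iSup (![IntermediateField.adjoin k (Set.range φA),
          IntermediateField.adjoin k (Set.range φR)] : Fin 2 → IntermediateField k (Kp q)) 1
      exact h1 (IntermediateField.subset_adjoin k _ ⟨a, rfl⟩)
    have hT : ∀ t, ψ t ∈ S := by
      intro t
      induction t using TensorProduct.induction_on with
      | zero =>
        rw [map_zero]
        exact S.zero_mem
      | tmul a r =>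
        have h1 : a ⊗ₜ[k] r = (Algebra.TensorProduct.includeLeft : A →ₐ[k] A ⊗[k] R) a *
            (Algebra.TensorProduct.includeRight : R →ₐ[k] A ⊗[k] R) r := by
          simp
        rw [h1, map_mul]
        exact S.mul_mem (hSA a) (hSR r)
      | add x y hx hy =>
        rw [map_add]
        exact S.add_mem hx hy
    intro x
    obtain ⟨a, b, hb, rfl⟩ := IsFractionRing.div_surjective (A := (A ⊗[k] R) ⧸ q.asIdeal) x
    obtain ⟨a, rfl⟩ := Ideal.Quotient.mk_surjective a
    obtain ⟨b, rfl⟩ := Ideal.Quotient.mk_surjective b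
    exact S.div_mem (hT a) (hT b)

end Pool.Agent.FMS
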