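import Pool.Agent.FMS.St6
import Pool.Agent.FMS.CPR

/-!
# FMS, CPG: the product with a curve
-/

set_option autoImplicit false

open CategoryTheory AlgebraicGeometry Polynomial

namespace Pool.Agent.FMS

open FMO (Comp Kp)
open QCV (DL)

namespace CPGAux

open TensorProduct in
/-- Two extensions of a field are contained in a common one. -/
lemma amal {k K L F : Type} [Field k] [Field K] [Field L] [Field F] [Algebra k K] [Algebra k L]
    [Algebra k F] (e : K →ₐ[k] L) (f : K →ₐ[k] F) :
    ∃ (L' : Type) (_ : Field L') (_ : Algebra k L') (i : L →ₐ[k] L') (j : F →ₐ[k] L'),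
      ∀ x, i (e x) = j (f x) := by
  let _ : Algebra K L := e.toRingHom.toAlgebra
  let _ : Algebra K F := f.toRingHom.toAlgebra
  have hn : Nontrivial (L ⊗[K] F) := inferInstance
  obtain ⟨M, hM⟩ := Ideal.exists_maximal (L ⊗[K] F)
  have key : ∃ (L' : Type) (_ : Field L') (i : L →+* L') (j : F →+* L'), ∀ x, i (e x) = j (f x) := by
    refine ⟨(L ⊗[K] F) ⧸ M, Ideal.Quotient.field M,
      (Ideal.Quotient.mk M).comp Algebra.TensorProduct.includeLeftRingHom,
      (Ideal.Quotient.mk M).comp
        (Algebra.TensorProduct.includeRight : F →ₐ[K] L ⊗[K] F).toRingHom, ?_⟩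
    intro x
    have h1 : (Algebra.TensorProduct.includeLeftRingHom : L →+* L ⊗[K] F) (e x) =
        (Algebra.TensorProduct.includeRight : F →ₐ[K] L ⊗[K] F) (f x) := by
      change (e x) ⊗ₜ[K] (1 : F) = (1 : L) ⊗ₜ[K] (f x)
      have h2 : e x = x • (1 : L) := by
        rw [Algebra.smul_def, mul_one]
        rfl
      have h3 : f x = x • (1 : F) := by
        rw [Algebra.smul_def, mul_one]
        rfl
      rw [h2, h3, TensorProduct.smul_tmul]
    exact congrArg (Ideal.Quotient.mk M) h1
  obtain ⟨L', hL', i, j, hij⟩ := key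
  let _ : Algebra k L' := (i.comp (algebraMap k L)).toAlgebra
  refine ⟨L', hL', inferInstance, ⟨i, fun r => rfl⟩, ⟨j, fun r => ?_⟩, hij⟩
  change j (algebraMap k F r) = i (algebraMap k L r)
  rw [← f.commutes r, ← e.commutes r]
  exact (hij _).symm

/-- The image of a field of small transcendence degree. -/
lemma tdmap {k L L' : Type} [Field k] [Field L] [Field L'] [Algebra k L] [Algebra k L']
    (i : L →ₐ[k] L') (K : IntermediateField k L) : Algebra.trdeg k (K.map i) ≤ Algebra.trdeg k K :=
  le_of_eq (AlgEquiv.trdeg_eq (K.equivMap i)).symm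

/-- The compositum. -/
lemma sup_mem {k L L' : Type} [Field k] [Field L] [Field L'] [Algebra k L] [Algebra k L'] {m : ℕ}
    (i : L →ₐ[k] L') (K₀ : IntermediateField k L) (K : Fin m → IntermediateField k L)
    (hK₀ : Algebra.IsAlgebraic k K₀) (S : IntermediateField k L')
    (h0 : algebraicClosure k L' ≤ S) (hK : ∀ j, (K j).map i ≤ S) (x : L) (hx : x ∈ K₀ ⊔ ⨆ j, K j) :
    i x ∈ S := by
  have h1 : K₀ ⊔ ⨆ j, K j ≤ S.comap i := by
    refine sup_le ?_ (iSup_le fun j => ?_)
    · intro y hy
      apply h0
      rw [mem_algebraicClosure_iff]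
      have h2 : IsAlgebraic k (⟨y, hy⟩ : K₀) := hK₀.isAlgebraic _
      exact (h2.algHom K₀.val).algHom i
    · exact IntermediateField.map_le_iff_le_comap.mp (hK j)
  exact h1 hx

end CPGAux

open TensorProduct in
/-- MODULE CPG -/
theorem t_CPG : S_CPG := by
  intro k _ A R _ _ _ _ _ _ m d hd hA hR q
  let ψ : A ⊗[k] R →ₐ[k] Kp q :=
    (IsScalarTower.toAlgHom k ((A ⊗[k] R) ⧸ q.asIdeal) (Kp q)).comp
      (Ideal.Quotient.mkₐ k q.asIdeal)
  let φA : A →ₐ[k] Kp q := ψ.comp Algebra.TensorProduct.includeLeft
  let φR : R →ₐ[k] Kp q := ψ.comp Algebra.TensorProduct.includeRight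
  obtain ⟨p, hp⟩ : ∃ p : PrimeSpectrum A, p.asIdeal = RingHom.ker φA.toRingHom :=
    ⟨⟨RingHom.ker φA.toRingHom, RingHom.ker_isPrime _⟩, rfl⟩
  have hp' : ∀ a, a ∈ p.asIdeal ↔ φA a = 0 := by
    intro a
    rw [hp]
    rfl
  let g : A ⧸ p.asIdeal →ₐ[k] Kp q :=
    Ideal.Quotient.liftₐ p.asIdeal φA fun a ha => (hp' a).mp ha
  have hg : Function.Injective g := by
    rw [injective_iff_map_eq_zero]
    intro x hx
    obtain ⟨a, rfl⟩ := Ideal.Quotient.mk_surjective x
    exact Ideal.Quotient.eq_zero_iff_mem.mpr ((hp' a).mpr hx)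
  let f₀ : Kp p →+* Kp q :=
    IsFractionRing.lift (A := A ⧸ p.asIdeal) (K := Kp p) (g := g.toRingHom) hg
  have hf₀ : ∀ y, f₀ (algebraMap (A ⧸ p.asIdeal) (Kp p) y) = g y := fun y =>
    IsFractionRing.lift_algebraMap (K := Kp p) (g := g.toRingHom) hg y
  let f : Kp p →ₐ[k] Kp q := { f₀ with
    commutes' := fun r => by
      change f₀ (algebraMap k (Kp p) r) = algebraMap k (Kp q) r
      rw [IsScalarTower.algebraMap_apply k (A ⧸ p.asIdeal) (Kp p) r, hf₀]
      exact g.commutes r }
  have hf : ∀ a, f (FMO.val p a) = φA a := by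
    intro a
    exact hf₀ (Ideal.Quotient.mk p.asIdeal a)
  obtain ⟨L, _, _, e, K₀, K, hK₀, hK, he⟩ := hA p
  obtain ⟨L', _, _, i, j, hij⟩ := CPGAux.amal e f
  have hjR : Algebra.trdeg k (IntermediateField.adjoin k (Set.range (j.comp φR))) ≤ d :=
    CPRAux.td _ hR
  -- the main point
  have main : ∀ S : IntermediateField k L', algebraicClosure k L' ≤ S → (∀ j, (K j).map i ≤ S) →
      IntermediateField.adjoin k (Set.range (j.comp φR)) ≤ S → ∀ x, j x ∈ S := by
    intro S h0 h1 h2
    have hSA : ∀ a, j (φA a) ∈ S := by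
      intro a
      rw [← hf a, ← hij]
      exact CPGAux.sup_mem i K₀ K hK₀ S h0 h1 _ (he _)
    have hSR : ∀ a, j (φR a) ∈ S := by
      intro a
      exact h2 (IntermediateField.subset_adjoin k _ ⟨a, rfl⟩)
    have hT : ∀ t, j (ψ t) ∈ S := by
      intro t
      induction t using TensorProduct.induction_on with
      | zero =>
        rw [map_zero, map_zero]
        exact S.zero_mem
      | tmul a r =>
        have h1 : a ⊗ₜ[k] r = (Algebra.TensorProduct.includeLeft : A →ₐ[k] A ⊗[k] R) a *
            (Algebra.TensorProduct.includeRight : R →ₐ[k] A ⊗[k] R) r := by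
          simp
        rw [h1, map_mul, map_mul]
        exact S.mul_mem (hSA a) (hSR r)
      | add x y hx hy =>
        rw [map_add, map_add]
        exact S.add_mem hx hy
    intro x
    obtain ⟨a, b, hb, rfl⟩ := IsFractionRing.div_surjective (A := (A ⊗[k] R) ⧸ q.asIdeal) x
    obtain ⟨a, rfl⟩ := Ideal.Quotient.mk_surjective a
    obtain ⟨b, rfl⟩ := Ideal.Quotient.mk_surjective b
    rw [map_div₀]
    exact S.div_mem (hT a) (hT b)
  rcases (by omega : d = 0 ∨ d = 1) with rfl | rfl
  · refine ⟨L', inferInstance, inferInstance, j, algebraicClosure k L', fun j => (K j).map i,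
      inferInstance, fun j => (CPGAux.tdmap i (K j)).trans (hK j), ?_⟩
    refine main _ le_sup_left (fun j => ?_) ?_
    · exact (le_iSup (fun j => (K j).map i) j).trans le_sup_right
    · refine le_trans ?_ le_sup_left
      have h3 : Algebra.IsAlgebraic k
          (IntermediateField.adjoin k (Set.range (j.comp φR))) := by
        have h4 : Algebra.trdeg k
            (IntermediateField.adjoin k (Set.range (j.comp φR))) = 0 := by
          have := hjR
          simpa using this
        exact trdeg_eq_zero_iff.mp h4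
      intro y hy
      rw [mem_algebraicClosure_iff]
      exact (h3.isAlgebraic (⟨y, hy⟩ : IntermediateField.adjoin k (Set.range (j.comp φR)))).algHom
        (IntermediateField.val _)
  · refine ⟨L', inferInstance, inferInstance, j, algebraicClosure k L',
      Fin.snoc (α := fun _ => IntermediateField k L') (fun j => (K j).map i)
        (IntermediateField.adjoin k (Set.range (j.comp φR))), inferInstance, ?_, ?_⟩
    · intro l
      refine Fin.lastCases ?_ (fun l => ?_) l
      · rw [Fin.snoc_last]
        exact hjR.trans (le_of_eq Nat.cast_one)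
      · rw [Fin.snoc_castSucc]
        exact (CPGAux.tdmap i (K l)).trans (hK l)
    · refine main _ le_sup_left (fun l => ?_) ?_
      · refine le_trans ?_ le_sup_right
        have h5 := le_iSup (Fin.snoc (α := fun _ => IntermediateField k L')
          (fun j => (K j).map i) (IntermediateField.adjoin k (Set.range (j.comp φR)))) l.castSucc
        rw [Fin.snoc_castSucc] at h5
        exact h5
      · refine le_trans ?_ le_sup_right
        have h5 := le_iSup (Fin.snoc (α := fun _ => IntermediateField k L')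
          (fun j => (K j).map i) (IntermediateField.adjoin k (Set.range (j.comp φR)))) (Fin.last m)
        rw [Fin.snoc_last] at h5
        exact h5

end Pool.Agent.FMS
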