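import Pool.Agent.FMS.St6
import Pool.Agent.CUB.BR1

/-!
# FMS, module CPV: the residue fields of the product of two varieties of dimension at most one
-/

set_option autoImplicit false

open CategoryTheory AlgebraicGeometry Polynomial TensorProduct

namespace Pool.Agent.FMS

open Pool.Agent.Lib_helper55.Beil (Var)
open UQ (Mo DimLE sp szer gp Pt)
open FMO (Comp CompX Kp At Inv)
open QCV (DL)

namespace CPVAux

variable {k : Type} [Field k]

/-- The dimension of an affine chart. -/
theorem dl_chart {A : Type} [CommRing A] [Algebra k A] [Algebra.FiniteType k A] (X : Var k)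
    (j : (sp k A).X ⟶ X.X) (hj : j ≫ X.f = (sp k A).f) (hi : IsOpenImmersion j)
    (hX : DimLE X 1) : DL k A 1 := by
  intro p
  have h1 := Pool.Agent.Lib_helper55.Beil.dim_map (Z := sp k A) (X := X) j hj (p : (sp k A).X)
  have h2 : (sp k A).dim (p : (sp k A).X) = CUB.rdim k p := CUB.dim_toPt (k := k) p
  have h3 := hX (j (p : (sp k A).X))
  rw [← h2, ← h1]
  exact h3

/-- The main step. -/
theorem step (hRES : FMO.S_RES) (hIMM : FMO.S_IMM) (hCIN : FMO.S_CIN) (hCPR : S_CPR)
    {A R : Type} [CommRing A] [Algebra k A] [Algebra.FiniteType k A] [CommRing R] [Algebra k R]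
    [Algebra.FiniteType k R] (X Y : Var k) (q : Mo Y X) (t : Y.X ⟶ Spec (CommRingCat.of R))
    (h : IsPr R q t) (j : Spec (CommRingCat.of A) ⟶ X.X)
    (hj : j ≫ X.f = Spec.map (CommRingCat.ofHom (algebraMap k A)))
    (hi : IsOpenImmersion j) (hX : DimLE X 1) (hR : DL k R 1) (y : Pt Y)
    (x' : Spec (CommRingCat.of A))
    (hx : q.g y = j x') : At (fun F [Field F] [Algebra k F] => Comp k 2 F) Y y := by
  have hp := isPullback_SpecMap_of_isPushout _ _ _ _
    (CommRingCat.isPushout_tensorProduct k A R)
  have hs : IsPullback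
      (Spec.map (CommRingCat.ofHom (Algebra.TensorProduct.includeRight (R := k) (A := A)
        (B := R)).toRingHom))
      (Spec.map (CommRingCat.ofHom (Algebra.TensorProduct.includeLeftRingHom (R := k) (A := A)
        (B := R))))
      (Spec.map (CommRingCat.ofHom (algebraMap k R))) (j ≫ X.f) := by
    rw [hj]
    exact hp.flip
  have hq := IsPullback.of_right' hs h.flip
  set g := h.flip.lift
    (Spec.map (CommRingCat.ofHom (Algebra.TensorProduct.includeRight (R := k) (A := A)
        (B := R)).toRingHom))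
    (Spec.map (CommRingCat.ofHom (Algebra.TensorProduct.includeLeftRingHom (R := k) (A := A)
        (B := R))) ≫ j) (by rw [hs.w, Category.assoc]) with hg
  have hgo : IsOpenImmersion g :=
    MorphismProperty.of_isPullback (P := @IsOpenImmersion) hq.flip hi
  have hpre : IsPreimmersion g := inferInstance
  obtain ⟨z, hz, -⟩ := Scheme.exists_preimage_of_isPullback hq y x' hx
  have hcomm : g ≫ Y.f = (sp k (A ⊗[k] R)).f := by
    have e1 : g ≫ q.g = Spec.map (CommRingCat.ofHom
        (Algebra.TensorProduct.includeLeftRingHom (R := k) (A := A) (B := R))) ≫ j := hq.w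
    rw [← q.comm, ← Category.assoc, e1, Category.assoc, hj, ← Spec.map_comp]
    rfl
  have hinv : Inv k (fun F [Field F] [Algebra k F] => Comp k 2 F) := (hCIN k 2).1
  have h1 := hIMM k (sp k (A ⊗[k] R)) Y g hcomm hpre
    (fun F [Field F] [Algebra k F] => Comp k 2 F) hinv z
  have h2 : At (fun F [Field F] [Algebra k F] => Comp k 2 F) (sp k (A ⊗[k] R)) z := by
    obtain ⟨q', hq'⟩ := (hRES k (A ⊗[k] R) (fun F [Field F] [Algebra k F] => Comp k 2 F) hinv).1 z
    exact hq'.2 (hCPR k A R (dl_chart X j hj hi hX) hR q')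
  have h3 := h1.1 h2
  rw [← hz]
  exact h3

end CPVAux

open CPVAux in
theorem t_CPV : M_CPV := by
  intro hRES hIMM hCIN hCPR k _ R _ _ _ X Y q t h hX hR y
  obtain ⟨A, j, hi, ⟨x', hx'⟩, -⟩ :=
    Scheme.exists_affine_mem_range_and_range_subset (X := X.X) (x := q.g y) (U := ⊤) trivial
  let φ : k →+* A := (Spec.preimage (j ≫ X.f)).hom
  let _ : Algebra k A := φ.toAlgebra
  have hφ : Spec.map (CommRingCat.ofHom (algebraMap k A)) = j ≫ X.f := Spec.map_preimage _
  have hft : Algebra.FiniteType k A := by
    have h1 : LocallyOfFiniteType (Spec.map (CommRingCat.ofHom (algebraMap k A))) := by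
      rw [hφ]
      infer_instance
    exact RingHom.finiteType_algebraMap.1
      ((HasRingHomProperty.Spec_iff (P := @LocallyOfFiniteType)).1 h1)
  exact step hRES hIMM hCIN hCPR (A := A) X Y q t h j hφ.symm hi hX hR y x' hx'.symm

end Pool.Agent.FMS
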