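import Pool.Agent.FMS.St
import Pool.Agent.QCV.Asm
import Pool.Agent.QCV.F_RNG

/-!
# FMS, module PKC: from properties of varieties over `k` to properties of `K`-algebras
-/

set_option autoImplicit false

open CategoryTheory AlgebraicGeometry Polynomial

namespace Pool.Agent.FMS

open Pool.Agent.Lib_helper55.Beil (Var)
open UQ (Mo DimLE sp szer)
open FMQ (FreeCl)

namespace PKCAux

variable {k K : Type} [Field k] [Field K] [Algebra k K]

/-- The structure of a `k`-algebra on a `K`-algebra. -/
@[reducible] def al (k K : Type) [Field k] [Field K] [Algebra k K] (D : Type) [CommRing D]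
    [Algebra K D] : Algebra k D := Algebra.compHom D (algebraMap k K)

/-- A homomorphism of `K`-algebras as a homomorphism of `k`-algebras. -/
def hm {D E : Type} [CommRing D] [CommRing E] [Algebra K D] [Algebra K E] (f : D →ₐ[K] E) :
    @AlgHom k D E _ _ _ (al k K D) (al k K E) :=
  @AlgHom.mk k D E _ _ _ (al k K D) (al k K E) f.toRingHom fun x => f.commutes (algebraMap k K x)

/-- An isomorphism of `K`-algebras as an isomorphism of `k`-algebras. -/
def eqv {D E : Type} [CommRing D] [CommRing E] [Algebra K D] [Algebra K E] (e : D ≃ₐ[K] E) :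
    @AlgEquiv k D E _ _ _ (al k K D) (al k K E) :=
  @AlgEquiv.ofRingEquiv k D E _ _ _ (al k K D) (al k K E) (f := e.toRingEquiv)
    fun x => e.commutes (algebraMap k K x)

/-- Two structures of `k`-algebras with the same structure map. -/
theorem of_eq {P : Var k → Prop}
    (hC : FMO.Clo k fun A [CommRing A] [Algebra k A] [Algebra.FiniteType k A] => P (sp k A))
    {A : Type} [CommRing A] (i₁ i₂ : Algebra k A) (f₁ : @Algebra.FiniteType k A _ _ i₁)
    (f₂ : @Algebra.FiniteType k A _ _ i₂)
    (h : ∀ x : k, @algebraMap k A _ _ i₁ x = @algebraMap k A _ _ i₂ x)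
    (hP : P (@sp k _ A _ i₁ f₁)) : P (@sp k _ A _ i₂ f₂) :=
  @FMO.Clo.iso k _ _ hC A A _ i₁ f₁ _ i₂ f₂
    (@AlgEquiv.ofRingEquiv k A A _ _ _ i₁ i₂ (f := RingEquiv.refl A) h) hP

theorem clo [Module.Finite k K] {P : Var k → Prop}
    (hC : FMO.Clo k fun A [CommRing A] [Algebra k A] [Algebra.FiniteType k A] => P (sp k A)) :
    FMO.Clo K (fun (D : Type) [CommRing D] [Algebra K D] [Algebra.FiniteType K D] =>
      P (rk k K D)) where
  iso := fun {A B} _ _ _ _ _ _ e h =>
    @FMO.Clo.iso k _ _ hC A B _ (al k K A) (ft_rk k K A) _ (al k K B) (ft_rk k K B) (eqv e) h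
  triv := fun A _ _ _ h => @FMO.Clo.triv k _ _ hC A _ (al k K A) (ft_rk k K A) h
  glue := fun {A Z U} _ _ _ _ _ _ _ _ _ a z u s hZ hU =>
    @FMO.Clo.glue k _ _ hC A Z U _ (al k K A) (ft_rk k K A) _ (al k K Z) (ft_rk k K Z) _ (al k K U)
      (ft_rk k K U) a (hm z) (hm u)
      (@FMO.Strat.mk k _ A Z U _ _ _ (al k K A) (al k K Z) (al k K U) a (hm z) (hm u) s.surj s.ker
        s.away) hZ hU
  opn := fun {A Z U} _ _ _ _ _ _ _ _ _ a z u s hA hZ =>
    @FMO.Clo.opn k _ _ hC A Z U _ (al k K A) (ft_rk k K A) _ (al k K Z) (ft_rk k K Z) _ (al k K U)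
      (ft_rk k K U) a (hm z) (hm u)
      (@FMO.Strat.mk k _ A Z U _ _ _ (al k K A) (al k K Z) (al k K U) a (hm z) (hm u) s.surj s.ker
        s.away) hA hZ
  line := fun A _ _ _ h => by
    have h1 := @FMO.Clo.line k _ _ hC A _ (al k K A) (ft_rk k K A) h
    exact of_eq hC _ _ _ _ (fun _ => rfl) h1

theorem free [Module.Finite k K] {P : Var k → Prop} (hF : FreeCl P) :
    FreeA (fun (D : Type) [CommRing D] [Algebra K D] [Algebra.FiniteType K D] =>
      P (rk k K D)) := by
  intro A C _ _ _ _ _ _ _ _ _ _ hr hP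
  let iA : Algebra k A := al k K A
  let iC : Algebra k C := al k K C
  have : IsScalarTower k A C := IsScalarTower.of_algebraMap_eq fun x =>
    IsScalarTower.algebraMap_apply K A C (algebraMap k K x)
  have : Algebra.FiniteType k A := ft_rk k K A
  have : Algebra.FiniteType k C := ft_rk k K C
  exact hF A C hr hP

theorem cur [Module.Finite k K] {P : Var k → Prop} (h1 : ∀ X, DimLE X 1 → P X) :
    Cur (fun (D : Type) [CommRing D] [Algebra K D] [Algebra.FiniteType K D] =>
      P (rk k K D)) := by
  intro C _ _ _ _ _ _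
  apply h1
  let iC : Algebra k C := al k K C
  have : Algebra.FiniteType k C := ft_rk k K C
  have : IsScalarTower k K[X] C := IsScalarTower.of_algebraMap_eq fun x =>
    IsScalarTower.algebraMap_apply K K[X] C (algebraMap k K x)
  have hK : QCV.DL k K 0 := by
    intro p
    unfold CUB.rdim
    have : Algebra.IsAlgebraic k (K ⧸ p.asIdeal) := inferInstance
    rw [(trdeg_eq_zero_iff (R := k) (A := K ⧸ p.asIdeal)).2 this]
    simp
  have hX : QCV.DL k K[X] 1 := QCV.Asm.s_DLR.2.2.2.1 k K 0 hK
  have hC : QCV.DL k C 1 := QCV.Asm.s_DLR.2.2.1 k K[X] C 1 hX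
  exact QCV.dimLE_of_DL hC

section Last

open TensorProduct

variable {n : ℕ} {ι : Type} (f : ι → MvPolynomial (Fin n) k)

/-- The algebra of the system over `k`. -/
abbrev Ak : Type := MvPolynomial (Fin n) k ⧸ Ideal.span (Set.range f)

variable (K) in
/-- The algebra of the system over `K`. -/
abbrev AK : Type := MvPolynomial (Fin n) K ⧸ Ideal.span (Set.range fun i =>
  MvPolynomial.map (algebraMap k K) (f i))

variable (K) in
/-- From the system over `k` to the system over `K`. -/
noncomputable def up : Ak f →+* AK K f :=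
  Ideal.Quotient.lift _ ((Ideal.Quotient.mk _).comp (MvPolynomial.map (algebraMap k K))) (by
    intro a ha
    have h1 : Ideal.span (Set.range f) ≤ RingHom.ker
        ((Ideal.Quotient.mk (Ideal.span (Set.range fun i =>
          MvPolynomial.map (algebraMap k K) (f i)))).comp
          (MvPolynomial.map (σ := Fin n) (algebraMap k K))) := by
      rw [Ideal.span_le]
      rintro _ ⟨i, rfl⟩
      rw [SetLike.mem_coe, RingHom.mem_ker, RingHom.comp_apply, Ideal.Quotient.eq_zero_iff_mem]
      exact Ideal.subset_span ⟨i, rfl⟩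
    exact h1 ha)

section Gen

variable {R : Type} [CommRing R] (a : Ak f →+* R) (b : K →+* R)

/-- The values of the polynomials over `K`. -/
noncomputable def ev : MvPolynomial (Fin n) K →+* R :=
  MvPolynomial.eval₂Hom b (fun i => a (Ideal.Quotient.mk (Ideal.span (Set.range f))
    (MvPolynomial.X i)))

theorem ev_map (hab : ∀ r : k, a (algebraMap k (Ak f) r) = b (algebraMap k K r)) :
    (ev f a b).comp (MvPolynomial.map (algebraMap k K)) =
      a.comp (Ideal.Quotient.mk (Ideal.span (Set.range f))) := by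
  refine MvPolynomial.ringHom_ext (fun r => ?_) fun i => ?_
  · unfold ev
    simp only [RingHom.comp_apply, MvPolynomial.map_C, MvPolynomial.coe_eval₂Hom,
      MvPolynomial.eval₂_C]
    exact (hab r).symm
  · unfold ev
    simp only [RingHom.comp_apply, MvPolynomial.map_X, MvPolynomial.coe_eval₂Hom,
      MvPolynomial.eval₂_X]

variable (hab : ∀ r : k, a (algebraMap k (Ak f) r) = b (algebraMap k K r))

/-- The homomorphism on the system over `K`. -/
noncomputable def dg : AK K f →+* R :=
  Ideal.Quotient.lift _ (ev f a b) (by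
    intro x hx
    have h1 : Ideal.span (Set.range fun i => MvPolynomial.map (algebraMap k K) (f i)) ≤
        RingHom.ker (ev f a b) := by
      rw [Ideal.span_le]
      rintro _ ⟨i, rfl⟩
      rw [SetLike.mem_coe, RingHom.mem_ker]
      have h2 := RingHom.congr_fun (ev_map f a b hab) (f i)
      rw [RingHom.comp_apply, RingHom.comp_apply] at h2
      refine h2.trans ?_
      rw [Ideal.Quotient.eq_zero_iff_mem.2 (Ideal.subset_span (Set.mem_range_self i)), map_zero]
    exact h1 hx)

theorem dg_C (x : K) : dg f a b hab (algebraMap K (AK K f) x) = b x := by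
  show ev f a b (MvPolynomial.C x) = _
  unfold ev
  rw [MvPolynomial.coe_eval₂Hom, MvPolynomial.eval₂_C]

theorem dg_X (i : Fin n) : dg f a b hab (Ideal.Quotient.mk _ (MvPolynomial.X i)) =
    a (Ideal.Quotient.mk (Ideal.span (Set.range f)) (MvPolynomial.X i)) := by
  show ev f a b (MvPolynomial.X i) = _
  unfold ev
  rw [MvPolynomial.coe_eval₂Hom, MvPolynomial.eval₂_X]

theorem dg_up (x : Ak f) : dg f a b hab (up K f x) = a x := by
  obtain ⟨p, rfl⟩ := Ideal.Quotient.mk_surjective x
  exact RingHom.congr_fun (ev_map f a b hab) p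

end Gen

theorem comm_k (r : k) : (Algebra.TensorProduct.includeLeftRingHom : Ak f →+* Ak f ⊗[k] K)
    (algebraMap k (Ak f) r) = (Algebra.TensorProduct.includeRight : K →ₐ[k] Ak f ⊗[k] K).toRingHom
      (algebraMap k K r) := by
  show (algebraMap k (Ak f) r) ⊗ₜ[k] (1 : K) = (1 : Ak f) ⊗ₜ[k] (algebraMap k K r)
  rw [Algebra.algebraMap_eq_smul_one, Algebra.algebraMap_eq_smul_one,
    TensorProduct.tmul_smul, TensorProduct.smul_tmul']

variable (K) in
/-- From the system over `K` to the tensor product. -/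
noncomputable def dn : AK K f →+* (Ak f ⊗[k] K) :=
  dg (R := Ak f ⊗[k] K) f (Algebra.TensorProduct.includeLeftRingHom : Ak f →+* Ak f ⊗[k] K)
    (Algebra.TensorProduct.includeRight : K →ₐ[k] Ak f ⊗[k] K).toRingHom (comm_k f)

theorem dn_C (b : K) : dn K f (algebraMap K (AK K f) b) = (1 : Ak f) ⊗ₜ[k] b := by
  unfold dn
  rw [dg_C]
  rfl

theorem dn_X (i : Fin n) : dn K f (Ideal.Quotient.mk _ (MvPolynomial.X i)) =
    (Ideal.Quotient.mk (Ideal.span (Set.range f)) (MvPolynomial.X i)) ⊗ₜ[k] (1 : K) := by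
  unfold dn
  rw [dg_X]
  rfl

theorem dn_up (a : Ak f) : dn K f (up K f a) = a ⊗ₜ[k] (1 : K) := by
  unfold dn
  rw [dg_up]
  rfl

theorem up_k (r : k) : up K f (algebraMap k (Ak f) r) =
    algebraMap K (AK K f) (algebraMap k K r) := by
  show Ideal.Quotient.mk _ (MvPolynomial.map (algebraMap k K) (MvPolynomial.C r)) = _
  rw [MvPolynomial.map_C]
  rfl

variable (K) in
/-- From the tensor product to the system over `K`. -/
noncomputable def bk : (Ak f ⊗[k] K) →+* AK K f :=
  letI : Algebra k (AK K f) := al k K (AK K f)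
  (Algebra.TensorProduct.productMap
    (@AlgHom.mk k (Ak f) (AK K f) _ _ _ _ (al k K (AK K f)) (up K f) (up_k f))
    (@AlgHom.mk k K (AK K f) _ _ _ _ (al k K (AK K f)) (algebraMap K (AK K f))
      fun _ => rfl)).toRingHom

theorem bk_tmul (a : Ak f) (b : K) :
    bk K f (a ⊗ₜ[k] b) = up K f a * algebraMap K (AK K f) b := rfl

theorem dn_bk : (dn K f).comp (bk K f) = RingHom.id _ := by
  refine RingHom.ext fun t => ?_
  induction t with
  | zero => rw [map_zero, map_zero]
  | tmul a b =>
    rw [RingHom.comp_apply, bk_tmul, map_mul, dn_up, dn_C, Algebra.TensorProduct.tmul_mul_tmul,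
      mul_one, one_mul, RingHom.id_apply]
  | add x y hx hy => rw [map_add, map_add, hx, hy]

theorem bk_dn : (bk K f).comp (dn K f) = RingHom.id _ := by
  refine Ideal.Quotient.ringHom_ext (MvPolynomial.ringHom_ext (fun r => ?_) fun i => ?_)
  · show bk K f (dn K f (algebraMap K (AK K f) r)) = algebraMap K (AK K f) r
    rw [dn_C, bk_tmul, map_one, one_mul]
  · show bk K f (dn K f (Ideal.Quotient.mk _ (MvPolynomial.X i))) =
      Ideal.Quotient.mk _ (MvPolynomial.X i)
    rw [dn_X, bk_tmul, map_one, mul_one]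
    show Ideal.Quotient.mk _ (MvPolynomial.map (algebraMap k K) (MvPolynomial.X i)) = _
    rw [MvPolynomial.map_X]

variable (K) in
/-- The isomorphism of `k`-algebras. -/
noncomputable def isoT : @AlgEquiv k (AK K f) (Ak f ⊗[k] K) _ _ _ (al k K (AK K f)) _ :=
  @AlgEquiv.ofRingEquiv k (AK K f) (Ak f ⊗[k] K) _ _ _ (al k K (AK K f)) _
    (f := RingEquiv.ofRingHom (dn K f) (bk K f) (dn_bk f) (bk_dn f)) (fun r => by
      show dn K f (algebraMap K (AK K f) (algebraMap k K r)) = _
      rw [dn_C, Algebra.TensorProduct.algebraMap_apply, Algebra.algebraMap_eq_smul_one,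
        Algebra.algebraMap_eq_smul_one, TensorProduct.tmul_smul, TensorProduct.smul_tmul'])

theorem last [Module.Finite k K] {P : Var k → Prop}
    (hC : FMO.Clo k fun A [CommRing A] [Algebra k A] [Algebra.FiniteType k A] => P (sp k A))
    (hF : FreeCl P) (h : P (rk k K (AK K f))) : P (szer k k f) := by
  have ft : Algebra.FiniteType k (Ak f ⊗[k] K) :=
    Algebra.FiniteType.trans (S := Ak f) inferInstance inferInstance
  have h1 : P (sp k (Ak f ⊗[k] K)) :=
    @FMO.Clo.iso k _ _ hC (AK K f) (Ak f ⊗[k] K) _ (al k K (AK K f)) (ft_rk k K _) _ _ ft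
      (isoT K f) h
  rcases subsingleton_or_nontrivial (Ak f) with h2 | h2
  · exact hC.triv (Ak f) h2
  · refine hF (Ak f) (Ak f ⊗[k] K) ?_ h1
    rw [Module.finrank_baseChange]
    exact Module.finrank_pos

end Last

end PKCAux

open PKCAux in
theorem t_PKC : M_PKC := by
  intro hCLF k _ P hP hF h1 K _ _ _
  have hC := hCLF k P hP
  exact ⟨clo hC, free hF, cur h1, fun n ι f h => last f hC hF h⟩

end Pool.Agent.FMS
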