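import Pool.Agent.FMS.St4
import Pool.Agent.FMS.PKC

/-!
# FMS, module CUT (helper99): curves over a base
-/

set_option autoImplicit false

open CategoryTheory AlgebraicGeometry Polynomial

namespace Pool.Agent.FMS

open Pool.Agent.Lib_helper55.Beil (Var)
open UQ (Mo DimLE sp szer)
open QCV (DL)

namespace CUTAux

open PKCAux TensorProduct

variable {k K : Type} [Field k] [Field K] [Algebra k K]

/-- The isomorphism of rings. -/
noncomputable def er (A C : Type) [CommRing A] [Algebra k A] [CommRing C] [Algebra K C]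
    [Algebra k C] [IsScalarTower k K C] :
    (A ⊗[k] C) ≃+* (C ⊗[K] (K ⊗[k] A)) :=
  (Algebra.TensorProduct.comm k A C).toRingEquiv.trans
    (Algebra.TensorProduct.cancelBaseChange k K K C A).symm.toRingEquiv

theorem er_map (A C : Type) [CommRing A] [Algebra k A] [CommRing C] [Algebra K C]
    [Algebra k C] [IsScalarTower k K C] (r : k) :
    er (K := K) A C (algebraMap k (A ⊗[k] C) r) =
      algebraMap K (C ⊗[K] (K ⊗[k] A)) (algebraMap k K r) := by
  show (Algebra.TensorProduct.cancelBaseChange k K K C A).symm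
    (Algebra.TensorProduct.comm k A C (algebraMap k (A ⊗[k] C) r)) = _
  rw [AlgEquiv.commutes, IsScalarTower.algebraMap_apply k K (C ⊗[k] A), AlgEquiv.commutes]

end CUTAux

open PKCAux CUTAux TensorProduct in
theorem t_CUT : S_CUT := by
  intro k _ P hP K _ _ _ A _ _ _ h1 C _ _ _ _ _ _
  let iC : Algebra k C := al k K C
  have hT : IsScalarTower k K C := IsScalarTower.of_algebraMap_eq fun _ => rfl
  have hfC : Algebra.FiniteType k C := ft_rk k K C
  have : IsScalarTower k K[X] C := IsScalarTower.of_algebraMap_eq fun x =>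
    IsScalarTower.algebraMap_apply K K[X] C (algebraMap k K x)
  have hK : QCV.DL k K 0 := by
    intro p
    unfold CUB.rdim
    have : Algebra.IsAlgebraic k (K ⧸ p.asIdeal) := inferInstance
    rw [(trdeg_eq_zero_iff (R := k) (A := K ⧸ p.asIdeal)).2 this]
    simp
  have hX : QCV.DL k K[X] 1 := QCV.Asm.s_DLR.2.2.2.1 k K 0 hK
  have hC : QCV.DL k C 1 := QCV.Asm.s_DLR.2.2.1 k K[X] C 1 hX
  have h2 : P (sp k (A ⊗[k] C)) := h1 C hC
  exact @QCV.Cls0.iso k _ _ hP.cls0 (A ⊗[k] C) (C ⊗[K] (K ⊗[k] A)) _ _ _ _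
    (al k K _) (ft_rk k K _)
    (@AlgEquiv.ofRingEquiv k (A ⊗[k] C) (C ⊗[K] (K ⊗[k] A)) _ _ _ _ (al k K _)
      (f := er (K := K) A C) (er_map A C)) h2

end Pool.Agent.FMS
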