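import Pool.Agent.FMS.St3

/-!
# FMS, statements, fourth part: systems of Delsarte type over a base of small dimension

Same rules as in `St.lean`: `theorem t_XXX : S_XXX` (or `M_XXX : S_YYY → ... → S_XXX`) in `Pool/Agent/FMS/XXX.lean`, import
`Pool.Agent.FMS.St4`, auxiliary lemmas in namespace `Pool.Agent.FMS.XXXAux`.
-/

set_option autoImplicit false

open CategoryTheory AlgebraicGeometry Polynomial

namespace Pool.Agent.FMS

open Pool.Agent.Lib_helper55.Beil (Var)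
open UQ (Mo DimLE sp szer)
open FMO (Univ Few Add CompX Comp Kp)
open FMQ (FreeCl Dels Fermat ferm)
open LFQ (BM)
open QCV (DL)

universe v

/-! ### closure properties at the level of algebras -/

/-- Closure properties of a property of finitely generated algebras. -/
structure ACl (K : Type) [Field K] (Q : Prp K) : Prop where
  clo : FMO.Clo K Q
  free : FreeA Q
  unline : ∀ (A : Type) [CommRing A] [Algebra K A] [Algebra.FiniteType K A], Q A[X] → Q A
  gm : ∀ (C : Type) [CommRing C] [Algebra K C] [Algebra.FiniteType K C] (U : Type) [CommRing U]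
    [Algebra K U] [Algebra.FiniteType K U] (u : C[X] →ₐ[K] U),
    @IsLocalization.Away _ _ (X : C[X]) U _ u.toRingHom.toAlgebra → Q U → Q C

/-- ACL (20 lines). PROOF. `clo`: `FMQ.S_CLF`; `free`: the hypothesis; `unline`: `hP.unline (CUB.lineX A)` (see `Pool/Agent/FMQ/FR1.lean`); `gm`: `FMQ.S_GMD`. -/
def S_ACL : Prop := ∀ (k : Type) [Field k] (P : Var k → Prop), LFQ.Clo P → FreeCl P →
  ACl k (fun (D : Type) [CommRing D] [Algebra k D] [Algebra.FiniteType k D] => P (sp k D))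

def M_ACL : Prop := FMQ.S_CLF → FMQ.S_GMD → S_ACL

open TensorProduct in
/-- TNB (120 lines). PROOF. `clo`, `free`: `S_TEN`. `unline`: `A[X] ⊗ R ≃ (A ⊗ R)[X]` (as in `Pool/Agent/FMS/TEN.lean`). `gm`: `U ⊗ R` is isomorphic to the localisation of `(C ⊗ R)[X]` away from `X`. -/
def S_TNB : Prop := ∀ (K : Type) [Field K] (Q : Prp K), ACl K Q → ∀ (R : Type) [CommRing R]
  [Algebra K R] [Algebra.FiniteType K R],
  ACl K (fun (D : Type) [CommRing D] [Algebra K D] [Algebra.FiniteType K D] => Q (D ⊗[K] R))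

def M_TNB : Prop := S_TEN → S_TNB

/-- GXA: copy of `Pool/Agent/FMQ/GXT.lean` with `ACl` (`hP.cls0.iso` → `hQ.clo.iso`, `hP.cls0.triv` → `hQ.clo.triv`, `hF` → `hQ.free`). -/
def S_GXA : Prop := ∀ (k : Type) [Field k] (Q : Prp k), ACl k Q →
  ∀ (G G' : Type) [AddCommGroup G] [AddCommGroup G'] (_ : AddGroup.FG G') (θ : G →+ G')
  (_ : Function.Injective θ) (_ : ∀ y : G', ∃ t : ℤ, t ≠ 0 ∧ t • y ∈ θ.range) (J : Type)
  (u v : J → G) (c c' : J → k) (C : Type) [CommRing C] [Algebra k C] [Algebra.FiniteType k C]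
  (χ : Multiplicative G →* Cˣ), FMQ.GU u v c c' C χ → ∀ (C' : Type) [CommRing C'] [Algebra k C']
  [Algebra.FiniteType k C'] (χ' : Multiplicative G' →* C'ˣ),
  FMQ.GU (fun j => θ (u j)) (fun j => θ (v j)) c c' C' χ' → Q C' → Q C

def M_GXA : Prop := FMQ.S_GUX → FMQ.S_GX1 → S_GXA

/-- The algebra of the product of the curves `1 + c_j x ^ N + c'_j y ^ N = 0`. -/
abbrev FX {k : Type} [Field k] (N : ℕ) {M : ℕ} (c c' : Fin M → k) : Type :=
  MvPolynomial (Fin (M + M)) k ⧸ Ideal.span (Set.range (ferm N c c'))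

/-- The products of at most `m` affine Fermat curves, lines and finite sets have the property. -/
def HF {k : Type} [Field k] (N m : ℕ) (Q : Prp k) : Prop :=
  ∀ (M : ℕ) (c c' : Fin M → k), Nat.card {j // c j * c' j ≠ 0} ≤ m → Q (FX N c c')

/-- FA1: copy of `Pool/Agent/FMQ/FR1.lean` (import it, use its auxiliary lemmas) with `ACl` (`hP.cls0.iso` → `hQ.clo.iso`, `hP.unline (CUB.lineX C)` → `hQ.unline C`, ...). -/
def S_FA1 : Prop := ∀ (k : Type) [Field k] (Q : Prp k), ACl k Q → ∀ (N m : ℕ), 0 < N →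
  HF N m Q → ∀ (M : ℕ) (c c' : Fin M → k), Nat.card {j // c j * c' j ≠ 0} ≤ m →
  ∀ (U Z : Set (Fin (M + M))) (C : Type) [CommRing C] [Algebra k C] [Algebra.FiniteType k C]
  (φ : Fin (M + M) → C), Univ (ferm N c c') U Z C φ → Q C

def M_FA1 : Prop := FMQ.S_EXU → FMQ.S_UNQ → S_FA1

/-- FA2: copy of `Pool/Agent/FMQ/FR2.lean` (import it, use its auxiliary lemmas) with `ACl`, `FA1`, and `hQ.gm` for `GMD`. -/
def S_FA2 : Prop := ∀ (k : Type) [Field k] (Q : Prp k), ACl k Q → ∀ (N m : ℕ), 0 < N →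
  HF N m Q → ∀ (M₃ M₂ q : ℕ), M₃ ≤ m → ∀ (c c' : Fin M₃ → k) (d : Fin M₂ → k)
  (C : Type) [CommRing C] [Algebra k C] [Algebra.FiniteType k C]
  (χ : Multiplicative (((Fin M₃ ⊕ Fin M₃) ⊕ Fin M₂) ⊕ Fin q → ℤ) →* Cˣ),
  FMQ.GU (J := Fin M₃ ⊕ Fin M₂)
    (Sum.elim (fun j => Pi.single (Sum.inl (Sum.inl (Sum.inl j))) (N : ℤ))
      fun j => Pi.single (Sum.inl (Sum.inr j)) (N : ℤ))
    (Sum.elim (fun j => Pi.single (Sum.inl (Sum.inl (Sum.inr j))) (N : ℤ)) fun _ => 0)
    (Sum.elim c d) (Sum.elim c' fun _ => 0) C χ → Q C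

def M_FA2 : Prop := FMQ.S_EXU → FMO.S_LAU → S_FA1 → S_FA2

/-- DEA: copy of `Pool/Agent/FMQ/DEL.lean` with `ACl`, `GXA`, `FA2`. -/
def S_DEA : Prop := ∀ (k : Type) [Field k] (Q : Prp k), ACl k Q → ∀ (N m : ℕ), 0 < N →
  HF N m Q → ∀ (n r : ℕ) (f : Fin r → MvPolynomial (Fin n) k), Dels N f →
  ∑ j, ((f j).support.card - 2) ≤ m → Q (MvPolynomial (Fin n) k ⧸ Ideal.span (Set.range f))

def M_DEA : Prop := FMO.S_STR → FMQ.S_THR → FMQ.S_GUT → FMQ.S_SDI → FMQ.S_LAT → FMQ.S_GUX →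
  S_GXA → S_FA2 → S_DEA

/-! ### systems over a base -/

/-- `z` assigns an integer to every exponent in `S j`, for every `j`, with sum zero for every `j`. -/
def Rl {n r : ℕ} (S : Fin r → Finset (Fin n →₀ ℕ)) (z : Fin r → (Fin n →₀ ℕ) →₀ ℤ) : Prop :=
  (∀ j, ∀ α, z j α ≠ 0 → α ∈ S j) ∧ ∀ j, ((z j).sum fun _ c => c) = 0

/-- Exponents of Delsarte type (`FMQ.Dels N f` is `Ds N` for the supports of the `f j`). -/
structure Ds (N : ℕ) {n r : ℕ} (S : Fin r → Finset (Fin n →₀ ℕ)) : Prop where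
  ind : ∀ z, Rl S z → FMQ.tot z = 0 → z = 0
  exp : ∀ (x : Fin n → ℤ) (t : ℤ), t ≠ 0 → (∃ z, Rl S z ∧ t • x = FMQ.tot z) →
    ∃ z, Rl S z ∧ (N : ℤ) • x = FMQ.tot z

/-- SUB (80 lines), smaller supports. PROOF. `ind` clear. `exp`: `t x = tot z'`, `Rl S' z'`, so `Rl S z'`, and there is `z` with `Rl S z`, `N x = tot z`. Then `t z - N z'` is a relation for `S` with total zero, so `t z = N z'`; for `α ∉ S' j`:
`t (z j α) = N (z' j α) = 0`, so `z j α = 0`: `Rl S' z`. -/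
def S_SUB : Prop := ∀ (n r N : ℕ) (S S' : Fin r → Finset (Fin n →₀ ℕ)), (∀ j, S' j ⊆ S j) →
  Ds N S → Ds N S'

/-- The polynomials `∑ a_jα x ^ α`, the sum over `α ∈ S j`. -/
noncomputable def sS {C : Type} [CommRing C] {n r : ℕ} (S : Fin r → Finset (Fin n →₀ ℕ))
    (a : Fin r → (Fin n →₀ ℕ) → C) : Fin r → MvPolynomial (Fin n) C :=
  fun j => ∑ α ∈ S j, MvPolynomial.monomial α (a j α)

/-- The algebra of this system. -/
abbrev SA {C : Type} [CommRing C] {n r : ℕ} (S : Fin r → Finset (Fin n →₀ ℕ))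
    (a : Fin r → (Fin n →₀ ℕ) → C) : Type :=
  MvPolynomial (Fin n) C ⧸ Ideal.span (Set.range (sS S a))

/-- RSC (250 lines), change of the coefficients. PROOF. For every `j` with `S j ≠ ∅` fix `α₀ j ∈ S j`. `I = Σ j, {α ∈ S j | α ≠ α₀ j}`, `d (j, α) = α - α₀ j` in `G = Fin n → ℤ`. `LAT` applies: a relation `∑ w_(jα) d (j, α)` is `tot z`, `z j = ∑_α w_(jα) (single α - single (α₀ j))`, so `Ds.ind` gives the
independence and `Ds.exp` the condition on `N` (and `Rl S z` implies `tot z ∈ span d`). `LAT`: `θ : G →+ (I ⊕ Fin q → ℤ)`, `θ (d i) = N e_i`. Let `b j α` be the roots, `ψ : (I ⊕ Fin q → ℤ) → Cˣ` the homomorphism with `e_(jα) ↦ b j (α₀ j) / b j α`, `e_l ↦ 1`, and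
`τ v = ψ (θ (e_v))`. Then `∏ τ_v ^ (α_v) = ∏ τ_v ^ ((α₀ j)_v) (b j (α₀ j) / b j α) ^ N`, so `a j α ∏ τ_v ^ (α_v) = λ_j`, `λ_j = a j (α₀ j) ∏ τ_v ^ ((α₀ j)_v)` a unit, for all `α ∈ S j`. The automorphism `x_v ↦ τ_v x_v` of `MvPolynomial (Fin n) C` maps `sS S a j` to `λ_j` times `sS S 1 j`:
`Ideal.quotientEquivAlg`. -/
def S_RSC : Prop := ∀ (n r N : ℕ), 0 < N → ∀ S : Fin r → Finset (Fin n →₀ ℕ), Ds N S →
  ∀ (C : Type) [CommRing C] (a : Fin r → (Fin n →₀ ℕ) → C),
  (∀ j, ∀ α ∈ S j, ∃ b : Cˣ, (b : C) ^ N = a j α) →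
  Nonempty (SA S a ≃ₐ[C] SA S fun _ _ => (1 : C))

def M_RSC : Prop := FMQ.S_LAT → S_RSC

/-- STC (150 lines), stratification by the coefficients. PROOF. Induction on the number of the pairs `(j, α)`, `α ∈ S j`, with `a j α` neither zero nor a unit, for all `A`, `a`. For such a pair let `x = a j α`, `A / (x)` and `Localization.Away x`, with the images of the coefficients (zeros stay
zero, units stay units, `x` becomes zero, a unit); `DL`: `QCV.Asm.s_DLR.1`, `QCV.Asm.s_DLR.2.1`. `SA` over `A / (x)` is the quotient of `SA S a` by the image of `x`, and `SA` over `Localization.Away x` is its localisation away from this image: `FMO.Strat`, `Clo.glue`. -/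
def S_STC : Prop := ∀ (k : Type) [Field k] (Q : Prp k), FMO.Clo k Q → ∀ (d n r : ℕ)
  (S : Fin r → Finset (Fin n →₀ ℕ)),
  (∀ (C : Type) [CommRing C] [Algebra k C] [Algebra.FiniteType k C]
    (a : Fin r → (Fin n →₀ ℕ) → C), DL k C d →
    (∀ j, ∀ α ∈ S j, a j α = 0 ∨ IsUnit (a j α)) → Q (SA S a)) →
  ∀ (A : Type) [CommRing A] [Algebra k A] [Algebra.FiniteType k A]
    (a : Fin r → (Fin n →₀ ℕ) → A), DL k A d → Q (SA S a)

/-- RTS (200 lines), roots of the coefficients. PROOF. Induction on the number of the pairs `(j, α)`, `α ∈ S j`, with `a j α` neither zero nor the `N`-th power of a unit, for all `C`, `a`. For such a pair let `C₁ = AdjoinRoot (X ^ N - C (a j α))`, free of rank `N` over `C` (monic); the root is a unit. `DL`: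
`QCV.Asm.s_DLR.2.2.1`. `SA` over `C₁` (with the images of the coefficients) is isomorphic to `AdjoinRoot (X ^ N - C x)` over `SA S a`, `x` the image of `a j α` (both represent: a homomorphism on `C`, `y_1, ..., y_n` with the equations, a root), so it is finite free of rank `N`
over `SA S a` (if `SA S a` is trivial: `Clo.triv`): `FreeA`. -/
def S_RTS : Prop := ∀ (k : Type) [Field k] (Q : Prp k), FMO.Clo k Q → FreeA Q →
  ∀ (d n r N : ℕ), 0 < N → ∀ S : Fin r → Finset (Fin n →₀ ℕ),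
  (∀ (C : Type) [CommRing C] [Algebra k C] [Algebra.FiniteType k C]
    (a : Fin r → (Fin n →₀ ℕ) → C), DL k C d →
    (∀ j, ∀ α ∈ S j, a j α = 0 ∨ ∃ b : Cˣ, (b : C) ^ N = a j α) → Q (SA S a)) →
  ∀ (C : Type) [CommRing C] [Algebra k C] [Algebra.FiniteType k C]
    (a : Fin r → (Fin n →₀ ℕ) → C), DL k C d →
    (∀ j, ∀ α ∈ S j, a j α = 0 ∨ IsUnit (a j α)) → Q (SA S a)

open TensorProduct in
/-- MVT (60 lines), change of the base. PROOF. As `isoT` in `Pool/Agent/FMS/PKC.lean`. -/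
def S_MVT : Prop := ∀ (k : Type) [Field k] (n : ℕ) (ι : Type) (g : ι → MvPolynomial (Fin n) k)
  (R : Type) [CommRing R] [Algebra k R],
  Nonempty (((MvPolynomial (Fin n) k ⧸ Ideal.span (Set.range g)) ⊗[k] R) ≃ₐ[k]
    (MvPolynomial (Fin n) R ⧸ Ideal.span (Set.range fun i =>
      MvPolynomial.map (algebraMap k R) (g i))))

/-- The equations `1 + c_j x_j ^ N + c'_j y_j ^ N = 0` over `A`. -/
noncomputable def fermA {k : Type} [Field k] (A : Type) [CommRing A] [Algebra k A] (N : ℕ) {M : ℕ}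
    (c c' : Fin M → k) : Fin M → MvPolynomial (Fin (M + M)) A :=
  fun j => MvPolynomial.map (algebraMap k A) (ferm N c c' j)

/-- DOC (150 lines), systems of Delsarte type over a base. PROOF. `Q D = P (sp k D)`: `ACL`. `f j = ∑_(α ∈ (f j).support) monomial α (coeff α (f j))`, so `szer k A f = sp k (SA S a)`. `STC`, `RTS`: we may assume that the coefficients are zero or `N`-th powers of units. `S' j = {α ∈ S j | a j α ≠ 0}`; `sS S a = sS S' a`;
`SUB`: `Ds N S'`; `RSC`: `SA S' a ≃ SA S' 1`; `MVT`: this is `(SA S' 1 over k) ⊗ C`. `DEA` for `Q' D = Q (D ⊗[k] C)` (`TNB`) and the system `sS S' 1` over `k`, whose supports are the `S' j`; `HF N m Q'` by `MVT` and the hypothesis. -/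
def S_DOC : Prop := ∀ (k : Type) [Field k] (P : Var k → Prop), LFQ.Clo P → FreeCl P →
  ∀ (d N m : ℕ), 0 < N →
  (∀ (C : Type) [CommRing C] [Algebra k C] [Algebra.FiniteType k C], DL k C d →
    ∀ (M : ℕ) (c c' : Fin M → k), Nat.card {j // c j * c' j ≠ 0} ≤ m →
    P (szer k C (fermA C N c c'))) →
  ∀ (A : Type) [CommRing A] [Algebra k A] [Algebra.FiniteType k A], DL k A d → ∀ (n r : ℕ)
    (f : Fin r → MvPolynomial (Fin n) A), Ds N (fun j => (f j).support) →
    ∑ j, ((f j).support.card - 2) ≤ m → P (szer k A f)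

def M_DOC : Prop := S_ACL → S_TNB → S_DEA → S_SUB → S_RSC → S_STC → S_RTS → S_MVT → S_DOC

/-! ### products of a base and Hermitian curves -/

/-- FRK: the middle part of `Pool/Agent/FMS/FRM.lean`, for a property of `K`-algebras. PROOF. `κ` (`FQ`). `Q' D = ∀ m, Q (D ⊗[K] HX q κ m)` has the closure properties by `TEN`, and `Q' D → Q' (HD q κ D)` by `TEH`; `Q' K`: `HER`. `EHU`, `FER`, `ITE` for `Q'`; `m = 0`. -/
def S_FRK : Prop := ∀ (p q : ℕ) (K : Type) [Field K], Dat p q K → ∀ Q : Prp K, FMO.Clo K Q →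
  FreeA Q → Cur Q → ASCl q Q → ∀ N : ℕ, N ∣ q + 1 → ∀ (M : ℕ) (c c' : Fin M → K),
  (∀ j, c j = 0 ∨ ∃ b, c j * b ^ N = 1) → (∀ j, c' j = 0 ∨ ∃ b, c' j * b ^ N = 1) → Q (FX N c c')

def M_FRK : Prop := S_FQ → S_TEN → S_TEH → S_HER → S_EHU → S_FER → S_ITE → S_FRK

open TensorProduct in
/-- TNA (120 lines). PROOF. `AS q α ⊗ R` is isomorphic to `AS q (α ⊗ 1)` over `A ⊗ R` (`AdjoinRoot`), also for the double covering; apply the hypothesis to `A ⊗ R`, `α ⊗ 1`, `β ⊗ 1`. -/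
def S_TNA : Prop := ∀ (p q : ℕ) (K : Type) [Field K], Dat p q K → ∀ Q : Prp K, FMO.Clo K Q →
  ASCl q Q → ∀ (R : Type) [CommRing R] [Algebra K R] [Algebra.FiniteType K R],
  ASCl q (fun (D : Type) [CommRing D] [Algebra K D] [Algebra.FiniteType K D] => Q (D ⊗[K] R))

open TensorProduct in
/-- CUT (80 lines). PROOF. `D` finite over `K[X]`: `DL k D 1` for the structure of `k`-algebra (see `PKCAux.cur` in `Pool/Agent/FMS/PKC.lean`), and `D ⊗[K] (K ⊗[k] A) ≃ D ⊗[k] A ≃ A ⊗[k] D` (`Algebra.TensorProduct.cancelBaseChange`). -/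
def S_CUT : Prop := ∀ (k : Type) [Field k] (P : Var k → Prop), LFQ.Clo P →
  ∀ (K : Type) [Field K] [Algebra k K] [Module.Finite k K] (A : Type) [CommRing A] [Algebra k A]
    [Algebra.FiniteType k A],
  (∀ (R : Type) [CommRing R] [Algebra k R] [Algebra.FiniteType k R], DL k R 1 →
    P (sp k (A ⊗[k] R))) →
  Cur (fun (D : Type) [CommRing D] [Algebra K D] [Algebra.FiniteType K D] =>
    P (rk k K (D ⊗[K] (K ⊗[k] A))))

open TensorProduct in
/-- FRB (200 lines), products of `Spec A` and affine Fermat curves of degree `N ∣ p ^ ν + 1`. PROOF. `EXK` for the values of `c`, `c'`: `K`, `q = p ^ ν`. `Q D = T.FG (rk k K D)`: `PKC`, `ARG`. `B = K ⊗[k] A`, `Q_B D = Q (D ⊗[K] B)`: `TEN`, `TNA`, `CUT`. `FRK` for `Q_B` and the images of `c`, `c'` in `K`: `Q_B (FX N c c')`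
(over `K`). `FX_K ⊗[K] (K ⊗[k] A)` is isomorphic (over `k`) to `F_A ⊗[k] K`, `F_A` the algebra of `fermA A N c c'` (`MVT`, `cancelBaseChange`), which is finite free of rank `[K : k]` over `F_A`: `FreeCl`. -/
def S_FRB : Prop := ∀ (k Λ : Type) [Field k] [Finite k] [CommRing Λ] [IsNoetherianRing Λ]
  (T : BM.{v} k Λ), T.Pub → GalT T → LFQ.Clo T.FG → FreeCl T.FG → ∀ (p ν N : ℕ), p.Prime →
  CharP k p → 1 ≤ ν → N ∣ p ^ ν + 1 → ∀ (A : Type) [CommRing A] [Algebra k A]
    [Algebra.FiniteType k A], (∀ (R : Type) [CommRing R] [Algebra k R] [Algebra.FiniteType k R],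
      DL k R 1 → T.FG (sp k (A ⊗[k] R))) →
  ∀ (M : ℕ) (c c' : Fin M → k), T.FG (szer k A (fermA A N c c'))

def M_FRB : Prop := S_EXK → S_PKC → S_ARG.{v} → S_TEN → S_TNA → S_CUT → S_FRK → S_MVT → S_FRB.{v}

/-- PIA (80 lines): `PIN` over `A`. PROOF. As `Pool/Agent/FMS/PIN.lean`. -/
def S_PIA : Prop := ∀ (k : Type) [Field k] [Finite k] (P : Var k → Prop), LFQ.Clo P →
  ∀ (p a ν N : ℕ), p.Prime → CharP k p → 1 ≤ ν → ∀ (A : Type) [CommRing A] [Algebra k A]
    [Algebra.FiniteType k A],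
  (∀ N', N' ∣ p ^ ν + 1 → ∀ (M : ℕ) (c c' : Fin M → k), P (szer k A (fermA A N' c c'))) →
  N ∣ p ^ a * (p ^ ν + 1) → ∀ (M : ℕ) (c c' : Fin M → k), P (szer k A (fermA A N c c'))

open TensorProduct in
/-- CPR (120 lines), products of two curves. PROOF. `L = Kp q`; `K 0`, `K 1` the subfields generated by the images of `A` and `R` (`IntermediateField.adjoin`): the fraction fields of `A / (q ∩ A)`, `R / (q ∩ R)`, so of transcendence degree at most one (`DL`, `CUB.rdim`). They generate `L`. -/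
def S_CPR : Prop := ∀ (k : Type) [Field k] (A R : Type) [CommRing A] [Algebra k A]
  [Algebra.FiniteType k A] [CommRing R] [Algebra k R] [Algebra.FiniteType k R], DL k A 1 →
  DL k R 1 → ∀ q : PrimeSpectrum (A ⊗[k] R), Comp k 2 (Kp q)

open TensorProduct in
/-- DPR (120 lines), the dimension of a product. PROOF. As `CPR`: `rdim k q` is the transcendence degree of `Kp q`, which is generated by two subfields of transcendence degree at most `d` and `e`. -/
def S_DPR : Prop := ∀ (k : Type) [Field k] (A R : Type) [CommRing A] [Algebra k A]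
  [Algebra.FiniteType k A] [CommRing R] [Algebra k R] [Algebra.FiniteType k R] (d e : ℕ),
  DL k A d → DL k R e → DL k (A ⊗[k] R) (d + e)

end Pool.Agent.FMS
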