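import Pool.Agent.FMO.UNI
import Pool.Agent.FMS.St4

/-!
# Project FMS, module DEA: systems of Delsarte type, for properties of algebras
-/

set_option autoImplicit false

open CategoryTheory AlgebraicGeometry Polynomial Multiplicative

namespace Pool.Agent.FMS

open Pool.Agent.Lib_helper55.Beil (Var)
open UQ (Pt Mo di gp im IDim DimLE sp spol sdbl sdia sas squo szer cone PSub Units)
open FMO (At Sm Comp CompX Hom Act Add Few Univ Kp Inv val)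
open FMQ (rs)

theorem t_DEA : M_DEA := by
  intro STR THR GUT SDI LAT GUX GXA FA2 k _ Q hQ N m hN hX n r f hd hm
  have hC := hQ.clo
  obtain ⟨n', r', f', hd', h3, hs, ⟨e⟩⟩ := THR k n r N f hd
  refine hC.iso e.symm ?_
  refine STR k Q hC (Fin n') (Fin r') f' ?_ _ _ (FMO.t_UNI k (Fin n') (Fin r') f')
  intro U Z hUZ C _ _ _ φ hU
  rcases subsingleton_or_nontrivial C with hc | hc
  · exact hC.triv C hc
  obtain ⟨M₃, M₂, j₃, j₂, α₀, α₁, α₂, β₀, β₁, c, c', d, χ, hsrv, hgu⟩ :=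
    GUT k n' r' f' h3 U Z hUZ C φ hU
  obtain ⟨hli, htor, hle⟩ := SDI k n' r' N f' hd' h3 U M₃ M₂ j₃ j₂ α₀ α₁ α₂ β₀ β₁ hsrv
  obtain ⟨q, θ, hinj, hfin, hθ⟩ := LAT (U → ℤ) ((Fin M₃ ⊕ Fin M₃) ⊕ Fin M₂) _ N hN hli htor
  have hfg : AddGroup.FG (((Fin M₃ ⊕ Fin M₃) ⊕ Fin M₂) ⊕ Fin q → ℤ) :=
    Module.Finite.iff_addGroup_fg.1 inferInstance
  obtain ⟨C', i1, i2, i3, χ', hgu'⟩ := (GUX k (((Fin M₃ ⊕ Fin M₃) ⊕ Fin M₂) ⊕ Fin q → ℤ)
    (Fin M₃ ⊕ Fin M₂)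
    (fun j => θ (Sum.elim (fun i => rs U (α₁ i) - rs U (α₀ i))
      (fun i => rs U (β₁ i) - rs U (β₀ i)) j))
    (fun j => θ (Sum.elim (fun i => rs U (α₂ i) - rs U (α₀ i)) (fun _ => 0) j))
    (Sum.elim c d) (Sum.elim c' fun _ => 0)).1 hfg
  refine GXA k Q hQ (U → ℤ) (((Fin M₃ ⊕ Fin M₃) ⊕ Fin M₂) ⊕ Fin q → ℤ) hfg θ hinj hfin
    (Fin M₃ ⊕ Fin M₂) _ _ _ _ C χ hgu C' χ' hgu' ?_
  refine FA2 k Q hQ N m hN hX M₃ M₂ q ?_ c c' d C' χ' ?_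
  · exact hle.trans (hs.le.trans hm)
  · have hu : (fun j => θ (Sum.elim (fun i => rs U (α₁ i) - rs U (α₀ i))
        (fun i => rs U (β₁ i) - rs U (β₀ i)) j)) =
        (Sum.elim (fun j => Pi.single (Sum.inl (Sum.inl (Sum.inl j))) (N : ℤ))
          fun j => Pi.single (Sum.inl (Sum.inr j)) (N : ℤ) :
          Fin M₃ ⊕ Fin M₂ → (((Fin M₃ ⊕ Fin M₃) ⊕ Fin M₂) ⊕ Fin q → ℤ)) := by
      funext j
      rcases j with j | j
      · exact hθ (Sum.inl (Sum.inl j))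
      · exact hθ (Sum.inr j)
    have hv : (fun j => θ (Sum.elim (fun i => rs U (α₂ i) - rs U (α₀ i)) (fun _ => 0) j)) =
        (Sum.elim (fun j => Pi.single (Sum.inl (Sum.inl (Sum.inr j))) (N : ℤ)) fun _ => 0 :
          Fin M₃ ⊕ Fin M₂ → (((Fin M₃ ⊕ Fin M₃) ⊕ Fin M₂) ⊕ Fin q → ℤ)) := by
      funext j
      rcases j with j | j
      · exact hθ (Sum.inl (Sum.inr j))
      · exact map_zero θ
    rw [hu, hv] at hgu'
    exact hgu'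

end Pool.Agent.FMS
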