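import Pool.Agent.FMS.St4

/-!
# FMS, module DPR: the dimension of a product
-/

set_option autoImplicit false

open CategoryTheory AlgebraicGeometry Polynomial

namespace Pool.Agent.FMS

open Pool.Agent.Lib_helper55.Beil (Var)
open UQ (Mo DimLE sp szer)
open QCV (DL)

namespace DPRAux

open TensorProduct Cardinal

/-- A domain generated over `S` by the image of a domain `T` over `k` has transcendence degree over
`S` at most that of `T` over `k`. -/
theorem trdeg_le {k S D T : Type} [Field k] [CommRing S] [CommRing D] [IsDomain D] [CommRing T]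
    [IsDomain T] [Algebra k S] [Algebra k D] [Algebra S D] [IsScalarTower k S D] [Algebra k T]
    (f : T →ₐ[k] D) (hf : Function.Injective f)
    (hg : Algebra.adjoin S (Set.range f) = ⊤) : Algebra.trdeg S D ≤ Algebra.trdeg k T := by
  obtain ⟨Y, hY⟩ := exists_isTranscendenceBasis k T
  let E : Subalgebra S D := Algebra.adjoin S (f '' Y)
  have hE : ∀ t : Algebra.adjoin k Y, f t ∈ E := by
    intro t
    have h1 : (Algebra.adjoin k Y) ≤ (E.restrictScalars k).comap f := by
      rw [Algebra.adjoin_le_iff]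
      intro y hy
      exact Algebra.subset_adjoin ⟨y, hy, rfl⟩
    exact h1 t.2
  let g : Algebra.adjoin k Y →+* E :=
    { toFun := fun t => ⟨f t, hE t⟩
      map_one' := by ext; simp
      map_mul' := fun a b => by ext; simp
      map_zero' := by ext; simp
      map_add' := fun a b => by ext; simp }
  have hgi : Function.Injective g := by
    intro a b hab
    have h1 : f a = f b := congrArg Subtype.val hab
    exact Subtype.ext (hf h1)
  have halg : Algebra.IsAlgebraic (Algebra.adjoin k (Set.range ((↑) : Y → T))) T := hY.isAlgebraic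
  rw [Subtype.range_coe] at halg
  have h2 : ∀ t : T, IsAlgebraic E (f t) := fun t =>
    (halg.isAlgebraic t).ringHom_of_comp_eq g f.toRingHom hgi rfl
  have h3 : Algebra.IsAlgebraic E D := by
    constructor
    intro x
    have h4 : (⊤ : Subalgebra S D) ≤ (Subalgebra.algebraicClosure E D).restrictScalars S := by
      rw [← hg, Algebra.adjoin_le_iff]
      rintro _ ⟨t, rfl⟩
      exact h2 t
    exact h4 (Algebra.mem_top (x := x))
  have h5 : Algebra.trdeg S D ≤ #(f '' Y) := Algebra.IsAlgebraic.trdeg_le_cardinalMk S (f '' Y)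
  refine h5.trans (Cardinal.mk_image_le.trans ?_)
  exact hY.cardinalMk_eq_trdeg.le

end DPRAux

open TensorProduct in
theorem t_DPR : S_DPR := by
  intro k _ A R _ _ _ _ _ _ d e hA hR q
  unfold CUB.rdim
  let pA : Ideal A := q.asIdeal.under A
  have : q.asIdeal.IsPrime := q.2
  have : pA.IsPrime := Ideal.IsPrime.under A q.asIdeal
  have hpA : Algebra.trdeg k (A ⧸ pA) ≤ d := hA ⟨pA, inferInstance⟩
  let f : R →ₐ[k] (A ⊗[k] R ⧸ q.asIdeal) :=
    (Ideal.Quotient.mkₐ k q.asIdeal).comp Algebra.TensorProduct.includeRight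
  have : (RingHom.ker f).IsPrime := RingHom.ker_isPrime _
  have hpR : Algebra.trdeg k (R ⧸ RingHom.ker f) ≤ e := hR ⟨RingHom.ker f, inferInstance⟩
  let f' : (R ⧸ RingHom.ker f) →ₐ[k] (A ⊗[k] R ⧸ q.asIdeal) := Ideal.kerLiftAlg f
  have hf' : Function.Injective f' := Ideal.kerLiftAlg_injective f
  have hg : Algebra.adjoin (A ⧸ pA) (Set.range f') = ⊤ := by
    rw [eq_top_iff]
    intro x _
    obtain ⟨y, rfl⟩ := Ideal.Quotient.mk_surjective x
    induction y using TensorProduct.induction_on with
    | zero => rw [map_zero]; exact zero_mem _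
    | add a b ha hb => rw [map_add]; exact add_mem (ha trivial) (hb trivial)
    | tmul a r =>
      have h1 : (Ideal.Quotient.mk q.asIdeal (a ⊗ₜ[k] r) : A ⊗[k] R ⧸ q.asIdeal)
          = algebraMap (A ⧸ pA) (A ⊗[k] R ⧸ q.asIdeal) (Ideal.Quotient.mk pA a)
            * f' (Ideal.Quotient.mk _ r) := by
        have h2 : f' (Ideal.Quotient.mk _ r) = f r := rfl
        rw [h2, Ideal.Quotient.algebraMap_mk_of_liesOver]
        change _ = Ideal.Quotient.mk _ (a ⊗ₜ[k] 1) * Ideal.Quotient.mk _ (1 ⊗ₜ[k] r)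
        rw [← map_mul, Algebra.TensorProduct.tmul_mul_tmul, mul_one, one_mul]
      rw [h1]
      exact mul_mem (Subalgebra.algebraMap_mem _ _) (Algebra.subset_adjoin ⟨_, rfl⟩)
  have h1 := DPRAux.trdeg_le (k := k) (S := A ⧸ pA) f' hf' hg
  have h2 : Algebra.trdeg k (A ⧸ pA) + Algebra.trdeg (A ⧸ pA) (A ⊗[k] R ⧸ q.asIdeal)
      = Algebra.trdeg k (A ⊗[k] R ⧸ q.asIdeal) := trdeg_add_eq k (A ⧸ pA)
  rw [← h2, Nat.cast_add]
  exact add_le_add hpA (h1.trans hpR)

end Pool.Agent.FMS
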