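import Pool.Agent.FMS.St

/-!
# FMS: module EHU, from the affine Hermitian curve to the affine Fermat curve
-/

set_option autoImplicit false

open Polynomial

namespace Pool.Agent.FMS

open FMO (Strat)

namespace EHUAux

/-! ### Algebras given by equations -/

/-- `C` represents the relation `R` on `D`-algebras. -/
structure Pr (D : Type) [CommRing D] {ι : Type}
    (R : ∀ (E : Type) [CommRing E] [Algebra D E], (ι → E) → Prop)
    (C : Type) [CommRing C] [Algebra D C] (φ : ι → C) : Prop where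
  rel : R C φ
  lift : ∀ (E : Type) [CommRing E] [Algebra D E] (ψ : ι → E), R E ψ →
    ∃ g : C →ₐ[D] E, ∀ i, g (φ i) = ψ i
  ext : ∀ (E : Type) [CommRing E] [Algebra D E] (g h : C →ₐ[D] E),
    (∀ i, g (φ i) = h (φ i)) → g = h

variable {D : Type} [CommRing D]

theorem Pr.iso {ι ι' : Type} {R : ∀ (E : Type) [CommRing E] [Algebra D E], (ι → E) → Prop}
    {R' : ∀ (E : Type) [CommRing E] [Algebra D E], (ι' → E) → Prop}
    {C C' : Type} [CommRing C] [Algebra D C] [CommRing C'] [Algebra D C'] {φ : ι → C} {φ' : ι' → C'}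
    (h : Pr D R C φ) (h' : Pr D R' C' φ') (a : ι → C') (b : ι' → C) (ha : R C' a) (hb : R' C b)
    (h1 : ∀ f : C →ₐ[D] C', (∀ i, f (φ i) = a i) → ∀ j, f (b j) = φ' j)
    (h2 : ∀ g : C' →ₐ[D] C, (∀ j, g (φ' j) = b j) → ∀ i, g (a i) = φ i) :
    Nonempty (C ≃ₐ[D] C') := by
  obtain ⟨f, hf⟩ := h.lift C' a ha
  obtain ⟨g, hg⟩ := h'.lift C b hb
  refine ⟨AlgEquiv.ofAlgHom f g ?_ ?_⟩
  · refine h'.ext C' _ _ fun j => ?_
    rw [AlgHom.comp_apply, hg, AlgHom.id_apply]
    exact h1 f hf j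
  · refine h.ext C _ _ fun i => ?_
    rw [AlgHom.comp_apply, hf, AlgHom.id_apply]
    exact h2 g hg i

/-- the localisation -/
theorem Pr.loc {R : ∀ (E : Type) [CommRing E] [Algebra D E], (Fin 2 → E) → Prop}
    {C : Type} [CommRing C] [Algebra D C] {φ : Fin 2 → C} (h : Pr D R C φ)
    (P : MvPolynomial (Fin 2) D) (c : C) (hc : MvPolynomial.aeval φ P = c)
    (hR : R (Localization.Away c) fun i => algebraMap C (Localization.Away c) (φ i)) :
    Pr D (fun E _ _ (ψ : Fin 3 → E) => R E ![ψ 0, ψ 1] ∧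
        MvPolynomial.aeval ![ψ 0, ψ 1] P * ψ 2 = 1)
      (Localization.Away c)
      ![algebraMap C _ (φ 0), algebraMap C _ (φ 1), IsLocalization.Away.invSelf c] where
  rel := by
    have e : (![algebraMap C (Localization.Away c) (φ 0),
        algebraMap C (Localization.Away c) (φ 1)] : Fin 2 → Localization.Away c) =
        fun i => algebraMap C (Localization.Away c) (φ i) := by
      funext i
      fin_cases i <;> rfl
    constructor
    · simp only [Matrix.cons_val_zero, Matrix.cons_val_one]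
      rw [e]
      exact hR
    · simp only [Matrix.cons_val_zero, Matrix.cons_val_one, Matrix.cons_val]
      rw [e]
      have h3 : (MvPolynomial.aeval fun i => algebraMap C (Localization.Away c) (φ i)) P =
          algebraMap C (Localization.Away c) (MvPolynomial.aeval φ P) :=
        MvPolynomial.aeval_algebraMap_apply _ _ _
      rw [h3, hc]
      exact IsLocalization.Away.mul_invSelf c
  lift E _ _ ψ hψ := by
    obtain ⟨hψ1, hψ2⟩ := hψ
    obtain ⟨g, hg⟩ := h.lift E _ hψ1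
    have hgc : g c * ψ 2 = 1 := by
      rw [← hψ2, ← hc, MvPolynomial.comp_aeval_apply]
      congr 3
      funext i
      exact hg i
    have h1 : ∀ y : Submonoid.powers c, IsUnit (g y) := by
      rintro ⟨_, n, rfl⟩
      change IsUnit (g (c ^ n))
      rw [map_pow]
      exact (IsUnit.of_mul_eq_one _ hgc).pow n
    have h2 : ∀ x : C, IsLocalization.liftAlgHom (M := Submonoid.powers c)
        (S := Localization.Away c) (f := g) h1 (algebraMap C _ x) = g x := fun x => by
      rw [IsLocalization.liftAlgHom_apply, IsLocalization.lift_eq]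
      rfl
    refine ⟨IsLocalization.liftAlgHom (M := Submonoid.powers c) (f := g) h1, fun i => ?_⟩
    have h0 := hg 0
    have h0' := hg 1
    simp only [Matrix.cons_val_zero, Matrix.cons_val_one] at h0 h0'
    fin_cases i
    · exact (h2 _).trans h0
    · exact (h2 _).trans h0'
    · have h4 := congrArg (IsLocalization.liftAlgHom (M := Submonoid.powers c)
        (S := Localization.Away c) (f := g) h1) (IsLocalization.Away.mul_invSelf
          (S := Localization.Away c) c)
      rw [map_mul, map_one, h2] at h4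
      change IsLocalization.liftAlgHom (M := Submonoid.powers c)
        (S := Localization.Away c) (f := g) h1 (IsLocalization.Away.invSelf c) = ψ 2
      have h5 := congrArg (fun t => t * ψ 2) h4
      simp only [one_mul] at h5
      rw [← h5]
      linear_combination (-(IsLocalization.liftAlgHom (M := Submonoid.powers c)
        (S := Localization.Away c) (f := g) h1 (IsLocalization.Away.invSelf c))) * hgc
  ext E _ _ g g' hgg := by
    have h1 := h.ext E (g.comp (IsScalarTower.toAlgHom D C (Localization.Away c)))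
      (g'.comp (IsScalarTower.toAlgHom D C (Localization.Away c))) fun w => by
        fin_cases w
        · exact hgg 0
        · exact hgg 1
    have h2 : (g : Localization.Away c →+* E) = g' := by
      refine IsLocalization.ringHom_ext (Submonoid.powers c) (RingHom.ext fun a => ?_)
      exact congrArg (fun f : C →ₐ[D] E => f a) h1
    exact AlgHom.coe_ringHom_injective h2

/-- the quotient -/
theorem Pr.quo {R : ∀ (E : Type) [CommRing E] [Algebra D E], (Fin 2 → E) → Prop}
    {C : Type} [CommRing C] [Algebra D C] {φ : Fin 2 → C} (h : Pr D R C φ)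
    (P : MvPolynomial (Fin 2) D) (c : C) (hc : MvPolynomial.aeval φ P = c)
    (hR : R (C ⧸ Ideal.span {c}) fun i => Ideal.Quotient.mk (Ideal.span {c}) (φ i)) :
    Pr D (fun E _ _ (ψ : Fin 2 → E) => R E ψ ∧ MvPolynomial.aeval ψ P = 0)
      (C ⧸ Ideal.span {c}) (fun i => Ideal.Quotient.mk (Ideal.span {c}) (φ i)) where
  rel := by
    refine ⟨hR, ?_⟩
    have h3 : (MvPolynomial.aeval fun i => Ideal.Quotient.mk (Ideal.span {c}) (φ i)) P =
        Ideal.Quotient.mkₐ D (Ideal.span {c}) (MvPolynomial.aeval φ P) :=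
      (MvPolynomial.comp_aeval_apply φ (Ideal.Quotient.mkₐ D (Ideal.span {c})) P).symm
    rw [h3, hc]
    exact Ideal.Quotient.eq_zero_iff_mem.2 (Ideal.subset_span rfl)
  lift E _ _ ψ hψ := by
    obtain ⟨hψ1, hψ2⟩ := hψ
    obtain ⟨g, hg⟩ := h.lift E _ hψ1
    have hgc : g c = 0 := by
      rw [← hψ2, ← hc, MvPolynomial.comp_aeval_apply]
      congr 2
      funext i
      exact hg i
    have hle : ∀ a ∈ Ideal.span {c}, g a = 0 := by
      intro a ha
      obtain ⟨b, rfl⟩ := Ideal.mem_span_singleton'.1 ha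
      rw [map_mul, hgc, mul_zero]
    exact ⟨Ideal.Quotient.liftₐ (Ideal.span {c}) g hle, fun i => hg i⟩
  ext E _ _ g g' hgg := by
    have h1 := h.ext E (g.comp (Ideal.Quotient.mkₐ D (Ideal.span {c})))
      (g'.comp (Ideal.Quotient.mkₐ D (Ideal.span {c}))) fun w => hgg w
    exact Ideal.Quotient.algHom_ext D h1

/-- one equation in one unknown -/
theorem prA (f : D[X]) :
    Pr D (fun E _ _ (ψ : Fin 1 → E) => aeval (ψ 0) f = 0) (AdjoinRoot f)
      (fun _ => AdjoinRoot.root f) where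
  rel := by
    change aeval (AdjoinRoot.root f) f = 0
    rw [AdjoinRoot.aeval_eq, AdjoinRoot.mk_self]
  lift E _ _ ψ hψ := by
    have h1 : f.eval₂ (Algebra.ofId D E : D →+* E) (ψ 0) = 0 := hψ
    refine ⟨AdjoinRoot.liftAlgHom f (Algebra.ofId D E) (ψ 0) h1, fun i => ?_⟩
    fin_cases i
    exact AdjoinRoot.liftAlgHom_root f (Algebra.ofId D E) (ψ 0) h1
  ext E _ _ g g' hgg := AdjoinRoot.algHom_ext (hgg 0)


/-! ### The constants -/

/-- the constants -/
structure Cst (q : ℕ) (E : Type) [CommRing E] (ζ ζi θ τ η κ : E) : Prop where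
  add : ∀ a b : E, (a + b) ^ q = a ^ q + b ^ q
  zz : ζ * ζi = 1
  zn : ζ ^ (q + 1) = -1
  tn : θ ^ (q + 1) = 1
  tt : τ * (1 - θ) = 1
  tq : τ ^ q + τ = 1
  ke : κ * η = 1
  kq : κ ^ q = -κ
  eq : η ^ q = -η

section

variable {q : ℕ} {E : Type} [CommRing E] {ζ ζi θ τ η κ : E}

theorem Cst.map (h : Cst q E ζ ζi θ τ η κ) {E' : Type} [CommRing E'] (f : E →+* E')
    (hadd : ∀ a b : E', (a + b) ^ q = a ^ q + b ^ q) :
    Cst q E' (f ζ) (f ζi) (f θ) (f τ) (f η) (f κ) where
  add := hadd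
  zz := by rw [← map_mul, h.zz, map_one]
  zn := by rw [← map_pow, h.zn, map_neg, map_one]
  tn := by rw [← map_pow, h.tn, map_one]
  tt := by
    have := congrArg f h.tt
    rwa [map_mul, map_sub, map_one] at this
  tq := by
    have := congrArg f h.tq
    rwa [map_add, map_pow, map_one] at this
  ke := by rw [← map_mul, h.ke, map_one]
  kq := by rw [← map_pow, h.kq, map_neg]
  eq := by rw [← map_pow, h.eq, map_neg]

theorem Cst.sub (h : Cst q E ζ ζi θ τ η κ) (a b : E) : (a - b) ^ q = a ^ q - b ^ q := by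
  have h1 := h.add (a - b) b
  rw [sub_add_cancel] at h1
  rw [h1, add_sub_cancel_right]

/-- from the Hermitian to the Fermat curve -/
theorem Cst.toF (h : Cst q E ζ ζi θ τ η κ) {v w M : E} (h1 : w ^ q - w = κ * v ^ (q + 1))
    (h2 : (η * w + τ) * M = 1) :
    1 + (ζ * (η * w + θ * τ) * M) ^ (q + 1) + (v * M) ^ (q + 1) = 0 ∧
      (1 - ζi * (ζ * (η * w + θ * τ) * M)) * (η * w + τ) = 1 := by
  constructor
  · have e1 : ((η * w + τ) * M) ^ (q + 1) = 1 := by rw [h2, one_pow]
    have e2 : (η * w + τ) ^ q = -(η * w ^ q) + τ ^ q := by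
      rw [h.add, mul_pow, h.eq]; ring
    have e3 : (η * w + θ * τ) ^ q = -(η * w ^ q) + θ ^ q * τ ^ q := by
      rw [h.add, mul_pow, h.eq, mul_pow]; ring
    have e4 : τ ^ q * (1 - θ ^ q) = 1 := by
      have := congrArg (· ^ q) h.tt
      simp only [mul_pow, one_pow] at this
      rw [h.sub, one_pow] at this
      exact this
    have e5 : θ ^ q * θ = 1 := by rw [← pow_succ]; exact h.tn
    have e6 : v ^ (q + 1) = η * (w ^ q - w) := by
      rw [h1, ← mul_assoc, mul_comm η κ, h.ke, one_mul]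
    have e7 : (η * w + τ) ^ (q + 1) = (-(η * w ^ q) + τ ^ q) * (η * w + τ) := by
      rw [pow_succ, e2]
    have e8 : (η * w + θ * τ) ^ (q + 1) = (-(η * w ^ q) + θ ^ q * τ ^ q) * (η * w + θ * τ) := by
      rw [pow_succ, e3]
    have e9 : (ζ * (η * w + θ * τ) * M) ^ (q + 1) =
        -((-(η * w ^ q) + θ ^ q * τ ^ q) * (η * w + θ * τ)) * M ^ (q + 1) := by
      rw [mul_pow, mul_pow, h.zn, e8]; ring
    rw [mul_pow, e7] at e1
    rw [e9, mul_pow v M, e6]
    have e10 : (-(η * w ^ q) + τ ^ q) * (η * w + τ) -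
        (-(η * w ^ q) + θ ^ q * τ ^ q) * (η * w + θ * τ) + η * (w ^ q - w) = 0 := by
      linear_combination (η * w) * e4 - (η * w ^ q) * h.tt - (τ * τ ^ q) * e5
    linear_combination M ^ (q + 1) * e10 - e1
  · linear_combination (-(η * w + θ * τ) * M * (η * w + τ)) * h.zz + h.tt -
      (η * w + θ * τ) * h2

/-- from the Fermat to the Hermitian curve -/
theorem Cst.toH (h : Cst q E ζ ζi θ τ η κ) {x y L : E}
    (h1 : 1 + x ^ (q + 1) + y ^ (q + 1) = 0) (h2 : (1 - ζi * x) * L = 1) :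
    (κ * (L - τ)) ^ q - κ * (L - τ) = κ * (y * L) ^ (q + 1) ∧
      (η * (κ * (L - τ)) + τ) * (1 - ζi * x) = 1 := by
  constructor
  · have e1 : (κ * (L - τ)) ^ q = -κ * (L ^ q - τ ^ q) := by
      rw [mul_pow, h.kq, h.sub]
    obtain ⟨l, hl⟩ : ∃ l, l = 1 - ζi * x := ⟨_, rfl⟩
    rw [← hl] at h2
    have e2 : x = ζ * (1 - l) := by
      rw [hl]
      linear_combination (-x) * h.zz
    have e3 : x ^ (q + 1) = -((1 - l ^ q) * (1 - l)) := by
      rw [e2, mul_pow, h.zn, pow_succ (1 - l), h.sub, one_pow]; ring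
    have e4 : l ^ q * L ^ q = 1 := by rw [← mul_pow, h2, one_pow]
    have e5 : y ^ (q + 1) = -l - l ^ q + l ^ q * l := by
      linear_combination h1 - e3
    rw [e1, mul_pow y L, e5, pow_succ L]
    linear_combination κ * h.tq + κ * (L ^ q * h2) + κ * (L * e4) - κ * (l * L) * e4 - κ * h2
  · linear_combination ((L - τ) * (1 - ζi * x)) * h.ke + h2

end

/-! ### The presentations -/

section

variable (K : Type) [Field K] [Algebra K D]

/-- the constant `c` in the `D`-algebra `E` -/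
abbrev cc (c : K) (D E : Type) [CommRing D] [Algebra K D] [CommRing E] [Algebra D E] : E :=
  algebraMap D E (algebraMap K D c)

theorem prF (n : ℕ) :
    Pr D (fun E _ _ (ψ : Fin 2 → E) => 1 + ψ 0 ^ n + ψ 1 ^ n = 0) (FD K n 1 1 D)
      (fun i => Ideal.Quotient.mk _ (MvPolynomial.X i)) where
  rel := by
    rw [← map_pow, ← map_pow, ← map_one (Ideal.Quotient.mk _), ← map_add, ← map_add]
    refine Ideal.Quotient.eq_zero_iff_mem.2 ?_
    have e : (1 + MvPolynomial.X 0 ^ n + MvPolynomial.X 1 ^ n : MvPolynomial (Fin 2) D) =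
        1 + (1 : K) • MvPolynomial.X 0 ^ n + (1 : K) • MvPolynomial.X 1 ^ n := by
      rw [one_smul, one_smul]
    rw [e]
    exact Ideal.subset_span rfl
  lift E _ _ ψ hψ := by
    have hle : ∀ a ∈ Ideal.span {(1 + (1 : K) • MvPolynomial.X 0 ^ n +
        (1 : K) • MvPolynomial.X 1 ^ n : MvPolynomial (Fin 2) D)}, MvPolynomial.aeval ψ a = 0 := by
      intro a ha
      obtain ⟨b, rfl⟩ := Ideal.mem_span_singleton'.1 ha
      rw [one_smul, one_smul, map_mul, map_add, map_add, map_one, map_pow, map_pow,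
        MvPolynomial.aeval_X, MvPolynomial.aeval_X, hψ, mul_zero]
    refine ⟨Ideal.Quotient.liftₐ _ (MvPolynomial.aeval ψ) hle, fun i => ?_⟩
    exact MvPolynomial.aeval_X ψ i
  ext E _ _ g g' hgg := by
    refine Ideal.Quotient.algHom_ext D ?_
    exact MvPolynomial.algHom_ext fun i => hgg i

omit [Algebra K D] in
theorem mk_ap (f : D[X][X]) (q : ℕ) (α : D[X]) :
    AdjoinRoot.mk f (X ^ q - X - C α : D[X][X]) =
      AdjoinRoot.root f ^ q - AdjoinRoot.root f - AdjoinRoot.of f α := by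
  rw [map_sub, map_sub, map_pow]
  rfl

theorem prH (q : ℕ) (κ : K) :
    Pr D (fun E _ _ (ψ : Fin 2 → E) => ψ 1 ^ q - ψ 1 = cc K κ D E * ψ 0 ^ (q + 1)) (HD q κ D)
      ![AdjoinRoot.of _ X, AdjoinRoot.root _] where
  rel := by
    simp only [Matrix.cons_val_zero, Matrix.cons_val_one]
    have h2 : (κ • X ^ (q + 1) : D[X]) = C (algebraMap K D κ) * X ^ (q + 1) := by
      rw [Algebra.smul_def, Polynomial.algebraMap_apply]
    have h3 := mk_ap (ap q (κ • X ^ (q + 1) : D[X])) q (κ • X ^ (q + 1))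
    have h1 : AdjoinRoot.mk (ap q (κ • X ^ (q + 1) : D[X]))
      (X ^ q - X - C (κ • X ^ (q + 1) : D[X]) : D[X][X]) = 0 := AdjoinRoot.mk_self
    rw [h1] at h3
    have h4 : AdjoinRoot.of (ap q (κ • X ^ (q + 1) : D[X])) (κ • X ^ (q + 1)) =
        cc K κ D (HD q κ D) * AdjoinRoot.of (ap q (κ • X ^ (q + 1) : D[X])) X ^ (q + 1) := by
      refine (congrArg (AdjoinRoot.of (ap q (κ • X ^ (q + 1) : D[X]))) h2).trans ?_
      rw [map_mul, map_pow]
      rfl
    rw [← h4]
    exact (sub_eq_zero.1 h3.symm)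
  lift E _ _ ψ hψ := by
    have h1 : (ap q (κ • X ^ (q + 1) : D[X])).eval₂ (Polynomial.aeval (ψ 0) : D[X] →ₐ[D] E)
        (ψ 1) = 0 := by
      have h2 : (κ • X ^ (q + 1) : D[X]) = C (algebraMap K D κ) * X ^ (q + 1) := by
        rw [Algebra.smul_def, Polynomial.algebraMap_apply]
      unfold ap
      rw [eval₂_sub, eval₂_sub, eval₂_pow, eval₂_X, eval₂_C, h2]
      have h3 : (Polynomial.aeval (ψ 0) : D[X] →ₐ[D] E) (C (algebraMap K D κ) * X ^ (q + 1)) =
          cc K κ D E * ψ 0 ^ (q + 1) := by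
        rw [map_mul, map_pow, aeval_C, aeval_X]
      rw [AlgHom.coe_toRingHom, h3, hψ, sub_self]
    refine ⟨AdjoinRoot.liftAlgHom _ (Polynomial.aeval (ψ 0)) (ψ 1) h1, fun i => ?_⟩
    fin_cases i
    · have h4 := AdjoinRoot.liftAlgHom_of (ap q (κ • X ^ (q + 1) : D[X]))
        (Polynomial.aeval (ψ 0)) (ψ 1) h1 X
      rw [aeval_X] at h4
      exact h4
    · exact AdjoinRoot.liftAlgHom_root _ _ _ _
  ext E _ _ g g' hgg := by
    refine AdjoinRoot.algHom_ext' ?_ (hgg 1)
    exact Polynomial.algHom_ext (hgg 0)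

end

/-! ### The isomorphisms -/

section

variable (K : Type) [Field K] [Algebra K D]

/-- `1 - ζ⁻¹ x` -/
noncomputable def pf (ζi : K) (D : Type) [CommRing D] [Algebra K D] : MvPolynomial (Fin 2) D :=
  1 - MvPolynomial.C (algebraMap K D ζi) * MvPolynomial.X 0

/-- `η w + τ` -/
noncomputable def ph (η τ : K) (D : Type) [CommRing D] [Algebra K D] : MvPolynomial (Fin 2) D :=
  MvPolynomial.C (algebraMap K D η) * MvPolynomial.X 1 + MvPolynomial.C (algebraMap K D τ)

theorem aeval_pf (ζi : K) {E : Type} [CommRing E] [Algebra D E] (ψ : Fin 2 → E) :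
    MvPolynomial.aeval ψ (pf K ζi D) = 1 - cc K ζi D E * ψ 0 := by
  unfold pf
  rw [map_sub, map_one, map_mul, MvPolynomial.aeval_C, MvPolynomial.aeval_X]

theorem aeval_ph (η τ : K) {E : Type} [CommRing E] [Algebra D E] (ψ : Fin 2 → E) :
    MvPolynomial.aeval ψ (ph K η τ D) = cc K η D E * ψ 1 + cc K τ D E := by
  unfold ph
  rw [map_add, map_mul, MvPolynomial.aeval_C, MvPolynomial.aeval_C, MvPolynomial.aeval_X]

variable {K} {q : ℕ} {ζ ζi θ τ η κ : K}

theorem isoU (hc : ∀ (E : Type) [CommRing E] [Algebra D E],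
      Cst q E (cc K ζ D E) (cc K ζi D E) (cc K θ D E) (cc K τ D E) (cc K η D E) (cc K κ D E))
    {C C' : Type} [CommRing C] [Algebra D C] [CommRing C'] [Algebra D C'] {φ : Fin 3 → C}
    {φ' : Fin 3 → C'}
    (h : Pr D (fun E _ _ (ψ : Fin 3 → E) =>
      (1 + (![ψ 0, ψ 1] : Fin 2 → E) 0 ^ (q + 1) + (![ψ 0, ψ 1] : Fin 2 → E) 1 ^ (q + 1) = 0) ∧
        MvPolynomial.aeval ![ψ 0, ψ 1] (pf K ζi D) * ψ 2 = 1) C φ)
    (h' : Pr D (fun E _ _ (ψ : Fin 3 → E) =>
      ((![ψ 0, ψ 1] : Fin 2 → E) 1 ^ q - (![ψ 0, ψ 1] : Fin 2 → E) 1 =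
        cc K κ D E * (![ψ 0, ψ 1] : Fin 2 → E) 0 ^ (q + 1)) ∧
        MvPolynomial.aeval ![ψ 0, ψ 1] (ph K η τ D) * ψ 2 = 1) C' φ') :
    Nonempty (C ≃ₐ[D] C') := by
  have hC := hc C
  have hC' := hc C'
  obtain ⟨r1, r2⟩ := h.rel
  obtain ⟨r1', r2'⟩ := h'.rel
  rw [aeval_pf] at r2
  rw [aeval_ph] at r2'
  simp only [Matrix.cons_val_zero, Matrix.cons_val_one] at r1 r2 r1' r2'
  obtain ⟨s1, s2⟩ := hC.toH r1 r2
  obtain ⟨s1', s2'⟩ := hC'.toF r1' r2'
  refine h.iso h'
    ![cc K ζ D C' * (cc K η D C' * φ' 1 + cc K θ D C' * cc K τ D C') * φ' 2, φ' 0 * φ' 2,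
      cc K η D C' * φ' 1 + cc K τ D C']
    ![φ 1 * φ 2, cc K κ D C * (φ 2 - cc K τ D C), 1 - cc K ζi D C * φ 0] ?_ ?_ ?_ ?_
  · constructor
    · simp only [Matrix.cons_val_zero, Matrix.cons_val_one]
      exact s1'
    · rw [aeval_pf]
      simp only [Matrix.cons_val_zero, Matrix.cons_val]
      exact s2'
  · constructor
    · simp only [Matrix.cons_val_zero, Matrix.cons_val_one]
      exact s1
    · rw [aeval_ph]
      simp only [Matrix.cons_val_one, Matrix.cons_val]
      exact s2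
  · intro f hf j
    have f0 := hf 0
    have f1 := hf 1
    have f2 := hf 2
    simp only [Matrix.cons_val_zero, Matrix.cons_val_one, Matrix.cons_val] at f0 f1 f2
    have hz : ∀ c : K, f (cc K c D C) = cc K c D C' := fun c => f.commutes _
    fin_cases j
    · change f (φ 1 * φ 2) = φ' 0
      rw [map_mul, f1, f2]
      linear_combination (φ' 0) * r2'
    · change f (cc K κ D C * (φ 2 - cc K τ D C)) = φ' 1
      rw [map_mul, map_sub, hz, hz, f2]
      linear_combination (φ' 1) * hC'.ke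
    · change f (1 - cc K ζi D C * φ 0) = φ' 2
      rw [map_sub, map_one, map_mul, hz, f0]
      linear_combination (-(cc K η D C' * φ' 1 + cc K θ D C' * cc K τ D C') * φ' 2) * hC'.zz -
        r2' + (φ' 2) * hC'.tt
  · intro g hg j
    have g0 := hg 0
    have g1 := hg 1
    have g2 := hg 2
    simp only [Matrix.cons_val_zero, Matrix.cons_val_one, Matrix.cons_val] at g0 g1 g2
    have hz : ∀ c : K, g (cc K c D C') = cc K c D C := fun c => g.commutes _
    fin_cases j
    · change g (cc K ζ D C' * (cc K η D C' * φ' 1 + cc K θ D C' * cc K τ D C') * φ' 2) = φ 0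
      rw [map_mul, map_mul, map_add, map_mul, map_mul, hz, hz, hz, hz, g1, g2]
      linear_combination (cc K ζ D C * (φ 2 - cc K τ D C) * (1 - cc K ζi D C * φ 0)) * hC.ke -
        (cc K ζ D C * (1 - cc K ζi D C * φ 0)) * hC.tt + (cc K ζ D C) * r2 + (φ 0) * hC.zz
    · change g (φ' 0 * φ' 2) = φ 1
      rw [map_mul, g0, g2]
      linear_combination (φ 1) * r2
    · change g (cc K η D C' * φ' 1 + cc K τ D C') = φ 2
      rw [map_add, map_mul, hz, hz, g1]
      linear_combination (φ 2 - cc K τ D C) * hC.ke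

/-- the closed part of the Fermat curve -/
theorem isoZ (hc : ∀ (E : Type) [CommRing E] [Algebra D E],
      Cst q E (cc K ζ D E) (cc K ζi D E) (cc K θ D E) (cc K τ D E) (cc K η D E) (cc K κ D E))
    {C : Type} [CommRing C] [Algebra D C] {φ : Fin 2 → C}
    (h : Pr D (fun E _ _ (ψ : Fin 2 → E) => (1 + ψ 0 ^ (q + 1) + ψ 1 ^ (q + 1) = 0) ∧
        MvPolynomial.aeval ψ (pf K ζi D) = 0) C φ) :
    Nonempty (C ≃ₐ[D] AdjoinRoot (X ^ (q + 1) : D[X])) := by
  have h' := prA (X ^ (q + 1) : D[X])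
  have hC := hc C
  have hC' := hc (AdjoinRoot (X ^ (q + 1) : D[X]))
  obtain ⟨r1, r2⟩ := h.rel
  have r1' := h'.rel
  rw [aeval_pf] at r2
  rw [map_pow, aeval_X] at r1'
  have e0 : φ 0 = cc K ζ D C := by
    linear_combination (-(cc K ζ D C)) * r2 - (φ 0) * hC.zz
  refine h.iso h' ![cc K ζ D _, AdjoinRoot.root _] (fun _ => φ 1) ?_ ?_ ?_ ?_
  · constructor
    · simp only [Matrix.cons_val_zero, Matrix.cons_val_one]
      rw [hC'.zn, r1']
      ring
    · rw [aeval_pf]
      simp only [Matrix.cons_val_zero]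
      linear_combination (-1 : AdjoinRoot (X ^ (q + 1) : D[X])) * hC'.zz
  · change aeval (φ 1) (X ^ (q + 1) : D[X]) = 0
    rw [map_pow, aeval_X]
    rw [e0, hC.zn] at r1
    linear_combination r1
  · intro f hf j
    exact hf 1
  · intro g hg j
    fin_cases j
    · change g (cc K ζ D _) = φ 0
      rw [e0]
      exact g.commutes _
    · exact hg 0

/-- the closed part of the Hermitian curve -/
theorem isoZ' (hc : ∀ (E : Type) [CommRing E] [Algebra D E],
      Cst q E (cc K ζ D E) (cc K ζi D E) (cc K θ D E) (cc K τ D E) (cc K η D E) (cc K κ D E))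
    (hq : q ≠ 0) {C : Type} [CommRing C] [Algebra D C] {φ : Fin 2 → C}
    (h : Pr D (fun E _ _ (ψ : Fin 2 → E) => (ψ 1 ^ q - ψ 1 = cc K κ D E * ψ 0 ^ (q + 1)) ∧
        MvPolynomial.aeval ψ (ph K η τ D) = 0) C φ) (f : D[X]) (hf : f = X ^ (q + 1) - 1) :
    Nonempty (C ≃ₐ[D] AdjoinRoot f) := by
  have h' := prA f
  have hC := hc C
  have hC' := hc (AdjoinRoot f)
  obtain ⟨r1, r2⟩ := h.rel
  have r1' := h'.rel
  rw [aeval_ph] at r2
  have hae : ∀ (E : Type) [CommRing E] [Algebra D E] (r : E), aeval r f = r ^ (q + 1) - 1 := by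
    intro E _ _ r
    rw [hf, map_sub, map_pow, aeval_X, map_one]
  rw [hae] at r1'
  have e0 : φ 1 = -(cc K κ D C * cc K τ D C) := by
    linear_combination (cc K κ D C) * r2 - (φ 1) * hC.ke
  have key : ∀ (E : Type) [CommRing E] [Algebra D E], (-(cc K κ D E * cc K τ D E)) ^ q -
      (-(cc K κ D E * cc K τ D E)) = cc K κ D E := by
    intro E _ _
    have hE := hc E
    have h1 : (-(cc K κ D E * cc K τ D E)) ^ q = -((cc K κ D E * cc K τ D E) ^ q) := by
      have h2 := hE.add (-(cc K κ D E * cc K τ D E)) (cc K κ D E * cc K τ D E)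
      rw [neg_add_cancel, zero_pow hq] at h2
      linear_combination -h2
    rw [h1, mul_pow, hE.kq]
    linear_combination (cc K κ D E) * hE.tq
  refine h.iso h' ![AdjoinRoot.root _, -(cc K κ D _ * cc K τ D _)] (fun _ => φ 0) ?_ ?_ ?_ ?_
  · constructor
    · simp only [Matrix.cons_val_zero, Matrix.cons_val_one]
      rw [key]
      linear_combination (-(cc K κ D (AdjoinRoot f))) * r1'
    · rw [aeval_ph]
      simp only [Matrix.cons_val_one, Matrix.cons_val_zero]
      linear_combination (-(cc K τ D (AdjoinRoot f))) * hC'.ke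
  · change aeval (φ 0) f = 0
    rw [hae]
    rw [e0, key] at r1
    linear_combination (-(φ 0) ^ (q + 1) + 1) * hC.ke - (cc K η D C) * r1
  · intro f hf j
    exact hf 0
  · intro g hg j
    fin_cases j
    · exact hg 0
    · change g (-(cc K κ D _ * cc K τ D _)) = φ 1
      rw [e0, map_neg, map_mul]
      have hz : ∀ c : K, g (cc K c D _) = cc K c D C := fun c => g.commutes _
      rw [hz, hz]

end

/-- the closed part and the open part of `C` -/
theorem strat {k C : Type} [Field k] [CommRing C] [Algebra k C] (a : C) :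
    Strat (k := k) a (Ideal.Quotient.mkₐ k (Ideal.span {a}))
    (IsScalarTower.toAlgHom k C (Localization.Away a)) where
  surj := Ideal.Quotient.mkₐ_surjective k _
  ker := by
    ext x
    exact Ideal.Quotient.eq_zero_iff_mem
  away := by
    have e : (IsScalarTower.toAlgHom k C (Localization.Away a)).toRingHom.toAlgebra =
        (inferInstance : Algebra C (Localization.Away a)) :=
      Algebra.algebra_ext _ _ fun r => rfl
    rw [e]
    infer_instance

/-- Frobenius is additive -/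
theorem frob {p q : ℕ} {K : Type} [Field K] (hD : Dat p q K) {E : Type} [CommRing E]
    (f : K →+* E) (a b : E) : (a + b) ^ q = a ^ q + b ^ q := by
  obtain ⟨ν, -, hν⟩ := hD.pow
  have h0 : (p : E) = 0 := by
    have := hD.char
    have h1 : ((p : ℕ) : K) = 0 := CharP.cast_eq_zero K p
    have h2 := congrArg f h1
    rwa [map_natCast, map_zero] at h2
  obtain ⟨r, hr⟩ := exists_add_pow_prime_pow_eq hD.pr a b ν
  rw [hν, hr, h0]
  ring

end EHUAux

open EHUAux in
theorem t_EHU : M_EHU := by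
  intro hFQ hSPL hNLP p q K _ hD κ hκ hκq Q hQ hHD D _ _ _ hQD
  obtain ⟨-, -, hnorm, ⟨θ, hθ, hθ1⟩, -, hvi⟩ := hFQ p q K hD
  have hq : q ≠ 0 := by
    obtain ⟨ν, -, hν⟩ := hD.pow
    rw [hν]
    exact pow_ne_zero _ hD.pr.ne_zero
  have haK : ∀ a b : K, (a + b) ^ q = a ^ q + b ^ q := frob hD (RingHom.id K)
  have hneg : ∀ a : K, (-a) ^ q = -(a ^ q) := by
    intro a
    have h := haK (-a) a
    rw [neg_add_cancel, zero_pow hq] at h
    linear_combination -h
  obtain ⟨ζ, hζ⟩ := hnorm (-1) (by rw [hneg, one_pow])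
  have hζ0 : ζ ≠ 0 := by
    rintro rfl
    rw [zero_pow (Nat.succ_ne_zero q)] at hζ
    exact one_ne_zero (neg_eq_zero.1 hζ.symm)
  have hθ1' : (1 - θ) ≠ 0 := sub_ne_zero.2 hθ1.symm
  have hcK : Cst q K ζ ζ⁻¹ θ (1 - θ)⁻¹ κ⁻¹ κ := by
    have e1 : (1 - θ)⁻¹ * (1 - θ) = 1 := inv_mul_cancel₀ hθ1'
    have e2 : (1 - θ) ^ q = 1 - θ ^ q := by
      have h := haK (1 - θ) θ
      rw [sub_add_cancel, one_pow] at h
      linear_combination -h
    have e3 : ((1 - θ)⁻¹) ^ q * (1 - θ ^ q) = 1 := by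
      rw [← e2, ← mul_pow, e1, one_pow]
    have e4 : θ ^ q * θ = 1 := by rw [← pow_succ]; exact hθ
    refine ⟨haK, mul_inv_cancel₀ hζ0, hζ, hθ, e1, ?_, mul_inv_cancel₀ hκ, hκq, ?_⟩
    · have e5 : (1 - θ ^ q) ≠ 0 := by
        intro h
        rw [h, mul_zero] at e3
        exact zero_ne_one e3
      apply mul_right_cancel₀ (mul_ne_zero hθ1' e5)
      linear_combination (1 - θ) * e3 + (1 - θ ^ q) * e1 - e4
    · rw [inv_pow, hκq, inv_neg]
  have hc : ∀ (E : Type) [CommRing E] [Algebra D E],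
      Cst q E (cc K ζ D E) (cc K ζ⁻¹ D E) (cc K θ D E) (cc K (1 - θ)⁻¹ D E) (cc K κ⁻¹ D E)
        (cc K κ D E) := by
    intro E _ _
    exact hcK.map ((algebraMap D E).comp (algebraMap K D))
      (frob hD ((algebraMap D E).comp (algebraMap K D)))
  -- the Hermitian curve
  have hB := hHD D hQD
  have pB := prH (D := D) K q κ
  obtain ⟨m, hm⟩ : ∃ m : HD q κ D, MvPolynomial.aeval
      ![AdjoinRoot.of _ X, AdjoinRoot.root _] (ph K κ⁻¹ (1 - θ)⁻¹ D) = m := ⟨_, rfl⟩
  have pBz := pB.quo (ph K κ⁻¹ (1 - θ)⁻¹ D) m hm (by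
    have h := congrArg (Ideal.Quotient.mkₐ D (Ideal.span {m})) pB.rel
    rw [map_sub, map_mul, map_pow, map_pow, AlgHom.commutes] at h
    exact h)
  have pBu := pB.loc (ph K κ⁻¹ (1 - θ)⁻¹ D) m hm (by
    have h := congrArg (IsScalarTower.toAlgHom D (HD q κ D) (Localization.Away m)) pB.rel
    rw [map_sub, map_mul, map_pow, map_pow, AlgHom.commutes] at h
    exact h)
  obtain ⟨s, hs⟩ := hvi (q + 1) 1 dvd_rfl one_ne_zero
  have hf : (s.map fun a => (X - C (algebraMap K D a) : D[X])).prod = X ^ (q + 1) - 1 := by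
    have h := congrArg (Polynomial.map (algebraMap K D)) hs
    rw [one_pow, Polynomial.map_sub, Polynomial.map_pow, Polynomial.map_X, Polynomial.map_C,
      map_one, map_one, Polynomial.map_list_prod, List.map_map] at h
    rw [h]
    congr 2
    funext a
    simp
  obtain ⟨eZ⟩ := isoZ' hc hq pBz _ hf
  have hQZ : Q (HD q κ D ⧸ Ideal.span {m}) :=
    hQ.iso (eZ.symm.restrictScalars K) (hSPL K Q hQ D hQD s)
  have hQU : Q (Localization.Away m) := hQ.opn m _ _ (strat m) hB hQZ
  -- the Fermat curve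
  have pA := prF (D := D) K (q + 1)
  obtain ⟨l, hl⟩ : ∃ l : FD K (q + 1) 1 1 D, MvPolynomial.aeval
      (fun i => Ideal.Quotient.mk _ (MvPolynomial.X i)) (pf K ζ⁻¹ D) = l := ⟨_, rfl⟩
  have pAz := pA.quo (pf K ζ⁻¹ D) l hl (by
    have h := congrArg (Ideal.Quotient.mkₐ D (Ideal.span {l})) pA.rel
    rw [map_add, map_add, map_pow, map_pow, map_one, map_zero] at h
    exact h)
  have pAu := pA.loc (pf K ζ⁻¹ D) l hl (by
    have h := congrArg (IsScalarTower.toAlgHom D (FD K (q + 1) 1 1 D) (Localization.Away l)) pA.rel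
    rw [map_add, map_add, map_pow, map_pow, map_one, map_zero] at h
    exact h)
  obtain ⟨eA⟩ := isoZ hc pAz
  have hQA : Q (FD K (q + 1) 1 1 D ⧸ Ideal.span {l}) :=
    hQ.iso (eA.symm.restrictScalars K) (hNLP K Q hQ D hQD (q + 1))
  obtain ⟨eU⟩ := isoU hc pAu pBu
  have hQL : Q (Localization.Away l) := hQ.iso (eU.symm.restrictScalars K) hQU
  exact hQ.glue l _ _ (strat l) hQA hQL

end Pool.Agent.FMS
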