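import Pool.Agent.FMS.St

/-!
# FMS_EXK: existence of the field `K`
-/

set_option autoImplicit false

open Polynomial

namespace Pool.Agent.FMS

theorem t_EXK : S_EXK := by
  classical
  intro k _ _ p ν N hp hch hν hN s
  have hν0 : ν ≠ 0 := by omega
  have hq1 : 1 < p ^ ν := Nat.one_lt_pow hν0 hp.one_lt
  have hq : 1 < (p ^ ν) ^ 2 := Nat.one_lt_pow two_ne_zero hq1
  have hN0 : 0 < N := Nat.pos_of_dvd_of_pos hN (Nat.succ_pos _)
  obtain ⟨g, hg⟩ : ∃ g : k[X], g = X ^ ((p ^ ν) ^ 2) - X := ⟨_, rfl⟩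
  obtain ⟨f, hf⟩ : ∃ f : k[X], f = g * ∏ b ∈ s, (X ^ N - C b) := ⟨_, rfl⟩
  have hg0 : g ≠ 0 := by
    rw [hg]
    exact FiniteField.X_pow_card_sub_X_ne_zero k hq
  have hf0 : f ≠ 0 := by
    rw [hf]
    exact mul_ne_zero hg0 (Finset.prod_ne_zero_iff.2 fun b _ => X_pow_sub_C_ne_zero hN0 b)
  have hfm : f.map (algebraMap k f.SplittingField) ≠ 0 := Polynomial.map_ne_zero hf0
  have hfs : (f.map (algebraMap k f.SplittingField)).Splits := SplittingField.splits f
  have hchK : CharP f.SplittingField p :=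
    charP_of_injective_algebraMap (algebraMap k f.SplittingField).injective p
  refine ⟨f.SplittingField, inferInstance, inferInstance, inferInstance,
    ⟨hp, hchK, ⟨ν, hν, rfl⟩, ?_⟩, ?_⟩
  · have hgs : (g.map (algebraMap k f.SplittingField)).Splits :=
      hfs.of_dvd hfm (Polynomial.map_dvd _ (by rw [hf]; exact dvd_mul_right _ _))
    have hsep : g.Separable := by
      rw [hg]
      exact galois_poly_separable p _ ((dvd_pow_self p hν0).trans (dvd_pow_self _ two_ne_zero))
    have h1 := card_rootSet_eq_natDegree hsep hgs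
    have h2 : g.natDegree = (p ^ ν) ^ 2 := by
      rw [hg]
      exact FiniteField.X_pow_card_sub_X_natDegree_eq k hq
    rw [h2, ← Nat.card_eq_fintype_card] at h1
    refine Eq.trans (Nat.card_congr (Equiv.subtypeEquivRight fun a => ?_)) h1
    rw [mem_rootSet, hg, map_sub, map_pow, aeval_X, sub_eq_zero]
    exact ⟨fun h => ⟨hg ▸ hg0, h⟩, fun h => h.2⟩
  · intro c hc hc0
    have hcs : ((X ^ N - C c : k[X]).map (algebraMap k f.SplittingField)).Splits := by
      refine hfs.of_dvd hfm (Polynomial.map_dvd _ ?_)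
      rw [hf]
      exact (Finset.dvd_prod_of_mem (fun b : k => (X ^ N - C b : k[X])) hc).mul_left g
    rw [Polynomial.map_sub, Polynomial.map_pow, map_X, map_C] at hcs
    obtain ⟨b, hb⟩ := hcs.exists_eval_eq_zero (by
      rw [degree_X_pow_sub_C hN0]
      exact_mod_cast hN0.ne')
    rw [eval_sub, eval_pow, eval_X, eval_C, sub_eq_zero] at hb
    have hc1 : algebraMap k f.SplittingField c ≠ 0 := by
      rw [ne_eq, map_eq_zero]
      exact hc0
    refine ⟨b⁻¹, ?_⟩
    rw [inv_pow, hb, mul_inv_cancel₀ hc1]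

end Pool.Agent.FMS
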