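import Pool.Agent.FMS.St6

/-!
# FMS: EXP, systems over `A` as systems over `k` (helper1)
-/

set_option autoImplicit false

open MvPolynomial

namespace Pool.Agent.FMS

open FMO (Univ Kp)
open QCV (DL)

namespace EXPAux

section Hat

variable {k A : Type} [Field k] [CommRing A] {p : ℕ} {T : Type}

/-- a coefficient as an element of `E` -/
noncomputable def ce (E : Finset A) (h0 : (0 : A) ∈ E) (x : A) : E := by
  classical exact if h : x ∈ E then ⟨x, h⟩ else ⟨0, h0⟩

lemma ce_coe {E : Finset A} (h0 : (0 : A) ∈ E) {x : A} (hx : x ∈ E) : (ce E h0 x : A) = x := by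
  unfold ce
  rw [dif_pos hx]

variable (k p) in
/-- a polynomial over `A` as a polynomial over `k`, the coefficients are variables -/
noncomputable def hat (E : Finset A) (h0 : (0 : A) ∈ E) (g : MvPolynomial T A) :
    MvPolynomial ((Fin p ⊕ E) ⊕ T) k :=
  ∑ β ∈ g.support, monomial (Finsupp.single (Sum.inl (Sum.inr (ce E h0 (coeff β g)))) 1 +
    β.mapDomain Sum.inr) 1

lemma hat_card (E : Finset A) (h0 : (0 : A) ∈ E) (g : MvPolynomial T A) :
    (hat k p E h0 g).support.card ≤ g.support.card := by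
  classical
  unfold hat
  refine (Finset.card_le_card MvPolynomial.support_sum).trans ?_
  refine Finset.card_biUnion_le.trans ?_
  refine (Finset.sum_le_sum (g := fun _ => 1) fun β _ => ?_).trans (by simp)
  refine (Finset.card_le_card support_monomial_subset).trans ?_
  simp

lemma hat_aeval {E : Finset A} (h0 : (0 : A) ∈ E) {D : Type} [CommRing D] [Algebra k D]
    (χ : A →+* D) (ψ : (Fin p ⊕ E) ⊕ T → D) (hψ : ∀ e : E, ψ (Sum.inl (Sum.inr e)) = χ e)
    (g : MvPolynomial T A) (hg : ∀ β ∈ g.support, coeff β g ∈ E) :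
    aeval ψ (hat k p E h0 g) = eval₂ χ (fun v => ψ (Sum.inr v)) g := by
  unfold hat
  rw [map_sum, eval₂_eq]
  refine Finset.sum_congr rfl fun β hβ => ?_
  rw [aeval_monomial, map_one, one_mul,
    Finsupp.prod_add_index' (fun _ => pow_zero _) (fun _ _ _ => pow_add _ _ _),
    Finsupp.prod_single_index (h := fun x e => ψ x ^ e) (pow_zero _), pow_one, hψ,
    ce_coe h0 (hg β hβ),
    Finsupp.prod_mapDomain_index (fun _ => pow_zero _) (fun _ _ _ => pow_add _ _ _)]
  rfl

end Hat

lemma exists_lift {k P R D : Type} [Field k] [CommRing P] [CommRing R] [CommRing D] [Algebra k P]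
    [Algebra k R] [Algebra k D] (π : P →ₐ[k] R) (hπ : Function.Surjective π) (F : P →ₐ[k] D)
    (hF : ∀ x, π x = 0 → F x = 0) : ∃ χ : R →ₐ[k] D, ∀ x, χ (π x) = F x := by
  let e := Ideal.quotientKerAlgEquivOfSurjective hπ
  refine ⟨(Ideal.Quotient.liftₐ (RingHom.ker π) F (fun a ha => hF a ha)).comp
    e.symm.toAlgHom, fun x => ?_⟩
  have h1 : e.symm (π x) = Ideal.Quotient.mk _ x := by
    rw [AlgEquiv.symm_apply_eq]
    rfl
  change (Ideal.Quotient.liftₐ (RingHom.ker π) F (fun a ha => hF a ha)) (e.symm (π x)) = F x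
  rw [h1]
  rfl

/-- `eval₂Hom` over `k` -/
noncomputable def ev {k A D : Type} [Field k] [CommRing A] [CommRing D] [Algebra k A]
    [Algebra k D] {n : ℕ} (χ : A →ₐ[k] D) (y : Fin n → D) : MvPolynomial (Fin n) A →ₐ[k] D :=
  { eval₂Hom (χ : A →+* D) y with
    commutes' := fun r => by
      change eval₂Hom (χ : A →+* D) y (algebraMap k (MvPolynomial (Fin n) A) r) = _
      rw [IsScalarTower.algebraMap_apply k A (MvPolynomial (Fin n) A) r,
        MvPolynomial.algebraMap_eq, eval₂Hom_C]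
      exact χ.commutes r }

lemma ev_C {k A D : Type} [Field k] [CommRing A] [CommRing D] [Algebra k A]
    [Algebra k D] {n : ℕ} (χ : A →ₐ[k] D) (y : Fin n → D) (a : A) : ev χ y (C a) = χ a := by
  change eval₂Hom (χ : A →+* D) y (C a) = _
  rw [eval₂Hom_C]
  rfl

lemma ev_X {k A D : Type} [Field k] [CommRing A] [CommRing D] [Algebra k A]
    [Algebra k D] {n : ℕ} (χ : A →ₐ[k] D) (y : Fin n → D) (i : Fin n) : ev χ y (X i) = y i := by
  change eval₂Hom (χ : A →+* D) y (X i) = _
  rw [eval₂Hom_X']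

lemma ev_aeval {k A D : Type} [Field k] [CommRing A] [CommRing D] [Algebra k A]
    [Algebra k D] {n : ℕ} {T : Type} (χ : A →ₐ[k] D) (y : Fin n → D)
    (r : T → MvPolynomial (Fin n) A) (q : MvPolynomial T A) :
    ev χ y (aeval r q) = eval₂ (χ : A →+* D) (fun v => ev χ y (r v)) q := by
  have h := eval₂_comp_left (ev χ y : MvPolynomial (Fin n) A →+* D)
    (algebraMap A (MvPolynomial (Fin n) A)) r q
  rw [← aeval_def] at h
  have h2 : (ev χ y : MvPolynomial (Fin n) A →+* D).comp
      (algebraMap A (MvPolynomial (Fin n) A)) = (χ : A →+* D) := by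
    ext a
    exact ev_C χ y a
  rw [h2] at h
  exact h

section Few

variable {k A : Type} [Field k] [CommRing A] {p n m t : ℕ}

lemma few {E : Finset A} (h0 : (0 : A) ∈ E) {κ : Type} (x : κ → MvPolynomial (Fin p) k)
    (l : E → MvPolynomial (Fin p) k)
    (g : Fin m → MvPolynomial (Fin n ⊕ Fin m) A) (h : Fin t → MvPolynomial (Fin n ⊕ Fin m) A)
    (hg : ∀ i, (g i).support.card ≤ 2) (hh : ∀ j, (h j).support.card ≤ 2) :
    FewB (Set.range Sum.inl : Set ((Fin p ⊕ E) ⊕ (Fin n ⊕ Fin m))) m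
      (Sum.elim
        (Sum.elim (fun i => rename (fun z => Sum.inl (Sum.inl z)) (x i))
          (fun e : E => X (Sum.inl (Sum.inr e)) - rename (fun z => Sum.inl (Sum.inl z)) (l e)))
        (Sum.elim (fun i => X (Sum.inr (Sum.inr i)) - hat k p E h0 (g i))
          (fun j => hat k p E h0 (h j))) : (κ ⊕ E) ⊕ (Fin m ⊕ Fin t) →
            MvPolynomial ((Fin p ⊕ E) ⊕ (Fin n ⊕ Fin m)) k) := by
  classical
  refine ⟨Finset.univ.map (Function.Embedding.inl.trans Function.Embedding.inr), ?_, ?_, ?_⟩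
  · rw [Finset.card_map, Finset.card_univ, Fintype.card_fin]
  · intro j hj
    rw [Finset.mem_map] at hj
    obtain ⟨i, -, rfl⟩ := hj
    change (X (Sum.inr (Sum.inr i)) - hat k p E h0 (g i)).support.card ≤ 3
    refine (Finset.card_le_card (MvPolynomial.support_sub _ _ _)).trans ?_
    refine (Finset.card_union_le _ _).trans ?_
    have h1 : (X (Sum.inr (Sum.inr i)) :
        MvPolynomial ((Fin p ⊕ E) ⊕ (Fin n ⊕ Fin m)) k).support.card ≤ 1 := by
      rw [MvPolynomial.support_X, Finset.card_singleton]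
    have h2 := (hat_card (k := k) (p := p) E h0 (g i)).trans (hg i)
    omega
  · have hren : ∀ (y : MvPolynomial (Fin p) k) (v : (Fin p ⊕ E) ⊕ (Fin n ⊕ Fin m)),
        v ∈ (rename (fun z => Sum.inl (Sum.inl z)) y :
          MvPolynomial ((Fin p ⊕ E) ⊕ (Fin n ⊕ Fin m)) k).vars → v ∈ Set.range Sum.inl := by
      intro y v hv
      have h1 := MvPolynomial.vars_rename _ _ hv
      rw [Finset.mem_image] at h1
      obtain ⟨z, -, rfl⟩ := h1
      exact ⟨_, rfl⟩
    rintro ((i | e) | (i | j)) hj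
    · right
      intro v hv
      exact hren _ v hv
    · right
      intro v hv
      have h1 := MvPolynomial.vars_sub_subset _ hv
      rw [Finset.mem_union] at h1
      rcases h1 with h1 | h1
      · rw [MvPolynomial.vars_X, Finset.mem_singleton] at h1
        exact ⟨_, h1.symm⟩
      · exact hren _ v h1
    · exact absurd (Finset.mem_map.2 ⟨i, Finset.mem_univ i, rfl⟩) hj
    · left
      exact (hat_card (k := k) (p := p) E h0 (h j)).trans (hh j)

end Few

section Trdeg

open scoped IntermediateField.algebraAdjoinAdjoin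

lemma trdeg_field {k R F : Type} [Field k] [CommRing R] [IsDomain R] [Algebra k R] [Field F]
    [Algebra k F] (j : R →ₐ[k] F) (hj : Function.Injective j) (S : Set F)
    (hS : S ⊆ Set.range j) :
    Algebra.trdeg k (IntermediateField.adjoin k S) ≤ Algebra.trdeg k R := by
  have h := trdeg_add_eq k (Algebra.adjoin k S) (A := IntermediateField.adjoin k S)
  have h0 : Algebra.trdeg (Algebra.adjoin k S) (IntermediateField.adjoin k S) = 0 :=
    trdeg_eq_zero
  rw [h0, add_zero] at h
  rw [← h]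
  have hle : Algebra.adjoin k S ≤ j.range := by
    refine Algebra.adjoin_le ?_
    intro x hx
    exact hS hx
  have h1 := trdeg_le_of_injective (Subalgebra.inclusion hle) (Subalgebra.inclusion_injective hle)
  rw [(AlgEquiv.ofInjective j hj).trdeg_eq]
  exact h1

end Trdeg

end EXPAux

open EXPAux in
theorem t_EXP : S_EXP := by
  intro k _ A _ _ _ d hd m n t f hf K _ a ha
  classical
  obtain ⟨s, hs, hfj⟩ := hf
  choose g hg1 hg2 hg3 using hs
  choose h hh1 hh2 hh3 using hfj
  obtain ⟨p, π, hπ⟩ := Algebra.FiniteType.iff_quotient_mvPolynomial''.1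
    (inferInstance : Algebra.FiniteType k A)
  have : Fintype K := Fintype.ofFinite K
  obtain ⟨G, hG⟩ : ∃ G : Fin m ⊕ (Fin t ⊕ K) → MvPolynomial (Fin n ⊕ Fin m) A,
      G = Sum.elim g (Sum.elim h fun κ => rename Sum.inl (a κ)) := ⟨_, rfl⟩
  obtain ⟨E, hE⟩ : ∃ E : Finset A, E = insert 0 (Finset.univ.biUnion fun x =>
      (G x).support.image fun β => coeff β (G x)) := ⟨_, rfl⟩
  have h0 : (0 : A) ∈ E := by rw [hE]; exact Finset.mem_insert_self _ _
  have hEG : ∀ x, ∀ β ∈ (G x).support, coeff β (G x) ∈ E := by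
    intro x β hβ
    rw [hE]
    refine Finset.mem_insert_of_mem (Finset.mem_biUnion.2 ⟨x, Finset.mem_univ x, ?_⟩)
    exact Finset.mem_image.2 ⟨β, hβ, rfl⟩
  have hEg : ∀ i, ∀ β ∈ (g i).support, coeff β (g i) ∈ E := by
    intro i
    have h1 := hEG (Sum.inl i)
    rw [hG] at h1
    exact h1
  have hEh : ∀ i, ∀ β ∈ (h i).support, coeff β (h i) ∈ E := by
    intro i
    have h1 := hEG (Sum.inr (Sum.inl i))
    rw [hG] at h1
    exact h1
  have hEa : ∀ κ, ∀ β ∈ (rename Sum.inl (a κ) : MvPolynomial (Fin n ⊕ Fin m) A).support,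
      coeff β (rename Sum.inl (a κ)) ∈ E := by
    intro κ
    have h1 := hEG (Sum.inr (Sum.inr κ))
    rw [hG] at h1
    exact h1
  choose l hl using fun e : E => hπ (e : A)
  let mk := Ideal.Quotient.mkₐ k (Ideal.span (Set.range f))
  let Φ : A →ₐ[k] MvPolynomial (Fin n) A ⧸ Ideal.span (Set.range f) :=
    mk.comp (IsScalarTower.toAlgHom k A (MvPolynomial (Fin n) A))
  let φ : (Fin p ⊕ E) ⊕ (Fin n ⊕ Fin m) → MvPolynomial (Fin n) A ⧸ Ideal.span (Set.range f) :=
    Sum.elim (Sum.elim (fun z => Φ (π (X z))) fun e => Φ (e : A)) fun v => mk (Sum.elim X s v)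
  have hφ1 : ∀ x : MvPolynomial (Fin p) k,
      aeval φ (rename (fun z => Sum.inl (Sum.inl z)) x) = Φ (π x) := by
    intro x
    rw [aeval_rename]
    exact (DFunLike.congr_fun (aeval_unique (Φ.comp π)) x).symm
  have hmk : ∀ q : MvPolynomial (Fin n ⊕ Fin m) A,
      eval₂ (Φ : A →+* (MvPolynomial (Fin n) A ⧸ Ideal.span (Set.range f)))
        (fun v => φ (Sum.inr v)) q = mk (aeval (Sum.elim X s) q) := by
    intro q
    have h1 := eval₂_comp_left (Ideal.Quotient.mk (Ideal.span (Set.range f)))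
      (algebraMap A (MvPolynomial (Fin n) A)) (Sum.elim X s) q
    exact h1.symm
  have hφ2 : ∀ q : MvPolynomial (Fin n ⊕ Fin m) A, (∀ β ∈ q.support, coeff β q ∈ E) →
      aeval φ (hat k p E h0 q) = mk (aeval (Sum.elim X s) q) := by
    intro q hq
    rw [← hmk q]
    exact hat_aeval h0 (Φ : A →+* (MvPolynomial (Fin n) A ⧸ Ideal.span (Set.range f))) φ
      (fun e => rfl) q hq
  refine ⟨(Fin p ⊕ E) ⊕ (Fin n ⊕ Fin m), inferInstance, Set.range Sum.inl,
    ({x : MvPolynomial (Fin p) k // π x = 0} ⊕ E) ⊕ (Fin m ⊕ Fin t), _, φ,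
    fun κ => hat k p E h0 (rename Sum.inl (a κ)),
    few h0 (fun x : {x : MvPolynomial (Fin p) k // π x = 0} => x.1) l g h hg1 hh1,
    ⟨?_, ?_, ?_, ?_, ?_⟩, ?_, ?_⟩
  · rintro ((x | e) | (i | j))
    · change aeval φ (rename (fun z => Sum.inl (Sum.inl z)) x.1) = 0
      rw [hφ1, x.2, map_zero]
    · change aeval φ (X (Sum.inl (Sum.inr e)) - rename (fun z => Sum.inl (Sum.inl z)) (l e)) = 0
      rw [map_sub, hφ1, aeval_X, hl]
      exact sub_self _
    · change aeval φ (X (Sum.inr (Sum.inr i)) - hat k p E h0 (g i)) = 0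
      rw [map_sub, hφ2 _ (hEg i), hg3, aeval_X]
      exact sub_self _
    · change aeval φ (hat k p E h0 (h j)) = 0
      rw [hφ2 _ (hEh j), hh3]
      exact Ideal.Quotient.eq_zero_iff_mem.2 (Ideal.subset_span ⟨j, rfl⟩)
  · intro v hv
    exact absurd hv (Set.notMem_empty v)
  · intro v hv
    exact absurd hv (Set.notMem_empty v)
  · intro D _ _ ψ hψ _ _
    obtain ⟨χ, hχ⟩ := exists_lift π hπ (aeval fun z => ψ (Sum.inl (Sum.inl z))) (by
      intro x hx
      have h1 := hψ (Sum.inl (Sum.inl ⟨x, hx⟩))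
      change aeval ψ (rename (fun z => Sum.inl (Sum.inl z)) x) = 0 at h1
      rw [aeval_rename] at h1
      exact h1)
    have hχe : ∀ e : E, ψ (Sum.inl (Sum.inr e)) = χ e := by
      intro e
      have h1 := hψ (Sum.inl (Sum.inr e))
      change aeval ψ (X (Sum.inl (Sum.inr e)) - rename (fun z => Sum.inl (Sum.inl z)) (l e)) = 0
        at h1
      rw [map_sub, aeval_X, aeval_rename, sub_eq_zero] at h1
      rw [h1, ← hl e, hχ]
      rfl
    obtain ⟨Γ, hΓ⟩ : ∃ Γ : MvPolynomial (Fin n) A →ₐ[k] D,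
        Γ = ev χ fun i => ψ (Sum.inr (Sum.inl i)) := ⟨_, rfl⟩
    have hΓa : ∀ q : MvPolynomial (Fin n ⊕ Fin m) A, Γ (aeval (Sum.elim X s) q) =
        eval₂ (χ : A →+* D) (fun v => Γ (Sum.elim X s v)) q := by
      intro q
      rw [hΓ]
      exact ev_aeval χ _ _ q
    have hΓl : ∀ i : Fin n, Γ (X i) = ψ (Sum.inr (Sum.inl i)) := by
      intro i
      rw [hΓ]
      exact ev_X χ _ i
    have hr : ∀ (N : ℕ) (i : Fin m), (i : ℕ) = N → Γ (s i) = ψ (Sum.inr (Sum.inr i)) := by
      intro N
      induction N using Nat.strong_induction_on with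
      | _ N ih =>
        intro i hi
        have h1 : ψ (Sum.inr (Sum.inr i)) =
            eval₂ (χ : A →+* D) (fun v => ψ (Sum.inr v)) (g i) := by
          have h2 := hψ (Sum.inr (Sum.inl i))
          change aeval ψ (X (Sum.inr (Sum.inr i)) - hat k p E h0 (g i)) = 0 at h2
          rw [map_sub, aeval_X, sub_eq_zero] at h2
          rw [h2]
          exact hat_aeval h0 (χ : A →+* D) ψ hχe (g i) (hEg i)
        rw [h1, ← hg3 i, hΓa]
        refine MvPolynomial.eval₂Hom_congr' rfl ?_ rfl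
        rintro (v | v) hv _
        · exact hΓl v
        · exact ih v (by have := hg2 i v hv; omega) v rfl
    have hall : (fun v => Γ (Sum.elim X s v)) = fun v => ψ (Sum.inr v) := by
      funext v
      rcases v with v | v
      · exact hΓl v
      · exact hr v v rfl
    have hker : ∀ b ∈ Ideal.span (Set.range f), Γ b = 0 := by
      intro b hb
      have h1 : Ideal.span (Set.range f) ≤ RingHom.ker Γ.toRingHom := by
        rw [Ideal.span_le]
        rintro _ ⟨j, rfl⟩
        change Γ (f j) = 0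
        rw [← hh3 j, hΓa, hall]
        have h2 := hψ (Sum.inr (Sum.inr j))
        change aeval ψ (hat k p E h0 (h j)) = 0 at h2
        rw [← h2]
        exact (hat_aeval h0 (χ : A →+* D) ψ hχe (h j) (hEh j)).symm
      exact h1 hb
    have hΓC : ∀ b : A, Γ (C b) = χ b := by
      intro b
      rw [hΓ]
      exact ev_C χ _ b
    refine ⟨Ideal.Quotient.liftₐ _ Γ hker, ?_⟩
    rintro ((z | e) | v)
    · have h1 : (Ideal.Quotient.liftₐ _ Γ hker) (φ (Sum.inl (Sum.inl z))) = Γ (C (π (X z))) := rfl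
      rw [h1, hΓC, hχ, aeval_X]
    · have h1 : (Ideal.Quotient.liftₐ _ Γ hker) (φ (Sum.inl (Sum.inr e))) = Γ (C (e : A)) := rfl
      rw [h1, hΓC, hχe]
    · have h1 : (Ideal.Quotient.liftₐ _ Γ hker) (φ (Sum.inr v)) = Γ (Sum.elim X s v) := rfl
      rw [h1]
      exact congrFun hall v
  · intro D _ _ b c hbc
    apply Ideal.Quotient.algHom_ext
    apply MvPolynomial.algHom_ext'
    · have h1 : ((b.comp mk).comp (IsScalarTower.toAlgHom k A (MvPolynomial (Fin n) A))).comp π =
          ((c.comp mk).comp (IsScalarTower.toAlgHom k A (MvPolynomial (Fin n) A))).comp π := by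
        apply MvPolynomial.algHom_ext
        intro z
        exact hbc (Sum.inl (Sum.inl z))
      ext x
      obtain ⟨y, rfl⟩ := hπ x
      exact DFunLike.congr_fun h1 y
    · intro i
      exact hbc (Sum.inr (Sum.inl i))
  · intro q
    have hp1 : (q.asIdeal.comap Φ).IsPrime := Ideal.comap_isPrime Φ q.asIdeal
    have hd1 := hd ⟨q.asIdeal.comap Φ, hp1⟩
    let j : (A ⧸ q.asIdeal.comap Φ) →ₐ[k] Kp q :=
      (IsScalarTower.toAlgHom k ((MvPolynomial (Fin n) A ⧸ Ideal.span (Set.range f)) ⧸ q.asIdeal)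
        (Kp q)).comp (Ideal.quotientMapₐ q.asIdeal Φ le_rfl)
    have hj : Function.Injective j := by
      refine Function.Injective.comp (g := algebraMap ((MvPolynomial (Fin n) A ⧸
        Ideal.span (Set.range f)) ⧸ q.asIdeal) (Kp q)) (IsFractionRing.injective _ _) ?_
      exact Ideal.quotientMap_injective
    refine (trdeg_field j hj _ ?_).trans hd1
    rintro _ ⟨_, ⟨v, rfl⟩, rfl⟩
    rcases v with z | e
    · exact ⟨Ideal.Quotient.mk _ (π (X z)), rfl⟩
    · exact ⟨Ideal.Quotient.mk _ (e : A), rfl⟩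
  · intro κ
    constructor
    · refine (hat_card (k := k) (p := p) E h0 _).trans ?_
      rw [support_rename_of_injective Sum.inl_injective]
      exact Finset.card_image_le.trans (ha κ)
    · rw [hφ2 _ (hEa κ), aeval_rename]
      change mk (aeval X (a κ)) = mk (a κ)
      rw [aeval_X_left_apply]

end Pool.Agent.FMS
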