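import Pool.Agent.FMS.St4
import Pool.Agent.FMQ.FR1

/-!
# FMS: module FA1, strata of products of Fermat curves for a property of algebras (helper45)
-/

set_option autoImplicit false

open CategoryTheory AlgebraicGeometry Polynomial

namespace Pool.Agent.FMS

open FMO (Univ)
open FMQ (ferm)

open FMQ.FR1Aux in
theorem t_FA1 : M_FA1 := by
  classical
  intro hEXU hUNQ k _ Q hQ N m hN hF M
  have key : ∀ (u z : ℕ) (c c' : Fin M → k), Nat.card {j // c j * c' j ≠ 0} ≤ m →
      ∀ (U Z : Set (Fin (M + M))) (C : Type) [CommRing C] [Algebra k C]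
        [Algebra.FiniteType k C] (φ : Fin (M + M) → C), U.ncard = u → Z.ncard = z →
        Univ (ferm N c c') U Z C φ → Q C := by
    intro u
    induction u with
    | zero =>
      intro z
      induction z with
      | zero =>
        intro c c' hcard U Z C _ _ _ φ hu hz h
        have hU : U = ∅ := (Set.ncard_eq_zero (Set.toFinite U)).1 hu
        have hZ : Z = ∅ := (Set.ncard_eq_zero (Set.toFinite Z)).1 hz
        subst hU
        subst hZ
        obtain ⟨e, -⟩ := (hUNQ k).1 _ _ _ _ _ _ _ _ _
          (FMO.t_UNI k (Fin (M + M)) (Fin M) (ferm N c c')) h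
        exact hQ.clo.iso e (hF M c c' hcard)
      | succ z ihz =>
        intro c c' hcard U Z C _ _ _ φ hu hz h
        have hU : U = ∅ := (Set.ncard_eq_zero (Set.toFinite U)).1 hu
        obtain ⟨v, hv⟩ := (Set.ncard_pos (Set.toFinite Z)).1 (by omega)
        have hvU : v ∉ U := by rw [hU]; exact Set.notMem_empty v
        obtain ⟨φ', h'⟩ := univ_poly hN v c c' U Z C φ hv hvU h
        refine hQ.unline C (ihz _ _ (card_le v c c' hcard) U (Z \ {v}) C[X] φ' hu ?_ h')
        rw [Set.ncard_sdiff_singleton_of_mem hv, hz]
        rfl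
    | succ u ihu =>
      intro z
      induction z with
      | zero =>
        intro c c' hcard U Z C _ _ _ φ hu hz h
        have hZ : Z = ∅ := (Set.ncard_eq_zero (Set.toFinite Z)).1 hz
        subst hZ
        obtain ⟨v, hv⟩ := (Set.ncard_pos (Set.toFinite U)).1 (by omega)
        have hU' : (U \ {v}).ncard = u := by
          rw [Set.ncard_sdiff_singleton_of_mem hv, hu]
          rfl
        obtain ⟨A, _, _, _, α, hα⟩ := hEXU k (Fin (M + M)) (Fin M) (ferm N c c') (U \ {v}) ∅
        have hq : Algebra.FiniteType k (A ⧸ Ideal.span {α v}) :=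
          Algebra.FiniteType.of_surjective (Ideal.Quotient.mkₐ k (Ideal.span {α v}))
            (Ideal.Quotient.mkₐ_surjective k _)
        have hl : Algebra.FiniteType k (Localization.Away (α v)) := by
          have h1 : Algebra.FiniteType A (Localization.Away (α v)) := inferInstance
          exact Algebra.FiniteType.trans (S := A) inferInstance h1
        have h1 : Q A := ihu 0 c c' hcard (U \ {v}) ∅ A α hU' (Set.ncard_empty _) hα
        have h2 : Q (A ⧸ Ideal.span {α v}) := ihu _ c c' hcard (U \ {v}) _ _ _ hU' rfl
          (FMO.STRAux.quotient hα v)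
        have h3 := FMO.STRAux.strat (k := k) (α v)
        have h4 : Q (Localization.Away (α v)) :=
          hQ.clo.opn (α v) _ _ h3 h1 h2
        have h5 := FMO.STRAux.localization hα v
        rw [Set.insert_sdiff_singleton, Set.insert_eq_of_mem hv] at h5
        obtain ⟨e, -⟩ := (hUNQ k).1 _ _ _ _ _ _ _ _ _ h5 h
        exact hQ.clo.iso e h4
      | succ z ihz =>
        intro c c' hcard U Z C _ _ _ φ hu hz h
        obtain ⟨v, hv⟩ := (Set.ncard_pos (Set.toFinite Z)).1 (by omega)
        by_cases hvU : v ∈ U
        · have h1 : IsUnit (0 : C) := by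
            rw [← h.zero v hv]
            exact h.unit v hvU
          have h2 : Subsingleton C := subsingleton_of_zero_eq_one (isUnit_zero_iff.1 h1)
          exact hQ.clo.triv C h2
        · obtain ⟨φ', h'⟩ := univ_poly hN v c c' U Z C φ hv hvU h
          refine hQ.unline C
            (ihz _ _ (card_le v c c' hcard) U (Z \ {v}) C[X] φ' hu ?_ h')
          rw [Set.ncard_sdiff_singleton_of_mem hv, hz]
          rfl
  intro c c' hcard U Z C _ _ _ φ h
  exact key _ _ c c' hcard U Z C φ rfl rfl h

end Pool.Agent.FMS
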