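import Pool.Agent.FMS.St4
import Pool.Agent.FMQ.FR2

/-!
# FMS: module FA2, the universal algebra for a group with the relations of Fermat curves,
for a property of algebras (helper11)
-/

set_option autoImplicit false

open CategoryTheory AlgebraicGeometry Polynomial Multiplicative

namespace Pool.Agent.FMS

open FMO (Univ Laur)
open FMQ (ferm GU)

open FMQ.FR2Aux in
theorem t_FA2 : M_FA2 := by
  intro hEXU hLAU hFA1 k _ Q hQ N m hN hF M₃ M₂ q hM c c' d C _ _ _ χ hC
  have hcl := hQ.clo
  obtain ⟨A, _, _, _, φ, hA⟩ := hEXU k (Fin (M₃ + M₂ + (M₃ + M₂))) (Fin (M₃ + M₂))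
    (ferm N (Fin.append c d) (Fin.append c' fun _ => 0)) Set.univ ∅
  have hPA : Q A := by
    refine hFA1 k Q hQ N m hN hF (M₃ + M₂) _ _ ?_ _ _ A φ hA
    refine le_trans ?_ hM
    have h1 : ∀ j : {j // Fin.append c d j * Fin.append c' (fun _ => 0) j ≠ 0},
        (j.1 : ℕ) < M₃ := by
      rintro ⟨j, hj⟩
      by_contra hlt
      apply hj
      have hlt' : M₃ ≤ (j : ℕ) := Nat.le_of_not_lt hlt
      have hj2 : (j : ℕ) < M₃ + M₂ := j.2
      obtain ⟨i, rfl⟩ : ∃ i : Fin M₂, j = Fin.natAdd M₃ i :=
        ⟨⟨(j : ℕ) - M₃, by omega⟩, Fin.ext (by rw [Fin.val_natAdd]; exact (Nat.add_sub_cancel' hlt').symm)⟩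
      rw [Fin.append_right c' (fun _ => (0 : k)), mul_zero]
    calc Nat.card {j // Fin.append c d j * Fin.append c' (fun _ => 0) j ≠ 0}
        ≤ Nat.card (Fin M₃) := Nat.card_le_card_of_injective
          (fun j => (⟨j.1, h1 j⟩ : Fin M₃)) fun a b hab => by
            have h2 := congrArg Fin.val hab
            exact Subtype.ext (Fin.ext h2)
      _ = M₃ := Nat.card_fin M₃
  have hPL : Q (Laur q A) := hLAU k Q hcl A q hPA
  have u1 := (of_univ N _ _ hA).laur (fun E F _ _ _ _ f ψ h j => by
    have h1 := congrArg f (h j)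
    rw [map_add, map_add, map_one, map_smul, map_smul, map_pow, map_pow, map_zero] at h1
    exact h1) q
  have u2 := (of_gu N c c' d hC).laur (fun E F _ _ _ _ f ψ h => by
    refine ⟨fun j => ?_, fun j => ?_⟩
    · have h1 := congrArg f (h.1 j)
      rw [map_add, map_add, map_one, map_smul, map_smul, map_pow, map_pow, map_zero] at h1
      exact h1
    · have h1 := congrArg f (h.2 j)
      rw [map_add, map_one, map_smul, map_pow, map_zero] at h1
      exact h1) M₂
  obtain ⟨e⟩ := u2.iso u1 (vars M₃ M₂ q) (by
    intro E _ _ ψ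
    constructor
    · intro h
      refine ⟨fun j => ?_, fun j => ?_⟩
      · have h1 := h (Fin.castAdd M₂ j)
        rw [Fin.append_left, Fin.append_left] at h1
        exact h1
      · have h1 := h (Fin.natAdd M₃ j)
        rw [Fin.append_right, Fin.append_right, zero_smul, add_zero] at h1
        exact h1
    · intro h j
      refine Fin.addCases (fun j => ?_) (fun j => ?_) j
      · rw [Fin.append_left, Fin.append_left]
        exact h.1 j
      · rw [Fin.append_right, Fin.append_right, zero_smul, add_zero]
        exact h.2 j)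
  have hPC : Q (Laur M₂ C) := hcl.iso e.symm hPL
  have down : ∀ r : ℕ, Q (Laur r C) → Q C := by
    intro r
    induction r with
    | zero =>
      intro h
      obtain ⟨e⟩ := FMO.LAUAux.zero k C
      exact hcl.iso e.symm h
    | succ r ih =>
      intro h
      refine ih ?_
      obtain ⟨e⟩ := FMO.LAUAux.succ k C r
      have h1 : Q (Localization.Away (X : (Laur r C)[X])) := hcl.iso e.symm h
      let u : (Laur r C)[X] →ₐ[k] Localization.Away (X : (Laur r C)[X]) :=
        IsScalarTower.toAlgHom k _ _
      refine hQ.gm (Laur r C) (Localization.Away (X : (Laur r C)[X])) u ?_ h1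
      have h2 : u.toRingHom.toAlgebra =
          (inferInstance : Algebra (Laur r C)[X] (Localization.Away (X : (Laur r C)[X]))) := by
        apply Algebra.algebra_ext
        intro _
        rfl
      rw [h2]
      infer_instance
  exact down M₂ hPC

end Pool.Agent.FMS
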