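import Pool.Agent.FMS.St

/-!
# Project FMS, module FER: affine Fermat curves of degree `N ∣ q + 1`
-/

set_option autoImplicit false

open Polynomial

namespace Pool.Agent.FMS

namespace FERAux

theorem lift_ok {R S : Type} [CommRing R] [CommRing S] (f : R →+* S) (P : R) (h : f P = 0) :
    ∀ a ∈ Ideal.span {P}, f a = 0 := by
  intro a ha
  obtain ⟨b, hb⟩ := Ideal.mem_span_singleton'.1 ha
  rw [← hb, map_mul, h, mul_zero]

/-! ### One variable does not occur -/

section One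

variable {K : Type} [Field K] {D : Type} [CommRing D] [Algebra K D]

/-- the polynomial of one variable -/
noncomputable def pl (N : ℕ) (c : D) (i : Fin 2) : MvPolynomial (Fin 2) D :=
  1 + MvPolynomial.C c * MvPolynomial.X i ^ N

/-- the ring of the hypersurface is a polynomial ring over `D[x] / (g)` -/
theorem oneEquiv (N : ℕ) (c c₁ : D) (hc : c₁ * c = 1) (g : D[X])
    (hg : C c * g = 1 + C c * X ^ N) (i j : Fin 2) (hij : i ≠ j) (hl : ∀ l : Fin 2, l = i ∨ l = j) :
    Nonempty ((AdjoinRoot g)[X] ≃ₐ[D] (MvPolynomial (Fin 2) D ⧸ Ideal.span {pl N c i})) := by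
  have hroot : eval₂ (algebraMap D (MvPolynomial (Fin 2) D ⧸ Ideal.span {pl N c i}))
      (Ideal.Quotient.mk _ (MvPolynomial.X i)) g = 0 := by
    have h1 := congrArg (eval₂ (algebraMap D (MvPolynomial (Fin 2) D ⧸ Ideal.span {pl N c i}))
      (Ideal.Quotient.mk _ (MvPolynomial.X i))) hg
    rw [eval₂_mul, eval₂_C, eval₂_add, eval₂_one, eval₂_mul, eval₂_C, eval₂_X_pow] at h1
    have h2 : (1 : MvPolynomial (Fin 2) D ⧸ Ideal.span {pl N c i}) +
        algebraMap D (MvPolynomial (Fin 2) D ⧸ Ideal.span {pl N c i}) c *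
          (Ideal.Quotient.mk _ (MvPolynomial.X i)) ^ N = 0 := by
      have h3 : Ideal.Quotient.mk (Ideal.span {pl N c i}) (pl N c i) = 0 :=
        Ideal.Quotient.eq_zero_iff_mem.2 (Ideal.mem_span_singleton_self _)
      rw [← h3]
      unfold pl
      rw [map_add, map_one, map_mul, map_pow]
      rfl
    rw [h2] at h1
    have h4 : algebraMap D (MvPolynomial (Fin 2) D ⧸ Ideal.span {pl N c i}) c₁ *
        algebraMap D (MvPolynomial (Fin 2) D ⧸ Ideal.span {pl N c i}) c = 1 := by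
      rw [← map_mul, hc, map_one]
    calc _ = algebraMap D (MvPolynomial (Fin 2) D ⧸ Ideal.span {pl N c i}) c₁ *
        algebraMap D (MvPolynomial (Fin 2) D ⧸ Ideal.span {pl N c i}) c *
          eval₂ (algebraMap D (MvPolynomial (Fin 2) D ⧸ Ideal.span {pl N c i}))
            (Ideal.Quotient.mk _ (MvPolynomial.X i)) g := by rw [h4, one_mul]
      _ = 0 := by rw [mul_assoc, h1, mul_zero]
  obtain ⟨F, hF⟩ : ∃ F : MvPolynomial (Fin 2) D →ₐ[D] (AdjoinRoot g)[X],
      F = MvPolynomial.aeval (fun l => if l = i then C (AdjoinRoot.root g) else X) := ⟨_, rfl⟩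
  have hFi : F (MvPolynomial.X i) = C (AdjoinRoot.root g) := by
    rw [hF, MvPolynomial.aeval_X, if_pos rfl]
  have hFj : F (MvPolynomial.X j) = X := by
    rw [hF, MvPolynomial.aeval_X, if_neg hij.symm]
  have hFP : F (pl N c i) = 0 := by
    unfold pl
    rw [map_add, map_one, map_mul, map_pow, hFi, ← C_pow]
    have h1 := congrArg (AdjoinRoot.mk g) hg
    rw [map_mul, AdjoinRoot.mk_self, mul_zero, map_add, map_one, map_mul, map_pow,
      AdjoinRoot.mk_X, AdjoinRoot.mk_C] at h1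
    have h2 : F (MvPolynomial.C c) = C (AdjoinRoot.of g c) := by
      rw [← MvPolynomial.algebraMap_eq, AlgHom.commutes]
      rfl
    rw [h2, ← C_mul, ← C_1, ← C_add, ← h1, C_0]
  obtain ⟨B, hB⟩ : ∃ B : (AdjoinRoot g)[X] →ₐ[D] (MvPolynomial (Fin 2) D ⧸
      Ideal.span {pl N c i}), B = Polynomial.eval₂AlgHom
        (AdjoinRoot.liftAlgHom g (Algebra.ofId D _) (Ideal.Quotient.mk _ (MvPolynomial.X i)) hroot)
        (Ideal.Quotient.mk _ (MvPolynomial.X j)) (fun _ => Commute.all _ _) := ⟨_, rfl⟩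
  have hBi : B (C (AdjoinRoot.root g)) = Ideal.Quotient.mk _ (MvPolynomial.X i) := by
    rw [hB]
    simp
  have hBj : B X = Ideal.Quotient.mk _ (MvPolynomial.X j) := by
    rw [hB]
    simp
  obtain ⟨F', hF'⟩ : ∃ F' : (MvPolynomial (Fin 2) D ⧸ Ideal.span {pl N c i}) →ₐ[D]
      (AdjoinRoot g)[X], ∀ x, F' (Ideal.Quotient.mk _ x) = F x :=
    ⟨Ideal.Quotient.liftₐ _ F (lift_ok F.toRingHom _ hFP), fun x => rfl⟩
  refine ⟨AlgEquiv.ofAlgHom B F' ?_ ?_⟩
  · refine Ideal.Quotient.algHom_ext D (MvPolynomial.algHom_ext fun l => ?_)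
    show B (F' (Ideal.Quotient.mk _ (MvPolynomial.X l))) = Ideal.Quotient.mk _ (MvPolynomial.X l)
    rw [hF']
    rcases hl l with rfl | rfl
    · rw [hFi, hBi]
    · rw [hFj, hBj]
  · refine Polynomial.algHom_ext' (AdjoinRoot.algHom_ext ?_) ?_
    · show F' (B (C (AdjoinRoot.root g))) = C (AdjoinRoot.root g)
      rw [hBi, hF', hFi]
    · show F' (B X) = X
      rw [hBj, hF', hFj]

end One

/-! ### Adjoining a root is a finite free extension -/

theorem free_root {K : Type} [Field K] {Q : Prp K} (hQ : FMO.Clo K Q) (hF : FreeA Q) (A : Type)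
    [CommRing A] [Algebra K A] [Algebra.FiniteType K A] (e : ℕ) (he : e ≠ 0) (a : A)
    (h : Q (AdjoinRoot (X ^ e - C a))) : Q A := by
  rcases subsingleton_or_nontrivial A with hA | hA
  · exact hQ.triv A hA
  have hm : (X ^ e - C a : A[X]).Monic := monic_X_pow_sub_C a he
  have : Module.Free A (AdjoinRoot (X ^ e - C a)) := hm.free_adjoinRoot
  have : Module.Finite A (AdjoinRoot (X ^ e - C a)) := hm.finite_adjoinRoot
  have hr : 0 < Module.finrank A (AdjoinRoot (X ^ e - C a)) := by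
    rw [(AdjoinRoot.powerBasis' hm).finrank]
    show 0 < (X ^ e - C a : A[X]).natDegree
    rw [natDegree_X_pow_sub_C]
    omega
  exact hF A (AdjoinRoot (X ^ e - C a)) hr h

/-! ### Both variables occur -/

section Two

variable {D : Type} [CommRing D]

/-- the equation of the Fermat curve -/
noncomputable def pt (N : ℕ) (c c' : D) : MvPolynomial (Fin 2) D :=
  1 + MvPolynomial.C c * MvPolynomial.X 0 ^ N + MvPolynomial.C c' * MvPolynomial.X 1 ^ N

/-- its algebra -/
abbrev Al (N : ℕ) (c c' : D) : Type := MvPolynomial (Fin 2) D ⧸ Ideal.span {pt N c c'}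

/-- the coordinates -/
noncomputable def co (N : ℕ) (c c' : D) (i : Fin 2) : Al N c c' :=
  Ideal.Quotient.mk _ (MvPolynomial.X i)

theorem rel (N : ℕ) (c c' : D) : 1 + algebraMap D (Al N c c') c * co N c c' 0 ^ N +
    algebraMap D (Al N c c') c' * co N c c' 1 ^ N = 0 := by
  have h3 : Ideal.Quotient.mk (Ideal.span {pt N c c'}) (pt N c c') = 0 :=
    Ideal.Quotient.eq_zero_iff_mem.2 (Ideal.mem_span_singleton_self _)
  rw [← h3]
  unfold pt
  rw [map_add, map_add, map_one, map_mul, map_pow, map_mul, map_pow]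
  rfl

/-- homomorphisms on the algebra -/
theorem hom_ex (N : ℕ) (c c' : D) {S : Type} [CommRing S] [Algebra D S] (x y : S)
    (h : 1 + algebraMap D S c * x ^ N + algebraMap D S c' * y ^ N = 0) :
    ∃ F : Al N c c' →ₐ[D] S, F (co N c c' 0) = x ∧ F (co N c c' 1) = y := by
  obtain ⟨F, hF⟩ : ∃ F : MvPolynomial (Fin 2) D →ₐ[D] S,
      F = MvPolynomial.aeval (fun l => if l = 0 then x else y) := ⟨_, rfl⟩
  have h0 : F (MvPolynomial.X 0) = x := by
    rw [hF, MvPolynomial.aeval_X, if_pos rfl]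
  have h1 : F (MvPolynomial.X 1) = y := by
    rw [hF, MvPolynomial.aeval_X, if_neg (by decide)]
  have hC : ∀ d : D, F (MvPolynomial.C d) = algebraMap D S d := fun d => by
    rw [← MvPolynomial.algebraMap_eq, AlgHom.commutes]
  have hP : F (pt N c c') = 0 := by
    unfold pt
    rw [map_add, map_add, map_one, map_mul, map_pow, map_mul, map_pow, hC, hC, h0, h1, h]
  exact ⟨Ideal.Quotient.liftₐ _ F (lift_ok F.toRingHom _ hP), h0, h1⟩

theorem hom_ext (N : ℕ) (c c' : D) {S : Type} [CommRing S] [Algebra D S]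
    (F F' : Al N c c' →ₐ[D] S) (h0 : F (co N c c' 0) = F' (co N c c' 0))
    (h1 : F (co N c c' 1) = F' (co N c c' 1)) : F = F' := by
  refine Ideal.Quotient.algHom_ext D (MvPolynomial.algHom_ext fun l => ?_)
  have hl : l = 0 ∨ l = 1 := by
    fin_cases l
    · exact Or.inl rfl
    · exact Or.inr rfl
  rcases hl with rfl | rfl
  · exact h0
  · exact h1

/-- the tower of two roots is the Fermat curve of degree `e N` -/
theorem twoEquiv (N e : ℕ) (c c' b b' d d' : D) (hb : c * b ^ N = 1) (hb' : c' * b' ^ N = 1)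
    (hd : d * b = 1) (hd' : d' * b' = 1) :
    Nonempty (AdjoinRoot (X ^ e - C (AdjoinRoot.of (X ^ e - C (algebraMap D (Al N c c') d *
      co N c c' 0)) (algebraMap D (Al N c c') d' * co N c c' 1))) ≃ₐ[D]
        Al (e * N) (1 : D) (1 : D)) := by
  obtain ⟨x, hx⟩ : ∃ x, x = co N c c' 0 := ⟨_, rfl⟩
  obtain ⟨y, hy⟩ : ∃ y, y = co N c c' 1 := ⟨_, rfl⟩
  rw [← hx, ← hy]
  obtain ⟨f, hf⟩ : ∃ f : (Al N c c')[X], f = X ^ e - C (algebraMap D (Al N c c') d * x) :=
    ⟨_, rfl⟩
  rw [← hf]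
  obtain ⟨g, hg⟩ : ∃ g : (AdjoinRoot f)[X],
      g = X ^ e - C (AdjoinRoot.of f (algebraMap D (Al N c c') d' * y)) := ⟨_, rfl⟩
  rw [← hg]
  obtain ⟨X0, hX0⟩ : ∃ z, z = co (e * N) (1 : D) (1 : D) 0 := ⟨_, rfl⟩
  obtain ⟨X1, hX1⟩ : ∃ z, z = co (e * N) (1 : D) (1 : D) 1 := ⟨_, rfl⟩
  have hrel := rel (e * N) (1 : D) (1 : D)
  rw [← hX0, ← hX1, map_one, one_mul, one_mul] at hrel
  -- from the tower
  obtain ⟨F, hF0, hF1⟩ := hom_ex N c c' (algebraMap D (Al (e * N) (1 : D) (1 : D)) b * X0 ^ e)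
    (algebraMap D (Al (e * N) (1 : D) (1 : D)) b' * X1 ^ e) (by
      rw [← hrel, mul_pow, mul_pow, ← mul_assoc, ← mul_assoc, ← map_pow, ← map_pow, ← map_mul,
        ← map_mul, hb, hb', map_one, one_mul, one_mul, ← pow_mul, ← pow_mul])
  rw [← hx] at hF0
  rw [← hy] at hF1
  have hf0 : eval₂ (F : Al N c c' →+* _) X0 f = 0 := by
    rw [hf, eval₂_sub, eval₂_X_pow, eval₂_C]
    show X0 ^ e - F (algebraMap D (Al N c c') d * x) = 0
    rw [map_mul, AlgHom.commutes, hF0, ← mul_assoc, ← map_mul, hd, map_one, one_mul, sub_self]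
  obtain ⟨F1, hF1a, hF1b⟩ : ∃ F1 : AdjoinRoot f →ₐ[D] Al (e * N) (1 : D) (1 : D),
      (∀ z, F1 (AdjoinRoot.of f z) = F z) ∧ F1 (AdjoinRoot.root f) = X0 :=
    ⟨AdjoinRoot.liftAlgHom f F X0 hf0, fun z => AdjoinRoot.liftAlgHom_of _ _ _ _ _,
      AdjoinRoot.liftAlgHom_root _ _ _ _⟩
  have hg0 : eval₂ (F1 : AdjoinRoot f →+* _) X1 g = 0 := by
    rw [hg, eval₂_sub, eval₂_X_pow, eval₂_C]
    show X1 ^ e - F1 (AdjoinRoot.of f (algebraMap D (Al N c c') d' * y)) = 0
    rw [hF1a, map_mul, AlgHom.commutes, hF1, ← mul_assoc, ← map_mul, hd', map_one, one_mul,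
      sub_self]
  obtain ⟨F2, hF2a, hF2b⟩ : ∃ F2 : AdjoinRoot g →ₐ[D] Al (e * N) (1 : D) (1 : D),
      (∀ z, F2 (AdjoinRoot.of g z) = F1 z) ∧ F2 (AdjoinRoot.root g) = X1 :=
    ⟨AdjoinRoot.liftAlgHom g F1 X1 hg0, fun z => AdjoinRoot.liftAlgHom_of _ _ _ _ _,
      AdjoinRoot.liftAlgHom_root _ _ _ _⟩
  -- to the tower
  obtain ⟨u, hu⟩ : ∃ u : AdjoinRoot g, u = AdjoinRoot.of g (AdjoinRoot.root f) := ⟨_, rfl⟩
  obtain ⟨w, hw⟩ : ∃ w : AdjoinRoot g, w = AdjoinRoot.root g := ⟨_, rfl⟩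
  have hroot : AdjoinRoot.root f ^ e = AdjoinRoot.of f (algebraMap D (Al N c c') d * x) := by
    have h1 := AdjoinRoot.eval₂_root f
    rw [show eval₂ (AdjoinRoot.of f) (AdjoinRoot.root f) f =
      eval₂ (AdjoinRoot.of f) (AdjoinRoot.root f) (X ^ e - C (algebraMap D (Al N c c') d * x)) from
        congrArg _ hf, eval₂_sub, eval₂_X_pow, eval₂_C, sub_eq_zero] at h1
    exact h1
  have hwe : w ^ e = AdjoinRoot.of g (AdjoinRoot.of f (algebraMap D (Al N c c') d' * y)) := by
    have h1 := AdjoinRoot.eval₂_root g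
    rw [show eval₂ (AdjoinRoot.of g) (AdjoinRoot.root g) g =
      eval₂ (AdjoinRoot.of g) (AdjoinRoot.root g) (X ^ e - C (AdjoinRoot.of f
        (algebraMap D (Al N c c') d' * y))) from
        congrArg _ hg, eval₂_sub, eval₂_X_pow, eval₂_C, sub_eq_zero] at h1
    rw [hw]
    exact h1
  have hue : u ^ e = AdjoinRoot.of g (AdjoinRoot.of f (algebraMap D (Al N c c') d * x)) := by
    rw [hu, ← map_pow, hroot]
  have hD : ∀ z : D, AdjoinRoot.of g (AdjoinRoot.of f (algebraMap D (Al N c c') z)) =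
      algebraMap D (AdjoinRoot g) z := fun z => rfl
  have hdN : d ^ N = c := by
    calc d ^ N = (c * b ^ N) * d ^ N := by rw [hb, one_mul]
      _ = c * (d * b) ^ N := by ring
      _ = c := by rw [hd, one_pow, mul_one]
  have hdN' : d' ^ N = c' := by
    calc d' ^ N = (c' * b' ^ N) * d' ^ N := by rw [hb', one_mul]
      _ = c' * (d' * b') ^ N := by ring
      _ = c' := by rw [hd', one_pow, mul_one]
  obtain ⟨B, hB0, hB1⟩ := hom_ex (e * N) (1 : D) (1 : D) u w (by
    rw [map_one, one_mul, one_mul, pow_mul, pow_mul, hue, hwe, ← map_pow, ← map_pow, ← map_pow,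
      ← map_pow, mul_pow, mul_pow, ← map_pow, ← map_pow, hdN, hdN']
    have h1 := congrArg (fun z => AdjoinRoot.of g (AdjoinRoot.of f z)) (rel N c c')
    simp only [map_add, map_one, map_mul, map_zero] at h1 ⊢
    rw [← hx, ← hy] at h1
    exact h1)
  rw [← hX0] at hB0
  rw [← hX1] at hB1
  refine ⟨AlgEquiv.ofAlgHom F2 B ?_ ?_⟩
  · refine hom_ext _ _ _ _ _ ?_ ?_
    · show F2 (B (co (e * N) (1 : D) (1 : D) 0)) = co (e * N) (1 : D) (1 : D) 0
      rw [← hX0, hB0, hu, hF2a, hF1b]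
    · show F2 (B (co (e * N) (1 : D) (1 : D) 1)) = co (e * N) (1 : D) (1 : D) 1
      rw [← hX1, hB1, hw, hF2b]
  · refine AdjoinRoot.algHom_ext' (AdjoinRoot.algHom_ext' (hom_ext _ _ _ _ _ ?_ ?_) ?_) ?_
    · show B (F2 (AdjoinRoot.of g (AdjoinRoot.of f (co N c c' 0)))) =
        AdjoinRoot.of g (AdjoinRoot.of f (co N c c' 0))
      rw [← hx, hF2a, hF1a, hF0, map_mul, AlgHom.commutes, map_pow, hB0, hue, map_mul, map_mul,
        hD, ← mul_assoc, ← map_mul, mul_comm b d, hd, map_one, one_mul]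
    · show B (F2 (AdjoinRoot.of g (AdjoinRoot.of f (co N c c' 1)))) =
        AdjoinRoot.of g (AdjoinRoot.of f (co N c c' 1))
      rw [← hy, hF2a, hF1a, hF1, map_mul, AlgHom.commutes, map_pow, hB1, hwe, map_mul, map_mul,
        hD, ← mul_assoc, ← map_mul, mul_comm b' d', hd', map_one, one_mul]
    · show B (F2 (AdjoinRoot.of g (AdjoinRoot.root f))) = AdjoinRoot.of g (AdjoinRoot.root f)
      rw [hF2a, hF1b, hB0, hu]
    · show B (F2 (AdjoinRoot.root g)) = AdjoinRoot.root g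
      rw [hF2b, hB1, hw]

end Two

/-! ### The equations over `K` -/

section Fin

variable {K : Type} [Field K]

theorem gen_eq {D : Type} [CommRing D] [Algebra K D] (N : ℕ) (c c' : K) :
    (1 + c • MvPolynomial.X 0 ^ N + c' • MvPolynomial.X 1 ^ N : MvPolynomial (Fin 2) D) =
      pt N (algebraMap K D c) (algebraMap K D c') := by
  unfold pt
  rw [Algebra.smul_def, Algebra.smul_def]
  rfl

/-- the linear factors -/
theorem factors {N : ℕ} {c b ζ : K} (hN : N ≠ 0) (hb : c * b ^ N = 1) (hζ : ζ ^ N = -1)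
    (hroots : ∀ b : K, b ≠ 0 → ∃ s : List K, (X ^ N - C (b ^ N) : K[X]) =
      (s.map fun a => X - C a).prod) (D : Type) [CommRing D] [Algebra K D] :
    ∃ s : List K, (C (algebraMap K D c) * (s.map fun a => (X - C (algebraMap K D a) : D[X])).prod :
      D[X]) = 1 + C (algebraMap K D c) * X ^ N := by
  have hb0 : b ≠ 0 := by
    rintro rfl
    rw [zero_pow hN, mul_zero] at hb
    exact zero_ne_one hb
  have hζ0 : ζ ≠ 0 := by
    rintro rfl
    rw [zero_pow hN] at hζ
    exact one_ne_zero (neg_eq_zero.1 hζ.symm)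
  obtain ⟨s, hs⟩ := hroots (b * ζ) (mul_ne_zero hb0 hζ0)
  refine ⟨s, ?_⟩
  have h1 : (s.map fun a => (X - C (algebraMap K D a) : D[X])).prod =
      ((s.map fun a => X - C a).prod : K[X]).map (algebraMap K D) := by
    rw [Polynomial.map_list_prod, List.map_map]
    congr 1
    refine List.map_congr_left fun a _ => ?_
    show _ = (X - C a : K[X]).map (algebraMap K D)
    rw [Polynomial.map_sub, map_X, map_C]
  rw [h1, ← hs, Polynomial.map_sub, Polynomial.map_pow, map_X, map_C, mul_pow, hζ, mul_neg_one,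
    map_neg, C_neg, sub_neg_eq_add, mul_add, ← C_mul, ← map_mul, hb, map_one, C_1, add_comm]

end Fin

end FERAux

open FERAux

theorem t_FER : M_FER := by
  intro hFQ hSPL p q K _ hDat Q hQ hF hH N hN c c' hc hc' D _ _ _ hD
  obtain ⟨-, -, hnorm, -, -, hroots⟩ := hFQ p q K hDat
  obtain ⟨e, he⟩ := hN
  have hN0 : N ≠ 0 := by
    rintro rfl
    omega
  have he0 : e ≠ 0 := by
    rintro rfl
    omega
  -- a root of minus one
  have hm1 : (-1 : K) ^ q = -1 := by
    obtain ⟨ν, -, hν⟩ := hDat.pow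
    have := hDat.char
    have : Fact p.Prime := ⟨hDat.pr⟩
    rw [hν]
    exact neg_one_pow_char_pow (R := K) (p := p) (n := ν)
  obtain ⟨ζ, hζ⟩ := hnorm (-1) hm1
  have hζN : (ζ ^ e) ^ N = -1 := by
    rw [← pow_mul, mul_comm, ← he, hζ]
  have hfac : ∀ {c b : K}, c * b ^ N = 1 → ∃ s : List K, (C (algebraMap K D c) *
      (s.map fun a => (X - C (algebraMap K D a) : D[X])).prod : D[X]) =
        1 + C (algebraMap K D c) * X ^ N := fun {c b} hb =>
    factors hN0 hb hζN (fun b hb => hroots N b ⟨e, he⟩ hb) D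
  have hinv : ∀ {c b : K}, c * b ^ N = 1 → algebraMap K D (b ^ N) * algebraMap K D c = 1 :=
    fun {c b} hb => by rw [← map_mul, mul_comm, hb, map_one]
  have hone : ∀ {c b : K}, c * b ^ N = 1 → ∀ i j : Fin 2, i ≠ j → (∀ l : Fin 2, l = i ∨ l = j) →
      Q (MvPolynomial (Fin 2) D ⧸ Ideal.span {pl N (algebraMap K D c) i}) := by
    intro c b hb i j hij hl
    obtain ⟨s, hs⟩ := hfac hb
    obtain ⟨E⟩ := oneEquiv N (algebraMap K D c) _ (hinv hb) _ hs i j hij hl
    exact hQ.iso (E.restrictScalars K) (hQ.line _ (hSPL K Q hQ D hD s))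
  have hFD : ∀ P : MvPolynomial (Fin 2) D, P = pt N (algebraMap K D c) (algebraMap K D c') →
      Q (MvPolynomial (Fin 2) D ⧸ Ideal.span {P}) → Q (FD K N c c' D) := by
    intro P hP h
    refine hQ.iso (Ideal.quotientEquivAlgOfEq K ?_) h
    rw [hP, gen_eq]
  rcases hc with rfl | ⟨b, hb⟩
  · rcases hc' with rfl | ⟨b', hb'⟩
    · refine hQ.triv _ ?_
      rw [Ideal.Quotient.subsingleton_iff, gen_eq, Ideal.span_singleton_eq_top]
      unfold pt
      rw [map_zero, MvPolynomial.C_0, zero_mul, zero_mul, add_zero, add_zero]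
      exact isUnit_one
    · refine hFD (pl N (algebraMap K D c') 1) ?_ (hone hb' 1 0 (by decide) (by decide))
      unfold pt pl
      rw [map_zero, MvPolynomial.C_0, zero_mul, add_zero]
  · rcases hc' with rfl | ⟨b', hb'⟩
    · refine hFD (pl N (algebraMap K D c) 0) ?_ (hone hb 0 1 (by decide) (by decide))
      unfold pt pl
      rw [map_zero, MvPolynomial.C_0, zero_mul, add_zero]
    · have hb0 : b ≠ 0 := by
        rintro rfl
        rw [zero_pow hN0, mul_zero] at hb
        exact zero_ne_one hb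
      have hb0' : b' ≠ 0 := by
        rintro rfl
        rw [zero_pow hN0, mul_zero] at hb'
        exact zero_ne_one hb'
      refine hFD _ rfl ?_
      have hA : Q (Al (e * N) (1 : D) (1 : D)) := by
        have h1 := hH D hD
        refine hQ.iso (Ideal.quotientEquivAlgOfEq K ?_) h1
        rw [gen_eq, map_one, he, mul_comm N e]
      obtain ⟨E⟩ := twoEquiv N e (algebraMap K D c) (algebraMap K D c') (algebraMap K D b)
        (algebraMap K D b') (algebraMap K D b⁻¹) (algebraMap K D b'⁻¹)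
        (by rw [← map_pow, ← map_mul, hb, map_one]) (by rw [← map_pow, ← map_mul, hb', map_one])
        (by rw [← map_mul, inv_mul_cancel₀ hb0, map_one])
        (by rw [← map_mul, inv_mul_cancel₀ hb0', map_one])
      have hT := hQ.iso (E.restrictScalars K).symm hA
      exact free_root hQ hF _ e he0 _ (free_root hQ hF _ e he0 _ hT)

end Pool.Agent.FMS
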