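import Pool.Agent.FMS.St6
import Pool.Agent.FMO.FLF

/-!
# FMS, module FLB: the compositum, with a base field
-/

set_option autoImplicit false

open Polynomial Multiplicative

namespace Pool.Agent.FMS

namespace FLBAux

open scoped IntermediateField.algebraAdjoinAdjoin
open FMO.FLFAux

section
variable (k : Type) [Field k] {L : Type} [Field L] [Algebra k L]

/-- the algebraic closure of `k(S)` in `L` -/
noncomputable def KS (S : Set L) : IntermediateField k L :=
  (algebraicClosure (IntermediateField.adjoin k S) L).restrictScalars k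

variable {k} in
lemma mem_KS {S : Set L} {y : L} : y ∈ KS k S ↔ IsAlgebraic (IntermediateField.adjoin k S) y :=
  mem_algebraicClosure_iff

lemma trdeg_KS (S : Set L) :
    Algebra.trdeg k (KS k S) = Algebra.trdeg k (IntermediateField.adjoin k S) := by
  show Algebra.trdeg k (algebraicClosure (IntermediateField.adjoin k S) L) = _
  have h := trdeg_add_eq k (IntermediateField.adjoin k S)
    (A := algebraicClosure (IntermediateField.adjoin k S) L)
  have h0 : Algebra.trdeg (IntermediateField.adjoin k S)
      (algebraicClosure (IntermediateField.adjoin k S) L) = 0 := trdeg_eq_zero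
  rw [h0, add_zero] at h
  exact h.symm

variable {k}

lemma self_mem_KS {S : Set L} {x : L} (hx : x ∈ S) : x ∈ KS k S := by
  rw [mem_KS]
  exact isAlgebraic_algebraMap
    (⟨x, IntermediateField.subset_adjoin k S hx⟩ : IntermediateField.adjoin k S)

lemma of_pow_KS {S : Set L} {y : L} {N : ℕ} (hN : 0 < N) (h : y ^ N ∈ KS k S) : y ∈ KS k S := by
  rw [mem_KS] at h ⊢
  exact h.of_pow hN

lemma of_pow_ac {y : L} {N : ℕ} (hN : 0 < N) (h : y ^ N ∈ algebraicClosure k L) :
    y ∈ algebraicClosure k L := by
  rw [mem_algebraicClosure_iff] at h ⊢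
  exact h.of_pow hN

lemma KS_le_ac {S : Set L} (h : Algebra.trdeg k (KS k S) = 0) : KS k S ≤ algebraicClosure k L := by
  intro y hy
  have h1 : Algebra.IsAlgebraic k (KS k S) := trdeg_eq_zero_iff.1 h
  have h2 := h1.isAlgebraic (⟨y, hy⟩ : KS k S)
  rw [mem_algebraicClosure_iff]
  exact (isAlgebraic_algHom_iff (KS k S).val (KS k S).val.injective).2 h2

lemma trdeg_image {F : Type} [Field F] [Algebra k F] (e : F →ₐ[k] L) (S : Set F) :
    Algebra.trdeg k (IntermediateField.adjoin k (e '' S)) =
      Algebra.trdeg k (IntermediateField.adjoin k S) := by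
  rw [← IntermediateField.adjoin_map]
  exact ((IntermediateField.adjoin k S).equivMap e).symm.trdeg_eq

end

end FLBAux

open FLBAux FMO.FLFAux

theorem t_FLB : S_FLB := by
  intro k F _ _ _ m d hd G _ χ u v D B hgen hrel htr hD hN
  obtain ⟨ι, hι⟩ : ∃ ι : F →ₐ[k] AlgebraicClosure F,
      ι = IsScalarTower.toAlgHom k F (AlgebraicClosure F) := ⟨_, rfl⟩
  obtain ⟨S, hS⟩ : ∃ S : Set (AlgebraicClosure F), S = ι '' {x : F | ∃ g ∈ B, x = (χ g : F)} :=
    ⟨_, rfl⟩
  have htS : Algebra.trdeg k (KS k S) ≤ d := by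
    rw [trdeg_KS, hS, trdeg_image]
    exact htr
  obtain ⟨Ku, hKu⟩ : ∃ K : Fin m → IntermediateField k (AlgebraicClosure F),
      K = fun j => Kx k (ι (χ (u j) : F)) := ⟨_, rfl⟩
  obtain ⟨K, hK⟩ : ∃ K : Fin (m + 2) → IntermediateField k (AlgebraicClosure F),
      K = Fin.cons (algebraicClosure k (AlgebraicClosure F)) (Fin.cons (KS k S) Ku) := ⟨_, rfl⟩
  have K0 : K 0 = algebraicClosure k (AlgebraicClosure F) := by rw [hK]; rfl
  have K1 : K (Fin.succ 0) = KS k S := by rw [hK]; rfl
  have K2 : ∀ j, K (Fin.succ (Fin.succ j)) = Kx k (ι (χ (u j) : F)) := by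
    intro j
    rw [hK, Fin.cons_succ, Fin.cons_succ, hKu]
  have hroot : ∀ (i : Fin (m + 2)) (y : AlgebraicClosure F) (N : ℕ), 0 < N → y ^ N ∈ K i →
      y ∈ K i := by
    intro i y N hN0
    refine Fin.cases ?_ (fun i => Fin.cases ?_ (fun j => ?_) i) i
    · rw [K0]
      exact of_pow_ac hN0
    · rw [K1]
      exact of_pow_KS hN0
    · rw [K2]
      exact of_pow hN0
  obtain ⟨KK, hKK⟩ : ∃ KK : Fin (m + d) → IntermediateField k (AlgebraicClosure F),
      KK = Fin.append Ku fun _ => KS k S := ⟨_, rfl⟩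
  have hsup : ∀ i, K i ≤ algebraicClosure k (AlgebraicClosure F) ⊔ ⨆ j, KK j := by
    intro i
    refine Fin.cases ?_ (fun i => Fin.cases ?_ (fun j => ?_) i) i
    · rw [K0]
      exact le_sup_left
    · rw [K1]
      rcases Nat.eq_zero_or_pos d with h0 | h0
      · refine le_trans (KS_le_ac ?_) le_sup_left
        rw [h0, Nat.cast_zero] at htS
        exact le_antisymm htS zero_le
      · refine le_trans ?_ le_sup_right
        have h1 : KK (Fin.natAdd m ⟨0, h0⟩) = KS k S := by
          rw [hKK, Fin.append_right]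
        rw [← h1]
        exact le_iSup KK _
    · rw [K2]
      refine le_trans ?_ le_sup_right
      have h1 : KK (Fin.castAdd d j) = Kx k (ι (χ (u j) : F)) := by
        rw [hKK, Fin.append_left, hKu]
      rw [← h1]
      exact le_iSup KK _
  refine ⟨AlgebraicClosure F, inferInstance, inferInstance, ι,
    algebraicClosure k (AlgebraicClosure F), KK, inferInstance, fun j => ?_, ?_⟩
  · rw [hKK]
    refine Fin.addCases (fun j => ?_) (fun j => ?_) j
    · rw [Fin.append_left, hKu]
      exact trdeg_Kx k _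
    · rw [Fin.append_right]
      exact htS.trans (by exact_mod_cast hd)
  have hne : ∀ g : G, ι (χ g : F) ≠ 0 := fun g =>
    (map_ne_zero ι).2 (Units.ne_zero (χ g))
  have hu : ∀ j, ι (χ (u j) : F) ∈ K (Fin.succ (Fin.succ j)) := fun j => by
    rw [K2]
    exact self_mem _
  have hv : ∀ j, ι (χ (v j) : F) ∈ K (Fin.succ (Fin.succ j)) := by
    intro j
    obtain ⟨c, c', hc', h⟩ := hrel j
    have h1 : ι (χ (v j) : F) = c'⁻¹ • (-(1 + c • ι (χ (u j) : F))) := by
      have h2 := congrArg ι h
      rw [map_add, map_add, map_one, map_smul, map_smul, map_zero] at h2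
      have h3 : c' • ι (χ (v j) : F) = -(1 + c • ι (χ (u j) : F)) := by
        linear_combination h2
      rw [← h3, smul_smul, inv_mul_cancel₀ hc', one_smul]
    rw [h1]
    exact (K _).smul_mem (neg_mem (add_mem (one_mem _) ((K _).smul_mem (hu j))))
  -- the elements of the closure
  have hcl : ∀ h ∈ Subgroup.closure D, Prd K (ι (χ h : F)) := by
    intro h hh
    induction hh using Subgroup.closure_induction with
    | mem g hg =>
      rcases hD g hg with hB | ⟨c, hc⟩ | ⟨j, hj | hj⟩
      · refine Prd.single (Fin.succ 0) ?_ (hne g)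
        rw [K1]
        apply self_mem_KS
        rw [hS]
        exact ⟨_, ⟨g, hB, rfl⟩, rfl⟩
      · refine Prd.single 0 ?_ (hne g)
        rw [hc, ι.commutes]
        exact (K _).algebraMap_mem c
      · rw [hj]
        exact Prd.single _ (hu j) (hne _)
      · rw [hj]
        exact Prd.single _ (hv j) (hne _)
    | one =>
      rw [map_one, Units.val_one, map_one]
      exact Prd.one
    | mul a b _ _ ha hb =>
      rw [map_mul, Units.val_mul, map_mul]
      exact ha.mul hb
    | inv a _ ha =>
      rw [map_inv, Units.val_inv_eq_inv_val, map_inv₀]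
      exact ha.inv
  -- all values of the character
  have hall : ∀ g : G, ι (χ g : F) ∈ algebraicClosure k (AlgebraicClosure F) ⊔ ⨆ j, KK j := by
    intro g
    obtain ⟨N, hN0, hgN⟩ := hN g
    obtain ⟨w, hw, hp⟩ := hcl _ hgN
    have h1 : ∀ j, ∃ y : AlgebraicClosure F, y ^ N = w j := fun j =>
      IsAlgClosed.exists_pow_nat_eq (w j) hN0
    choose y hy using h1
    have hyK : ∀ j, y j ∈ K j := by
      intro j
      have h2 := (hw j).1
      rw [← hy j] at h2
      exact hroot j _ N hN0 h2
    have hy0 : ∏ j, y j ≠ 0 := by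
      rw [Finset.prod_ne_zero_iff]
      intro j _ h0
      apply (hw j).2
      rw [← hy j, h0, zero_pow hN0.ne']
    have h3 : (ι (χ g : F) / ∏ j, y j) ^ N = 1 := by
      rw [div_pow, ← Finset.prod_pow, Finset.prod_congr rfl fun j _ => hy j, ← hp, map_pow,
        Units.val_pow_eq_pow_val, map_pow, div_self (pow_ne_zero _ (hne g))]
    have h4 : ι (χ g : F) / ∏ j, y j ∈ K 0 := by
      have h5 : (ι (χ g : F) / ∏ j, y j) ^ N ∈ K 0 := by
        rw [h3]
        exact one_mem _
      exact hroot 0 _ N hN0 h5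
    have h6 : ι (χ g : F) = (ι (χ g : F) / ∏ j, y j) * ∏ j, y j := by
      rw [div_mul_cancel₀ _ hy0]
    rw [h6]
    exact mul_mem (hsup 0 h4) (prod_mem fun j _ => hsup j (hyK j))
  -- the field
  have hle : IntermediateField.adjoin k (Set.range fun g => (χ g : F)) ≤
      (algebraicClosure k (AlgebraicClosure F) ⊔ ⨆ j, KK j).comap ι := by
    rw [IntermediateField.adjoin_le_iff]
    rintro _ ⟨g, rfl⟩
    exact hall g
  rw [hgen] at hle
  intro x
  exact hle (IntermediateField.mem_top (x := x))

end Pool.Agent.FMS
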