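import Pool.Agent.FMS.St

/-!
# FMS, module FQ: elements of the field with `q ^ 2` elements
-/

set_option autoImplicit false

open Polynomial

namespace Pool.Agent.FMS

namespace FQAux

lemma cardA {K : Type} [Field K] (n : ℕ) [NeZero n] :
    Nat.card {a : K // a ^ (n + 1) = a} = Nat.card (rootsOfUnity n K) + 1 := by
  have h1 : {a : K | a ^ (n + 1) = a} = insert 0 {z : K | z ^ n = 1} := by
    ext a
    change a ^ (n + 1) = a ↔ a = 0 ∨ a ^ n = 1
    by_cases h : a = 0
    · subst h
      simp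
    · rw [pow_succ]
      constructor
      · intro e
        right
        exact mul_right_cancel₀ h (by rw [e, one_mul])
      · rintro (e | e)
        · exact absurd e h
        · rw [e, one_mul]
  have h2 : Nat.card {a : K // a ^ (n + 1) = a} = Set.ncard {a : K | a ^ (n + 1) = a} := rfl
  have hfin : {z : K | z ^ n = 1}.Finite := by
    rw [← Units.val_set_image_rootsOfUnity]
    have hf : Finite (rootsOfUnity n K) := inferInstance
    exact Set.Finite.image _ (Set.finite_coe_iff.1 hf)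
  rw [h2, h1, Set.ncard_insert_of_notMem _ hfin]
  · rw [← Units.val_set_image_rootsOfUnity, Set.ncard_image_of_injective _ Units.val_injective]
    rfl
  · change ¬ (0 : K) ^ n = 1
    rw [zero_pow (NeZero.ne n)]
    exact zero_ne_one

end FQAux

open FQAux in
theorem t_FQ : S_FQ := by
  intro p q K _ hD
  obtain ⟨ν, hν, hq⟩ := hD.pow
  have hq2 : 2 ≤ q := by
    rw [hq]
    calc 2 ≤ p := hD.pr.two_le
      _ = p ^ 1 := (pow_one p).symm
      _ ≤ p ^ ν := Nat.pow_le_pow_right hD.pr.pos hν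
  obtain ⟨r, rfl⟩ : ∃ r, q = r + 1 := ⟨q - 1, by omega⟩
  have hr : 1 ≤ r := by omega
  have hm : (r + 1) ^ 2 = r * (r + 2) + 1 := by ring
  have hm0 : r * (r + 2) ≠ 0 := by positivity
  have : NeZero (r * (r + 2)) := ⟨hm0⟩
  have : NeZero r := ⟨by omega⟩
  have hc := hD.card
  rw [hm, cardA] at hc
  obtain ⟨ζ, hζ⟩ := card_rootsOfUnity_eq_iff_exists_isPrimitiveRoot.1 (Nat.succ.inj hc)
  have hζr : IsPrimitiveRoot (ζ ^ (r + 2)) r := hζ.pow (Nat.pos_of_ne_zero hm0) (mul_comm _ _)
  refine ⟨?_, ?_, ?_, ?_, ?_, ?_⟩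
  · rw [cardA, hζr.card_rootsOfUnity]
  · rcases hD.pr.eq_two_or_odd' with h2 | h2
    · subst h2
      have := hD.char
      exact ⟨1, one_ne_zero, by rw [one_pow, CharTwo.neg_eq]⟩
    · have ho : Odd (r + 1) := by
        rw [hq]
        exact h2.pow
      obtain ⟨u, hu⟩ := ho
      have hru : r = 2 * u := by omega
      have hu1 : 0 < u := by omega
      have h3 : IsPrimitiveRoot (ζ ^ (u * (r + 2))) 2 := by
        refine hζ.pow (Nat.pos_of_ne_zero hm0) ?_
        rw [hru]
        ring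
      have h4 := h3.eq_neg_one_of_two_right
      refine ⟨ζ ^ (u + 1), pow_ne_zero _ (hζ.ne_zero hm0), ?_⟩
      rw [pow_succ (ζ ^ (u + 1)) r, ← pow_mul,
        show (u + 1) * r = u * (r + 2) by rw [hru]; ring, h4, neg_one_mul]
  · intro b hb
    by_cases h0 : b = 0
    · exact ⟨0, by rw [h0, zero_pow (by omega)]⟩
    · have hb1 : b ^ r = 1 := by
        rw [pow_succ] at hb
        exact mul_right_cancel₀ h0 (by rw [hb, one_mul])
      obtain ⟨i, -, hi⟩ := hζr.eq_pow_of_pow_eq_one hb1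
      refine ⟨ζ ^ i, ?_⟩
      rw [← hi, ← pow_mul, ← pow_mul]
      congr 1
      ring
  · refine ⟨ζ ^ r, ?_, ?_⟩
    · rw [← pow_mul]
      exact hζ.pow_eq_one
    · apply hζ.pow_ne_one_of_pos_of_lt (by omega)
      nlinarith
  · refine ⟨0 :: (nthRootsFinset (r * (r + 2)) (1 : K)).toList, ?_⟩
    rw [List.map_cons, List.prod_cons, Finset.prod_map_toList,
      ← X_pow_sub_one_eq_prod (Nat.pos_of_ne_zero hm0) hζ, hm, C_0, sub_zero, mul_sub, mul_one,
      ← pow_succ']
  · intro N b hN hb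
    obtain ⟨e, he⟩ := hN
    have hN0 : 0 < N := by
      rcases Nat.eq_zero_or_pos N with h | h
      · rw [h, zero_mul] at he
        omega
      · exact h
    have h5 : IsPrimitiveRoot (ζ ^ (r * e)) N := by
      refine hζ.pow (Nat.pos_of_ne_zero hm0) ?_
      rw [show r + 2 = r + 1 + 1 from rfl, he]
      ring
    refine ⟨(Finset.range N).toList.map fun i => (ζ ^ (r * e)) ^ i * b, ?_⟩
    rw [List.map_map, X_pow_sub_C_eq_prod h5 hN0 (α := b) rfl, ← Finset.prod_map_toList]
    rfl

end Pool.Agent.FMS
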