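import Pool.Agent.FMS.St

/-!
# FRM: products of affine Fermat curves of degree dividing `q + 1`
-/

set_option autoImplicit false

open CategoryTheory AlgebraicGeometry Polynomial

namespace Pool.Agent.FMS

open UQ (szer)
open FMO (Clo)
open FMQ (FreeCl ferm)
open LFQ (BM)

universe v

namespace FRMAux

open TensorProduct

/-- the closure properties pass to intersections -/
theorem clo_forall {K : Type} [Field K] (R : ℕ → Prp K) (h : ∀ m, FMO.Clo K (R m)) :
    FMO.Clo K (fun (D : Type) [CommRing D] [Algebra K D] [Algebra.FiniteType K D] =>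
      ∀ m, R m D) where
  iso e hA m := (h m).iso e (hA m)
  triv A _ _ _ hs m := (h m).triv A hs
  glue a z u hs hZ hU m := (h m).glue a z u hs (hZ m) (hU m)
  opn a z u hs hA hZ m := (h m).opn a z u hs (hA m) (hZ m)
  line A _ _ _ hA m := (h m).line A (hA m)

theorem free_forall {K : Type} [Field K] (R : ℕ → Prp K) (h : ∀ m, FreeA (R m)) :
    FreeA (fun (D : Type) [CommRing D] [Algebra K D] [Algebra.FiniteType K D] =>
      ∀ m, R m D) := by
  intro A C _ _ _ _ _ _ _ _ _ _ hr hC m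
  exact h m A C hr (hC m)

theorem ferm_map {k K : Type} [Field k] [Field K] [Algebra k K] (N M : ℕ) (c c' : Fin M → k) :
    (fun i => MvPolynomial.map (algebraMap k K) (ferm N c c' i)) =
      ferm N (fun j => algebraMap k K (c j)) (fun j => algebraMap k K (c' j)) := by
  funext i
  simp only [ferm, map_add, map_mul, map_pow, map_one, MvPolynomial.map_C, MvPolynomial.map_X]

/-- the whole argument for one `K` -/
theorem core {K : Type} [Field K] (hFQ : S_FQ) (hTEN : S_TEN) (hTEH : S_TEH) (hHER : S_HER)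
    (hEHU : S_EHU) (hFER : S_FER) (hITE : S_ITE) (p q N : ℕ) (hD : Dat p q K)
    (hN : N ∣ q + 1) (Q : Prp K) (hC : FMO.Clo K Q) (hF : FreeA Q) (hCur : Cur Q)
    (hAS : ASCl q Q) (M : ℕ) (c c' : Fin M → K) (hc : ∀ j, c j = 0 ∨ ∃ b, c j * b ^ N = 1)
    (hc' : ∀ j, c' j = 0 ∨ ∃ b, c' j * b ^ N = 1) :
    Q (MvPolynomial (Fin (M + M)) K ⧸ Ideal.span (Set.range (ferm N c c'))) := by
  obtain ⟨-, ⟨κ, hκ0, hκ⟩, -⟩ := hFQ p q K hD
  have hC' : FMO.Clo K (fun (D : Type) [CommRing D] [Algebra K D] [Algebra.FiniteType K D] =>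
      ∀ m : ℕ, Q (D ⊗[K] HX q κ m)) :=
    clo_forall (fun m D [CommRing D] [Algebra K D] [Algebra.FiniteType K D] =>
      Q (D ⊗[K] HX q κ m)) fun m => (hTEN K Q hC hF (HX q κ m)).1
  have hF' : FreeA (fun (D : Type) [CommRing D] [Algebra K D] [Algebra.FiniteType K D] =>
      ∀ m : ℕ, Q (D ⊗[K] HX q κ m)) :=
    free_forall (fun m D [CommRing D] [Algebra K D] [Algebra.FiniteType K D] =>
      Q (D ⊗[K] HX q κ m)) fun m => (hTEN K Q hC hF (HX q κ m)).2
  have hH : ∀ (D : Type) [CommRing D] [Algebra K D] [Algebra.FiniteType K D],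
      (∀ m : ℕ, Q (D ⊗[K] HX q κ m)) → ∀ m : ℕ, Q (HD q κ D ⊗[K] HX q κ m) := by
    intro D _ _ _ h m
    obtain ⟨e⟩ := (hTEH q K κ).2 m D
    exact hC.iso e (h (m + 1))
  have hK : ∀ m : ℕ, Q (K ⊗[K] HX q κ m) := fun m =>
    hC.iso (Algebra.TensorProduct.lid K (HX q κ m)).symm
      (hHER p q K hD κ hκ0 hκ Q hC hF hCur hAS m)
  have h1 := hEHU p q K hD κ hκ0 hκ _ hC' hH
  have h2 := hFER p q K hD _ hC' hF' h1 N hN
  have h3 := hITE K _ hC' N M c c' (fun j => h2 (c j) (c' j) (hc j) (hc' j)) hK 0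
  obtain ⟨e⟩ := (hTEH q K κ).1
  exact hC.iso ((Algebra.TensorProduct.congr AlgEquiv.refl e).trans
    (Algebra.TensorProduct.rid K K _)) h3

end FRMAux

theorem t_FRM : M_FRM.{v} := by
  intro hEXK hFQ hPKC hARG hTEN hTEH hHER hEHU hFER hITE
  intro k Λ _ _ _ _ T hPub hGal hClo hFree p ν N hp hchar hν hN M c c'
  classical
  obtain ⟨K, _, _, _, hD, hroot⟩ := hEXK k p ν N hp hchar hν hN
    (Finset.univ.image c ∪ Finset.univ.image c')
  obtain ⟨hC, hF, hCur, hlast⟩ := hPKC k T.FG hClo hFree hPub.fin.curves K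
  have hAS := hARG k Λ T hPub hGal K p (p ^ ν) hD
  have hr : ∀ x ∈ Finset.univ.image c ∪ Finset.univ.image c',
      algebraMap k K x = 0 ∨ ∃ b, algebraMap k K x * b ^ N = 1 := by
    intro x hx
    by_cases h0 : x = 0
    · left
      rw [h0, map_zero]
    · exact Or.inr (hroot x hx h0)
  have h := FRMAux.core hFQ hTEN hTEH hHER hEHU hFER hITE p (p ^ ν) N hD hN _ hC hF hCur hAS M
    (fun j => algebraMap k K (c j)) (fun j => algebraMap k K (c' j))
    (fun j => hr _ (Finset.mem_union_left _ (Finset.mem_image_of_mem c (Finset.mem_univ j))))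
    (fun j => hr _ (Finset.mem_union_right _ (Finset.mem_image_of_mem c' (Finset.mem_univ j))))
  refine hlast (M + M) (Fin M) (ferm N c c') ?_
  exact hC.iso (Ideal.quotientEquivAlgOfEq K (by rw [FRMAux.ferm_map])) h

end Pool.Agent.FMS
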