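import Pool.Agent.FMS.St4
import Pool.Agent.FMS.PKC
import Pool.Agent.FMS.FRM

/-!
# FRB: products of `Spec A` and affine Fermat curves of degree dividing `q + 1`
-/

set_option autoImplicit false

open CategoryTheory AlgebraicGeometry Polynomial

namespace Pool.Agent.FMS

open Pool.Agent.Lib_helper55.Beil (Var)
open UQ (sp szer)
open FMO (Clo)
open FMQ (FreeCl ferm)
open LFQ (BM)

universe v

namespace FRBAux

open TensorProduct PKCAux

section Abs

variable {k K A F F' G H : Type} [Field k] [Field K] [Algebra k K] [CommRing A] [Algebra k A]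
  [CommRing F] [Algebra k F] [CommRing F'] [Algebra k F'] [CommRing G] [Algebra K G]
  [CommRing H] [Algebra K H] [Algebra k H]

/-- exchange of the factors -/
noncomputable def exch (e₅ : (F ⊗[k] A) ≃ₐ[k] F') :
    (F ⊗[k] (K ⊗[k] A)) ≃ₐ[k] (F' ⊗[k] K) :=
  ((Algebra.TensorProduct.congr AlgEquiv.refl (Algebra.TensorProduct.comm k K A)).trans
    (Algebra.TensorProduct.assoc k k k F A K).symm).trans
    (Algebra.TensorProduct.congr e₅ AlgEquiv.refl)

/-- the isomorphism of `k`-algebras -/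
noncomputable def iso (hH : ∀ r : k, algebraMap K H (algebraMap k K r) = algebraMap k H r)
    (e₁ : (G ⊗[K] (K ⊗[k] A)) ≃ₐ[K] H) (e₃ : (F ⊗[k] (K ⊗[k] A)) ≃ₐ[k] H)
    (e₅ : (F ⊗[k] A) ≃ₐ[k] F') :
    @AlgEquiv k (G ⊗[K] (K ⊗[k] A)) (F' ⊗[k] K) _ _ _ (al k K (G ⊗[K] (K ⊗[k] A))) _ :=
  @AlgEquiv.ofRingEquiv k (G ⊗[K] (K ⊗[k] A)) (F' ⊗[k] K) _ _ _ (al k K (G ⊗[K] (K ⊗[k] A))) _
    (f := e₁.toRingEquiv.trans (e₃.symm.trans (exch e₅)).toRingEquiv) (fun r => by
      have h1 : e₁ (algebraMap K (G ⊗[K] (K ⊗[k] A)) (algebraMap k K r)) = algebraMap k H r :=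
        (e₁.commutes (algebraMap k K r)).trans (hH r)
      show (e₃.symm.trans (exch e₅)) (e₁ (algebraMap K (G ⊗[K] (K ⊗[k] A)) (algebraMap k K r))) = _
      rw [h1]
      exact (e₃.symm.trans (exch e₅)).commutes r)

theorem chain [Module.Finite k K] [Algebra.FiniteType k A] [Algebra.FiniteType k F']
    [Algebra.FiniteType K G] {P : Var k → Prop}
    (hC : FMO.Clo k fun A [CommRing A] [Algebra k A] [Algebra.FiniteType k A] => P (sp k A))
    (hF : FreeCl P) (hH : ∀ r : k, algebraMap K H (algebraMap k K r) = algebraMap k H r)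
    (e₁ : (G ⊗[K] (K ⊗[k] A)) ≃ₐ[K] H) (e₃ : (F ⊗[k] (K ⊗[k] A)) ≃ₐ[k] H)
    (e₅ : (F ⊗[k] A) ≃ₐ[k] F') (h : P (rk k K (G ⊗[K] (K ⊗[k] A)))) : P (sp k F') := by
  have ft : Algebra.FiniteType k (F' ⊗[k] K) :=
    Algebra.FiniteType.trans (S := F') inferInstance inferInstance
  have h1 : P (sp k (F' ⊗[k] K)) :=
    @FMO.Clo.iso k _ _ hC (G ⊗[K] (K ⊗[k] A)) (F' ⊗[k] K) _ (al k K _) (ft_rk k K _) _ _ ft
      (iso hH e₁ e₃ e₅) h
  rcases subsingleton_or_nontrivial F' with h2 | h2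
  · exact hC.triv F' h2
  · refine hF F' (F' ⊗[k] K) ?_ h1
    rw [Module.finrank_baseChange]
    exact Module.finrank_pos

end Abs

section

variable {k K A : Type} [Field k] [Field K] [Algebra k K] [CommRing A] [Algebra k A]
  {n : ℕ} {ι : Type} (f : ι → MvPolynomial (Fin n) k)

theorem map_eq (i : ι) : MvPolynomial.map (algebraMap K (K ⊗[k] A))
    (MvPolynomial.map (algebraMap k K) (f i)) =
      MvPolynomial.map (algebraMap k (K ⊗[k] A)) (f i) := by
  rw [MvPolynomial.map_map, ← IsScalarTower.algebraMap_eq]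

theorem last [Module.Finite k K] [Algebra.FiniteType k A] {P : Var k → Prop} (hMVT : S_MVT)
    (hC : FMO.Clo k fun A [CommRing A] [Algebra k A] [Algebra.FiniteType k A] => P (sp k A))
    (hF : FreeCl P) (g : ι → MvPolynomial (Fin n) K)
    (hg : ∀ i, g i = MvPolynomial.map (algebraMap k K) (f i))
    (h : P (rk k K ((MvPolynomial (Fin n) K ⧸ Ideal.span (Set.range g)) ⊗[K] (K ⊗[k] A)))) :
    P (szer k A fun i => MvPolynomial.map (algebraMap k A) (f i)) := by
  obtain ⟨e₁⟩ := hMVT K n ι g (K ⊗[k] A)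
  obtain ⟨e₃⟩ := hMVT k n ι f (K ⊗[k] A)
  obtain ⟨e₅⟩ := hMVT k n ι f A
  have hI : Ideal.span (Set.range fun i => MvPolynomial.map (algebraMap K (K ⊗[k] A)) (g i)) =
      Ideal.span (Set.range fun i => MvPolynomial.map (algebraMap k (K ⊗[k] A)) (f i)) := by
    congr 2
    funext i
    rw [hg i, map_eq]
  refine chain hC hF (fun r => ?_) (e₁.trans (Ideal.quotientEquivAlgOfEq K hI)) e₃ e₅ h
  show Ideal.Quotient.mk _ (MvPolynomial.C (algebraMap K (K ⊗[k] A) (algebraMap k K r))) =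
      Ideal.Quotient.mk _ (MvPolynomial.C (algebraMap k (K ⊗[k] A) r))
  rw [← IsScalarTower.algebraMap_apply k K (K ⊗[k] A)]

end

theorem clo_k {k : Type} [Field k] {P : Var k → Prop}
    (hC : FMO.Clo k fun (D : Type) [CommRing D] [Algebra k D] [Algebra.FiniteType k D] =>
      P (rk k k D)) :
    FMO.Clo k fun (D : Type) [CommRing D] [Algebra k D] [Algebra.FiniteType k D] =>
      P (sp k D) := hC

end FRBAux

open TensorProduct in
theorem t_FRB : M_FRB.{v} := by
  intro hEXK hPKC hARG hTEN hTNA hCUT hFRK hMVT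
  intro k Λ _ _ _ _ T hPub hGal hClo hFree p ν N hp hchar hν hN A _ _ _ hA M c c'
  classical
  obtain ⟨K, _, _, _, hD, hroot⟩ := hEXK k p ν N hp hchar hν hN
    (Finset.univ.image c ∪ Finset.univ.image c')
  obtain ⟨hC, hF, -, -⟩ := hPKC k T.FG hClo hFree hPub.fin.curves K
  have hAS := hARG k Λ T hPub hGal K p (p ^ ν) hD
  have hr : ∀ x ∈ Finset.univ.image c ∪ Finset.univ.image c',
      algebraMap k K x = 0 ∨ ∃ b, algebraMap k K x * b ^ N = 1 := by
    intro x hx
    by_cases h0 : x = 0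
    · left
      rw [h0, map_zero]
    · exact Or.inr (hroot x hx h0)
  obtain ⟨hC', hF'⟩ := hTEN K _ hC hF (K ⊗[k] A)
  have hCur := hCUT k T.FG hClo K A hA
  have hAS' := hTNA p (p ^ ν) K hD _ hC hAS (K ⊗[k] A)
  have h := hFRK p (p ^ ν) K hD _ hC' hF' hCur hAS' N hN M
    (fun j => algebraMap k K (c j)) (fun j => algebraMap k K (c' j))
    (fun j => hr _ (Finset.mem_union_left _ (Finset.mem_image_of_mem c (Finset.mem_univ j))))
    (fun j => hr _ (Finset.mem_union_right _ (Finset.mem_image_of_mem c' (Finset.mem_univ j))))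
  exact FRBAux.last (ferm N c c') hMVT
    (FRBAux.clo_k (hPKC k T.FG hClo hFree hPub.fin.curves k).1) hFree _
    (fun i => (congrFun (FRMAux.ferm_map N M c c') i).symm) h

end Pool.Agent.FMS
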