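import Pool.Agent.FMS.St4
import Pool.Agent.FMS.FRM

/-!
# FMS, module FRK: products of affine Fermat curves, for a property of `K`-algebras
-/

set_option autoImplicit false

namespace Pool.Agent.FMS

theorem t_FRK : M_FRK := by
  intro hFQ hTEN hTEH hHER hEHU hFER hITE p q K _ hD Q hC hF hCur hAS N hN M c c' hc hc'
  exact FRMAux.core hFQ hTEN hTEH hHER hEHU hFER hITE p q N hD hN Q hC hF hCur hAS M c c' hc hc'

end Pool.Agent.FMS
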