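import Pool.Agent.FMS.St

/-!
# Project FMS, module HER: products of Hermitian curves
-/

set_option autoImplicit false

namespace Pool.Agent.FMS

namespace HERAux

/-- Transport along an equality of the right sides. -/
theorem transport {K : Type} [Field K] (Q : Prp K) (q : ℕ) {A : Type} [CommRing A] [Algebra K A]
    [Algebra.FiniteType K A] {α β : A} (h : α = β) (hα : Q (AS q α)) : Q (AS q β) := by
  subst h
  exact hα

end HERAux

theorem t_HER : M_HER := by
  intro hTOW hYMC p q K _ hD κ hκ hκq Q hQ hF hC hA m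
  refine hTOW p q K hD Q hQ hF hA (MvPolynomial (Fin m) K) m
    (fun i : Fin m => (κ • MvPolynomial.X i ^ (q + 1) : MvPolynomial (Fin m) K)) fun c hc => ?_
  have h1 := hYMC p q K hD κ hκ hκq Q hQ hF hC m c hc
  have h2 : (κ • ∑ i, c i • MvPolynomial.X i ^ (q + 1) : MvPolynomial (Fin m) K) =
      ∑ i, c i • (κ • MvPolynomial.X i ^ (q + 1) : MvPolynomial (Fin m) K) := by
    rw [Finset.smul_sum]
    exact Finset.sum_congr rfl fun i _ => smul_comm _ _ _
  exact HERAux.transport Q q h2 h1

end Pool.Agent.FMS
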