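import Pool.Agent.FMS.St

/-!
# Project FMS (MP_cb388a_ag), module HYC: hyperbolic coordinates
-/

set_option autoImplicit false

namespace Pool.Agent.FMS

namespace HYCAux

open MvPolynomial

theorem frob {p : ℕ} (hp : p.Prime) {R : Type} [CommRing R] (h0 : (p : R) = 0) (ν : ℕ) (x y : R) :
    (x + y) ^ p ^ ν = x ^ p ^ ν + y ^ p ^ ν := by
  obtain ⟨r, hr⟩ := exists_add_pow_prime_pow_eq hp x y ν
  rw [hr, h0, zero_mul, zero_mul, zero_mul, add_zero]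

/-- the identity -/
theorem ident {R : Type} [CommRing R] (q : ℕ) (hfr : ∀ x y : R, (x + y) ^ q = x ^ q + y ^ q)
    {A B A' W Th Z : R} (X0 X1 : R) (hA : A * A' = 1) (hAq : A' ^ q = A')
    (hW : (1 - Th) * W = 1) (hWq : (1 - Th ^ q) * W ^ q = 1) (hT : Th ^ q * Th = 1)
    (hBZ : B * Z ^ (q + 1) = -A) :
    A * (A' * X0 + W * X1) ^ (q + 1) + B * (Z * (A' * X0 + Th * W * X1)) ^ (q + 1) =
      X0 ^ q * X1 + X0 * X1 ^ q := by
  have h1 : (A' * X0 + W * X1) ^ (q + 1) = (A' * X0 ^ q + W ^ q * X1 ^ q) * (A' * X0 + W * X1) := by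
    rw [pow_succ, hfr, mul_pow, mul_pow, hAq]
  have h2 : (A' * X0 + Th * W * X1) ^ (q + 1) =
      (A' * X0 ^ q + Th ^ q * W ^ q * X1 ^ q) * (A' * X0 + Th * W * X1) := by
    rw [pow_succ, hfr, mul_pow, mul_pow, mul_pow, hAq]
  rw [mul_pow, h1, h2]
  obtain ⟨u, hu⟩ : ∃ u, u = X0 ^ q := ⟨_, rfl⟩
  obtain ⟨v, hv⟩ : ∃ v, v = X1 ^ q := ⟨_, rfl⟩
  obtain ⟨w, hw⟩ : ∃ w, w = W ^ q := ⟨_, rfl⟩
  obtain ⟨c, hc⟩ : ∃ c, c = Th ^ q := ⟨_, rfl⟩
  obtain ⟨z, hz⟩ : ∃ z, z = Z ^ (q + 1) := ⟨_, rfl⟩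
  rw [← hw, ← hc] at hWq
  rw [← hc] at hT
  rw [← hz] at hBZ
  rw [← hu, ← hv, ← hw, ← hc, ← hz]
  linear_combination ((1 - Th) * W * (u * X1) + (1 - c) * w * (X0 * v)) * hA + u * X1 * hW +
    X0 * v * hWq - A * w * W * (v * X1) * hT +
    (A' * u + c * w * v) * (A' * X0 + Th * W * X1) * hBZ

/-- the automorphism -/
theorem aut {K : Type} [Field K] (D : Type) [CommRing D] [Algebra K D] (a ζ θ : K) (ha : a ≠ 0)
    (hζ : ζ ≠ 0) (hθ : θ ≠ 1) :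
    ∃ e : MvPolynomial (Fin 2) D ≃ₐ[D] MvPolynomial (Fin 2) D,
      e (X 0) = algebraMap K _ a⁻¹ * X 0 + algebraMap K _ (1 - θ)⁻¹ * X 1 ∧
      e (X 1) = algebraMap K _ ζ * (algebraMap K _ a⁻¹ * X 0 +
        algebraMap K _ θ * algebraMap K _ (1 - θ)⁻¹ * X 1) := by
  have hC : ∀ (h : MvPolynomial (Fin 2) D →ₐ[D] MvPolynomial (Fin 2) D) (k : K),
      h (algebraMap K _ k) = algebraMap K _ k := fun h k => (h.restrictScalars K).commutes k
  have hA : algebraMap K (MvPolynomial (Fin 2) D) a * algebraMap K _ a⁻¹ = 1 := by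
    rw [← map_mul, mul_inv_cancel₀ ha, map_one]
  have hZ : algebraMap K (MvPolynomial (Fin 2) D) ζ * algebraMap K _ ζ⁻¹ = 1 := by
    rw [← map_mul, mul_inv_cancel₀ hζ, map_one]
  have hW : (1 - algebraMap K (MvPolynomial (Fin 2) D) θ) * algebraMap K _ (1 - θ)⁻¹ = 1 := by
    rw [← map_one (algebraMap K (MvPolynomial (Fin 2) D)), ← map_sub, ← map_mul,
      mul_inv_cancel₀ (sub_ne_zero.2 hθ.symm)]
  let f : MvPolynomial (Fin 2) D →ₐ[D] MvPolynomial (Fin 2) D := aeval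
    ![algebraMap K _ a⁻¹ * X 0 + algebraMap K _ (1 - θ)⁻¹ * X 1,
      algebraMap K _ ζ * (algebraMap K _ a⁻¹ * X 0 +
        algebraMap K _ θ * algebraMap K _ (1 - θ)⁻¹ * X 1)]
  let g : MvPolynomial (Fin 2) D →ₐ[D] MvPolynomial (Fin 2) D := aeval
    ![algebraMap K _ a * (X 0 - algebraMap K _ (1 - θ)⁻¹ * (X 0 - algebraMap K _ ζ⁻¹ * X 1)),
      X 0 - algebraMap K _ ζ⁻¹ * X 1]
  have f0 : f (X 0) = algebraMap K _ a⁻¹ * X 0 + algebraMap K _ (1 - θ)⁻¹ * X 1 := by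
    show aeval _ (X 0) = _
    rw [aeval_X]
    rfl
  have f1 : f (X 1) = algebraMap K _ ζ * (algebraMap K _ a⁻¹ * X 0 +
        algebraMap K _ θ * algebraMap K _ (1 - θ)⁻¹ * X 1) := by
    show aeval _ (X 1) = _
    rw [aeval_X]
    rfl
  have g0 : g (X 0) = algebraMap K _ a * (X 0 - algebraMap K _ (1 - θ)⁻¹ *
      (X 0 - algebraMap K _ ζ⁻¹ * X 1)) := by
    show aeval _ (X 0) = _
    rw [aeval_X]
    rfl
  have g1 : g (X 1) = X 0 - algebraMap K _ ζ⁻¹ * X 1 := by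
    show aeval _ (X 1) = _
    rw [aeval_X]
    rfl
  obtain ⟨A, hAe⟩ : ∃ A, A = algebraMap K (MvPolynomial (Fin 2) D) a := ⟨_, rfl⟩
  obtain ⟨A', hA'e⟩ : ∃ A, A = algebraMap K (MvPolynomial (Fin 2) D) a⁻¹ := ⟨_, rfl⟩
  obtain ⟨Z, hZe⟩ : ∃ A, A = algebraMap K (MvPolynomial (Fin 2) D) ζ := ⟨_, rfl⟩
  obtain ⟨Z', hZ'e⟩ : ∃ A, A = algebraMap K (MvPolynomial (Fin 2) D) ζ⁻¹ := ⟨_, rfl⟩
  obtain ⟨Th, hThe⟩ : ∃ A, A = algebraMap K (MvPolynomial (Fin 2) D) θ := ⟨_, rfl⟩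
  obtain ⟨W, hWe⟩ : ∃ A, A = algebraMap K (MvPolynomial (Fin 2) D) (1 - θ)⁻¹ := ⟨_, rfl⟩
  have hCA := fun h => hC h a
  have hCA' := fun h => hC h a⁻¹
  have hCZ := fun h => hC h ζ
  have hCZ' := fun h => hC h ζ⁻¹
  have hCT := fun h => hC h θ
  have hCW := fun h => hC h (1 - θ)⁻¹
  rw [← hA'e, ← hWe] at f0
  rw [← hZe, ← hA'e, ← hThe, ← hWe] at f1
  rw [← hAe, ← hWe, ← hZ'e] at g0
  rw [← hZ'e] at g1
  rw [← hAe, ← hA'e] at hA
  rw [← hZe, ← hZ'e] at hZ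
  rw [← hThe, ← hWe] at hW
  rw [← hAe] at hCA
  rw [← hA'e] at hCA'
  rw [← hZe] at hCZ
  rw [← hZ'e] at hCZ'
  rw [← hThe] at hCT
  rw [← hWe] at hCW
  rw [← hA'e, ← hWe, ← hZe, ← hThe]
  have hfg : f.comp g = AlgHom.id D _ := by
    refine algHom_ext fun i => ?_
    fin_cases i
    · show f (g (X 0)) = X 0
      rw [g0, map_mul, map_sub, map_mul, map_sub, map_mul, hCA, hCW, hCZ', f0, f1]
      linear_combination X 0 * hA + A * W * (A' * X 0 + Th * W * X 1) * hZ - A * W * X 1 * hW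
    · show f (g (X 1)) = X 1
      rw [g1, map_sub, map_mul, hCZ', f0, f1]
      linear_combination -(A' * X 0 + Th * W * X 1) * hZ + X 1 * hW
  have hgf : g.comp f = AlgHom.id D _ := by
    refine algHom_ext fun i => ?_
    fin_cases i
    · show g (f (X 0)) = X 0
      rw [f0, map_add, map_mul, map_mul, hCA', hCW, g0, g1]
      linear_combination (X 0 - W * (X 0 - Z' * X 1)) * hA
    · show g (f (X 1)) = X 1
      rw [f1, map_mul, map_add, map_mul, map_mul, map_mul, hCZ, hCA', hCT, hCW, g0, g1]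
      linear_combination Z * (X 0 - W * (X 0 - Z' * X 1)) * hA - Z * (X 0 - Z' * X 1) * hW +
        X 1 * hZ
  exact ⟨AlgEquiv.ofAlgHom f g hfg hgf, f0, f1⟩

end HYCAux

open HYCAux in
theorem t_HYC : M_HYC := by
  intro hFQ p q K _ hdat a b ha hb haq hbq D _ _
  obtain ⟨-, -, hnorm, ⟨θ, hθ1, hθ2⟩, -, -⟩ := hFQ p q K hdat
  obtain ⟨ν, hν, hq⟩ := hdat.pow
  have := hdat.char
  have hpK : (p : K) = 0 := CharP.cast_eq_zero K p
  have hpR : (p : MvPolynomial (Fin 2) D) = 0 := by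
    have h1 : algebraMap K (MvPolynomial (Fin 2) D) (p : K) = (p : MvPolynomial (Fin 2) D) :=
      map_natCast _ _
    rw [← h1, hpK, map_zero]
  have hfrK : ∀ x y : K, (x + y) ^ q = x ^ q + y ^ q := by
    intro x y
    rw [hq]
    exact frob hdat.pr hpK ν x y
  have hfr : ∀ x y : MvPolynomial (Fin 2) D, (x + y) ^ q = x ^ q + y ^ q := by
    intro x y
    rw [hq]
    exact frob hdat.pr hpR ν x y
  have hq0 : q ≠ 0 := by
    rw [hq]
    exact pow_ne_zero _ hdat.pr.ne_zero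
  have hneg : ∀ x : K, (-x) ^ q = -(x ^ q) := by
    intro x
    have h1 := hfrK x (-x)
    rw [add_neg_cancel, zero_pow hq0] at h1
    linear_combination -h1
  obtain ⟨ζ, hζ⟩ := hnorm (-(a / b)) (by rw [hneg, div_pow, haq, hbq])
  have hζ0 : ζ ≠ 0 := by
    intro h
    rw [h, zero_pow (Nat.succ_ne_zero _)] at hζ
    exact (neg_ne_zero.2 (div_ne_zero ha hb)) hζ.symm
  obtain ⟨e, he0, he1⟩ := aut D a ζ θ ha hζ0 hθ2
  refine ⟨e, ?_⟩
  have hC : ∀ k : K, e (algebraMap K _ k) = algebraMap K _ k :=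
    fun k => (e.restrictScalars K).commutes k
  rw [map_add, Algebra.smul_def, Algebra.smul_def, map_mul, map_mul, map_pow, map_pow, hC, hC, he0,
    he1]
  refine ident q hfr _ _ ?_ ?_ ?_ ?_ ?_ ?_
  · rw [← map_mul, mul_inv_cancel₀ ha, map_one]
  · rw [← map_pow, inv_pow, haq]
  · rw [← map_one (algebraMap K (MvPolynomial (Fin 2) D)), ← map_sub, ← map_mul,
      mul_inv_cancel₀ (sub_ne_zero.2 hθ2.symm)]
  · have h1 : (1 - θ) ^ q = 1 - θ ^ q := by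
      have h2 := hfrK (1 - θ) θ
      rw [sub_add_cancel, one_pow] at h2
      linear_combination -h2
    rw [← map_one (algebraMap K (MvPolynomial (Fin 2) D)), ← map_pow, ← map_pow, ← map_sub,
      ← map_mul, ← h1, inv_pow, mul_inv_cancel₀ (pow_ne_zero _ (sub_ne_zero.2 hθ2.symm))]
  · rw [← map_pow, ← map_mul, ← pow_succ, hθ1, map_one]
  · rw [← map_pow, ← map_mul, hζ, ← map_neg]
    congr 1
    field_simp

end Pool.Agent.FMS
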