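import Pool.Agent.FMS.St6

/-!
# FMS_ISG: the algebra of a system over the algebra of a system (helper16)
-/

set_option autoImplicit false

namespace Pool.Agent.FMS

namespace ISGAux

open MvPolynomial

variable {A : Type} [CommRing A] {n l : ℕ} {ι κ : Type} (f : ι → MvPolynomial (Fin n) A)
  (g : κ → MvPolynomial (Fin l) (MvPolynomial (Fin n) A))

/-- the algebra over the algebra -/
abbrev TT : Type :=
  QR (A := QR f) fun j => MvPolynomial.map (Ideal.Quotient.mk (Ideal.span (Set.range f))) (g j)

/-- the base -/
noncomputable def mI : MvPolynomial (Fin n) A →+* QR f :=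
  Ideal.Quotient.mk (Ideal.span (Set.range f))

/-- the second quotient -/
noncomputable def mJ : MvPolynomial (Fin l) (QR f) →+* TT f g :=
  Ideal.Quotient.mk _

/-- the quotient of the whole system -/
noncomputable def mK : MvPolynomial (Fin (n + l)) A →+* QR (sysG f g) :=
  Ideal.Quotient.mk _

/-- the variables -/
noncomputable def vv : Fin (n + l) → TT f g :=
  Fin.addCases (fun i => mJ f g (C (mI f (X i)))) fun j => mJ f g (X j)

/-- from the polynomials to `TT` -/
noncomputable def al0 : MvPolynomial (Fin (n + l)) A →+* TT f g :=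
  eval₂Hom ((mJ f g).comp (C.comp ((mI f).comp C))) (vv f g)

lemma al0_ren (p : MvPolynomial (Fin n) A) :
    al0 f g (rename (Fin.castAdd l) p) = mJ f g (C (mI f p)) := by
  have h : (al0 f g).comp (rename (Fin.castAdd l)).toRingHom =
      (mJ f g).comp (C.comp (mI f)) := by
    apply MvPolynomial.ringHom_ext
    · intro a
      simp [al0]
    · intro i
      simp [al0, vv]
  exact DFunLike.congr_fun h p

lemma al0_flat (q : MvPolynomial (Fin l) (MvPolynomial (Fin n) A)) :
    al0 f g (flat q) = mJ f g (MvPolynomial.map (mI f) q) := by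
  have h : (al0 f g).comp (eval₂Hom (rename (Fin.castAdd l)).toRingHom
      (fun j => X (Fin.natAdd n j))) = (mJ f g).comp (MvPolynomial.map (mI f)) := by
    apply MvPolynomial.ringHom_ext
    · intro a
      rw [RingHom.comp_apply, coe_eval₂Hom, eval₂_C, RingHom.comp_apply, map_C]
      exact al0_ren f g a
    · intro j
      rw [RingHom.comp_apply, coe_eval₂Hom, eval₂_X, RingHom.comp_apply, map_X]
      simp [al0, vv]
  exact DFunLike.congr_fun h q

/-- the map from the algebra of the whole system -/
noncomputable def al : QR (sysG f g) →+* TT f g :=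
  Ideal.Quotient.lift _ (al0 f g) (by
    intro a ha
    have h : Ideal.span (Set.range (sysG f g)) ≤ RingHom.ker (al0 f g) := by
      rw [Ideal.span_le]
      rintro _ ⟨i | j, rfl⟩
      · show al0 f g (rename (Fin.castAdd l) (f i)) = 0
        rw [al0_ren]
        have : mI f (f i) = 0 :=
          Ideal.Quotient.eq_zero_iff_mem.2 (Ideal.subset_span ⟨i, rfl⟩)
        rw [this, map_zero, map_zero]
      · show al0 f g (flat (g j)) = 0
        rw [al0_flat]
        exact Ideal.Quotient.eq_zero_iff_mem.2 (Ideal.subset_span ⟨j, rfl⟩)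
    exact h ha)

/-- the map from the base -/
noncomputable def be0 : QR f →+* QR (sysG f g) :=
  Ideal.Quotient.lift _ ((mK f g).comp (rename (Fin.castAdd l)).toRingHom) (by
    intro a ha
    have h : Ideal.span (Set.range f) ≤
        RingHom.ker ((mK f g).comp (rename (Fin.castAdd l)).toRingHom) := by
      rw [Ideal.span_le]
      rintro _ ⟨i, rfl⟩
      exact Ideal.Quotient.eq_zero_iff_mem.2 (Ideal.subset_span ⟨Sum.inl i, rfl⟩)
    exact h ha)

/-- the map in the other direction, for polynomials -/
noncomputable def be1 : MvPolynomial (Fin l) (QR f) →+* QR (sysG f g) :=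
  eval₂Hom (be0 f g) fun j => mK f g (X (Fin.natAdd n j))

lemma be1_map (q : MvPolynomial (Fin l) (MvPolynomial (Fin n) A)) :
    be1 f g (MvPolynomial.map (mI f) q) = mK f g (flat q) := by
  have h : (be1 f g).comp (MvPolynomial.map (mI f)) =
      (mK f g).comp (eval₂Hom (rename (Fin.castAdd l)).toRingHom
      (fun j => X (Fin.natAdd n j))) := by
    apply MvPolynomial.ringHom_ext
    · intro a
      rw [RingHom.comp_apply, map_C, RingHom.comp_apply, coe_eval₂Hom, eval₂_C, be1,
        coe_eval₂Hom, eval₂_C]
      rfl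
    · intro j
      rw [RingHom.comp_apply, map_X, RingHom.comp_apply, coe_eval₂Hom, eval₂_X, be1,
        coe_eval₂Hom, eval₂_X]
  exact DFunLike.congr_fun h q

/-- the map in the other direction -/
noncomputable def be : TT f g →+* QR (sysG f g) :=
  Ideal.Quotient.lift _ (be1 f g) (by
    intro a ha
    have h : Ideal.span (Set.range fun j =>
        MvPolynomial.map (Ideal.Quotient.mk (Ideal.span (Set.range f))) (g j)) ≤
        RingHom.ker (be1 f g) := by
      rw [Ideal.span_le]
      rintro _ ⟨j, rfl⟩
      show be1 f g (MvPolynomial.map (mI f) (g j)) = 0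
      rw [be1_map]
      exact Ideal.Quotient.eq_zero_iff_mem.2 (Ideal.subset_span ⟨Sum.inr j, rfl⟩)
    exact h ha)

lemma al_be : (al f g).comp (be f g) = RingHom.id _ := by
  apply Ideal.Quotient.ringHom_ext
  apply MvPolynomial.ringHom_ext
  · intro b
    obtain ⟨p, rfl⟩ := Ideal.Quotient.mk_surjective b
    show al f g (be1 f g (C (mI f p))) = mJ f g (C (mI f p))
    rw [be1, coe_eval₂Hom, eval₂_C]
    exact al0_ren f g p
  · intro j
    show al f g (be1 f g (X j)) = mJ f g (X j)
    rw [be1, coe_eval₂Hom, eval₂_X]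
    show al0 f g (X (Fin.natAdd n j)) = _
    simp [al0, vv]

lemma be_al : (be f g).comp (al f g) = RingHom.id _ := by
  apply Ideal.Quotient.ringHom_ext
  apply MvPolynomial.ringHom_ext
  · intro a
    show be f g (al0 f g (C a)) = mK f g (C a)
    rw [al0, coe_eval₂Hom, eval₂_C]
    show be1 f g (C (mI f (C a))) = _
    rw [be1, coe_eval₂Hom, eval₂_C]
    show mK f g (rename (Fin.castAdd l) (C a)) = _
    rw [rename_C]
  · intro i
    show be f g (al0 f g (X i)) = mK f g (X i)
    rw [al0, coe_eval₂Hom, eval₂_X]
    refine Fin.addCases (fun i => ?_) (fun j => ?_) i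
    · rw [vv, Fin.addCases_left]
      show be1 f g (C (mI f (X i))) = _
      rw [be1, coe_eval₂Hom, eval₂_C]
      show mK f g (rename (Fin.castAdd l) (X i)) = _
      rw [rename_X]
    · rw [vv, Fin.addCases_right]
      show be1 f g (X j) = _
      rw [be1, coe_eval₂Hom, eval₂_X]

end ISGAux

open ISGAux in
theorem t_ISG : S_ISG := by
  intro k _ A _ _ n l ι κ f g
  exact ⟨AlgEquiv.ofRingEquiv (f := RingEquiv.ofRingHom (al f g) (be f g) (al_be f g) (be_al f g))
    (fun r => by
      show al0 f g (MvPolynomial.C (algebraMap k A r)) = _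
      rw [al0, MvPolynomial.coe_eval₂Hom, MvPolynomial.eval₂_C]
      rfl)⟩

end Pool.Agent.FMS
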