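import Pool.Agent.FMS.St

/-!
# Project FMS, module ITE: products of affine Fermat curves by induction
-/

set_option autoImplicit false

namespace Pool.Agent.FMS

open FMQ (ferm)

namespace ITEAux

variable {K : Type} [Field K] (N : ℕ)

/-- The algebra of the product. -/
abbrev RR {M : ℕ} (c c' : Fin M → K) : Type :=
  MvPolynomial (Fin (M + M)) K ⧸ Ideal.span (Set.range (ferm N c c'))

section

variable {M : ℕ} (c c' : Fin M → K)

noncomputable def xv (j : Fin M) : RR N c c' :=
  Ideal.Quotient.mkₐ K _ (MvPolynomial.X (Fin.castAdd M j))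

noncomputable def yv (j : Fin M) : RR N c c' :=
  Ideal.Quotient.mkₐ K _ (MvPolynomial.X (Fin.natAdd M j))

theorem rel_R (j : Fin M) : 1 + c j • xv N c c' j ^ N + c' j • yv N c c' j ^ N = 0 := by
  have h : Ideal.Quotient.mkₐ K (Ideal.span (Set.range (ferm N c c'))) (ferm N c c' j) = 0 :=
    Ideal.Quotient.eq_zero_iff_mem.2 (Ideal.subset_span ⟨j, rfl⟩)
  rw [ferm, ← MvPolynomial.smul_eq_C_mul, ← MvPolynomial.smul_eq_C_mul, map_add, map_add, map_one,
    map_smul, map_smul, map_pow, map_pow] at h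
  exact h

variable {N c c'} in
theorem ext_R {E : Type} [CommRing E] [Algebra K E] {f g : RR N c c' →ₐ[K] E}
    (h1 : ∀ j, f (xv N c c' j) = g (xv N c c' j)) (h2 : ∀ j, f (yv N c c' j) = g (yv N c c' j)) :
    f = g := by
  refine Ideal.Quotient.algHom_ext K ?_
  refine MvPolynomial.algHom_ext fun v => ?_
  refine Fin.addCases (fun j => ?_) (fun j => ?_) v
  · exact h1 j
  · exact h2 j

theorem lift_R {E : Type} [CommRing E] [Algebra K E] (a b : Fin M → E)
    (h : ∀ j, 1 + c j • a j ^ N + c' j • b j ^ N = 0) :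
    ∃ f : RR N c c' →ₐ[K] E, (∀ j, f (xv N c c' j) = a j) ∧ ∀ j, f (yv N c c' j) = b j := by
  refine ⟨Ideal.Quotient.liftₐ _ (MvPolynomial.aeval (Fin.addCases a b)) ?_, fun j => ?_,
    fun j => ?_⟩
  · intro p hp
    have hle : Ideal.span (Set.range (ferm N c c')) ≤
        RingHom.ker (MvPolynomial.aeval (Fin.addCases a b) :
          MvPolynomial (Fin (M + M)) K →ₐ[K] E) := by
      rw [Ideal.span_le]
      rintro _ ⟨j, rfl⟩
      rw [SetLike.mem_coe, RingHom.mem_ker, ferm, ← MvPolynomial.smul_eq_C_mul,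
        ← MvPolynomial.smul_eq_C_mul, map_add, map_add, map_one, map_smul, map_smul, map_pow,
        map_pow, MvPolynomial.aeval_X, MvPolynomial.aeval_X, Fin.addCases_left,
        Fin.addCases_right]
      exact h j
    exact hle hp
  · change MvPolynomial.aeval (Fin.addCases a b) (MvPolynomial.X (Fin.castAdd M j)) = a j
    rw [MvPolynomial.aeval_X, Fin.addCases_left]
  · change MvPolynomial.aeval (Fin.addCases a b) (MvPolynomial.X (Fin.natAdd M j)) = b j
    rw [MvPolynomial.aeval_X, Fin.addCases_right]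

end

section

variable (e e' : K) (D : Type) [CommRing D] [Algebra K D]

noncomputable def ov : D →ₐ[K] FD K N e e' D :=
  (Ideal.Quotient.mkₐ K _).comp (IsScalarTower.toAlgHom K D (MvPolynomial (Fin 2) D))

noncomputable def xd (i : Fin 2) : FD K N e e' D := Ideal.Quotient.mkₐ K _ (MvPolynomial.X i)

theorem rel_F : 1 + e • xd N e e' D 0 ^ N + e' • xd N e e' D 1 ^ N = 0 := by
  have h : Ideal.Quotient.mkₐ K (Ideal.span {(1 + e • MvPolynomial.X 0 ^ N +
      e' • MvPolynomial.X 1 ^ N : MvPolynomial (Fin 2) D)})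
      (1 + e • MvPolynomial.X 0 ^ N + e' • MvPolynomial.X 1 ^ N) = 0 :=
    Ideal.Quotient.eq_zero_iff_mem.2 (Ideal.subset_span rfl)
  rw [map_add, map_add, map_one, map_smul, map_smul, map_pow, map_pow] at h
  exact h

variable {N e e' D} in
theorem ext_F {E : Type} [CommRing E] [Algebra K E] {f g : FD K N e e' D →ₐ[K] E}
    (h1 : f.comp (ov N e e' D) = g.comp (ov N e e' D))
    (h2 : ∀ i, f (xd N e e' D i) = g (xd N e e' D i)) : f = g := by
  refine Ideal.Quotient.algHom_ext K ?_
  refine MvPolynomial.algHom_ext' ?_ h2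
  exact h1

theorem lift_F {E : Type} [CommRing E] [Algebra K E] (φ : D →ₐ[K] E) (x y : E)
    (h : 1 + e • x ^ N + e' • y ^ N = 0) :
    ∃ f : FD K N e e' D →ₐ[K] E, f.comp (ov N e e' D) = φ ∧ f (xd N e e' D 0) = x ∧
      f (xd N e e' D 1) = y := by
  refine ⟨Ideal.Quotient.liftₐ _ (MvPolynomial.aevalTower φ ![x, y]) ?_, ?_, ?_, ?_⟩
  · intro p hp
    have hle : Ideal.span {(1 + e • MvPolynomial.X 0 ^ N +
      e' • MvPolynomial.X 1 ^ N : MvPolynomial (Fin 2) D)} ≤
        RingHom.ker (MvPolynomial.aevalTower φ ![x, y]) := by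
      rw [Ideal.span_le, Set.singleton_subset_iff, SetLike.mem_coe, RingHom.mem_ker, map_add,
        map_add, map_one, map_smul, map_smul, map_pow, map_pow, MvPolynomial.aevalTower_X,
        MvPolynomial.aevalTower_X]
      exact h
    exact hle hp
  · refine AlgHom.ext fun d => ?_
    change MvPolynomial.aevalTower φ ![x, y] (algebraMap D (MvPolynomial (Fin 2) D) d) = φ d
    rw [MvPolynomial.algebraMap_eq, MvPolynomial.aevalTower_C]
  · change MvPolynomial.aevalTower φ ![x, y] (MvPolynomial.X 0) = x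
    rw [MvPolynomial.aevalTower_X]
    rfl
  · change MvPolynomial.aevalTower φ ![x, y] (MvPolynomial.X 1) = y
    rw [MvPolynomial.aevalTower_X]
    rfl

end

theorem step {M : ℕ} (c c' : Fin (M + 1) → K) :
    Nonempty (FD K N (c (Fin.last M)) (c' (Fin.last M))
      (RR N (fun i : Fin M => c i.castSucc) (fun i : Fin M => c' i.castSucc)) ≃ₐ[K] RR N c c') := by
  set d := fun i : Fin M => c i.castSucc with hd
  set d' := fun i : Fin M => c' i.castSucc with hd'
  obtain ⟨φ, hφx, hφy⟩ := lift_R N d d' (E := RR N c c') (fun i => xv N c c' i.castSucc)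
    (fun i => yv N c c' i.castSucc) (fun j => rel_R N c c' j.castSucc)
  obtain ⟨f, hf1, hf2, hf3⟩ := lift_F N (c (Fin.last M)) (c' (Fin.last M)) (RR N d d') φ
    (xv N c c' (Fin.last M)) (yv N c c' (Fin.last M)) (rel_R N c c' (Fin.last M))
  obtain ⟨g, hg1, hg2⟩ := lift_R N c c' (E := FD K N (c (Fin.last M)) (c' (Fin.last M)) (RR N d d'))
    (fun j => Fin.lastCases (motive := fun _ => FD K N (c (Fin.last M)) (c' (Fin.last M)) (RR N d d'))
      (xd N _ _ _ 0) (fun i => ov N _ _ _ (xv N d d' i)) j)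
    (fun j => Fin.lastCases (motive := fun _ => FD K N (c (Fin.last M)) (c' (Fin.last M)) (RR N d d'))
      (xd N _ _ _ 1) (fun i => ov N _ _ _ (yv N d d' i)) j) (fun j => by
        refine Fin.lastCases ?_ (fun i => ?_) j
        · simp only [Fin.lastCases_last]
          exact rel_F N _ _ _
        · simp only [Fin.lastCases_castSucc]
          have h := congrArg (ov N (c (Fin.last M)) (c' (Fin.last M)) (RR N d d')) (rel_R N d d' i)
          rw [map_add, map_add, map_one, map_smul, map_smul, map_pow, map_pow, map_zero] at h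
          exact h)
  have hf1' : ∀ x, f (ov N _ _ _ x) = φ x := fun x => DFunLike.congr_fun hf1 x
  refine ⟨AlgEquiv.ofAlgHom f g (ext_R (fun j => ?_) (fun j => ?_)) (ext_F ?_ (fun i => ?_))⟩
  · rw [AlgHom.comp_apply, hg1, AlgHom.id_apply]
    refine Fin.lastCases ?_ (fun i => ?_) j
    · simp only [Fin.lastCases_last]
      exact hf2
    · simp only [Fin.lastCases_castSucc]
      rw [hf1', hφx]
  · rw [AlgHom.comp_apply, hg2, AlgHom.id_apply]
    refine Fin.lastCases ?_ (fun i => ?_) j
    · simp only [Fin.lastCases_last]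
      exact hf3
    · simp only [Fin.lastCases_castSucc]
      rw [hf1', hφy]
  · refine ext_R (fun j => ?_) (fun j => ?_)
    · rw [AlgHom.comp_apply, AlgHom.comp_apply, hf1', hφx, hg1, AlgHom.comp_apply, AlgHom.id_apply]
      simp only [Fin.lastCases_castSucc]
    · rw [AlgHom.comp_apply, AlgHom.comp_apply, hf1', hφy, hg2, AlgHom.comp_apply, AlgHom.id_apply]
      simp only [Fin.lastCases_castSucc]
  · rw [AlgHom.comp_apply, AlgHom.id_apply]
    fin_cases i
    · change g (f (xd N _ _ _ 0)) = xd N _ _ _ 0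
      rw [hf2, hg1]
      simp only [Fin.lastCases_last]
    · change g (f (xd N _ _ _ 1)) = xd N _ _ _ 1
      rw [hf3, hg2]
      simp only [Fin.lastCases_last]

theorem zero (c c' : Fin 0 → K) : Nonempty (K ≃ₐ[K] RR N c c') := by
  obtain ⟨g, -, -⟩ := lift_R N c c' (E := K) (fun j => j.elim0) (fun j => j.elim0)
    (fun j => j.elim0)
  exact ⟨AlgEquiv.ofAlgHom (Algebra.ofId K _) g (ext_R (fun j => j.elim0) (fun j => j.elim0))
    (Subsingleton.elim _ _)⟩

end ITEAux

open ITEAux in
theorem t_ITE : S_ITE := by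
  intro K _ Q hQ N M
  induction M with
  | zero =>
    intro c c' _ hK
    obtain ⟨e⟩ := ITEAux.zero N c c'
    exact hQ.iso e hK
  | succ M ih =>
    intro c c' h hK
    obtain ⟨e⟩ := step N c c'
    have h1 := ih (fun i => c i.castSucc) (fun i => c' i.castSucc) (fun j => h j.castSucc) hK
    exact hQ.iso e (h (Fin.last M) _ h1)

end Pool.Agent.FMS
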