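import Pool.Agent.FMS.St6

/-! # FMS, module MNA: polynomials over a ring with few monomials (helper11) -/

set_option autoImplicit false

namespace Pool.Agent.FMS

namespace MNAAux

open MvPolynomial

variable {k : Type} [CommRing k] {n m : ℕ}

theorem sum_getD {M : Type} [AddCommMonoid M] (l : List M) :
    ∀ N : ℕ, l.length ≤ N → ∑ i ∈ Finset.range N, l.getD i 0 = l.sum := by
  induction l with
  | nil =>
    intro N _
    simp
  | cons a l ih =>
    intro N hN
    obtain ⟨N', rfl⟩ : ∃ N', N = N' + 1 := ⟨N - 1, by simp at hN; omega⟩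
    rw [Finset.sum_range_succ', List.sum_cons]
    have h1 := ih N' (by simpa using hN)
    simp only [List.getD_cons_succ, List.getD_cons_zero]
    rw [h1, add_comm]

theorem getD_term (p : MvPolynomial (Fin n) k) (l : List (Fin n →₀ ℕ)) (i : ℕ) :
    ∃ (α : Fin n →₀ ℕ) (c : k),
      (l.map fun d => monomial d (coeff d p)).getD i 0 = monomial α c := by
  by_cases h : i < (l.map fun d => monomial d (coeff d p)).length
  · rw [List.getD_eq_getElem _ _ h, List.getElem_map]
    exact ⟨_, _, rfl⟩
  · rw [List.getD_eq_default _ _ (not_lt.1 h)]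
    exact ⟨0, 0, by rw [monomial_zero]⟩

theorem card_term (α : Fin n →₀ ℕ) (c : k) :
    (rename (Sum.inl : Fin n → Fin n ⊕ Fin m) (monomial α c)).support.card ≤ 1 := by
  rw [rename_monomial]
  exact (Finset.card_le_card support_monomial_subset).trans (Finset.card_singleton _).le

theorem vars_term (p : MvPolynomial (Fin n) k) (j : Fin m) :
    Sum.inr j ∉ (rename (Sum.inl : Fin n → Fin n ⊕ Fin m) p).vars := by
  classical
  intro h
  have h1 := vars_rename _ _ h
  rw [Finset.mem_image] at h1
  obtain ⟨x, _, hx⟩ := h1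
  exact Sum.inl_ne_inr hx

theorem aeval_term (s : Fin m → MvPolynomial (Fin n) k) (p : MvPolynomial (Fin n) k) :
    aeval (Sum.elim X s) (rename (Sum.inl : Fin n → Fin n ⊕ Fin m) p) = p := by
  rw [aeval_rename, Sum.elim_comp_inl, aeval_X_left, AlgHom.id_apply]

theorem card_add {σ : Type} (p q : MvPolynomial σ k) (hp : p.support.card ≤ 1)
    (hq : q.support.card ≤ 1) : (p + q).support.card ≤ 2 := by
  classical
  refine (Finset.card_le_card support_add).trans ((Finset.card_union_le _ _).trans ?_)
  omega

/-- The sums of the first terms. -/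
theorem two_sum (M : ℕ → MvPolynomial (Fin n) k) (hM : ∀ i, ∃ α c, M i = monomial α c) (i : ℕ)
    (hi : i ≤ m) : TwoA (fun j : Fin m => ∑ l ∈ Finset.range ((j : ℕ) + 2), M l) i
      (∑ l ∈ Finset.range (i + 2), M l) := by
  classical
  rcases i with _ | i
  · obtain ⟨α, c, h0⟩ := hM 0
    obtain ⟨β, d, h1⟩ := hM 1
    refine ⟨rename Sum.inl (M 0) + rename Sum.inl (M 1), ?_, ?_, ?_⟩
    · rw [h0, h1]
      exact card_add _ _ (card_term α c) (card_term β d)
    · intro j hj
      rcases Finset.mem_union.1 (vars_add_subset _ _ hj) with h | h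
      · exact absurd h (vars_term _ j)
      · exact absurd h (vars_term _ j)
    · rw [map_add, aeval_term, aeval_term, zero_add, Finset.sum_range_succ, Finset.sum_range_one]
  · obtain ⟨α, c, h0⟩ := hM (i + 2)
    obtain ⟨j₀, hj₀⟩ : ∃ j₀ : Fin m, (j₀ : ℕ) = i := ⟨⟨i, by omega⟩, rfl⟩
    refine ⟨X (Sum.inr j₀) + rename Sum.inl (M (i + 2)), ?_, ?_, ?_⟩
    · rw [h0]
      refine card_add _ _ ?_ (card_term α c)
      exact (Finset.card_le_card support_monomial_subset).trans (Finset.card_singleton _).le
    · intro j hj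
      rcases Finset.mem_union.1 (vars_add_subset _ _ hj) with h | h
      · rcases subsingleton_or_nontrivial k with hk | hk
        · rw [Subsingleton.elim (X (Sum.inr j₀) : MvPolynomial (Fin n ⊕ Fin m) k) 0, vars_0] at h
          exact absurd h (Finset.notMem_empty _)
        · rw [vars_X, Finset.mem_singleton] at h
          rw [Sum.inr.inj h, hj₀]
          omega
      · exact absurd h (vars_term _ j)
    · rw [map_add, aeval_term, aeval_X, Sum.elim_inr, hj₀]
      rw [Finset.sum_range_succ _ (i + 2)]

end MNAAux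

open MNAAux MvPolynomial in
theorem t_MNA : S_MNA := by
  intro k _ m n p hp
  classical
  obtain ⟨M, hM⟩ : ∃ M : ℕ → MvPolynomial (Fin n) k, M = fun i =>
    (p.support.toList.map fun d => monomial d (coeff d p)).getD i 0 := ⟨_, rfl⟩
  have hM1 : ∀ i, ∃ α c, M i = monomial α c := by
    intro i
    rw [hM]
    exact getD_term p _ i
  have hM2 : ∑ l ∈ Finset.range (m + 2), M l = p := by
    rw [hM, sum_getD _ _ (by rw [List.length_map, Finset.length_toList]; exact hp),
      Finset.sum_map_toList]
    exact p.support_sum_monomial_coeff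
  refine ⟨fun j : Fin m => ∑ l ∈ Finset.range ((j : ℕ) + 2), M l,
    fun i => two_sum M hM1 i i.2.le, fun _ => ?_⟩
  have h := two_sum (m := m) M hM1 m le_rfl
  rwa [hM2] at h

end Pool.Agent.FMS
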