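import Pool.Agent.FMS.St4
import Pool.Agent.FMS.PKC

/-!
# FMS, module MVT: change of the base of a quotient of a polynomial algebra
-/

set_option autoImplicit false

open TensorProduct

namespace Pool.Agent.FMS

namespace MVTAux

variable {k : Type} [Field k] {n : ℕ} {ι : Type} (g : ι → MvPolynomial (Fin n) k) (R : Type)
  [CommRing R] [Algebra k R]

/-- The algebra of the system over `k`. -/
abbrev Lf : Type := MvPolynomial (Fin n) k ⧸ Ideal.span (Set.range g)

/-- The algebra of the system over `R`. -/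
abbrev Rt : Type := MvPolynomial (Fin n) R ⧸ Ideal.span (Set.range fun i =>
  MvPolynomial.map (algebraMap k R) (g i))

/-- From polynomials over `k` to the algebra over `R`. -/
noncomputable def up0 : MvPolynomial (Fin n) k →ₐ[k] Rt g R :=
  MvPolynomial.aeval fun i => Ideal.Quotient.mk _ (MvPolynomial.X i)

theorem up0_eq (p : MvPolynomial (Fin n) k) :
    up0 g R p = Ideal.Quotient.mk _ (MvPolynomial.map (algebraMap k R) p) := by
  induction p using MvPolynomial.induction_on with
  | C a =>
    rw [MvPolynomial.map_C]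
    exact (up0 g R).commutes a
  | add p q hp hq => rw [map_add, map_add, map_add, hp, hq]
  | mul_X p i hp =>
    rw [map_mul, map_mul, map_mul, hp, MvPolynomial.map_X]
    congr 1
    exact MvPolynomial.aeval_X _ i

theorem up0_ker (p : MvPolynomial (Fin n) k) (hp : p ∈ Ideal.span (Set.range g)) :
    up0 g R p = 0 := by
  have h : Ideal.span (Set.range g) ≤ RingHom.ker (up0 g R).toRingHom := by
    rw [Ideal.span_le]
    rintro _ ⟨i, rfl⟩
    show up0 g R (g i) = 0
    rw [up0_eq, Ideal.Quotient.eq_zero_iff_mem]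
    exact Ideal.subset_span ⟨i, rfl⟩
  exact h hp

/-- From the algebra over `k` to the algebra over `R`. -/
noncomputable def up1 : Lf g →ₐ[k] Rt g R := Ideal.Quotient.liftₐ _ (up0 g R) (up0_ker g R)

theorem up1_mk (p : MvPolynomial (Fin n) k) : up1 g R (Ideal.Quotient.mk _ p) =
    Ideal.Quotient.mk _ (MvPolynomial.map (algebraMap k R) p) := up0_eq g R p

/-- From the tensor product. -/
noncomputable def fw : (Lf g ⊗[k] R) →ₐ[k] Rt g R :=
  Algebra.TensorProduct.productMap (up1 g R) (IsScalarTower.toAlgHom k R (Rt g R))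

theorem fw_tmul (a : Lf g) (b : R) :
    fw g R (a ⊗ₜ[k] b) = up1 g R a * algebraMap R (Rt g R) b := rfl

section Gen

variable {T : Type} [CommRing T] (a : Lf g →+* T) (b : R →+* T)
  (hab : ∀ r : k, a (algebraMap k (Lf g) r) = b (algebraMap k R r))

/-- From polynomials over `R` to a ring. -/
noncomputable def g0 : MvPolynomial (Fin n) R →+* T :=
  MvPolynomial.eval₂Hom b fun i => a (Ideal.Quotient.mk _ (MvPolynomial.X i))

omit [Algebra k R] in
theorem g0_C (r : R) : g0 g R a b (MvPolynomial.C r) = b r := MvPolynomial.eval₂_C _ _ r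

omit [Algebra k R] in
theorem g0_X (i : Fin n) : g0 g R a b (MvPolynomial.X i) =
    a (Ideal.Quotient.mk _ (MvPolynomial.X i)) := MvPolynomial.eval₂_X _ _ i

include hab in
theorem g0_map (p : MvPolynomial (Fin n) k) :
    g0 g R a b (MvPolynomial.map (algebraMap k R) p) = a (Ideal.Quotient.mk _ p) := by
  induction p using MvPolynomial.induction_on with
  | C r =>
    rw [MvPolynomial.map_C, g0_C]
    exact (hab r).symm
  | add p q hp hq => rw [map_add, map_add, hp, hq, map_add, map_add]
  | mul_X p i hp => rw [map_mul, map_mul, map_mul, hp, MvPolynomial.map_X, g0_X, map_mul]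

include hab in
theorem g0_ker (p : MvPolynomial (Fin n) R)
    (hp : p ∈ Ideal.span (Set.range fun i => MvPolynomial.map (algebraMap k R) (g i))) :
    g0 g R a b p = 0 := by
  have h : Ideal.span (Set.range fun i => MvPolynomial.map (algebraMap k R) (g i)) ≤
      RingHom.ker (g0 g R a b) := by
    rw [Ideal.span_le]
    rintro _ ⟨i, rfl⟩
    show g0 g R a b (MvPolynomial.map (algebraMap k R) (g i)) = 0
    have h1 : (Ideal.Quotient.mk _ (g i) : Lf g) = 0 :=
      Ideal.Quotient.eq_zero_iff_mem.2 (Ideal.subset_span ⟨i, rfl⟩)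
    rw [g0_map g R a b hab, h1, map_zero]
  exact h hp

/-- From the algebra over `R` to a ring. -/
noncomputable def g1 : Rt g R →+* T :=
  Ideal.Quotient.lift _ (g0 g R a b) (g0_ker g R a b hab)

theorem g1_mk (p : MvPolynomial (Fin n) R) :
    g1 g R a b hab (Ideal.Quotient.mk _ p) = g0 g R a b p := rfl

end Gen

theorem comm_k (r : k) : (Algebra.TensorProduct.includeLeftRingHom : Lf g →+* Lf g ⊗[k] R)
    (algebraMap k (Lf g) r) = (Algebra.TensorProduct.includeRight : R →ₐ[k] Lf g ⊗[k] R).toRingHom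
      (algebraMap k R r) := by
  show (algebraMap k (Lf g) r) ⊗ₜ[k] (1 : R) = (1 : Lf g) ⊗ₜ[k] (algebraMap k R r)
  rw [Algebra.algebraMap_eq_smul_one, Algebra.algebraMap_eq_smul_one,
    TensorProduct.tmul_smul, TensorProduct.smul_tmul']

/-- From the algebra over `R` to the tensor product. -/
noncomputable def bw : Rt g R →+* (Lf g ⊗[k] R) :=
  g1 (T := Lf g ⊗[k] R) g R (Algebra.TensorProduct.includeLeftRingHom : Lf g →+* Lf g ⊗[k] R)
    (Algebra.TensorProduct.includeRight : R →ₐ[k] Lf g ⊗[k] R).toRingHom (comm_k g R)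

theorem bw_C (r : R) : bw g R (algebraMap R (Rt g R) r) = (1 : Lf g) ⊗ₜ[k] r := by
  show bw g R (Ideal.Quotient.mk _ (MvPolynomial.C r)) = _
  unfold bw
  rw [g1_mk, g0_C]
  rfl

theorem bw_X (i : Fin n) : bw g R (Ideal.Quotient.mk _ (MvPolynomial.X i)) =
    (Ideal.Quotient.mk _ (MvPolynomial.X i) : Lf g) ⊗ₜ[k] (1 : R) := by
  unfold bw
  rw [g1_mk, g0_X]
  rfl

theorem bw_map (p : MvPolynomial (Fin n) k) :
    bw g R (Ideal.Quotient.mk _ (MvPolynomial.map (algebraMap k R) p)) =
      (Ideal.Quotient.mk _ p : Lf g) ⊗ₜ[k] (1 : R) := by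
  unfold bw
  rw [g1_mk, g0_map _ _ _ _ (comm_k g R)]
  rfl

theorem bw_fw : (bw g R).comp (fw g R).toRingHom = RingHom.id _ := by
  refine RingHom.ext fun t => ?_
  induction t with
  | zero => rw [map_zero, map_zero]
  | tmul a b =>
    obtain ⟨p, rfl⟩ := Ideal.Quotient.mk_surjective a
    show bw g R (fw g R ((Ideal.Quotient.mk _ p : Lf g) ⊗ₜ[k] b)) = _
    rw [fw_tmul, map_mul, up1_mk, bw_map, bw_C, Algebra.TensorProduct.tmul_mul_tmul, mul_one,
      one_mul, RingHom.id_apply]
  | add x y hx hy => rw [map_add, map_add, hx, hy]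

theorem fw_bw : ((fw g R).toRingHom).comp (bw g R) = RingHom.id _ := by
  refine Ideal.Quotient.ringHom_ext (MvPolynomial.ringHom_ext (fun r => ?_) fun i => ?_)
  · show fw g R (bw g R (algebraMap R (Rt g R) r)) = algebraMap R (Rt g R) r
    rw [bw_C, fw_tmul, map_one, one_mul]
  · show fw g R (bw g R (Ideal.Quotient.mk _ (MvPolynomial.X i))) =
      Ideal.Quotient.mk _ (MvPolynomial.X i)
    rw [bw_X, fw_tmul, map_one, mul_one, up1_mk, MvPolynomial.map_X]

end MVTAux

open MVTAux in
theorem t_MVT : S_MVT := fun _ _ _ _ g R _ _ =>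
  ⟨AlgEquiv.ofRingEquiv (f := RingEquiv.ofRingHom (fw g R).toRingHom (bw g R) (fw_bw g R)
    (bw_fw g R)) fun r => (fw g R).commutes r⟩

end Pool.Agent.FMS
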