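import Pool.Agent.FMS.St2

/-!
# FMS_MXM: several more equations (MP_cb388a_ag)
-/

set_option autoImplicit false

namespace Pool.Agent.FMS

open FMO (Univ)

namespace MXMAux

section

variable {k : Type} [Field k] {C : Type} [CommRing C] [Algebra k C] {r s : ℕ}

/-- The structure map of `QM σ a e c` as a homomorphism of `k`-algebras. -/
noncomputable def inc (k : Type) [Field k] {C : Type} [CommRing C] [Algebra k C] {r s : ℕ}
    (σ : Fin r → Fin s) (a : Fin r → C) (e : Fin r → ℕ) (c : Fin s → C) : C →ₐ[k] QM σ a e c :=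
  (Ideal.Quotient.mkₐ k (Ideal.span (Set.range (qm σ a e c)))).comp
    (IsScalarTower.toAlgHom k C (MvPolynomial (Fin r) C))

/-- The relations. -/
theorem rel (σ : Fin r → Fin s) (a : Fin r → C) (e : Fin r → ℕ) (c : Fin s → C) (i : Fin s) :
    ∑ j with σ j = i, inc k σ a e c (a j) *
      (Ideal.Quotient.mk (Ideal.span (Set.range (qm σ a e c))) (MvPolynomial.X j)) ^ e j +
      inc k σ a e c (c i) = 0 := by
  have h : Ideal.Quotient.mk (Ideal.span (Set.range (qm σ a e c))) (qm σ a e c i) = 0 :=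
    Ideal.Quotient.eq_zero_iff_mem.2 (Ideal.subset_span ⟨i, rfl⟩)
  unfold qm at h
  rw [map_add, map_sum] at h
  simp only [map_mul, map_pow] at h
  exact h

variable {V : Type}

theorem aeval_ren {A B : Type} [CommRing A] [Algebra k A] [CommRing B] [Algebra k B]
    (φ : V → A) (g : A →ₐ[k] B) (Φ : V ⊕ Fin r → B) (h : ∀ v, Φ (Sum.inl v) = g (φ v))
    (p : MvPolynomial V k) :
    MvPolynomial.aeval Φ (MvPolynomial.rename Sum.inl p) = g (MvPolynomial.aeval φ p) := by
  rw [MvPolynomial.aeval_rename]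
  have h1 : Φ ∘ Sum.inl = fun v => g (φ v) := funext h
  rw [h1]
  have h2 : (MvPolynomial.aeval (fun v => g (φ v)) : MvPolynomial V k →ₐ[k] B) =
      g.comp (MvPolynomial.aeval φ) := by
    apply MvPolynomial.algHom_ext
    intro v
    simp
  rw [h2]
  rfl

end

end MXMAux

open MXMAux in
theorem t_MXM : S_MXM := by
  intro k _ V ι r s f σ b e c U Z C _ _ φ hφ
  set a : Fin r → C := fun j => MvPolynomial.aeval φ (b j) with ha
  set c0 : Fin s → C := fun i => MvPolynomial.aeval φ (c i) with hc0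
  set Φ : V ⊕ Fin r → QM σ a e c0 :=
    Sum.elim (fun v => Ideal.Quotient.mk _ (MvPolynomial.C (φ v)))
      fun j => Ideal.Quotient.mk _ (MvPolynomial.X j) with hΦ
  have hl : ∀ v, Φ (Sum.inl v) = inc k σ a e c0 (φ v) := fun v => rfl
  have hr : ∀ j, Φ (Sum.inr j) =
    Ideal.Quotient.mk (Ideal.span (Set.range (qm σ a e c0))) (MvPolynomial.X j) := fun j => rfl
  refine ⟨?_, ?_, ?_, ?_, ?_⟩
  · rintro (i | i)
    · show MvPolynomial.aeval Φ (MvPolynomial.rename Sum.inl (f i)) = 0
      rw [aeval_ren φ (inc k σ a e c0) Φ hl, hφ.sat i, map_zero]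
    · show MvPolynomial.aeval Φ (∑ j with σ j = i, MvPolynomial.rename Sum.inl (b j) *
        MvPolynomial.X (Sum.inr j) ^ e j + MvPolynomial.rename Sum.inl (c i)) = 0
      rw [map_add, map_sum, aeval_ren φ (inc k σ a e c0) Φ hl]
      have h1 : ∀ j, MvPolynomial.aeval Φ (MvPolynomial.rename Sum.inl (b j) *
          MvPolynomial.X (Sum.inr j) ^ e j) = inc k σ a e c0 (a j) *
          (Ideal.Quotient.mk (Ideal.span (Set.range (qm σ a e c0)))
            (MvPolynomial.X j)) ^ e j := by
        intro j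
        rw [map_mul, map_pow, aeval_ren φ (inc k σ a e c0) Φ hl, MvPolynomial.aeval_X, hr]
      rw [Finset.sum_congr rfl fun j _ => h1 j]
      exact rel σ a e c0 i
  · rintro _ ⟨v, hv, rfl⟩
    rw [hl]
    exact (hφ.unit v hv).map _
  · rintro _ ⟨v, hv, rfl⟩
    rw [hl, hφ.zero v hv, map_zero]
  · intro D _ _ ψ h1 h2 h3
    obtain ⟨g, hg⟩ := hφ.lift D (fun v => ψ (Sum.inl v)) (fun i => by
      have := h1 (Sum.inl i)
      have h4 : MvPolynomial.aeval ψ (MvPolynomial.rename Sum.inl (f i)) = 0 := this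
      rw [MvPolynomial.aeval_rename] at h4
      exact h4) (fun v hv => h2 _ ⟨v, hv, rfl⟩) (fun v hv => h3 _ ⟨v, hv, rfl⟩)
    have hg' : ∀ p : MvPolynomial V k,
        MvPolynomial.aeval ψ (MvPolynomial.rename Sum.inl p) = g (MvPolynomial.aeval φ p) :=
      fun p => aeval_ren φ g ψ (fun v => (hg v).symm) p
    have hq : ∀ i, MvPolynomial.eval₂Hom (g : C →+* D) (fun j => ψ (Sum.inr j))
        (qm σ a e c0 i) = 0 := by
      intro i
      have h4 : MvPolynomial.aeval ψ (∑ j with σ j = i, MvPolynomial.rename Sum.inl (b j) *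
          MvPolynomial.X (Sum.inr j) ^ e j + MvPolynomial.rename Sum.inl (c i)) = 0 :=
        h1 (Sum.inr i)
      rw [map_add, map_sum, hg'] at h4
      unfold qm
      rw [map_add, map_sum, MvPolynomial.coe_eval₂Hom, MvPolynomial.eval₂_C]
      refine Eq.trans ?_ h4
      congr 1
      refine Finset.sum_congr rfl fun j _ => ?_
      rw [map_mul, map_pow, hg', MvPolynomial.aeval_X, MvPolynomial.eval₂_mul,
        MvPolynomial.eval₂_C, MvPolynomial.eval₂_pow, MvPolynomial.eval₂_X]
      rfl
    have hI : ∀ x ∈ Ideal.span (Set.range (qm σ a e c0)),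
        MvPolynomial.eval₂Hom (g : C →+* D) (fun j => ψ (Sum.inr j)) x = 0 := by
      intro x hx
      have h5 : Ideal.span (Set.range (qm σ a e c0)) ≤
          RingHom.ker (MvPolynomial.eval₂Hom (g : C →+* D) fun j => ψ (Sum.inr j)) := by
        rw [Ideal.span_le]
        rintro _ ⟨i, rfl⟩
        exact hq i
      exact h5 hx
    refine ⟨{ Ideal.Quotient.lift (Ideal.span (Set.range (qm σ a e c0))) _ hI with
      commutes' := fun x => ?_ }, ?_⟩
    · show Ideal.Quotient.lift (Ideal.span (Set.range (qm σ a e c0))) _ hI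
        (algebraMap k (QM σ a e c0) x) = _
      have h4 : algebraMap k (QM σ a e c0) x =
          Ideal.Quotient.mk _ (MvPolynomial.C (algebraMap k C x)) := rfl
      rw [h4, Ideal.Quotient.lift_mk, MvPolynomial.coe_eval₂Hom, MvPolynomial.eval₂_C]
      exact g.commutes x
    · rintro (v | j)
      · show Ideal.Quotient.lift (Ideal.span (Set.range (qm σ a e c0))) _ hI
          (Ideal.Quotient.mk _ (MvPolynomial.C (φ v))) = _
        rw [Ideal.Quotient.lift_mk, MvPolynomial.coe_eval₂Hom, MvPolynomial.eval₂_C]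
        exact hg v
      · show Ideal.Quotient.lift (Ideal.span (Set.range (qm σ a e c0))) _ hI
          (Ideal.Quotient.mk _ (MvPolynomial.X j)) = _
        rw [Ideal.Quotient.lift_mk, MvPolynomial.coe_eval₂Hom, MvPolynomial.eval₂_X]
  · intro D _ _ g h hgh
    have h1 : g.comp (inc k σ a e c0) = h.comp (inc k σ a e c0) :=
      hφ.ext D _ _ fun v => hgh (Sum.inl v)
    apply AlgHom.ext
    intro x
    obtain ⟨p, rfl⟩ := Ideal.Quotient.mk_surjective x
    have h2 : ((g : QM σ a e c0 →+* D).comp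
        (Ideal.Quotient.mk (Ideal.span (Set.range (qm σ a e c0))))) =
        ((h : QM σ a e c0 →+* D).comp
          (Ideal.Quotient.mk (Ideal.span (Set.range (qm σ a e c0))))) := by
      apply MvPolynomial.ringHom_ext
      · intro y
        exact DFunLike.congr_fun h1 y
      · intro j
        exact hgh (Sum.inr j)
    exact DFunLike.congr_fun h2 p

end Pool.Agent.FMS
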