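import Pool.Agent.FMS.St6

/-!
# FMS_MXS: more equations with given monomials (MP_cb388a_ag)
-/

set_option autoImplicit false

namespace Pool.Agent.FMS

open FMO (Univ)

namespace MXSAux

section

variable {k : Type} [Field k] {C : Type} [CommRing C] [Algebra k C] {l r : ℕ}

/-- The structure map of `SA S a` as a homomorphism of `k`-algebras. -/
noncomputable def inc (k : Type) [Field k] {C : Type} [CommRing C] [Algebra k C] {l r : ℕ}
    (S : Fin r → Finset (Fin l →₀ ℕ)) (a : Fin r → (Fin l →₀ ℕ) → C) : C →ₐ[k] SA S a :=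
  (Ideal.Quotient.mkₐ k (Ideal.span (Set.range (sS S a)))).comp
    (IsScalarTower.toAlgHom k C (MvPolynomial (Fin l) C))

theorem mk_mono (S : Fin r → Finset (Fin l →₀ ℕ)) (a : Fin r → (Fin l →₀ ℕ) → C)
    (α : Fin l →₀ ℕ) (y : C) :
    Ideal.Quotient.mk (Ideal.span (Set.range (sS S a))) (MvPolynomial.monomial α y) =
      inc k S a y * α.prod fun i e =>
        (Ideal.Quotient.mk (Ideal.span (Set.range (sS S a))) (MvPolynomial.X i)) ^ e := by
  rw [MvPolynomial.monomial_eq, map_mul, map_finsuppProd]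
  simp only [map_pow]
  rfl

/-- The relations. -/
theorem rel (S : Fin r → Finset (Fin l →₀ ℕ)) (a : Fin r → (Fin l →₀ ℕ) → C) (j : Fin r) :
    ∑ α ∈ S j, inc k S a (a j α) * (α.prod fun i e =>
        (Ideal.Quotient.mk (Ideal.span (Set.range (sS S a))) (MvPolynomial.X i)) ^ e) = 0 := by
  have h : Ideal.Quotient.mk (Ideal.span (Set.range (sS S a))) (sS S a j) = 0 :=
    Ideal.Quotient.eq_zero_iff_mem.2 (Ideal.subset_span ⟨j, rfl⟩)
  have e : sS S a j = ∑ α ∈ S j, MvPolynomial.monomial α (a j α) := rfl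
  rw [e, map_sum] at h
  refine Eq.trans ?_ h
  exact Finset.sum_congr rfl fun α _ => (mk_mono S a α (a j α)).symm

variable {V : Type}

theorem aeval_ren {A B : Type} [CommRing A] [Algebra k A] [CommRing B] [Algebra k B]
    (φ : V → A) (g : A →ₐ[k] B) (Φ : V ⊕ Fin l → B) (h : ∀ v, Φ (Sum.inl v) = g (φ v))
    (p : MvPolynomial V k) :
    MvPolynomial.aeval Φ (MvPolynomial.rename Sum.inl p) = g (MvPolynomial.aeval φ p) := by
  rw [MvPolynomial.aeval_rename]
  have h1 : Φ ∘ Sum.inl = fun v => g (φ v) := funext h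
  rw [h1]
  have h2 : (MvPolynomial.aeval (fun v => g (φ v)) : MvPolynomial V k →ₐ[k] B) =
      g.comp (MvPolynomial.aeval φ) := by
    apply MvPolynomial.algHom_ext
    intro v
    simp
  rw [h2]
  rfl

theorem aeval_mono {B : Type} [CommRing B] [Algebra k B] (Φ : V ⊕ Fin l → B) (α : Fin l →₀ ℕ) :
    MvPolynomial.aeval Φ (MvPolynomial.rename Sum.inr (MvPolynomial.monomial α (1 : k))) =
      α.prod fun i e => Φ (Sum.inr i) ^ e := by
  rw [MvPolynomial.aeval_rename, MvPolynomial.aeval_monomial, map_one, one_mul]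
  rfl

end

end MXSAux

open MXSAux in
theorem t_MXS : S_MXS := by
  intro k _ V ι l r f S b U Z C _ _ φ hφ
  set a : Fin r → (Fin l →₀ ℕ) → C := fun j α => MvPolynomial.aeval φ (b j α) with ha
  set Φ : V ⊕ Fin l → SA S a :=
    Sum.elim (fun v => Ideal.Quotient.mk _ (MvPolynomial.C (φ v)))
      fun j => Ideal.Quotient.mk _ (MvPolynomial.X j) with hΦ
  have hl : ∀ v, Φ (Sum.inl v) = inc k S a (φ v) := fun v => rfl
  have hr : ∀ j, Φ (Sum.inr j) =
    Ideal.Quotient.mk (Ideal.span (Set.range (sS S a))) (MvPolynomial.X j) := fun j => rfl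
  refine ⟨?_, ?_, ?_, ?_, ?_⟩
  · rintro (i | j)
    · show MvPolynomial.aeval Φ (MvPolynomial.rename Sum.inl (f i)) = 0
      rw [aeval_ren φ (inc k S a) Φ hl, hφ.sat i, map_zero]
    · show MvPolynomial.aeval Φ (∑ α ∈ S j, MvPolynomial.rename Sum.inl (b j α) *
        MvPolynomial.rename Sum.inr (MvPolynomial.monomial α (1 : k))) = 0
      rw [map_sum]
      have h1 : ∀ α, MvPolynomial.aeval Φ (MvPolynomial.rename Sum.inl (b j α) *
          MvPolynomial.rename Sum.inr (MvPolynomial.monomial α (1 : k))) =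
          inc k S a (a j α) * (α.prod fun i e =>
            (Ideal.Quotient.mk (Ideal.span (Set.range (sS S a))) (MvPolynomial.X i)) ^ e) := by
        intro α
        rw [map_mul, aeval_ren φ (inc k S a) Φ hl, aeval_mono]
        rfl
      rw [Finset.sum_congr rfl fun α _ => h1 α]
      exact rel S a j
  · rintro _ ⟨v, hv, rfl⟩
    rw [hl]
    exact (hφ.unit v hv).map _
  · rintro _ ⟨v, hv, rfl⟩
    rw [hl, hφ.zero v hv, map_zero]
  · intro D _ _ ψ h1 h2 h3
    obtain ⟨g, hg⟩ := hφ.lift D (fun v => ψ (Sum.inl v)) (fun i => by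
      have := h1 (Sum.inl i)
      have h4 : MvPolynomial.aeval ψ (MvPolynomial.rename Sum.inl (f i)) = 0 := this
      rw [MvPolynomial.aeval_rename] at h4
      exact h4) (fun v hv => h2 _ ⟨v, hv, rfl⟩) (fun v hv => h3 _ ⟨v, hv, rfl⟩)
    have hg' : ∀ p : MvPolynomial V k,
        MvPolynomial.aeval ψ (MvPolynomial.rename Sum.inl p) = g (MvPolynomial.aeval φ p) :=
      fun p => aeval_ren φ g ψ (fun v => (hg v).symm) p
    have hq : ∀ j, MvPolynomial.eval₂Hom (g : C →+* D) (fun i => ψ (Sum.inr i))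
        (sS S a j) = 0 := by
      intro j
      have h4 : MvPolynomial.aeval ψ (∑ α ∈ S j, MvPolynomial.rename Sum.inl (b j α) *
          MvPolynomial.rename Sum.inr (MvPolynomial.monomial α (1 : k))) = 0 :=
        h1 (Sum.inr j)
      rw [map_sum] at h4
      have e : sS S a j = ∑ α ∈ S j, MvPolynomial.monomial α (a j α) := rfl
      rw [e, map_sum]
      refine Eq.trans ?_ h4
      refine Finset.sum_congr rfl fun α _ => ?_
      rw [map_mul, hg', aeval_mono, MvPolynomial.coe_eval₂Hom, MvPolynomial.eval₂_monomial]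
      rfl
    have hI : ∀ x ∈ Ideal.span (Set.range (sS S a)),
        MvPolynomial.eval₂Hom (g : C →+* D) (fun j => ψ (Sum.inr j)) x = 0 := by
      intro x hx
      have h5 : Ideal.span (Set.range (sS S a)) ≤
          RingHom.ker (MvPolynomial.eval₂Hom (g : C →+* D) fun j => ψ (Sum.inr j)) := by
        rw [Ideal.span_le]
        rintro _ ⟨i, rfl⟩
        exact hq i
      exact h5 hx
    refine ⟨{ Ideal.Quotient.lift (Ideal.span (Set.range (sS S a))) _ hI with
      commutes' := fun x => ?_ }, ?_⟩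
    · show Ideal.Quotient.lift (Ideal.span (Set.range (sS S a))) _ hI
        (algebraMap k (SA S a) x) = _
      have h4 : algebraMap k (SA S a) x =
          Ideal.Quotient.mk _ (MvPolynomial.C (algebraMap k C x)) := rfl
      rw [h4, Ideal.Quotient.lift_mk, MvPolynomial.coe_eval₂Hom, MvPolynomial.eval₂_C]
      exact g.commutes x
    · rintro (v | j)
      · show Ideal.Quotient.lift (Ideal.span (Set.range (sS S a))) _ hI
          (Ideal.Quotient.mk _ (MvPolynomial.C (φ v))) = _
        rw [Ideal.Quotient.lift_mk, MvPolynomial.coe_eval₂Hom, MvPolynomial.eval₂_C]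
        exact hg v
      · show Ideal.Quotient.lift (Ideal.span (Set.range (sS S a))) _ hI
          (Ideal.Quotient.mk _ (MvPolynomial.X j)) = _
        rw [Ideal.Quotient.lift_mk, MvPolynomial.coe_eval₂Hom, MvPolynomial.eval₂_X]
  · intro D _ _ g h hgh
    have h1 : g.comp (inc k S a) = h.comp (inc k S a) :=
      hφ.ext D _ _ fun v => hgh (Sum.inl v)
    apply AlgHom.ext
    intro x
    obtain ⟨p, rfl⟩ := Ideal.Quotient.mk_surjective x
    have h2 : ((g : SA S a →+* D).comp
        (Ideal.Quotient.mk (Ideal.span (Set.range (sS S a))))) =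
        ((h : SA S a →+* D).comp
          (Ideal.Quotient.mk (Ideal.span (Set.range (sS S a))))) := by
      apply MvPolynomial.ringHom_ext
      · intro y
        exact DFunLike.congr_fun h1 y
      · intro j
        exact hgh (Sum.inr j)
    exact DFunLike.congr_fun h2 p

end Pool.Agent.FMS
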