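import Pool.Agent.FMS.St

/-!
# Project FMS, module NLP: nilpotents
-/

set_option autoImplicit false

open Polynomial

namespace Pool.Agent.FMS

/-- NLP: the algebra `A[X] / (X ^ n)`. -/
theorem t_NLP : S_NLP := by
  intro K _ Q hQ A _ _ _ hA n
  rcases Nat.eq_zero_or_pos n with rfl | hn
  · refine hQ.triv _ (subsingleton_of_zero_eq_one ?_)
    rw [← map_one (AdjoinRoot.mk (X ^ 0 : A[X])), eq_comm, AdjoinRoot.mk_eq_zero]
    exact ⟨1, by rw [pow_zero, one_mul]⟩
  · have h0 : (X ^ n : A[X]).eval₂ (algebraMap A A) 0 = 0 := by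
      rw [eval₂_X_pow, zero_pow hn.ne']
    let z : AdjoinRoot (X ^ n : A[X]) →ₐ[K] A :=
      (AdjoinRoot.liftAlgHom (X ^ n : A[X]) (AlgHom.id A A) 0 h0).restrictScalars K
    have hz : ∀ p : A[X], z (AdjoinRoot.mk _ p) = p.coeff 0 := by
      intro p
      change AdjoinRoot.liftAlgHom (X ^ n : A[X]) (AlgHom.id A A) 0 h0 (AdjoinRoot.mk _ p) = _
      rw [AdjoinRoot.liftAlgHom_mk]
      change p.eval₂ (RingHom.id A) 0 = _
      rw [← eval, coeff_zero_eq_eval_zero]
    let u : AdjoinRoot (X ^ n : A[X]) →ₐ[K] Localization.Away (AdjoinRoot.root (X ^ n : A[X])) :=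
      IsScalarTower.toAlgHom K _ _
    have hx : (AdjoinRoot.root (X ^ n : A[X])) ^ n = 0 := by
      rw [← AdjoinRoot.mk_X, ← map_pow, AdjoinRoot.mk_self]
    have hs : FMO.Strat (AdjoinRoot.root (X ^ n : A[X])) z u := by
      refine ⟨?_, ?_, ?_⟩
      · intro a
        exact ⟨AdjoinRoot.mk _ (C a), by rw [hz, coeff_C_zero]⟩
      · ext r
        obtain ⟨p, rfl⟩ := AdjoinRoot.mk_surjective r
        rw [RingHom.mem_ker, Ideal.mem_span_singleton]
        change z (AdjoinRoot.mk _ p) = 0 ↔ _
        rw [hz, ← AdjoinRoot.mk_X]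
        constructor
        · intro h
          exact map_dvd _ (X_dvd_iff.2 h)
        · rintro ⟨s, hs⟩
          obtain ⟨g, rfl⟩ := AdjoinRoot.mk_surjective s
          rw [← map_mul, AdjoinRoot.mk_eq_mk] at hs
          have h1 : (X : A[X]) ∣ p - X * g := (dvd_pow_self _ hn.ne').trans hs
          have h2 := X_dvd_iff.1 h1
          rwa [coeff_sub, mul_coeff_zero, coeff_X_zero, zero_mul, sub_zero] at h2
      · have h2 : u.toRingHom.toAlgebra = (inferInstance : Algebra (AdjoinRoot (X ^ n : A[X]))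
            (Localization.Away (AdjoinRoot.root (X ^ n : A[X])))) := by
          apply Algebra.algebra_ext
          intro _
          rfl
        rw [h2]
        infer_instance
    have hU : Subsingleton (Localization.Away (AdjoinRoot.root (X ^ n : A[X]))) :=
      IsLocalization.subsingleton (M := Submonoid.powers (AdjoinRoot.root (X ^ n : A[X])))
        ⟨n, hx⟩
    exact hQ.glue _ z u hs hA (hQ.triv _ hU)

end Pool.Agent.FMS
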