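import Pool.Agent.FMS.St5

/-!
# FMS, module OV1: a curve, one affine Fermat curve, lines and finite sets
-/

set_option autoImplicit false

open CategoryTheory AlgebraicGeometry TensorProduct Cardinal

namespace Pool.Agent.FMS

open Pool.Agent.Lib_helper55.Beil (Var)
open UQ (Mo DimLE sp szer)
open FMO (Univ Few Add CompX Comp Kp)
open FMQ (FreeCl Dels Fermat ferm)
open LFQ (BM)
open QCV (DL)

namespace OV1Aux

section Split

variable (k : Type) [Field k] {A : Type} [CommRing A] [Algebra k A]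

/-- Polynomials in some of the variables generate the ideal: the other variables are free. -/
theorem split {V F ι : Type} (g : ι → MvPolynomial V A) :
    Nonempty ((MvPolynomial (F ⊕ V) A ⧸ Ideal.span (Set.range fun i =>
      MvPolynomial.rename (Sum.inr : V → F ⊕ V) (g i))) ≃ₐ[k]
      MvPolynomial F (MvPolynomial V A ⧸ Ideal.span (Set.range g))) := by
  let e1 := Ideal.quotientEquivAlg (Ideal.span (Set.range fun i =>
      MvPolynomial.rename (Sum.inr : V → F ⊕ V) (g i)))
      (Ideal.map (MvPolynomial.C : MvPolynomial V A →+* MvPolynomial F (MvPolynomial V A))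
        (Ideal.span (Set.range g))) (MvPolynomial.sumAlgEquiv A F V) (by
        rw [Ideal.map_span, Ideal.map_span, ← Set.range_comp, ← Set.range_comp]
        congr 2
        funext i
        have h := AlgHom.congr_fun (MvPolynomial.sumAlgEquiv_comp_rename_inr (R := A) (S₁ := F)
          (S₂ := V)) (g i)
        exact h.symm)
  let e2 := (MvPolynomial.quotientEquivQuotientMvPolynomial (σ := F)
    (Ideal.span (Set.range g))).symm
  exact ⟨(e1.restrictScalars k).trans (e2.restrictScalars k)⟩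

/-- Change of the names of the variables. -/
theorem ren {V W ι : Type} (e : V ≃ W) (f : ι → MvPolynomial V A) :
    Nonempty ((MvPolynomial V A ⧸ Ideal.span (Set.range f)) ≃ₐ[k]
      (MvPolynomial W A ⧸ Ideal.span (Set.range fun i => MvPolynomial.rename e (f i)))) := by
  let e1 := Ideal.quotientEquivAlg (Ideal.span (Set.range f))
      (Ideal.span (Set.range fun i => MvPolynomial.rename e (f i))) (MvPolynomial.renameEquiv A e)
      (by
        rw [Ideal.map_span, ← Set.range_comp]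
        congr 2)
  exact ⟨e1.restrictScalars k⟩

end Split

section Dim

variable {k : Type} [Field k] {D : Type} [CommRing D] [IsDomain D] [Algebra k D]

theorem root (R : Subalgebra k D) (t x : D) (ht : t ∈ R) (a : k) (ha : a ≠ 0) (N : ℕ) (hN : 0 < N)
    (h : t + algebraMap k D a * x ^ N = 0) : IsAlgebraic R x := by
  refine ⟨Polynomial.C (⟨t, ht⟩ : R) + Polynomial.C (algebraMap k R a) * Polynomial.X ^ N,
    fun h0 => ?_, ?_⟩
  · have h1 := congrArg (fun p => Polynomial.coeff p N) h0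
    simp only [Polynomial.coeff_add, Polynomial.coeff_C, Polynomial.coeff_C_mul,
      Polynomial.coeff_X_pow_self, mul_one, Polynomial.coeff_zero] at h1
    rw [if_neg hN.ne', zero_add] at h1
    exact ha ((map_eq_zero_iff _ (algebraMap k R).injective).1 h1)
  · rw [map_add, map_mul, map_pow, Polynomial.aeval_C, Polynomial.aeval_C, Polynomial.aeval_X]
    exact h

theorem trd (N : ℕ) (hN : 0 < N) {M : ℕ} (c c' : Fin M → k)
    (hc : Nat.card {j // c j * c' j ≠ 0} ≤ 1) (x y : Fin M → D)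
    (h : ∀ j, 1 + algebraMap k D (c j) * x j ^ N + algebraMap k D (c' j) * y j ^ N = 0)
    (htop : Algebra.adjoin k ({z | ∃ j, c j ≠ 0 ∧ z = x j} ∪ {z | ∃ j, c' j ≠ 0 ∧ z = y j}) = ⊤) :
    Algebra.trdeg k D ≤ 1 := by
  set S : Set D := {z | ∃ j, c j * c' j ≠ 0 ∧ z = x j} with hS
  have hsub : S.Subsingleton := by
    have h1 : Subsingleton {j // c j * c' j ≠ 0} := Finite.card_le_one_iff_subsingleton.1 hc
    rintro _ ⟨j, hj, rfl⟩ _ ⟨i, hi, rfl⟩
    have h2 := congrArg Subtype.val (Subsingleton.elim (⟨j, hj⟩ : {j // c j * c' j ≠ 0}) ⟨i, hi⟩)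
    have h3 : j = i := h2
    rw [h3]
  have hxS : ∀ j, c' j ≠ 0 → algebraMap k D (c j) * x j ^ N ∈ Algebra.adjoin k S := by
    intro j hj
    by_cases h0 : c j = 0
    · rw [h0, map_zero, zero_mul]
      exact zero_mem _
    · exact mul_mem (Subalgebra.algebraMap_mem _ _)
        (pow_mem (Algebra.subset_adjoin (show x j ∈ S from ⟨j, mul_ne_zero h0 hj, rfl⟩)) _)
  have halg : ∀ z ∈ {z | ∃ j, c j ≠ 0 ∧ z = x j} ∪ {z | ∃ j, c' j ≠ 0 ∧ z = y j},
      IsAlgebraic (Algebra.adjoin k S) z := by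
    rintro z (⟨j, hj, rfl⟩ | ⟨j, hj, rfl⟩)
    · by_cases h0 : c' j = 0
      · refine root _ 1 (x j) (one_mem _) (c j) hj N hN ?_
        have h1 := h j
        rw [h0, map_zero, zero_mul, add_zero] at h1
        exact h1
      · have h1 : x j ∈ Algebra.adjoin k S :=
          Algebra.subset_adjoin (show x j ∈ S from ⟨j, mul_ne_zero hj h0, rfl⟩)
        exact isAlgebraic_algebraMap (R := Algebra.adjoin k S) (⟨x j, h1⟩ : Algebra.adjoin k S)
    · exact root _ (1 + algebraMap k D (c j) * x j ^ N) (y j) (add_mem (one_mem _) (hxS j hj)) (c' j)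
        hj N hN (h j)
  have hall : Algebra.IsAlgebraic (Algebra.adjoin k S) D := by
    refine ⟨fun z => ?_⟩
    have hz : z ∈ Algebra.adjoin k ({z | ∃ j, c j ≠ 0 ∧ z = x j} ∪
        {z | ∃ j, c' j ≠ 0 ∧ z = y j}) := by
      rw [htop]
      trivial
    induction hz using Algebra.adjoin_induction with
    | mem z hz => exact halg z hz
    | algebraMap r =>
      exact isAlgebraic_algebraMap (R := Algebra.adjoin k S) (algebraMap k (Algebra.adjoin k S) r)
    | add a b _ _ ha hb => exact ha.add hb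
    | mul a b _ _ ha hb => exact ha.mul hb
  exact (Algebra.IsAlgebraic.trdeg_le_cardinalMk k S).trans (mk_le_one_iff_set_subsingleton.2 hsub)

end Dim

section Main

variable {k : Type} [Field k] {N M n s : ℕ} (c c' : Fin M → k) (e : Fin (M + M) ≃ Fin s ⊕ Fin n)

/-- The essential variables. -/
noncomputable def rho (v : Fin (M + M)) : MvPolynomial (Fin n) k :=
  Sum.elim (fun _ => 0) MvPolynomial.X (e v)

variable (N) in
/-- The equations in the essential variables. -/
noncomputable def gg (j : Fin M) : MvPolynomial (Fin n) k :=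
  1 + MvPolynomial.C (c j) * rho e (Fin.castAdd M j) ^ N +
    MvPolynomial.C (c' j) * rho e (Fin.natAdd M j) ^ N

theorem term (a : k) (v : Fin (M + M)) (h : a ≠ 0 → ∃ i, e v = Sum.inr i) :
    MvPolynomial.rename (Sum.inr : Fin n → Fin s ⊕ Fin n) (MvPolynomial.C a * rho e v ^ N) =
      MvPolynomial.C a * MvPolynomial.X (e v) ^ N := by
  by_cases ha : a = 0
  · rw [ha, MvPolynomial.C_0, MvPolynomial.C_0, zero_mul, zero_mul, map_zero]
  · obtain ⟨i, hi⟩ := h ha
    rw [map_mul, map_pow, MvPolynomial.rename_C, rho, hi, Sum.elim_inr, MvPolynomial.rename_X]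

theorem gg_eq (h1 : ∀ j, c j ≠ 0 → ∃ i, e (Fin.castAdd M j) = Sum.inr i)
    (h2 : ∀ j, c' j ≠ 0 → ∃ i, e (Fin.natAdd M j) = Sum.inr i) (j : Fin M) :
    MvPolynomial.rename (Sum.inr : Fin n → Fin s ⊕ Fin n) (gg N c c' e j) =
      MvPolynomial.rename e (ferm N c c' j) := by
  rw [gg, map_add, map_add, term e _ _ (h1 j), term e _ _ (h2 j), ferm, map_add, map_add,
    map_mul, map_mul, map_pow, map_pow, MvPolynomial.rename_C, MvPolynomial.rename_C,
    MvPolynomial.rename_X, MvPolynomial.rename_X, map_one, map_one]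

/-- The system over `A` is a system in the essential variables. -/
theorem isoA (h1 : ∀ j, c j ≠ 0 → ∃ i, e (Fin.castAdd M j) = Sum.inr i)
    (h2 : ∀ j, c' j ≠ 0 → ∃ i, e (Fin.natAdd M j) = Sum.inr i) (A : Type) [CommRing A]
    [Algebra k A] :
    Nonempty ((MvPolynomial (Fin (M + M)) A ⧸ Ideal.span (Set.range (fermA A N c c'))) ≃ₐ[k]
      MvPolynomial (Fin s) (MvPolynomial (Fin n) A ⧸ Ideal.span (Set.range fun j =>
        MvPolynomial.map (algebraMap k A) (gg N c c' e j)))) := by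
  obtain ⟨e1⟩ := ren k e (fermA A N c c')
  obtain ⟨e2⟩ := split k (F := Fin s) (fun j => MvPolynomial.map (algebraMap k A) (gg N c c' e j))
  have h : (fun j => MvPolynomial.rename e (fermA A N c c' j)) = fun j =>
      MvPolynomial.rename (Sum.inr : Fin n → Fin s ⊕ Fin n)
        (MvPolynomial.map (algebraMap k A) (gg N c c' e j)) := by
    funext j
    rw [fermA, ← MvPolynomial.map_rename, ← MvPolynomial.map_rename, gg_eq c c' e h1 h2]
  rw [h] at e1
  exact ⟨e1.trans e2⟩

/-- The dimension. -/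
theorem dlE (hN : 0 < N) (h1 : ∀ i, (∃ j, c j ≠ 0 ∧ e (Fin.castAdd M j) = Sum.inr i) ∨
      ∃ j, c' j ≠ 0 ∧ e (Fin.natAdd M j) = Sum.inr i)
    (hc : Nat.card {j // c j * c' j ≠ 0} ≤ 1) :
    DL k (MvPolynomial (Fin n) k ⧸ Ideal.span (Set.range (gg N c c' e))) 1 := by
  intro p
  show Algebra.trdeg k (_ ⧸ p.asIdeal) ≤ ((1 : ℕ) : Cardinal)
  rw [Nat.cast_one]
  let E := MvPolynomial (Fin n) k ⧸ Ideal.span (Set.range (gg N c c' e))
  let π : MvPolynomial (Fin n) k →ₐ[k] (E ⧸ p.asIdeal) :=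
    (Ideal.Quotient.mkₐ k p.asIdeal).comp (Ideal.Quotient.mkₐ k _)
  have hπ : Function.Surjective π :=
    (Ideal.Quotient.mkₐ_surjective k p.asIdeal).comp (Ideal.Quotient.mkₐ_surjective k _)
  refine trd N hN c c' hc (fun j => π (rho e (Fin.castAdd M j)))
    (fun j => π (rho e (Fin.natAdd M j))) (fun j => ?_) ?_
  · have h0 : π (gg N c c' e j) = 0 := by
      show Ideal.Quotient.mk p.asIdeal (Ideal.Quotient.mk _ (gg N c c' e j)) = 0
      rw [Ideal.Quotient.eq_zero_iff_mem.2 (Ideal.subset_span (Set.mem_range_self j)), map_zero]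
    rw [gg, map_add, map_add, map_mul, map_mul, map_pow, map_pow, map_one] at h0
    exact h0
  · rw [eq_top_iff]
    rintro z -
    obtain ⟨q, rfl⟩ := hπ z
    induction q using MvPolynomial.induction_on with
    | C a => exact Subalgebra.algebraMap_mem _ a
    | add q r hq hr =>
      rw [map_add]
      exact add_mem hq hr
    | mul_X q i hq =>
      rw [map_mul]
      refine mul_mem hq ?_
      rcases h1 i with ⟨j, hj, hi⟩ | ⟨j, hj, hi⟩
      · refine Algebra.subset_adjoin (Or.inl ⟨j, hj, ?_⟩)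
        show π (MvPolynomial.X i) = π (rho e (Fin.castAdd M j))
        rw [rho, hi, Sum.elim_inr]
      · refine Algebra.subset_adjoin (Or.inr ⟨j, hj, ?_⟩)
        show π (MvPolynomial.X i) = π (rho e (Fin.natAdd M j))
        rw [rho, hi, Sum.elim_inr]

omit [Field k] in
/-- The splitting of the set of variables. -/
theorem exists_split {m : ℕ} (W : Fin m → Prop) : ∃ (s n : ℕ) (e : Fin m ≃ Fin s ⊕ Fin n),
    (∀ v, W v → ∃ i, e v = Sum.inr i) ∧ ∀ i, W (e.symm (Sum.inr i)) := by
  classical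
  let e0 := (Equiv.sumComm _ _).trans (Equiv.sumCompl W)
  let ea := Fintype.equivFin {v // ¬ W v}
  let eb := Fintype.equivFin {v // W v}
  refine ⟨_, _, e0.symm.trans (Equiv.sumCongr ea eb), fun v hv => ⟨eb ⟨v, hv⟩, ?_⟩, fun i => ?_⟩
  · have h : e0 (Sum.inr ⟨v, hv⟩) = v := by simp [e0]
    have h' : e0.symm v = Sum.inr ⟨v, hv⟩ := by rw [Equiv.symm_apply_eq, h]
    rw [Equiv.trans_apply, h']
    rfl
  · have h : (e0.symm.trans (Equiv.sumCongr ea eb)).symm (Sum.inr i) = (eb.symm i).1 := by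
      simp [e0]
    rw [h]
    exact (eb.symm i).2

end Main

end OV1Aux

open OV1Aux in
theorem t_OV1 : M_OV1 := by
  intro hRES hCIN hCPR hMVT k _ P hP hB N hN A _ _ _ hA M c c' hc
  have hres : ∀ (A : Type) [CommRing A] [Algebra k A] [Algebra.FiniteType k A],
      (∀ q : PrimeSpectrum A, Comp k 2 (Kp q)) → P (sp k A) := by
    intro A _ _ _ hq
    refine hB _ fun x => ?_
    obtain ⟨q, hq'⟩ := (hRES k A (fun F [Field F] [Algebra k F] => Comp k 2 F) (hCIN k 2).1).1 x
    exact hq'.2 (hq q)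
  obtain ⟨s, n, e, he1, he2⟩ := exists_split
    (fun v : Fin (M + M) => (∃ j, c j ≠ 0 ∧ v = Fin.castAdd M j) ∨ ∃ j, c' j ≠ 0 ∧ v = Fin.natAdd M j)
  have hE := dlE (N := N) c c' e hN (fun i => by
    rcases he2 i with ⟨j, hj, h⟩ | ⟨j, hj, h⟩
    · exact Or.inl ⟨j, hj, by rw [← h, Equiv.apply_symm_apply]⟩
    · exact Or.inr ⟨j, hj, by rw [← h, Equiv.apply_symm_apply]⟩) hc
  obtain ⟨i1⟩ := isoA (N := N) c c' e (fun j hj => he1 _ (Or.inl ⟨j, hj, rfl⟩))
    (fun j hj => he1 _ (Or.inr ⟨j, hj, rfl⟩)) A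
  obtain ⟨i2⟩ := hMVT k n (Fin M) (gg N c c' e) A
  have h1 : P (sp k ((MvPolynomial (Fin n) k ⧸ Ideal.span (Set.range (gg N c c' e))) ⊗[k] A)) :=
    hres _ fun q => hCPR k _ A hE hA q
  have h2 := hP.cls0.iso i2 h1
  have h3 := hP.poly _ h2 s
  exact hP.cls0.iso i1.symm h3

end Pool.Agent.FMS
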