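import Pool.Agent.FMS.St6
import Pool.Agent.FMS.OV1
import Pool.Agent.FMS.ITE

/-!
# FMS, module OV3: lines, finite sets, one Fermat curve into the base
-/

set_option autoImplicit false

open CategoryTheory AlgebraicGeometry TensorProduct Cardinal

namespace Pool.Agent.FMS

open Pool.Agent.Lib_helper55.Beil (Var)
open UQ (Mo DimLE sp szer)
open FMO (Kp)
open FMQ (ferm)
open QCV (DL)

namespace OV3Aux

open ITEAux

variable {k : Type} [Field k]

theorem relmap {R T : Type} [CommRing R] [Algebra k R] [CommRing T] [Algebra k T] (i : R →ₐ[k] T)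
    (N : ℕ) (a a' : k) (x y : R) (h : 1 + a • x ^ N + a' • y ^ N = 0) :
    1 + a • i x ^ N + a' • i y ^ N = 0 := by
  have h1 := congrArg i h
  rw [map_add, map_add, map_one, map_smul, map_smul, map_pow, map_pow, map_zero] at h1
  exact h1

/-- The universal property of the tensor product. -/
def IsTen {R₁ R₂ T : Type} [CommRing R₁] [Algebra k R₁] [CommRing R₂] [Algebra k R₂] [CommRing T]
    [Algebra k T] (i₁ : R₁ →ₐ[k] T) (i₂ : R₂ →ₐ[k] T) : Prop :=
  (∀ (E : Type) [CommRing E] [Algebra k E] (f₁ : R₁ →ₐ[k] E) (f₂ : R₂ →ₐ[k] E),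
    ∃ f : T →ₐ[k] E, (∀ x, f (i₁ x) = f₁ x) ∧ ∀ x, f (i₂ x) = f₂ x) ∧
  ∀ f g : T →ₐ[k] T, (∀ x, f (i₁ x) = g (i₁ x)) → (∀ x, f (i₂ x) = g (i₂ x)) → f = g

theorem exists_ten (R₁ R₂ : Type) [CommRing R₁] [Algebra k R₁] [CommRing R₂] [Algebra k R₂] :
    ∃ (i₁ : R₁ →ₐ[k] (R₁ ⊗[k] R₂)) (i₂ : R₂ →ₐ[k] (R₁ ⊗[k] R₂)), IsTen i₁ i₂ := by
  refine ⟨Algebra.TensorProduct.includeLeft, Algebra.TensorProduct.includeRight, ?_, ?_⟩
  · intro E _ _ f₁ f₂
    exact ⟨Algebra.TensorProduct.productMap f₁ f₂,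
      fun x => Algebra.TensorProduct.productMap_left_apply f₁ f₂ x,
      fun x => Algebra.TensorProduct.productMap_right_apply f₁ f₂ x⟩
  · intro f g h1 h2
    exact Algebra.TensorProduct.ext (AlgHom.ext h1) (AlgHom.ext h2)

/-- The algebra of all equations is the tensor product of the algebra of one equation and the algebra
of the other equations. -/
theorem step' (N : ℕ) {M : ℕ} (c c' : Fin (M + 1) → k) (j₀ : Fin (M + 1)) {e e' : Fin 1 → k}
    (he : ∀ j, e j = c j₀) (he' : ∀ j, e' j = c' j₀) {d d' : Fin M → k}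
    (hd : ∀ i, d i = c (j₀.succAbove i)) (hd' : ∀ i, d' i = c' (j₀.succAbove i)) {T : Type}
    [CommRing T] [Algebra k T] (i1 : RR N e e' →ₐ[k] T) (i2 : RR N d d' →ₐ[k] T)
    (hT : IsTen i1 i2) : Nonempty (T ≃ₐ[k] RR N c c') := by
  obtain ⟨f1, hf1x, hf1y⟩ := lift_R N e e' (E := RR N c c') (fun _ => xv N c c' j₀)
    (fun _ => yv N c c' j₀) (fun j => by rw [he j, he' j]; exact rel_R N c c' j₀)
  obtain ⟨f2, hf2x, hf2y⟩ := lift_R N d d' (E := RR N c c')
    (fun i => xv N c c' (j₀.succAbove i)) (fun i => yv N c c' (j₀.succAbove i))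
    (fun i => by rw [hd i, hd' i]; exact rel_R N c c' (j₀.succAbove i))
  obtain ⟨gx, gx0, gx1⟩ : ∃ gx : Fin (M + 1) → T, gx j₀ = i1 (xv N e e' 0) ∧
      ∀ i, gx (j₀.succAbove i) = i2 (xv N d d' i) :=
    ⟨Fin.insertNth (α := fun _ => T) j₀ (i1 (xv N e e' 0)) (fun i => i2 (xv N d d' i)),
      Fin.insertNth_apply_same _ _ _, fun i => Fin.insertNth_apply_succAbove _ _ _ _⟩
  obtain ⟨gy, gy0, gy1⟩ : ∃ gy : Fin (M + 1) → T, gy j₀ = i1 (yv N e e' 0) ∧
      ∀ i, gy (j₀.succAbove i) = i2 (yv N d d' i) :=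
    ⟨Fin.insertNth (α := fun _ => T) j₀ (i1 (yv N e e' 0)) (fun i => i2 (yv N d d' i)),
      Fin.insertNth_apply_same _ _ _, fun i => Fin.insertNth_apply_succAbove _ _ _ _⟩
  obtain ⟨g, hgx, hgy⟩ := lift_R N c c' (E := T) gx gy (fun j => by
    refine Fin.succAboveCases j₀ ?_ (fun i => ?_) j
    · rw [gx0, gy0]
      have h := relmap i1 N (e 0) (e' 0) (xv N e e' 0) (yv N e e' 0) (rel_R N e e' 0)
      rw [he 0, he' 0] at h
      exact h
    · rw [gx1, gy1]
      have h := relmap i2 N (d i) (d' i) (xv N d d' i) (yv N d d' i) (rel_R N d d' i)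
      rw [hd i, hd' i] at h
      exact h)
  obtain ⟨f, hf1, hf2⟩ := hT.1 (RR N c c') f1 f2
  refine ⟨AlgEquiv.ofAlgHom f g (ext_R (fun j => ?_) (fun j => ?_)) (hT.2 _ _ ?_ ?_)⟩
  · rw [AlgHom.comp_apply, hgx, AlgHom.id_apply]
    refine Fin.succAboveCases j₀ ?_ (fun i => ?_) j
    · rw [gx0, hf1, hf1x]
    · rw [gx1, hf2, hf2x]
  · rw [AlgHom.comp_apply, hgy, AlgHom.id_apply]
    refine Fin.succAboveCases j₀ ?_ (fun i => ?_) j
    · rw [gy0, hf1, hf1y]
    · rw [gy1, hf2, hf2y]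
  · have h : (g.comp f).comp i1 = i1 := by
      refine ext_R (fun j => ?_) (fun j => ?_)
      · rw [AlgHom.comp_apply, AlgHom.comp_apply, hf1, hf1x, hgx, gx0, Subsingleton.elim j 0]
      · rw [AlgHom.comp_apply, AlgHom.comp_apply, hf1, hf1y, hgy, gy0, Subsingleton.elim j 0]
    intro x
    exact DFunLike.congr_fun h x
  · have h : (g.comp f).comp i2 = i2 := by
      refine ext_R (fun j => ?_) (fun j => ?_)
      · rw [AlgHom.comp_apply, AlgHom.comp_apply, hf2, hf2x, hgx, gx1]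
      · rw [AlgHom.comp_apply, AlgHom.comp_apply, hf2, hf2y, hgy, gy1]
    intro x
    exact DFunLike.congr_fun h x

theorem step (N : ℕ) {M : ℕ} (c c' : Fin (M + 1) → k) (j₀ : Fin (M + 1)) :
    Nonempty ((RR N (fun _ : Fin 1 => c j₀) (fun _ : Fin 1 => c' j₀) ⊗[k]
      RR N (fun i => c (j₀.succAbove i)) (fun i => c' (j₀.succAbove i))) ≃ₐ[k] RR N c c') := by
  obtain ⟨i1, i2, hT⟩ := exists_ten (k := k) (RR N (fun _ : Fin 1 => c j₀) (fun _ : Fin 1 => c' j₀))
    (RR N (fun i => c (j₀.succAbove i)) (fun i => c' (j₀.succAbove i)))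
  exact step' N c c' j₀ (fun _ => rfl) (fun _ => rfl) (fun _ => rfl) (fun _ => rfl) i1 i2 hT

/-- The factors of a tensor product. -/
theorem swap {P : Var k → Prop} (hP : LFQ.Clo P) (A E : Type) [CommRing A] [Algebra k A]
    [Algebra.FiniteType k A] [CommRing E] [Algebra k E] [Algebra.FiniteType k E]
    (h : P (sp k (A ⊗[k] E))) : P (sp k (E ⊗[k] A)) :=
  hP.cls0.iso (Algebra.TensorProduct.comm k A E) h

/-- The factors of a tensor product. -/
theorem chain {P : Var k → Prop} (hP : LFQ.Clo P) (A E F L : Type) [CommRing A] [Algebra k A]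
    [Algebra.FiniteType k A] [CommRing E] [Algebra k E] [Algebra.FiniteType k E]
    [CommRing F] [Algebra k F] [Algebra.FiniteType k F] [CommRing L] [Algebra k L]
    [Algebra.FiniteType k L] (i : (E ⊗[k] F) ≃ₐ[k] L)
    (h : P (sp k (F ⊗[k] (A ⊗[k] E)))) : P (sp k (L ⊗[k] A)) := by
  have h3 := hP.cls0.iso (Algebra.TensorProduct.comm k F (A ⊗[k] E)) h
  have h4 := hP.cls0.iso (Algebra.TensorProduct.assoc k k k A E F) h3
  have h5 := hP.cls0.iso (Algebra.TensorProduct.comm k A (E ⊗[k] F)) h4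
  exact hP.cls0.iso (Algebra.TensorProduct.congr i (AlgEquiv.refl (R := k) (A₁ := A))) h5

theorem dlg (N : ℕ) (hN : 0 < N) (e e' : Fin 1 → k) {R : Type} [CommRing R] [Algebra k R]
    (x y : Fin 1 → R) (h : ∀ j, 1 + e j • x j ^ N + e' j • y j ^ N = 0)
    (htop : Algebra.adjoin k ({z | ∃ j, e j ≠ 0 ∧ z = x j} ∪ {z | ∃ j, e' j ≠ 0 ∧ z = y j}) = ⊤) :
    DL k R 1 := by
  intro p
  show Algebra.trdeg k (_ ⧸ p.asIdeal) ≤ ((1 : ℕ) : Cardinal)
  rw [Nat.cast_one]
  let π : R →ₐ[k] (R ⧸ p.asIdeal) := Ideal.Quotient.mkₐ k p.asIdeal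
  refine OV1Aux.trd N hN e e' ?_ (fun j => π (x j)) (fun j => π (y j)) (fun j => ?_) ?_
  · refine (Nat.card_le_card_of_injective (Subtype.val : {j // e j * e' j ≠ 0} → Fin 1)
      Subtype.val_injective).trans ?_
    rw [Nat.card_eq_fintype_card, Fintype.card_fin]
  · have h := relmap π N (e j) (e' j) (x j) (y j) (h j)
    rw [Algebra.smul_def, Algebra.smul_def] at h
    exact h
  · have h1 := congrArg (Subalgebra.map π) htop
    rw [AlgHom.map_adjoin, Algebra.map_top,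
      (AlgHom.range_eq_top π).2 (Ideal.Quotient.mkₐ_surjective k p.asIdeal)] at h1
    rw [← h1]
    congr 1
    ext z
    constructor
    · rintro (⟨j, hj, rfl⟩ | ⟨j, hj, rfl⟩)
      · exact ⟨x j, Or.inl ⟨j, hj, rfl⟩, rfl⟩
      · exact ⟨y j, Or.inr ⟨j, hj, rfl⟩, rfl⟩
    · rintro ⟨z, (⟨j, hj, rfl⟩ | ⟨j, hj, rfl⟩), rfl⟩
      · exact Or.inl ⟨j, hj, rfl⟩
      · exact Or.inr ⟨j, hj, rfl⟩

/-- The affine Fermat curve has dimension at most one. -/
theorem dl1 (N : ℕ) (hN : 0 < N) (e e' : Fin 1 → k) (he : ∀ j, e j ≠ 0) (he' : ∀ j, e' j ≠ 0) :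
    DL k (RR N e e') 1 := by
  refine dlg N hN e e' (fun j => xv N e e' j) (fun j => yv N e e' j) (fun j => rel_R N e e' j) ?_
  rw [eq_top_iff]
  rintro z -
  obtain ⟨q, rfl⟩ := Ideal.Quotient.mkₐ_surjective k _ z
  induction q using MvPolynomial.induction_on with
  | C a => exact Subalgebra.algebraMap_mem _ a
  | add q r hq hr =>
    rw [map_add]
    exact add_mem hq hr
  | mul_X q i hq =>
    rw [map_mul]
    refine mul_mem hq ?_
    refine Fin.addCases (fun j => ?_) (fun j => ?_) i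
    · exact Algebra.subset_adjoin (Or.inl ⟨j, he j, rfl⟩)
    · exact Algebra.subset_adjoin (Or.inr ⟨j, he' j, rfl⟩)

section Dim

variable {D : Type} [CommRing D] [Algebra k D]

theorem root0 (x : D) (a : k) (ha : a ≠ 0) (N : ℕ) (hN : 0 < N)
    (h : 1 + algebraMap k D a * x ^ N = 0) : IsAlgebraic k x := by
  refine ⟨Polynomial.C 1 + Polynomial.C a * Polynomial.X ^ N, fun h0 => ?_, ?_⟩
  · have h1 := congrArg (fun p => Polynomial.coeff p N) h0
    simp only [Polynomial.coeff_add, Polynomial.coeff_C, Polynomial.coeff_C_mul,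
      Polynomial.coeff_X_pow_self, mul_one, Polynomial.coeff_zero] at h1
    rw [if_neg hN.ne', zero_add] at h1
    exact ha h1
  · rw [map_add, map_mul, map_pow, Polynomial.aeval_C, Polynomial.aeval_C, Polynomial.aeval_X,
      map_one]
    exact h

theorem trd0 (N : ℕ) (hN : 0 < N) {M : ℕ} (c c' : Fin M → k)
    (hc : ∀ j, c j * c' j = 0) (x y : Fin M → D)
    (h : ∀ j, 1 + algebraMap k D (c j) * x j ^ N + algebraMap k D (c' j) * y j ^ N = 0)
    (htop : Algebra.adjoin k ({z | ∃ j, c j ≠ 0 ∧ z = x j} ∪ {z | ∃ j, c' j ≠ 0 ∧ z = y j}) = ⊤) :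
    Algebra.trdeg k D ≤ 0 := by
  have halg : ∀ z ∈ {z | ∃ j, c j ≠ 0 ∧ z = x j} ∪ {z | ∃ j, c' j ≠ 0 ∧ z = y j},
      IsAlgebraic k z := by
    rintro z (⟨j, hj, rfl⟩ | ⟨j, hj, rfl⟩)
    · have h0 : c' j = 0 := (mul_eq_zero.1 (hc j)).resolve_left hj
      refine root0 (x j) (c j) hj N hN ?_
      have h1 := h j
      rw [h0, map_zero, zero_mul, add_zero] at h1
      exact h1
    · have h0 : c j = 0 := (mul_eq_zero.1 (hc j)).resolve_right hj
      refine root0 (y j) (c' j) hj N hN ?_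
      have h1 := h j
      rw [h0, map_zero, zero_mul, add_zero] at h1
      exact h1
  have hall : Algebra.IsAlgebraic k D := by
    refine ⟨fun z => ?_⟩
    have hz : z ∈ Algebra.adjoin k ({z | ∃ j, c j ≠ 0 ∧ z = x j} ∪
        {z | ∃ j, c' j ≠ 0 ∧ z = y j}) := by
      rw [htop]
      trivial
    induction hz using Algebra.adjoin_induction with
    | mem z hz => exact halg z hz
    | algebraMap r => exact isAlgebraic_algebraMap r
    | add a b _ _ ha hb => exact ha.add hb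
    | mul a b _ _ ha hb => exact ha.mul hb
  rw [trdeg_eq_zero]

end Dim

/-- The dimension of the algebra in the essential variables, no Fermat curves. -/
theorem dlE0 {N M n s : ℕ} (c c' : Fin M → k) (e : Fin (M + M) ≃ Fin s ⊕ Fin n)
    (hN : 0 < N) (h1 : ∀ i, (∃ j, c j ≠ 0 ∧ e (Fin.castAdd M j) = Sum.inr i) ∨
      ∃ j, c' j ≠ 0 ∧ e (Fin.natAdd M j) = Sum.inr i)
    (hc : ∀ j, c j * c' j = 0) :
    DL k (MvPolynomial (Fin n) k ⧸ Ideal.span (Set.range (OV1Aux.gg N c c' e))) 0 := by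
  intro p
  show Algebra.trdeg k (_ ⧸ p.asIdeal) ≤ ((0 : ℕ) : Cardinal)
  rw [Nat.cast_zero]
  let E := MvPolynomial (Fin n) k ⧸ Ideal.span (Set.range (OV1Aux.gg N c c' e))
  let π : MvPolynomial (Fin n) k →ₐ[k] (E ⧸ p.asIdeal) :=
    (Ideal.Quotient.mkₐ k p.asIdeal).comp (Ideal.Quotient.mkₐ k _)
  have hπ : Function.Surjective π :=
    (Ideal.Quotient.mkₐ_surjective k p.asIdeal).comp (Ideal.Quotient.mkₐ_surjective k _)
  refine trd0 N hN c c' hc (fun j => π (OV1Aux.rho e (Fin.castAdd M j)))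
    (fun j => π (OV1Aux.rho e (Fin.natAdd M j))) (fun j => ?_) ?_
  · have h0 : π (OV1Aux.gg N c c' e j) = 0 := by
      show Ideal.Quotient.mk p.asIdeal (Ideal.Quotient.mk _ (OV1Aux.gg N c c' e j)) = 0
      rw [Ideal.Quotient.eq_zero_iff_mem.2 (Ideal.subset_span (Set.mem_range_self j)), map_zero]
    rw [OV1Aux.gg, map_add, map_add, map_mul, map_mul, map_pow, map_pow, map_one] at h0
    exact h0
  · rw [eq_top_iff]
    rintro z -
    obtain ⟨q, rfl⟩ := hπ z
    induction q using MvPolynomial.induction_on with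
    | C a => exact Subalgebra.algebraMap_mem _ a
    | add q r hq hr =>
      rw [map_add]
      exact add_mem hq hr
    | mul_X q i hq =>
      rw [map_mul]
      refine mul_mem hq ?_
      rcases h1 i with ⟨j, hj, hi⟩ | ⟨j, hj, hi⟩
      · refine Algebra.subset_adjoin (Or.inl ⟨j, hj, ?_⟩)
        show π (MvPolynomial.X i) = π (OV1Aux.rho e (Fin.castAdd M j))
        rw [OV1Aux.rho, hi, Sum.elim_inr]
      · refine Algebra.subset_adjoin (Or.inr ⟨j, hj, ?_⟩)
        show π (MvPolynomial.X i) = π (OV1Aux.rho e (Fin.natAdd M j))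
        rw [OV1Aux.rho, hi, Sum.elim_inr]

/-- One more field. -/
theorem monoA {m : ℕ} {F : Type} [Field F] [Algebra k F] (h : CompA k m F) :
    CompA k (m + 1) F := by
  obtain ⟨L, iL, aL, e, K₀, K, h0, h1, h2⟩ := h
  refine ⟨L, iL, aL, e, K₀, Fin.cons (⊥ : IntermediateField k L) K, h0, fun j => ?_, fun x => ?_⟩
  · refine Fin.cases ?_ (fun i => ?_) j
    · rw [Fin.cons_zero]
      have h3 : Algebra.trdeg k (⊥ : IntermediateField k L) = 0 :=
        trdeg_eq_zero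
      rw [h3]
      exact zero_le_one
    · rw [Fin.cons_succ]
      exact h1 i
  · refine (sup_le_sup_left (iSup_le fun i => ?_) K₀ :
      K₀ ⊔ ⨆ j, K j ≤ K₀ ⊔ ⨆ j, (Fin.cons (⊥ : IntermediateField k L) K :
        Fin (m + 1) → IntermediateField k L) j) (h2 x)
    have h4 := le_iSup (fun j => (Fin.cons (⊥ : IntermediateField k L) K :
        Fin (m + 1) → IntermediateField k L) j) i.succ
    rw [Fin.cons_succ] at h4
    exact h4

/-- The number of the essential equations different from the equation `j₀`. -/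
theorem card_le {M m' : ℕ} (c c' : Fin (M + 1) → k) (j₀ : Fin (M + 1)) (hj₀ : c j₀ * c' j₀ ≠ 0)
    (hc : Nat.card {j // c j * c' j ≠ 0} ≤ m' + 1) :
    Nat.card {i // c (j₀.succAbove i) * c' (j₀.succAbove i) ≠ 0} ≤ m' := by
  let φ : Option {i // c (j₀.succAbove i) * c' (j₀.succAbove i) ≠ 0} → {j // c j * c' j ≠ 0} :=
    fun o => o.elim ⟨j₀, hj₀⟩ fun i => ⟨j₀.succAbove i.1, i.2⟩
  have hφ : Function.Injective φ := by
    rintro (_ | a) (_ | b) h
    · rfl
    · exact absurd (congrArg Subtype.val h) (Fin.succAbove_ne j₀ b.1).symm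
    · exact absurd (congrArg Subtype.val h) (Fin.succAbove_ne j₀ a.1)
    · have h1 : a.1 = b.1 := Fin.succAbove_right_injective (congrArg Subtype.val h)
      rw [Subtype.ext h1]
  have h2 := Nat.card_le_card_of_injective φ hφ
  rw [Finite.card_option] at h2
  omega

theorem toT (hMVT : S_MVT) {P : Var k → Prop} (hP : LFQ.Clo P) (N : ℕ) {M : ℕ} (d d' : Fin M → k)
    (F : Type) [CommRing F] [Algebra k F] [Algebra.FiniteType k F] (iF : RR N d d' ≃ₐ[k] F)
    (R : Type) [CommRing R] [Algebra k R] [Algebra.FiniteType k R]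
    (h : P (szer k R (fermA R N d d'))) : P (sp k (F ⊗[k] R)) := by
  obtain ⟨i1⟩ := hMVT k (M + M) (Fin M) (ferm N d d') R
  have i3 := Algebra.TensorProduct.congr iF (AlgEquiv.refl (R := k) (A₁ := R))
  exact hP.cls0.iso (B := F ⊗[k] R) (i1.symm.trans i3) h

/-- The induction step. -/
theorem key (hCPG : S_CPG) (hMVT : S_MVT) {P : Var k → Prop} (hP : LFQ.Clo P) (m m' N : ℕ)
    (hB : ∀ (A : Type) [CommRing A] [Algebra k A] [Algebra.FiniteType k A],
      (∀ q : PrimeSpectrum A, CompA k (m + 1) (Kp q)) → ∀ (M : ℕ) (c c' : Fin M → k),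
      Nat.card {j // c j * c' j ≠ 0} ≤ m' → P (szer k A (fermA A N c c')))
    (A : Type) [CommRing A] [Algebra k A] [Algebra.FiniteType k A]
    (hA : ∀ q : PrimeSpectrum A, CompA k m (Kp q)) (E : Type) [CommRing E] [Algebra k E]
    [Algebra.FiniteType k E] (hE : DL k E 1) {M : ℕ} (d d' : Fin M → k)
    (hd : Nat.card {j // d j * d' j ≠ 0} ≤ m') (F : Type) [CommRing F] [Algebra k F]
    [Algebra.FiniteType k F] (iF : RR N d d' ≃ₐ[k] F) (L : Type) [CommRing L] [Algebra k L]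
    [Algebra.FiniteType k L] (i2 : (E ⊗[k] F) ≃ₐ[k] L) : P (sp k (L ⊗[k] A)) := by
  have h1 := hB (A ⊗[k] E) (fun q => hCPG k A E m 1 le_rfl hA hE q) M d d' hd
  exact chain hP A _ _ _ i2 (toT hMVT hP N d d' F iF (A ⊗[k] E) h1)

end OV3Aux

open OV3Aux ITEAux in
theorem t_OV3 : M_OV3 := by
  intro hCPG hMVT k _ P hP N m hN
  refine ⟨?_, ?_⟩
  · intro hA0 A _ _ _ hA M c c' hc
    have hc0 : ∀ j, c j * c' j = 0 := by
      intro j
      by_contra hj
      have h0 : Nat.card {j // c j * c' j ≠ 0} = 0 := Nat.le_zero.1 hc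
      rw [Finite.card_eq_zero_iff] at h0
      exact h0.elim ⟨j, hj⟩
    obtain ⟨s, n, e, he1, he2⟩ := OV1Aux.exists_split
      (fun v : Fin (M + M) => (∃ j, c j ≠ 0 ∧ v = Fin.castAdd M j) ∨
        ∃ j, c' j ≠ 0 ∧ v = Fin.natAdd M j)
    have hE := dlE0 (N := N) c c' e hN (fun i => by
      rcases he2 i with ⟨j, hj, h⟩ | ⟨j, hj, h⟩
      · exact Or.inl ⟨j, hj, by rw [← h, Equiv.apply_symm_apply]⟩
      · exact Or.inr ⟨j, hj, by rw [← h, Equiv.apply_symm_apply]⟩) hc0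
    obtain ⟨i1⟩ := OV1Aux.isoA (N := N) c c' e (fun j hj => he1 _ (Or.inl ⟨j, hj, rfl⟩))
      (fun j hj => he1 _ (Or.inr ⟨j, hj, rfl⟩)) A
    obtain ⟨i2⟩ := hMVT k n (Fin M) (OV1Aux.gg N c c' e) A
    have h1 : P (sp k (A ⊗[k] (MvPolynomial (Fin n) k ⧸
        Ideal.span (Set.range (OV1Aux.gg N c c' e))))) :=
      hA0 _ fun q => hCPG k A _ m 0 (Nat.zero_le 1) hA hE q
    have h2 := swap hP A _ h1
    have h3 := hP.cls0.iso i2 h2
    have h4 := hP.poly _ h3 s
    exact hP.cls0.iso i1.symm h4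
  · intro m' hB A _ _ _ hA M c c' hc
    by_cases hle : Nat.card {j // c j * c' j ≠ 0} ≤ m'
    · exact hB A (fun q => monoA (hA q)) M c c' hle
    · have hne : Nat.card {j // c j * c' j ≠ 0} ≠ 0 := by omega
      obtain ⟨⟨j₀, hj₀⟩⟩ := (Nat.card_ne_zero.1 hne).1
      cases M with
      | zero => exact j₀.elim0
      | succ M =>
        have hcard := card_le c c' j₀ hj₀ hc
        obtain ⟨ha, ha'⟩ := mul_ne_zero_iff.1 hj₀
        have hdl := dl1 N hN (fun _ => c j₀) (fun _ => c' j₀) (fun _ => ha) (fun _ => ha')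
        obtain ⟨i2⟩ := step N c c' j₀
        obtain ⟨i3⟩ := hMVT k _ (Fin (M + 1)) (ferm N c c') A
        have h6 := key hCPG hMVT hP m m' N hB A hA (RR N (fun _ : Fin 1 => c j₀)
          (fun _ : Fin 1 => c' j₀)) hdl (fun i => c (j₀.succAbove i))
          (fun i => c' (j₀.succAbove i)) hcard (RR N (fun i => c (j₀.succAbove i))
          (fun i => c' (j₀.succAbove i))) AlgEquiv.refl (RR N c c') i2
        exact hP.cls0.iso i3 h6

end Pool.Agent.FMS
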