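import Pool.Agent.FMS.St8
import Pool.Agent.FMS.OV1

/-!
# FMS, module OV4: one affine Fermat curve, lines and finite sets over a base

The essential variables are separated as in `Pool/Agent/FMS/OV1.lean` (`OV1Aux.isoA`, `OV1Aux.dlE`): the
algebra is a polynomial ring over `E ⊗ A`, `E` of dimension at most one.
-/

set_option autoImplicit false

open CategoryTheory AlgebraicGeometry TensorProduct

namespace Pool.Agent.FMS

open Pool.Agent.Lib_helper55.Beil (Var)
open UQ (Mo DimLE sp szer)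
open FMO (Kp)
open FMQ (FreeCl Dels Fermat ferm)
open QCV (DL)

open OV1Aux in
theorem t_OV4 : M_OV4 := by
  intro _ hMVT k _ P hP N m hN hH A _ _ _ hA M c c' hc
  obtain ⟨s, n, e, he1, he2⟩ := exists_split
    (fun v : Fin (M + M) => (∃ j, c j ≠ 0 ∧ v = Fin.castAdd M j) ∨ ∃ j, c' j ≠ 0 ∧ v = Fin.natAdd M j)
  have hE := dlE (N := N) c c' e hN (fun i => by
    rcases he2 i with ⟨j, hj, h⟩ | ⟨j, hj, h⟩
    · exact Or.inl ⟨j, hj, by rw [← h, Equiv.apply_symm_apply]⟩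
    · exact Or.inr ⟨j, hj, by rw [← h, Equiv.apply_symm_apply]⟩) hc
  obtain ⟨i1⟩ := isoA (N := N) c c' e (fun j hj => he1 _ (Or.inl ⟨j, hj, rfl⟩))
    (fun j hj => he1 _ (Or.inr ⟨j, hj, rfl⟩)) A
  obtain ⟨i2⟩ := hMVT k n (Fin M) (gg N c c' e) A
  have h0 : P (sp k (A ⊗[k] (MvPolynomial (Fin n) k ⧸ Ideal.span (Set.range (gg N c c' e))))) :=
    hH A _ hA hE
  have h1 : P (sp k ((MvPolynomial (Fin n) k ⧸ Ideal.span (Set.range (gg N c c' e))) ⊗[k] A)) :=
    hP.cls0.iso (Algebra.TensorProduct.comm k _ _) h0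
  have h2 := hP.cls0.iso i2 h1
  have h3 := hP.poly _ h2 s
  exact hP.cls0.iso i1.symm h3

end Pool.Agent.FMS
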