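import Pool.Agent.FMS.St3
import Pool.Agent.QCV.O_ONIL

/-!
# FMS, PIN: Fermat equations with exponents divisible by the characteristic (helper34)
-/

set_option autoImplicit false

open CategoryTheory AlgebraicGeometry Polynomial

namespace Pool.Agent.FMS

open Pool.Agent.Lib_helper55.Beil (Var)
open UQ (Mo DimLE sp szer sdbl)
open FMO (Univ Few Add CompX Comp Kp)
open FMQ (FreeCl Dels Fermat ferm)
open LFQ (BM)

namespace PINAux

open Pool.Agent.Lib_helper55.Beil Pool.Agent.Lib_helper66.OneP CUB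

/-- a surjection with nilpotent kernel is surjective on spectra -/
theorem comap_surj {A B : Type} [CommRing A] [CommRing B] (φ : A →+* B)
    (hφ : Function.Surjective φ) (hk : ∀ x, φ x = 0 → IsNilpotent x) (x : PrimeSpectrum A) :
    ∃ y, PrimeSpectrum.comap φ y = x := by
  have h1 : x ∈ Set.range (PrimeSpectrum.comap φ) := by
    rw [range_comap_of_surjective B φ hφ, PrimeSpectrum.mem_zeroLocus]
    intro y hy
    obtain ⟨n, hn⟩ := hk y hy
    have h3 : y ^ n ∈ x.asIdeal := by
      rw [hn]
      exact x.asIdeal.zero_mem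
    exact x.isPrime.mem_of_pow_mem n h3
  exact h1

theorem clo_surj {k : Type} [Field k] {A B : Type} [CommRing A] [Algebra k A]
    [Algebra.FiniteType k A] [CommRing B] [Algebra k B] [Algebra.FiniteType k B] (φ : A →ₐ[k] B)
    (hφ : Function.Surjective φ) (hk : ∀ x, φ x = 0 → IsNilpotent x) :
    Function.Surjective (CUB.clo φ hφ).g := by
  intro x
  obtain ⟨y, hy⟩ := comap_surj φ.toRingHom hφ hk x
  exact ⟨y, hy⟩

theorem nil_lift {k : Type} [Field k] {P : Var k → Prop} (hP : LFQ.Clo P) {A B : Type}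
    [CommRing A] [Algebra k A] [Algebra.FiniteType k A] [CommRing B] [Algebra k B]
    [Algebra.FiniteType k B] (φ : A →ₐ[k] B) (hφ : Function.Surjective φ)
    (hk : ∀ x, φ x = 0 → IsNilpotent x) (hB : P (CUB.aff k B)) : P (CUB.aff k A) :=
  hP.paste (CUB.clo φ hφ) (openVarIn (CUB.aff k A) ⊥)
    (QCV.complementary_surj (CUB.clo φ hφ) (clo_surj φ hφ hk)) hB
    (hP.empty _ (isEmpty_openVar_bot (CUB.aff k A)))

theorem exists_root {k : Type} [Field k] [Finite k] (p b : ℕ) (hp : p.Prime) [CharP k p] (c : k) :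
    ∃ d : k, d ^ p ^ b = c := by
  have : Fact p.Prime := ⟨hp⟩
  have h1 : Function.Injective (iterateFrobenius k p b) := (iterateFrobenius k p b).injective
  obtain ⟨d, hd⟩ := (Finite.injective_iff_surjective.1 h1) c
  exact ⟨d, by rwa [iterateFrobenius_def] at hd⟩

end PINAux

open PINAux in
theorem t_PIN : S_PIN := by
  intro k _ _ P hP p a ν N hp hchar _ h hN M c c'
  have hfp : Fact p.Prime := ⟨hp⟩
  obtain ⟨y, N', hy, hN', rfl⟩ := (Nat.dvd_mul).1 hN
  obtain ⟨b, -, rfl⟩ := (Nat.dvd_prime_pow hp).1 hy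
  choose d hd using fun j => exists_root (k := k) p b hp (c j)
  choose d' hd' using fun j => exists_root (k := k) p b hp (c' j)
  have key : ∀ j, ferm (p ^ b * N') c c' j = (ferm N' d d' j) ^ p ^ b := by
    intro j
    unfold FMQ.ferm
    rw [add_pow_char_pow, add_pow_char_pow, one_pow, mul_pow, mul_pow, ← pow_mul, ← pow_mul,
      ← map_pow, ← map_pow, hd, hd', mul_comm N']
  have hle : Ideal.span (Set.range (ferm (p ^ b * N') c c')) ≤
      Ideal.span (Set.range (ferm N' d d')) := by
    rw [Ideal.span_le]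
    rintro _ ⟨j, rfl⟩
    rw [key]
    exact Ideal.pow_mem_of_mem _ (Ideal.subset_span (Set.mem_range_self j)) _ (pow_pos hp.pos b)
  have hrad : ∀ x ∈ Ideal.span (Set.range (ferm N' d d')), IsNilpotent
      (Ideal.Quotient.mk (Ideal.span (Set.range (ferm (p ^ b * N') c c'))) x) := by
    intro x hx
    have h1 : Ideal.span (Set.range (ferm N' d d')) ≤
        (nilradical (MvPolynomial (Fin (M + M)) k ⧸
          Ideal.span (Set.range (ferm (p ^ b * N') c c')))).comap
          (Ideal.Quotient.mk (Ideal.span (Set.range (ferm (p ^ b * N') c c')))) := by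
      rw [Ideal.span_le]
      rintro _ ⟨j, rfl⟩
      refine ⟨p ^ b, ?_⟩
      rw [← map_pow, ← key]
      exact Ideal.Quotient.eq_zero_iff_mem.2 (Ideal.subset_span (Set.mem_range_self j))
    exact h1 hx
  have hB := h N' hN' M d d'
  change P (CUB.aff k (MvPolynomial (Fin (M + M)) k ⧸ Ideal.span (Set.range (ferm N' d d')))) at hB
  change P (CUB.aff k (MvPolynomial (Fin (M + M)) k ⧸
    Ideal.span (Set.range (ferm (p ^ b * N') c c'))))
  refine nil_lift hP (Ideal.Quotient.factorₐ k hle) (Ideal.Quotient.factor_surjective hle) ?_ hB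
  intro x hx
  obtain ⟨x, rfl⟩ := Ideal.Quotient.mk_surjective x
  exact hrad x (Ideal.Quotient.eq_zero_iff_mem.1 hx)

end Pool.Agent.FMS
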