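import Pool.Agent.FMS.St4
import Pool.Agent.FMS.PIN

/-!
# FMS, PIA: Fermat equations over a base, exponents divisible by the characteristic (helper92)
-/

set_option autoImplicit false

open CategoryTheory AlgebraicGeometry Polynomial

namespace Pool.Agent.FMS

open Pool.Agent.Lib_helper55.Beil (Var)
open UQ (Mo DimLE sp szer)
open FMO (Univ Few Add CompX Comp Kp)
open FMQ (FreeCl Dels Fermat ferm)
open LFQ (BM)

namespace PIAAux

open PINAux

theorem ferm_pow {k : Type} [Field k] (p b N' : ℕ) [Fact p.Prime] [CharP k p] {M : ℕ}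
    (c c' d d' : Fin M → k) (hd : ∀ j, d j ^ p ^ b = c j) (hd' : ∀ j, d' j ^ p ^ b = c' j)
    (j : Fin M) : ferm (p ^ b * N') c c' j = (ferm N' d d' j) ^ p ^ b := by
  unfold FMQ.ferm
  rw [add_pow_char_pow, add_pow_char_pow, one_pow, mul_pow, mul_pow, ← pow_mul, ← pow_mul,
    ← map_pow, ← map_pow, hd, hd', mul_comm N']

end PIAAux

open PINAux PIAAux in
theorem t_PIA : S_PIA := by
  intro k _ _ P hP p a ν N hp hchar _ A _ _ _ h hN M c c'
  have hfp : Fact p.Prime := ⟨hp⟩
  obtain ⟨y, N', hy, hN', rfl⟩ := (Nat.dvd_mul).1 hN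
  obtain ⟨b, -, rfl⟩ := (Nat.dvd_prime_pow hp).1 hy
  choose d hd using fun j => exists_root (k := k) p b hp (c j)
  choose d' hd' using fun j => exists_root (k := k) p b hp (c' j)
  have key : ∀ j, fermA A (p ^ b * N') c c' j = (fermA A N' d d' j) ^ p ^ b := by
    intro j
    unfold fermA
    rw [ferm_pow p b N' c c' d d' hd hd' j, map_pow]
  have hle : Ideal.span (Set.range (fermA A (p ^ b * N') c c')) ≤
      Ideal.span (Set.range (fermA A N' d d')) := by
    rw [Ideal.span_le]
    rintro _ ⟨j, rfl⟩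
    rw [key]
    exact Ideal.pow_mem_of_mem _ (Ideal.subset_span (Set.mem_range_self j)) _ (pow_pos hp.pos b)
  have hrad : ∀ x ∈ Ideal.span (Set.range (fermA A N' d d')), IsNilpotent
      (Ideal.Quotient.mk (Ideal.span (Set.range (fermA A (p ^ b * N') c c'))) x) := by
    intro x hx
    have h1 : Ideal.span (Set.range (fermA A N' d d')) ≤
        (nilradical (MvPolynomial (Fin (M + M)) A ⧸
          Ideal.span (Set.range (fermA A (p ^ b * N') c c')))).comap
          (Ideal.Quotient.mk (Ideal.span (Set.range (fermA A (p ^ b * N') c c')))) := by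
      rw [Ideal.span_le]
      rintro _ ⟨j, rfl⟩
      refine ⟨p ^ b, ?_⟩
      rw [← map_pow, ← key]
      exact Ideal.Quotient.eq_zero_iff_mem.2 (Ideal.subset_span (Set.mem_range_self j))
    exact h1 hx
  have hB := h N' hN' M d d'
  change P (CUB.aff k (MvPolynomial (Fin (M + M)) A ⧸ Ideal.span (Set.range (fermA A N' d d'))))
    at hB
  change P (CUB.aff k (MvPolynomial (Fin (M + M)) A ⧸
    Ideal.span (Set.range (fermA A (p ^ b * N') c c'))))
  refine nil_lift hP (Ideal.Quotient.factorₐ k hle) (Ideal.Quotient.factor_surjective hle) ?_ hB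
  intro x hx
  obtain ⟨x, rfl⟩ := Ideal.Quotient.mk_surjective x
  exact hrad x (Ideal.Quotient.eq_zero_iff_mem.1 hx)

end Pool.Agent.FMS
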