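import Pool.Agent.FMS.St9

/-!
# FMS: principal minors of symmetric matrices (statement S_PMN)

Rows with indices in `b` = a basis of the row space. A relation between the rows of the principal
submatrix is a linear functional which vanishes on the rows of `b`, hence on all rows.
-/

set_option autoImplicit false

namespace Pool.Agent.FMS

theorem PMN_card {K ι W : Type} [Field K] [Fintype ι] [AddCommGroup W] [Module K W] (v : ι → W)
    (b : Set ι) [Fintype b] (h : LinearIndepOn K v b) :
    Module.finrank K (Submodule.span K (v '' b)) = b.toFinset.card := by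
  classical
  rw [finrank_span_set_eq_card (R := K) (s := v '' b) h.id_image, Set.toFinset_image,
    Finset.card_image_of_injOn]
  rw [Set.coe_toFinset]
  exact h.injOn

theorem t_PMN : S_PMN := by
  classical
  intro K _ n G hG
  have hsym : ∀ i j, G i j = G j i := fun i j => (congrFun (congrFun hG j) i)
  obtain ⟨b, -, -, hspan, hli⟩ := exists_linearIndepOn_extension (K := K)
    (v := fun i : Fin n => (fun j => G i j : Fin n → K)) (s := ∅) (t := Set.univ)
    (linearIndepOn_empty _ _) (Set.subset_univ _)
  refine ⟨b.toFinset, ?_, ?_⟩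
  · have h1 : Submodule.span K ((fun i : Fin n => (fun j => G i j : Fin n → K)) '' b) =
        Submodule.span K (Set.range G.row) := by
      refine le_antisymm (Submodule.span_mono ?_) (Submodule.span_le.2 ?_)
      · rintro _ ⟨i, -, rfl⟩
        exact ⟨i, rfl⟩
      · rintro _ ⟨i, rfl⟩
        exact hspan ⟨i, Set.mem_univ _, rfl⟩
    rw [Matrix.rank_eq_finrank_span_row, ← h1]
    exact (PMN_card _ b hli).symm
  · rw [← isUnit_iff_ne_zero, ← Matrix.isUnit_iff_isUnit_det,
      ← Matrix.linearIndependent_rows_iff_isUnit, Fintype.linearIndependent_iff]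
    intro x hx
    -- the functional
    let φ : (Fin n → K) →ₗ[K] K := ∑ i : b.toFinset, x i • LinearMap.proj i.1
    have hφ : ∀ w, φ w = ∑ i : b.toFinset, x i * w i.1 := by
      intro w
      simp [φ]
    have h0 : ∀ j ∈ b, φ (fun i => G j i) = 0 := by
      intro j hj
      have h3 := congrFun hx ⟨j, Set.mem_toFinset.2 hj⟩
      rw [hφ]
      rw [Finset.sum_apply] at h3
      refine (Finset.sum_congr rfl fun i _ => ?_).trans h3
      rw [hsym j i.1]
      rfl
    have h1 : ∀ j, φ (fun i => G j i) = 0 := by
      intro j
      have h4 : (fun i => G j i) ∈ LinearMap.ker φ := by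
        refine Submodule.span_le.2 ?_ (hspan ⟨j, Set.mem_univ _, rfl⟩)
        rintro _ ⟨l, hl, rfl⟩
        exact LinearMap.mem_ker.2 (h0 l hl)
      exact LinearMap.mem_ker.1 h4
    have h2 : ∑ i : b.toFinset, x i • (fun j => G i.1 j : Fin n → K) = 0 := by
      funext j
      rw [Finset.sum_apply]
      have h5 := h1 j
      rw [hφ] at h5
      refine (Finset.sum_congr rfl fun i _ => ?_).trans h5
      rw [hsym j i.1]
      rfl
    have h6 : LinearIndependent K (fun i : b.toFinset => (fun j => G i.1 j : Fin n → K)) := by
      have e : b.toFinset ≃ b := Equiv.subtypeEquivRight fun i => Set.mem_toFinset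
      refine (hli.comp (fun i : b.toFinset => (⟨i.1, Set.mem_toFinset.1 i.2⟩ : b)) ?_)
      intro i j h
      exact Subtype.ext (congrArg (fun z : b => z.1) h)
    exact Fintype.linearIndependent_iff.1 h6 x h2

end Pool.Agent.FMS
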