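import Pool.Agent.FMS.St6

/-!
# FMS, PVR: the property `PrP P R` has four closure properties
-/

set_option autoImplicit false

open CategoryTheory AlgebraicGeometry Limits

namespace Pool.Agent.FMS

open Pool.Agent.Lib_helper55.Beil Pool.Agent.Lib_helper66.OneP CUB
open UQ (Mo)

namespace PVRAux

variable {k : Type} [Field k]

/-- the base change of `Y` along `Z → X` -/
noncomputable def bc {X Y Z : Var k} (q : Mo Y X) (a : Z.X ⟶ X.X)
    (h1 : IsSeparated (pullback.snd a q.g)) (h2 : LocallyOfFiniteType (pullback.snd a q.g))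
    (h3 : QuasiCompact (pullback.snd a q.g)) : Var k where
  X := pullback a q.g
  f := pullback.snd a q.g ≫ Y.f
  sep := inferInstance
  lft := inferInstance
  qc := inferInstance

theorem bc_pr {R : Type} [CommRing R] [Algebra k R] {X Y Z : Var k} (q : Mo Y X) (a : Z.X ⟶ X.X)
    (ha : a ≫ X.f = Z.f)
    (h1 : IsSeparated (pullback.snd a q.g)) (h2 : LocallyOfFiniteType (pullback.snd a q.g))
    (h3 : QuasiCompact (pullback.snd a q.g)) (t : Y.X ⟶ Spec (CommRingCat.of R))
    (h : IsPr R q t) :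
    ∃ q' : Mo (bc q a h1 h2 h3) Z, IsPr R q' (pullback.snd a q.g ≫ t) := by
  refine ⟨⟨pullback.fst a q.g, ?_⟩, ?_⟩
  · change pullback.fst a q.g ≫ Z.f = pullback.snd a q.g ≫ Y.f
    rw [← ha, ← q.comm, ← Category.assoc, pullback.condition, Category.assoc]
  · have h4 : IsPullback (pullback.fst a q.g) (pullback.snd a q.g) a q.g :=
      IsPullback.of_hasPullback a q.g
    have h5 : IsPullback q.g t X.f (Spec.map (CommRingCat.ofHom (algebraMap k R))) := h
    have h6 := (h4.flip.paste_horiz h5.flip).flip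
    rw [ha] at h6
    exact h6

/-- the closed part of a product -/
theorem exCl {R : Type} [CommRing R] [Algebra k R] {X Y Z : Var k} (q : Mo Y X)
    (t : Y.X ⟶ Spec (CommRingCat.of R)) (h : IsPr R q t) (a : ClosedIn Z X) :
    ∃ (Z' : Var k) (a' : ClosedIn Z' Y) (q' : Mo Z' Z) (t' : Z'.X ⟶ Spec (CommRingCat.of R)),
      IsPr R q' t' ∧ Set.range a'.g = q.g ⁻¹' Set.range a.g := by
  have hc : IsClosedImmersion a.g := a.closed
  have hc' : IsClosedImmersion (pullback.snd a.g q.g) := inferInstance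
  obtain ⟨q', hq'⟩ := bc_pr q a.g a.comm inferInstance inferInstance inferInstance t h
  exact ⟨_, ⟨pullback.snd a.g q.g, rfl, hc'⟩, q', _, hq', Scheme.Pullback.range_snd a.g q.g⟩

/-- the open part of a product -/
theorem exOp {R : Type} [CommRing R] [Algebra k R] {X Y Z : Var k} (q : Mo Y X)
    (t : Y.X ⟶ Spec (CommRingCat.of R)) (h : IsPr R q t) (a : OpenIn Z X) :
    ∃ (Z' : Var k) (a' : OpenIn Z' Y) (q' : Mo Z' Z) (t' : Z'.X ⟶ Spec (CommRingCat.of R)),
      IsPr R q' t' ∧ Set.range a'.g = q.g ⁻¹' Set.range a.g := by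
  have hc : IsOpenImmersion a.g := a.isOpen
  have hc' : IsOpenImmersion (pullback.snd a.g q.g) := inferInstance
  have : IsLocallyNoetherian Y.X := inferInstance
  have hqc : QuasiCompact (pullback.snd a.g q.g) := inferInstance
  obtain ⟨q', hq'⟩ := bc_pr q a.g a.comm inferInstance inferInstance hqc t h
  exact ⟨_, ⟨pullback.snd a.g q.g, rfl, hc'⟩, q', _, hq', Scheme.Pullback.range_snd a.g q.g⟩

/-- the product exists -/
theorem exPr (R : Type) [CommRing R] [Algebra k R] [Algebra.FiniteType k R] (X : Var k) :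
    ∃ (Y : Var k) (q : Mo Y X) (t : Y.X ⟶ Spec (CommRingCat.of R)), IsPr R q t := by
  let b : Spec (CommRingCat.of R) ⟶ Spec (CommRingCat.of k) :=
    Spec.map (CommRingCat.ofHom (algebraMap k R))
  have hb : LocallyOfFiniteType b := (UQ.sp k R).lft
  have hb1 : LocallyOfFiniteType (pullback.fst X.f b) := inferInstance
  have hb2 : IsSeparated (pullback.fst X.f b) := inferInstance
  have hb3 : QuasiCompact (pullback.fst X.f b) := inferInstance
  refine ⟨⟨pullback X.f b, pullback.fst X.f b ≫ X.f, inferInstance, inferInstance, inferInstance⟩,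
    ⟨pullback.fst X.f b, rfl⟩, pullback.snd X.f b, ?_⟩
  exact IsPullback.of_hasPullback X.f b

/-- the product is unique -/
theorem uniq {R : Type} [CommRing R] [Algebra k R] {X Y Y' : Var k} (q : Mo Y X)
    (t : Y.X ⟶ Spec (CommRingCat.of R)) (h : IsPr R q t) (q' : Mo Y' X)
    (t' : Y'.X ⟶ Spec (CommRingCat.of R)) (h' : IsPr R q' t') : Nonempty (VIso Y Y') := by
  have h1 : IsPullback q.g t X.f (Spec.map (CommRingCat.ofHom (algebraMap k R))) := h
  have h2 : IsPullback q'.g t' X.f (Spec.map (CommRingCat.ofHom (algebraMap k R))) := h'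
  refine ⟨⟨h1.isoIsPullback _ _ h2, ?_⟩⟩
  rw [← q'.comm, ← Category.assoc, IsPullback.isoIsPullback_hom_fst, q.comm]

/-- the product with an isomorphic variety -/
theorem prIso {R : Type} [CommRing R] [Algebra k R] {X X' Y : Var k} (s : VIso X X') (q : Mo Y X')
    (t : Y.X ⟶ Spec (CommRingCat.of R)) (h : IsPr R q t) : ∃ q' : Mo Y X, IsPr R q' t := by
  refine ⟨⟨q.g ≫ s.e.inv, ?_⟩, ?_⟩
  · rw [← s.comm, Category.assoc, Iso.inv_hom_id_assoc, q.comm]
  · have h1 : IsPullback q.g t X'.f (Spec.map (CommRingCat.ofHom (algebraMap k R))) := h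
    change IsPullback (q.g ≫ s.e.inv) t X.f (Spec.map (CommRingCat.ofHom (algebraMap k R)))
    refine IsPullback.of_iso h1 (Iso.refl _) s.e.symm (Iso.refl _) (Iso.refl _) ?_ ?_ ?_ ?_
    · simp
    · simp
    · simp [← s.comm]
    · simp

end PVRAux

open PVRAux in
theorem t_PVR : S_PVR := by
  intro k _ P hP R _ _ _
  refine ⟨?_, ?_, ?_, ?_⟩
  · intro X X' s hX Y q t h
    obtain ⟨q', h'⟩ := prIso s q t h
    exact hX Y q' t h'
  · intro X hX Y q t _
    exact hP.empty Y ⟨fun y => hX.false (q.g y)⟩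
  · intro Z U X a j hc hZ hU Y q t h
    obtain ⟨Z', a', qz, tz, hz, ra⟩ := exCl q t h a
    obtain ⟨U', j', qu, tu, hu, rj⟩ := exOp q t h j
    refine hP.paste a' j' ?_ (hZ _ _ _ hz) (hU _ _ _ hu)
    unfold Complementary
    rw [ra, rj, ← Set.preimage_compl, hc]
  · intro Z U X a j hc hX hZ Y q t h
    obtain ⟨W, qW, tW, hW⟩ := exPr R X
    obtain ⟨Z', a', qz, tz, hz, ra⟩ := exCl qW tW hW a
    obtain ⟨U', j', qu, tu, hu, rj⟩ := exOp qW tW hW j
    have hU' : P U' := by
      refine hP.cut a' j' ?_ (hX _ _ _ hW) (hZ _ _ _ hz)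
      unfold Complementary
      rw [ra, rj, ← Set.preimage_compl, hc]
    obtain ⟨s⟩ := uniq qu tu hu q t h
    exact hP.iso s hU'

end Pool.Agent.FMS
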