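import Pool.Agent.FMS.St2

/-!
# Project FMS, module QMM (helper1): several quadratic equations
-/

set_option autoImplicit false

open CategoryTheory AlgebraicGeometry Polynomial

namespace Pool.Agent.FMS

open Pool.Agent.Lib_helper55.Beil (Var)
open UQ (Mo DimLE sp szer sdbl)
open FMO (Univ Few Add CompX Comp Kp)
open FMQ (FreeCl Dels Fermat ferm)
open LFQ (BM)

namespace QMMAux

/-! ### Algebras which represent systems of equations -/

/-- A condition for the values of the variables in algebras. -/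
abbrev Sy (C : Type) [CommRing C] (V : Type) : Type 1 :=
  ∀ (T : Type) [CommRing T] [Algebra C T], (V → T) → Prop

/-- The algebra `D` with the values `x` represents the condition. -/
structure Rep {C V : Type} [CommRing C] (S : Sy C V) (D : Type) [CommRing D] [Algebra C D]
    (x : V → D) : Prop where
  sol : S D x
  ex : ∀ (T : Type) [CommRing T] [Algebra C T] (y : V → T), S T y →
    ∃ g : D →ₐ[C] T, ∀ v, g (x v) = y v
  un : ∀ (T : Type) [CommRing T] [Algebra C T] (g g' : D →ₐ[C] T),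
    (∀ v, g (x v) = g' (x v)) → g = g'

section

variable {C V V' : Type} [CommRing C]

theorem Rep.equiv {S : Sy C V} {D D' : Type} [CommRing D] [Algebra C D] [CommRing D']
    [Algebra C D'] {x : V → D} {x' : V → D'} (h : Rep S D x) (h' : Rep S D' x') :
    Nonempty (D ≃ₐ[C] D') := by
  obtain ⟨g, hg⟩ := h.ex D' x' h'.sol
  obtain ⟨g', hg'⟩ := h'.ex D x h.sol
  refine ⟨AlgEquiv.ofAlgHom g g' ?_ ?_⟩
  · refine h'.un D' _ _ fun v => ?_
    rw [AlgHom.comp_apply, hg', hg, AlgHom.id_apply]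
  · refine h.un D _ _ fun v => ?_
    rw [AlgHom.comp_apply, hg, hg', AlgHom.id_apply]

theorem Rep.re {S : Sy C V} {D : Type} [CommRing D] [Algebra C D] {x : V → D} (h : Rep S D x)
    (θ : V' ≃ V) (S' : Sy C V')
    (hS : ∀ (T : Type) [CommRing T] [Algebra C T] (y : V → T), S T y ↔ S' T fun v => y (θ v)) :
    Rep S' D fun v => x (θ v) where
  sol := (hS D x).1 h.sol
  ex := by
    intro T _ _ y hy
    have h1 : (fun v => (fun w => y (θ.symm w)) (θ v)) = y := by
      funext v
      exact congrArg y (θ.symm_apply_apply v)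
    obtain ⟨g, hg⟩ := h.ex T (fun w => y (θ.symm w)) ((hS T _).2 (by rw [h1]; exact hy))
    refine ⟨g, fun v => ?_⟩
    rw [hg, θ.symm_apply_apply]
  un := by
    intro T _ _ g g' hg
    refine h.un T g g' fun v => ?_
    have := hg (θ.symm v)
    rwa [θ.apply_symm_apply] at this

theorem rep_quot (s : Set (MvPolynomial V C)) (S : Sy C V)
    (hS : ∀ (T : Type) [CommRing T] [Algebra C T] (y : V → T), S T y ↔
      ∀ p ∈ s, MvPolynomial.aeval y p = 0) :
    Rep S (MvPolynomial V C ⧸ Ideal.span s) fun v => Ideal.Quotient.mk _ (MvPolynomial.X v) where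
  sol := by
    refine (hS _ _).2 fun p hp => ?_
    have h1 : MvPolynomial.aeval (fun v => Ideal.Quotient.mk (Ideal.span s)
        (MvPolynomial.X v)) = Ideal.Quotient.mkₐ C (Ideal.span s) := by
      refine MvPolynomial.algHom_ext fun i => ?_
      rw [MvPolynomial.aeval_X]
      rfl
    rw [h1]
    exact Ideal.Quotient.eq_zero_iff_mem.2 (Ideal.subset_span hp)
  ex := by
    intro T _ _ y hy
    have h1 : Ideal.span s ≤ RingHom.ker (MvPolynomial.aeval y : MvPolynomial V C →ₐ[C] T) :=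
      Ideal.span_le.2 fun p hp => (hS T y).1 hy p hp
    refine ⟨Ideal.Quotient.liftₐ _ (MvPolynomial.aeval y) fun p hp => h1 hp, fun v => ?_⟩
    show MvPolynomial.aeval y (MvPolynomial.X v) = y v
    rw [MvPolynomial.aeval_X]
  un := by
    intro T _ _ g g' hg
    exact Ideal.Quotient.algHom_ext _ (MvPolynomial.algHom_ext fun v => hg v)

end

/-! ### The systems -/

/-- The equations `∑ a_j y_j ^ (e_j) + c_i = 0`, the sum over the `j` with `σ j = i`. -/
def SQM {C V I : Type} [CommRing C] [Fintype V] [DecidableEq I] (σ : V → I) (a : V → C)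
    (e : V → ℕ) (c : I → C) : Sy C V := fun T _ _ y =>
  ∀ i, (∑ j, if σ j = i then algebraMap C T (a j) * y j ^ e j else 0) + algebraMap C T (c i) = 0

section

variable {C : Type} [CommRing C]

theorem rep_qm {r s : ℕ} (σ : Fin r → Fin s) (a : Fin r → C) (e : Fin r → ℕ) (c : Fin s → C) :
    Rep (SQM σ a e c) (QM σ a e c) fun v => Ideal.Quotient.mk _ (MvPolynomial.X v) := by
  refine rep_quot _ _ fun T _ _ y => ?_
  rw [Set.forall_mem_range]
  refine forall_congr' fun i => ?_
  unfold qm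
  rw [map_add, map_sum, MvPolynomial.aeval_C, Finset.sum_filter]
  simp only [map_mul, map_pow, MvPolynomial.aeval_C, MvPolynomial.aeval_X]

theorem rep_qd {r : ℕ} (a : Fin r → C) (e : Fin r → ℕ) (c : C) :
    Rep (SQM (fun _ => ()) a e fun _ => c) (FMQ.Qd a e c)
      fun v => Ideal.Quotient.mk _ (MvPolynomial.X v) := by
  refine rep_quot _ _ fun T _ _ y => ?_
  have h1 : (∀ p ∈ ({FMQ.qd a e c} : Set (MvPolynomial (Fin r) C)), MvPolynomial.aeval y p = 0) ↔
      MvPolynomial.aeval y (FMQ.qd a e c) = 0 := by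
    constructor
    · intro h
      exact h _ (Set.mem_singleton _)
    · rintro h p hp
      rw [Set.mem_singleton_iff.1 hp]
      exact h
  rw [h1]
  unfold FMQ.qd
  rw [map_add, map_sum, MvPolynomial.aeval_C]
  simp only [map_mul, map_pow, MvPolynomial.aeval_C, MvPolynomial.aeval_X]
  constructor
  · intro h
    have := h ()
    simpa using this
  · intro h _
    simpa using h

theorem rep_adj (b : C) (a c : Unit → C) (ha : a () = 1) (hc : c () = -b) :
    Rep (SQM (fun _ : Unit => ()) a (fun _ => 2) c) (AdjoinRoot (UQ.dp 0 (-b)))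
      fun _ => AdjoinRoot.root _ := by
  have hS : ∀ (T : Type) [CommRing T] [Algebra C T] (y : Unit → T),
      SQM (fun _ : Unit => ()) a (fun _ => 2) c T y ↔ y () ^ 2 = algebraMap C T b := by
    intro T _ _ y
    have h1 : SQM (fun _ : Unit => ()) a (fun _ => 2) c T y ↔
        y () ^ 2 + -algebraMap C T b = 0 := by
      constructor
      · intro h
        have := h ()
        simpa [ha, hc] using this
      · intro h _
        simpa [ha, hc] using h
    rw [h1, add_neg_eq_zero]
  have hev : ∀ (T : Type) [CommRing T] [Algebra C T] (t : T),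
      (UQ.dp 0 (-b) : C[X]).eval₂ (algebraMap C T) t = t ^ 2 - algebraMap C T b := by
    intro T _ _ t
    unfold UQ.dp
    rw [eval₂_add, eval₂_add, eval₂_mul, eval₂_pow, eval₂_X, eval₂_C, eval₂_C, map_zero, map_neg]
    ring
  refine ⟨?_, ?_, ?_⟩
  · rw [hS]
    have h1 := AdjoinRoot.eval₂_root (UQ.dp 0 (-b) : C[X])
    have h2 := hev (AdjoinRoot (UQ.dp 0 (-b))) (AdjoinRoot.root _)
    rw [AdjoinRoot.algebraMap_eq] at h2 ⊢
    rw [h1] at h2
    exact (sub_eq_zero.1 h2.symm)
  · intro T _ _ y hy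
    rw [hS] at hy
    refine ⟨AdjoinRoot.liftAlgHom _ (Algebra.ofId C T) (y ()) ?_, fun v => ?_⟩
    · have h2 := hev T (y ())
      rw [hy, sub_self] at h2
      exact h2
    · exact AdjoinRoot.liftAlgHom_root _ _ _ _
  · intro T _ _ g g' hg
    exact AdjoinRoot.algHom_ext (hg ())

/-- Solutions are mapped to solutions. -/
theorem sqm_map {V I : Type} [Fintype V] [DecidableEq I] {σ : V → I} {a : V → C} {e : V → ℕ}
    {c : I → C} {T T' : Type} [CommRing T] [Algebra C T] [CommRing T'] [Algebra C T']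
    (g : T →ₐ[C] T') {y : V → T} (h : SQM σ a e c T y) : SQM σ a e c T' fun v => g (y v) := by
  intro i
  have h1 := congrArg g (h i)
  rw [map_add, map_sum, map_zero, AlgHom.commutes] at h1
  refine Eq.trans ?_ h1
  congr 1
  refine Finset.sum_congr rfl fun j _ => ?_
  split_ifs
  · rw [map_mul, map_pow, AlgHom.commutes]
  · rw [map_zero]

/-- Two towers. -/
theorem tow {V I V' I' : Type} [Fintype V] [DecidableEq I] [Fintype V'] [DecidableEq I']
    {σ : V → I} {a : V → C} {e : V → ℕ} {c : I → C} {σ' : V' → I'} {a' : V' → C} {e' : V' → ℕ}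
    {c' : I' → C} {B D : Type} [CommRing B] [Algebra C B] [CommRing D] [Algebra C D]
    [Algebra B D] [IsScalarTower C B D] {x : V → B} {y : V' → D} (a₂ : V' → B) (c₂ : I' → B)
    (ha : ∀ j, a₂ j = algebraMap C B (a' j)) (hc : ∀ i, c₂ i = algebraMap C B (c' i))
    (h : Rep (SQM σ a e c) B x) (h' : Rep (SQM σ' a₂ e' c₂) D y) :
    Rep (SQM (Sum.map σ σ') (Sum.elim a a') (Sum.elim e e') (Sum.elim c c')) D
      (Sum.elim (fun v => algebraMap B D (x v)) y) := by
  have key : ∀ (T : Type) [CommRing T] [Algebra C T] (z : V ⊕ V' → T),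
      SQM (Sum.map σ σ') (Sum.elim a a') (Sum.elim e e') (Sum.elim c c') T z ↔
      SQM σ a e c T (fun v => z (Sum.inl v)) ∧ SQM σ' a' e' c' T (fun v => z (Sum.inr v)) := by
    intro T _ _ z
    unfold SQM
    rw [Sum.forall]
    refine and_congr (forall_congr' fun i => ?_) (forall_congr' fun i => ?_)
    · rw [Fintype.sum_sum_type]
      simp
    · rw [Fintype.sum_sum_type]
      simp
  have key2 : ∀ (T : Type) [CommRing T] [Algebra C T] [Algebra B T] [IsScalarTower C B T]
      (z : V' → T), SQM σ' a₂ e' c₂ T z ↔ SQM σ' a' e' c' T z := by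
    intro T _ _ _ _ z
    unfold SQM
    simp only [ha, hc, ← IsScalarTower.algebraMap_apply C B T]
  refine ⟨?_, ?_, ?_⟩
  · rw [key]
    exact ⟨sqm_map (IsScalarTower.toAlgHom C B D) h.sol, (key2 D y).1 h'.sol⟩
  · intro T _ _ z hz
    rw [key] at hz
    obtain ⟨g, hg⟩ := h.ex T _ hz.1
    let _ : Algebra B T := g.toRingHom.toAlgebra
    have : IsScalarTower C B T := IsScalarTower.of_algebraMap_eq fun t => (g.commutes t).symm
    obtain ⟨g', hg'⟩ := h'.ex T _ ((key2 T _).2 hz.2)
    refine ⟨g'.restrictScalars C, ?_⟩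
    rintro (v | v)
    · show g' (algebraMap B D (x v)) = _
      rw [g'.commutes]
      exact hg v
    · exact hg' v
  · intro T _ _ g g' hg
    have h1 : g.comp (IsScalarTower.toAlgHom C B D) = g'.comp (IsScalarTower.toAlgHom C B D) :=
      h.un T _ _ fun v => hg (Sum.inl v)
    let _ : Algebra B T := (g.comp (IsScalarTower.toAlgHom C B D)).toRingHom.toAlgebra
    let G : D →ₐ[B] T := { g with commutes' := fun _ => rfl }
    let G' : D →ₐ[B] T := { g' with commutes' := fun t => (DFunLike.congr_fun h1 t).symm }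
    have h2 : G = G' := h'.un T G G' fun v => hg (Sum.inr v)
    ext d
    exact DFunLike.congr_fun h2 d

/-- Change of the names. -/
theorem cmp {V I V' I' : Type} [Fintype V] [DecidableEq I] [Fintype V'] [DecidableEq I']
    {σ : V → I} {a : V → C} {e : V → ℕ} {c : I → C} {σ' : V' → I'} {a' : V' → C} {e' : V' → ℕ}
    {c' : I' → C} {D : Type} [CommRing D] [Algebra C D] {x : V → D}
    (h : Rep (SQM σ a e c) D x) (θ : V' ≃ V) (η : I' ≃ I) (hσ : ∀ j, η (σ' j) = σ (θ j))
    (ha : ∀ j, a' j = a (θ j)) (he : ∀ j, e' j = e (θ j)) (hc : ∀ i, c' i = c (η i)) :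
    Rep (SQM σ' a' e' c') D fun v => x (θ v) := by
  refine h.re θ _ fun T _ _ y => ?_
  unfold SQM
  rw [← η.forall_congr_right]
  refine forall_congr' fun i => ?_
  rw [← θ.sum_comp]
  have h1 : ∀ j, (σ (θ j) = η i) ↔ (σ' j = i) := fun j => by
    rw [← hσ, η.injective.eq_iff]
  simp only [h1, ha, he, hc]

/-! ### The three isomorphisms -/

/-- The last equation is an equation over the algebra of the other equations. -/
theorem iso1 {r s r₁ r₀ : ℕ} (σ : Fin r → Fin (s + 1)) (a : Fin r → C) (e : Fin r → ℕ)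
    (c : Fin (s + 1) → C) (E₁ : Fin r₁ ≃ {j // σ j ≠ Fin.last s})
    (E₀ : Fin r₀ ≃ {j // σ j = Fin.last s}) (σ₁ : Fin r₁ → Fin s)
    (hσ : ∀ j, (σ₁ j).castSucc = σ (E₁ j).1) :
    Nonempty (QM σ a e c ≃ₐ[C] FMQ.Qd (A := QM σ₁ (fun j => a (E₁ j).1) (fun j => e (E₁ j).1)
      fun i => c i.castSucc) (fun j => algebraMap C _ (a (E₀ j).1)) (fun j => e (E₀ j).1)
      (algebraMap C _ (c (Fin.last s)))) := by
  have hθ : Function.Bijective
      (Sum.elim (fun j => (E₁ j).1) (fun j => (E₀ j).1) : Fin r₁ ⊕ Fin r₀ → Fin r) := by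
    constructor
    · rintro (j | j) (j' | j') h
      · exact congrArg Sum.inl (E₁.injective (Subtype.ext h))
      · exact absurd ((congrArg σ h).trans (E₀ j').2) (E₁ j).2
      · exact absurd ((congrArg σ h).symm.trans (E₀ j).2) (E₁ j').2
      · exact congrArg Sum.inr (E₀.injective (Subtype.ext h))
    · intro j
      by_cases h : σ j = Fin.last s
      · refine ⟨Sum.inr (E₀.symm ⟨j, h⟩), ?_⟩
        show (E₀ (E₀.symm ⟨j, h⟩)).1 = j
        rw [E₀.apply_symm_apply]
      · refine ⟨Sum.inl (E₁.symm ⟨j, h⟩), ?_⟩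
        show (E₁ (E₁.symm ⟨j, h⟩)).1 = j
        rw [E₁.apply_symm_apply]
  have hη : Function.Bijective
      (Sum.elim Fin.castSucc (fun _ => Fin.last s) : Fin s ⊕ Unit → Fin (s + 1)) := by
    constructor
    · rintro (i | i) (i' | i') h
      · exact congrArg Sum.inl (Fin.castSucc_injective s h)
      · exact absurd h (Fin.castSucc_ne_last i)
      · exact absurd h.symm (Fin.castSucc_ne_last i')
      · rfl
    · intro i
      refine Fin.lastCases ?_ (fun i => ?_) i
      · exact ⟨Sum.inr (), rfl⟩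
      · exact ⟨Sum.inl i, rfl⟩
  have h2 := tow (C := C) (fun j => algebraMap C (QM σ₁ (fun j => a (E₁ j).1)
      (fun j => e (E₁ j).1) fun i => c i.castSucc) (a (E₀ j).1))
    (fun _ : Unit => algebraMap C _ (c (Fin.last s))) (a' := fun j => a (E₀ j).1)
    (c' := fun _ => c (Fin.last s)) (fun _ => rfl) (fun _ => rfl)
    (rep_qm σ₁ (fun j => a (E₁ j).1) (fun j => e (E₁ j).1) fun i => c i.castSucc)
    (rep_qd _ (fun j => e (E₀ j).1) _)
  have h1 := cmp (rep_qm σ a e c) (Equiv.ofBijective _ hθ) (Equiv.ofBijective _ hη)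
    (σ' := Sum.map σ₁ fun _ => ())
    (a' := Sum.elim (fun j => a (E₁ j).1) fun j => a (E₀ j).1)
    (e' := Sum.elim (fun j => e (E₁ j).1) fun j => e (E₀ j).1)
    (c' := Sum.elim (fun i => c i.castSucc) fun _ => c (Fin.last s))
    (by
      rintro (j | j)
      · exact hσ j
      · exact (E₀ j).2.symm)
    (by rintro (j | j) <;> rfl) (by rintro (j | j) <;> rfl) (by rintro (i | i) <;> rfl)
  exact h1.equiv h2

/-- The square root can be adjoined first. -/
theorem iso2 {r s : ℕ} (σ : Fin r → Fin s) (a : Fin r → C) (e : Fin r → ℕ) (c : Fin s → C)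
    (b : C) : Nonempty (AdjoinRoot (UQ.dp 0 (-(algebraMap C (QM σ a e c) b))) ≃ₐ[C]
      QM σ (fun j => algebraMap C (AdjoinRoot (UQ.dp 0 (-b))) (a j)) e
        fun i => algebraMap C (AdjoinRoot (UQ.dp 0 (-b))) (c i)) := by
  have h1 := tow (C := C) (fun _ : Unit => (1 : QM σ a e c))
    (fun _ : Unit => -(algebraMap C (QM σ a e c) b)) (a' := fun _ => 1) (c' := fun _ => -b)
    (fun _ => (map_one _).symm) (fun _ => (map_neg _ _).symm)
    (rep_qm σ a e c) (rep_adj (algebraMap C (QM σ a e c) b) _ _ rfl rfl)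
  have h2 := tow (C := C) _ _ (a' := a) (c' := c) (fun _ => rfl) (fun _ => rfl)
    (rep_adj b (fun _ => 1) (fun _ => -b) rfl rfl)
    (rep_qm σ (fun j => algebraMap C (AdjoinRoot (UQ.dp 0 (-b))) (a j)) e
        fun i => algebraMap C (AdjoinRoot (UQ.dp 0 (-b))) (c i))
  have h3 := cmp h1 (Equiv.sumComm _ _) (Equiv.sumComm _ _)
    (σ' := Sum.map (fun _ : Unit => ()) σ)
    (a' := Sum.elim (fun _ : Unit => (1 : C)) a)
    (e' := Sum.elim (fun _ : Unit => 2) e)
    (c' := Sum.elim (fun _ : Unit => -b) c)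
    (by rintro (j | j) <;> rfl) (by rintro (j | j) <;> rfl) (by rintro (j | j) <;> rfl)
    (by rintro (i | i) <;> rfl)
  exact h3.equiv h2

/-- One more square root. -/
theorem iso3 {l : ℕ} (b : C) (h : Fin l → C) :
    Nonempty (SQ (Fin.cons b h : Fin (l + 1) → C) ≃ₐ[C]
      SQ (fun i => algebraMap C (AdjoinRoot (UQ.dp 0 (-b))) (h i))) := by
  have hθ : Function.Bijective
      (Sum.elim (fun _ => 0) Fin.succ : Unit ⊕ Fin l → Fin (l + 1)) := by
    constructor
    · rintro (i | i) (i' | i') h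
      · rfl
      · exact absurd h.symm (Fin.succ_ne_zero i')
      · exact absurd h (Fin.succ_ne_zero i)
      · exact congrArg Sum.inr (Fin.succ_injective l h)
    · intro i
      refine Fin.cases ?_ (fun i => ?_) i
      · exact ⟨Sum.inl (), rfl⟩
      · exact ⟨Sum.inr i, rfl⟩
  have h2 := tow (C := C) _ _ (a' := fun _ : Fin l => (1 : C)) (c' := fun i => -h i)
    (fun _ => (map_one _).symm) (fun _ => (map_neg _ _).symm)
    (rep_adj b (fun _ => 1) (fun _ => -b) rfl rfl)
    (rep_qm (fun i : Fin l => i) (fun _ => (1 : AdjoinRoot (UQ.dp 0 (-b)))) (fun _ => 2)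
      fun i => -algebraMap C (AdjoinRoot (UQ.dp 0 (-b))) (h i))
  have h1 := cmp (rep_qm (fun i : Fin (l + 1) => i) (fun _ => (1 : C)) (fun _ => 2)
      fun i => -(Fin.cons b h : Fin (l + 1) → C) i)
    (Equiv.ofBijective _ hθ) (Equiv.ofBijective _ hθ)
    (σ' := Sum.map (fun _ : Unit => ()) fun i : Fin l => i)
    (a' := Sum.elim (fun _ : Unit => (1 : C)) fun _ => 1)
    (e' := Sum.elim (fun _ : Unit => 2) fun _ => 2)
    (c' := Sum.elim (fun _ : Unit => -b) fun i => -h i)
    (by rintro (j | j) <;> rfl) (by rintro (j | j) <;> rfl) (by rintro (j | j) <;> rfl)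
    (by rintro (i | i) <;> rfl)
  exact h1.equiv h2

/-- A unit of the double cover. -/
theorem unit_of (b h : C) (hu : IsUnit (algebraMap C (AdjoinRoot (UQ.dp 0 b)) h)) :
    IsUnit h := by
  rcases subsingleton_or_nontrivial C with hC | hC
  · exact isUnit_of_subsingleton h
  · obtain ⟨x, hx⟩ := hu.exists_right_inv
    have h1 := congrArg (fun z => (AdjoinRoot.modByMonicHom (UQ.dp_monic 0 b) z).coeff 0) hx
    have h2 : AdjoinRoot.modByMonicHom (UQ.dp_monic 0 b) 1 = 1 := by
      rw [← map_one (AdjoinRoot.mk (UQ.dp 0 b)), AdjoinRoot.modByMonicHom_mk,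
        Polynomial.modByMonic_eq_self_iff (UQ.dp_monic 0 b)]
      rw [degree_one]
      have h3 : (UQ.dp 0 b).degree = 2 := by
        unfold UQ.dp
        compute_degree!
      rw [h3]
      norm_num
    rw [← Algebra.smul_def, map_smul, h2, coeff_smul, smul_eq_mul, coeff_one_zero] at h1
    exact IsUnit.of_mul_eq_one _ h1

end

end QMMAux

open QMMAux in
/-- QMM: several quadratic equations. -/
theorem t_QMM : M_QMM := by
  intro hQ k _ h2 P hP
  have hc0 := hP.cls0
  suffices key : ∀ (s : ℕ) (C : Type) [CommRing C] [Algebra k C] [Algebra.FiniteType k C]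
      (H : Submonoid C), -1 ∈ H →
      (∀ (l : ℕ) (b : Fin l → C), (∀ i, b i ∈ H ∧ IsUnit (b i)) → P (sp k (SQ b))) →
      ∀ (r : ℕ) (σ : Fin r → Fin s) (a : Fin r → C) (e : Fin r → ℕ) (c : Fin s → C),
      (∀ j, a j = 0 ∨ (IsUnit (a j) ∧ a j ∈ H)) → (∀ i, c i = 0 ∨ (IsUnit (c i) ∧ c i ∈ H)) →
      (∀ j, e j = 1 ∨ e j = 2) → P (sp k (QM σ a e c)) by
    intro C _ _ _ H hH hSQ r s
    exact key s C H hH hSQ r
  intro s
  induction s with
  | zero =>
    intro C _ _ _ H _ hSQ r σ a e c _ _ _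
    have h0 := hSQ 0 (fun i => i.elim0) fun i => i.elim0
    have : IsEmpty (Fin r) := ⟨fun j => (σ j).elim0⟩
    have h1 := cmp (rep_qm σ a e c) (Equiv.equivOfIsEmpty (Fin 0) (Fin r))
      (Equiv.refl (Fin 0)) (σ' := fun i : Fin 0 => i) (a' := fun _ => 1) (e' := fun _ => 2)
      (c' := fun i => -(i.elim0 : C)) (fun j => j.elim0) (fun j => j.elim0) (fun j => j.elim0)
      (fun j => j.elim0)
    obtain ⟨E⟩ := (rep_qm (fun i : Fin 0 => i) (fun _ => (1 : C)) (fun _ => 2)
      fun i => -(i.elim0 : C)).equiv h1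
    exact hc0.iso (E.restrictScalars k) h0
  | succ s ih =>
    intro C _ _ _ H hH hSQ r σ a e c ha hc he
    obtain ⟨r₁, ⟨E₁⟩⟩ : ∃ r₁, Nonempty (Fin r₁ ≃ {j // σ j ≠ Fin.last s}) :=
      ⟨_, ⟨(Fintype.equivFin _).symm⟩⟩
    obtain ⟨r₀, ⟨E₀⟩⟩ : ∃ r₀, Nonempty (Fin r₀ ≃ {j // σ j = Fin.last s}) :=
      ⟨_, ⟨(Fintype.equivFin _).symm⟩⟩
    have hσ₁ : ∀ j, ∃ i, (i : Fin s).castSucc = σ (E₁ j).1 := fun j =>
      ⟨(σ (E₁ j).1).castPred (E₁ j).2, Fin.castSucc_castPred _ _⟩
    choose σ₁ hσ₁ using hσ₁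
    obtain ⟨E⟩ := iso1 σ a e c E₁ E₀ σ₁ hσ₁
    refine hc0.iso (E.symm.restrictScalars k) ?_
    refine hQ k h2 P hP (QM σ₁ (fun j => a (E₁ j).1) (fun j => e (E₁ j).1) fun i => c i.castSucc)
      r₀ _ _ _ (fun j => ?_) ?_ (fun j => ?_) ?_ fun b hb hu => ?_
    · rcases ha (E₀ j).1 with h | h
      · left
        rw [h, map_zero]
      · exact Or.inr (h.1.map _)
    · rcases hc (Fin.last s) with h | h
      · left
        rw [h, map_zero]
      · exact Or.inr (h.1.map _)
    · rcases he (E₀ j).1 with h | h <;> omega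
    · exact ih C H hH hSQ r₁ σ₁ _ _ _ (fun j => ha _) (fun i => hc _) fun j => he _
    · obtain ⟨b₀, hb₀, rfl⟩ : ∃ b₀ : C, (b₀ = 0 ∨ (IsUnit b₀ ∧ b₀ ∈ H)) ∧
          algebraMap C (QM σ₁ (fun j => a (E₁ j).1) (fun j => e (E₁ j).1)
            fun i => c i.castSucc) b₀ = b := by
        clear hu
        induction hb using Submonoid.closure_induction with
        | mem x hx =>
          rcases hx with rfl | rfl | ⟨j, rfl⟩
          · exact ⟨-1, Or.inr ⟨isUnit_one.neg, hH⟩, by rw [map_neg, map_one]⟩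
          · exact ⟨_, hc _, rfl⟩
          · exact ⟨_, ha _, rfl⟩
        | one => exact ⟨1, Or.inr ⟨isUnit_one, H.one_mem⟩, map_one _⟩
        | mul x y _ _ hx hy =>
          obtain ⟨x₀, hx₀, rfl⟩ := hx
          obtain ⟨y₀, hy₀, rfl⟩ := hy
          refine ⟨x₀ * y₀, ?_, map_mul _ _ _⟩
          rcases hx₀ with rfl | hx₀
          · exact Or.inl (zero_mul _)
          · rcases hy₀ with rfl | hy₀
            · exact Or.inl (mul_zero _)
            · exact Or.inr ⟨hx₀.1.mul hy₀.1, H.mul_mem hx₀.2 hy₀.2⟩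
      rcases hb₀ with rfl | hb₀
      · rw [map_zero] at hu
        have hB : Subsingleton (QM σ₁ (fun j => a (E₁ j).1) (fun j => e (E₁ j).1)
            fun i => c i.castSucc) := subsingleton_of_zero_eq_one (isUnit_zero_iff.1 hu)
        refine hc0.triv _ ?_
        exact Module.subsingleton (QM σ₁ (fun j => a (E₁ j).1) (fun j => e (E₁ j).1)
            fun i => c i.castSucc) _
      · obtain ⟨E'⟩ := iso2 σ₁ (fun j => a (E₁ j).1) (fun j => e (E₁ j).1)
          (fun i => c i.castSucc) b₀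
        have := UQ.ft_dp k (0 : QM σ₁ (fun j => a (E₁ j).1) (fun j => e (E₁ j).1)
            fun i => c i.castSucc) (-(algebraMap C _ b₀))
        have := UQ.ft_dp k (0 : C) (-b₀)
        refine hc0.iso (E'.symm.restrictScalars k) ?_
        refine ih (AdjoinRoot (UQ.dp 0 (-b₀)))
          (H.map (algebraMap C (AdjoinRoot (UQ.dp 0 (-b₀))))) ?_ ?_ r₁ σ₁ _ _ _ ?_ ?_ ?_
        · exact ⟨-1, hH, by rw [map_neg, map_one]⟩
        · intro l b' hb'
          choose h hh hh' using fun i => (hb' i).1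
          obtain rfl : (fun i => algebraMap C (AdjoinRoot (UQ.dp 0 (-b₀))) (h i)) = b' :=
            funext hh'
          obtain ⟨E''⟩ := iso3 b₀ h
          refine hc0.iso (E''.restrictScalars k) ?_
          refine hSQ (l + 1) (Fin.cons b₀ h) fun i => ?_
          refine Fin.cases ?_ (fun i => ?_) i
          · exact ⟨hb₀.2, hb₀.1⟩
          · exact ⟨hh i, unit_of _ _ (hb' i).2⟩
        · intro j
          rcases ha (E₁ j).1 with h | h
          · left
            rw [h, map_zero]
          · exact Or.inr ⟨h.1.map _, ⟨_, h.2, rfl⟩⟩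
        · intro i
          rcases hc i.castSucc with h | h
          · left
            rw [h, map_zero]
          · exact Or.inr ⟨h.1.map _, ⟨_, h.2, rfl⟩⟩
        · exact fun j => he _

end Pool.Agent.FMS
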