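import Pool.Agent.FMS.St3
import Pool.Agent.FMS.QMM
import Pool.Agent.FMQ.QU3

/-!
# Project FMS, module QM2: several quadratic equations in characteristic two

All square roots of the coefficients are adjoined to the base first, one after the other (`FreeCl`); then
every equation is a unit times a variable plus an equation in the other variables, or the square of a
linear equation.
-/

set_option autoImplicit false

open CategoryTheory AlgebraicGeometry Polynomial

namespace Pool.Agent.FMS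

open Pool.Agent.Lib_helper55.Beil (Var)
open UQ (Mo DimLE sp szer sdbl)
open FMO (Univ Few Add CompX Comp Kp)
open FMQ (FreeCl Dels Fermat ferm Qd qd)
open LFQ (BM)

namespace QM2Aux

variable {k : Type} [Field k]

/-- squares of sums in characteristic two -/
theorem sq_sum {R ι : Type} [CommRing R] (h2 : (2 : R) = 0) (s : Finset ι) (f : ι → R) :
    (∑ i ∈ s, f i) ^ 2 = ∑ i ∈ s, f i ^ 2 := by
  classical
  induction s using Finset.induction_on with
  | empty => simp
  | insert i s hi ih =>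
    rw [Finset.sum_insert hi, Finset.sum_insert hi, ← ih]
    linear_combination (f i * ∑ j ∈ s, f j) * h2

/-- the subvariety `ℓ ^ 2 = 0` -/
theorem dbl {P : ∀ (A : Type) [CommRing A] [Algebra k A] [Algebra.FiniteType k A], Prop}
    (hP : QCV.Cls0 k P) (M : Type) [CommRing M] [Algebra k M] [Algebra.FiniteType k M] (l : M)
    (h : P (M ⧸ Ideal.span {l})) : P (M ⧸ Ideal.span {l ^ 2}) := by
  have hle : Ideal.span {l ^ 2} ≤ RingHom.ker (Ideal.Quotient.mkₐ k (Ideal.span {l})) := by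
    rw [Ideal.span_le]
    rintro _ rfl
    change Ideal.Quotient.mk _ (l ^ 2) = 0
    rw [Ideal.Quotient.eq_zero_iff_mem, Ideal.mem_span_singleton]
    exact dvd_pow_self _ two_ne_zero
  let q : (M ⧸ Ideal.span {l ^ 2}) →ₐ[k] (M ⧸ Ideal.span {l}) :=
    Ideal.Quotient.liftₐ _ (Ideal.Quotient.mkₐ k (Ideal.span {l})) fun a ha => hle ha
  have hq : ∀ p : M, q (Ideal.Quotient.mk _ p) = Ideal.Quotient.mk _ p := fun p => rfl
  let x : M ⧸ Ideal.span {l ^ 2} := Ideal.Quotient.mk _ l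
  have hx : x ^ 2 = 0 := by
    change (Ideal.Quotient.mk _ l) ^ 2 = 0
    rw [← map_pow, Ideal.Quotient.eq_zero_iff_mem]
    exact Ideal.subset_span rfl
  refine hP.glue x q (CUB.awayHom k x) ⟨?_, ?_, CUB.isLocalization_awayHom _⟩ h (hP.triv _ ?_)
  · intro s
    obtain ⟨p, rfl⟩ := Ideal.Quotient.mk_surjective s
    exact ⟨Ideal.Quotient.mk _ p, hq p⟩
  · apply le_antisymm
    · intro y hy
      obtain ⟨p, rfl⟩ := Ideal.Quotient.mk_surjective y
      have h1 : Ideal.Quotient.mk (Ideal.span {l}) p = 0 := hy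
      rw [Ideal.Quotient.eq_zero_iff_mem, Ideal.mem_span_singleton] at h1
      obtain ⟨r, rfl⟩ := h1
      rw [Ideal.mem_span_singleton, map_mul]
      exact ⟨_, rfl⟩
    · rw [Ideal.span_le]
      rintro _ rfl
      change Ideal.Quotient.mk (Ideal.span {l}) l = 0
      rw [Ideal.Quotient.eq_zero_iff_mem]
      exact Ideal.subset_span rfl
  · have h3 : IsUnit (algebraMap _ (Localization.Away x) x) :=
      IsLocalization.Away.algebraMap_isUnit x
    have h4 : (0 : Localization.Away x) = algebraMap _ (Localization.Away x) x ^ 2 := by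
      rw [← map_pow, hx, map_zero]
    have h5 : IsUnit (0 : Localization.Away x) := by
      rw [h4]
      exact h3.pow 2
    exact subsingleton_of_zero_eq_one (isUnit_zero_iff.1 h5)

section

variable {P : Var k → Prop} (hP : LFQ.Clo P) {C : Type} [CommRing C] [Algebra k C]
  [Algebra.FiniteType k C]

include hP

/-- a linear term with a unit -/
theorem lin {r : ℕ} (a : Fin r → C) (e : Fin r → ℕ) (c : C) (hC : P (sp k C)) (j : Fin r)
    (ha : IsUnit (a j)) (he : e j = 1) : P (sp k (Qd a e c)) := by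
  cases r with
  | zero => exact j.elim0
  | succ r =>
    obtain ⟨E⟩ := FMQ.QU3Aux.linear a e c j ha he
    exact hP.cls0.iso (E.restrictScalars k).symm (hP.poly C hC r)

/-- no variables -/
theorem cst {r : ℕ} (a : Fin r → C) (e : Fin r → ℕ) (c : C) (hC : P (sp k C))
    (ha : ∀ j, a j = 0) (hc : c = 0 ∨ IsUnit c) : P (sp k (Qd a e c)) := by
  have h1 : qd a e c = MvPolynomial.C c := by
    unfold qd
    rw [Finset.sum_eq_zero, zero_add]
    intro j _
    rw [ha j, MvPolynomial.C_0, zero_mul]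
  rcases hc with rfl | hc
  · have h2 : Ideal.span {qd a e (0 : C)} = ⊥ := by
      rw [h1, MvPolynomial.C_0, Ideal.span_singleton_eq_bot]
    exact hP.cls0.iso ((Ideal.quotientEquivAlgOfEq k h2).trans (AlgEquiv.quotientBot k _)).symm
      (hP.poly C hC r)
  · refine hP.cls0.triv _ ?_
    rw [Ideal.Quotient.subsingleton_iff, Ideal.span_singleton_eq_top, h1]
    exact hc.map MvPolynomial.C

/-- one equation -/
theorem gen (h2 : (2 : k) = 0) {r : ℕ} (a : Fin r → C) (e : Fin r → ℕ) (c : C)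
    (hC : P (sp k C)) (ha : ∀ j, a j = 0 ∨ (IsUnit (a j) ∧ (e j = 2 → IsSquare (a j))))
    (hc : c = 0 ∨ (IsUnit c ∧ IsSquare c)) (he : ∀ j, e j = 1 ∨ e j = 2) :
    P (sp k (Qd a e c)) := by
  by_cases h3 : ∃ j, IsUnit (a j) ∧ e j = 1
  · obtain ⟨j, hj, hj'⟩ := h3
    exact lin hP a e c hC j hj hj'
  have h4 : ∀ j, ∃ α : C, (α = 0 ∨ IsUnit α) ∧
      (MvPolynomial.C (a j) * MvPolynomial.X j ^ e j : MvPolynomial (Fin r) C) =
        (MvPolynomial.C α * MvPolynomial.X j ^ 1) ^ 2 := by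
    intro j
    rcases ha j with h0 | ⟨h0, h0'⟩
    · refine ⟨0, Or.inl rfl, ?_⟩
      rw [h0, MvPolynomial.C_0, zero_mul, zero_mul, zero_pow two_ne_zero]
    · have h5 : e j = 2 := (he j).resolve_left fun h6 => h3 ⟨j, h0, h6⟩
      obtain ⟨α, hα⟩ := h0' h5
      refine ⟨α, Or.inr ?_, ?_⟩
      · rw [hα] at h0
        exact isUnit_of_mul_isUnit_left h0
      · rw [h5, hα, MvPolynomial.C_mul]
        ring
  choose α hα hα' using h4
  obtain ⟨γ, hγ, rfl⟩ : ∃ γ : C, (γ = 0 ∨ IsUnit γ) ∧ c = γ * γ := by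
    rcases hc with rfl | ⟨h0, ⟨γ, rfl⟩⟩
    · exact ⟨0, Or.inl rfl, (mul_zero _).symm⟩
    · exact ⟨γ, Or.inr (isUnit_of_mul_isUnit_left h0), rfl⟩
  have h2M : (2 : MvPolynomial (Fin r) C) = 0 := by
    have h5 := map_ofNat (algebraMap k (MvPolynomial (Fin r) C)) 2
    rw [← h5]
    change algebraMap k _ (2 : k) = 0
    rw [h2, map_zero]
  have h6 : qd a e (γ * γ) = qd α (fun _ => 1) γ ^ 2 := by
    unfold qd
    have h7 := sq_sum h2M Finset.univ fun j : Fin r =>
      (MvPolynomial.C (α j) * MvPolynomial.X j ^ 1 : MvPolynomial (Fin r) C)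
    have h8 : ∑ j, (MvPolynomial.C (a j) * MvPolynomial.X j ^ e j : MvPolynomial (Fin r) C) =
        ∑ j, (MvPolynomial.C (α j) * MvPolynomial.X j ^ 1) ^ 2 :=
      Finset.sum_congr rfl fun j _ => hα' j
    rw [h8, ← h7, MvPolynomial.C_mul]
    linear_combination (-((∑ j, MvPolynomial.C (α j) * MvPolynomial.X j ^ 1) *
      MvPolynomial.C γ : MvPolynomial (Fin r) C)) * h2M
  have h9 : Ideal.span {qd α (fun _ => 1) γ ^ 2} = Ideal.span {qd a e (γ * γ)} := by rw [h6]
  refine hP.cls0.iso (Ideal.quotientEquivAlgOfEq k h9) ?_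
  refine dbl hP.cls0 (MvPolynomial (Fin r) C) (qd α (fun _ => 1) γ) ?_
  by_cases h10 : ∃ j, α j ≠ 0
  · obtain ⟨j, hj⟩ := h10
    exact lin hP α (fun _ => 1) γ hC j ((hα j).resolve_left hj) rfl
  · exact cst hP α (fun _ => 1) γ hC (fun j => by
      by_contra h11
      exact h10 ⟨j, h11⟩) hγ

end

open QMMAux

/-- all coefficients of squares are squares -/
theorem sqcase (h2 : (2 : k) = 0) {P : Var k → Prop} (hP : LFQ.Clo P) (C : Type) [CommRing C]
    [Algebra k C] [Algebra.FiniteType k C] (b : Fin 0 → C) (hb : P (sp k (SQ b))) (s : ℕ) :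
    ∀ (r : ℕ) (σ : Fin r → Fin s) (a : Fin r → C) (e : Fin r → ℕ) (c : Fin s → C),
      (∀ j, a j = 0 ∨ (IsUnit (a j) ∧ (e j = 2 → IsSquare (a j)))) →
      (∀ i, c i = 0 ∨ (IsUnit (c i) ∧ IsSquare (c i))) → (∀ j, e j = 1 ∨ e j = 2) →
      P (sp k (QM σ a e c)) := by
  have hc0 := hP.cls0
  induction s with
  | zero =>
    intro r σ a e c _ _ _
    have : IsEmpty (Fin r) := ⟨fun j => (σ j).elim0⟩
    have h1 := cmp (rep_qm σ a e c) (Equiv.equivOfIsEmpty (Fin 0) (Fin r))
      (Equiv.refl (Fin 0)) (σ' := fun i : Fin 0 => i) (a' := fun _ => 1) (e' := fun _ => 2)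
      (c' := fun i => -b i) (fun j => j.elim0) (fun j => j.elim0) (fun j => j.elim0)
      (fun j => j.elim0)
    obtain ⟨E⟩ := (rep_qm (fun i : Fin 0 => i) (fun _ => (1 : C)) (fun _ => 2)
      fun i => -b i).equiv h1
    exact hc0.iso (E.restrictScalars k) hb
  | succ s ih =>
    intro r σ a e c ha hc he
    obtain ⟨r₁, ⟨E₁⟩⟩ : ∃ r₁, Nonempty (Fin r₁ ≃ {j // σ j ≠ Fin.last s}) :=
      ⟨_, ⟨(Fintype.equivFin _).symm⟩⟩
    obtain ⟨r₀, ⟨E₀⟩⟩ : ∃ r₀, Nonempty (Fin r₀ ≃ {j // σ j = Fin.last s}) :=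
      ⟨_, ⟨(Fintype.equivFin _).symm⟩⟩
    have hσ₁ : ∀ j, ∃ i, (i : Fin s).castSucc = σ (E₁ j).1 := fun j =>
      ⟨(σ (E₁ j).1).castPred (E₁ j).2, Fin.castSucc_castPred _ _⟩
    choose σ₁ hσ₁ using hσ₁
    obtain ⟨E⟩ := iso1 σ a e c E₁ E₀ σ₁ hσ₁
    refine hc0.iso (E.symm.restrictScalars k) ?_
    refine gen hP h2 _ _ _ ?_ (fun j => ?_) ?_ fun j => he _
    · exact ih r₁ σ₁ _ _ _ (fun j => ha _) (fun i => hc _) fun j => he _
    · rcases ha (E₀ j).1 with h | h
      · left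
        rw [h, map_zero]
      · exact Or.inr ⟨h.1.map _, fun h' => (h.2 h').map _⟩
    · rcases hc (Fin.last s) with h | h
      · left
        rw [h, map_zero]
      · exact Or.inr ⟨h.1.map _, h.2.map _⟩

/-- the root of `b` -/
theorem root_sq {C : Type} [CommRing C] (b : C) :
    IsSquare (algebraMap C (AdjoinRoot (UQ.dp 0 (-b))) b) := by
  have h1 := (rep_adj b (fun _ => 1) (fun _ => -b) rfl rfl).sol ()
  refine ⟨AdjoinRoot.root _, ?_⟩
  have h2 : AdjoinRoot.root (UQ.dp 0 (-b)) ^ 2 +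
      -algebraMap C (AdjoinRoot (UQ.dp 0 (-b))) b = 0 := by
    simpa using h1
  rw [← sq]
  exact (add_neg_eq_zero.1 h2).symm

/-- descent along the adjunction of a square root -/
theorem red1 {P : Var k → Prop} (hP : LFQ.Clo P) (hF : FreeCl P) (A : Type) [CommRing A]
    [Algebra k A] [Algebra.FiniteType k A] (b : A)
    [Algebra.FiniteType k (AdjoinRoot (UQ.dp 0 (-b)))]
    (h : P (sp k (AdjoinRoot (UQ.dp 0 (-b))))) : P (sp k A) := by
  rcases subsingleton_or_nontrivial A with hA | hA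
  · exact hP.cls0.triv A hA
  · have hm := UQ.dp_monic (0 : A) (-b)
    have h1 : Module.Free A (AdjoinRoot (UQ.dp 0 (-b))) := hm.free_adjoinRoot
    have h2 : Module.Finite A (AdjoinRoot (UQ.dp 0 (-b))) := hm.finite_adjoinRoot
    refine hF A (AdjoinRoot (UQ.dp 0 (-b))) ?_ h
    rw [(AdjoinRoot.powerBasis' hm).finrank, AdjoinRoot.powerBasis'_dim]
    have h3 : (UQ.dp 0 (-b) : A[X]).natDegree = 2 := by
      unfold UQ.dp
      compute_degree!
    rw [h3]
    norm_num

/-- the general case -/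
theorem main (h2 : (2 : k) = 0) {P : Var k → Prop} (hP : LFQ.Clo P) (hF : FreeCl P) (l : ℕ) :
    ∀ (C : Type) [CommRing C] [Algebra k C] [Algebra.FiniteType k C] (b : Fin l → C),
      P (sp k (SQ b)) → ∀ (r s : ℕ) (σ : Fin r → Fin s) (a : Fin r → C) (e : Fin r → ℕ)
      (c : Fin s → C),
      (∀ j, a j = 0 ∨ (IsUnit (a j) ∧ (IsSquare (a j) ∨ ∃ i, a j = b i))) →
      (∀ i, c i = 0 ∨ (IsUnit (c i) ∧ (IsSquare (c i) ∨ ∃ i', c i = b i'))) →
      (∀ j, e j = 1 ∨ e j = 2) → P (sp k (QM σ a e c)) := by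
  have hc0 := hP.cls0
  induction l with
  | zero =>
    intro C _ _ _ b hb r s σ a e c ha hc he
    refine sqcase h2 hP C b hb s r σ a e c (fun j => ?_) (fun i => ?_) he
    · rcases ha j with h | ⟨h, h' | ⟨i, _⟩⟩
      · exact Or.inl h
      · exact Or.inr ⟨h, fun _ => h'⟩
      · exact i.elim0
    · rcases hc i with h | ⟨h, h' | ⟨i, _⟩⟩
      · exact Or.inl h
      · exact Or.inr ⟨h, h'⟩
      · exact i.elim0
  | succ l ih =>
    intro C _ _ _ b hb r s σ a e c ha hc he
    have hft := UQ.ft_dp k (0 : C) (-b 0)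
    have hft' := UQ.ft_dp k (0 : QM σ a e c) (-(algebraMap C (QM σ a e c) (b 0)))
    refine red1 hP hF (QM σ a e c) (algebraMap C (QM σ a e c) (b 0)) ?_
    obtain ⟨E⟩ := iso2 σ a e c (b 0)
    refine hc0.iso (E.symm.restrictScalars k) ?_
    have hcons : (Fin.cons (b 0) (fun i => b i.succ) : Fin (l + 1) → C) = b := by
      funext i
      refine Fin.cases rfl (fun i => rfl) i
    obtain ⟨E'⟩ := iso3 (b 0) fun i => b i.succ
    have hsq : ∀ x : C, (IsSquare x ∨ ∃ i, x = b i) →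
        (IsSquare (algebraMap C (AdjoinRoot (UQ.dp 0 (-b 0))) x) ∨
          ∃ i : Fin l, algebraMap C (AdjoinRoot (UQ.dp 0 (-b 0))) x =
            algebraMap C (AdjoinRoot (UQ.dp 0 (-b 0))) (b i.succ)) := by
      rintro x (h | ⟨i, rfl⟩)
      · exact Or.inl (h.map _)
      · refine Fin.cases ?_ (fun i => ?_) i
        · exact Or.inl (root_sq _)
        · exact Or.inr ⟨i, rfl⟩
    refine ih (AdjoinRoot (UQ.dp 0 (-b 0)))
      (fun i => algebraMap C (AdjoinRoot (UQ.dp 0 (-b 0))) (b i.succ)) ?_ r s σ _ e _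
      (fun j => ?_) (fun i => ?_) he
    · refine hc0.iso (E'.restrictScalars k) ?_
      rw [hcons]
      exact hb
    · rcases ha j with h | ⟨h, h'⟩
      · left
        rw [h, map_zero]
      · exact Or.inr ⟨h.map _, hsq _ h'⟩
    · rcases hc i with h | ⟨h, h'⟩
      · left
        rw [h, map_zero]
      · exact Or.inr ⟨h.map _, hsq _ h'⟩

end QM2Aux

open QM2Aux in
/-- QM2: several quadratic equations, characteristic two. -/
theorem t_QM2 : S_QM2 := by
  classical
  intro k _ h2 P hP hF C _ _ _ H _ hSQ r s σ a e c ha hc he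
  have hu : ∀ x : C, (x = 0 ∨ (IsUnit x ∧ x ∈ H)) →
      (if x = 0 then 1 else x) ∈ H ∧ IsUnit (if x = 0 then 1 else x) := by
    intro x hx
    split_ifs with h0
    · exact ⟨H.one_mem, isUnit_one⟩
    · exact ⟨(hx.resolve_left h0).2, (hx.resolve_left h0).1⟩
  refine main h2 hP hF (r + s) C (Fin.append (fun j => if a j = 0 then 1 else a j)
    fun i => if c i = 0 then 1 else c i) (hSQ _ _ fun i => ?_) r s σ a e c (fun j => ?_)
    (fun i => ?_) he
  · refine Fin.addCases (fun j => ?_) (fun i => ?_) i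
    · rw [Fin.append_left]
      exact hu _ (ha j)
    · rw [Fin.append_right]
      exact hu _ (hc i)
  · by_cases h0 : a j = 0
    · exact Or.inl h0
    · refine Or.inr ⟨((ha j).resolve_left h0).1, Or.inr ⟨Fin.castAdd s j, ?_⟩⟩
      rw [Fin.append_left, if_neg h0]
  · by_cases h0 : c i = 0
    · exact Or.inl h0
    · refine Or.inr ⟨((hc i).resolve_left h0).1, Or.inr ⟨Fin.natAdd r i, ?_⟩⟩
      rw [Fin.append_right, if_neg h0]

end Pool.Agent.FMS
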