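import Pool.Agent.FMS.St4
import Pool.Agent.FMQ.SDI

/-!
# FMS, module RSC: change of the coefficients of a system of Delsarte type (helper9)
-/

set_option autoImplicit false

open CategoryTheory AlgebraicGeometry Polynomial

namespace Pool.Agent.FMS

namespace RSCAux

open FMQ.SDIAux (ZZ totL dd tot_dd)

variable {n r : ℕ}

/-- the relations form a submodule -/
def relR (S : Fin r → Finset (Fin n →₀ ℕ)) : Submodule ℤ (ZZ n r) where
  carrier := {z | Rl S z}
  zero_mem' := ⟨fun j α h => absurd rfl h, fun j => rfl⟩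
  add_mem' := by
    rintro z z' ⟨h1, h2⟩ ⟨h1', h2'⟩
    refine ⟨fun j α h => ?_, fun j => ?_⟩
    · by_cases h0 : z j α = 0
      · refine h1' j α fun h0' => h ?_
        rw [Pi.add_apply, Finsupp.add_apply, h0, h0', add_zero]
      · exact h1 j α h0
    · rw [Pi.add_apply, Finsupp.sum_add_index' (fun _ => rfl) (fun _ _ _ => rfl), h2, h2', add_zero]
  smul_mem' := by
    rintro c z ⟨h1, h2⟩
    refine ⟨fun j α h => h1 j α fun h0 => h ?_, fun j => ?_⟩
    · rw [Pi.smul_apply, Finsupp.smul_apply, h0, smul_zero]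
    · rw [Pi.smul_apply, Finsupp.sum_smul_index' (fun _ => rfl)]
      have := h2 j
      rw [← Finsupp.smul_sum, this, smul_zero]

theorem dd_mem (S : Fin r → Finset (Fin n →₀ ℕ)) {j : Fin r} {α β : Fin n →₀ ℕ}
    (hα : α ∈ S j) (hβ : β ∈ S j) : dd j α β ∈ relR S := by
  classical
  refine ⟨fun j' γ h => ?_, fun j' => ?_⟩
  · unfold dd at h
    by_cases hj : j' = j
    · subst hj
      rw [Pi.single_eq_same, Finsupp.sub_apply, Finsupp.single_apply, Finsupp.single_apply] at h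
      by_cases h1 : α = γ
      · rw [← h1]; exact hα
      · by_cases h2 : β = γ
        · rw [← h2]; exact hβ
        · rw [if_neg h1, if_neg h2, sub_zero] at h
          exact absurd rfl h
    · rw [Pi.single_eq_of_ne hj] at h
      exact absurd rfl h
  · unfold dd
    by_cases hj : j' = j
    · subst hj
      rw [Pi.single_eq_same, Finsupp.sum_sub_index (fun _ _ _ => rfl),
        Finsupp.sum_single_index rfl, Finsupp.sum_single_index rfl, sub_self]
    · rw [Pi.single_eq_of_ne hj]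
      exact Finsupp.sum_zero_index

/-- the index set -/
abbrev Ix (S : Fin r → Finset (Fin n →₀ ℕ)) (α₀ : Fin r → (Fin n →₀ ℕ)) : Type :=
  {p : Fin r × (Fin n →₀ ℕ) // p.2 ∈ S p.1 ∧ p.2 ≠ α₀ p.1}

theorem finIx (S : Fin r → Finset (Fin n →₀ ℕ)) (α₀ : Fin r → (Fin n →₀ ℕ)) :
    Finite (Ix S α₀) := by
  classical
  have h : {p : Fin r × (Fin n →₀ ℕ) | p.2 ∈ S p.1 ∧ p.2 ≠ α₀ p.1}.Finite := by
    refine Set.Finite.subset
      ((Finset.univ : Finset (Fin r)) ×ˢ (Finset.univ.biUnion S)).finite_toSet ?_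
    rintro ⟨j, α⟩ ⟨h, -⟩
    rw [Finset.mem_coe, Finset.mem_product]
    exact ⟨Finset.mem_univ _, Finset.mem_biUnion.2 ⟨j, Finset.mem_univ _, h⟩⟩
  exact h.to_subtype

/-- the differences -/
def df (S : Fin r → Finset (Fin n →₀ ℕ)) (α₀ : Fin r → (Fin n →₀ ℕ)) (p : Ix S α₀) : Fin n → ℤ :=
  fun i => (p.1.2 i : ℤ) - α₀ p.1.1 i

theorem tot_df (S : Fin r → Finset (Fin n →₀ ℕ)) (α₀ : Fin r → (Fin n →₀ ℕ)) (p : Ix S α₀) :
    totL n r (dd p.1.1 p.1.2 (α₀ p.1.1)) = df S α₀ p := by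
  funext i
  rw [tot_dd]
  rfl

/-- the coefficient of a combination -/
theorem coef (S : Fin r → Finset (Fin n →₀ ℕ)) (α₀ : Fin r → (Fin n →₀ ℕ))
    [Fintype (Ix S α₀)] (w : Ix S α₀ → ℤ) (p : Ix S α₀) :
    (∑ p' : Ix S α₀, w p' • dd p'.1.1 p'.1.2 (α₀ p'.1.1)) p.1.1 p.1.2 = w p := by
  classical
  rw [Finset.sum_apply, Finsupp.finset_sum_apply, Finset.sum_eq_single p]
  · rw [Pi.smul_apply, Finsupp.smul_apply]
    unfold dd
    rw [Pi.single_eq_same, Finsupp.sub_apply, Finsupp.single_eq_same,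
      Finsupp.single_eq_of_ne p.2.2]
    simp
  · intro p' _ hp
    rw [Pi.smul_apply, Finsupp.smul_apply]
    unfold dd
    by_cases hj : p.1.1 = p'.1.1
    · rw [hj, Pi.single_eq_same, Finsupp.sub_apply, Finsupp.single_apply, Finsupp.single_apply]
      have h1 : p'.1.2 ≠ p.1.2 := by
        intro h
        apply hp
        apply Subtype.ext
        exact Prod.ext hj.symm h
      have h2 : α₀ p'.1.1 ≠ p.1.2 := by
        intro h
        apply p.2.2
        rw [← h, hj]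
      rw [if_neg h1, if_neg h2]
      simp
    · rw [Pi.single_eq_of_ne hj]
      simp
  · intro h
    exact absurd (Finset.mem_univ p) h

theorem indep (S : Fin r → Finset (Fin n →₀ ℕ)) (N : ℕ) (hS : Ds N S)
    (α₀ : Fin r → (Fin n →₀ ℕ)) (h0 : ∀ j, (S j).Nonempty → α₀ j ∈ S j) [Fintype (Ix S α₀)] :
    LinearIndependent ℤ (df S α₀) := by
  rw [Fintype.linearIndependent_iff]
  intro w hw p
  have hz : ∑ p' : Ix S α₀, w p' • dd p'.1.1 p'.1.2 (α₀ p'.1.1) ∈ relR S :=
    Submodule.sum_mem _ fun p' _ => Submodule.smul_mem _ _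
      (dd_mem S p'.2.1 (h0 _ ⟨_, p'.2.1⟩))
  have ht : totL n r (∑ p' : Ix S α₀, w p' • dd p'.1.1 p'.1.2 (α₀ p'.1.1)) = 0 := by
    rw [map_sum, ← hw]
    refine Finset.sum_congr rfl fun p' _ => ?_
    rw [map_smul, tot_df]
  have h := hS.ind _ hz ht
  rw [← coef S α₀ w p, h]
  rfl

theorem tot_mem (S : Fin r → Finset (Fin n →₀ ℕ)) (α₀ : Fin r → (Fin n →₀ ℕ))
    (z : ZZ n r) (hz : Rl S z) : totL n r z ∈ Submodule.span ℤ (Set.range (df S α₀)) := by
  classical
  have e : totL n r z = ∑ j, ∑ α ∈ (z j).support, (z j α) •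
      (fun i => (α i : ℤ) - α₀ j i : Fin n → ℤ) := by
    funext i
    show ∑ j, (z j).sum (fun α c => c * (α i : ℤ)) = _
    rw [Finset.sum_apply]
    refine Finset.sum_congr rfl fun j _ => ?_
    rw [Finset.sum_apply]
    have h2 := hz.2 j
    unfold Finsupp.sum at h2 ⊢
    have h3 : ∑ α ∈ (z j).support, z j α * (α₀ j i : ℤ) = 0 := by
      rw [← Finset.sum_mul, h2, zero_mul]
    rw [← sub_zero (∑ α ∈ (z j).support, z j α * (α i : ℤ)), ← h3, ← Finset.sum_sub_distrib]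
    refine Finset.sum_congr rfl fun α _ => ?_
    rw [Pi.smul_apply, smul_eq_mul, mul_sub]
  rw [e]
  refine Submodule.sum_mem _ fun j _ => Submodule.sum_mem _ fun α hα => Submodule.smul_mem _ _ ?_
  by_cases h : α = α₀ j
  · have : (fun i => (α i : ℤ) - α₀ j i : Fin n → ℤ) = 0 := by
      funext i
      rw [h]
      exact sub_self _
    rw [this]
    exact Submodule.zero_mem _
  · exact Submodule.subset_span ⟨⟨(j, α), hz.1 j α (Finsupp.mem_support_iff.1 hα), h⟩, rfl⟩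

theorem expo (S : Fin r → Finset (Fin n →₀ ℕ)) (N : ℕ) (hS : Ds N S)
    (α₀ : Fin r → (Fin n →₀ ℕ)) (h0 : ∀ j, (S j).Nonempty → α₀ j ∈ S j)
    (x : Fin n → ℤ) (t : ℤ) (ht : t ≠ 0)
    (hx : t • x ∈ Submodule.span ℤ (Set.range (df S α₀))) :
    (N : ℤ) • x ∈ Submodule.span ℤ (Set.range (df S α₀)) := by
  have h1 : Submodule.span ℤ (Set.range (df S α₀)) ≤ (relR S).map (totL n r) := by
    rw [Submodule.span_le]
    rintro _ ⟨p, rfl⟩
    exact ⟨_, dd_mem S p.2.1 (h0 _ ⟨_, p.2.1⟩), tot_df S α₀ p⟩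
  obtain ⟨z, hz, hzx⟩ := h1 hx
  obtain ⟨z', hz', hx'⟩ := hS.exp x t ht ⟨z, hz, hzx.symm⟩
  rw [hx']
  exact tot_mem S α₀ z' hz'

/-! ### the automorphism -/

/-- the automorphism `x_i ↦ τ_i x_i` -/
noncomputable def sc {C : Type} [CommRing C] (τ : Fin n → Cˣ) :
    MvPolynomial (Fin n) C ≃ₐ[C] MvPolynomial (Fin n) C :=
  AlgEquiv.ofAlgHom
    (MvPolynomial.aeval fun i => MvPolynomial.C (τ i : C) * MvPolynomial.X i)
    (MvPolynomial.aeval fun i => MvPolynomial.C ((τ i)⁻¹ : Cˣ).val * MvPolynomial.X i)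
    (by
      apply MvPolynomial.algHom_ext
      intro i
      rw [AlgHom.comp_apply, MvPolynomial.aeval_X, map_mul, MvPolynomial.aeval_X,
        ← MvPolynomial.algebraMap_eq, AlgHom.commutes, ← mul_assoc, ← map_mul, Units.inv_mul,
        map_one, one_mul]
      rfl)
    (by
      apply MvPolynomial.algHom_ext
      intro i
      rw [AlgHom.comp_apply, MvPolynomial.aeval_X, map_mul, MvPolynomial.aeval_X,
        ← MvPolynomial.algebraMap_eq, AlgHom.commutes, ← mul_assoc, ← map_mul, Units.mul_inv,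
        map_one, one_mul]
      rfl)

theorem sc_monomial {C : Type} [CommRing C] (τ : Fin n → Cˣ) (α : Fin n →₀ ℕ) (a : C) :
    sc τ (MvPolynomial.monomial α a) =
      MvPolynomial.monomial α (a * ((∏ i, τ i ^ (α i) : Cˣ) : C)) := by
  show MvPolynomial.aeval (fun i => MvPolynomial.C (τ i : C) * MvPolynomial.X i)
    (MvPolynomial.monomial α a) = _
  rw [MvPolynomial.aeval_monomial, MvPolynomial.monomial_eq, MvPolynomial.algebraMap_eq,
    map_mul, mul_assoc]
  congr 1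
  rw [Finsupp.prod_fintype _ _ (fun i => pow_zero _), Finsupp.prod_fintype _ _ (fun i => pow_zero _)]
  rw [Units.coe_prod, map_prod, ← Finset.prod_mul_distrib]
  refine Finset.prod_congr rfl fun i _ => ?_
  rw [mul_pow, Units.val_pow_eq_pow_val, map_pow]

end RSCAux

open RSCAux in
theorem t_RSC : M_RSC := by
  intro LAT n r N hN S hS C _ a ha
  classical
  -- the base points
  have hα : ∀ j, ∃ α₀ : Fin n →₀ ℕ, (S j).Nonempty → α₀ ∈ S j := by
    intro j
    by_cases h : (S j).Nonempty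
    · obtain ⟨α, hα⟩ := h
      exact ⟨α, fun _ => hα⟩
    · exact ⟨0, fun h' => absurd h' h⟩
  choose α₀ h0 using hα
  have hfin := finIx S α₀
  let _ : Fintype (Ix S α₀) := Fintype.ofFinite _
  obtain ⟨q, θ, -, -, hθ⟩ := LAT (Fin n → ℤ) (Ix S α₀) (df S α₀) N hN (indep S N hS α₀ h0)
    (expo S N hS α₀ h0)
  -- the roots
  have hB : ∀ j α, ∃ b : Cˣ, α ∈ S j → (b : C) ^ N = a j α := by
    intro j α
    by_cases h : α ∈ S j
    · obtain ⟨b, hb⟩ := ha j α h
      exact ⟨b, fun _ => hb⟩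
    · exact ⟨1, fun h' => absurd h' h⟩
  choose B hB using hB
  -- the homomorphism
  let φ : (Ix S α₀ ⊕ Fin q → ℤ) →+ Additive Cˣ :=
    AddMonoidHom.mk' (fun v => ∑ p : Ix S α₀, v (Sum.inl p) •
      Additive.ofMul (B p.1.1 (α₀ p.1.1) / B p.1.1 p.1.2)) (by
        intro v w
        rw [← Finset.sum_add_distrib]
        refine Finset.sum_congr rfl fun p _ => ?_
        rw [Pi.add_apply, add_zsmul])
  let Ψ : (Fin n → ℤ) →+ Additive Cˣ := φ.comp θ
  have hφ : ∀ p : Ix S α₀, Ψ (df S α₀ p) =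
      N • Additive.ofMul (B p.1.1 (α₀ p.1.1) / B p.1.1 p.1.2) := by
    intro p
    show φ (θ (df S α₀ p)) = _
    rw [hθ]
    show ∑ p' : Ix S α₀, (Pi.single (Sum.inl p) (N : ℤ) : Ix S α₀ ⊕ Fin q → ℤ) (Sum.inl p') •
      Additive.ofMul (B p'.1.1 (α₀ p'.1.1) / B p'.1.1 p'.1.2) = _
    rw [Finset.sum_eq_single p]
    · rw [Pi.single_eq_same, natCast_zsmul]
    · intro p' _ hp
      rw [Pi.single_eq_of_ne (fun h => hp (Sum.inl_injective h)), zero_zsmul]
    · intro h
      exact absurd (Finset.mem_univ p) h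
  let τ : Fin n → Cˣ := fun i => (Ψ (Pi.single i 1)).toMul
  have hτ : ∀ α : Fin n →₀ ℕ, Ψ (fun i => (α i : ℤ)) = Additive.ofMul (∏ i, τ i ^ (α i)) := by
    intro α
    have e : (fun i => (α i : ℤ) : Fin n → ℤ) = ∑ i, (α i) • (Pi.single i (1 : ℤ) : Fin n → ℤ) := by
      funext i
      rw [Finset.sum_apply, Finset.sum_eq_single i]
      · rw [Pi.smul_apply, Pi.single_eq_same, nsmul_eq_mul, mul_one]
      · intro j _ hj
        rw [Pi.smul_apply, Pi.single_eq_of_ne (Ne.symm hj), smul_zero]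
      · intro h
        exact absurd (Finset.mem_univ i) h
    rw [e, map_sum, ofMul_prod]
    refine Finset.sum_congr rfl fun i _ => ?_
    rw [map_nsmul, ofMul_pow]
    rfl
  -- the scalars
  let lam : Fin r → Cˣ := fun j => B j (α₀ j) ^ N * ∏ i, τ i ^ (α₀ j i)
  have hlam : ∀ j, ∀ α ∈ S j, B j α ^ N * ∏ i, τ i ^ (α i) = lam j := by
    intro j α hα
    by_cases h : α = α₀ j
    · rw [h]
    · have h1 := hφ ⟨(j, α), hα, h⟩
      have h2 : (df S α₀ ⟨(j, α), hα, h⟩ : Fin n → ℤ) =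
          (fun i => (α i : ℤ)) - fun i => (α₀ j i : ℤ) := rfl
      rw [h2, map_sub, hτ, hτ, ← ofMul_div, ← ofMul_pow] at h1
      have h3 : (∏ i, τ i ^ (α i)) / (∏ i, τ i ^ (α₀ j i)) = (B j (α₀ j) / B j α) ^ N :=
        Additive.ofMul.injective h1
      show _ = B j (α₀ j) ^ N * ∏ i, τ i ^ (α₀ j i)
      rw [div_pow, div_eq_div_iff_mul_eq_mul] at h3
      rw [mul_comm, h3]
  -- the automorphism
  have hmap : ∀ j, sc τ (sS S a j) = MvPolynomial.C (lam j : C) * sS S (fun _ _ => (1 : C)) j := by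
    intro j
    unfold sS
    rw [map_sum, Finset.mul_sum]
    refine Finset.sum_congr rfl fun α hα => ?_
    rw [sc_monomial, MvPolynomial.C_mul_monomial, mul_one, ← hlam j α hα, Units.val_mul,
      Units.val_pow_eq_pow_val, hB j α hα]
  refine ⟨Ideal.quotientEquivAlg _ _ (sc τ) ?_⟩
  rw [Ideal.map_span]
  apply le_antisymm
  · rw [Ideal.span_le]
    rintro _ ⟨j, rfl⟩
    have h1 : MvPolynomial.C (((lam j)⁻¹ : Cˣ) : C) * sc τ (sS S a j) =
        sS S (fun _ _ => (1 : C)) j := by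
      rw [hmap, ← mul_assoc, ← map_mul, Units.inv_mul, map_one, one_mul]
    rw [← h1]
    apply Ideal.mul_mem_left
    apply Ideal.subset_span
    exact ⟨_, ⟨j, rfl⟩, rfl⟩
  · rw [Ideal.span_le]
    rintro _ ⟨_, ⟨j, rfl⟩, rfl⟩
    show sc τ (sS S a j) ∈ _
    rw [hmap]
    apply Ideal.mul_mem_left
    apply Ideal.subset_span
    exact ⟨j, rfl⟩

end Pool.Agent.FMS
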