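import Pool.Agent.FMS.St6
import Pool.Agent.FMS.QMM

/-!
# Project FMS, module RTF (helper66): roots
-/

set_option autoImplicit false

open CategoryTheory AlgebraicGeometry Polynomial

namespace Pool.Agent.FMS

namespace RTFAux

open QMMAux

section

variable {C : Type} [CommRing C]

/-- The algebra with one root. -/
abbrev AR (N : ℕ) (b : C) : Type := AdjoinRoot (X ^ N - Polynomial.C b : C[X])

theorem rep_adjN (N : ℕ) (b : C) (a c : Unit → C) (ha : a () = 1) (hc : c () = -b) :
    Rep (SQM (fun _ : Unit => ()) a (fun _ => N) c) (AR N b)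
      fun _ => AdjoinRoot.root _ := by
  have hS : ∀ (T : Type) [CommRing T] [Algebra C T] (y : Unit → T),
      SQM (fun _ : Unit => ()) a (fun _ => N) c T y ↔ y () ^ N = algebraMap C T b := by
    intro T _ _ y
    have h1 : SQM (fun _ : Unit => ()) a (fun _ => N) c T y ↔
        y () ^ N + -algebraMap C T b = 0 := by
      constructor
      · intro h
        have := h ()
        simpa [ha, hc] using this
      · intro h _
        simpa [ha, hc] using h
    rw [h1, add_neg_eq_zero]
  have hev : ∀ (T : Type) [CommRing T] [Algebra C T] (t : T),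
      (X ^ N - Polynomial.C b : C[X]).eval₂ (algebraMap C T) t = t ^ N - algebraMap C T b := by
    intro T _ _ t
    rw [eval₂_sub, eval₂_X_pow, eval₂_C]
  refine ⟨?_, ?_, ?_⟩
  · rw [hS]
    have h1 := AdjoinRoot.eval₂_root (X ^ N - Polynomial.C b : C[X])
    have h2 := hev (AR N b) (AdjoinRoot.root _)
    rw [AdjoinRoot.algebraMap_eq] at h2 ⊢
    rw [h1] at h2
    exact (sub_eq_zero.1 h2.symm)
  · intro T _ _ y hy
    rw [hS] at hy
    refine ⟨AdjoinRoot.liftAlgHom _ (Algebra.ofId C T) (y ()) ?_, fun v => ?_⟩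
    · have h2 := hev T (y ())
      rw [hy, sub_self] at h2
      exact h2
    · exact AdjoinRoot.liftAlgHom_root _ _ _ _
  · intro T _ _ g g' hg
    exact AdjoinRoot.algHom_ext (hg ())

/-- One more root. -/
theorem isoN (N : ℕ) {l : ℕ} (b : C) (h : Fin l → C) :
    Nonempty (RQ N (Fin.cons b h : Fin (l + 1) → C) ≃ₐ[C]
      RQ N (fun i => algebraMap C (AR N b) (h i))) := by
  have hθ : Function.Bijective
      (Sum.elim (fun _ => 0) Fin.succ : Unit ⊕ Fin l → Fin (l + 1)) := by
    constructor
    · rintro (i | i) (i' | i') h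
      · rfl
      · exact absurd h.symm (Fin.succ_ne_zero i')
      · exact absurd h (Fin.succ_ne_zero i)
      · exact congrArg Sum.inr (Fin.succ_injective l h)
    · intro i
      refine Fin.cases ?_ (fun i => ?_) i
      · exact ⟨Sum.inl (), rfl⟩
      · exact ⟨Sum.inr i, rfl⟩
  have h2 := tow (C := C) _ _ (a' := fun _ : Fin l => (1 : C)) (c' := fun i => -h i)
    (fun _ => (map_one _).symm) (fun _ => (map_neg _ _).symm)
    (rep_adjN N b (fun _ => 1) (fun _ => -b) rfl rfl)
    (rep_qm (fun i : Fin l => i) (fun _ => (1 : AR N b)) (fun _ => N)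
      fun i => -(algebraMap C (AR N b) (h i)))
  have h1 := cmp (rep_qm (fun i : Fin (l + 1) => i) (fun _ => (1 : C)) (fun _ => N)
      fun i => -(Fin.cons b h : Fin (l + 1) → C) i)
    (Equiv.ofBijective _ hθ) (Equiv.ofBijective _ hθ)
    (σ' := Sum.map (fun _ : Unit => ()) fun i : Fin l => i)
    (a' := Sum.elim (fun _ : Unit => (1 : C)) fun _ => 1)
    (e' := Sum.elim (fun _ : Unit => N) fun _ => N)
    (c' := Sum.elim (fun _ : Unit => -b) fun i => -h i)
    (by rintro (j | j) <;> rfl) (by rintro (j | j) <;> rfl) (by rintro (j | j) <;> rfl)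
    (by rintro (i | i) <;> rfl)
  exact h1.equiv h2

/-- No roots. -/
theorem iso0 (N : ℕ) (b : Fin 0 → C) : Nonempty (RQ N b ≃ₐ[C] C) := by
  have h1 := rep_qm (fun i : Fin 0 => i) (fun _ => (1 : C)) (fun _ => N) fun i => - b i
  have h2 : Rep (SQM (fun i : Fin 0 => i) (fun _ => (1 : C)) (fun _ => N) fun i => - b i) C
      (fun i : Fin 0 => i.elim0) := by
    refine ⟨fun i => i.elim0, fun T _ _ y _ => ⟨Algebra.ofId C T, fun v => v.elim0⟩, ?_⟩
    intro T _ _ g g' _
    exact Subsingleton.elim _ _
  exact h1.equiv h2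

theorem main (N : ℕ) (hN : 0 < N) : ∀ (l : ℕ) (C : Type) [CommRing C] [Nontrivial C]
    (b : Fin l → C), Module.Free C (RQ N b) ∧ Module.Finite C (RQ N b) ∧
      Module.finrank C (RQ N b) = N ^ l := by
  intro l
  induction l with
  | zero =>
    intro C _ _ b
    obtain ⟨E⟩ := iso0 N b
    have E' := E.symm.toLinearEquiv
    refine ⟨Module.Free.of_equiv E', Module.Finite.equiv E', ?_⟩
    rw [← E'.finrank_eq, Module.finrank_self, pow_zero]
  | succ l ih =>
    intro C _ _ b
    have hb : (Fin.cons (b 0) (fun i => b i.succ) : Fin (l + 1) → C) = b :=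
      Fin.cons_self_tail b
    obtain ⟨E⟩ := isoN N (b 0) (fun i => b i.succ)
    rw [hb] at E
    have hm : (X ^ N - Polynomial.C (b 0) : C[X]).Monic := monic_X_pow_sub_C _ hN.ne'
    have hd : (X ^ N - Polynomial.C (b 0) : C[X]).natDegree = N := natDegree_X_pow_sub_C
    have hF : Module.Free C (AR N (b 0)) := hm.free_adjoinRoot
    have hFi : Module.Finite C (AR N (b 0)) := hm.finite_adjoinRoot
    have hr : Module.finrank C (AR N (b 0)) = N := by
      rw [(AdjoinRoot.powerBasis' hm).finrank, AdjoinRoot.powerBasis'_dim, hd]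
    have hnt : Nontrivial (AR N (b 0)) :=
      Module.nontrivial_of_finrank_pos (R := C) (by rw [hr]; exact hN)
    obtain ⟨h1, h2, h3⟩ := ih (AR N (b 0)) (fun i => algebraMap C (AR N (b 0)) (b i.succ))
    have E' := E.symm.toLinearEquiv
    have h4 : Module.Free C (RQ N (fun i => algebraMap C (AR N (b 0)) (b i.succ))) :=
      Module.Free.trans (S := AR N (b 0))
    have h5 : Module.Finite C (RQ N (fun i => algebraMap C (AR N (b 0)) (b i.succ))) :=
      Module.Finite.trans (AR N (b 0)) _
    refine ⟨Module.Free.of_equiv E', Module.Finite.equiv E', ?_⟩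
    rw [← E'.finrank_eq, ← Module.finrank_mul_finrank C (AR N (b 0)), hr, h3]
    ring

end

end RTFAux

open RTFAux in
/-- RTF: roots. -/
theorem t_RTF : S_RTF := by
  intro C _ _ N l hN b
  obtain ⟨h1, h2, h3⟩ := main N hN l C b
  refine ⟨h1, h2, ?_, fun i => ?_⟩
  · rw [h3]
    exact pow_pos hN l
  · have h4 := (QMMAux.rep_qm (fun i : Fin l => i) (fun _ => (1 : C)) (fun _ => N)
      fun i => - b i).sol i
    simp only [Finset.sum_ite_eq', Finset.mem_univ, if_true, map_one, one_mul, map_neg] at h4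
    exact add_neg_eq_zero.1 h4

end Pool.Agent.FMS
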