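import Pool.Agent.FMS.St9
import Pool.Agent.FMQ.Asm

/-!
# FMS, module RUL: varieties whose residue fields are small or ruled
-/

set_option autoImplicit false

open CategoryTheory AlgebraicGeometry Limits Polynomial TopologicalSpace

namespace Pool.Agent.FMS

open Pool.Agent.Lib_helper55.Beil Pool.Agent.Lib_helper66.OneP CUB
open UQ (Pt Mo di gp im IDim DimLE sp)
open FMO (At Sm Inv Kp)
open QCV (DL)

namespace RULAux

variable {k : Type} [Field k]

lemma inv_rul : Inv k fun F [Field F] [Algebra k F] => Rul k F := by
  intro F F' _ _ _ _ e h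
  obtain ⟨R, _, _, _, _, hR, ⟨f⟩⟩ := h
  exact ⟨R, inferInstance, inferInstance, inferInstance, inferInstance, hR, ⟨e.symm.trans f⟩⟩

/-- An affine variety is isomorphic to the spectrum of an algebra. -/
theorem exists_sp (U : Var k) (hU : IsAffine U.X) :
    ∃ (A : Type) (_ : CommRing A) (_ : Algebra k A) (_ : Algebra.FiniteType k A)
      (j : OpenIn (sp k A) U), IsIso j.g := by
  let R := Γ(U.X, ⊤)
  let g : Spec R ⟶ Spec (CommRingCat.of k) := U.X.isoSpec.inv ≫ U.f
  let φ : CommRingCat.of k ⟶ R := Spec.preimage g
  have hφ : Spec.map φ = g := Spec.map_preimage g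
  let _ : Algebra k R := φ.hom.toAlgebra
  have h1 : LocallyOfFiniteType g := inferInstance
  have h2 : φ.hom.FiniteType := by
    rw [← hφ] at h1
    exact (HasRingHomProperty.Spec_iff (P := @LocallyOfFiniteType)).1 h1
  have h3 : Algebra.FiniteType k R := h2
  refine ⟨R, inferInstance, inferInstance, h3, ⟨U.X.isoSpec.inv, ?_, ?_⟩, ?_⟩
  · exact hφ.symm
  · show IsOpenImmersion U.X.isoSpec.inv
    infer_instance
  · show IsIso U.X.isoSpec.inv
    infer_instance

/-- the principal open subvariety -/
noncomputable def opn (A : Type) [CommRing A] [Algebra k A] [Algebra.FiniteType k A] (a : A) :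
    OpenIn (sp k (Localization.Away a)) (sp k A) where
  g := Spec.map (CommRingCat.ofHom (algebraMap A (Localization.Away a)))
  comm := by
    change Spec.map _ ≫ Spec.map _ = Spec.map _
    rw [← Spec.map_comp, ← CommRingCat.ofHom_comp]
  isOpen := Scheme.isOpenImmersion_SpecMap_localizationAway (R := .of A) a

lemma kp_bot {A : Type} [CommRing A] [IsDomain A] [Algebra k A] (q : PrimeSpectrum A)
    (hq : q.asIdeal = ⊥) : Nonempty (Kp q ≃ₐ[k] FractionRing A) := by
  have e1 : (A ⧸ q.asIdeal) ≃ₐ[k] A :=
    (Ideal.quotientEquivAlgOfEq k hq).trans (AlgEquiv.quotientBot k A)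
  exact ⟨IsFractionRing.fieldEquivOfAlgEquiv k (Kp q) (FractionRing A) e1⟩

end RULAux

open RULAux in
theorem t_RUL : M_RUL := by
  intro hBIR k _ _ P hP hlow X hX
  have hrul := inv_rul (k := k)
  have hSm : Inv k (Sm fun F [Field F] [Algebra k F] => Rul k F) := (FMQ.s_SMC k).1 _ hrul
  refine FMQ.BSFAux.pf_aux hP X (fun V hint haff hsm g comm hg => ?_) ⊤ X (𝟙 _)
    (Category.id_comp _) inferInstance (fun _ => trivial)
  have hV : ∀ v : Pt V, At (Sm fun F [Field F] [Algebra k F] => Rul k F) V v :=
    fun v => (FMO.t_IMM k V X g comm hg _ hSm v).2 (hX (g v))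
  rcases hV (genericPoint V.X) with h | ⟨hd, hgp⟩
  · have h' : V.dim (genericPoint V.X) ≤ 1 := h
    have h1 : V.DimLE (1 : ℕ) := fun x =>
      (dim_le_of_specializes V (genericPoint_specializes x)).trans (by exact_mod_cast h')
    exact hlow V h1
  · have hd' : V.dim (genericPoint V.X) = ((2 : ℕ) : Cardinal) := by
      have h' : V.dim (genericPoint V.X) = 2 := hd
      rw [h']
      norm_num
    have hgp' : At (fun F [Field F] [Algebra k F] => Rul k F) V (genericPoint V.X) := hgp
    obtain ⟨A, _, _, _, j, hj⟩ := exists_sp V haff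
    have hj' := j.isOpen
    have hne : Nonempty (sp k A).X := ⟨(inv j.g) (genericPoint V.X)⟩
    have hint' : IsIntegral (sp k A).X := isIntegral_of_isOpenImmersion j.g
    have hdom : IsDomain A := (affine_isIntegral_iff (CommRingCat.of A)).1 hint'
    have e1 : j.g (genericPoint (sp k A).X) = genericPoint V.X :=
      genericPoint_eq_of_isOpenImmersion j.g
    have h1 : At (fun F [Field F] [Algebra k F] => Rul k F) (sp k A) (genericPoint (sp k A).X) :=
      (FMO.t_IMM k (sp k A) V j.g j.comm inferInstance _ hrul _).2 (by rw [e1]; exact hgp')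
    have h2 : Rul k (Kp (A := A) (genericPoint (sp k A).X)) :=
      (FMO.RESAux.at_iff _ hrul (genericPoint (sp k A).X : PrimeSpectrum A)).1 h1
    have h3 : (genericPoint (sp k A).X : PrimeSpectrum A).asIdeal = ⊥ := by
      have h4 := genericPoint_eq_bot_of_affine (CommRingCat.of A)
      exact congrArg PrimeSpectrum.asIdeal h4
    obtain ⟨e2⟩ := kp_bot (k := k) _ h3
    obtain ⟨R, _, _, _, _, hR, ⟨e3⟩⟩ := hrul _ _ e2 h2
    obtain ⟨a, b, ha, hb, ⟨f⟩⟩ := hBIR k A R[X] e3
    have hPR : P (sp k R) := hlow _ ((QCV.dimLE_aff 1).2 hR)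
    have hPX : P (sp k R[X]) := hP.line R hPR
    let u := opn (k := k) R[X] b
    let v := opn (k := k) A a
    have hu := u.isOpen
    have hv := v.isOpen
    have hnb : Nontrivial (Localization.Away b) :=
      (IsLocalization.injective (Localization.Away b)
        (powers_le_nonZeroDivisors_of_noZeroDivisors hb)).nontrivial
    have hna : Nontrivial (Localization.Away a) := f.toRingEquiv.toEquiv.nontrivial
    have hneb : Nonempty (sp k (Localization.Away b)).X :=
      inferInstanceAs (Nonempty (PrimeSpectrum (Localization.Away b)))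
    have hnea : Nonempty (sp k (Localization.Away a)).X :=
      inferInstanceAs (Nonempty (PrimeSpectrum (Localization.Away a)))
    have hRint : IsIntegral (sp k R[X]).X := (affine_isIntegral_iff (CommRingCat.of R[X])).2 inferInstance
    let w : OpenIn (sp k (Localization.Away a)) V :=
      { g := v.g ≫ j.g
        comm := by rw [Category.assoc, j.comm, v.comm]
        isOpen := inferInstance }
    have hw := w.isOpen
    -- dimensions
    have hUint : IsIntegral (sp k (Localization.Away b)).X := isIntegral_of_isOpenImmersion u.g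
    have hWint : IsIntegral (sp k (Localization.Away a)).X := isIntegral_of_isOpenImmersion w.g
    have eu : u.g (genericPoint (sp k (Localization.Away b)).X) = genericPoint (sp k R[X]).X :=
      genericPoint_eq_of_isOpenImmersion u.g
    have ew : w.g (genericPoint (sp k (Localization.Away a)).X) = genericPoint V.X :=
      genericPoint_eq_of_isOpenImmersion w.g
    let s : VIso (sp k (Localization.Away b)) (sp k (Localization.Away a)) := viso f
    have es : s.e.hom (genericPoint (sp k (Localization.Away b)).X) =
        genericPoint (sp k (Localization.Away a)).X :=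
      genericPoint_eq_of_isOpenImmersion s.e.hom
    have d1 : (sp k R[X]).dim (genericPoint (sp k R[X]).X) = ((2 : ℕ) : Cardinal) := by
      rw [← eu, dim_map u.g u.comm, ← hd', ← ew, dim_map w.g w.comm, ← es,
        dim_map s.e.hom s.comm]
    obtain ⟨Z, z, hz, hZd⟩ := FMQ.BSFAux.exists_compl u hneb d1.le
    have hU : P (sp k (Localization.Away b)) := hP.cut z u hz hPX (hlow Z hZd)
    have hW : P (sp k (Localization.Away a)) := hP.iso s hU
    obtain ⟨W, w', hw', hWd⟩ := FMQ.BSFAux.exists_compl w hnea hd'.le
    exact hP.paste w' w hw' (hlow W hWd) hW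

end Pool.Agent.FMS
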