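import Pool.Agent.FMS.St

/-!
# Project FMS, module SPL: products of linear factors
-/

set_option autoImplicit false

open Polynomial

namespace Pool.Agent.FMS

namespace SPLAux

/-- the localisation of a quotient: the kernel is killed by the element -/
theorem away_of_surj {R R' U : Type} [CommRing R] [CommRing R'] [CommRing U] (π : R →+* R')
    (hπ : Function.Surjective π) (t : R) (ι : R' →+* U)
    (hloc : @IsLocalization.Away R' _ (π t) U _ ι.toAlgebra)
    (hker : ∀ x, π x = 0 → t * x = 0) :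
    @IsLocalization.Away R _ t U _ (ι.comp π).toAlgebra := by
  have h1 : IsUnit (ι (π t)) := by
    let _ := ι.toAlgebra
    exact IsLocalization.Away.algebraMap_isUnit (S := U) (π t)
  have h2 : ∀ s : U, ∃ (n : ℕ) (a : R'), s * ι (π t) ^ n = ι a := by
    let _ := ι.toAlgebra
    exact fun s => IsLocalization.Away.surj (π t) s
  have h3 : ∀ a b : R', ι a = ι b → ∃ n : ℕ, (π t) ^ n * a = (π t) ^ n * b := by
    let _ := ι.toAlgebra
    intro a b hab
    exact IsLocalization.Away.exists_of_eq (S := U) (π t) hab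
  let _ := (ι.comp π).toAlgebra
  refine IsLocalization.Away.mk t h1 ?_ ?_
  · intro s
    obtain ⟨n, a, ha⟩ := h2 s
    obtain ⟨b, rfl⟩ := hπ a
    exact ⟨n, b, ha⟩
  · intro a b hab
    obtain ⟨n, hn⟩ := h3 (π a) (π b) hab
    refine ⟨n + 1, ?_⟩
    have h4 : π (t ^ n * a - t ^ n * b) = 0 := by
      rw [map_sub, map_mul, map_mul, map_pow, hn, sub_self]
    have h5 := hker _ h4
    have h6 : t ^ (n + 1) * a - t ^ (n + 1) * b = t * (t ^ n * a - t ^ n * b) := by ring
    rw [← sub_eq_zero, h6, h5]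

/-- evaluation at `a` on `A[X] / (f)`, `f(a) = 0` -/
noncomputable def evA (K : Type) [Field K] {A : Type} [CommRing A] [Algebra K A] (f : A[X]) (a : A)
    (h : f.eval a = 0) : AdjoinRoot f →ₐ[K] A :=
  (AdjoinRoot.liftAlgHom f (AlgHom.id A A) a h).restrictScalars K

theorem evA_mk (K : Type) [Field K] {A : Type} [CommRing A] [Algebra K A] (f : A[X]) (a : A)
    (h : f.eval a = 0) (p : A[X]) : evA K f a h (AdjoinRoot.mk f p) = p.eval a := rfl

theorem evA_surj (K : Type) [Field K] {A : Type} [CommRing A] [Algebra K A] (f : A[X]) (a : A)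
    (h : f.eval a = 0) : Function.Surjective (evA K f a h) := fun b =>
  ⟨AdjoinRoot.mk f (C b), by rw [evA_mk, eval_C]⟩

theorem evA_ker (K : Type) [Field K] {A : Type} [CommRing A] [Algebra K A] (f : A[X]) (a : A)
    (h : f.eval a = 0) : RingHom.ker (evA K f a h).toRingHom =
      Ideal.span {AdjoinRoot.mk f (X - C a)} := by
  ext r
  obtain ⟨p, rfl⟩ := AdjoinRoot.mk_surjective r
  rw [RingHom.mem_ker, Ideal.mem_span_singleton]
  change evA K f a h (AdjoinRoot.mk _ p) = 0 ↔ _
  rw [evA_mk]
  constructor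
  · intro h1
    exact map_dvd _ (dvd_iff_isRoot.2 h1)
  · rintro ⟨s, hs⟩
    obtain ⟨g, rfl⟩ := AdjoinRoot.mk_surjective s
    rw [← map_mul, AdjoinRoot.mk_eq_mk] at hs
    have h1 : (X - C a) ∣ p - (X - C a) * g := (dvd_iff_isRoot.2 h).trans hs
    have h2 := (dvd_sub_left (Dvd.intro g rfl)).1 h1
    exact dvd_iff_isRoot.1 h2

/-- one more linear factor -/
theorem step (K : Type) [Field K] (Q : Prp K) (hQ : FMO.Clo K Q) (A : Type) [CommRing A]
    [Algebra K A] [Algebra.FiniteType K A] (hA : Q A) (g : A[X]) (a : A)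
    (hg : Q (AdjoinRoot g)) (ha : g.eval a = 0 ∨ IsUnit (g.eval a)) :
    Q (AdjoinRoot ((X - C a) * g)) := by
  have h0 : ((X - C a) * g).eval a = 0 := by
    rw [eval_mul, eval_sub, eval_X, eval_C, sub_self, zero_mul]
  have hd : g ∣ (X - C a) * g := Dvd.intro_left _ rfl
  let π : AdjoinRoot ((X - C a) * g) →ₐ[K] AdjoinRoot g :=
    (AdjoinRoot.algHomOfDvd A ((X - C a) * g) g hd).restrictScalars K
  have hπ : ∀ p : A[X], π (AdjoinRoot.mk _ p) = AdjoinRoot.mk g p := by
    intro p
    change AdjoinRoot.algHomOfDvd A ((X - C a) * g) g hd (AdjoinRoot.mk _ p) = _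
    rw [AdjoinRoot.coe_algHomOfDvd, AdjoinRoot.liftAlgHom_mk]
    exact AdjoinRoot.aeval_eq p
  let t : AdjoinRoot ((X - C a) * g) := AdjoinRoot.mk _ (X - C a)
  let t' : AdjoinRoot g := AdjoinRoot.mk _ (X - C a)
  let u' : AdjoinRoot g →ₐ[K] Localization.Away t' := IsScalarTower.toAlgHom K _ _
  have hloc' : @IsLocalization.Away _ _ t' _ _ u'.toRingHom.toAlgebra := by
    have h2 : u'.toRingHom.toAlgebra = (inferInstance : Algebra (AdjoinRoot g)
        (Localization.Away t')) := by
      apply Algebra.algebra_ext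
      intro _
      rfl
    rw [h2]
    infer_instance
  have hU : Q (Localization.Away t') := by
    rcases ha with ha | ha
    · exact hQ.opn t' (evA K g a ha) u' ⟨evA_surj K g a ha, evA_ker K g a ha, hloc'⟩ hg hA
    · have hs : Subsingleton (AdjoinRoot g ⧸ Ideal.span {t'}) := by
        rw [Ideal.Quotient.subsingleton_iff]
        refine Ideal.eq_top_of_isUnit_mem _ (x := AdjoinRoot.mk g (C (g.eval a))) ?_ ?_
        · rw [Ideal.mem_span_singleton]
          have h5 : AdjoinRoot.mk g (C (g.eval a)) = - AdjoinRoot.mk g (g - C (g.eval a)) := by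
            rw [map_sub, AdjoinRoot.mk_self, zero_sub, neg_neg]
          rw [h5, dvd_neg]
          exact map_dvd _ (X_sub_C_dvd_sub_C_eval (a := a) (p := g))
        · exact (ha.map C).map (AdjoinRoot.mk g)
      exact hQ.opn t' (Ideal.Quotient.mkₐ K (Ideal.span {t'})) u'
        ⟨Ideal.Quotient.mkₐ_surjective K _, by ext x; exact Ideal.Quotient.eq_zero_iff_mem, hloc'⟩
        hg (hQ.triv _ hs)
  have hloc : @IsLocalization.Away _ _ t _ _ (u'.comp π).toRingHom.toAlgebra := by
    refine away_of_surj π.toRingHom ?_ t u'.toRingHom ?_ ?_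
    · intro r
      obtain ⟨p, rfl⟩ := AdjoinRoot.mk_surjective r
      exact ⟨AdjoinRoot.mk _ p, hπ p⟩
    · have h3 : π.toRingHom t = t' := hπ _
      rw [h3]
      exact hloc'
    · intro x hx
      obtain ⟨p, rfl⟩ := AdjoinRoot.mk_surjective x
      have h4 : AdjoinRoot.mk g p = 0 := (hπ p).symm.trans hx
      rw [AdjoinRoot.mk_eq_zero] at h4
      change AdjoinRoot.mk _ (X - C a) * AdjoinRoot.mk _ p = 0
      rw [← map_mul, AdjoinRoot.mk_eq_zero]
      exact mul_dvd_mul_left _ h4
  exact hQ.glue t (evA K _ a h0) (u'.comp π) ⟨evA_surj K _ a h0, evA_ker K _ a h0, hloc⟩ hA hU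

end SPLAux

/-- SPL: products of linear factors. -/
theorem t_SPL : S_SPL := by
  intro K _ Q hQ A _ _ _ hA s
  induction s with
  | nil =>
    refine hQ.triv _ (subsingleton_of_zero_eq_one ?_)
    rw [← map_one (AdjoinRoot.mk _), eq_comm, AdjoinRoot.mk_eq_zero, List.map_nil, List.prod_nil]
  | cons a s ih =>
    refine SPLAux.step K Q hQ A hA ((s.map fun a => (X - C (algebraMap K A a) : A[X])).prod)
      (algebraMap K A a) ih ?_
    have h1 : (s.map fun a => (X - C (algebraMap K A a) : A[X])).prod =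
        ((s.map fun a => (X - C a : K[X])).prod).map (algebraMap K A) := by
      rw [Polynomial.map_list_prod, List.map_map]
      congr 1
      refine List.map_congr_left fun b _ => ?_
      simp
    rw [h1, eval_map_algebraMap, aeval_algebraMap_apply]
    by_cases h2 : aeval a ((s.map fun a => (X - C a : K[X])).prod) = 0
    · left
      rw [h2, map_zero]
    · right
      exact (IsUnit.mk0 _ h2).map (algebraMap K A)

end Pool.Agent.FMS
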