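import Pool.Agent.FMS.St

set_option autoImplicit false

open Polynomial TensorProduct

namespace Pool.Agent.FMS.TEHAux

open Pool.Agent.FMS

variable {K : Type} [Field K] {q : ℕ} {κ : K}

section HXpart

variable {m : ℕ}

/-- the ideal of the relations -/
noncomputable abbrev HI (q : ℕ) (κ : K) (m : ℕ) :
    Ideal (MvPolynomial (Fin m) (MvPolynomial (Fin m) K)) :=
  Ideal.span (Set.range fun i : Fin m =>
      (MvPolynomial.X i ^ q - MvPolynomial.X i -
        MvPolynomial.C (κ • MvPolynomial.X i ^ (q + 1) : MvPolynomial (Fin m) K) :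
        MvPolynomial (Fin m) (MvPolynomial (Fin m) K)))

/-- the projection -/
noncomputable def hmk (q : ℕ) (κ : K) (m : ℕ) :
    MvPolynomial (Fin m) (MvPolynomial (Fin m) K) →ₐ[K] HX q κ m :=
  Ideal.Quotient.mkₐ K (HI q κ m)

noncomputable def hv (q : ℕ) (κ : K) (m : ℕ) (i : Fin m) : HX q κ m :=
  hmk q κ m (MvPolynomial.C (MvPolynomial.X i))

noncomputable def hw (q : ℕ) (κ : K) (m : ℕ) (i : Fin m) : HX q κ m :=
  hmk q κ m (MvPolynomial.X i)

lemma hrel (i : Fin m) : (hw q κ m i) ^ q - hw q κ m i = κ • (hv q κ m i) ^ (q + 1) := by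
  have h0 : hmk q κ m (MvPolynomial.X i ^ q - MvPolynomial.X i -
      MvPolynomial.C (κ • MvPolynomial.X i ^ (q + 1) : MvPolynomial (Fin m) K)) = 0 :=
    Ideal.Quotient.eq_zero_iff_mem.2 (Ideal.subset_span ⟨i, rfl⟩)
  have h1 : (MvPolynomial.C (κ • MvPolynomial.X i ^ (q + 1) : MvPolynomial (Fin m) K) :
      MvPolynomial (Fin m) (MvPolynomial (Fin m) K)) =
      κ • (MvPolynomial.C (MvPolynomial.X i)) ^ (q + 1) := by
    rw [Algebra.smul_def, Algebra.smul_def, map_mul, map_pow]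
    rfl
  rw [h1, map_sub, map_sub, map_pow, map_smul, map_pow, sub_eq_zero] at h0
  exact h0

variable {B : Type} [CommRing B] [Algebra K B]

/-- the outer evaluation -/
noncomputable def preL (v w : Fin m → B) :
    MvPolynomial (Fin m) (MvPolynomial (Fin m) K) →ₐ[K] B :=
  { MvPolynomial.eval₂Hom (MvPolynomial.aeval (R := K) v : MvPolynomial (Fin m) K →ₐ[K] B).toRingHom
      w with
    commutes' := by
      intro r
      have h : (algebraMap K (MvPolynomial (Fin m) (MvPolynomial (Fin m) K))) r =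
        MvPolynomial.C (MvPolynomial.C r) := rfl
      simp [h] }

lemma preL_X (v w : Fin m → B) (i : Fin m) :
    preL (K := K) v w (MvPolynomial.X i) = w i := by
  show MvPolynomial.eval₂Hom _ w (MvPolynomial.X i) = w i
  simp

lemma preL_C (v w : Fin m → B) (p : MvPolynomial (Fin m) K) :
    preL (K := K) v w (MvPolynomial.C p) = MvPolynomial.aeval v p := by
  show MvPolynomial.eval₂Hom _ w (MvPolynomial.C p) = _
  simp

noncomputable def hL (v w : Fin m → B) (h : ∀ i, w i ^ q - w i = κ • v i ^ (q + 1)) :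
    HX q κ m →ₐ[K] B :=
  Ideal.Quotient.liftₐ (HI q κ m) (preL (K := K) v w) (by
    intro a ha
    have : HI q κ m ≤ RingHom.ker (preL (K := K) v w) := by
      rw [Ideal.span_le]
      rintro _ ⟨i, rfl⟩
      show preL (K := K) v w _ = 0
      rw [map_sub, map_sub, map_pow, preL_X, preL_C, map_smul, map_pow, MvPolynomial.aeval_X, h,
        sub_self]
    exact this ha)

lemma hL_v (v w : Fin m → B) (h : ∀ i, w i ^ q - w i = κ • v i ^ (q + 1)) (i : Fin m) :
    hL v w h (hv q κ m i) = v i := by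
  show preL (K := K) v w (MvPolynomial.C (MvPolynomial.X i)) = v i
  rw [preL_C, MvPolynomial.aeval_X]

lemma hL_w (v w : Fin m → B) (h : ∀ i, w i ^ q - w i = κ • v i ^ (q + 1)) (i : Fin m) :
    hL v w h (hw q κ m i) = w i := by
  show preL (K := K) v w (MvPolynomial.X i) = w i
  rw [preL_X]

lemma hext {f g : HX q κ m →ₐ[K] B} (h1 : ∀ i, f (hv q κ m i) = g (hv q κ m i))
    (h2 : ∀ i, f (hw q κ m i) = g (hw q κ m i)) : f = g := by
  apply Ideal.Quotient.algHom_ext
  apply AlgHom.coe_ringHom_injective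
  apply MvPolynomial.ringHom_ext
  · intro p
    have : ((f.comp (Ideal.Quotient.mkₐ K _)).comp
        (IsScalarTower.toAlgHom K (MvPolynomial (Fin m) K)
          (MvPolynomial (Fin m) (MvPolynomial (Fin m) K)))) =
        ((g.comp (Ideal.Quotient.mkₐ K _)).comp
        (IsScalarTower.toAlgHom K (MvPolynomial (Fin m) K)
          (MvPolynomial (Fin m) (MvPolynomial (Fin m) K)))) := by
      apply MvPolynomial.algHom_ext
      intro i
      exact h1 i
    exact DFunLike.congr_fun this p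
  · intro i
    exact h2 i

end HXpart

section HDpart

variable (q κ) (D : Type) [CommRing D] [Algebra K D]

noncomputable def dv : HD q κ D := AdjoinRoot.of _ X

noncomputable def dw : HD q κ D := AdjoinRoot.root _

noncomputable def dof : D →ₐ[K] HD q κ D := IsScalarTower.toAlgHom K D (HD q κ D)

lemma drel : (dw q κ D) ^ q - dw q κ D = κ • (dv q κ D) ^ (q + 1) := by
  have h : AdjoinRoot.mk (ap q (κ • X ^ (q + 1) : D[X]))
      (X ^ q - X - C (κ • X ^ (q + 1) : D[X])) = 0 := AdjoinRoot.mk_self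
  rw [map_sub, map_sub, map_pow, sub_eq_zero] at h
  refine Eq.trans h ?_
  have h2 := map_smul (IsScalarTower.toAlgHom K D[X] (HD q κ D)) κ (X ^ (q + 1))
  rw [map_pow] at h2
  exact h2

variable {q κ D} {B : Type} [CommRing B] [Algebra K B]

noncomputable def dpre (f : D →ₐ[K] B) (v : B) : D[X] →ₐ[K] B :=
  { eval₂RingHom f.toRingHom v with
    commutes' := by
      intro r
      have h : (algebraMap K D[X]) r = C (algebraMap K D r) := rfl
      simp [h] }

lemma dpre_X (f : D →ₐ[K] B) (v : B) : dpre f v X = v := by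
  show eval₂RingHom f.toRingHom v X = v
  simp

lemma dpre_C (f : D →ₐ[K] B) (v : B) (d : D) : dpre f v (C d) = f d := by
  show eval₂RingHom f.toRingHom v (C d) = f d
  simp

lemma dL_eval (f : D →ₐ[K] B) (v w : B) (h : w ^ q - w = κ • v ^ (q + 1)) :
    eval₂ (dpre f v).toRingHom w (ap q (κ • X ^ (q + 1) : D[X])) = 0 := by
  unfold ap
  rw [eval₂_sub, eval₂_sub, eval₂_X_pow, eval₂_X, eval₂_C]
  have : (dpre f v).toRingHom (κ • X ^ (q + 1)) = κ • v ^ (q + 1) := by
    show dpre f v (κ • X ^ (q + 1)) = _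
    rw [map_smul, map_pow, dpre_X]
  rw [this, h, sub_self]

noncomputable def dL (f : D →ₐ[K] B) (v w : B) (h : w ^ q - w = κ • v ^ (q + 1)) :
    HD q κ D →ₐ[K] B :=
  { AdjoinRoot.lift (dpre f v).toRingHom w (dL_eval f v w h) with
    commutes' := by
      intro r
      have h3 : (algebraMap K (HD q κ D)) r = AdjoinRoot.of _ (algebraMap K D[X] r) := rfl
      rw [h3]
      exact (AdjoinRoot.lift_of (dL_eval f v w h)).trans ((dpre f v).commutes r) }

lemma dL_v (f : D →ₐ[K] B) (v w : B) (h : w ^ q - w = κ • v ^ (q + 1)) :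
    dL f v w h (dv q κ D) = v := by
  exact (AdjoinRoot.lift_of (dL_eval f v w h)).trans (dpre_X f v)

lemma dL_w (f : D →ₐ[K] B) (v w : B) (h : w ^ q - w = κ • v ^ (q + 1)) :
    dL f v w h (dw q κ D) = w := by
  exact AdjoinRoot.lift_root (dL_eval f v w h)

lemma dL_of (f : D →ₐ[K] B) (v w : B) (h : w ^ q - w = κ • v ^ (q + 1)) (d : D) :
    dL f v w h (dof q κ D d) = f d := by
  exact (AdjoinRoot.lift_of (dL_eval f v w h)).trans (dpre_C f v d)

lemma dext {f g : HD q κ D →ₐ[K] B} (h0 : ∀ d, f (dof q κ D d) = g (dof q κ D d))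
    (h1 : f (dv q κ D) = g (dv q κ D)) (h2 : f (dw q κ D) = g (dw q κ D)) : f = g := by
  apply AlgHom.coe_ringHom_injective
  apply AdjoinRoot.ringHom_ext
  · apply Polynomial.ringHom_ext
    · intro d
      exact h0 d
    · exact h1
  · exact h2

end HDpart

section main

/-- the universal property of `HX` -/
structure UX (K : Type) [Field K] (q : ℕ) (κ : K) (m : ℕ) (A : Type) [CommRing A] [Algebra K A]
    (v w : Fin m → A) : Prop where
  rel : ∀ i, w i ^ q - w i = κ • v i ^ (q + 1)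
  lift : ∀ (B : Type) [CommRing B] [Algebra K B] (v' w' : Fin m → B),
    (∀ i, w' i ^ q - w' i = κ • v' i ^ (q + 1)) →
    ∃ f : A →ₐ[K] B, (∀ i, f (v i) = v' i) ∧ ∀ i, f (w i) = w' i
  ext : ∀ (B : Type) [CommRing B] [Algebra K B] (f g : A →ₐ[K] B), (∀ i, f (v i) = g (v i)) →
    (∀ i, f (w i) = g (w i)) → f = g

/-- the universal property of `HD` -/
structure UD (K : Type) [Field K] (q : ℕ) (κ : K) (D : Type) [CommRing D] [Algebra K D] (A : Type)
    [CommRing A] [Algebra K A] (d : D →ₐ[K] A) (v w : A) : Prop where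
  rel : w ^ q - w = κ • v ^ (q + 1)
  lift : ∀ (B : Type) [CommRing B] [Algebra K B] (d' : D →ₐ[K] B) (v' w' : B),
    w' ^ q - w' = κ • v' ^ (q + 1) →
    ∃ f : A →ₐ[K] B, (∀ x, f (d x) = d' x) ∧ f v = v' ∧ f w = w'
  ext : ∀ (B : Type) [CommRing B] [Algebra K B] (f g : A →ₐ[K] B), (∀ x, f (d x) = g (d x)) →
    f v = g v → f w = g w → f = g

lemma ux (q : ℕ) (κ : K) (m : ℕ) : UX K q κ m (HX q κ m) (hv q κ m) (hw q κ m) where
  rel := hrel
  lift := by
    intro B _ _ v' w' h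
    exact ⟨hL v' w' h, hL_v v' w' h, hL_w v' w' h⟩
  ext := by
    intro B _ _ f g h1 h2
    exact hext h1 h2

lemma ud (q : ℕ) (κ : K) (D : Type) [CommRing D] [Algebra K D] :
    UD K q κ D (HD q κ D) (dof q κ D) (dv q κ D) (dw q κ D) where
  rel := drel q κ D
  lift := by
    intro B _ _ d' v' w' h
    exact ⟨dL d' v' w' h, dL_of d' v' w' h, dL_v d' v' w' h, dL_w d' v' w' h⟩
  ext := by
    intro B _ _ f g h0 h1 h2
    exact dext h0 h1 h2

lemma text {A E S : Type} [CommRing A] [Algebra K A] [CommRing E] [Algebra K E] [CommRing S]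
    [Algebra K S] {f g : A ⊗[K] E →ₐ[K] S}
    (h1 : f.comp Algebra.TensorProduct.includeLeft = g.comp Algebra.TensorProduct.includeLeft)
    (h2 : f.comp Algebra.TensorProduct.includeRight = g.comp Algebra.TensorProduct.includeRight) :
    f = g :=
  Algebra.TensorProduct.ext h1 h2

variable {m : ℕ} {D : Type} [CommRing D] [Algebra K D] {A1 A2 H : Type} [CommRing A1]
  [Algebra K A1] [CommRing A2] [Algebra K A2] [CommRing H] [Algebra K H]

theorem key {v1 w1 : Fin (m + 1) → A1} {v2 w2 : Fin m → A2} {d : D →ₐ[K] H} {v w : H}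
    (h1 : UX K q κ (m + 1) A1 v1 w1) (h2 : UX K q κ m A2 v2 w2) (h3 : UD K q κ D H d v w) :
    Nonempty ((D ⊗[K] A1) ≃ₐ[K] (H ⊗[K] A2)) := by
  have r0 : (w ⊗ₜ[K] (1 : A2)) ^ q - w ⊗ₜ[K] (1 : A2) = κ • (v ⊗ₜ[K] (1 : A2)) ^ (q + 1) := by
    rw [Algebra.TensorProduct.tmul_pow, Algebra.TensorProduct.tmul_pow, one_pow, one_pow,
      ← TensorProduct.sub_tmul, h3.rel, TensorProduct.smul_tmul']
  have r2 : ∀ i, ((1 : H) ⊗ₜ[K] w2 i) ^ q - (1 : H) ⊗ₜ[K] w2 i =
      κ • ((1 : H) ⊗ₜ[K] v2 i) ^ (q + 1) := by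
    intro i
    rw [Algebra.TensorProduct.tmul_pow, Algebra.TensorProduct.tmul_pow, one_pow, one_pow,
      ← TensorProduct.tmul_sub, h2.rel, TensorProduct.tmul_smul]
  have r1 : ∀ i, ((1 : D) ⊗ₜ[K] w1 i) ^ q - (1 : D) ⊗ₜ[K] w1 i =
      κ • ((1 : D) ⊗ₜ[K] v1 i) ^ (q + 1) := by
    intro i
    rw [Algebra.TensorProduct.tmul_pow, Algebra.TensorProduct.tmul_pow, one_pow, one_pow,
      ← TensorProduct.tmul_sub, h1.rel, TensorProduct.tmul_smul]
  obtain ⟨a, ha1, ha2⟩ := h1.lift (H ⊗[K] A2)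
    (Fin.cons (v ⊗ₜ[K] (1 : A2)) fun i => (1 : H) ⊗ₜ[K] v2 i)
    (Fin.cons (w ⊗ₜ[K] (1 : A2)) fun i => (1 : H) ⊗ₜ[K] w2 i) (by
      intro i
      refine Fin.cases ?_ (fun i => ?_) i
      · rw [Fin.cons_zero, Fin.cons_zero]
        exact r0
      · rw [Fin.cons_succ, Fin.cons_succ]
        exact r2 i)
  obtain ⟨b, hb1, hb2, hb3⟩ := h3.lift (D ⊗[K] A1)
    (Algebra.TensorProduct.includeLeft : D →ₐ[K] D ⊗[K] A1) ((1 : D) ⊗ₜ[K] v1 0)
    ((1 : D) ⊗ₜ[K] w1 0) (r1 0)
  obtain ⟨c, hc1, hc2⟩ := h2.lift (D ⊗[K] A1) (fun i => (1 : D) ⊗ₜ[K] v1 i.succ)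
    (fun i => (1 : D) ⊗ₜ[K] w1 i.succ) (fun i => r1 i.succ)
  have ha1s : ∀ i : Fin m, a (v1 i.succ) = (1 : H) ⊗ₜ[K] v2 i := by
    intro i
    rw [ha1, Fin.cons_succ]
  have ha2s : ∀ i : Fin m, a (w1 i.succ) = (1 : H) ⊗ₜ[K] w2 i := by
    intro i
    rw [ha2, Fin.cons_succ]
  have ha1z : a (v1 0) = v ⊗ₜ[K] (1 : A2) := by rw [ha1, Fin.cons_zero]
  have ha2z : a (w1 0) = w ⊗ₜ[K] (1 : A2) := by rw [ha2, Fin.cons_zero]
  let F : (D ⊗[K] A1) →ₐ[K] (H ⊗[K] A2) := Algebra.TensorProduct.productMap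
    ((Algebra.TensorProduct.includeLeft : H →ₐ[K] H ⊗[K] A2).comp d) a
  let G : (H ⊗[K] A2) →ₐ[K] (D ⊗[K] A1) := Algebra.TensorProduct.productMap b c
  have F1 : ∀ x : D, F (x ⊗ₜ[K] 1) = d x ⊗ₜ[K] 1 := by
    intro x
    show Algebra.TensorProduct.productMap _ _ _ = _
    rw [Algebra.TensorProduct.productMap_apply_tmul, map_one, mul_one]
    rfl
  have F2 : ∀ x : A1, F (1 ⊗ₜ[K] x) = a x := by
    intro x
    show Algebra.TensorProduct.productMap _ _ _ = _
    rw [Algebra.TensorProduct.productMap_apply_tmul, map_one, one_mul]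
  have G1 : ∀ x : H, G (x ⊗ₜ[K] 1) = b x := by
    intro x
    show Algebra.TensorProduct.productMap _ _ _ = _
    rw [Algebra.TensorProduct.productMap_apply_tmul, map_one, mul_one]
  have G2 : ∀ x : A2, G (1 ⊗ₜ[K] x) = c x := by
    intro x
    show Algebra.TensorProduct.productMap _ _ _ = _
    rw [Algebra.TensorProduct.productMap_apply_tmul, map_one, one_mul]
  have FG : F.comp G = AlgHom.id K _ := by
    apply text
    · apply h3.ext
      · intro x
        show F (G (d x ⊗ₜ[K] 1)) = d x ⊗ₜ[K] 1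
        rw [G1, hb1]
        exact F1 x
      · show F (G (v ⊗ₜ[K] 1)) = v ⊗ₜ[K] 1
        rw [G1, hb2, F2, ha1z]
      · show F (G (w ⊗ₜ[K] 1)) = w ⊗ₜ[K] 1
        rw [G1, hb3, F2, ha2z]
    · apply h2.ext
      · intro i
        show F (G (1 ⊗ₜ[K] v2 i)) = 1 ⊗ₜ[K] v2 i
        rw [G2, hc1, F2, ha1s]
      · intro i
        show F (G (1 ⊗ₜ[K] w2 i)) = 1 ⊗ₜ[K] w2 i
        rw [G2, hc2, F2, ha2s]
  have GF : G.comp F = AlgHom.id K _ := by
    apply text
    · apply AlgHom.ext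
      intro x
      show G (F (x ⊗ₜ[K] 1)) = x ⊗ₜ[K] 1
      rw [F1, G1, hb1]
      rfl
    · apply h1.ext
      · intro i
        show G (F (1 ⊗ₜ[K] v1 i)) = 1 ⊗ₜ[K] v1 i
        refine Fin.cases ?_ (fun i => ?_) i
        · rw [F2, ha1z, G1, hb2]
        · rw [F2, ha1s, G2, hc1]
      · intro i
        show G (F (1 ⊗ₜ[K] w1 i)) = 1 ⊗ₜ[K] w1 i
        refine Fin.cases ?_ (fun i => ?_) i
        · rw [F2, ha2z, G1, hb3]
        · rw [F2, ha2s, G2, hc2]
  exact ⟨AlgEquiv.ofAlgHom F G FG GF⟩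

end main

end Pool.Agent.FMS.TEHAux

namespace Pool.Agent.FMS

open TEHAux

theorem t_TEH : S_TEH := by
  intro q K _ κ
  constructor
  · refine ⟨AlgEquiv.ofAlgHom (hL (fun i => i.elim0) (fun i => i.elim0) (fun i => i.elim0))
      (Algebra.ofId K (HX q κ 0)) ?_ ?_⟩
    · apply AlgHom.ext
      intro r
      exact AlgHom.commutes _ r
    · exact hext (fun i => i.elim0) (fun i => i.elim0)
  · intro m D _ _
    exact key (ux q κ (m + 1)) (ux q κ m) (ud q κ D)

end Pool.Agent.FMS
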