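import Pool.Agent.FMS.St

/-!
# Project FMS (MP_cb388a_ag): module TEN

The closure properties are inherited by `D ↦ Q (D ⊗ R)`.
-/

set_option autoImplicit false

open Polynomial TensorProduct

namespace Pool.Agent.FMS

namespace TENAux

variable {K : Type} [Field K] (R : Type) [CommRing R] [Algebra K R]

/-- The map `z ⊗ R`. -/
noncomputable abbrev tm {A Z : Type} [CommRing A] [CommRing Z] [Algebra K A] [Algebra K Z]
    (z : A →ₐ[K] Z) : A ⊗[K] R →ₐ[K] Z ⊗[K] R :=
  Algebra.TensorProduct.map z (AlgHom.id K R)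

theorem strat {A Z U : Type} [CommRing A] [CommRing Z] [CommRing U] [Algebra K A] [Algebra K Z]
    [Algebra K U] (a : A) (z : A →ₐ[K] Z) (u : A →ₐ[K] U) (h : FMO.Strat a z u) :
    FMO.Strat (a ⊗ₜ[K] (1 : R)) (tm R z) (tm R u) where
  surj := TensorProduct.map_surjective h.surj Function.surjective_id
  ker := by
    have h1 := Algebra.TensorProduct.rTensor_ker (R := K) (S := K) (C := R) z h.surj
    have h2 : RingHom.ker z = Ideal.span {a} := h.ker
    rw [h2, Ideal.map_span, Set.image_singleton] at h1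
    exact h1
  away := by
    letI : Algebra A U := u.toRingHom.toAlgebra
    haveI : IsScalarTower K A U := .of_algebraMap_eq fun x => (u.commutes x).symm
    haveI : IsLocalization (Submonoid.powers a) U := h.away
    letI : Algebra (A ⊗[K] R) (U ⊗[K] R) := (tm R u).toRingHom.toAlgebra
    haveI : IsScalarTower A (A ⊗[K] R) (U ⊗[K] R) := .of_algebraMap_eq fun x => by
      change (algebraMap A U x) ⊗ₜ[K] (1 : R) = tm R u (x ⊗ₜ[K] (1 : R))
      rw [Algebra.TensorProduct.map_tmul, map_one]
      rfl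
    have := IsLocalization.tensorProduct_tensorProduct K R (Submonoid.powers a) U (by
      refine RingHom.ext fun x => ?_
      change tm R u ((1 : A) ⊗ₜ[K] x) = (1 : U) ⊗ₜ[K] x
      rw [Algebra.TensorProduct.map_tmul, map_one]
      rfl)
    rw [Algebra.algebraMapSubmonoid_powers] at this
    exact this

/-- `A[X] ⊗ R` is `(A ⊗ R)[X]`. -/
noncomputable def line (A : Type) [CommRing A] [Algebra K A] :
    (A ⊗[K] R)[X] ≃ₐ[K] A[X] ⊗[K] R :=
  (polyEquivTensor K (A ⊗[K] R)).trans <|
    (Algebra.TensorProduct.assoc K K K A R K[X]).trans <|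
      (Algebra.TensorProduct.congr AlgEquiv.refl (Algebra.TensorProduct.comm K R K[X])).trans <|
        (Algebra.TensorProduct.assoc K K K A K[X] R).symm.trans <|
          Algebra.TensorProduct.congr (polyEquivTensor K A).symm AlgEquiv.refl

theorem sub (A : Type) [CommRing A] [Algebra K A] (h : Subsingleton A) :
    Subsingleton (A ⊗[K] R) := by
  refine subsingleton_of_zero_eq_one ?_
  rw [Algebra.TensorProduct.one_def, ← h.elim 0 (1 : A), TensorProduct.zero_tmul]

end TENAux

open TENAux in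
theorem t_TEN : S_TEN := by
  intro K _ Q hQ hF R _ _ _
  refine ⟨⟨?_, ?_, ?_, ?_, ?_⟩, ?_⟩
  · intro A B _ _ _ _ _ _ e h
    exact hQ.iso (Algebra.TensorProduct.congr e AlgEquiv.refl) h
  · intro A _ _ _ h
    exact hQ.triv _ (sub R A h)
  · intro A Z U _ _ _ _ _ _ _ _ _ a z u h h1 h2
    exact hQ.glue _ _ _ (strat R a z u h) h1 h2
  · intro A Z U _ _ _ _ _ _ _ _ _ a z u h h1 h2
    exact hQ.opn _ _ _ (strat R a z u h) h1 h2
  · intro A _ _ _ h
    exact hQ.iso (line R A) (hQ.line _ h)
  · intro A C _ _ _ _ _ _ _ _ _ _ hr hC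
    rcases subsingleton_or_nontrivial (A ⊗[K] R) with h0 | h0
    · exact hQ.triv _ h0
    haveI : Nontrivial A := by
      by_contra h
      rw [not_nontrivial_iff_subsingleton] at h
      exact not_subsingleton (A ⊗[K] R) (sub (K := K) R A h)
    letI : Algebra (A ⊗[K] R) (C ⊗[K] R) := (tm R (IsScalarTower.toAlgHom K A C)).toRingHom.toAlgebra
    haveI hT : IsScalarTower A (A ⊗[K] R) (C ⊗[K] R) := .of_algebraMap_eq fun x => by
      change (algebraMap A C x) ⊗ₜ[K] (1 : R) =
        tm R (IsScalarTower.toAlgHom K A C) (x ⊗ₜ[K] (1 : R))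
      rw [Algebra.TensorProduct.map_tmul, map_one]
      rfl
    haveI : IsScalarTower K (A ⊗[K] R) (C ⊗[K] R) := .of_algebraMap_eq fun x =>
      ((tm R (IsScalarTower.toAlgHom K A C)).commutes x).symm
    have hP : Algebra.IsPushout A C (A ⊗[K] R) (C ⊗[K] R) := by
      refine Algebra.IsPushout.tensorProduct_tensorProduct K R A C (RingHom.ext fun x => ?_)
      change tm R (IsScalarTower.toAlgHom K A C) ((1 : A) ⊗ₜ[K] x) = (1 : C) ⊗ₜ[K] x
      rw [Algebra.TensorProduct.map_tmul, map_one]
      rfl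
    have e := hP.symm.out.equiv
    haveI : Module.Free (A ⊗[K] R) (C ⊗[K] R) := Module.Free.of_equiv e
    haveI : Module.Finite (A ⊗[K] R) (C ⊗[K] R) := Module.Finite.equiv e
    refine hF (A ⊗[K] R) (C ⊗[K] R) ?_ hC
    rw [← e.finrank_eq, Module.finrank_baseChange]
    exact hr

end Pool.Agent.FMS
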