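import Pool.Agent.FMS.St6

/-!
# FMS, module THA: few additions over a base of dimension at most one, with a system of Delsarte type (helper28)
-/

set_option autoImplicit false

open CategoryTheory AlgebraicGeometry Polynomial TensorProduct

namespace Pool.Agent.FMS

open Pool.Agent.Lib_helper55.Beil (Var)
open UQ (Mo DimLE sp szer)
open FMO (Univ Kp)
open FMQ (FreeCl Dels Fermat ferm)
open QCV (DL)

namespace THAAux

/-- A finite subfamily generates the same ideal. -/
theorem finsub {R : Type} [CommRing R] [IsNoetherianRing R] {ι : Type} (f : ι → R) :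
    ∃ (t : ℕ) (e : Fin t → ι), Ideal.span (Set.range f) = Ideal.span (Set.range fun i => f (e i)) := by
  classical
  have h1 : (Submodule.span R (Set.range f)).FG := IsNoetherian.noetherian _
  obtain ⟨s, hs, h2⟩ := (Submodule.fg_span_iff_fg_span_finset_subset (Set.range f)).1 h1
  have h3 : ∀ x : s, ∃ i, f i = x := fun x => hs x.2
  choose e he using h3
  refine ⟨s.card, fun i => e (s.equivFin.symm i), ?_⟩
  have h4 : (Set.range fun i => f (e (s.equivFin.symm i))) = (s : Set R) := by
    ext x
    constructor
    · rintro ⟨i, rfl⟩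
      show f (e (s.equivFin.symm i)) ∈ (s : Set R)
      rw [he]
      exact (s.equivFin.symm i).2
    · intro hx
      refine ⟨s.equivFin ⟨x, hx⟩, ?_⟩
      show f (e (s.equivFin.symm (s.equivFin ⟨x, hx⟩))) = x
      rw [Equiv.symm_apply_apply, he]
  rw [h4]
  exact h2

/-- The system over a quotient. -/
theorem map_sS {R C : Type} [CommRing R] [CommRing C] (π : R →+* C) {l r : ℕ}
    (g : Fin r → MvPolynomial (Fin l) R) :
    (fun j => MvPolynomial.map π (g j)) =
      sS (fun j => (g j).support) fun j α => π (MvPolynomial.coeff α (g j)) := by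
  funext j
  unfold sS
  conv_lhs => rw [← MvPolynomial.support_sum_monomial_coeff (g j)]
  rw [map_sum]
  refine Finset.sum_congr rfl fun α _ => ?_
  rw [MvPolynomial.map_monomial]

end THAAux

open THAAux in
theorem t_THA : M_THA := by
  intro hACL hEXP hTHK hMVT hISG k _ P hP hF m d N m' hd hN hH A _ _ _ hA n l r ι f g hf hDs hsum
    hmon
  classical
  have hQ := hACL k P hP hF
  obtain ⟨eI⟩ := hISG k A n l ι (Fin r) f g
  -- a finite subfamily
  have hnoeA : IsNoetherianRing A := Algebra.FiniteType.isNoetherianRing k A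
  obtain ⟨t, e, he⟩ := finsub f
  have hft : AddA m fun i => f (e i) := by
    obtain ⟨s, h1, h2⟩ := hf
    exact ⟨s, h1, fun j => h2 (e j)⟩
  -- the base change
  have hHFA : HFA (m + d) N m' (fun (D : Type) [CommRing D] [Algebra k D]
      [Algebra.FiniteType k D] => P (sp k D)) := by
    intro Λ _ _ _ hΛ M c c' hc
    obtain ⟨e1⟩ := hMVT k (M + M) (Fin M) (ferm N c c') Λ
    exact hQ.clo.iso e1.symm (hH Λ hΛ M c c' hc)
  have main : ∀ I : Ideal (MvPolynomial (Fin n) A), I = Ideal.span (Set.range fun i => f (e i)) →
      P (sp k (QR (A := MvPolynomial (Fin n) A ⧸ I)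
        fun j => MvPolynomial.map (Ideal.Quotient.mk I) (g j))) := by
    rintro _ rfl
    let K : Type := Σ j : Fin r, {α // α ∈ (g j).support}
    obtain ⟨V, hV, W, ι', f', φ, τ, hFew, hU, hBD, hτ⟩ := hEXP k A d hA m n t (fun i => f (e i)) hft
      K (fun κ => MvPolynomial.coeff κ.2.1 (g κ.1)) fun κ => hmon _ _
    have h1 := hTHK k _ hQ V W m d hd ι' f' hFew N m' hN hHFA _ φ hU hBD l r
      (fun j => (g j).support) hDs hsum
      (fun j α => if h : α ∈ (g j).support then τ ⟨j, α, h⟩ else 0) (by
        intro j α hα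
        rw [dif_pos hα]
        exact (hτ _).1)
    have e2 : (sS (fun j => (g j).support) fun j α => MvPolynomial.aeval φ
        (if h : α ∈ (g j).support then τ ⟨j, α, h⟩ else 0)) =
        fun j => MvPolynomial.map (Ideal.Quotient.mk
          (Ideal.span (Set.range fun i => f (e i)))) (g j) := by
      rw [map_sS]
      funext j
      unfold sS
      refine Finset.sum_congr rfl fun α hα => ?_
      beta_reduce
      beta_reduce at hα
      rw [dif_pos hα, (hτ _).2]
    have h2 : P (sp k (QR (A := MvPolynomial (Fin n) A ⧸ Ideal.span (Set.range fun i => f (e i)))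
        (sS (fun j => (g j).support) fun j α => MvPolynomial.aeval φ
        (if h : α ∈ (g j).support then τ ⟨j, α, h⟩ else 0)))) := h1
    rw [e2] at h2
    exact h2
  exact hQ.clo.iso eI.symm (main _ he)

end Pool.Agent.FMS
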