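import Pool.Agent.FMS.St7
import Pool.Agent.FMS.ISG
import Pool.Agent.FMS.THA

/-!
# FMS, module THB: few additions over a base of dimension at most one, with quadratic equations (helper30)
-/

set_option autoImplicit false

open CategoryTheory AlgebraicGeometry Polynomial TensorProduct

namespace Pool.Agent.FMS

open Pool.Agent.Lib_helper55.Beil (Var)
open UQ (Mo DimLE sp szer)
open FMO (Univ Kp)
open FMQ (FreeCl Dels Fermat ferm)
open QCV (DL)

namespace THBAux

/-- The system with quadratic equations as a system over the algebra of the base system. -/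
theorem sysQ_eq {A : Type} [CommRing A] {n r s : ℕ} {ι : Type}
    (f : ι → MvPolynomial (Fin n) A) (σ : Fin r → Fin s) (a : Fin r → MvPolynomial (Fin n) A)
    (e : Fin r → ℕ) (c : Fin s → MvPolynomial (Fin n) A) :
    sysQ f σ a e c = sysG f (qm σ a e c) := by
  funext x
  rcases x with i | i
  · rfl
  · show ∑ j with σ j = i, MvPolynomial.rename (Fin.castAdd r) (a j) *
      MvPolynomial.X (Fin.natAdd n j) ^ e j + MvPolynomial.rename (Fin.castAdd r) (c i) =
      MvPolynomial.eval₂Hom (MvPolynomial.rename (Fin.castAdd r)).toRingHom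
        (fun j => MvPolynomial.X (Fin.natAdd n j)) (qm σ a e c i)
    unfold qm
    rw [map_add, map_sum, MvPolynomial.coe_eval₂Hom, MvPolynomial.eval₂_C]
    congr 1
    refine Finset.sum_congr rfl fun j _ => ?_
    rw [MvPolynomial.eval₂_mul, MvPolynomial.eval₂_pow, MvPolynomial.eval₂_C,
      MvPolynomial.eval₂_X]
    rfl

/-- The quadratic equations over a quotient. -/
theorem map_qm {R C : Type} [CommRing R] [CommRing C] (π : R →+* C) {r s : ℕ}
    (σ : Fin r → Fin s) (a : Fin r → R) (e : Fin r → ℕ) (c : Fin s → R) :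
    (fun j => MvPolynomial.map π (qm σ a e c j)) =
      qm σ (fun j => π (a j)) e fun i => π (c i) := by
  funext i
  unfold qm
  rw [map_add, map_sum, MvPolynomial.map_C]
  congr 1
  refine Finset.sum_congr rfl fun j _ => ?_
  rw [map_mul, map_pow, MvPolynomial.map_C, MvPolynomial.map_X]

end THBAux

open THBAux in
theorem t_THB : M_THB := by
  intro hCLF hEXP hTHQ k _ P hP hF m d hd hH A _ _ _ hA n r s ι f σ a e c hf ha hc he
  classical
  have hQ := hCLF k P hP
  rw [sysQ_eq]
  obtain ⟨eI⟩ := t_ISG k A n r ι (Fin s) f (qm σ a e c)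
  -- a finite subfamily
  have hnoeA : IsNoetherianRing A := Algebra.FiniteType.isNoetherianRing k A
  obtain ⟨t, e', he'⟩ := THAAux.finsub f
  have hft : AddA m fun i => f (e' i) := by
    obtain ⟨s, h1, h2⟩ := hf
    exact ⟨s, h1, fun j => h2 (e' j)⟩
  have main : ∀ I : Ideal (MvPolynomial (Fin n) A), I = Ideal.span (Set.range fun i => f (e' i)) →
      P (sp k (QR (A := MvPolynomial (Fin n) A ⧸ I)
        fun j => MvPolynomial.map (Ideal.Quotient.mk I) (qm σ a e c j))) := by
    rintro _ rfl
    obtain ⟨V, hV, W, ι', f', φ, τ, hFew, hU, hBD, hτ⟩ := hEXP k A d hA m n t (fun i => f (e' i))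
      hft (Fin r ⊕ Fin s) (Sum.elim a c) (by
        rintro (j | j)
        · exact ha j
        · exact hc j)
    have h1 := hTHQ k P hP hF V W m d hd ι' f' hFew hH _ φ hU hBD r s σ
      (fun j => τ (Sum.inl j)) e (fun i => τ (Sum.inr i)) (fun j => (hτ _).1)
      (fun i => (hτ _).1) he
    have e2 : qm σ (fun j => MvPolynomial.aeval φ (τ (Sum.inl j))) e
        (fun i => MvPolynomial.aeval φ (τ (Sum.inr i))) =
        fun j => MvPolynomial.map (Ideal.Quotient.mk
          (Ideal.span (Set.range fun i => f (e' i)))) (qm σ a e c j) := by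
      rw [map_qm]
      congr 1
      · funext j
        exact (hτ (Sum.inl j)).2
      · funext j
        exact (hτ (Sum.inr j)).2
    have h2 : P (sp k (QR (A := MvPolynomial (Fin n) A ⧸ Ideal.span (Set.range fun i => f (e' i)))
        (qm σ (fun j => MvPolynomial.aeval φ (τ (Sum.inl j))) e
        (fun i => MvPolynomial.aeval φ (τ (Sum.inr i)))))) := h1
    rw [e2] at h2
    exact h2
  exact hQ.iso eI.symm (main _ he')

end Pool.Agent.FMS
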