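import Pool.Agent.FMS.St6

/-!
# Project FMS, module THK: stratification by the variables of the base (helper39)
-/

set_option autoImplicit false

open CategoryTheory AlgebraicGeometry Polynomial

namespace Pool.Agent.FMS

open Pool.Agent.Lib_helper55.Beil (Var)
open UQ (Mo DimLE sp szer gp Pt)
open FMO (Univ Few Add CompX Comp Kp Laur At Sm Inv)
open FMQ (FreeCl Dels Fermat ferm)
open LFQ (BM SPj)

/-- THK: stratification. -/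
theorem t_THK : M_THK := by
  intro hSTV hEXU hUNQ hMXS hBDH hTKS k _ Q hQ V _ W m d hd ι f hf N m' hN hHF C _ _ _ φ huniv hBD
    l r S hS hm' a ha
  have hC := hQ.clo
  have hQ2 := hMXS k V ι l r f S a ∅ ∅ C φ huniv
  rw [Set.image_empty] at hQ2
  refine hSTV k Q hC (V ⊕ Fin l) (ι ⊕ Fin r) (syS f S a) (Set.range Sum.inl) ?_ _ _ hQ2
  intro U Z₁ hU hZ hUZ D _ _ _ ψ₁ hψ
  obtain ⟨U₀, rfl⟩ : ∃ U₀ : Set V, U = Sum.inl '' U₀ :=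
    ⟨Sum.inl ⁻¹' U, (Set.image_preimage_eq_of_subset hU).symm⟩
  obtain ⟨Z₀, rfl⟩ : ∃ Z₀ : Set V, Z₁ = Sum.inl '' Z₀ :=
    ⟨Sum.inl ⁻¹' Z₁, (Set.image_preimage_eq_of_subset hZ).symm⟩
  have hUZ₀ : ∀ v, v ∈ U₀ ∨ v ∈ Z₀ := by
    intro v
    rcases hUZ (Sum.inl v) ⟨v, rfl⟩ with ⟨w, hw, hwv⟩ | ⟨w, hw, hwv⟩
    · rw [Sum.inl_injective hwv] at hw
      exact Or.inl hw
    · rw [Sum.inl_injective hwv] at hw
      exact Or.inr hw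
  obtain ⟨C₀, _, _, _, φ₀, hφ₀⟩ := hEXU k V ι f U₀ Z₀
  have hQ3 := hMXS k V ι l r f S a U₀ Z₀ C₀ φ₀ hφ₀
  obtain ⟨E2, -⟩ := (hUNQ k).1 _ _ _ _ _ _ _ _ _ hψ hQ3
  refine hC.iso E2.symm ?_
  obtain ⟨g, hg⟩ := huniv.lift C₀ φ₀ hφ₀.sat (fun v hv => absurd hv (Set.notMem_empty v))
    (fun v hv => absurd hv (Set.notMem_empty v))
  have hBD₀ : BD k W d φ₀ :=
    hBDH k V V W W d C C₀ g φ φ₀ (fun w hw => ⟨w, hw, (hg w).symm⟩) hBD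
  exact hTKS k Q hQ V W m d hd ι f hf N m' hN hHF U₀ Z₀ hUZ₀ C₀ φ₀ hφ₀ hBD₀ l r S hS hm' a ha

end Pool.Agent.FMS
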