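import Pool.Agent.FMS.St2

/-!
# FMS_DBM: square roots over a stratum
-/

set_option autoImplicit false

open CategoryTheory AlgebraicGeometry Polynomial

namespace Pool.Agent.FMS

open FMO (Univ Few Comp Kp)

namespace DBMAux

variable {k : Type} [Field k] {V ι : Type}

theorem card_rename {W : Type} (p : MvPolynomial V k) (g : V → W) (hg : Function.Injective g) :
    (MvPolynomial.rename g p).support.card ≤ p.support.card := by
  classical
  rw [MvPolynomial.support_rename_of_injective hg]
  exact Finset.card_image_le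

theorem sum_one {R : Type} [CommRing R] {l : ℕ} (i : Fin l) (F : Fin l → R) :
    (∑ j with j = i, F j) = F i := by
  rw [Finset.sum_filter, Finset.sum_ite_eq', if_pos (Finset.mem_univ i)]

theorem few {f : ι → MvPolynomial V k} {l : ℕ} {τ : Fin l → MvPolynomial V k} {m : ℕ}
    (h : Few m f) (hτ : ∀ i, (τ i).support.card ≤ 1) :
    Few m (sym f (fun i : Fin l => i) (fun _ => (1 : MvPolynomial V k)) (fun _ => 2)
      fun i => - τ i) := by
  classical
  obtain ⟨t, h1, h2, h3⟩ := h
  refine ⟨t.map Function.Embedding.inl, by rwa [Finset.card_map], ?_, ?_⟩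
  · intro j hj
    obtain ⟨i, hi, rfl⟩ := Finset.mem_map.1 hj
    exact (card_rename (f i) _ Sum.inl_injective).trans (h2 i hi)
  · rintro (i | i) hj
    · refine (card_rename (f i) _ Sum.inl_injective).trans (h3 i fun hi => hj ?_)
      exact Finset.mem_map.2 ⟨i, hi, rfl⟩
    · have e : sym f (fun i : Fin l => i) (fun _ => (1 : MvPolynomial V k)) (fun _ => 2)
          (fun i => - τ i) (Sum.inr i) =
          MvPolynomial.X (Sum.inr i) ^ 2 - MvPolynomial.rename Sum.inl (τ i) := by
        show (∑ j with j = i, MvPolynomial.rename Sum.inl (1 : MvPolynomial V k) *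
          MvPolynomial.X (Sum.inr j) ^ 2) + MvPolynomial.rename Sum.inl (- τ i) = _
        rw [sum_one i (fun j => MvPolynomial.rename Sum.inl (1 : MvPolynomial V k) *
          MvPolynomial.X (Sum.inr j) ^ 2), map_one, one_mul, map_neg, sub_eq_add_neg]
      rw [e]
      refine (Finset.card_le_card (MvPolynomial.support_sub (V ⊕ Fin l) _ _)).trans ?_
      refine (Finset.card_union_le _ _).trans ?_
      rw [MvPolynomial.support_X_pow, Finset.card_singleton]
      have := (card_rename (τ i) (Sum.inl : V → V ⊕ Fin l) Sum.inl_injective).trans (hτ i)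
      omega

theorem root_sq {C : Type} [CommRing C] {l : ℕ} (b : Fin l → C) (i : Fin l) :
    (Ideal.Quotient.mk (Ideal.span (Set.range (qm (fun i : Fin l => i) (fun _ => (1 : C))
      (fun _ => 2) fun i => - b i))) (MvPolynomial.X i)) ^ 2 =
      Ideal.Quotient.mk _ (MvPolynomial.C (b i)) := by
  rw [← map_pow, ← sub_eq_zero, ← map_sub, Ideal.Quotient.eq_zero_iff_mem]
  refine Ideal.subset_span ⟨i, ?_⟩
  show (∑ j with j = i, MvPolynomial.C (1 : C) * MvPolynomial.X j ^ 2) +
    MvPolynomial.C (- b i) = _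
  rw [sum_one i (fun j => MvPolynomial.C (1 : C) * MvPolynomial.X j ^ 2), map_one, one_mul,
    map_neg, sub_eq_add_neg]

theorem add_unit {W : Type} {F : ι → MvPolynomial W k} {U Z U' : Set W} {D : Type} [CommRing D]
    [Algebra k D] {χ : W → D} (h : Univ F U Z D χ) (hU : ∀ w ∈ U', IsUnit (χ w)) :
    Univ F (U ∪ U') Z D χ where
  sat := h.sat
  unit := by
    rintro v (hv | hv)
    · exact h.unit v hv
    · exact hU v hv
  zero := h.zero
  lift := fun E _ _ ψ h1 h2 h3 => h.lift E ψ h1 (fun v hv => h2 v (Or.inl hv)) h3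
  ext := h.ext

theorem mxm (hM : S_MXM) {f : ι → MvPolynomial V k} {r s : ℕ} (σ : Fin r → Fin s)
    (b : Fin r → MvPolynomial V k) (e : Fin r → ℕ) (c : Fin s → MvPolynomial V k)
    {U Z : Set V} {C : Type} [CommRing C] [Algebra k C] {φ : V → C} (h : Univ f U Z C φ)
    (b' : Fin r → C) (hb : (fun j => MvPolynomial.aeval φ (b j)) = b')
    (c' : Fin s → C) (hc : (fun i => MvPolynomial.aeval φ (c i)) = c') :
    Univ (sym f σ b e c) (Sum.inl '' U) (Sum.inl '' Z) (QM σ b' e c')
      (Sum.elim (fun v => Ideal.Quotient.mk _ (MvPolynomial.C (φ v)))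
        fun j => Ideal.Quotient.mk _ (MvPolynomial.X j)) := by
  subst hb hc
  exact hM k V ι r s f σ b e c U Z C φ h

end DBMAux

open DBMAux in
theorem t_DBM : M_DBM := by
  intro hS hM k _ P hP m hm hK V _ ι f hf U Z hUZ C _ _ _ φ hφ l τ hτ hu
  have e1 : (fun _ : Fin l => MvPolynomial.aeval φ (1 : MvPolynomial V k)) =
      fun _ => (1 : C) := funext fun _ => map_one _
  have e2 : (fun i : Fin l => MvPolynomial.aeval φ (- τ i)) =
      fun i => - MvPolynomial.aeval φ (τ i) := funext fun i => map_neg _ _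
  have h1 := mxm hM (fun i : Fin l => i) (fun _ => (1 : MvPolynomial V k)) (fun _ => 2)
    (fun i => - τ i) hφ _ e1 _ e2
  have h2 := add_unit (U' := Set.range Sum.inr) h1 (by
    rintro _ ⟨i, rfl⟩
    refine (isUnit_pow_iff two_ne_zero).1 ?_
    show IsUnit ((Ideal.Quotient.mk _ (MvPolynomial.X i)) ^ 2)
    rw [root_sq]
    exact ((hu i).map MvPolynomial.C).map _)
  refine hS k P hP m hm hK (V ⊕ Fin l) (ι ⊕ Fin l) _ (few hf hτ)
    (Sum.inl '' U ∪ Set.range Sum.inr) (Sum.inl '' Z) ?_ _ _ h2
  rintro (v | i)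
  · rcases hUZ v with h | h
    · exact Or.inl (Or.inl ⟨v, h, rfl⟩)
    · exact Or.inr ⟨v, h, rfl⟩
  · exact Or.inl (Or.inr ⟨i, rfl⟩)

end Pool.Agent.FMS
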