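import Pool.Agent.FMQ.St

/-!
# Products of Hermitian curves, several quadratic equations (project FMS, MP_cb388a_ag, architect helper67): statements

Every statement `S_XXX` is a module: `theorem t_XXX : S_XXX` (or `M_XXX : S_YYY → ... → S_XXX`) in
`Pool/Agent/FMS/XXX.lean`, import `Pool.Agent.FMS.St`, auxiliary lemmas in namespace `Pool.Agent.FMS.XXXAux`.
-/

set_option autoImplicit false

open CategoryTheory AlgebraicGeometry Polynomial

namespace Pool.Agent.FMS

open Pool.Agent.Lib_helper55.Beil (Var)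
open UQ (Mo DimLE sp szer)
open FMO (Univ Few Add CompX Comp Kp)
open FMQ (FreeCl Terms Dels Fermat ferm)
open LFQ (BM)

universe v

/-! ## First part: properties of algebras over a finite field `K` -/

/-- A property of finitely generated `K`-algebras. -/
abbrev Prp (K : Type) [Field K] : Type 1 :=
  ∀ (D : Type) [CommRing D] [Algebra K D] [Algebra.FiniteType K D], Prop

instance ftAdj {K A : Type} [Field K] [CommRing A] [Algebra K A] [Algebra.FiniteType K A] (p : A[X]) :
    Algebra.FiniteType K (AdjoinRoot p) :=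
  Algebra.FiniteType.of_surjective (AdjoinRoot.mkₐ p |>.restrictScalars K)
    AdjoinRoot.mk_surjective

open TensorProduct in
instance ftTen {K A R : Type} [Field K] [CommRing A] [Algebra K A] [Algebra.FiniteType K A]
    [CommRing R] [Algebra K R] [Algebra.FiniteType K R] : Algebra.FiniteType K (A ⊗[K] R) :=
  Algebra.FiniteType.trans (S := A) inferInstance (Algebra.FiniteType.baseChange A)

/-- The polynomial `X ^ q - X - α`. -/
noncomputable def ap (q : ℕ) {A : Type} [CommRing A] (α : A) : A[X] := X ^ q - X - C α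

/-- The algebra `A[w] / (w ^ q - w - α)`. -/
abbrev AS (q : ℕ) {A : Type} [CommRing A] (α : A) : Type := AdjoinRoot (ap q α)

/-- The algebra `A[w_1, ..., w_r] / (w_i ^ q - w_i - α_i)`. -/
abbrev XS (q : ℕ) {A : Type} [CommRing A] {r : ℕ} (α : Fin r → A) : Type :=
  MvPolynomial (Fin r) A ⧸ Ideal.span (Set.range fun i : Fin r =>
    (MvPolynomial.X i ^ q - MvPolynomial.X i - MvPolynomial.C (α i) : MvPolynomial (Fin r) A))

/-- `q` is a power of the characteristic `p` of `K`, and `K` contains the field with `q ^ 2` elements. -/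
structure Dat (p q : ℕ) (K : Type) [Field K] : Prop where
  pr : p.Prime
  char : CharP K p
  pow : ∃ ν, 1 ≤ ν ∧ q = p ^ ν
  card : Nat.card {a : K // a ^ (q ^ 2) = a} = q ^ 2

/-- FQ (200 lines), elements of the field with `q ^ 2` elements. PROOF. `F = {a | a ^ (q ^ 2) = a}` is a subfield with `q ^ 2` elements (or: the roots of `X ^ (q ^ 2) - X`, which splits in
`K`); its unit group is cyclic of order `q ^ 2 - 1 = (q - 1)(q + 1)`. (i) the solutions of `a ^ (q - 1) = 1` and zero. (ii) `-1` is a `(q - 1)`-th power, because `(-1) ^ (q + 1) = 1` (`q` odd), resp. `-1 = 1`. (iii) the norm is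
surjective (elements with `b ^ (q - 1) = 1` are `(q + 1)`-th powers). (iv) there are `q + 1 ≥ 3` solutions. (v) the `q ^ 2` elements are different roots of a monic polynomial of degree `q ^ 2`. (vi) `N ∣ q + 1 ∣ q ^ 2 - 1`: there are `N` solutions
`ω` of `ω ^ N = 1` in `F`, and the `N` elements `b ω` are different roots. -/
def S_FQ : Prop := ∀ (p q : ℕ) (K : Type) [Field K], Dat p q K →
  Nat.card {a : K // a ^ q = a} = q ∧ (∃ κ : K, κ ≠ 0 ∧ κ ^ q = -κ) ∧
  (∀ b : K, b ^ q = b → ∃ c : K, c ^ (q + 1) = b) ∧ (∃ θ : K, θ ^ (q + 1) = 1 ∧ θ ≠ 1) ∧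
  (∃ s : List K, (X ^ (q ^ 2) - X : K[X]) = (s.map fun a => X - C a).prod) ∧
  ∀ (N : ℕ) (b : K), N ∣ q + 1 → b ≠ 0 →
    ∃ s : List K, (X ^ N - C (b ^ N) : K[X]) = (s.map fun a => X - C a).prod

/-- HYC (150 lines), hyperbolic coordinates. PROOF. `ζ ^ (q + 1) = -a / b` and `θ` by `FQ`; `X_0 ↦ a⁻¹ X_0 + (1 - θ)⁻¹ X_1`, `X_1 ↦ ζ (a⁻¹ X_0 + θ (1 - θ)⁻¹ X_1)`. With `s = a⁻¹ X_0`, `t = (1 - θ)⁻¹ X_1`:
`a (s + t) ^ (q + 1) + b ζ ^ (q + 1) (s + θ t) ^ (q + 1) = a ((1 - θ) s ^ q t + (1 - θ ^ q) s t ^ q)`, because `(s + t) ^ q = s ^ q + t ^ q` (characteristic `p`), `θ ^ (q + 1) = 1`; and `a ^ q = a`. -/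
def S_HYC : Prop := ∀ (p q : ℕ) (K : Type) [Field K], Dat p q K → ∀ (a b : K), a ≠ 0 → b ≠ 0 →
  a ^ q = a → b ^ q = b → ∀ (D : Type) [CommRing D] [Algebra K D],
  ∃ e : MvPolynomial (Fin 2) D ≃ₐ[D] MvPolynomial (Fin 2) D,
    e (a • MvPolynomial.X 0 ^ (q + 1) + b • MvPolynomial.X 1 ^ (q + 1)) =
      MvPolynomial.X 0 ^ q * MvPolynomial.X 1 + MvPolynomial.X 0 * MvPolynomial.X 1 ^ q

def M_HYC : Prop := S_FQ → S_HYC

/-- The property descends along finite free extensions. -/
def FreeA {K : Type} [Field K] (Q : Prp K) : Prop := ∀ (A C : Type) [CommRing A] [Algebra K A]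
  [Algebra.FiniteType K A] [CommRing C] [Algebra K C] [Algebra.FiniteType K C] [Algebra A C]
  [IsScalarTower K A C] [Module.Free A C] [Module.Finite A C], 0 < Module.finrank A C → Q C → Q A

/-- SPL (150 lines), products of linear factors. PROOF. Induction on the length of the list. `s = a :: s'`, `g` the product for `s'`, `R = A[X] / ((X - a) g)`: glue along the element `x - a` (`x` the root): closed part
`A[X] / ((X - a) g, X - a) ≃ A`; open part: the localisation of `R` away from `x - a` is the localisation of `A[X] / (g)` away from `x - a` (`FMO.Clo.opn`), the closed part of `A[X] / (g)` is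
`A[X] / (g, X - a) ≃ A ⧸ (g(a))`, and `g(a) ∈ K` is zero or a unit: `A` or trivial. -/
def S_SPL : Prop := ∀ (K : Type) [Field K] (Q : Prp K), FMO.Clo K Q → ∀ (A : Type) [CommRing A]
  [Algebra K A] [Algebra.FiniteType K A], Q A → ∀ s : List K,
  Q (AdjoinRoot (s.map fun a => (X - C (algebraMap K A a) : A[X])).prod)

/-- NLP (60 lines), nilpotents. PROOF. Glue along the root `x` of `X ^ n`, `n ≥ 1`: closed part `A`, the open part is trivial. -/
def S_NLP : Prop := ∀ (K : Type) [Field K] (Q : Prp K), FMO.Clo K Q → ∀ (A : Type) [CommRing A]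
  [Algebra K A] [Algebra.FiniteType K A], Q A → ∀ n : ℕ, Q (AdjoinRoot (X ^ n : A[X]))

/-- HPB (300 lines), the hyperbolic step. PROOF. `R` = the algebra on the right, `x = X 0`, `y = X 1`. `R[μ] / (μ ^ q - y)` is free of rank `q` over `R` (`FreeA`); with `r = z + κ μ x` (`z` the root of `R`) it is isomorphic to
`C = A[x, μ, r] / (r ^ q - r - κ (μ ^ (q ^ 2) - μ) x - ρ)`: `z = r - κ μ x`, `z ^ q - z = r ^ q + κ μ ^ q x ^ q - r + κ μ x` (`κ ^ q = -κ`, characteristic `p`) and `κ (x ^ q μ ^ q + x μ ^ (q ^ 2))`. Glue `C` along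
`δ = μ ^ (q ^ 2) - μ`: on the open part `x` is determined by `r`, `μ`: it is the localisation of `A[μ, r]` away from `δ` (`Clo.opn`; the closed part `A[r][μ] / (μ ^ (q ^ 2) - μ)` by `SPL`, because `X ^ (q ^ 2) - X` is a product of linear
factors over `K`); the closed part of `C` is `(A[r] / (r ^ q - r - ρ))[x][μ] / (μ ^ (q ^ 2) - μ)`: `Clo.line` and `SPL`. -/
def S_HPB : Prop := ∀ (p q : ℕ) (K : Type) [Field K], Dat p q K → ∀ κ : K, κ ≠ 0 → κ ^ q = -κ →
  ∀ Q : Prp K, FMO.Clo K Q → FreeA Q → ∀ (A : Type) [CommRing A] [Algebra K A]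
    [Algebra.FiniteType K A] (ρ : A), Q A → Q (AS q ρ) →
    Q (AS q (κ • (MvPolynomial.X 0 ^ q * MvPolynomial.X 1 + MvPolynomial.X 0 * MvPolynomial.X 1 ^ q) +
      MvPolynomial.C ρ : MvPolynomial (Fin 2) A))

def M_HPB : Prop := S_FQ → S_SPL → S_HPB

/-- The property holds for all algebras which are finite over `K[X]` (curves). -/
def Cur {K : Type} [Field K] (Q : Prp K) : Prop := ∀ (C : Type) [CommRing C] [Algebra K C]
  [Algebra.FiniteType K C] [Algebra K[X] C] [IsScalarTower K K[X] C] [Module.Finite K[X] C], Q C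

/-- YMC (200 lines), diagonal Hermitian forms. PROOF. Strong induction on `m`. `m = 0`, `m = 1`: finite over `K`, resp. `K[X_0]`: `Cur`. `m ≥ 2`: if some `a_i = 0` then the algebra is the polynomial ring in `X_i` over the algebra for the other
variables (`Clo.line`; for `i = 0`, `i = 1` it is enough). If `a_0`, `a_1` are not zero: `A = K[X_2, ..., X_(m-1)]`, `ρ = κ ∑_(i ≥ 2) a_i X_i ^ (q + 1)`; `MvPolynomial (Fin m) K ≃ MvPolynomial (Fin 2) A`, `HYC` for `D = A`, and `HPB`;
`Q A`: `Cur` for `K` and `Clo.line`; `Q (AS q ρ)`: induction. -/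
def S_YMC : Prop := ∀ (p q : ℕ) (K : Type) [Field K], Dat p q K → ∀ κ : K, κ ≠ 0 → κ ^ q = -κ →
  ∀ Q : Prp K, FMO.Clo K Q → FreeA Q → Cur Q → ∀ (m : ℕ) (a : Fin m → K), (∀ i, a i ^ q = a i) →
    Q (AS q (κ • ∑ i, a i • MvPolynomial.X i ^ (q + 1) : MvPolynomial (Fin m) K))

def M_YMC : Prop := S_HYC → S_HPB → S_YMC

/-- The relation between the quotients of a double Artin-Schreier covering. -/
def ASCl (q : ℕ) {K : Type} [Field K] (Q : Prp K) : Prop := ∀ (A : Type) [CommRing A] [Algebra K A]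
  [Algebra.FiniteType K A] (α β : A), (∀ a : K, a ^ q = a → Q (AS q (α + a • β))) → Q (AS q β) →
  Q (AS q (AdjoinRoot.of (ap q β) α))

/-- TOW (200 lines), towers of Artin-Schreier coverings. PROOF. Induction on `r`, for all `α`. `r = 0`: the hypothesis gives `Q (AS q 0)`, which is free of rank `q ≥ 2` over `A`; `FreeA`; `XS` is isomorphic to `A`. `r = 1`: `XS q α ≃ AS q (α 0)`. `r ≥ 2`:
let `B = XS q (α_2, ..., α_(r-1))`; `XS q α ≃ AS q (of α_0)` over `AS q (α_1 : B)`; `ASCl` for `B`: `AS q (α_0 + a α_1 : B) ≃ XS q (α_0 + a α_1, α_2, ...)` and `AS q (α_1 : B) ≃ XS q (α_1, α_2, ...)`: induction (`r - 1`). -/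
def S_TOW : Prop := ∀ (p q : ℕ) (K : Type) [Field K], Dat p q K → ∀ Q : Prp K, FMO.Clo K Q →
  FreeA Q → ASCl q Q → ∀ (A : Type) [CommRing A] [Algebra K A] [Algebra.FiniteType K A] (r : ℕ)
    (α : Fin r → A), (∀ c : Fin r → K, (∀ i, c i ^ q = c i) → Q (AS q (∑ i, c i • α i))) →
    Q (XS q α)

/-- The algebra of the product of `m` Hermitian curves `w ^ q - w = κ v ^ (q + 1)`. -/
abbrev HX {K : Type} [Field K] (q : ℕ) (κ : K) (m : ℕ) : Type :=
  XS q fun i : Fin m => (κ • MvPolynomial.X i ^ (q + 1) : MvPolynomial (Fin m) K)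

/-- The algebra `D[v, w] / (w ^ q - w - κ v ^ (q + 1))`. -/
abbrev HD {K : Type} [Field K] (q : ℕ) (κ : K) (D : Type) [CommRing D] [Algebra K D] : Type :=
  AS q (κ • X ^ (q + 1) : D[X])

/-- HER (30 lines): `TOW` for `A = MvPolynomial (Fin m) K` and `YMC`. -/
def S_HER : Prop := ∀ (p q : ℕ) (K : Type) [Field K], Dat p q K → ∀ κ : K, κ ≠ 0 → κ ^ q = -κ →
  ∀ Q : Prp K, FMO.Clo K Q → FreeA Q → Cur Q → ASCl q Q → ∀ m : ℕ, Q (HX q κ m)

def M_HER : Prop := S_TOW → S_YMC → S_HER

open TensorProduct in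
/-- TEN (200 lines), the closure properties are inherited by `D ↦ Q (D ⊗ R)`. PROOF. `D ⊗ R` is commutative, of finite type over `K` (`Algebra.TensorProduct`). Quotients and localisations commute with `⊗ R` (search
`Algebra.TensorProduct.quotIdealMapEquivTensorQuot`, `IsLocalization.tensorRight`, `IsLocalization.Away.tensor`, `IsLocalizedModule`), `D[X] ⊗ R ≃ (D ⊗ R)[X]` (`polyEquivTensor`), `C ⊗ R` is finite free over `D ⊗ R` of the same rank if `C` is over `D`
(`Module.Free.tensor`, `Algebra.TensorProduct`: `C ⊗ R ≃ C ⊗[D] (D ⊗ R)`, `Algebra.TensorProduct.cancelBaseChange`). -/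
def S_TEN : Prop := ∀ (K : Type) [Field K] (Q : Prp K), FMO.Clo K Q → FreeA Q → ∀ (R : Type)
  [CommRing R] [Algebra K R] [Algebra.FiniteType K R],
  FMO.Clo K (fun D [CommRing D] [Algebra K D] [Algebra.FiniteType K D] => Q (D ⊗[K] R)) ∧
  FreeA (fun D [CommRing D] [Algebra K D] [Algebra.FiniteType K D] => Q (D ⊗[K] R))

open TensorProduct in
/-- TEH (150 lines), one more Hermitian curve; `HX q κ 0 ≃ K`. PROOF. Both sides of the second statement represent: a homomorphism on `D`, elements `v_0, ..., v_m`, `w_0, ..., w_m` with `w_i ^ q - w_i = κ v_i ^ (q + 1)`. -/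
def S_TEH : Prop := ∀ (q : ℕ) (K : Type) [Field K] (κ : K),
  Nonempty (HX q κ 0 ≃ₐ[K] K) ∧ ∀ (m : ℕ) (D : Type) [CommRing D] [Algebra K D],
    Nonempty ((D ⊗[K] HX q κ (m + 1)) ≃ₐ[K] (HD q κ D ⊗[K] HX q κ m))

/-- The algebra `D[x, y] / (1 + c x ^ N + c' y ^ N)`. -/
abbrev FD (K : Type) [Field K] (N : ℕ) (c c' : K) (D : Type) [CommRing D] [Algebra K D] : Type :=
  MvPolynomial (Fin 2) D ⧸ Ideal.span {(1 + c • MvPolynomial.X 0 ^ N + c' • MvPolynomial.X 1 ^ N :
    MvPolynomial (Fin 2) D)}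

/-- EHU (350 lines), from the affine Hermitian curve to the affine Fermat curve of degree `q + 1`. PROOF. `ζ ^ (q + 1) = -1`, `θ` (`FQ`), `η = κ⁻¹`, so `η ^ q = -η`. In `FD`: `ℓ = 1 - x / ζ`. In `HD`: `m = η w + (1 - θ)⁻¹`. The open parts `ℓ ≠ 0` and
`m ≠ 0` are isomorphic: `w = s / (η ℓ)`, `v = y / ℓ` with `s = 1 - ℓ / (1 - θ)`; `x = ζ (η w + θ / (1 - θ)) / m`, `y = v / m` (note `ℓ = 1 / m`, `s / ℓ = η w`). Reason: `Z = s + t`, `X = ζ (s + θ t)`, `t = T / (1 - θ)` gives
`Z ^ (q + 1) + X ^ (q + 1) = s ^ q T + s T ^ q`; the Fermat curve is `Z = 1`, the Hermitian curve is `T = 1`, `s = η w`, `s ^ q + s = -η (w ^ q - w) = -v ^ (q + 1)`. Closed part `ℓ = 0` of `FD`: `x = ζ`, `D[y] / (y ^ (q + 1))`: `NLP`. Closed part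
`m = 0` of `HD`: `w = w_0 = -(η (1 - θ))⁻¹`, `κ v ^ (q + 1) = w_0 ^ q - w_0 = (θ - 1) w_0 = κ`, so `D[v] / (v ^ (q + 1) - 1)`, a product of linear factors (`FQ` (vi) with `b = 1`, `SPL`). -/
def S_EHU : Prop := ∀ (p q : ℕ) (K : Type) [Field K], Dat p q K → ∀ κ : K, κ ≠ 0 → κ ^ q = -κ →
  ∀ Q : Prp K, FMO.Clo K Q →
  (∀ (D : Type) [CommRing D] [Algebra K D] [Algebra.FiniteType K D], Q D → Q (HD q κ D)) →
  ∀ (D : Type) [CommRing D] [Algebra K D] [Algebra.FiniteType K D], Q D → Q (FD K (q + 1) 1 1 D)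

def M_EHU : Prop := S_FQ → S_SPL → S_NLP → S_EHU

/-- FER (300 lines), affine Fermat curves of degree `N ∣ q + 1`. PROOF. `c = c' = 0`: trivial. `c' = 0`, `c ≠ 0`: `(D[x] / (1 + c x ^ N))[y]`, and `1 + c x ^ N = c (x ^ N - (b ζ) ^ N)`, `ζ ^ N = -1`
(`FQ` (iii): `ζ₀ ^ (q + 1) = -1`, `ζ = ζ₀ ^ ((q + 1) / N)`), is `c` times a product of linear factors over `K` (`FQ` (vi)): `SPL`, `Clo.line`. The same for `c = 0`. `c`, `c' ≠ 0`: `e = (q + 1) / N`, the homomorphism
`FD N c c' D → FD K (q + 1) 1 1 D`, `x ↦ b x ^ e`, `y ↦ b' y ^ e` (`c b ^ N = 1`) is finite free of rank `e ^ 2` (adjoin a root of `X ^ e - b⁻¹ x`, then of `X ^ e - b'⁻¹ y`: `AdjoinRoot`, monic; the result is isomorphic to `FD K (q + 1) 1 1 D`): `FreeA`. -/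
def S_FER : Prop := ∀ (p q : ℕ) (K : Type) [Field K], Dat p q K → ∀ Q : Prp K, FMO.Clo K Q →
  FreeA Q →
  (∀ (D : Type) [CommRing D] [Algebra K D] [Algebra.FiniteType K D], Q D → Q (FD K (q + 1) 1 1 D)) →
  ∀ (N : ℕ), N ∣ q + 1 → ∀ c c' : K, (c = 0 ∨ ∃ b, c * b ^ N = 1) → (c' = 0 ∨ ∃ b, c' * b ^ N = 1) →
  ∀ (D : Type) [CommRing D] [Algebra K D] [Algebra.FiniteType K D], Q D → Q (FD K N c c' D)

def M_FER : Prop := S_FQ → S_SPL → S_FER

/-- ITE (150 lines), products. PROOF. Induction on `M`: the algebra for `c`, `c' : Fin (M + 1) → K` is isomorphic to `FD N (c (last)) (c' (last)) D`, `D` the algebra for `castSucc`. -/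
def S_ITE : Prop := ∀ (K : Type) [Field K] (Q : Prp K), FMO.Clo K Q → ∀ (N M : ℕ) (c c' : Fin M → K),
  (∀ (j : Fin M) (D : Type) [CommRing D] [Algebra K D] [Algebra.FiniteType K D],
    Q D → Q (FD K N (c j) (c' j) D)) → Q K →
  Q (MvPolynomial (Fin (M + M)) K ⧸ Ideal.span (Set.range (ferm N c c')))

/-- EXK (120 lines), existence of `K`. PROOF. The splitting field `K` of `(X ^ (q ^ 2) - X) ∏_(b ∈ s) (X ^ N - b)` over `k`; `N ∣ q + 1` is not zero; `X ^ (q ^ 2) - X` is separable and splits. -/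
def S_EXK : Prop := ∀ (k : Type) [Field k] [Finite k] (p ν N : ℕ), p.Prime → CharP k p → 1 ≤ ν →
  N ∣ p ^ ν + 1 → ∀ s : Finset k, ∃ (K : Type) (_ : Field K) (_ : Algebra k K) (_ : Module.Finite k K),
    Dat p (p ^ ν) K ∧ ∀ c ∈ s, c ≠ 0 → ∃ b : K, algebraMap k K c * b ^ N = 1

/-! ## Second part: homology theories -/

/-- The spectrum of the `K`-algebra `D`, as a variety over `k`. -/
lemma ft_rk (k K : Type) [Field k] [Field K] [Algebra k K] [Module.Finite k K] (D : Type)
    [CommRing D] [Algebra K D] [Algebra.FiniteType K D] :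
    @Algebra.FiniteType k D _ _ (Algebra.compHom D (algebraMap k K)) := by
  let _ : Algebra k D := Algebra.compHom D (algebraMap k K)
  have _ : IsScalarTower k K D := IsScalarTower.of_algebraMap_eq fun _ => rfl
  exact Algebra.FiniteType.trans (S := K) inferInstance inferInstance

/-- The spectrum of the `K`-algebra `D`, as a variety over `k`. -/
noncomputable def rk (k K : Type) [Field k] [Field K] [Algebra k K] [Module.Finite k K] (D : Type)
    [CommRing D] [Algebra K D] [Algebra.FiniteType K D] : Var k :=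
  @sp k _ D _ (Algebra.compHom D (algebraMap k K)) (ft_rk k K D)

/-- The morphism of the spectra of two `K`-algebras. -/
noncomputable def rm {k K : Type} [Field k] [Field K] [Algebra k K] [Module.Finite k K]
    {D E : Type} [CommRing D] [Algebra K D] [Algebra.FiniteType K D] [CommRing E] [Algebra K E]
    [Algebra.FiniteType K E] (f : D →ₐ[K] E) : Mo (rk k K E) (rk k K D) where
  g := Spec.map (CommRingCat.ofHom f.toRingHom)
  comm := by
    change Spec.map _ ≫ Spec.map _ = Spec.map _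
    rw [← Spec.map_comp, ← CommRingCat.ofHom_comp]
    congr 2
    exact RingHom.ext fun x => f.commutes (algebraMap k K x)

/-- For all field-valued points `x`, `y` of `V` with the same image there is exactly one `g` with
`s_g(x) = y`. -/
def GalM {k : Type} [Field k] {V U : Var k} (f : Mo V U) {G : Type} (s : G → Mo V V) : Prop :=
  (∀ g, (s g).g ≫ f.g = f.g) ∧ ∀ (L : Type) [Field L] (x y : Spec (CommRingCat.of L) ⟶ V.X),
    x ≫ f.g = y ≫ f.g → ∃! g, x ≫ (s g).g = y

/-- The pull-back of the push-forward along a Galois covering. -/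
def GalT {k : Type} [Field k] {Λ : Type} [CommRing Λ] (T : BM.{v} k Λ) : Prop :=
  ∀ (i n : ℤ) {V U : Var k} (f : Mo V U) (G : Type) [Fintype G] (s : G → Mo V V), f.Et → GalM f s →
    ∀ m : T.H i n V, T.R f (T.P f m) = ∑ g, T.P (s g) m

/-- The elements of the field with `q` elements. -/
abbrev Fq (q : ℕ) (K : Type) [Field K] : Type := {a : K // a ^ q = a}

/-- ARE (150 lines), Artin-Schreier coverings are finite etale. PROOF. `X ^ q - X - α` is monic (`q ≥ 2`) with derivative `-1`, so `AS q α` is finite, free, etale over `A` (search `Polynomial.Separable`, `StandardEtale`, `Algebra.Etale`, `AdjoinRoot` in Mathlib: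
`Algebra.IsStandardEtale`, `StandardEtalePair` with `g = 1`). Then as in `Pool/Agent/QCV/D_DFE.lean`. Surjective on spectra (`A` trivial: clear): injective and integral. -/
def S_ARE : Prop := ∀ (k K : Type) [Field k] [Field K] [Algebra k K] [Module.Finite k K] (p q : ℕ),
  Dat p q K → ∀ (A : Type) [CommRing A] [Algebra K A] [Algebra.FiniteType K A] (α : A)
    (E : Type) [CommRing E] [Algebra K E] [Algebra.FiniteType K E] (e : AS q α ≃ₐ[K] E),
    (rm (k := k) (e.toAlgHom.comp (IsScalarTower.toAlgHom K A (AS q α)))).Et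

/-- ARR (250 lines), the double covering `X = AS q (AdjoinRoot.of _ α)` over `AS q β` over `A`, `w_2` the root of `AS q β`, `w_1` the root of `X`. PROOF. `tr g h`: `w_1 ↦ w_1 + g`, `w_2 ↦ w_2 + h` for `g ^ q = g`, `h ^ q = h`, otherwise the identity (characteristic `p`, `q` a power of `p`: `(w + g) ^ q = w ^ q + g ^ q`; for trivial rings there is
nothing to prove). `fa a`: the root goes to `w_1 + a w_2`. `ea a`: `X` is isomorphic to `AS q (of β)` over `AS q (α + a β)`: the root goes to `w_2`. The last conditions: if `x`, `y : X → L` agree on the image of `fa a`, then `y(w_2) - x(w_2) = g` satisfies `g ^ q = g`; the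
polynomial `X ^ q - X` has `q` roots in `K` (`FQ`) and `L` is a `K`-algebra (by `x`), so `g` comes from `Fq q K`, `y(w_1) = x(w_1) - a g`. -/
def S_ARR : Prop := ∀ (p q : ℕ) (K : Type) [Field K], Dat p q K → ∀ (A : Type) [CommRing A]
  [Algebra K A] (α β : A),
  ∃ (tr : K → K → (AS q (AdjoinRoot.of (ap q β) α) →ₐ[K] AS q (AdjoinRoot.of (ap q β) α)))
    (fa : ∀ a : Fq q K, AS q (α + a.1 • β) →ₐ[K] AS q (AdjoinRoot.of (ap q β) α))
    (ea : ∀ a : Fq q K, AS q (AdjoinRoot.of (ap q (α + a.1 • β)) β) ≃ₐ[K]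
      AS q (AdjoinRoot.of (ap q β) α)),
    tr 0 0 = AlgHom.id K _ ∧ (∀ g h : Fq q K, Function.Bijective (tr g h)) ∧
    (∀ g h : Fq q K, (tr 0 h).comp (tr g 0) = tr g h) ∧
    (∀ a : Fq q K, fa a = (ea a).toAlgHom.comp
      (IsScalarTower.toAlgHom K (AS q (α + a.1 • β)) (AS q (AdjoinRoot.of (ap q (α + a.1 • β)) β)))) ∧
    (∀ a g : Fq q K, (tr (-(a * g)) g).comp (fa a) = fa a) ∧
    (∀ g : Fq q K, (tr g 0).comp (IsScalarTower.toAlgHom K (AS q β)
      (AS q (AdjoinRoot.of (ap q β) α))) = IsScalarTower.toAlgHom K (AS q β) _) ∧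
    (∀ (a : Fq q K) (L : Type) [Field L] (x y : AS q (AdjoinRoot.of (ap q β) α) →+* L),
      x.comp (fa a).toRingHom = y.comp (fa a).toRingHom →
      ∃! g : Fq q K, x.comp (tr (-(a * g)) g).toRingHom = y) ∧
    (∀ (L : Type) [Field L] (x y : AS q (AdjoinRoot.of (ap q β) α) →+* L),
      x.comp (algebraMap (AS q β) _) = y.comp (algebraMap (AS q β) _) →
      ∃! g : Fq q K, x.comp (tr g 0).toRingHom = y)

def M_ARR : Prop := S_FQ → S_ARR

/-- CNT (60 lines), counting. PROOF. For `h ≠ 0` and every `g` there is exactly one `a` with `-(a h) = g`; for `h = 0` all `q` terms are `F 0 0`. (`Fq q K` is a field with `q` elements; work with the finite set of the roots in `K`.) -/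
def S_CNT : Prop := ∀ (p q : ℕ) (K : Type) [Field K], Dat p q K → ∀ (_ : Fintype (Fq q K)) (M : Type)
  [AddCommGroup M] (F : K → K → M),
  ∑ a : Fq q K, ∑ g : Fq q K, F (-(a * g)) g + ∑ g : Fq q K, F g 0 =
    q • F 0 0 + ∑ g : Fq q K, ∑ h : Fq q K, F g h

def M_CNT : Prop := S_FQ → S_CNT

/-- ARG (250 lines), the relation. PROOF. `V = rk X` with the maps of `ARR`: `f_a = rm (fa a)`, `f = rm` of `AS q β → X`, `s g h = rm (tr g h)`. `GalM` for `f_a` with `g ↦ s (-(a g)) g` and for `f` with `g ↦ s g 0` from `ARR` (morphisms from `Spec L` to `Spec X` are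
ring homomorphisms: `Spec.preimage`, `Spec.map_injective`, `Spec.homEquiv`), `Et` from `ARE`. `GalT`: `R f_a (P f_a t) = ∑ g, P (s (-(a g)) g) t`, `R f (P f t) = ∑ g, P (s g 0) t`. `CNT` with `F g h = P (s g h) t`:
`∑ a, R f_a (P f_a t) + R f (P f t) = q t + ∑ h, R f (P f (P (s 0 h) t))` (`Push.one`, `Push.comp`; `s g h` is an isomorphism, so proper; `tr g h = (tr 0 h).comp (tr g 0)`, so `(s g h).g = (s 0 h).g ≫ (s g 0).g` and `P (s g h) t = P (s g 0) (P (s 0 h) t)`). So `q t` is in the sum `N` of the ranges of `R f_a` and `R f`, which are finitely generated because `T.FG (rk (AS q (α + a β)))` and `T.FG (rk (AS q β))`. `Finiteness.quot` with `D = q`: `T.H` is finitely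
generated: `t = q t' + n`, as in `Pool/Agent/FMQ/FRE.lean`. -/
def S_ARG : Prop := ∀ (k Λ : Type) [Field k] [CommRing Λ] [IsNoetherianRing Λ] (T : BM.{v} k Λ),
  T.Pub → GalT T → ∀ (K : Type) [Field K] [Algebra k K] [Module.Finite k K] (p q : ℕ), Dat p q K →
  ASCl q (fun (D : Type) [CommRing D] [Algebra K D] [Algebra.FiniteType K D] => T.FG (rk k K D))

def M_ARG : Prop := S_FQ → S_ARE → S_ARR → S_CNT → S_ARG.{v}

/-- PKC (200 lines), from properties of varieties over `k` to properties of `K`-algebras. PROOF. `FMQ.CLF` gives the closure properties for `k`-algebras; a `K`-algebra is a `k`-algebra (`Algebra.compHom`), and the `K`-algebra homomorphisms are `k`-algebra homomorphisms; `FreeCl`. `Cur`: an algebra finite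
over `K[X]` has dimension at most one: `DimLE (rk k K C) 1` (`UQ.di` is the transcendence degree of the residue field over `k`; `QCV.dimLE_of_DL`, `QCV.DL`, search `dl_` in `Pool/Agent/QCV`). The last: `rk k K (K ⊗[k] A)` is finite free over `sp k A`. -/
def S_PKC : Prop := ∀ (k : Type) [Field k] (P : Var k → Prop), LFQ.Clo P → FreeCl P →
  (∀ X, DimLE X 1 → P X) → ∀ (K : Type) [Field K] [Algebra k K] [Module.Finite k K],
  FMO.Clo K (fun (D : Type) [CommRing D] [Algebra K D] [Algebra.FiniteType K D] => P (rk k K D)) ∧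
  FreeA (fun (D : Type) [CommRing D] [Algebra K D] [Algebra.FiniteType K D] => P (rk k K D)) ∧
  Cur (fun (D : Type) [CommRing D] [Algebra K D] [Algebra.FiniteType K D] => P (rk k K D)) ∧
  ∀ (n : ℕ) (ι : Type) (f : ι → MvPolynomial (Fin n) k),
    P (rk k K (MvPolynomial (Fin n) K ⧸ Ideal.span (Set.range fun i =>
      MvPolynomial.map (algebraMap k K) (f i)))) → P (szer k k f)

def M_PKC : Prop := FMQ.S_CLF → S_PKC

/-- FRM (150 lines), products of affine Fermat curves of degree `N ∣ p ^ ν + 1`. PROOF. `EXK` for the values of `c`, `c'`: `K`, `q = p ^ ν`, `κ` (`FQ`). `Q D = T.FG (rk k K D)`: `PKC`, `ARG`. `Q' D = ∀ m, Q (D ⊗[K] HX q κ m)` has the closure properties by `TEN`, and `Q' D → Q' (HD q κ D)` by `TEH`; `Q' K`: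
`HER`. `EHU`, `FER`, `ITE` for `Q'` and the images of `c`, `c'` in `K`; `m = 0` gives `Q` of the algebra; `PKC`, last part (`ferm N c c'` over `K` is the image of `ferm N c c'` over `k`). -/
def S_FRM : Prop := ∀ (k Λ : Type) [Field k] [Finite k] [CommRing Λ] [IsNoetherianRing Λ]
  (T : BM.{v} k Λ), T.Pub → GalT T → LFQ.Clo T.FG → FreeCl T.FG → ∀ (p ν N : ℕ), p.Prime →
  CharP k p → 1 ≤ ν → N ∣ p ^ ν + 1 → ∀ (M : ℕ) (c c' : Fin M → k), T.FG (szer k k (ferm N c c'))

def M_FRM : Prop := S_EXK → S_FQ → S_PKC → S_ARG.{v} → S_TEN → S_TEH → S_HER → S_EHU → S_FER →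
  S_ITE → S_FRM.{v}

end Pool.Agent.FMS
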