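import Pool.Agent.FMQ.St2
import Pool.Agent.FMS.St

/-!
# FMS, statements, second part: several quadratic equations

Same rules as in `St.lean`: `theorem t_XXX : S_XXX` (or `M_XXX : S_YYY → ... → S_XXX`) in `Pool/Agent/FMS/XXX.lean`, import
`Pool.Agent.FMS.St2`, auxiliary lemmas in namespace `Pool.Agent.FMS.XXXAux`.
-/

set_option autoImplicit false

open CategoryTheory AlgebraicGeometry Polynomial

namespace Pool.Agent.FMS

open Pool.Agent.Lib_helper55.Beil (Var)
open UQ (Mo DimLE sp szer sdbl)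
open FMO (Univ Few Add CompX Comp Kp)
open FMQ (FreeCl Dels Fermat ferm)
open LFQ (BM)

universe v

/-- The polynomials `∑ a_j x_j ^ (e_j) + c_i`, the sum over the `j` with `σ j = i`. -/
noncomputable def qm {A : Type} [CommRing A] {r s : ℕ} (σ : Fin r → Fin s) (a : Fin r → A)
    (e : Fin r → ℕ) (c : Fin s → A) : Fin s → MvPolynomial (Fin r) A :=
  fun i => ∑ j with σ j = i, MvPolynomial.C (a j) * MvPolynomial.X j ^ e j + MvPolynomial.C (c i)

/-- The algebra `A[x_1, ..., x_r]` modulo these polynomials. -/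
abbrev QM {A : Type} [CommRing A] {r s : ℕ} (σ : Fin r → Fin s) (a : Fin r → A) (e : Fin r → ℕ)
    (c : Fin s → A) : Type :=
  MvPolynomial (Fin r) A ⧸ Ideal.span (Set.range (qm σ a e c))

/-- The algebra `A[t_1, ..., t_l] / (t_i ^ 2 - b_i)`. -/
abbrev SQ {A : Type} [CommRing A] {l : ℕ} (b : Fin l → A) : Type :=
  QM (fun i : Fin l => i) (fun _ => (1 : A)) (fun _ => 2) fun i => - b i

/-- The system `f`, together with the polynomials `∑ b_j x_j ^ (e_j) + c_i`. -/
noncomputable def sym {k : Type} [Field k] {V ι : Type} {r s : ℕ} (f : ι → MvPolynomial V k)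
    (σ : Fin r → Fin s) (b : Fin r → MvPolynomial V k) (e : Fin r → ℕ)
    (c : Fin s → MvPolynomial V k) : ι ⊕ Fin s → MvPolynomial (V ⊕ Fin r) k :=
  Sum.elim (fun i => MvPolynomial.rename Sum.inl (f i)) fun i =>
    ∑ j with σ j = i, MvPolynomial.rename Sum.inl (b j) * MvPolynomial.X (Sum.inr j) ^ e j +
      MvPolynomial.rename Sum.inl (c i)

/-- MXM (130 lines), several more equations. PROOF. As `Pool/Agent/FMQ/MXV.lean`. -/
def S_MXM : Prop := ∀ (k : Type) [Field k] (V ι : Type) (r s : ℕ) (f : ι → MvPolynomial V k)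
  (σ : Fin r → Fin s) (b : Fin r → MvPolynomial V k) (e : Fin r → ℕ) (c : Fin s → MvPolynomial V k)
  (U Z : Set V) (C : Type) [CommRing C] [Algebra k C] (φ : V → C), Univ f U Z C φ →
  Univ (sym f σ b e c) (Sum.inl '' U) (Sum.inl '' Z)
    (QM σ (fun j => MvPolynomial.aeval φ (b j)) e (fun i => MvPolynomial.aeval φ (c i)))
    (Sum.elim (fun v => Ideal.Quotient.mk _ (MvPolynomial.C (φ v)))
      fun j => Ideal.Quotient.mk _ (MvPolynomial.X j))

/-- QMM (350 lines), several quadratic equations. PROOF. Induction on `s`, for all `C`, `H`, `r`. `s = 0`: then `r = 0`, and `QM ≃ C ≃ SQ` with `l = 0`. `s + 1`: `i₀ = Fin.last s`, `J₀ = {j | σ j = i₀}`, `B = QM` over `C` for the equations `i ≠ i₀` and the variables not in `J₀`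
(`n'` of them). `QM σ a e c ≃ Qd` over `B` (`FMQ.Qd`) for the variables in `J₀` and the constant `c i₀`: `FMQ.S_QU3` for the base `B`. `P (sp k B)`: induction. Let `b` be a unit of `B` in the submonoid generated by `-1`, `c i₀`, `a_j`: it is the image of a product `b₀` of such elements of `C`; if one of
the factors is zero then `B` is trivial (`Clo.empty`), otherwise `b₀ ∈ H` is a unit of `C`. `sdbl k B 0 (-b)` is the spectrum of `B[t] / (t ^ 2 - b)`, which is isomorphic to the `QM` with `s` equations over `C' = C[t] / (t ^ 2 - b₀)` (finite free over `C`), `H'` = the image of `H`: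
induction; `SQ b'` over `C'`, where `b'_i` is a unit and the image of `h_i ∈ H` (`h_i` is a unit, because `C → C'` is injective and integral), is isomorphic to `SQ (b₀, h)` over `C`. -/
def S_QMM : Prop := ∀ (k : Type) [Field k], (2 : k) ≠ 0 → ∀ P : Var k → Prop, LFQ.Clo P →
  ∀ (C : Type) [CommRing C] [Algebra k C] [Algebra.FiniteType k C] (H : Submonoid C), -1 ∈ H →
  (∀ (l : ℕ) (b : Fin l → C), (∀ i, b i ∈ H ∧ IsUnit (b i)) → P (sp k (SQ b))) →
  ∀ (r s : ℕ) (σ : Fin r → Fin s) (a : Fin r → C) (e : Fin r → ℕ) (c : Fin s → C),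
  (∀ j, a j = 0 ∨ (IsUnit (a j) ∧ a j ∈ H)) → (∀ i, c i = 0 ∨ (IsUnit (c i) ∧ c i ∈ H)) →
  (∀ j, e j = 1 ∨ e j = 2) → P (sp k (QM σ a e c))

def M_QMM : Prop := FMQ.S_QU3 → S_QMM

/-- DBM (120 lines), square roots over a stratum. PROOF. As `Pool/Agent/FMQ/DBL.lean`: by `MXM` (`c = -τ`, `b = 1`, `e = 2`) `SQ` is universal for the system `f`, `t_i ^ 2 - τ_i`, with the units `U` and (because `t_i ^ 2` is a unit) all `t_i`; this system is `Few m`: `FMQ.S_STM`. -/
def S_DBM : Prop := ∀ (k : Type) [Field k]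
  (P : ∀ (A : Type) [CommRing A] [Algebra k A] [Algebra.FiniteType k A], Prop) (_ : FMO.Clo k P)
  (m : ℕ) (_ : 1 ≤ m)
  (_ : ∀ (A : Type) [CommRing A] [Algebra k A] [Algebra.FiniteType k A],
    (∀ q : PrimeSpectrum A, Comp k m (Kp q)) → P A)
  (V : Type) [Finite V] (ι : Type) (f : ι → MvPolynomial V k), Few m f →
  ∀ U Z : Set V, (∀ v, v ∈ U ∨ v ∈ Z) → ∀ (C : Type) [CommRing C] [Algebra k C]
    [Algebra.FiniteType k C] (φ : V → C), Univ f U Z C φ → ∀ (l : ℕ) (τ : Fin l → MvPolynomial V k),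
    (∀ i, (τ i).support.card ≤ 1) → (∀ i, IsUnit (MvPolynomial.aeval φ (τ i))) →
    P (SQ fun i => MvPolynomial.aeval φ (τ i))

def M_DBM : Prop := FMQ.S_STM → S_MXM → S_DBM

/-- The system `f_i(y) = 0`, `∑ a_j(y) x_j ^ (e_j) + c_i(y) = 0` (the sum over the `j` with `σ j = i`). -/
noncomputable def sysm {k : Type} [Field k] {n r s : ℕ} {ι : Type}
    (f : ι → MvPolynomial (Fin n) k) (σ : Fin r → Fin s) (a : Fin r → MvPolynomial (Fin n) k)
    (e : Fin r → ℕ) (c : Fin s → MvPolynomial (Fin n) k) :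
    ι ⊕ Fin s → MvPolynomial (Fin (n + r)) k :=
  Sum.elim (fun i => MvPolynomial.rename (Fin.castAdd r) (f i)) fun i =>
    ∑ j with σ j = i, MvPolynomial.rename (Fin.castAdd r) (a j) *
      MvPolynomial.X (Fin.natAdd n j) ^ e j + MvPolynomial.rename (Fin.castAdd r) (c i)

/-- MIA (200 lines), assembly for systems with strata whose square roots have the property. PROOF. As `Pool/Agent/FMQ/MIX.lean` (copy it): the algebra of `sysm f σ a e c` is universal for `sym f' σ b e c'`, `b j = rename ψ (a j)`, `c' i = rename ψ (c i)` (`MXM`, `UNQ`); `STV` with `W = range inl`; `EXU`; a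
stratum is `QM σ (aeval φ₀ (b j)) e (aeval φ₀ (c' i))` over the stratum `C₀` of `f'`; `QMM` with `H` = the values of terms (`{x | ∃ τ, τ.support.card ≤ 1 ∧ x = aeval φ₀ τ}`, closed under products, contains `-1`); values of terms are zero or units because all variables are. -/
def S_MIA : Prop := ∀ (k : Type) [Field k], (2 : k) ≠ 0 → ∀ P : Var k → Prop, LFQ.Clo P →
  ∀ (n : ℕ) (ι : Type) (f : ι → MvPolynomial (Fin n) k) (V ι' : Type) [Finite V]
    (f' : ι' → MvPolynomial V k) (ψ : Fin n → V)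
    (φ : V → MvPolynomial (Fin n) k ⧸ Ideal.span (Set.range f)),
    (∀ v, φ (ψ v) = Ideal.Quotient.mk (Ideal.span (Set.range f)) (MvPolynomial.X v)) →
    Univ f' ∅ ∅ (MvPolynomial (Fin n) k ⧸ Ideal.span (Set.range f)) φ →
    (∀ U Z : Set V, (∀ v, v ∈ U ∨ v ∈ Z) → ∀ (C : Type) [CommRing C] [Algebra k C]
      [Algebra.FiniteType k C] (φ₀ : V → C), Univ f' U Z C φ₀ → ∀ (l : ℕ)
      (τ : Fin l → MvPolynomial V k), (∀ i, (τ i).support.card ≤ 1) →
      (∀ i, IsUnit (MvPolynomial.aeval φ₀ (τ i))) →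
      P (sp k (SQ fun i => MvPolynomial.aeval φ₀ (τ i)))) →
    ∀ (r s : ℕ) (σ : Fin r → Fin s) (a : Fin r → MvPolynomial (Fin n) k) (e : Fin r → ℕ)
      (c : Fin s → MvPolynomial (Fin n) k), (∀ j, (a j).support.card ≤ 1) →
      (∀ i, (c i).support.card ≤ 1) → (∀ j, e j = 1 ∨ e j = 2) →
      P (szer k k (sysm f σ a e c))

def M_MIA : Prop := FMQ.S_CLF → FMQ.S_STV → FMQ.S_EXU → FMQ.S_UNQ → S_MXM → S_QMM → S_MIA

/-- MIM (60 lines), systems with few additions. PROOF. `FMQ.S_ELN`, `DBM` for the algebras with the property `P (sp k A)` (`FMQ.S_CLF`, `FMO.S_RES`, `FMO.S_CIN` as in `Pool/Agent/FMQ/MIX.lean`), `MIA` with `ψ = Sum.inl`. -/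
def S_MIM : Prop := ∀ (k : Type) [Field k], (2 : k) ≠ 0 → ∀ P : Var k → Prop, LFQ.Clo P →
  ∀ m : ℕ, 1 ≤ m → (∀ X, CompX m X → P X) → ∀ (n r s : ℕ) (ι : Type)
    (f : ι → MvPolynomial (Fin n) k) (σ : Fin r → Fin s) (a : Fin r → MvPolynomial (Fin n) k)
    (e : Fin r → ℕ) (c : Fin s → MvPolynomial (Fin n) k), Add m f → (∀ j, (a j).support.card ≤ 1) →
    (∀ i, (c i).support.card ≤ 1) → (∀ j, e j = 1 ∨ e j = 2) → P (szer k k (sysm f σ a e c))

def M_MIM : Prop := FMO.S_RES → FMO.S_CIN → FMQ.S_CLF → FMQ.S_ELN → S_DBM → S_MIA → S_MIM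

/-! ### systems of Delsarte type -/

/-- ONT (60 lines): `FMQ.S_ONE` with the values of the variables. PROOF. `Pool/Agent/FMQ/ONE.lean` (the isomorphism constructed there maps the class of `X v` to the class of `X (castSucc v)`; copy the lemma `iso`, import `Pool.Agent.FMQ.ONE`). -/
def S_ONT : Prop := ∀ (k : Type) [Field k] (n r N : ℕ) (f : Fin r → MvPolynomial (Fin n) k)
  (_ : Dels N f) (j : Fin r) (_ : 4 ≤ (f j).support.card),
  ∃ f' : Fin (r + 1) → MvPolynomial (Fin (n + 1)) k, Dels N f' ∧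
    (f' (Fin.castSucc j)).support.card + 1 = (f j).support.card ∧
    (f' (Fin.last r)).support.card = 3 ∧
    (∀ i, i ≠ j → (f' (Fin.castSucc i)).support.card = (f i).support.card) ∧
    ∃ e : (MvPolynomial (Fin n) k ⧸ Ideal.span (Set.range f)) ≃ₐ[k]
      (MvPolynomial (Fin (n + 1)) k ⧸ Ideal.span (Set.range f')),
      ∀ v, e (Ideal.Quotient.mk (Ideal.span (Set.range f)) (MvPolynomial.X v)) =
        Ideal.Quotient.mk (Ideal.span (Set.range f')) (MvPolynomial.X (Fin.castSucc v))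

/-- THT (60 lines): `FMQ.S_THR` with the values of the variables. PROOF. As `Pool/Agent/FMQ/THR.lean`. -/
def S_THT : Prop := ∀ (k : Type) [Field k] (n r N : ℕ) (f : Fin r → MvPolynomial (Fin n) k),
  Dels N f → ∃ (n' r' : ℕ) (f' : Fin r' → MvPolynomial (Fin n') k) (ψ : Fin n → Fin n'),
    Dels N f' ∧ (∀ j, (f' j).support.card ≤ 3) ∧
    ∑ j, ((f' j).support.card - 2) = ∑ j, ((f j).support.card - 2) ∧
    ∃ e : (MvPolynomial (Fin n) k ⧸ Ideal.span (Set.range f)) ≃ₐ[k]
      (MvPolynomial (Fin n') k ⧸ Ideal.span (Set.range f')),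
      ∀ v, e (Ideal.Quotient.mk (Ideal.span (Set.range f)) (MvPolynomial.X v)) =
        Ideal.Quotient.mk (Ideal.span (Set.range f')) (MvPolynomial.X (ψ v))

def M_THT : Prop := S_ONT → S_THT

/-- DST (60 lines), a stratum of a system of Delsarte type. PROOF. The second half of `Pool/Agent/FMQ/DEL.lean`. -/
def S_DST : Prop := ∀ (k : Type) [Field k] (P : Var k → Prop), LFQ.Clo P → FreeCl P →
  ∀ (N m : ℕ), 0 < N → (∀ X, Fermat N m X → P X) → ∀ (n r : ℕ)
  (f : Fin r → MvPolynomial (Fin n) k), Dels N f → (∀ j, (f j).support.card ≤ 3) →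
  ∑ j, ((f j).support.card - 2) ≤ m → ∀ U Z : Set (Fin n), (∀ v, v ∈ U ∨ v ∈ Z) → ∀ (C : Type)
  [CommRing C] [Algebra k C] [Algebra.FiniteType k C] (φ : Fin n → C), Univ f U Z C φ → P (sp k C)

def M_DST : Prop := FMQ.S_CLF → FMQ.S_GUT → FMQ.S_SDI → FMQ.S_LAT → FMQ.S_GUX → FMQ.S_GXT →
  FMQ.S_FR2 → S_DST

/-- The system `f`, together with `t_i ^ 2 - τ_i`. -/
noncomputable def sqs {k : Type} [Field k] {n r l : ℕ} (f : Fin r → MvPolynomial (Fin n) k)
    (τ : Fin l → MvPolynomial (Fin n) k) : Fin (r + l) → MvPolynomial (Fin (n + l)) k :=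
  Fin.append (fun i => MvPolynomial.rename (Fin.castAdd l) (f i)) fun i =>
    MvPolynomial.X (Fin.natAdd n i) ^ 2 - MvPolynomial.rename (Fin.castAdd l) (τ i)

/-- DSQ (250 lines), square roots. PROOF. `τ_i = c_i y ^ (α_i)`, `c_i ≠ 0`; the support of `t_i ^ 2 - τ_i` is `{2 t_i, α_i}`. `ind`: if `Rel z` and `tot z = 0`: the coordinate `t_i` of `tot z` is twice the coefficient of `2 t_i`, so the part of `z` for the equation `t_i ^ 2 - τ_i` is
zero, and the rest is a relation for `f`. `exp`: let `t x = tot z`, `x = (x', x_1, ..., x_l)`: `t x_i = 2 z_i` (`z_i` the coefficient of `2 t_i`). Then `t (2 x' + ∑ x_i α_i)` is the total of a relation for `f` (`2 z` minus the multiples of the new differences), so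
`N (2 x' + ∑ x_i α_i) = tot w`, and `2 N x = (tot w, 0) + ∑ N x_i (2 t_i - α_i)`. -/
def S_DSQ : Prop := ∀ (k : Type) [Field k] (n r l N : ℕ) (f : Fin r → MvPolynomial (Fin n) k)
  (τ : Fin l → MvPolynomial (Fin n) k), Dels N f → (∀ i, (τ i).support.card = 1) →
  Dels (2 * N) (sqs f τ) ∧
  (∀ j, (sqs f τ (Fin.castAdd l j)).support.card = (f j).support.card) ∧
  ∀ i, (sqs f τ (Fin.natAdd r i)).support.card = 2

/-- DSS (150 lines), square roots over a stratum. PROOF. `C` trivial: `SQ` is trivial (`Clo.empty`). Otherwise `τ_i ≠ 0`, so the support has one element. As in `DBM` the algebra `SQ` is universal for `sym f id 1 2 (-τ)` with the units `inl '' U ∪ range inr`, and the zeros `inl '' Z`; change the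
names of the variables and of the equations (`finSumFinEquiv`; `Univ` does not depend on the names of the equations) to get `sqs f τ`: `DSQ`, `DST` for `2 N`. -/
def S_DSS : Prop := ∀ (k : Type) [Field k] (P : Var k → Prop), LFQ.Clo P → FreeCl P →
  ∀ (N m : ℕ), 0 < N → (∀ X, Fermat (2 * N) m X → P X) → ∀ (n r : ℕ)
  (f : Fin r → MvPolynomial (Fin n) k), Dels N f → (∀ j, (f j).support.card ≤ 3) →
  ∑ j, ((f j).support.card - 2) ≤ m → ∀ U Z : Set (Fin n), (∀ v, v ∈ U ∨ v ∈ Z) → ∀ (C : Type)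
  [CommRing C] [Algebra k C] [Algebra.FiniteType k C] (φ : Fin n → C), Univ f U Z C φ →
  ∀ (l : ℕ) (τ : Fin l → MvPolynomial (Fin n) k), (∀ i, (τ i).support.card ≤ 1) →
    (∀ i, IsUnit (MvPolynomial.aeval φ (τ i))) → P (sp k (SQ fun i => MvPolynomial.aeval φ (τ i)))

def M_DSS : Prop := S_MXM → S_DST → S_DSQ → S_DSS

/-- MID (60 lines), quadratic equations over a system of Delsarte type. PROOF. `THT`, `FMO.t_UNI` for `f'` (transported along the isomorphism), `DSS`, `MIA`. -/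
def S_MID : Prop := ∀ (k : Type) [Field k], (2 : k) ≠ 0 → ∀ P : Var k → Prop, LFQ.Clo P →
  FreeCl P → ∀ (N m : ℕ), 0 < N → (∀ X, Fermat (2 * N) m X → P X) → ∀ (n r₀ : ℕ)
    (f : Fin r₀ → MvPolynomial (Fin n) k), Dels N f → ∑ j, ((f j).support.card - 2) ≤ m →
    ∀ (r s : ℕ) (σ : Fin r → Fin s) (a : Fin r → MvPolynomial (Fin n) k) (e : Fin r → ℕ)
      (c : Fin s → MvPolynomial (Fin n) k), (∀ j, (a j).support.card ≤ 1) →
      (∀ i, (c i).support.card ≤ 1) → (∀ j, e j = 1 ∨ e j = 2) → P (szer k k (sysm f σ a e c))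

def M_MID : Prop := S_THT → S_DSS → S_MIA → S_MID

end Pool.Agent.FMS
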