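import Pool.Agent.FMO.UNI
import Pool.Agent.FMS.St2

/-!
# Project FMS, module MIA: assembly for several quadratic equations
-/

set_option autoImplicit false

open CategoryTheory AlgebraicGeometry Polynomial

namespace Pool.Agent.FMS

open Pool.Agent.Lib_helper55.Beil (Var)
open UQ (Mo DimLE sp szer sdbl)
open FMO (Univ Few Add CompX Comp Kp)
open FMQ (FreeCl Dels Fermat ferm)
open LFQ (BM)

namespace MIAAux

/-- the polynomial is a term -/
def Trm {k : Type} [Field k] {V : Type} (p : MvPolynomial V k) : Prop :=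
  ∃ (d : V →₀ ℕ) (α : k), p = MvPolynomial.monomial d α

variable {k : Type} [Field k] {V V' : Type}

lemma trm_of_card {p : MvPolynomial V k} (h : p.support.card ≤ 1) : Trm p := by
  rcases Nat.lt_or_ge p.support.card 1 with h1 | h1
  · have h2 : p.support = ∅ := Finset.card_eq_zero.1 (by omega)
    refine ⟨0, 0, ?_⟩
    rw [MvPolynomial.support_eq_empty.1 h2, map_zero]
  · obtain ⟨d, hd⟩ := Finset.card_eq_one.1 (le_antisymm h h1)
    refine ⟨d, MvPolynomial.coeff d p, ?_⟩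
    conv_lhs => rw [MvPolynomial.as_sum p, hd, Finset.sum_singleton]

lemma card_of_trm {p : MvPolynomial V k} (h : Trm p) : p.support.card ≤ 1 := by
  obtain ⟨d, α, rfl⟩ := h
  exact (Finset.card_le_card MvPolynomial.support_monomial_subset).trans
    (Finset.card_singleton d).le

lemma trm_rename (s : V → V') {p : MvPolynomial V k} (h : Trm p) :
    Trm (MvPolynomial.rename s p) := by
  obtain ⟨d, α, rfl⟩ := h
  exact ⟨_, _, MvPolynomial.rename_monomial _ _ _⟩

lemma trm_mul {p q : MvPolynomial V k} (hp : Trm p) (hq : Trm q) : Trm (p * q) := by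
  obtain ⟨d, α, rfl⟩ := hp
  obtain ⟨d', α', rfl⟩ := hq
  exact ⟨_, _, MvPolynomial.monomial_mul⟩

lemma trm_one : Trm (1 : MvPolynomial V k) := ⟨0, 1, rfl⟩

lemma trm_neg_one : Trm (-1 : MvPolynomial V k) := ⟨0, -1, by
  rw [map_neg]
  rfl⟩

/-- zero or a unit -/
def Z {C : Type} [CommRing C] (x : C) : Prop := x = 0 ∨ IsUnit x

lemma Z_mul {C : Type} [CommRing C] {x y : C} (hx : Z x) (hy : Z y) : Z (x * y) := by
  rcases hx with rfl | hx
  · exact Or.inl (zero_mul y)
  · rcases hy with rfl | hy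
    · exact Or.inl (mul_zero x)
    · exact Or.inr (hx.mul hy)

lemma Z_pow {C : Type} [CommRing C] {x : C} (hx : Z x) (n : ℕ) : Z (x ^ n) := by
  induction n with
  | zero => exact Or.inr (by rw [pow_zero]; exact isUnit_one)
  | succ n ih => rw [pow_succ]; exact Z_mul ih hx

lemma Z_trm {C : Type} [CommRing C] [Algebra k C] {φ : V → C} (hφ : ∀ v, Z (φ v))
    {p : MvPolynomial V k} (hp : Trm p) : Z (MvPolynomial.aeval φ p) := by
  obtain ⟨d, α, rfl⟩ := hp
  rw [MvPolynomial.aeval_monomial]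
  refine Z_mul ?_ ?_
  · by_cases h : α = 0
    · left
      rw [h, map_zero]
    · right
      exact (isUnit_iff_ne_zero.2 h).map _
  · unfold Finsupp.prod
    exact Finset.prod_induction _ Z (fun _ _ => Z_mul) (Or.inr isUnit_one)
      fun v _ => Z_pow (hφ v) _

/-- The values of the terms. -/
def H {C : Type} [CommRing C] [Algebra k C] (φ : V → C) : Submonoid C where
  carrier := {x | ∃ τ : MvPolynomial V k, Trm τ ∧ MvPolynomial.aeval φ τ = x}
  one_mem' := ⟨1, trm_one, map_one _⟩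
  mul_mem' := by
    rintro y z ⟨τ, h1, rfl⟩ ⟨τ', h3, rfl⟩
    exact ⟨τ * τ', trm_mul h1 h3, map_mul _ _ _⟩

lemma mem_H {C : Type} [CommRing C] [Algebra k C] {φ : V → C} {x : C} :
    x ∈ H (k := k) φ ↔ ∃ τ : MvPolynomial V k, Trm τ ∧ MvPolynomial.aeval φ τ = x := Iff.rfl

end MIAAux

open MIAAux in
/-- MIA: assembly for systems with strata whose square roots have the property. -/
theorem t_MIA : M_MIA := by
  intro hCLF hSTV hEXU hUNQ hMXM hQMM k _ h2 P hP n ι f V ι' _ f' ψ φ hφ huniv hB r s σ a e c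
    ha hc he
  have hC := hCLF k P hP
  -- the algebra of the system
  have hsys : sysm f σ a e c = fun j => MvPolynomial.rename finSumFinEquiv (sym f σ a e c j) := by
    funext j
    unfold sysm sym
    rcases j with j | j
    · simp only [Sum.elim_inl, MvPolynomial.rename_rename]
      congr 1
    · simp only [Sum.elim_inr, map_add, map_sum, map_mul, map_pow, MvPolynomial.rename_rename,
        MvPolynomial.rename_X]
      rfl
  have hR1 := FMO.t_UNI k (Fin (n + r)) (ι ⊕ Fin s) (sysm f σ a e c)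
  rw [hsys] at hR1
  have hR := (hUNQ k).2 _ _ _ finSumFinEquiv (sym f σ a e c) _ _ hR1
  rw [← hsys] at hR
  -- the quotient of the polynomial ring over `A`
  have hA := FMO.t_UNI k (Fin n) ι f
  have hQ := hMXM k (Fin n) ι r s f σ a e c ∅ ∅ _ _ hA
  rw [Set.image_empty] at hQ
  obtain ⟨E1, -⟩ := (hUNQ k).1 _ _ _ _ _ _ _ _ _ hR hQ
  -- it is universal for the system with the auxiliary variables
  obtain ⟨b, hb⟩ : ∃ b : Fin r → MvPolynomial V k,
    b = fun j => MvPolynomial.rename ψ (a j) := ⟨_, rfl⟩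
  obtain ⟨c', hc'⟩ : ∃ c' : Fin s → MvPolynomial V k,
    c' = fun i => MvPolynomial.rename ψ (c i) := ⟨_, rfl⟩
  have hval : ∀ p : MvPolynomial (Fin n) k, MvPolynomial.aeval φ (MvPolynomial.rename ψ p) =
      MvPolynomial.aeval (fun v => Ideal.Quotient.mk (Ideal.span (Set.range f))
        (MvPolynomial.X v)) p := by
    intro p
    rw [MvPolynomial.aeval_rename]
    congr 2
    funext v
    exact hφ v
  have hQ' : ∀ (α : Fin r → MvPolynomial (Fin n) k ⧸ Ideal.span (Set.range f))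
      (γ : Fin s → MvPolynomial (Fin n) k ⧸ Ideal.span (Set.range f)),
      α = (fun j => MvPolynomial.aeval φ (b j)) → γ = (fun i => MvPolynomial.aeval φ (c' i)) →
      Univ (sym f' σ b e c') ∅ ∅ (QM σ α e γ)
        (Sum.elim (fun v => Ideal.Quotient.mk _ (MvPolynomial.C (φ v)))
          fun j => Ideal.Quotient.mk _ (MvPolynomial.X j)) := by
    rintro _ _ rfl rfl
    have h1 := hMXM k _ ι' r s f' σ b e c' ∅ ∅ _ _ huniv
    rw [Set.image_empty] at h1
    exact h1
  have hQ2 := hQ' (fun j => MvPolynomial.aeval (fun v => Ideal.Quotient.mk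
      (Ideal.span (Set.range f)) (MvPolynomial.X v)) (a j))
    (fun i => MvPolynomial.aeval (fun v => Ideal.Quotient.mk (Ideal.span (Set.range f))
      (MvPolynomial.X v)) (c i))
    (by rw [hb]; funext j; exact (hval _).symm) (by rw [hc']; funext i; exact (hval _).symm)
  refine hC.iso E1.symm ?_
  refine hSTV k _ hC (V ⊕ Fin r) (ι' ⊕ Fin s) (sym f' σ b e c') (Set.range Sum.inl)
    ?_ _ _ hQ2
  intro U Z₁ hU hZ hUZ C _ _ _ ψ₁ hψ
  obtain ⟨U₀, rfl⟩ : ∃ U₀ : Set V, U = Sum.inl '' U₀ :=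
    ⟨Sum.inl ⁻¹' U, (Set.image_preimage_eq_of_subset hU).symm⟩
  obtain ⟨Z₀, rfl⟩ : ∃ Z₀ : Set V, Z₁ = Sum.inl '' Z₀ :=
    ⟨Sum.inl ⁻¹' Z₁, (Set.image_preimage_eq_of_subset hZ).symm⟩
  have hUZ₀ : ∀ v, v ∈ U₀ ∨ v ∈ Z₀ := by
    intro v
    rcases hUZ (Sum.inl v) ⟨v, rfl⟩ with ⟨w, hw, hwv⟩ | ⟨w, hw, hwv⟩
    · rw [Sum.inl_injective hwv] at hw
      exact Or.inl hw
    · rw [Sum.inl_injective hwv] at hw
      exact Or.inr hw
  obtain ⟨C₀, _, _, _, φ₀, hφ₀⟩ := hEXU k V ι' f' U₀ Z₀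
  have hQ3 := hMXM k _ ι' r s f' σ b e c' U₀ Z₀ C₀ φ₀ hφ₀
  obtain ⟨E2, -⟩ := (hUNQ k).1 _ _ _ _ _ _ _ _ _ hψ hQ3
  have hv : ∀ v, Z (φ₀ v) := by
    intro v
    rcases hUZ₀ v with h | h
    · exact Or.inr (hφ₀.unit v h)
    · exact Or.inl (hφ₀.zero v h)
  have hbt : ∀ j, Trm (b j) := by
    intro j
    rw [hb]
    exact trm_rename _ (trm_of_card (ha j))
  have hct : ∀ i, Trm (c' i) := by
    intro i
    rw [hc']
    exact trm_rename _ (trm_of_card (hc i))
  have hval2 : ∀ τ : MvPolynomial V k, Trm τ → MvPolynomial.aeval φ₀ τ = 0 ∨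
      (IsUnit (MvPolynomial.aeval φ₀ τ) ∧ MvPolynomial.aeval φ₀ τ ∈ H (k := k) φ₀) := by
    intro τ hτ
    rcases Z_trm hv hτ with h | h
    · exact Or.inl h
    · exact Or.inr ⟨h, mem_H.2 ⟨τ, hτ, rfl⟩⟩
  refine hC.iso E2.symm ?_
  refine hQMM k h2 P hP C₀ (H (k := k) φ₀)
    (mem_H.2 ⟨-1, trm_neg_one, by rw [map_neg, map_one]⟩) ?_ r s σ _ e _
    (fun j => hval2 _ (hbt j)) (fun i => hval2 _ (hct i)) he
  intro l x hx
  choose τ hτ hτx using fun i => mem_H.1 (hx i).1
  obtain rfl : (fun i => MvPolynomial.aeval φ₀ (τ i)) = x := funext hτx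
  exact hB U₀ Z₀ hUZ₀ C₀ φ₀ hφ₀ l τ (fun i => card_of_trm (hτ i)) fun i => (hx i).2

end Pool.Agent.FMS
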