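import Pool.Agent.FMS.St7
import Pool.Agent.FMS.MIA
import Pool.Agent.FMS.DBM

/-!
# Project FMS, module THQ: quadratic equations over a system with base variables (helper39)
-/

set_option autoImplicit false

open CategoryTheory AlgebraicGeometry Polynomial

namespace Pool.Agent.FMS

open Pool.Agent.Lib_helper55.Beil (Var)
open UQ (Mo DimLE sp szer gp Pt)
open FMO (Univ Few Add CompX Comp Kp Laur At Sm Inv)
open FMQ (FreeCl Dels Fermat ferm)
open LFQ (BM SPj)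
open QCV (DL)

namespace THQAux

open DBMAux

variable {k : Type} [Field k] {V ι : Type}

/-- the system with the square roots -/
theorem fewB {W : Set V} {f : ι → MvPolynomial V k} {l : ℕ} {τ : Fin l → MvPolynomial V k} {m : ℕ}
    (h : FewB W m f) (hτ : ∀ i, (τ i).support.card ≤ 1) :
    FewB (Sum.inl '' W : Set (V ⊕ Fin l)) m
      (sym f (fun i : Fin l => i) (fun _ => (1 : MvPolynomial V k)) (fun _ => 2)
      fun i => - τ i) := by
  classical
  obtain ⟨t, h1, h2, h3⟩ := h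
  refine ⟨t.map Function.Embedding.inl, by rwa [Finset.card_map], ?_, ?_⟩
  · intro j hj
    obtain ⟨i, hi, rfl⟩ := Finset.mem_map.1 hj
    exact (card_rename (f i) _ Sum.inl_injective).trans (h2 i hi)
  · rintro (i | i) hj
    · rcases h3 i fun hi => hj (Finset.mem_map.2 ⟨i, hi, rfl⟩) with h4 | h4
      · exact Or.inl ((card_rename (f i) _ Sum.inl_injective).trans h4)
      · right
        intro v hv
        have h5 : v ∈ (MvPolynomial.rename (Sum.inl : V → V ⊕ Fin l) (f i)).vars := hv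
        obtain ⟨w, hw, rfl⟩ := Finset.mem_image.1 (MvPolynomial.vars_rename _ _ h5)
        exact ⟨w, h4 w hw, rfl⟩
    · left
      have e : sym f (fun i : Fin l => i) (fun _ => (1 : MvPolynomial V k)) (fun _ => 2)
          (fun i => - τ i) (Sum.inr i) =
          MvPolynomial.X (Sum.inr i) ^ 2 - MvPolynomial.rename Sum.inl (τ i) := by
        show (∑ j with j = i, MvPolynomial.rename Sum.inl (1 : MvPolynomial V k) *
          MvPolynomial.X (Sum.inr j) ^ 2) + MvPolynomial.rename Sum.inl (- τ i) = _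
        rw [sum_one i (fun j => MvPolynomial.rename Sum.inl (1 : MvPolynomial V k) *
          MvPolynomial.X (Sum.inr j) ^ 2), map_one, one_mul, map_neg, sub_eq_add_neg]
      rw [e]
      refine (Finset.card_le_card (MvPolynomial.support_sub (V ⊕ Fin l) _ _)).trans ?_
      refine (Finset.card_union_le _ _).trans ?_
      rw [MvPolynomial.support_X_pow, Finset.card_singleton]
      have := (card_rename (τ i) (Sum.inl : V → V ⊕ Fin l) Sum.inl_injective).trans (hτ i)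
      omega

/-- square roots over a stratum -/
theorem sq (hM : S_MXM) (hBDH : S_BDH) (hLAU : FMO.S_LAU) (hTOB : S_TOB) (Q : Prp k)
    (hC : FMO.Clo k Q) [Finite V] (W : Set V) (m d : ℕ) (hd : d ≤ 1) (f : ι → MvPolynomial V k)
    (hf : FewB W m f)
    (hΛ : ∀ (Λ : Type) [CommRing Λ] [Algebra k Λ] [Algebra.FiniteType k Λ],
      (∀ q : PrimeSpectrum Λ, CompA k (m + d) (Kp q)) → Q Λ)
    (U Z : Set V) (hUZ : ∀ v, v ∈ U ∨ v ∈ Z) (C : Type) [CommRing C] [Algebra k C]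
    [Algebra.FiniteType k C] (φ : V → C) (hφ : Univ f U Z C φ) (hBD : BD k W d φ)
    (l : ℕ) (τ : Fin l → MvPolynomial V k) (hτ : ∀ i, (τ i).support.card ≤ 1)
    (hu : ∀ i, IsUnit (MvPolynomial.aeval φ (τ i))) :
    Q (SQ fun i => MvPolynomial.aeval φ (τ i)) := by
  have e1 : (fun _ : Fin l => MvPolynomial.aeval φ (1 : MvPolynomial V k)) =
      fun _ => (1 : C) := funext fun _ => map_one _
  have e2 : (fun i : Fin l => MvPolynomial.aeval φ (- τ i)) =
      fun i => - MvPolynomial.aeval φ (τ i) := funext fun i => map_neg _ _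
  have h1 := mxm hM (fun i : Fin l => i) (fun _ => (1 : MvPolynomial V k)) (fun _ => 2)
    (fun i => - τ i) hφ _ e1 _ e2
  have h2 := add_unit (U' := Set.range Sum.inr) h1 (by
    rintro _ ⟨i, rfl⟩
    refine (isUnit_pow_iff two_ne_zero).1 ?_
    show IsUnit ((Ideal.Quotient.mk _ (MvPolynomial.X i)) ^ 2)
    rw [root_sq]
    exact ((hu i).map MvPolynomial.C).map _)
  rcases subsingleton_or_nontrivial (SQ fun i => MvPolynomial.aeval φ (τ i)) with hs | hs
  · exact hC.triv _ hs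
  let _ : Fintype (V ⊕ Fin l) := Fintype.ofFinite _
  have h3 : BD k (Sum.inl '' W : Set (V ⊕ Fin l)) d
      (Sum.elim (fun v => Ideal.Quotient.mk (Ideal.span (Set.range (qm (fun i : Fin l => i)
        (fun _ => (1 : C)) (fun _ => 2) fun i => - MvPolynomial.aeval φ (τ i))))
        (MvPolynomial.C (φ v)))
        fun j => Ideal.Quotient.mk _ (MvPolynomial.X j)) := by
    refine hBDH k V (V ⊕ Fin l) W (Sum.inl '' W) d C _
      (IsScalarTower.toAlgHom k C (SQ fun i => MvPolynomial.aeval φ (τ i))) φ _ ?_ hBD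
    rintro _ ⟨w, hw, rfl⟩
    exact ⟨w, hw, rfl⟩
  obtain ⟨r, Λ, _, _, _, ⟨E⟩, hq⟩ := hTOB k (V ⊕ Fin l) (ι ⊕ Fin l) _ (Sum.inl '' W) m d hd
    (fewB hf hτ) (Sum.inl '' U ∪ Set.range Sum.inr) (Sum.inl '' Z) (by
      rintro (v | i)
      · rcases hUZ v with h | h
        · exact Or.inl (Or.inl ⟨v, h, rfl⟩)
        · exact Or.inr ⟨v, h, rfl⟩
      · exact Or.inl (Or.inr ⟨i, rfl⟩)) _ _ h2 h3
  exact hC.iso E.symm (hLAU k Q hC Λ r (hΛ Λ hq))

end THQAux

open MIAAux in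
/-- THQ: quadratic equations over a system with base variables. -/
theorem t_THQ : M_THQ := by
  intro hCLF hSTV hEXU hUNQ hMXM hQMM hQM2 hBDH hLAU hTOB k _ P hP hF V _ W m d hd ι f hf hΛ
    C _ _ _ φ huniv hBD r s σ a e c ha hc he
  have hC := hCLF k P hP
  have hQ2 := hMXM k V ι r s f σ a e c ∅ ∅ C φ huniv
  rw [Set.image_empty] at hQ2
  refine hSTV k _ hC (V ⊕ Fin r) (ι ⊕ Fin s) (sym f σ a e c) (Set.range Sum.inl)
    ?_ _ _ hQ2
  intro U Z₁ hU hZ hUZ D _ _ _ ψ₁ hψ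
  obtain ⟨U₀, rfl⟩ : ∃ U₀ : Set V, U = Sum.inl '' U₀ :=
    ⟨Sum.inl ⁻¹' U, (Set.image_preimage_eq_of_subset hU).symm⟩
  obtain ⟨Z₀, rfl⟩ : ∃ Z₀ : Set V, Z₁ = Sum.inl '' Z₀ :=
    ⟨Sum.inl ⁻¹' Z₁, (Set.image_preimage_eq_of_subset hZ).symm⟩
  have hUZ₀ : ∀ v, v ∈ U₀ ∨ v ∈ Z₀ := by
    intro v
    rcases hUZ (Sum.inl v) ⟨v, rfl⟩ with ⟨w, hw, hwv⟩ | ⟨w, hw, hwv⟩
    · rw [Sum.inl_injective hwv] at hw
      exact Or.inl hw
    · rw [Sum.inl_injective hwv] at hw
      exact Or.inr hw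
  obtain ⟨C₀, _, _, _, φ₀, hφ₀⟩ := hEXU k V ι f U₀ Z₀
  have hQ3 := hMXM k _ ι r s f σ a e c U₀ Z₀ C₀ φ₀ hφ₀
  obtain ⟨E2, -⟩ := (hUNQ k).1 _ _ _ _ _ _ _ _ _ hψ hQ3
  obtain ⟨g, hg⟩ := huniv.lift C₀ φ₀ hφ₀.sat (fun v hv => absurd hv (Set.notMem_empty v))
    (fun v hv => absurd hv (Set.notMem_empty v))
  have hBD₀ : BD k W d φ₀ :=
    hBDH k V V W W d C C₀ g φ φ₀ (fun w hw => ⟨w, hw, (hg w).symm⟩) hBD
  have hv : ∀ v, Z (φ₀ v) := by
    intro v
    rcases hUZ₀ v with h | h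
    · exact Or.inr (hφ₀.unit v h)
    · exact Or.inl (hφ₀.zero v h)
  have hval2 : ∀ τ : MvPolynomial V k, Trm τ → MvPolynomial.aeval φ₀ τ = 0 ∨
      (IsUnit (MvPolynomial.aeval φ₀ τ) ∧ MvPolynomial.aeval φ₀ τ ∈ H (k := k) φ₀) := by
    intro τ hτ
    rcases Z_trm hv hτ with h | h
    · exact Or.inl h
    · exact Or.inr ⟨h, mem_H.2 ⟨τ, hτ, rfl⟩⟩
  refine hC.iso E2.symm ?_
  have hmain : ∀ (l : ℕ) (x : Fin l → C₀), (∀ i, x i ∈ H (k := k) φ₀ ∧ IsUnit (x i)) →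
      P (sp k (SQ x)) := by
    intro l x hx
    choose τ hτ hτx using fun i => mem_H.1 (hx i).1
    obtain rfl : (fun i => MvPolynomial.aeval φ₀ (τ i)) = x := funext hτx
    exact THQAux.sq hMXM hBDH hLAU hTOB
      (fun (D : Type) [CommRing D] [Algebra k D] [Algebra.FiniteType k D] => P (sp k D)) hC W m d
      hd f hf hΛ U₀ Z₀ hUZ₀ C₀ φ₀ hφ₀ hBD₀ l τ (fun i => card_of_trm (hτ i)) fun i => (hx i).2
  have hneg : (-1 : C₀) ∈ H (k := k) φ₀ := mem_H.2 ⟨-1, trm_neg_one, by rw [map_neg, map_one]⟩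
  by_cases h2 : (2 : k) = 0
  · exact hQM2 k h2 P hP hF C₀ (H (k := k) φ₀) hneg hmain r s σ _ e _
      (fun j => hval2 _ (trm_of_card (ha j))) (fun i => hval2 _ (trm_of_card (hc i))) he
  · exact hQMM k h2 P hP C₀ (H (k := k) φ₀) hneg hmain r s σ _ e _
      (fun j => hval2 _ (trm_of_card (ha j))) (fun i => hval2 _ (trm_of_card (hc i))) he

end Pool.Agent.FMS
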