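import Pool.Agent.FMS.St4

/-!
# FMS, module DOC: systems of Delsarte type over a base
-/

set_option autoImplicit false

open CategoryTheory AlgebraicGeometry Polynomial TensorProduct

namespace Pool.Agent.FMS

open Pool.Agent.Lib_helper55.Beil (Var)
open UQ (Mo DimLE sp szer)
open FMQ (FreeCl Dels Fermat ferm)
open QCV (DL)

namespace DOCAux

variable {n r : ℕ}

/-- The supports of the system with coefficients one. -/
theorem supp_one (k : Type) [Field k] (S : Fin r → Finset (Fin n →₀ ℕ)) (j : Fin r) :
    (sS S (fun _ _ => (1 : k)) j).support = S j := by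
  classical
  ext β
  rw [MvPolynomial.mem_support_iff]
  unfold sS
  rw [MvPolynomial.coeff_sum]
  simp only [MvPolynomial.coeff_monomial]
  rw [Finset.sum_ite_eq']
  by_cases h : β ∈ S j
  · simp [h]
  · simp [h]

/-- Exponents with coefficient zero can be removed. -/
theorem sS_sub {C : Type} [CommRing C] (S S' : Fin r → Finset (Fin n →₀ ℕ))
    (a : Fin r → (Fin n →₀ ℕ) → C) (h : ∀ j, S' j ⊆ S j)
    (h0 : ∀ j, ∀ α ∈ S j, α ∉ S' j → a j α = 0) : sS S' a = sS S a := by
  funext j
  unfold sS
  refine Finset.sum_subset (h j) fun α h1 h2 => ?_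
  rw [h0 j α h1 h2, MvPolynomial.monomial_zero]

/-- The system over `k` with coefficients one, over `C`. -/
theorem map_one' (k C : Type) [Field k] [CommRing C] [Algebra k C]
    (S : Fin r → Finset (Fin n →₀ ℕ)) :
    (fun i => MvPolynomial.map (algebraMap k C) (sS S (fun _ _ => (1 : k)) i)) =
      sS S fun _ _ => (1 : C) := by
  funext j
  unfold sS
  rw [map_sum]
  refine Finset.sum_congr rfl fun α _ => ?_
  rw [MvPolynomial.map_monomial, map_one]

/-- Systems of Delsarte type and exponents of Delsarte type. -/
theorem dels {k : Type} [Field k] {N : ℕ} {S : Fin r → Finset (Fin n →₀ ℕ)} (hS : Ds N S)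
    (f : Fin r → MvPolynomial (Fin n) k) (h : ∀ j, (f j).support = S j) : Dels N f := by
  have h1 : Ds N fun j => (f j).support := by
    rw [show (fun j => (f j).support) = S from funext h]
    exact hS
  exact ⟨h1.ind, h1.exp⟩

end DOCAux

open DOCAux in
theorem t_DOC : M_DOC := by
  intro hACL hTNB hDEA hSUB hRSC hSTC hRTS hMVT k _ P hP hF d N m hN hfer A _ _ _ hA n r f hD hm
  have hQ := hACL k P hP hF
  have key := hSTC k _ hQ.clo d n r (fun j => (f j).support)
    (hRTS k _ hQ.clo hQ.free d n r N hN (fun j => (f j).support) (by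
      intro C _ _ _ a hC ha
      classical
      have hS' : ∀ j, ((f j).support.filter fun α => a j α ≠ 0) ⊆ (f j).support :=
        fun j => Finset.filter_subset _ _
      have hD' := hSUB n r N _ (fun j => (f j).support.filter fun α => a j α ≠ 0) hS' hD
      have e1 : sS (fun j => (f j).support.filter fun α => a j α ≠ 0) a =
          sS (fun j => (f j).support) a := by
        refine sS_sub _ _ a hS' fun j α h1 h2 => ?_
        by_contra h3
        exact h2 (Finset.mem_filter.2 ⟨h1, h3⟩)
      obtain ⟨e2⟩ := hRSC n r N hN _ hD' C a (by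
        intro j α hα
        rcases ha j α (hS' j hα) with h | h
        · exact absurd h (Finset.mem_filter.1 hα).2
        · exact h)
      have hQ' := hTNB k _ hQ C
      have h3 := hDEA k _ hQ' N m hN (by
        intro M c c' hc
        obtain ⟨e⟩ := hMVT k (M + M) (Fin M) (ferm N c c') C
        exact hQ.clo.iso e.symm (hfer C hC M c c' hc)) n r
        (sS (fun j => (f j).support.filter fun α => a j α ≠ 0) fun _ _ => (1 : k))
        (dels hD' _ (supp_one k _)) (by
          refine le_trans (Finset.sum_le_sum fun j _ => ?_) hm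
          rw [supp_one]
          exact Nat.sub_le_sub_right (Finset.card_le_card (hS' j)) 2)
      obtain ⟨e3⟩ := hMVT k n (Fin r)
        (sS (fun j => (f j).support.filter fun α => a j α ≠ 0) fun _ _ => (1 : k)) C
      have h4 : P (szer k C fun i => MvPolynomial.map (algebraMap k C)
          (sS (fun j => (f j).support.filter fun α => a j α ≠ 0) (fun _ _ => (1 : k)) i)) :=
        hQ.clo.iso e3 h3
      rw [map_one'] at h4
      have h5 : P (szer k C (sS (fun j => (f j).support.filter fun α => a j α ≠ 0) a)) :=
        hQ.clo.iso (e2.restrictScalars k).symm h4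
      rw [e1] at h5
      exact h5)) A (fun j α => MvPolynomial.coeff α (f j)) hA
  have hf : sS (fun j => (f j).support) (fun j α => MvPolynomial.coeff α (f j)) = f := by
    funext j
    exact MvPolynomial.support_sum_monomial_coeff (f j)
  have h6 : P (szer k A (sS (fun j => (f j).support) fun j α => MvPolynomial.coeff α (f j))) :=
    key
  rw [hf] at h6
  exact h6

end Pool.Agent.FMS
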