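import Pool.Agent.FMS.St6
import Pool.Agent.FMS.DOC
import Pool.Agent.FMS.DBM
import Pool.Agent.FMS.MIA

/-!
# FMS, module TKS: a stratum
-/

set_option autoImplicit false

open CategoryTheory AlgebraicGeometry Polynomial TensorProduct

namespace Pool.Agent.FMS

open FMO (Univ Few Comp Kp Laur)
open FMQ (FreeCl Dels Fermat ferm)

namespace TKSAux

variable {k : Type} [Field k] {V ι : Type}

theorem fewB {W : Set V} {f : ι → MvPolynomial V k} {l : ℕ} {τ : Fin l → MvPolynomial V k}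
    {m N : ℕ} (h : FewB W m f) (hτ : ∀ i, (τ i).support.card ≤ 1) :
    FewB (Sum.inl '' W) m (sym f (fun i : Fin l => i) (fun _ => (1 : MvPolynomial V k))
      (fun _ => N) fun i => - τ i) := by
  classical
  obtain ⟨t, h1, h2, h3⟩ := h
  refine ⟨t.map Function.Embedding.inl, by rwa [Finset.card_map], ?_, ?_⟩
  · intro j hj
    obtain ⟨i, hi, rfl⟩ := Finset.mem_map.1 hj
    exact (DBMAux.card_rename (f i) _ Sum.inl_injective).trans (h2 i hi)
  · rintro (i | i) hj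
    · rcases h3 i fun hi => hj (Finset.mem_map.2 ⟨i, hi, rfl⟩) with h | h
      · exact Or.inl ((DBMAux.card_rename (f i) _ Sum.inl_injective).trans h)
      · right
        intro v hv
        have hv' : v ∈ (MvPolynomial.rename (Sum.inl : V → V ⊕ Fin l) (f i)).vars := hv
        obtain ⟨w, hw, rfl⟩ := Finset.mem_image.1 (MvPolynomial.vars_rename _ _ hv')
        exact ⟨w, h w hw, rfl⟩
    · left
      have e : sym f (fun i : Fin l => i) (fun _ => (1 : MvPolynomial V k)) (fun _ => N)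
          (fun i => - τ i) (Sum.inr i) =
          MvPolynomial.X (Sum.inr i) ^ N - MvPolynomial.rename Sum.inl (τ i) := by
        show (∑ j with j = i, MvPolynomial.rename Sum.inl (1 : MvPolynomial V k) *
          MvPolynomial.X (Sum.inr j) ^ N) + MvPolynomial.rename Sum.inl (- τ i) = _
        rw [DBMAux.sum_one i (fun j => MvPolynomial.rename Sum.inl (1 : MvPolynomial V k) *
          MvPolynomial.X (Sum.inr j) ^ N), map_one, one_mul, map_neg, sub_eq_add_neg]
      rw [e]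
      refine (Finset.card_le_card (MvPolynomial.support_sub (V ⊕ Fin l) _ _)).trans ?_
      refine (Finset.card_union_le _ _).trans ?_
      rw [MvPolynomial.support_X_pow, Finset.card_singleton]
      have := (DBMAux.card_rename (τ i) (Sum.inl : V → V ⊕ Fin l) Sum.inl_injective).trans (hτ i)
      omega

theorem cover {U Z : Set V} {l : ℕ} (h : ∀ v, v ∈ U ∨ v ∈ Z) (v : V ⊕ Fin l) :
    v ∈ Sum.inl '' U ∪ Set.range (Sum.inr : Fin l → V ⊕ Fin l) ∨ v ∈ Sum.inl '' Z := by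
  rcases v with v | i
  · rcases h v with h | h
    · exact Or.inl (Or.inl ⟨v, h, rfl⟩)
    · exact Or.inr ⟨v, h, rfl⟩
  · exact Or.inl (Or.inr ⟨i, rfl⟩)

end TKSAux

open TKSAux DOCAux in
theorem t_TKS : M_TKS := by
  intro hTNB hLAU hMXM hRTF hBCF hSUB hRSC hDEA hMVT hTOB hBDH k _ Q hQ V _ W m d hd ι f hf N m' hN
    hH U Z hUZ C _ _ _ φ hφ hBD l r S hS hm a ha
  classical
  rcases subsingleton_or_nontrivial C with hC | hC
  · refine hQ.clo.triv _ ?_
    have : Subsingleton (MvPolynomial (Fin l) C) := by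
      refine subsingleton_of_zero_eq_one ?_
      have h1 : (0 : C) = 1 := Subsingleton.elim _ _
      have h2 := congrArg (MvPolynomial.C (σ := Fin l)) h1
      rwa [map_zero, map_one] at h2
    exact (Ideal.Quotient.mk_surjective).subsingleton
  -- the values are zero or units
  have hv : ∀ p : MvPolynomial V k, p.support.card ≤ 1 →
      MvPolynomial.aeval φ p = 0 ∨ IsUnit (MvPolynomial.aeval φ p) := fun p hp =>
    MIAAux.Z_trm (fun v => by
      rcases hUZ v with h | h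
      · exact Or.inr (hφ.unit v h)
      · exact Or.inl (hφ.zero v h)) (MIAAux.trm_of_card hp)
  obtain ⟨b₀, hb₀⟩ : ∃ b₀ : Fin r → (Fin l →₀ ℕ) → C, b₀ = fun j α => MvPolynomial.aeval φ (a j α) :=
    ⟨_, rfl⟩
  have hb1 : ∀ j, ∀ α ∈ S j, b₀ j α = 0 ∨ IsUnit (b₀ j α) := by
    intro j α hα
    rw [hb₀]
    exact hv _ (ha j α hα)
  obtain ⟨S', hS'⟩ : ∃ S' : Fin r → Finset (Fin l →₀ ℕ),
    S' = fun j => (S j).filter fun α => b₀ j α ≠ 0 := ⟨_, rfl⟩
  have hSS : ∀ j, S' j ⊆ S j := fun j => by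
    rw [hS']
    exact Finset.filter_subset _ _
  have hS0 : ∀ j, ∀ α ∈ S' j, b₀ j α ≠ 0 := by
    intro j α hα
    rw [hS'] at hα
    exact (Finset.mem_filter.1 hα).2
  have hD' := hSUB l r N S S' hSS hS
  have e1 : sS S' b₀ = sS S b₀ := by
    refine sS_sub _ _ b₀ hSS fun j α h1 h2 => ?_
    by_contra h3
    exact h2 (by rw [hS']; exact Finset.mem_filter.2 ⟨h1, h3⟩)
  suffices hmain : Q (SA S' b₀) by
    have h7 : Q (MvPolynomial (Fin l) C ⧸ Ideal.span (Set.range (sS S' b₀))) := hmain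
    rw [e1] at h7
    rw [hb₀] at h7
    exact h7
  -- the numbering of the coefficients
  obtain ⟨n, ⟨en⟩⟩ : ∃ n, Nonempty ((Σ j, {α // α ∈ S' j}) ≃ Fin n) :=
    ⟨_, ⟨Fintype.equivFin _⟩⟩
  obtain ⟨τ, hτ⟩ : ∃ τ : Fin n → MvPolynomial V k, τ = fun i => a (en.symm i).1 (en.symm i).2.1 :=
    ⟨_, rfl⟩
  have hτ1 : ∀ i, (τ i).support.card ≤ 1 := by
    intro i
    rw [hτ]
    exact ha _ _ (hSS _ (en.symm i).2.2)
  have hτ2 : ∀ i, IsUnit (MvPolynomial.aeval φ (τ i)) := by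
    intro i
    have h1 := hS0 _ _ (en.symm i).2.2
    have h2 := hb1 _ _ (hSS _ (en.symm i).2.2)
    rw [hb₀] at h1 h2
    rw [hτ]
    exact h2.resolve_left h1
  -- the roots
  obtain ⟨f1, f2, f3, f4⟩ := hRTF C N n hN fun i => MvPolynomial.aeval φ (τ i)
  have hC' : Nontrivial (RQ N fun i => MvPolynomial.aeval φ (τ i)) :=
    Module.nontrivial_of_finrank_pos (R := C) f3
  refine hBCF k Q hQ.clo hQ.free C (RQ N fun i => MvPolynomial.aeval φ (τ i)) f3 l r S' b₀ ?_
  have hroot : ∀ j, ∀ α ∈ S' j, ∃ b : (RQ N fun i => MvPolynomial.aeval φ (τ i))ˣ,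
      (b : RQ N fun i => MvPolynomial.aeval φ (τ i)) ^ N = algebraMap C _ (b₀ j α) := by
    intro j α hα
    have h1 := f4 (en ⟨j, α, hα⟩)
    have h2 : MvPolynomial.aeval φ (τ (en ⟨j, α, hα⟩)) = b₀ j α := by
      rw [hτ, hb₀]
      have h9 : en.symm (en ⟨j, α, hα⟩) = ⟨j, α, hα⟩ := en.symm_apply_apply _
      show MvPolynomial.aeval φ (a (en.symm (en ⟨j, α, hα⟩)).1 (en.symm (en ⟨j, α, hα⟩)).2.1) = _
      rw [h9]
    have h3 := (hτ2 (en ⟨j, α, hα⟩)).map (algebraMap C (RQ N fun i => MvPolynomial.aeval φ (τ i)))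
    rw [← h1] at h3
    obtain ⟨u, hu⟩ := (isUnit_pow_iff hN.ne').1 h3
    refine ⟨u, ?_⟩
    rw [hu, h1, h2]
  obtain ⟨e2⟩ := hRSC l r N hN S' hD' (RQ N fun i => MvPolynomial.aeval φ (τ i))
    (fun j α => algebraMap C _ (b₀ j α)) hroot
  refine hQ.clo.iso (e2.restrictScalars k).symm ?_
  obtain ⟨e3⟩ := hMVT k l (Fin r) (sS S' fun _ _ => (1 : k))
    (RQ N fun i => MvPolynomial.aeval φ (τ i))
  rw [map_one'] at e3
  suffices h8 : Q ((MvPolynomial (Fin l) k ⧸ Ideal.span (Set.range (sS S' fun _ _ => (1 : k)))) ⊗[k]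
      RQ N fun i => MvPolynomial.aeval φ (τ i)) from hQ.clo.iso e3 h8
  have hQ' := hTNB k Q hQ (RQ N fun i => MvPolynomial.aeval φ (τ i))
  refine hDEA k _ hQ' N m' hN ?_ l r (sS S' fun _ _ => (1 : k)) (dels hD' _ (supp_one k _)) ?_
  swap
  · refine le_trans (Finset.sum_le_sum fun j _ => ?_) hm
    rw [supp_one]
    exact Nat.sub_le_sub_right (Finset.card_le_card (hSS j)) 2
  intro M c c' hc
  -- the stratum with the roots
  have q1 : (fun _ : Fin n => MvPolynomial.aeval φ (1 : MvPolynomial V k)) =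
      fun _ => (1 : C) := funext fun _ => map_one _
  have q2 : (fun i : Fin n => MvPolynomial.aeval φ (- τ i)) =
      fun i => - MvPolynomial.aeval φ (τ i) := funext fun i => map_neg _ _
  have h1 := DBMAux.mxm hMXM (fun i : Fin n => i) (fun _ => (1 : MvPolynomial V k)) (fun _ => N)
    (fun i => - τ i) hφ _ q1 _ q2
  have h2 := DBMAux.add_unit (U' := Set.range Sum.inr) h1 (by
    rintro _ ⟨i, rfl⟩
    refine (isUnit_pow_iff hN.ne').1 ?_
    have h3 := (hτ2 i).map (algebraMap C (RQ N fun i => MvPolynomial.aeval φ (τ i)))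
    rw [← f4 i] at h3
    exact h3)
  have hFV : Fintype V := Fintype.ofFinite V
  have h3 := hBDH k V (V ⊕ Fin n) W (Sum.inl '' W) d C
    (RQ N fun i => MvPolynomial.aeval φ (τ i)) (IsScalarTower.toAlgHom k C _) φ
    (Sum.elim (fun v => Ideal.Quotient.mk _ (MvPolynomial.C (φ v)))
      fun j => Ideal.Quotient.mk _ (MvPolynomial.X j)) (by
      rintro _ ⟨w, hw, rfl⟩
      exact ⟨w, hw, rfl⟩) hBD
  obtain ⟨r', Λ, _, _, _, ⟨e4⟩, hΛ⟩ := hTOB k (V ⊕ Fin n) (ι ⊕ Fin n) _ (Sum.inl '' W) m d hd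
    (fewB (N := N) hf hτ1) (Sum.inl '' U ∪ Set.range Sum.inr) (Sum.inl '' Z) (cover hUZ) _ _ h2 h3
  have hQ2 := hTNB k Q hQ (FX N c c')
  have h4 : Q (Λ ⊗[k] FX N c c') :=
    hQ.clo.iso (Algebra.TensorProduct.comm k (FX N c c') Λ) (hH Λ hΛ M c c' hc)
  have h5 := hLAU k _ hQ2.clo Λ r' h4
  have h6 := hQ2.clo.iso e4.symm h5
  exact hQ.clo.iso (Algebra.TensorProduct.comm k _ (FX N c c')) h6

end Pool.Agent.FMS
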