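import Pool.Agent.FMS.St4

/-!
# Project FMS (MP_cb388a_ag): module TNA

The relation between the quotients of a double Artin-Schreier covering is inherited by
`D ↦ Q (D ⊗ R)`.
-/

set_option autoImplicit false

open Polynomial TensorProduct

namespace Pool.Agent.FMS

namespace TNAAux

variable {K : Type} [Field K]

theorem map_ap {A B : Type} [CommRing A] [CommRing B] (q : ℕ) (f : A →+* B) (α : A) :
    (ap q α).map f = ap q (f α) := by
  simp [ap]

/-- An isomorphism of algebras induces one of the coverings. -/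
noncomputable def e2 {B B' : Type} [CommRing B] [CommRing B'] [Algebra K B] [Algebra K B']
    (q : ℕ) (f : B ≃ₐ[K] B') (b : B) : AS q b ≃ₐ[K] AS q (f b) :=
  AdjoinRoot.mapAlgEquiv (R := K) f (ap q b) (ap q (f b)) (by
    rw [map_ap]
    exact Associated.refl _)

theorem e2_of {B B' : Type} [CommRing B] [CommRing B'] [Algebra K B] [Algebra K B']
    (q : ℕ) (f : B ≃ₐ[K] B') (b x : B) :
    e2 q f b (AdjoinRoot.of (ap q b) x) = AdjoinRoot.of (ap q (f b)) (f x) := by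
  have h : ap q (f b) ∣ (ap q b).map (f : B ≃+* B').toRingHom := by
    rw [map_ap]
    exact dvd_refl _
  exact AdjoinRoot.map_of (f : B ≃+* B').toRingHom (ap q b) (ap q (f b)) h x

variable {A : Type} [CommRing A] [Algebra K A] (R : Type) [CommRing R] [Algebra K R]

/-- The covering commutes with `⊗ R`. -/
noncomputable def e1 (q : ℕ) (α : A) : AS q α ⊗[K] R ≃ₐ[K] AS q (α ⊗ₜ[K] (1 : R)) :=
  (Algebra.TensorProduct.comm K (AS q α) R).trans <|
    ((AdjoinRoot.tensorAlgEquiv (R := K) (T := R) (ap q α)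
      (ap q ((1 : R) ⊗ₜ[K] α)) (map_ap q _ α)).restrictScalars K).trans <|
      e2 q (Algebra.TensorProduct.comm K R A) ((1 : R) ⊗ₜ[K] α)

theorem e1_of (q : ℕ) (α a : A) :
    e1 R q α (AdjoinRoot.of (ap q α) a ⊗ₜ[K] (1 : R)) =
      AdjoinRoot.of (ap q (α ⊗ₜ[K] (1 : R))) (a ⊗ₜ[K] (1 : R)) := by
  have h1 : Algebra.TensorProduct.comm K (AS q α) R (AdjoinRoot.of (ap q α) a ⊗ₜ[K] (1 : R)) =
      (1 : R) ⊗ₜ[K] AdjoinRoot.of (ap q α) a := rfl
  have h2 : AdjoinRoot.tensorAlgEquiv (R := K) (T := R) (ap q α)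
      (ap q ((1 : R) ⊗ₜ[K] α)) (map_ap q _ α) ((1 : R) ⊗ₜ[K] AdjoinRoot.of (ap q α) a) =
      AdjoinRoot.of _ ((1 : R) ⊗ₜ[K] a) := AdjoinRoot.tensorAlgEquiv_of _ _ _
  change e2 q (Algebra.TensorProduct.comm K R A) ((1 : R) ⊗ₜ[K] α)
    (AdjoinRoot.tensorAlgEquiv (R := K) (T := R) (ap q α)
      (ap q ((1 : R) ⊗ₜ[K] α)) (map_ap q _ α)
      (Algebra.TensorProduct.comm K (AS q α) R (AdjoinRoot.of (ap q α) a ⊗ₜ[K] (1 : R)))) = _
  rw [h1, h2]
  exact e2_of q _ _ _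

end TNAAux

open TNAAux in
theorem t_TNA : S_TNA := by
  intro p q K _ _ Q hQ hA R _ _ _ A _ _ _ α β h1 h2
  have h := hA (A ⊗[K] R) (α ⊗ₜ[K] (1 : R)) (β ⊗ₜ[K] (1 : R)) (fun a ha => ?_)
    (hQ.iso (e1 R q β) h2)
  · refine hQ.iso ?_ h
    refine ((e1 R q (AdjoinRoot.of (ap q β) α)).trans ((e2 q (e1 R q β) _).trans
      (AdjoinRoot.algEquivOfEq K _ _ ?_))).symm
    rw [e1_of]
  · refine hQ.iso ((e1 R q (α + a • β)).trans (AdjoinRoot.algEquivOfEq K _ _ ?_)) (h1 a ha)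
    rw [TensorProduct.add_tmul, TensorProduct.smul_tmul']

end Pool.Agent.FMS
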