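import Pool.Agent.FMS.St4
import Pool.Agent.FMS.TEN

/-!
# Project FMS (MP_cb388a_ag): module TNB

The closure properties `ACl` are inherited by `D ↦ Q (D ⊗ R)`.
-/

set_option autoImplicit false

open Polynomial TensorProduct

namespace Pool.Agent.FMS

namespace TNBAux

open TENAux (tm line)

variable {K : Type} [Field K] (R : Type) [CommRing R] [Algebra K R]

theorem away_tm {A U : Type} [CommRing A] [CommRing U] [Algebra K A]
    [Algebra K U] (a : A) (u : A →ₐ[K] U)
    (h : @IsLocalization.Away _ _ a U _ u.toRingHom.toAlgebra) :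
    @IsLocalization.Away _ _ (a ⊗ₜ[K] (1 : R)) (U ⊗[K] R) _ (tm R u).toRingHom.toAlgebra := by
  letI : Algebra A U := u.toRingHom.toAlgebra
  haveI : IsScalarTower K A U := .of_algebraMap_eq fun x => (u.commutes x).symm
  haveI : IsLocalization (Submonoid.powers a) U := h
  letI : Algebra (A ⊗[K] R) (U ⊗[K] R) := (tm R u).toRingHom.toAlgebra
  haveI : IsScalarTower A (A ⊗[K] R) (U ⊗[K] R) := .of_algebraMap_eq fun x => by
    change (algebraMap A U x) ⊗ₜ[K] (1 : R) = tm R u (x ⊗ₜ[K] (1 : R))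
    rw [Algebra.TensorProduct.map_tmul, map_one]
    rfl
  have := IsLocalization.tensorProduct_tensorProduct K R (Submonoid.powers a) U (by
    refine RingHom.ext fun x => ?_
    change tm R u ((1 : A) ⊗ₜ[K] x) = (1 : U) ⊗ₜ[K] x
    rw [Algebra.TensorProduct.map_tmul, map_one]
    rfl)
  rw [Algebra.algebraMapSubmonoid_powers] at this
  exact this

/-- Localisation and an isomorphism of the source. -/
theorem away_comp {A B U : Type} [CommRing A] [CommRing B] [CommRing U] [Algebra K A]
    [Algebra K B] [Algebra K U] (a : A) (b : B) (u : B →ₐ[K] U) (e : A ≃ₐ[K] B) (hab : e a = b)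
    (h : @IsLocalization.Away _ _ b U _ u.toRingHom.toAlgebra) :
    @IsLocalization.Away _ _ a U _ (u.comp (e : A →ₐ[K] B)).toRingHom.toAlgebra := by
  letI : Algebra B U := u.toRingHom.toAlgebra
  letI : Algebra A U := (u.comp (e : A →ₐ[K] B)).toRingHom.toAlgebra
  haveI hl : IsLocalization (Submonoid.powers b) U := h
  have hpow : ∀ n : ℕ, e (a ^ n) = b ^ n := fun n => by rw [map_pow, hab]
  refine ⟨?_, ?_, ?_⟩
  · rintro ⟨_, n, rfl⟩
    have := IsLocalization.map_units (S := U) (⟨b ^ n, n, rfl⟩ : Submonoid.powers b)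
    have h2 : algebraMap A U (a ^ n) = algebraMap B U (b ^ n) := by
      change u (e (a ^ n)) = u (b ^ n)
      rw [hpow]
    change IsUnit (algebraMap A U (a ^ n))
    rw [h2]
    exact this
  · intro z
    obtain ⟨⟨x, ⟨_, n, rfl⟩⟩, hx⟩ := IsLocalization.surj (Submonoid.powers b) z
    refine ⟨⟨e.symm x, ⟨a ^ n, n, rfl⟩⟩, ?_⟩
    change z * u (e (a ^ n)) = u (e (e.symm x))
    rw [hpow, e.apply_symm_apply]
    exact hx
  · intro x y hxy
    have h1 : algebraMap B U (e x) = algebraMap B U (e y) := hxy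
    obtain ⟨⟨_, n, rfl⟩, hc⟩ := IsLocalization.exists_of_eq (M := Submonoid.powers b) h1
    refine ⟨⟨a ^ n, n, rfl⟩, e.injective ?_⟩
    change e (a ^ n * x) = e (a ^ n * y)
    rw [map_mul, map_mul, hpow]
    exact hc

theorem line_X (A : Type) [CommRing A] [Algebra K A] :
    line R A (X : (A ⊗[K] R)[X]) = (X : A[X]) ⊗ₜ[K] (1 : R) := by
  simp only [line, AlgEquiv.trans_apply, polyEquivTensor_apply, eval₂_X, Algebra.TensorProduct.one_def,
    Algebra.TensorProduct.assoc_tmul, Algebra.TensorProduct.congr_apply,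
    Algebra.TensorProduct.map_tmul]
  simp

end TNBAux

open TNBAux TENAux in
theorem t_TNB : M_TNB := by
  intro hTEN K _ Q h R _ _ _
  obtain ⟨h1, h2⟩ := hTEN K Q h.clo h.free R
  refine ⟨h1, h2, ?_, ?_⟩
  · intro A _ _ _ hA
    exact h.unline (A ⊗[K] R) (h.clo.iso (line R A).symm hA)
  · intro C _ _ _ U _ _ _ u hu hU
    refine h.gm (C ⊗[K] R) (U ⊗[K] R)
      ((tm (K := K) R u).comp (AlgHomClass.toAlgHom (line (K := K) R C))) ?_ hU
    have h3 := away_tm (K := K) R X u hu
    have h4 := away_comp (K := K) (X : (C ⊗[K] R)[X]) _ (tm (K := K) R u) (line (K := K) R C)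
      (line_X R C) h3
    refine @Eq.mp _ _ ?_ h4
    congr 1

end Pool.Agent.FMS
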