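import Pool.Agent.FMS.St6
import Pool.Agent.FMO.TOR

/-!
# FMS, module TOB (helper31): the strata of systems with few monomials and equations in the base variables

After `Pool/Agent/FMO/TOR.lean` and `Pool/Agent/FMO/FLD.lean`.
-/

set_option autoImplicit false

open Polynomial Multiplicative

namespace Pool.Agent.FMS

open FMO (Univ Kp Laur Lam)

namespace TOBAux

open FMO.TORAux

theorem zz_mem {V : Type} [Fintype V] [DecidableEq V] {W : Set V} {H : AddSubgroup (V → ℤ)}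
    (hW : ∀ w ∈ W, (Pi.single w 1 : V → ℤ) ∈ H) (α : V →₀ ℕ) (hα : ∀ v, v ∉ W → α v = 0) :
    zz α ∈ H := by
  have h : zz α = ∑ v, (α v) • (Pi.single v 1 : V → ℤ) := by
    funext w
    simp [zz, Finset.sum_apply, Pi.single_apply]
  rw [h]
  refine AddSubgroup.sum_mem _ fun v _ => ?_
  by_cases hv : v ∈ W
  · exact AddSubgroup.nsmul_mem _ (hW v hv) _
  · rw [hα v hv, zero_smul]
    exact AddSubgroup.zero_mem _

theorem vars_zero {k V : Type} [Field k] {W : Set V} {p : MvPolynomial V k}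
    (h : ∀ v ∈ p.vars, v ∈ W) {α : V →₀ ℕ} (hα : α ∈ p.support) (v : V) (hv : v ∉ W) :
    α v = 0 := by
  by_contra hne
  exact hv (h v ((MvPolynomial.mem_vars_iff_mem_support v).2 ⟨α, hα, by
    simpa using hne⟩))

theorem finType (k : Type) [Field k] (C : Type) [CommRing C] [Algebra k C] (G : Type)
    [CommGroup G] [hfg : Group.FG G] (χ : G →* Cˣ)
    (htop : Algebra.adjoin k (Set.range fun g => (χ g : C)) = ⊤) : Algebra.FiniteType k C := by
  obtain ⟨s, hs⟩ := (Group.fg_iff' (G := G)).1 hfg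
  obtain ⟨s', -, hs'⟩ : ∃ s' : Finset G, s'.card = s ∧ Subgroup.closure (s' : Set G) = ⊤ := hs
  refine ⟨Subalgebra.fg_def.2
    ⟨(fun g => (χ g : C)) '' (s' : Set G) ∪ (fun g => (χ g⁻¹ : C)) '' (s' : Set G),
      (s'.finite_toSet.image _).union (s'.finite_toSet.image _), ?_⟩⟩
  rw [eq_top_iff, ← htop]
  refine Algebra.adjoin_le ?_
  rintro _ ⟨g, rfl⟩
  have hg : g ∈ Subgroup.closure (s' : Set G) := by rw [hs']; trivial
  have key : (χ g : C) ∈ Algebra.adjoin k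
        ((fun g => (χ g : C)) '' (s' : Set G) ∪ (fun g => (χ g⁻¹ : C)) '' (s' : Set G)) ∧
      (χ g⁻¹ : C) ∈ Algebra.adjoin k
        ((fun g => (χ g : C)) '' (s' : Set G) ∪ (fun g => (χ g⁻¹ : C)) '' (s' : Set G)) := by
    induction hg using Subgroup.closure_induction with
    | mem x hx =>
      exact ⟨Algebra.subset_adjoin (Or.inl ⟨x, hx, rfl⟩),
        Algebra.subset_adjoin (Or.inr ⟨x, hx, rfl⟩)⟩
    | one =>
      refine ⟨?_, ?_⟩
      · rw [map_one, Units.val_one]; exact one_mem _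
      · rw [inv_one, map_one, Units.val_one]; exact one_mem _
    | mul x y _ _ hx hy =>
      refine ⟨?_, ?_⟩
      · rw [map_mul, Units.val_mul]; exact mul_mem hx.1 hy.1
      · rw [mul_inv, map_mul, Units.val_mul]; exact mul_mem hx.2 hy.2
    | inv x _ hx =>
      refine ⟨hx.2, ?_⟩
      rw [inv_inv]; exact hx.1
  exact key.1

/-- the homomorphism of the residue fields -/
theorem exists_map {k : Type} [Field k] {C Λ : Type} [CommRing C] [Algebra k C] [CommRing Λ]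
    [Algebra k Λ] (ρ : C →ₐ[k] Λ) (q : PrimeSpectrum Λ) :
    ∃ (Q : PrimeSpectrum C) (j : Kp Q →ₐ[k] Kp q), ∀ a, j (FMO.val Q a) = FMO.val q (ρ a) := by
  let Q : PrimeSpectrum C := PrimeSpectrum.comap ρ.toRingHom q
  let f : C ⧸ Q.asIdeal →+* Λ ⧸ q.asIdeal :=
    Ideal.quotientMap q.asIdeal ρ.toRingHom (le_refl _)
  have hf : Function.Injective f := Ideal.quotientMap_injective
  let g : C ⧸ Q.asIdeal →+* Kp q := (algebraMap (Λ ⧸ q.asIdeal) (Kp q)).comp f
  have hg : Function.Injective g := (IsFractionRing.injective (Λ ⧸ q.asIdeal) (Kp q)).comp hf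
  have hj : ∀ a, IsFractionRing.lift (K := Kp Q) hg (FMO.val Q a) = FMO.val q (ρ a) := by
    intro a
    unfold FMO.val
    rw [IsFractionRing.lift_algebraMap]
    rfl
  refine ⟨Q, { IsFractionRing.lift (K := Kp Q) hg with commutes' := fun c => ?_ }, hj⟩
  have h := hj (algebraMap k C c)
  rw [AlgHom.commutes] at h
  exact h

theorem bd {k : Type} [Field k] {V : Type} {W : Set V} {d : ℕ} {C Λ : Type} [CommRing C]
    [Algebra k C] [CommRing Λ] [Algebra k Λ] (ρ : C →ₐ[k] Λ) {φ : V → C} (h : BD k W d φ)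
    (q : PrimeSpectrum Λ) (S : Set (Kp q)) (hS : ∀ x ∈ S, ∃ v ∈ W, x = FMO.val q (ρ (φ v))) :
    Algebra.trdeg k (IntermediateField.adjoin k S) ≤ d := by
  obtain ⟨Q, j, hj⟩ := exists_map ρ q
  obtain ⟨K, hK⟩ : ∃ K : IntermediateField k (Kp Q),
    K = IntermediateField.adjoin k {x : Kp Q | ∃ v ∈ W, x = FMO.val Q (φ v)} := ⟨_, rfl⟩
  have h1 : Algebra.trdeg k K ≤ d := by
    rw [hK]
    exact h Q
  have h2 : IntermediateField.adjoin k S ≤ K.map j := by
    rw [IntermediateField.adjoin_le_iff]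
    intro x hx
    obtain ⟨v, hv, rfl⟩ := hS x hx
    refine ⟨FMO.val Q (φ v), ?_, hj _⟩
    rw [hK]
    exact IntermediateField.subset_adjoin k _ ⟨v, hv, rfl⟩
  have h3 : Algebra.trdeg k (IntermediateField.adjoin k S) ≤ Algebra.trdeg k (K.map j) :=
    trdeg_le_of_injective (IntermediateField.inclusion h2)
      (IntermediateField.inclusion_injective h2)
  have h4 : Algebra.trdeg k (K.map j) ≤ Algebra.trdeg k K :=
    trdeg_le_of_injective (K.equivMap j).symm.toAlgHom (K.equivMap j).symm.injective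
  exact h3.trans (h4.trans h1)

/-- the retraction -/
theorem retr {k : Type} [Field k] {C : Type} [CommRing C] [Algebra k C] (Λ : Subalgebra k C)
    (r : ℕ) (e : C ≃ₐ[k] Laur r Λ) (he : ∀ c : Λ,
      e (c : C) = algebraMap (MvPolynomial (Fin r) Λ) (Laur r Λ) (MvPolynomial.C c)) :
    ∃ ρ : C →ₐ[k] Λ, ∀ c : Λ, ρ (c : C) = c := by
  let f : MvPolynomial (Fin r) Λ →ₐ[k] Λ :=
    (MvPolynomial.aeval (R := Λ) (fun _ : Fin r => (1 : Λ))).restrictScalars k
  have hf : ∀ y : Submonoid.powers (∏ i, MvPolynomial.X i : MvPolynomial (Fin r) Λ),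
      IsUnit (f y) := by
    rintro ⟨_, n, rfl⟩
    have h : f ((∏ i, MvPolynomial.X i : MvPolynomial (Fin r) Λ) ^ n) = 1 := by
      rw [map_pow, map_prod]
      have h1 : ∀ i : Fin r, f (MvPolynomial.X i) = 1 := fun i => MvPolynomial.aeval_X _ _
      simp only [h1, Finset.prod_const_one, one_pow]
    change IsUnit (f ((∏ i, MvPolynomial.X i : MvPolynomial (Fin r) Λ) ^ n))
    rw [h]
    exact isUnit_one
  let g : Laur r Λ →ₐ[k] Λ := IsLocalization.liftAlgHom
    (M := Submonoid.powers (∏ i, MvPolynomial.X i : MvPolynomial (Fin r) Λ)) (f := f) hf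
  refine ⟨g.comp e.toAlgHom, fun c => ?_⟩
  change g (e (c : C)) = c
  rw [he]
  change IsLocalization.liftAlgHom
    (M := Submonoid.powers (∏ i, MvPolynomial.X i : MvPolynomial (Fin r) Λ)) (f := f) hf _ = c
  rw [IsLocalization.liftAlgHom_apply, IsLocalization.lift_eq]
  change MvPolynomial.aeval (R := Λ) (fun _ : Fin r => (1 : Λ)) (MvPolynomial.C c) = c
  rw [MvPolynomial.aeval_C]
  rfl

end TOBAux

open TOBAux FMO.TORAux in
/-- Module TOB. -/
theorem t_TOB : M_TOB := by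
  classical
  intro hTOZ hFLB k _ V _ ι f W m d hd hFew U Z hUZ C _ _ _ φ hφ hBD
  obtain ⟨t, htm, ht3, ht2⟩ := hFew
  obtain ⟨N, hN⟩ : ∃ N : AddSubgroup (V → ℤ), N = AddSubgroup.closure
      ({x | ∃ j, (j ∈ t ∨ (f j).support.card ≤ 2) ∧ ∃ α ∈ (f j).support, ∃ β ∈ (f j).support,
        (∀ v, v ∉ U → α v = 0) ∧ (∀ v, v ∉ U → β v = 0) ∧ x = zz α - zz β} ∪
        ({x | ∃ v, v ∉ U ∧ x = Pi.single v 1} ∪ {x | ∃ w, w ∈ W ∧ x = Pi.single w 1})) :=
    ⟨_, rfl⟩
  obtain ⟨r, deg, s, hs, hker, htor⟩ := Pool.Agent.GZT.exists_deg N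
  have hsingN : ∀ v, v ∉ U → (Pi.single v 1 : V → ℤ) ∈ N := by
    intro v hv
    rw [hN]
    exact AddSubgroup.subset_closure (Or.inr (Or.inl ⟨v, hv, rfl⟩))
  have hWN : ∀ w ∈ W, (Pi.single w 1 : V → ℤ) ∈ N := by
    intro w hw
    rw [hN]
    exact AddSubgroup.subset_closure (Or.inr (Or.inr ⟨w, hw, rfl⟩))
  have hdiffN : ∀ j, ∀ α ∈ (f j).support, ∀ β ∈ (f j).support, (∀ v, v ∉ U → α v = 0) →
      (∀ v, v ∉ U → β v = 0) → zz α - zz β ∈ N := by
    intro j α hα β hβ h1 h2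
    by_cases hj : j ∈ t ∨ (f j).support.card ≤ 2
    · rw [hN]
      exact AddSubgroup.subset_closure (Or.inl ⟨j, hj, α, hα, β, hβ, h1, h2, rfl⟩)
    · have hj1 : j ∉ t := fun h => hj (Or.inl h)
      have hj2 := (ht2 j hj1).resolve_left fun h => hj (Or.inr h)
      exact AddSubgroup.sub_mem _ (zz_mem hWN α (vars_zero hj2 hα))
        (zz_mem hWN β (vars_zero hj2 hβ))
  obtain ⟨χ, hχU, hχ1, e, he⟩ := hTOZ k V ι f U Z hUZ C φ hφ r deg s hs
    (fun v hv => (AddMonoidHom.mem_ker).1 (hker (hsingN v hv)))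
    (by
      intro j α hα β hβ h1 h2
      have h3 := (AddMonoidHom.mem_ker).1 (hker (hdiffN j α hα β hβ h1 h2))
      rw [map_sub, sub_eq_zero] at h3
      exact h3)
  obtain ⟨ρ, hρ⟩ := retr (Lam k χ deg) r e he
  have hmem : ∀ x : V → ℤ, x ∈ deg.ker → (χ (ofAdd x) : C) ∈ Lam k χ deg := fun x hx =>
    Algebra.subset_adjoin ⟨x, (AddMonoidHom.mem_ker).1 hx, rfl⟩
  -- the character with values in the units of the subalgebra
  obtain ⟨X, hX⟩ : ∃ X : Multiplicative deg.ker →* (Lam k χ deg)ˣ,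
      ∀ (x : V → ℤ) (hx : x ∈ deg.ker),
        (((X (ofAdd ⟨x, hx⟩) : Lam k χ deg)) : C) = (χ (ofAdd x) : C) := by
    refine ⟨MonoidHom.mk' (fun g => ⟨⟨(χ (ofAdd ((toAdd g : deg.ker) : V → ℤ)) : C),
      hmem _ (toAdd g).2⟩, ⟨(χ (ofAdd (-((toAdd g : deg.ker) : V → ℤ))) : C),
      hmem _ (AddSubgroup.neg_mem _ (toAdd g).2)⟩, ?_, ?_⟩) ?_, fun x hx => rfl⟩
    · apply Subtype.ext
      change (χ (ofAdd ((toAdd g : deg.ker) : V → ℤ)) : C) *
        (χ (ofAdd (-((toAdd g : deg.ker) : V → ℤ))) : C) = 1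
      rw [← Units.val_mul, ← map_mul, ← ofAdd_add, add_neg_cancel, ofAdd_zero, map_one,
        Units.val_one]
    · apply Subtype.ext
      change (χ (ofAdd (-((toAdd g : deg.ker) : V → ℤ))) : C) *
        (χ (ofAdd ((toAdd g : deg.ker) : V → ℤ)) : C) = 1
      rw [← Units.val_mul, ← map_mul, ← ofAdd_add, neg_add_cancel, ofAdd_zero, map_one,
        Units.val_one]
    · intro a b
      apply Units.ext
      apply Subtype.ext
      change (χ (ofAdd (((toAdd (a * b) : deg.ker)) : V → ℤ)) : C) =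
        (χ (ofAdd ((toAdd a : deg.ker) : V → ℤ)) : C) *
          (χ (ofAdd ((toAdd b : deg.ker) : V → ℤ)) : C)
      rw [← Units.val_mul, ← map_mul, ← ofAdd_add, toAdd_mul, AddSubgroup.coe_add]
  -- the exponents of the equation `j`
  obtain ⟨A, hA⟩ : ∃ A : ι → Finset (V →₀ ℕ), ∀ j α, α ∈ A j ↔
      α ∈ (f j).support ∧ ∀ v, v ∉ U → α v = 0 :=
    ⟨fun j => (f j).support.filter (fun α => ∀ v, v ∉ U → α v = 0), fun j α => Finset.mem_filter⟩
  have hAc : ∀ j, (A j).card ≤ (f j).support.card := fun j =>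
    Finset.card_le_card fun α hα => ((hA j α).1 hα).1
  have hZ0 : ∀ v, v ∉ U → φ v = 0 := fun v hv =>
    hφ.zero v ((hUZ v).resolve_left hv)
  have hrel : ∀ j, ∑ α ∈ A j, (f j).coeff α • (χ (ofAdd (zz α)) : C) = 0 := fun j =>
    sum_zero χ hχU hZ0 (f j) (hφ.sat j) (A j) (hA j)
  have hcoef : ∀ j, ∀ α ∈ A j, (f j).coeff α ≠ 0 := fun j α hα =>
    MvPolynomial.mem_support_iff.1 ((hA j α).1 hα).1
  have hAker : ∀ j, ∀ α ∈ A j, ∀ β ∈ A j, zz α - zz β ∈ deg.ker := fun j α hα β hβ =>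
    hker (hdiffN j α ((hA j α).1 hα).1 β ((hA j β).1 hβ).1 ((hA j α).1 hα).2 ((hA j β).1 hβ).2)
  have hnum : ∀ i : Fin m, ∃ p q : V → ℤ, p ∈ deg.ker ∧ q ∈ deg.ker ∧
      (∃ d d' : k, d' ≠ 0 ∧ 1 + d • (χ (ofAdd p) : C) + d' • (χ (ofAdd q) : C) = 0) ∧
      ∀ h : (i : ℕ) < t.card, ∀ α ∈ A (t.equivFin.symm ⟨i, h⟩), ∀ β ∈ A (t.equivFin.symm ⟨i, h⟩),
        (∃ d : k, (χ (ofAdd (zz α - zz β)) : C) = algebraMap k C d) ∨
        zz α - zz β ∈ AddSubgroup.closure {p, q} := by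
    intro i
    by_cases h : (i : ℕ) < t.card
    · obtain ⟨j, hj⟩ : ∃ j : ι, j = (t.equivFin.symm ⟨i, h⟩ : ι) := ⟨_, rfl⟩
      have hjt : j ∈ t := by rw [hj]; exact (t.equivFin.symm ⟨i, h⟩).2
      obtain ⟨-, p, q, hp, hq, hpq, hall⟩ := pj χ (A j) (fun α => (f j).coeff α) (hcoef j) (hrel j)
        ((hAc j).trans (ht3 j hjt))
      refine ⟨p, q, ?_, ?_, hpq, ?_⟩
      · rcases hp with rfl | ⟨α, hα, β, hβ, rfl⟩
        · exact AddSubgroup.zero_mem _
        · exact hAker j α hα β hβ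
      · rcases hq with rfl | ⟨α, hα, β, hβ, rfl⟩
        · exact AddSubgroup.zero_mem _
        · exact hAker j α hα β hβ
      · intro h'
        rw [← hj]
        exact hall
    · obtain ⟨-, p, q, hp, hq, hpq, -⟩ := pj χ ∅ (fun _ => (1 : k)) (by simp) (by simp) (by simp)
      have hp0 : p = 0 := by
        rcases hp with hp | ⟨α, hα, _⟩
        · exact hp
        · exact absurd hα (Finset.notMem_empty _)
      have hq0 : q = 0 := by
        rcases hq with hq | ⟨α, hα, _⟩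
        · exact hq
        · exact absurd hα (Finset.notMem_empty _)
      refine ⟨p, q, ?_, ?_, hpq, fun h' => absurd h' h⟩
      · rw [hp0]; exact AddSubgroup.zero_mem _
      · rw [hq0]; exact AddSubgroup.zero_mem _
  choose p q hp hq hpq hall using hnum
  obtain ⟨B, hB⟩ : ∃ B : Set (Multiplicative deg.ker), ∀ g, g ∈ B ↔
      ∃ w ∈ W, w ∈ U ∧ ((toAdd g : deg.ker) : V → ℤ) = Pi.single w 1 := ⟨{g | _}, fun g => Iff.rfl⟩
  obtain ⟨D, hD⟩ : ∃ D : Set (Multiplicative deg.ker), ∀ g, g ∈ D ↔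
      (g ∈ B ∨ (∃ c : k, (X g : Lam k χ deg) = algebraMap k (Lam k χ deg) c) ∨
        ∃ i : Fin m, g = ofAdd ⟨p i, hp i⟩ ∨ g = ofAdd ⟨q i, hq i⟩) := ⟨{g | _}, fun g => Iff.rfl⟩
  -- the subgroup of the exponents which are good
  obtain ⟨H, hH⟩ : ∃ H : AddSubgroup (V → ℤ), ∀ x, x ∈ H ↔
      ∃ h : x ∈ deg.ker, (ofAdd (⟨x, h⟩ : deg.ker)) ∈ Subgroup.closure D := by
    refine ⟨{ carrier := {x | ∃ h : x ∈ deg.ker, (ofAdd (⟨x, h⟩ : deg.ker)) ∈ Subgroup.closure D}
              zero_mem' := ⟨AddSubgroup.zero_mem _, Subgroup.one_mem _⟩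
              add_mem' := ?_
              neg_mem' := ?_ }, fun x => Iff.rfl⟩
    · rintro a b ⟨ha, ha'⟩ ⟨hb, hb'⟩
      exact ⟨AddSubgroup.add_mem _ ha hb, Subgroup.mul_mem _ ha' hb'⟩
    · rintro a ⟨ha, ha'⟩
      exact ⟨AddSubgroup.neg_mem _ ha, Subgroup.inv_mem _ ha'⟩
  have hconst : ∀ x, x ∈ deg.ker → (∃ d : k, (χ (ofAdd x) : C) = algebraMap k C d) → x ∈ H := by
    rintro x hx ⟨d, hd⟩
    rw [hH]
    refine ⟨hx, Subgroup.subset_closure ((hD _).2 (Or.inr (Or.inl ⟨d, ?_⟩)))⟩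
    apply Subtype.ext
    rw [hX x hx, hd]
    rfl
  have hNH : N ≤ H := by
    rw [hN, AddSubgroup.closure_le]
    rintro x (⟨j, hjt, α, hα, β, hβ, h1, h2, rfl⟩ | ⟨v, hv, rfl⟩ | ⟨w, hw, rfl⟩)
    · have hαA : α ∈ A j := (hA j α).2 ⟨hα, h1⟩
      have hβA : β ∈ A j := (hA j β).2 ⟨hβ, h2⟩
      by_cases hj : j ∈ t
      · obtain ⟨a, ha⟩ : ∃ a : Fin t.card, a = t.equivFin ⟨j, hj⟩ := ⟨_, rfl⟩
        obtain ⟨i, hi⟩ : ∃ i : Fin m, i = Fin.castLE htm a := ⟨_, rfl⟩
        have hit : (i : ℕ) < t.card := by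
          rw [hi]
          exact a.2
        have hij : (t.equivFin.symm ⟨i, hit⟩ : ι) = j := by
          have h3 : (⟨i, hit⟩ : Fin t.card) = a := by
            apply Fin.ext
            change (i : ℕ) = (a : ℕ)
            rw [hi]
            rfl
          rw [h3, ha, Equiv.symm_apply_apply]
        have h4 := hall i hit
        rw [hij] at h4
        rcases h4 α hαA β hβA with h5 | h5
        · exact hconst _ (hAker j α hαA β hβA) h5
        · have h6 : AddSubgroup.closure {p i, q i} ≤ H := by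
            rw [AddSubgroup.closure_le]
            rintro x (rfl | rfl)
            · exact (hH _).2 ⟨hp i, Subgroup.subset_closure
                ((hD _).2 (Or.inr (Or.inr ⟨i, Or.inl rfl⟩)))⟩
            · exact (hH _).2 ⟨hq i, Subgroup.subset_closure
                ((hD _).2 (Or.inr (Or.inr ⟨i, Or.inr rfl⟩)))⟩
          exact h6 h5
      · have hc2 : (f j).support.card ≤ 2 := hjt.resolve_left hj
        have h2' := (pj χ (A j) (fun α => (f j).coeff α) (hcoef j) (hrel j)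
          (((hAc j).trans hc2).trans (by norm_num))).1 ((hAc j).trans hc2)
        exact hconst _ (hAker j α hαA β hβA) (h2' α hαA β hβA)
    · refine hconst _ (hker (hsingN v hv)) ⟨1, ?_⟩
      rw [hχ1 v hv, Units.val_one, map_one]
    · by_cases hwU : w ∈ U
      · exact (hH _).2 ⟨hker (hWN w hw), Subgroup.subset_closure
          ((hD _).2 (Or.inl ((hB _).2 ⟨w, hw, hwU, rfl⟩)))⟩
      · refine hconst _ (hker (hsingN w hwU)) ⟨1, ?_⟩
        rw [hχ1 w hwU, Units.val_one, map_one]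
  haveI hfin : Module.Finite ℤ deg.ker :=
    Module.Finite.of_injective (deg.ker.subtype.toIntLinearMap) Subtype.val_injective
  haveI hfg : AddGroup.FG deg.ker := Module.Finite.iff_addGroup_fg.1 hfin
  haveI hfgm : Group.FG (Multiplicative deg.ker) := inferInstance
  have htop : Algebra.adjoin k (Set.range fun g => ((X g : (Lam k χ deg)ˣ) : Lam k χ deg)) = ⊤ := by
    have h1 : (Set.range fun g => ((X g : (Lam k χ deg)ˣ) : Lam k χ deg)) =
        ((↑) : Lam k χ deg → C) ⁻¹' {c | ∃ α, deg α = 0 ∧ c = (χ (ofAdd α) : C)} := by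
      ext y
      constructor
      · rintro ⟨g, rfl⟩
        exact ⟨((toAdd g : deg.ker) : V → ℤ), (AddMonoidHom.mem_ker).1 (toAdd g).2,
          hX _ (toAdd g).2⟩
      · rintro ⟨α, hα, hy⟩
        have hα' : α ∈ deg.ker := (AddMonoidHom.mem_ker).2 hα
        refine ⟨ofAdd ⟨α, hα'⟩, ?_⟩
        apply Subtype.ext
        rw [hy]
        exact hX α hα'
    rw [h1]
    exact Algebra.adjoin_adjoin_coe_preimage
  refine ⟨r, Lam k χ deg, inferInstance, inferInstance,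
    finType k (Lam k χ deg) (Multiplicative deg.ker) X htop, ⟨e⟩, fun Q => ?_⟩
  let F : Lam k χ deg →ₐ[k] Kp Q :=
    (IsScalarTower.toAlgHom k (Lam k χ deg ⧸ Q.asIdeal) (Kp Q)).comp
      (Ideal.Quotient.mkₐ k Q.asIdeal)
  let X' : Multiplicative deg.ker →* (Kp Q)ˣ :=
    (Units.map (F : Lam k χ deg →* Kp Q)).comp X
  have hX' : ∀ g, (X' g : Kp Q) = F (X g : Lam k χ deg) := fun g => rfl
  have hval : ∀ a, F a = FMO.val Q a := fun a => rfl
  have hmem' : ∀ c : Lam k χ deg,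
      F c ∈ IntermediateField.adjoin k (Set.range fun g => (X' g : Kp Q)) := by
    intro c
    have hle : Algebra.adjoin k (Set.range fun g => ((X g : (Lam k χ deg)ˣ) : Lam k χ deg)) ≤
        (IntermediateField.adjoin k (Set.range fun g => (X' g : Kp Q))).toSubalgebra.comap F := by
      refine Algebra.adjoin_le ?_
      rintro _ ⟨g, rfl⟩
      exact IntermediateField.subset_adjoin k _ ⟨g, rfl⟩
    have hc : c ∈ Algebra.adjoin k
        (Set.range fun g => ((X g : (Lam k χ deg)ˣ) : Lam k χ deg)) := by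
      rw [htop]; trivial
    exact hle hc
  refine hFLB k (Kp Q) m d hd (Multiplicative deg.ker) X' (fun i => ofAdd ⟨p i, hp i⟩)
    (fun i => ofAdd ⟨q i, hq i⟩) D B ?_ ?_ ?_ ?_ ?_
  · rw [eq_top_iff]
    rintro x -
    obtain ⟨a, b, -, rfl⟩ := IsFractionRing.div_surjective (A := Lam k χ deg ⧸ Q.asIdeal) x
    obtain ⟨a, rfl⟩ := Ideal.Quotient.mk_surjective a
    obtain ⟨b, rfl⟩ := Ideal.Quotient.mk_surjective b
    exact div_mem (hmem' a) (hmem' b)
  · intro i
    obtain ⟨c, c', hc', h⟩ := hpq i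
    refine ⟨c, c', hc', ?_⟩
    have h' : 1 + c • ((X (ofAdd ⟨p i, hp i⟩) : (Lam k χ deg)ˣ) : Lam k χ deg) +
        c' • ((X (ofAdd ⟨q i, hq i⟩) : (Lam k χ deg)ˣ) : Lam k χ deg) = 0 := by
      apply Subtype.ext
      change (1 : C) + c • ((X (ofAdd ⟨p i, hp i⟩) : Lam k χ deg) : C) +
        c' • ((X (ofAdd ⟨q i, hq i⟩) : Lam k χ deg) : C) = 0
      rw [hX, hX]
      exact h
    have := congrArg F h'
    rw [map_add, map_add, map_one, map_zero, map_smul, map_smul] at this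
    exact this
  · refine bd ρ hBD Q _ ?_
    rintro x ⟨g, hg, rfl⟩
    obtain ⟨w, hw, hwU, hgw⟩ := (hB g).1 hg
    refine ⟨w, hw, ?_⟩
    rw [hX', hval]
    congr 1
    have h1 : ((X g : Lam k χ deg) : C) = φ w := by
      have h2 : ((X g : Lam k χ deg) : C) = (χ (ofAdd ((toAdd g : deg.ker) : V → ℤ)) : C) :=
        hX ((toAdd g : deg.ker) : V → ℤ) (toAdd g).2
      rw [h2, hgw, hχU w hwU]
    rw [← h1, hρ]
  · intro g hg
    rcases (hD g).1 hg with h | ⟨c, hc⟩ | h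
    · exact Or.inl h
    · right
      left
      refine ⟨c, ?_⟩
      rw [hX', hc, F.commutes]
    · exact Or.inr (Or.inr h)
  · intro g
    obtain ⟨n, hn, hmemN⟩ := htor _ (toAdd g).2
    refine ⟨n, hn, ?_⟩
    obtain ⟨h1, h2⟩ := (hH _).1 (hNH hmemN)
    have h3 : g ^ n = ofAdd (⟨n • ((toAdd g : deg.ker) : V → ℤ), h1⟩ : deg.ker) := rfl
    rw [h3]
    exact h2

end Pool.Agent.FMS
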