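import Pool.Agent.FMS.St

/-!
# TOW: towers of Artin-Schreier coverings
-/

set_option autoImplicit false

open CategoryTheory AlgebraicGeometry Polynomial

namespace Pool.Agent.FMS

namespace TOWAux

noncomputable section

/-- Isomorphic data give isomorphic Artin-Schreier algebras. -/
def asCong {K A B : Type} [Field K] [CommRing A] [CommRing B] [Algebra K A] [Algebra K B] (q : ℕ)
    (e : A ≃ₐ[K] B) (α : A) (β : B) (h : e α = β) : AS q α ≃ₐ[K] AS q β :=
  AdjoinRoot.mapAlgEquiv e (ap q α) (ap q β) (by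
    have : (ap q α).map (e : A →+* B) = ap q β := by
      simp [ap, h]
    rw [this])

variable {A : Type} [CommRing A]

/-- The relations of `XS`. -/
theorem rel (q : ℕ) {r : ℕ} (α : Fin r → A) (i : Fin r) :
    (Ideal.Quotient.mk (Ideal.span (Set.range fun i : Fin r =>
      (MvPolynomial.X i ^ q - MvPolynomial.X i - MvPolynomial.C (α i) : MvPolynomial (Fin r) A)))
      (MvPolynomial.X i) : XS q α) ^ q - Ideal.Quotient.mk _ (MvPolynomial.X i) -
      algebraMap A (XS q α) (α i) = 0 := by
  have h := Ideal.Quotient.eq_zero_iff_mem.mpr (Ideal.subset_span (Set.mem_range_self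
    (f := fun i : Fin r => (MvPolynomial.X i ^ q - MvPolynomial.X i - MvPolynomial.C (α i) :
      MvPolynomial (Fin r) A)) i))
  rw [map_sub, map_sub, map_pow] at h
  exact h

/-- Homomorphisms out of `XS`. -/
def lft (q : ℕ) {r : ℕ} (α : Fin r → A) {T : Type} [CommRing T] [Algebra A T] (x : Fin r → T)
    (h : ∀ i, x i ^ q - x i - algebraMap A T (α i) = 0) : XS q α →ₐ[A] T :=
  Ideal.Quotient.liftₐ _ (MvPolynomial.aeval x) (by
    intro a ha
    have : Ideal.span (Set.range fun i : Fin r => (MvPolynomial.X i ^ q - MvPolynomial.X i -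
        MvPolynomial.C (α i) : MvPolynomial (Fin r) A)) ≤ RingHom.ker (MvPolynomial.aeval x) := by
      rw [Ideal.span_le]
      rintro _ ⟨i, rfl⟩
      simp only [SetLike.mem_coe, RingHom.mem_ker, map_sub, map_pow, MvPolynomial.aeval_X,
        MvPolynomial.aeval_C]
      exact h i
    exact this ha)

theorem lft_X (q : ℕ) {r : ℕ} (α : Fin r → A) {T : Type} [CommRing T] [Algebra A T]
    (x : Fin r → T) (h : ∀ i, x i ^ q - x i - algebraMap A T (α i) = 0) (i : Fin r) :
    lft q α x h (Ideal.Quotient.mk _ (MvPolynomial.X i)) = x i := by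
  change MvPolynomial.aeval x (MvPolynomial.X i) = x i
  rw [MvPolynomial.aeval_X]

theorem ext {q : ℕ} {r : ℕ} {α : Fin r → A} {T : Type} [CommRing T] [Algebra A T]
    {f g : XS q α →ₐ[A] T} (h : ∀ i : Fin r, f (Ideal.Quotient.mk _ (MvPolynomial.X i)) =
      g (Ideal.Quotient.mk _ (MvPolynomial.X i))) : f = g := by
  apply Ideal.Quotient.algHom_ext
  apply MvPolynomial.algHom_ext
  intro i
  exact h i

/-- The first step of the tower. -/
def fw (q : ℕ) {s : ℕ} (α : Fin (s + 1) → A) :
    XS q α →ₐ[A] AS q (algebraMap A (XS q (Fin.tail α)) (α 0)) :=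
  lft q α (Fin.cons (AdjoinRoot.root _) fun i =>
    AdjoinRoot.of _ (Ideal.Quotient.mk _ (MvPolynomial.X i))) (by
    intro i
    refine Fin.cases ?_ (fun i => ?_) i
    · simp only [Fin.cons_zero]
      have h := AdjoinRoot.eval₂_root (ap q (algebraMap A (XS q (Fin.tail α)) (α 0)))
      rw [ap, Polynomial.eval₂_sub, Polynomial.eval₂_sub, Polynomial.eval₂_pow,
        Polynomial.eval₂_X, Polynomial.eval₂_C] at h
      exact h
    · simp only [Fin.cons_succ]
      have h := congrArg (AdjoinRoot.of (ap q (algebraMap A (XS q (Fin.tail α)) (α 0))))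
        (rel q (Fin.tail α) i)
      rw [map_sub, map_sub, map_pow, map_zero] at h
      exact h)

/-- The algebra of the other elements. -/
def bs (q : ℕ) {s : ℕ} (α : Fin (s + 1) → A) : XS q (Fin.tail α) →ₐ[A] XS q α :=
  lft q (Fin.tail α) (fun i => Ideal.Quotient.mk _ (MvPolynomial.X i.succ)) fun i =>
    rel q α i.succ

def bw (q : ℕ) {s : ℕ} (α : Fin (s + 1) → A) :
    AS q (algebraMap A (XS q (Fin.tail α)) (α 0)) →ₐ[A] XS q α :=
  AdjoinRoot.liftAlgHom _ (bs q α) (Ideal.Quotient.mk _ (MvPolynomial.X 0)) (by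
    rw [ap, Polynomial.eval₂_sub, Polynomial.eval₂_sub, Polynomial.eval₂_pow,
        Polynomial.eval₂_X, Polynomial.eval₂_C]
    have h := rel q α 0
    have h2 : (bs q α) (algebraMap A (XS q (Fin.tail α)) (α 0)) = algebraMap A (XS q α) (α 0) :=
      AlgHom.commutes _ _
    exact (congrArg _ h2).trans h)

theorem bs_X (q : ℕ) {s : ℕ} (α : Fin (s + 1) → A) (i : Fin s) :
    bs q α (Ideal.Quotient.mk _ (MvPolynomial.X i)) =
      Ideal.Quotient.mk _ (MvPolynomial.X i.succ) := lft_X _ _ _ _ i

theorem fw_bs (q : ℕ) {s : ℕ} (α : Fin (s + 1) → A) :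
    (fw q α).comp (bs q α) = AdjoinRoot.ofAlgHom A _ := by
  apply ext
  intro i
  change fw q α (bs q α (Ideal.Quotient.mk _ (MvPolynomial.X i))) = _
  rw [bs_X]
  exact lft_X _ _ _ _ i.succ

theorem bw_root (q : ℕ) {s : ℕ} (α : Fin (s + 1) → A) :
    bw q α (AdjoinRoot.root _) = Ideal.Quotient.mk _ (MvPolynomial.X 0) :=
  AdjoinRoot.liftAlgHom_root _ _ _ _

theorem bw_of (q : ℕ) {s : ℕ} (α : Fin (s + 1) → A) (x : XS q (Fin.tail α)) :
    bw q α (AdjoinRoot.of _ x) = bs q α x :=
  AdjoinRoot.liftAlgHom_of _ _ _ _ _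

/-- One step of the tower. -/
def st (q : ℕ) {s : ℕ} (α : Fin (s + 1) → A) :
    XS q α ≃ₐ[A] AS q (algebraMap A (XS q (Fin.tail α)) (α 0)) :=
  AlgEquiv.ofAlgHom (fw q α) (bw q α) (by
    apply AdjoinRoot.algHom_ext'
    · apply AlgHom.ext
      intro x
      change fw q α (bw q α (AdjoinRoot.of _ x)) = AdjoinRoot.of _ x
      rw [bw_of]
      exact DFunLike.congr_fun (fw_bs q α) x
    · change fw q α (bw q α (AdjoinRoot.root _)) = AdjoinRoot.root _
      rw [bw_root]
      exact lft_X _ _ _ _ 0) (by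
    apply ext
    intro i
    change bw q α (fw q α (Ideal.Quotient.mk _ (MvPolynomial.X i))) =
      Ideal.Quotient.mk _ (MvPolynomial.X i)
    refine Fin.cases ?_ (fun i => ?_) i
    · have : fw q α (Ideal.Quotient.mk _ (MvPolynomial.X 0)) = AdjoinRoot.root _ :=
        lft_X _ _ _ _ 0
      rw [this, bw_root]
    · have : fw q α (Ideal.Quotient.mk _ (MvPolynomial.X i.succ)) =
        AdjoinRoot.of _ (Ideal.Quotient.mk _ (MvPolynomial.X i)) := lft_X _ _ _ _ i.succ
      rw [this, bw_of, bs_X])

/-- The same with the elements given one by one. -/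
def stc (q : ℕ) {s : ℕ} (x : A) (β : Fin s → A) :
    XS q (Fin.cons x β : Fin (s + 1) → A) ≃ₐ[A] AS q (algebraMap A (XS q β) x) :=
  st q (Fin.cons x β : Fin (s + 1) → A)

/-- No equation. -/
def st0 (q : ℕ) (α : Fin 0 → A) : XS q α ≃ₐ[A] A :=
  AlgEquiv.ofAlgHom (lft q α (fun i => i.elim0) fun i => i.elim0) (Algebra.ofId A _)
    (AlgHom.ext fun x => by
      exact AlgHom.commutes (lft q α (fun i => i.elim0) fun i => i.elim0) x)
    (ext fun i => i.elim0)

theorem ap_monic {q : ℕ} (hq : 2 ≤ q) (α : A) : (ap q α).Monic := by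
  nontriviality A
  have h : ap q α = X ^ q - (X + C α) := by rw [ap]; ring
  rw [h]
  apply Polynomial.monic_X_pow_sub
  rw [Polynomial.degree_X_add_C]
  exact_mod_cast (show 1 < q from hq)

theorem ap_deg [Nontrivial A] {q : ℕ} (hq : 2 ≤ q) (α : A) : (ap q α).natDegree = q := by
  have h : ap q α = X ^ q - (X + C α) := by rw [ap]; ring
  rw [h, Polynomial.natDegree_sub_eq_left_of_natDegree_lt]
  · exact Polynomial.natDegree_X_pow q
  · rw [Polynomial.natDegree_X_add_C, Polynomial.natDegree_X_pow]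
    exact hq

theorem two_le {p q : ℕ} {K : Type} [Field K] (hd : Dat p q K) : 2 ≤ q := by
  obtain ⟨ν, hν, rfl⟩ := hd.pow
  exact hd.pr.two_le.trans (Nat.le_self_pow (by omega) p)

theorem base {p q : ℕ} {K : Type} [Field K] (hd : Dat p q K) (Q : Prp K) (hC : FMO.Clo K Q)
    (hF : FreeA Q) (A : Type) [CommRing A] [Algebra K A] [Algebra.FiniteType K A] (α : A)
    (h : Q (AS q α)) : Q A := by
  rcases subsingleton_or_nontrivial A with hs | hn
  · exact hC.triv A hs
  · have hm := ap_monic (two_le hd) α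
    have := hm.free_adjoinRoot
    have := hm.finite_adjoinRoot
    refine hF A (AS q α) ?_ h
    rw [(AdjoinRoot.powerBasis' hm).finrank, AdjoinRoot.powerBasis'_dim, ap_deg (two_le hd)]
    have := two_le hd
    omega

theorem main {p q : ℕ} {K : Type} [Field K] (hd : Dat p q K) (Q : Prp K) (hC : FMO.Clo K Q)
    (hF : FreeA Q) (hA : ASCl q Q) (A : Type) [CommRing A] [Algebra K A]
    [Algebra.FiniteType K A] : ∀ (r : ℕ) (α : Fin r → A),
    (∀ c : Fin r → K, (∀ i, c i ^ q = c i) → Q (AS q (∑ i, c i • α i))) → Q (XS q α)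
  | 0, α, h => by
    have h0 := h (fun i => i.elim0) fun i => i.elim0
    exact hC.iso ((st0 q α).symm.restrictScalars K) (base hd Q hC hF A _ h0)
  | 1, α, h => by
    have h1 := h (fun _ => 1) fun _ => one_pow q
    have e : AS q (∑ i, (1 : K) • α i) ≃ₐ[K] XS q α :=
      (((st q α).restrictScalars K).trans (asCong q ((st0 q (Fin.tail α)).restrictScalars K) _
        (∑ i, (1 : K) • α i) (by
          rw [Fin.sum_univ_one, one_smul]
          exact (st0 q (Fin.tail α)).commutes (α 0)))).symm
    exact hC.iso e h1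
  | s + 2, α, h => by
    let B := XS q (Fin.tail (Fin.tail α))
    let e1 : XS q (Fin.tail α) ≃ₐ[A] AS q (algebraMap A B (α 1)) := st q (Fin.tail α)
    let e : XS q α ≃ₐ[K] AS q (AdjoinRoot.of (ap q (algebraMap A B (α 1))) (algebraMap A B (α 0))) :=
      ((st q α).restrictScalars K).trans
        (asCong q (e1.restrictScalars K) _ _ (e1.commutes (α 0)))
    refine hC.iso e.symm (hA B (algebraMap A B (α 0)) (algebraMap A B (α 1)) ?_ ?_)
    · intro a ha
      have e2 := (stc q (α 0 + a • α 1) (Fin.tail (Fin.tail α))).restrictScalars K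
      have h3 := hC.iso e2 (main hd Q hC hF hA A (s + 1) _ (by
        intro c hc
        have h4 := h (Fin.cons (c 0) (Fin.cons (c 0 * a) (Fin.tail c))) (by
          intro i
          refine Fin.cases ?_ (fun i => ?_) i
          · exact hc 0
          · refine Fin.cases ?_ (fun i => ?_) i
            · simp only [Fin.cons_succ, Fin.cons_zero]
              rw [mul_pow, hc 0, ha]
            · exact hc i.succ)
        have h5 : (∑ i, (Fin.cons (c 0) (Fin.cons (c 0 * a) (Fin.tail c)) : Fin (s + 2) → K) i •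
            α i) = ∑ i, c i • (Fin.cons (α 0 + a • α 1) (Fin.tail (Fin.tail α)) :
              Fin (s + 1) → A) i := by
          rw [Fin.sum_univ_succ, Fin.sum_univ_succ, Fin.sum_univ_succ]
          simp only [Fin.cons_zero, Fin.cons_succ, Fin.tail, Fin.succ_zero_eq_one]
          change c 0 • α 0 + ((c 0 * a) • α 1 + _) = _
          rw [smul_add, mul_smul, add_assoc]
        rw [h5] at h4
        exact h4))
      have h6 : algebraMap A B (α 0 + a • α 1) = algebraMap A B (α 0) + a • algebraMap A B (α 1) := by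
        rw [map_add]
        congr 1
        exact map_smul (IsScalarTower.toAlgHom K A B) a (α 1)
      exact hC.iso (asCong q AlgEquiv.refl _ _ h6) h3
    · have e2 : XS q (Fin.tail α) ≃ₐ[K] AS q (algebraMap A B (α 1)) := e1.restrictScalars K
      refine hC.iso e2 (main hd Q hC hF hA A (s + 1) _ (by
        intro c hc
        have h4 := h (Fin.cons 0 c) (by
          intro i
          refine Fin.cases ?_ (fun i => ?_) i
          · simp only [Fin.cons_zero]
            exact zero_pow (by have := two_le hd; omega)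
          · exact hc i)
        have h5 : (∑ i, (Fin.cons 0 c : Fin (s + 2) → K) i • α i) =
            ∑ i, c i • (Fin.tail α) i := by
          rw [Fin.sum_univ_succ]
          simp only [Fin.cons_zero, Fin.cons_succ, Fin.tail, zero_smul, zero_add]
        rw [h5] at h4
        exact h4))

end

end TOWAux

theorem t_TOW : S_TOW := by
  intro p q K _ hd Q hC hF hA A _ _ _ r α h
  exact TOWAux.main hd Q hC hF hA A r α h

end Pool.Agent.FMS
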