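import Pool.Agent.FMS.St6

/-!
# FMS, module TRI: the product of a surface with a curve, by the bisection of the base
-/

set_option autoImplicit false

open CategoryTheory AlgebraicGeometry Polynomial Multiplicative

namespace Pool.Agent.FMS

open Pool.Agent.Lib_helper55.Beil (Var)
open UQ (Mo DimLE sp szer gp Pt)
open FMO (Univ Few Add CompX Comp Kp Laur At Sm Inv)
open FMQ (FreeCl Dels Fermat ferm)
open LFQ (BM SPj)
open QCV (DL)

namespace TRIAux

open TensorProduct in
/-- The projection of the product. -/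
noncomputable def pr (k : Type) [Field k] (A R : Type) [CommRing A] [Algebra k A]
    [Algebra.FiniteType k A] [CommRing R] [Algebra k R] [Algebra.FiniteType k R] :
    Mo (sp k (A ⊗[k] R)) (sp k A) where
  g := Spec.map (CommRingCat.ofHom (Algebra.TensorProduct.includeLeftRingHom (A := A) (B := R) (R := k)))
  comm := by
    change Spec.map (CommRingCat.ofHom (Algebra.TensorProduct.includeLeftRingHom (A := A) (B := R)
      (R := k))) ≫ Spec.map (CommRingCat.ofHom (algebraMap k A)) =
      Spec.map (CommRingCat.ofHom (algebraMap k (A ⊗[k] R)))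
    rw [← Spec.map_comp, ← CommRingCat.ofHom_comp]

open TensorProduct in
theorem isPr (k : Type) [Field k] (A R : Type) [CommRing A] [Algebra k A]
    [Algebra.FiniteType k A] [CommRing R] [Algebra k R] [Algebra.FiniteType k R] :
    IsPr R (pr k A R) (Spec.map (CommRingCat.ofHom
      (Algebra.TensorProduct.includeRight (A := A) (B := R) (R := k)).toRingHom)) :=
  isPullback_SpecMap_of_isPushout _ _ _ _ (CommRingCat.isPushout_tensorProduct k A R)

end TRIAux

theorem t_TRI : M_TRI := by
  intro hRES hSMC hPVR hCPV hBSG k _ _ P hP hcomp hres R _ _ _ hR hsurf A _ _ _ hA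
  obtain ⟨s1, s2, s3, s4, s5⟩ := hSMC k
  have hcl : Cl4 (PrP P R) := hPVR k P hP R
  have hd1 : ∀ X, DimLE X 1 → PrP P R X := fun X hX Y q t hq =>
    hcomp Y (hCPV k R X Y q t hq hX hR)
  have hx : FMQ.Res (Sm fun F [Field F] [Algebra k F] => Comp k 2 F) (sp k A) := by
    intro x
    obtain ⟨q, hq⟩ := (hRES k A (Sm fun F [Field F] [Algebra k F] => Comp k 2 F) (s1 _ s2)).1 x
    exact hq.2 (s4 _ (hA q))
  exact hBSG k (PrP P R) hcl hd1 (fun F [Field F] [Algebra k F] => Comp k 2 F) s2 hres hsurf
    (sp k A) hx _ _ _ (TRIAux.isPr k A R)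

end Pool.Agent.FMS
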