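import Pool.Agent.FMS.St

/-!
# Diagonal Hermitian forms (project FMS, module YMC)
-/

set_option autoImplicit false

open Polynomial

namespace Pool.Agent.FMS

namespace YMCAux

/-- isomorphic base algebras give isomorphic coverings -/
theorem map_iso {K : Type} [Field K] {Q : Prp K} (hQ : FMO.Clo K Q) (q : ℕ) {A B : Type}
    [CommRing A] [Algebra K A] [Algebra.FiniteType K A] [CommRing B] [Algebra K B]
    [Algebra.FiniteType K B] (e : A ≃ₐ[K] B) (α : A) (β : B) (h : e α = β)
    (hA : Q (AS q α)) : Q (AS q β) := by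
  have h1 : (ap q α).map (e : A →+* B) = ap q β := by
    unfold ap
    rw [Polynomial.map_sub, Polynomial.map_sub, Polynomial.map_pow, Polynomial.map_X,
      Polynomial.map_C]
    rw [← h]
    rfl
  have h2 : Associated ((ap q α).map (e : A →+* B)) (ap q β) := by
    rw [h1]
  exact hQ.iso (AdjoinRoot.mapAlgEquiv e (ap q α) (ap q β) h2) hA

theorem ev (q : ℕ) {A B : Type} [CommRing A] [CommRing B] (i : A →+* B) (α : A) (x : B) :
    (ap q α).eval₂ i x = x ^ q - x - i α := by
  unfold ap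
  rw [Polynomial.eval₂_sub, Polynomial.eval₂_sub, Polynomial.eval₂_pow,
    Polynomial.eval₂_X, Polynomial.eval₂_C]

theorem rt (q : ℕ) {A : Type} [CommRing A] (α : A) :
    AdjoinRoot.root (ap q α) ^ q - AdjoinRoot.root (ap q α) - AdjoinRoot.of (ap q α) α = 0 := by
  rw [← ev, AdjoinRoot.eval₂_root]

/-- a constant `C ρ` over a polynomial ring in one variable -/
theorem poly_iso (q : ℕ) {K A : Type} [Field K] [CommRing A] [Algebra K A] (ρ : A) :
    Nonempty ((AS q ρ)[X] ≃ₐ[K] AS q (C ρ : A[X])) := by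
  let φ : AS q (C ρ : A[X]) →ₐ[K] (AS q ρ)[X] :=
    AdjoinRoot.liftAlgHom (ap q (C ρ : A[X]))
      (Polynomial.mapAlgHom (AdjoinRoot.ofAlgHom K (ap q ρ)))
      (C (AdjoinRoot.root (ap q ρ))) (by
        rw [ev]
        have h : ((Polynomial.mapAlgHom (AdjoinRoot.ofAlgHom K (ap q ρ)) :
            A[X] →ₐ[K] (AS q ρ)[X]) : A[X] →+* (AS q ρ)[X]) (C ρ) =
            C (AdjoinRoot.of (ap q ρ) ρ) := Polynomial.map_C _
        rw [h, ← C_pow, ← C_sub, ← C_sub, rt, C_0])
  let g : AS q ρ →ₐ[K] AS q (C ρ : A[X]) :=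
    AdjoinRoot.liftAlgHom (ap q ρ)
      ((AdjoinRoot.ofAlgHom K (ap q (C ρ : A[X]))).comp (Polynomial.CAlgHom (R := K) (A := A)))
      (AdjoinRoot.root (ap q (C ρ : A[X]))) (by
        rw [ev]
        exact rt q (C ρ : A[X]))
  let ψ : (AS q ρ)[X] →ₐ[K] AS q (C ρ : A[X]) :=
    Polynomial.eval₂AlgHom g (AdjoinRoot.of (ap q (C ρ : A[X])) X)
      (fun a => Commute.all _ _)
  have hφr : φ (AdjoinRoot.root (ap q (C ρ : A[X]))) = C (AdjoinRoot.root (ap q ρ)) :=
    AdjoinRoot.liftAlgHom_root _ _ _ _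
  have hφo : ∀ x : A[X], φ (AdjoinRoot.of (ap q (C ρ : A[X])) x) =
      x.map (AdjoinRoot.of (ap q ρ)) := fun x => AdjoinRoot.liftAlgHom_of _ _ _ _ x
  have hgr : g (AdjoinRoot.root (ap q ρ)) = AdjoinRoot.root (ap q (C ρ : A[X])) :=
    AdjoinRoot.liftAlgHom_root _ _ _ _
  have hgo : ∀ x : A, g (AdjoinRoot.of (ap q ρ) x) =
      AdjoinRoot.of (ap q (C ρ : A[X])) (C x) := fun x => AdjoinRoot.liftAlgHom_of _ _ _ _ x
  have hψC : ∀ x : AS q ρ, ψ (C x) = g x := fun x => Polynomial.eval₂_C _ _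
  have hψX : ψ X = AdjoinRoot.of (ap q (C ρ : A[X])) X := Polynomial.eval₂_X _ _
  refine ⟨AlgEquiv.ofAlgHom ψ φ ?_ ?_⟩
  · refine AdjoinRoot.algHom_ext' ?_ ?_
    · refine AlgHom.ext fun x => ?_
      show ψ (φ (AdjoinRoot.of (ap q (C ρ : A[X])) x)) = AdjoinRoot.of (ap q (C ρ : A[X])) x
      rw [hφo]
      induction x using Polynomial.induction_on' with
      | add a b ha hb => rw [Polynomial.map_add, map_add, ha, hb, map_add]
      | monomial n a =>
        rw [← Polynomial.C_mul_X_pow_eq_monomial, Polynomial.map_mul, Polynomial.map_pow,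
          Polynomial.map_X, Polynomial.map_C, map_mul, map_pow, hψC, hψX, hgo, map_mul, map_pow]
    · show ψ (φ (AdjoinRoot.root (ap q (C ρ : A[X])))) = AdjoinRoot.root (ap q (C ρ : A[X]))
      rw [hφr, hψC, hgr]
  · refine AlgHom.ext fun x => ?_
    show φ (ψ x) = x
    induction x using Polynomial.induction_on' with
    | add a b ha hb => rw [map_add, map_add, ha, hb]
    | monomial n a =>
      rw [← Polynomial.C_mul_X_pow_eq_monomial, map_mul, map_pow, hψC, hψX, map_mul, map_pow,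
        hφo, Polynomial.map_X]
      congr 1
      induction a using AdjoinRoot.induction_on with
      | ih p =>
        induction p using Polynomial.induction_on' with
        | add a b ha hb => rw [map_add, map_add, map_add, ha, hb, C_add]
        | monomial m a =>
          rw [← Polynomial.C_mul_X_pow_eq_monomial, map_mul, map_pow, AdjoinRoot.mk_X,
            AdjoinRoot.mk_C, map_mul, map_pow, hgr, hgo, map_mul, map_pow, hφr, hφo,
            Polynomial.map_C, C_mul, C_pow]

theorem cur_fin {K : Type} [Field K] {Q : Prp K} (hcur : Cur Q) (C : Type) [CommRing C]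
    [Algebra K C] [Algebra.FiniteType K C] (f : K[X] →ₐ[K] C) (hf : f.toRingHom.Finite) :
    Q C := by
  let _ : Algebra K[X] C := f.toRingHom.toAlgebra
  have : IsScalarTower K K[X] C :=
    IsScalarTower.of_algebraMap_eq fun x => (f.commutes x).symm
  have : Module.Finite K[X] C := hf
  exact hcur C

theorem ap_monic {q : ℕ} (hq : 2 ≤ q) {A : Type} [CommRing A] (α : A) : (ap q α).Monic := by
  unfold ap
  rw [sub_sub]
  refine Polynomial.monic_X_pow_sub ?_
  have h1 : ((1 : ℕ) : WithBot ℕ) < (q : ℕ) := by exact_mod_cast (by omega : 1 < q)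
  have h2 : ((0 : ℕ) : WithBot ℕ) < (q : ℕ) := by exact_mod_cast (by omega : 0 < q)
  exact (Polynomial.degree_add_le _ _).trans_lt (max_lt
    (Polynomial.degree_X_le.trans_lt h1) (Polynomial.degree_C_le.trans_lt h2))

/-- the coordinate ring of a point or a line -/
theorem surj (K : Type) [Field K] (m : ℕ) (hm : m ≤ 1) :
    ∃ f : K[X] →ₐ[K] MvPolynomial (Fin m) K, Function.Surjective f := by
  let f : K[X] →ₐ[K] MvPolynomial (Fin m) K :=
    Polynomial.aeval (if h : 0 < m then MvPolynomial.X ⟨0, h⟩ else 0)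
  refine ⟨f, ?_⟩
  rw [← AlgHom.range_eq_top, ← top_le_iff, ← MvPolynomial.adjoin_range_X, Algebra.adjoin_le_iff]
  rintro _ ⟨i, rfl⟩
  have h : 0 < m := lt_of_le_of_lt (Nat.zero_le _) i.2
  refine ⟨X, ?_⟩
  show Polynomial.aeval _ X = _
  rw [Polynomial.aeval_X, dif_pos h]
  congr 1
  apply Fin.ext
  have := i.2
  show 0 = (i : ℕ)
  omega

theorem cur_as {K : Type} [Field K] {Q : Prp K} (hcur : Cur Q) {q : ℕ} (hq : 2 ≤ q) (m : ℕ)
    (hm : m ≤ 1) (α : MvPolynomial (Fin m) K) : Q (AS q α) := by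
  obtain ⟨f, hf⟩ := surj K m hm
  refine cur_fin hcur (AS q α) ((AdjoinRoot.ofAlgHom K (ap q α)).comp f) ?_
  have h1 : (AdjoinRoot.of (ap q α)).Finite := by
    have h := (ap_monic hq α).finite_adjoinRoot
    have h2 := RingHom.finite_algebraMap.2 h
    exact h2
  have h3 : f.toRingHom.Finite := RingHom.Finite.of_surjective _ hf
  exact RingHom.Finite.comp h1 h3

theorem q_pol {K : Type} [Field K] {Q : Prp K} (hQ : FMO.Clo K Q) (hcur : Cur Q) (n : ℕ) :
    Q (MvPolynomial (Fin n) K) := by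
  induction n with
  | zero =>
    obtain ⟨f, hf⟩ := surj K 0 (Nat.zero_le _)
    exact cur_fin hcur _ f (RingHom.Finite.of_surjective _ hf)
  | succ n ih => exact hQ.iso (MvPolynomial.finSuccEquiv K n).symm (hQ.line _ ih)

/-- the form -/
noncomputable def fm {K : Type} [Field K] (q : ℕ) (κ : K) (m : ℕ) (a : Fin m → K) :
    MvPolynomial (Fin m) K := κ • ∑ i, a i • MvPolynomial.X i ^ (q + 1)

theorem perm {K : Type} [Field K] {Q : Prp K} (hQ : FMO.Clo K Q) (q : ℕ) (κ : K) (m : ℕ)
    (a : Fin m → K) (π : Equiv.Perm (Fin m)) (h : Q (AS q (fm q κ m (a ∘ π)))) :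
    Q (AS q (fm q κ m a)) := by
  refine map_iso hQ q (MvPolynomial.renameEquiv K π) _ _ ?_ h
  unfold fm
  rw [map_smul, map_sum]
  congr 1
  refine (Finset.sum_congr rfl fun i _ => ?_).trans (Equiv.sum_comp π
    (fun i => a i • (MvPolynomial.X i : MvPolynomial (Fin m) K) ^ (q + 1)))
  rw [map_smul, map_pow, MvPolynomial.renameEquiv_apply, MvPolynomial.rename_X]
  rfl

theorem zero_case {K : Type} [Field K] {Q : Prp K} (hQ : FMO.Clo K Q) (q : ℕ) (κ : K) (n : ℕ)
    (b : Fin (n + 1) → K) (h0 : b 0 = 0) (h : Q (AS q (fm q κ n (fun j => b j.succ)))) :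
    Q (AS q (fm q κ (n + 1) b)) := by
  obtain ⟨e⟩ := poly_iso (K := K) q (fm q κ n (fun j => b j.succ))
  refine map_iso hQ q (MvPolynomial.finSuccEquiv K n).symm _ _ ?_ (hQ.iso e (hQ.line _ h))
  have key : MvPolynomial.finSuccEquiv K n (fm q κ (n + 1) b) =
      C (fm q κ n (fun j => b j.succ)) := by
    unfold fm
    rw [map_smul, Fin.sum_univ_succ, h0, zero_smul, zero_add, map_sum, ← Polynomial.smul_C,
      map_sum]
    congr 1
    refine Finset.sum_congr rfl fun i _ => ?_
    rw [map_smul, map_pow, MvPolynomial.finSuccEquiv_X_succ, ← C_pow, Polynomial.smul_C]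
  rw [AlgEquiv.symm_apply_eq]
  exact key.symm

/-- the isomorphism with the polynomial ring in two variables over the other ones -/
theorem two_case {K : Type} [Field K] (q : ℕ) (κ : K) (n : ℕ) (a : Fin (2 + n) → K) :
    ∃ e : MvPolynomial (Fin (2 + n)) K ≃ₐ[K] MvPolynomial (Fin 2) (MvPolynomial (Fin n) K),
      e (fm q κ (2 + n) a) = κ • (a (Fin.castAdd n 0) • MvPolynomial.X 0 ^ (q + 1) +
        a (Fin.castAdd n 1) • MvPolynomial.X 1 ^ (q + 1)) +
        MvPolynomial.C (fm q κ n (fun j => a (Fin.natAdd 2 j))) := by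
  refine ⟨(MvPolynomial.renameEquiv K finSumFinEquiv.symm).trans
    (MvPolynomial.sumAlgEquiv K (Fin 2) (Fin n)), ?_⟩
  unfold fm
  rw [map_smul, map_sum, Fin.sum_univ_add, Fin.sum_univ_two, smul_add]
  congr 1
  · congr 1
    rw [map_smul, map_smul, map_pow, map_pow, AlgEquiv.trans_apply, AlgEquiv.trans_apply,
      MvPolynomial.renameEquiv_apply, MvPolynomial.renameEquiv_apply, MvPolynomial.rename_X,
      MvPolynomial.rename_X, finSumFinEquiv_symm_apply_castAdd,
      finSumFinEquiv_symm_apply_castAdd, MvPolynomial.sumAlgEquiv_X_inl,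
      MvPolynomial.sumAlgEquiv_X_inl]
  · have h1 : ∀ (c : K) (x : MvPolynomial (Fin n) K),
        (MvPolynomial.C (c • x) : MvPolynomial (Fin 2) (MvPolynomial (Fin n) K)) =
          c • MvPolynomial.C x := fun c x => by
      rw [MvPolynomial.smul_eq_C_mul, map_mul, Algebra.smul_def]
      rfl
    rw [h1, map_sum]
    congr 1
    refine Finset.sum_congr rfl fun i _ => ?_
    rw [map_smul, map_pow, AlgEquiv.trans_apply, MvPolynomial.renameEquiv_apply,
      MvPolynomial.rename_X, finSumFinEquiv_symm_apply_natAdd, MvPolynomial.sumAlgEquiv_X_inr, h1,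
      map_pow]

end YMCAux

open YMCAux in
theorem t_YMC : M_YMC := by
  intro hHYC hHPB p q K _ hD κ hκ hκq Q hQ hfree hcur m
  have hq : 2 ≤ q := by
    obtain ⟨ν, hν, rfl⟩ := hD.pow
    calc 2 ≤ p := hD.pr.two_le
      _ = p ^ 1 := (pow_one p).symm
      _ ≤ p ^ ν := Nat.pow_le_pow_right hD.pr.pos hν
  have key : ∀ a : Fin m → K, (∀ i, a i ^ q = a i) → Q (AS q (fm q κ m a)) := by
    induction m using Nat.strong_induction_on with
    | _ m ih =>
      intro a ha
      by_cases hm : m ≤ 1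
      · exact cur_as hcur hq m hm _
      by_cases h0 : ∃ i, a i = 0
      · obtain ⟨i, hi⟩ := h0
        obtain ⟨n, rfl⟩ : ∃ n, m = n + 1 := ⟨m - 1, by omega⟩
        refine perm hQ q κ (n + 1) a (Equiv.swap 0 i) ?_
        refine zero_case hQ q κ n _ ?_ (ih n (by omega) _ fun j => ha _)
        show a (Equiv.swap 0 i 0) = 0
        rw [Equiv.swap_apply_left, hi]
      · obtain ⟨n, rfl⟩ : ∃ n, m = 2 + n := ⟨m - 2, by omega⟩
        obtain ⟨e, he⟩ := two_case q κ n a
        obtain ⟨f, hf⟩ := hHYC p q K hD (a (Fin.castAdd n 0)) (a (Fin.castAdd n 1))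
          (fun h => h0 ⟨_, h⟩) (fun h => h0 ⟨_, h⟩) (ha _) (ha _) (MvPolynomial (Fin n) K)
        have h1 := hHPB p q K hD κ hκ hκq Q hQ hfree (MvPolynomial (Fin n) K)
          (fm q κ n (fun j => a (Fin.natAdd 2 j))) (q_pol hQ hcur n)
          (ih n (by omega) _ fun j => ha _)
        refine map_iso hQ q (e.trans (f.restrictScalars K)).symm _ _ ?_ h1
        rw [AlgEquiv.symm_apply_eq, AlgEquiv.trans_apply, he, map_add, map_smul]
        have h2 : (f.restrictScalars K) (a (Fin.castAdd n 0) • MvPolynomial.X 0 ^ (q + 1) +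
            a (Fin.castAdd n 1) • MvPolynomial.X 1 ^ (q + 1)) =
            MvPolynomial.X 0 ^ q * MvPolynomial.X 1 + MvPolynomial.X 0 * MvPolynomial.X 1 ^ q :=
          hf
        have h3 : (f.restrictScalars K)
            (MvPolynomial.C (fm q κ n (fun j => a (Fin.natAdd 2 j)))) =
            MvPolynomial.C (fm q κ n (fun j => a (Fin.natAdd 2 j))) := f.commutes _
        rw [h2, h3]
  exact key

end Pool.Agent.FMS
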