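import Pool.Agent.FMQ.Asm
import Pool.Agent.FMS.OV4
import Pool.Agent.FMS.THB
import Pool.Agent.FMS.THQ
import Pool.Agent.FMS.BDH
import Pool.Agent.FMS.MNA
import Pool.Agent.FMS.FEA
import Pool.Agent.FMS.TRI
import Pool.Agent.FMS.CMP
import Pool.Agent.FMS.ISG
import Pool.Agent.FMS.BCF
import Pool.Agent.FMS.RTF
import Pool.Agent.FMS.CPV
import Pool.Agent.FMS.MXS
import Pool.Agent.FMS.BSG
import Pool.Agent.FMS.THK
import Pool.Agent.FMS.THA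
import Pool.Agent.FMS.CPG
import Pool.Agent.FMS.OV3
import Pool.Agent.FMS.FLB
import Pool.Agent.FMS.PVR
import Pool.Agent.FMS.EXP
import Pool.Agent.FMS.TOB
import Pool.Agent.FMS.TKS
import Pool.Agent.FMS.DPR
import Pool.Agent.FMS.CPR
import Pool.Agent.FMS.PIA
import Pool.Agent.FMS.FRB
import Pool.Agent.FMS.CUT
import Pool.Agent.FMS.TNA
import Pool.Agent.FMS.FRK
import Pool.Agent.FMS.MVT
import Pool.Agent.FMS.RSC
import Pool.Agent.FMS.SUB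
import Pool.Agent.FMS.DEA
import Pool.Agent.FMS.FA2
import Pool.Agent.FMS.FA1
import Pool.Agent.FMS.GXA
import Pool.Agent.FMS.TNB
import Pool.Agent.FMS.ACL
import Pool.Agent.FMS.ARE
import Pool.Agent.FMS.ARG
import Pool.Agent.FMS.ARR
import Pool.Agent.FMS.CNT
import Pool.Agent.FMS.EHU
import Pool.Agent.FMS.EXK
import Pool.Agent.FMS.FER
import Pool.Agent.FMS.FQ
import Pool.Agent.FMS.FRM
import Pool.Agent.FMS.HER
import Pool.Agent.FMS.HPB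
import Pool.Agent.FMS.HYC
import Pool.Agent.FMS.ITE
import Pool.Agent.FMS.MXM
import Pool.Agent.FMS.NLP
import Pool.Agent.FMS.PIN
import Pool.Agent.FMS.PKC
import Pool.Agent.FMS.QM2
import Pool.Agent.FMS.QMM
import Pool.Agent.FMS.SPL
import Pool.Agent.FMS.TEH
import Pool.Agent.FMS.TEN
import Pool.Agent.FMS.TOW
import Pool.Agent.FMS.YMC
import Pool.Agent.FMS.BIR
import Pool.Agent.FMS.RUL
import Pool.Agent.FMS.PMN

/-!
# FMS: assembly of the modules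
-/

set_option autoImplicit false

namespace Pool.Agent.FMS

universe v

theorem s_HYC : S_HYC := t_HYC t_FQ

theorem s_HPB : S_HPB := t_HPB t_FQ t_SPL

theorem s_YMC : S_YMC := t_YMC s_HYC s_HPB

theorem s_HER : S_HER := t_HER t_TOW s_YMC

theorem s_EHU : S_EHU := t_EHU t_FQ t_SPL t_NLP

theorem s_FER : S_FER := t_FER t_FQ t_SPL

theorem s_ARR : S_ARR := t_ARR t_FQ

theorem s_CNT : S_CNT := t_CNT t_FQ

theorem s_ARG : S_ARG.{v} := t_ARG t_FQ t_ARE s_ARR s_CNT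

theorem s_PKC : S_PKC := t_PKC FMQ.t_CLF

theorem s_FRM : S_FRM.{v} :=
  t_FRM t_EXK t_FQ s_PKC s_ARG t_TEN t_TEH s_HER s_EHU s_FER t_ITE

theorem s_QMM : S_QMM := t_QMM FMQ.s_QU3

theorem s_ACL : S_ACL := t_ACL FMQ.t_CLF FMQ.t_GMD

theorem s_TNB : S_TNB := t_TNB t_TEN

theorem s_GXA : S_GXA := t_GXA FMQ.t_GUX FMQ.t_GX1

theorem s_FA1 : S_FA1 := t_FA1 FMQ.t_EXU FMQ.t_UNQ

theorem s_FA2 : S_FA2 := t_FA2 FMQ.t_EXU FMO.t_LAU s_FA1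

theorem s_DEA : S_DEA :=
  t_DEA FMO.t_STR FMQ.s_THR FMQ.t_GUT FMQ.t_SDI FMQ.t_LAT FMQ.t_GUX s_GXA s_FA2

theorem s_RSC : S_RSC := t_RSC FMQ.t_LAT

theorem s_FRK : S_FRK := t_FRK t_FQ t_TEN t_TEH s_HER s_EHU s_FER t_ITE

theorem s_FRB : S_FRB.{v} := t_FRB t_EXK s_PKC s_ARG t_TEN t_TNA t_CUT s_FRK t_MVT

theorem s_CMP : S_CMP := t_CMP FMO.t_CTR FMO.t_CIN

theorem s_TOB : S_TOB := t_TOB FMO.t_TOZ t_FLB

theorem s_TKS : S_TKS :=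
  t_TKS s_TNB FMO.t_LAU t_MXM t_RTF t_BCF t_SUB s_RSC s_DEA t_MVT s_TOB t_BDH

theorem s_THK : S_THK := t_THK FMQ.t_STV FMQ.t_EXU FMQ.t_UNQ t_MXS t_BDH s_TKS

theorem s_THA : S_THA := t_THA s_ACL t_EXP s_THK t_MVT t_ISG

theorem s_THQ : S_THQ :=
  t_THQ FMQ.t_CLF FMQ.t_STV FMQ.t_EXU FMQ.t_UNQ t_MXM s_QMM t_QM2 t_BDH FMO.t_LAU s_TOB

theorem s_THB : S_THB := t_THB FMQ.t_CLF t_EXP s_THQ

theorem s_OV3 : S_OV3 := t_OV3 t_CPG t_MVT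

theorem s_OV4 : S_OV4 := t_OV4 t_CPG t_MVT

theorem s_CPV : S_CPV := t_CPV FMO.t_RES FMO.t_IMM FMO.t_CIN t_CPR

theorem s_BSG : S_BSG := t_BSG FMO.t_IMM FMQ.s_SMC

theorem s_TRI : S_TRI := t_TRI FMO.t_RES FMQ.s_SMC t_PVR s_CPV s_BSG

theorem s_RUL : S_RUL := t_RUL t_BIR

end Pool.Agent.FMS
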