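import Pool.Agent.FMS.Lang
import Pool.Agent.FMS.St2

/-!
# FMQ: the language of the final statement and the language of the modules
-/

set_option autoImplicit false

open CategoryTheory AlgebraicGeometry Polynomial

namespace FTS.Brg

open Pool.Agent.Lib_helper55.Beil (Var)
open LFQ (Zp)

universe v

variable {k : Type} [Field k]

/-- The same morphism. -/
def un {X Y : Var k} (f : FTS.Mo X Y) : UQ.Mo X Y := ⟨f.g, f.comm⟩

/-- The same morphism. -/
def nu {X Y : Var k} (f : UQ.Mo X Y) : FTS.Mo X Y := ⟨f.g, f.comm⟩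

section

variable {Λ : Type} [CommRing Λ]

/-- The same homology theory. -/
def th (T : FTS.BM.{v} k Λ) : LFQ.BM.{v} k Λ where
  H := T.H
  pf i n _ _ f := T.pf i n (nu f)
  pb i n _ _ f := T.pb i n (nu f)
  lb i n _ _ f := T.lb i n (nu f)
  bd i n _ _ _ a j := T.bd i n (nu a) (nu j)

theorem finrank_dp {A : Type} [CommRing A] [Nontrivial A] (b c : A) :
    Module.finrank A (AdjoinRoot (FTS.dp b c)) = 2 := by
  rw [(AdjoinRoot.powerBasis' (FTS.dp_monic b c)).finrank, AdjoinRoot.powerBasis'_dim]
  unfold FTS.dp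
  compute_degree!

theorem pub {T : FTS.BM.{v} k Λ} (h : T.Pub) : (th T).Pub where
  push :=
    { one := fun i n _ f hf m => h.push.one i n (nu f) hf m
      comp := fun i n _ _ _ f g h' hf hg hc m => h.push.comp i n (nu f) (nu g) (nu h') hf hg hc m
      base := fun i n _ _ _ _ j' f' f j hf hj hc m =>
        h.push.base i n (nu j') (nu f') (nu f) (nu j) hf hj hc m
      clopen := fun i n _ _ a ha ha' m => h.push.clopen i n (nu a) ha ha' m
      boundary := fun i n _ _ _ _ _ _ a' j' a j r s f h1 h2 h3 h4 h5 h6 h7 u =>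
        h.push.boundary i n (nu a') (nu j') (nu a) (nu j) (nu r) (nu s) (nu f) h1 h2 h3 h4 h5 h6 h7
          u }
  loc :=
    { atX := fun i n _ _ _ a j hc m => h.loc.atX i n (nu a) (nu j) hc m
      atZ := fun i n _ _ _ a j hc m => h.loc.atZ i n (nu a) (nu j) hc m
      atU := fun i n _ _ _ a j hc m => h.loc.atU i n (nu a) (nu j) hc m }
  bundles :=
    { bij := fun i n _ _ q hq => h.bundles.bij i n (nu q) (by
        intro x
        obtain ⟨W, V, L, l, j, h1, h2, h3, h4, v, hv⟩ := hq x
        exact ⟨W, V, nu L, nu l, nu j, h1, h2, h3, h4, v, hv⟩)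
      push := fun i n _ _ _ _ q q' r s hq hs hc m => h.bundles.push i n (nu q) (nu q') (nu r) (nu s)
        (by
          intro x
          obtain ⟨W, V, L, l, j, h1, h2, h3, h4, v, hv⟩ := hq x
          exact ⟨W, V, nu L, nu l, nu j, h1, h2, h3, h4, v, hv⟩) hs hc m }
  cov :=
    { etale := fun f hf hi => by
        obtain ⟨D, hD, hd⟩ := h.cov.etale (nu f) hf hi
        exact ⟨D, hD, hd⟩
      dbl := by
        intro i n A _ _ _ b c m
        have : Algebra.FiniteType k (AdjoinRoot (FTS.dp b c)) := FTS.ft_dp k b c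
        have : Module.Finite A (AdjoinRoot (FTS.dp b c)) := (FTS.dp_monic b c).finite_adjoinRoot
        have : Module.Free A (AdjoinRoot (FTS.dp b c)) := (FTS.dp_monic b c).free_adjoinRoot
        have h1 := h.cov.free A (AdjoinRoot (FTS.dp b c)) i n m
        rcases subsingleton_or_nontrivial A with hA | hA
        · have h2 : IsEmpty (FTS.Pt (FTS.sp k A)) :=
            (inferInstance : IsEmpty (PrimeSpectrum A))
          have h3 : Subsingleton (T.H i n (FTS.sp k A)) := h.fin.empty i n _ h2
          exact h3.elim _ _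
        · rw [finrank_dp] at h1
          exact_mod_cast h1
      inv := fun i n A _ _ _ b c s hs m => h.cov.inv i n A b c (nu s) hs m }
  fin :=
    { empty := fun i n X hX => h.fin.empty i n X hX
      quot := fun i n X D hD => h.fin.quot i n X D hD
      large := fun i n d X hX hi => h.fin.large i n d X hX hi
      curves := fun X hX => h.fin.curves X hX }

theorem galT {T : FTS.BM.{v} k Λ} (h : T.Pub) : Pool.Agent.FMS.GalT (th T) :=
  fun i n _ _ f G _ s hf hs m => h.cov.gal i n (nu f) G (fun g => nu (s g)) ⟨hf, hs.1, hs.2⟩ m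

theorem freeT {T : FTS.BM.{v} k Λ} (h : T.Pub) : Pool.Agent.FMQ.FreeT (th T) :=
  fun i n A C _ _ _ _ _ _ _ _ _ _ m => h.cov.free A C i n m

end

/-- The same family. -/
def fam {ℓ : Nat.Primes} {T : FTS.BM.{v} k (Zp ℓ)} (F : FTS.Fam k ℓ T) :
    LFQ.Fam k ℓ (th T) where
  coh h := F.coh h
  char h := F.char h
  dim h := F.dim h
  above h := F.above h
  comp h := F.comp h

end FTS.Brg
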