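import Pool.Agent.FMS.Asm
import Pool.Agent.FMS.Brg2
import Pool.Agent.LFQ.Fin

/-!
# FMQ: the results in the language of the final statement
-/

set_option autoImplicit false

open CategoryTheory AlgebraicGeometry Polynomial

namespace FTS.Brg

open Pool.Agent.Lib_helper55.Beil (Var)
open LFQ (Zp)

universe v

/-- The base is isomorphic to the variety without equations in `𝔸 ^ 0` over it. -/
theorem bij {A : Type} [CommRing A] (f : Fin 0 → MvPolynomial (Fin (0 + 0)) A) :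
    Function.Bijective (algebraMap A (MvPolynomial (Fin (0 + 0)) A ⧸ Ideal.span (Set.range f))) := by
  have hemp : IsEmpty (Fin (0 + 0)) := inferInstanceAs (IsEmpty (Fin 0))
  have hI : Ideal.span (Set.range f) = ⊥ := by
    rw [Set.range_eq_empty f, Ideal.span_empty]
  refine ⟨fun a b h => ?_, fun y => ?_⟩
  · have h1 : Ideal.Quotient.mk (Ideal.span (Set.range f)) (MvPolynomial.C a) =
        Ideal.Quotient.mk (Ideal.span (Set.range f)) (MvPolynomial.C b) := h
    rw [Ideal.Quotient.eq, hI, Ideal.mem_bot, sub_eq_zero] at h1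
    exact MvPolynomial.C_injective _ _ h1
  · obtain ⟨p, rfl⟩ := Ideal.Quotient.mk_surjective y
    obtain ⟨c, rfl⟩ := MvPolynomial.C_surjective (Fin (0 + 0)) p
    exact ⟨c, rfl⟩

open Pool.Agent.FMS (CompA) in
theorem inv_comp (k : Type) [Field k] (m : ℕ) :
    Pool.Agent.FMO.Inv k fun F [Field F] [Algebra k F] => CompA k m F :=
  (Pool.Agent.FMS.s_CMP k).1 m

section

open Pool.Agent.FMS (CompA)
open Pool.Agent.FMO (Kp)

variable {k : Type} [Field k] {A : Type} [CommRing A] [Algebra k A] [Algebra.FiniteType k A]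

theorem comp_of {m : ℕ} (h : FTS.Res (FTS.Comp k m) (FTS.sp k A)) (q : PrimeSpectrum A) :
    CompA k m (Kp q) := by
  obtain ⟨x, hx⟩ := (Pool.Agent.FMO.t_RES k A _ (inv_comp k m)).2 q
  exact hx.1 (h x)

theorem of_comp {m : ℕ} (h : ∀ q : PrimeSpectrum A, CompA k m (Kp q)) :
    FTS.Res (FTS.Comp k m) (FTS.sp k A) := by
  intro x
  obtain ⟨q, hq⟩ := (Pool.Agent.FMO.t_RES k A _ (inv_comp k m)).1 x
  exact hq.2 (h q)

theorem dl_of {d : ℕ} (h : FTS.DimLE (FTS.sp k A) d) : QCV.DL k A d :=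
  (QCV.dimLE_aff d).1 h

theorem of_dl {d : ℕ} (h : QCV.DL k A d) : FTS.DimLE (FTS.sp k A) d :=
  (QCV.dimLE_aff d).2 h

theorem over_of {m N h : ℕ} (hA : ∀ q : PrimeSpectrum A, CompA k m (Kp q)) {M : ℕ}
    (c c' : Fin M → k) (hc : Nat.card {j // c j * c' j ≠ 0} ≤ h) :
    FTS.Over m N h (FTS.szer k A (Pool.Agent.FMS.fermA A N c c')) :=
  ⟨A, inferInstance, inferInstance, inferInstance, M, c, c', of_comp hA, hc, rfl⟩

end

theorem base {k : Type} [Field k] (m N h : ℕ) (A : Type) [CommRing A] [Algebra k A]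
    [Algebra.FiniteType k A] (hA : FTS.Res (FTS.Comp k m) (FTS.sp k A)) :
    FTS.Bld (FTS.Over m N h) (FTS.sp k A) := by
  have hbase : FTS.Bld (FTS.Over m N h) (FTS.szer k A fun j => MvPolynomial.map (algebraMap k A)
      (FTS.ferm N (fun _ : Fin 0 => (0 : k)) (fun _ => 0) j)) := by
    refine .base _ ⟨A, inferInstance, inferInstance, inferInstance, 0, fun _ => 0, fun _ => 0, hA,
      ?_, rfl⟩
    rw [Nat.card_of_isEmpty]
    exact Nat.zero_le h
  let f : FTS.Mo (FTS.szer k A fun j => MvPolynomial.map (algebraMap k A)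
      (FTS.ferm N (fun _ : Fin 0 => (0 : k)) (fun _ => 0) j)) (FTS.sp k A) :=
    { g := Spec.map (CommRingCat.ofHom (algebraMap A _))
      comm := by
        change Spec.map _ ≫ Spec.map _ = Spec.map _
        rw [← Spec.map_comp, ← CommRingCat.ofHom_comp] }
  refine .iso f ?_ hbase
  have h : IsIso (CommRingCat.ofHom (algebraMap A (MvPolynomial (Fin (0 + 0)) A ⧸
      Ideal.span (Set.range fun j => MvPolynomial.map (algebraMap k A)
        (FTS.ferm N (fun _ : Fin 0 => (0 : k)) (fun _ => 0) j))))) :=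
    (ConcreteCategory.isIso_iff_bijective _).2 (bij _)
  change IsIso (Spec.map (CommRingCat.ofHom (algebraMap A (MvPolynomial (Fin (0 + 0)) A ⧸
      Ideal.span (Set.range fun j => MvPolynomial.map (algebraMap k A)
        (FTS.ferm N (fun _ : Fin 0 => (0 : k)) (fun _ => 0) j))))))
  infer_instance

theorem small {k : Type} [Field k] (d m : ℕ) (hd : d ≤ 1) (hdm : d ≤ m) (X : Var k)
    (hX : FTS.DimLE X d) : FTS.Res (FTS.Comp k m) X := by
  intro x
  have h := hX x
  rcases Nat.eq_zero_or_pos m with rfl | hm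
  · obtain rfl : d = 0 := by omega
    rw [Nat.cast_zero] at h
    exact (@(Pool.Agent.FMS.s_CMP k).2.2.1 _ _ (X.toResidue x).toAlgebra).2 h
  · refine (@(Pool.Agent.FMS.s_CMP k).2.1 m hm _ _ (X.toResidue x).toAlgebra).2 ?_
    refine @(Pool.Agent.FMO.t_CIN k m).2 hm _ _ (X.toResidue x).toAlgebra ?_
    have h1 : (d : Cardinal) ≤ 1 := by exact_mod_cast hd
    exact h.trans h1

theorem dim_of {k : Type} [Field k] {m : ℕ} (hm : m ≤ 1) {X : Var k}
    (hX : FTS.Res (FTS.Comp k m) X) : FTS.DimLE X m := by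
  intro x
  have h := hX x
  rcases Nat.eq_zero_or_pos m with rfl | hm'
  · have h1 := (@(Pool.Agent.FMS.s_CMP k).2.2.1 _ _ (X.toResidue x).toAlgebra).1 h
    rw [Nat.cast_zero]
    exact h1
  · obtain rfl : m = 1 := by omega
    have h1 := (@(Pool.Agent.FMS.s_CMP k).2.2.2 _ _ (X.toResidue x).toAlgebra).1 h
    rw [Nat.cast_one]
    exact h1

theorem comp_two {k : Type} [Field k] {X : Var k} (hX : Pool.Agent.FMO.CompX 2 X) :
    FTS.Res (FTS.Comp k 2) X := fun x =>
  (@(Pool.Agent.FMS.s_CMP k).2.1 2 one_le_two _ _ (X.toResidue x).toAlgebra).2 (hX x)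

/-! ### quadratic forms of odd rank -/

theorem inv_sm {k : Type} [Field k] {Φ : FTS.FP k} (hΦ : FTS.Inv Φ) : FTS.Inv (FTS.Sm Φ) :=
  (Pool.Agent.FMQ.s_SMC k).1 Φ.P hΦ

theorem quad {k : Type} [Field k] (h2 : (2 : k) ≠ 0) (Φ : FTS.FP k) (hΦ : FTS.Inv Φ) (A : Type)
    [CommRing A] [Algebra k A] [Algebra.FiniteType k A] (n : ℕ) (f : MvPolynomial (Fin n) A)
    (hf : f.IsHomogeneous 2) (hq : ∀ q, FTS.Good Φ f q) :
    FTS.Bld (FTS.Res Φ) (FTS.szer k A fun _ : Fin 1 => f) :=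
  Pool.Agent.FMQ.s_QUF k h2 _ (clo (FTS.Res Φ)) Φ.P hΦ (fun X h => .base X h) A n f hf hq

theorem trdeg_root {k K F : Type} [Field k] [Field K] [Algebra k K] [Field F] [Algebra k F]
    [Algebra K F] [IsScalarTower k K F] {b : K} (h : FTS.Root b F)
    (hK : Algebra.trdeg k K ≤ 1) : Algebra.trdeg k F ≤ 1 := by
  obtain ⟨t, ht, htop⟩ := h
  have h1 : IsIntegral K t := ⟨X ^ 2 - C b, by monicity!, by simp [ht]⟩
  have h2 : FiniteDimensional K (IntermediateField.adjoin K {t}) :=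
    IntermediateField.adjoin.finiteDimensional h1
  rw [htop] at h2
  have h3 : FiniteDimensional K F :=
    (IntermediateField.topEquiv (F := K) (E := F)).toLinearEquiv.finiteDimensional
  have h4 : Algebra.trdeg K F = 0 := trdeg_eq_zero_iff.2 inferInstance
  have h5 := trdeg_add_eq k K (A := F)
  rw [h4, add_zero] at h5
  rw [← h5]
  exact hK

theorem odd {k : Type} [Field k] (h2 : (2 : k) ≠ 0) (Φ : FTS.FP k) (hΦ : FTS.Inv Φ) (A : Type)
    [CommRing A] [Algebra k A] [Algebra.FiniteType k A] (hA : FTS.Res (FTS.Sm Φ) (FTS.sp k A))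
    (n : ℕ) (f : MvPolynomial (Fin n) A) (hf : f.IsHomogeneous 2)
    (hr : ∀ q : PrimeSpectrum A, Algebra.trdeg k (FTS.Kp q) = 2 →
      Odd ((FTS.gram f).map (FTS.val q)).rank) :
    FTS.Bld (FTS.Res (FTS.Sm Φ)) (FTS.szer k A fun _ : Fin 1 => f) := by
  refine quad h2 _ (inv_sm hΦ) A n f hf fun q => ?_
  have h1 : (FTS.Sm Φ).P (FTS.Kp q) := by
    obtain ⟨x, hx⟩ := (Pool.Agent.FMO.t_RES k A _ (inv_sm hΦ)).2 q
    exact hx.1 (hA x)
  refine ⟨h1, ?_⟩
  rcases h1 with h1 | h1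
  · right
    have hs : ((FTS.gram f).map (FTS.val q)).transpose = (FTS.gram f).map (FTS.val q) := by
      rw [← Matrix.transpose_map]
      exact congrArg (fun M : Matrix (Fin n) (Fin n) A => M.map (FTS.val q))
        (QCV.QOD.gram_transpose f)
    obtain ⟨s, hs1, hs2⟩ := Pool.Agent.FMS.t_PMN _ n _ hs
    exact ⟨s, hs1, hs2, fun F _ _ _ _ hF => Or.inl (trdeg_root hF h1)⟩
  · exact Or.inl (hr q h1.1)

/-- The families. -/
theorem families (k : Type) [Field k] : FTS.Families k where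
  point := fun B hB => .base _ (hB _ (Pool.Agent.FMQ.s_CUR k).1)
  small := fun d m hd hdm X hX => small d m hd hdm X hX
  base := fun m N h A _ _ _ hA => base m N h A hA
  proj := fun B A _ _ _ n ι f hf hA h X hX =>
    Pool.Agent.FMQ.t_PRR k (FTS.Bld B) (clo B) A n ι f hf hA h X hX
  few := fun A _ m n ι f hf => Pool.Agent.FMS.t_FEA A m n ι f hf
  mono := fun A _ m n p hp => Pool.Agent.FMS.t_MNA A m n p hp
  eqs := fun d m N h hd hN A _ _ _ hA n l r ι f g hf hg hh ht =>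
    Pool.Agent.FMS.s_THA k _ (clo (FTS.Over (m + d) N h)) (free _) m d N h hd hN
      (fun Λ _ _ _ hΛ M c c' hc => .base _ (over_of hΛ c c' hc)) A (dl_of hA) n l r ι f g hf
      ⟨hg.ind, hg.exp⟩ hh ht
  mix := fun d m hd A _ _ _ hA n r s ι f σ a e c hf ha =>
    Pool.Agent.FMS.s_THB k _ (clo (FTS.Res (FTS.Comp k (m + d)))) (free _) m d hd
      (fun Λ _ _ _ hΛ => .base _ (of_comp hΛ)) A (dl_of hA) n r s ι f σ a e c hf ha.1 ha.2.1 ha.2.2
  none := fun m N hN X hX => by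
    obtain ⟨A, _, _, _, M, c, c', hA, hc, rfl⟩ := hX
    exact (Pool.Agent.FMS.s_OV3 k _ (clo (FTS.Res (FTS.Comp k m))) N m hN).1
      (fun A _ _ _ hA => .base _ (of_comp hA)) A (comp_of hA) M c c' hc
  move := fun m N h hN X hX => by
    obtain ⟨A, _, _, _, M, c, c', hA, hc, rfl⟩ := hX
    exact (Pool.Agent.FMS.s_OV3 k _ (clo (FTS.Over (m + 1) N h)) N m hN).2 h
      (fun A _ _ _ hA M c c' hc => .base _ (over_of hA c c' hc)) A (comp_of hA) M c c' hc
  quad := fun h2 Φ hΦ A _ _ _ n f hf hq => quad h2 Φ hΦ A n f hf hq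
  odd := fun h2 Φ hΦ A _ _ _ hA n f hf hr => odd h2 Φ hΦ A hA n f hf hr
  act := fun Φ hΦ n r w ι f hf => (Pool.Agent.FMQ.s_EQS k _ (clo (FTS.Res Φ))).2 Φ.P hΦ
    (fun X h => .base X h) n r w ι f hf

open TensorProduct in
theorem res_two {k : Type} [Field k] {A R : Type} [CommRing A] [Algebra k A]
    [Algebra.FiniteType k A] [CommRing R] [Algebra k R] [Algebra.FiniteType k R]
    (hA : ∀ q : PrimeSpectrum A, Pool.Agent.FMS.CompA k 1 (Pool.Agent.FMO.Kp q))
    (hR : QCV.DL k R 1) : FTS.Res (FTS.Comp k 2) (FTS.sp k (A ⊗[k] R)) :=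
  of_comp fun q => Pool.Agent.FMS.t_CPG k A R 1 1 le_rfl hA hR q

theorem resol {k : Type} [Field k] (h : FTS.Resol k) : Pool.Agent.FMQ.Resol k := by
  intro U hU
  obtain ⟨U', Y, a, b, h1, h2, h3, h4⟩ := h U hU
  exact ⟨U', Y, un a, un b, h1, h2, h3, h4⟩

open TensorProduct in
/-- The results for homology theories. -/
theorem built {k Λ : Type} [Field k] [Finite k] [CommRing Λ] [IsNoetherianRing Λ]
    (T : FTS.BM.{v} k Λ) (h2 : IsUnit (2 : Λ)) (hT : T.Pub) : FTS.Built T := by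
  have hC : LFQ.Clo (th T).FG := LFQ.fgClo (pub hT) h2
  have hF : Pool.Agent.FMQ.FreeCl (th T).FG := Pool.Agent.FMQ.t_FRE k Λ (th T) (pub hT) (freeT hT)
  have small : ∀ Φ : FTS.FP k, FTS.Inv Φ → FTS.Resol k → FTS.SurfFG T Φ →
      ∀ X, FTS.Res (FTS.Sm Φ) X → T.FG X := fun Φ hΦ hR hS =>
    Pool.Agent.FMQ.s_BSF k (th T).FG hC (fun X hX => (pub hT).fin.curves X hX) Φ.P hΦ (resol hR) hS
  have two : FTS.Resol k → FTS.SurfFG T (FTS.Comp k 2) →
      ∀ X, FTS.Res (FTS.Comp k 2) X → T.FG X := fun hR hS X hX =>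
    small (FTS.Comp k 2) (inv_comp k 2) hR hS X fun x => by
      have h1 := (@(Pool.Agent.FMS.s_CMP k).2.1 2 one_le_two _ _ (X.toResidue x).toAlgebra).1 (hX x)
      rcases @(Pool.Agent.FMQ.s_SMC k).2.2.2.1 _ _ (X.toResidue x).toAlgebra h1 with h3 | h3
      · exact Or.inl h3
      · exact Or.inr ⟨h3.1, hX x⟩
  have one : ∀ m : ℕ, m ≤ 1 → ∀ X, FTS.Res (FTS.Comp k m) X → T.FG X := fun m hm X hX =>
    (pub hT).fin.curves X fun x => by
      have h := dim_of hm hX x
      have h1 : (m : Cardinal) ≤ (1 : ℕ) := by exact_mod_cast hm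
      exact h.trans h1
  have prod : ∀ m : ℕ, m ≤ 2 → FTS.Input T m → ∀ (A R : Type) [CommRing A] [Algebra k A]
      [Algebra.FiniteType k A] [CommRing R] [Algebra k R] [Algebra.FiniteType k R],
      (∀ q : PrimeSpectrum A, Pool.Agent.FMS.CompA k m (Pool.Agent.FMO.Kp q)) → QCV.DL k R 1 →
      T.FG (FTS.sp k (A ⊗[k] R)) := by
    intro m hm hI A R _ _ _ _ _ _ hA hR
    rcases Nat.lt_or_ge m 1 with h0 | h1
    · obtain rfl : m = 0 := by omega
      exact one 1 le_rfl _ (of_comp fun q => Pool.Agent.FMS.t_CPG k A R 0 1 le_rfl hA hR q)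
    obtain ⟨hR', hS⟩ := hI.1 h1
    rcases Nat.lt_or_ge m 2 with h0 | h3
    · obtain rfl : m = 1 := by omega
      exact two hR' hS _ (res_two hA hR)
    · obtain rfl : m = 2 := by omega
      have hP := hI.2 le_rfl
      refine Pool.Agent.FMS.s_TRI k (th T).FG hC (fun X hX => two hR' hS X (comp_two hX)) (resol hR')
        R hR ?_ A fun q => ((Pool.Agent.FMS.s_CMP k).2.1 2 one_le_two _).1 (hA q)
      intro Y hY hYs hYc X q t hq
      exact hP Y hY hYs ((@(Pool.Agent.FMS.s_CMP k).2.1 2 one_le_two _ _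
        (Y.toResidue _).toAlgebra).2 hYc) R (of_dl hR) X (nu q) t hq
  have ferms : ∀ (A : Type) [CommRing A] [Algebra k A] [Algebra.FiniteType k A],
      (∀ (R : Type) [CommRing R] [Algebra k R] [Algebra.FiniteType k R], QCV.DL k R 1 →
        T.FG (FTS.sp k (A ⊗[k] R))) → ∀ (p a ν N : ℕ), p.Prime → CharP k p → 1 ≤ ν →
      N ∣ p ^ a * (p ^ ν + 1) → ∀ (M : ℕ) (c c' : Fin M → k),
      T.FG (FTS.szer k A (Pool.Agent.FMS.fermA A N c c')) :=
    fun A _ _ _ hA p a ν N hp hc hν hN M c c' =>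
      Pool.Agent.FMS.t_PIA k (th T).FG hC p a ν N hp hc hν A
        (fun N' hN' M c c' => Pool.Agent.FMS.s_FRB k Λ (th T) (pub hT) (galT hT) hC hF p ν N' hp hc
          hν hN' A hA M c c') hN M c c'
  exact
    { bld := fun B hB X hX => closed hC hF hB hX
      one := fun m hm X hX => closed hC hF (one m hm) hX
      herm := fun p a ν N m h hp hc hν hN hm hI X hX => closed hC hF (fun X hX => by
        obtain ⟨A, _, _, _, M, c, c', hA, -, rfl⟩ := hX
        exact ferms A (fun R _ _ _ hR => prod m hm hI A R (comp_of hA) hR) p a ν N hp hc hν hN M c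
          c') hX
      three := fun N hN hI X hX => closed hC hF (fun X hX => by
        obtain ⟨A, _, _, _, M, c, c', hA, hc, rfl⟩ := hX
        exact Pool.Agent.FMS.s_OV4 k (th T).FG hC N 2 hN
          (fun A R _ _ _ _ _ _ hA hR => prod 2 le_rfl hI A R hA hR) A (comp_of hA) M c c' hc) hX
      small := fun Φ hΦ hR hS X hX => closed hC hF (small Φ hΦ hR hS) hX
      ruled := fun X hX => closed hC hF (fun X hX =>
        Pool.Agent.FMS.s_RUL k (th T).FG hC (fun X hX => (pub hT).fin.curves X hX) X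
          fun x => (hX x).imp id fun h => ⟨h.1, by
            obtain ⟨R, _, _, _, _, hR, e⟩ := h.2
            exact ⟨R, inferInstance, inferInstance, inferInstance, inferInstance, dl_of hR, e⟩⟩) hX
      two := fun hR hS X hX => closed hC hF (two hR hS) hX }

/-- The results for smooth projective varieties. -/
theorem lbuilt {k : Type} [Field k] [Finite k] {ℓ : Nat.Primes} {T : FTS.BM.{v} k (Zp ℓ)}
    (F : FTS.Fam k ℓ T) (hℓ : (ℓ : ℕ) ≠ 2) (hp : ¬ CharP k ℓ) (hT : T.Pub) : FTS.LBuilt F := by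
  have hB := built T (LFQ.isUnit_two hℓ) hT
  have link : ∀ (Y : Var k) (d : ℕ) (hY : FTS.SPj Y d), T.FG Y ↔ F.L hY := fun Y d hY =>
    LFQ.link (fam F) (pub hT) hp hY
  have surf : (∀ (Y : Var k) (h : IsIntegral Y.X) (hY : FTS.SPj Y 2),
      FTS.At (FTS.Comp k 2) Y (FTS.gp Y h) → F.L hY) → FTS.SurfFG T (FTS.Comp k 2) :=
    fun hS Y' hY' hYs hYc => (link Y' 2 hYs).2 (hS Y' hY' hYs hYc)
  exact
    { link := link
      bld := fun B hBB Y d hY hYB => (link Y d hY).1 (hB.bld B hBB Y hYB)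
      two := fun hR hS Y d hY hYB => (link Y d hY).1 (hB.two hR (surf hS) Y hYB)
      herm := fun p a ν N h hp' hc hν hN hR hS Y d hY hYB => (link Y d hY).1
        (hB.herm p a ν N 1 h hp' hc hν hN one_le_two
          ⟨fun _ => ⟨hR, surf hS⟩, fun h => absurd h (by norm_num)⟩ Y hYB) }

end FTS.Brg
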