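import Pool.Agent.FMS.St2

/-!
# FMS, module DSQ: square roots of terms over a system of Delsarte type
-/

set_option autoImplicit false

open CategoryTheory AlgebraicGeometry Polynomial

namespace Pool.Agent.FMS

open FMQ (Dels Rel tot)

namespace DSQAux

section

variable {n : ℕ} (l : ℕ)

/-- the exponent in the larger set of variables -/
noncomputable def E (α : Fin n →₀ ℕ) : Fin (n + l) →₀ ℕ := Finsupp.mapDomain (Fin.castAdd l) α

/-- the exponent of `t_i ^ 2` -/
noncomputable def D (n : ℕ) {l : ℕ} (i : Fin l) : Fin (n + l) →₀ ℕ :=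
  Finsupp.single (Fin.natAdd n i) 2

theorem E_inj : Function.Injective (E l : (Fin n →₀ ℕ) → (Fin (n + l) →₀ ℕ)) :=
  Finsupp.mapDomain_injective (Fin.castAdd_injective n l)

theorem E_cast (α : Fin n →₀ ℕ) (v : Fin n) : E l α (Fin.castAdd l v) = α v :=
  Finsupp.mapDomain_apply (Fin.castAdd_injective n l) α v

variable {l}

theorem ne_cast (v : Fin n) (i : Fin l) : Fin.castAdd l v ≠ Fin.natAdd n i := by
  intro h
  have h1 := congrArg Fin.val h
  simp only [Fin.val_castAdd, Fin.val_natAdd] at h1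
  have := v.2
  omega

theorem E_nat (α : Fin n →₀ ℕ) (i : Fin l) : E l α (Fin.natAdd n i) = 0 :=
  Finsupp.mapDomain_of_notMem_range α _ (by
    rintro ⟨v, hv⟩
    exact ne_cast v i hv)

theorem D_cast (i : Fin l) (v : Fin n) : D n i (Fin.castAdd l v) = 0 := by
  unfold D
  rw [Finsupp.single_eq_of_ne (ne_cast v i)]

theorem D_nat (i i' : Fin l) : D n i (Fin.natAdd n i') = if i = i' then 2 else 0 := by
  unfold D
  rw [Finsupp.single_apply]
  by_cases h : i = i'
  · rw [if_pos h, h, if_pos rfl]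
  · rw [if_neg h, if_neg fun h1 => h ((Fin.natAdd_inj n).1 h1)]

theorem D_ne (i : Fin l) (α : Fin n →₀ ℕ) : D n i ≠ E l α := by
  intro h
  have h1 := DFunLike.congr_fun h (Fin.natAdd n i)
  rw [D_nat, E_nat, if_pos rfl] at h1
  omega

end

section

variable {k : Type} [Field k] {n r l : ℕ}

theorem supp1 (f : Fin r → MvPolynomial (Fin n) k) (τ : Fin l → MvPolynomial (Fin n) k)
    (j : Fin r) (γ : Fin (n + l) →₀ ℕ) :
    γ ∈ (sqs f τ (Fin.castAdd l j)).support ↔ ∃ α ∈ (f j).support, E l α = γ := by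
  classical
  unfold sqs
  rw [Fin.append_left, MvPolynomial.support_rename_of_injective (Fin.castAdd_injective n l),
    Finset.mem_image]
  rfl

theorem card1 (f : Fin r → MvPolynomial (Fin n) k) (τ : Fin l → MvPolynomial (Fin n) k)
    (j : Fin r) : (sqs f τ (Fin.castAdd l j)).support.card = (f j).support.card := by
  classical
  unfold sqs
  rw [Fin.append_left, MvPolynomial.support_rename_of_injective (Fin.castAdd_injective n l)]
  exact Finset.card_image_of_injective _ (E_inj l)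

theorem supp2 (f : Fin r → MvPolynomial (Fin n) k) (τ : Fin l → MvPolynomial (Fin n) k)
    (a : Fin l → Fin n →₀ ℕ) (ha : ∀ i, (τ i).support = {a i}) (i : Fin l) :
    (sqs f τ (Fin.natAdd r i)).support = {D n i, E l (a i)} := by
  classical
  have h1 : τ i = MvPolynomial.monomial (a i) (MvPolynomial.coeff (a i) (τ i)) := by
    conv_lhs => rw [MvPolynomial.as_sum (τ i), ha i, Finset.sum_singleton]
  have hc : MvPolynomial.coeff (a i) (τ i) ≠ 0 := by
    rw [← MvPolynomial.mem_support_iff, ha i]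
    exact Finset.mem_singleton_self _
  unfold sqs
  rw [Fin.append_right, MvPolynomial.X_pow_eq_monomial, h1, MvPolynomial.rename_monomial]
  ext γ
  rw [MvPolynomial.mem_support_iff, MvPolynomial.coeff_sub, MvPolynomial.coeff_monomial,
    MvPolynomial.coeff_monomial, Finset.mem_insert, Finset.mem_singleton]
  change (if D n i = γ then (1 : k) else 0) -
    (if E l (a i) = γ then MvPolynomial.coeff (a i) (τ i) else 0) ≠ 0 ↔ _
  by_cases h2 : D n i = γ
  · rw [if_pos h2, if_neg fun h3 => D_ne i (a i) (h2.trans h3.symm), sub_zero]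
    exact ⟨fun _ => Or.inl h2.symm, fun _ => one_ne_zero⟩
  · rw [if_neg h2]
    by_cases h3 : E l (a i) = γ
    · rw [if_pos h3, zero_sub]
      exact ⟨fun _ => Or.inr h3.symm, fun _ => neg_ne_zero.2 hc⟩
    · rw [if_neg h3, sub_zero]
      exact ⟨fun h => absurd rfl h, fun h => by
        rcases h with h | h
        · exact absurd h.symm h2
        · exact absurd h.symm h3⟩

/-- the relation with the parts `z'` and `ζ` -/
noncomputable def asm (a : Fin l → Fin n →₀ ℕ) (z' : Fin r → (Fin n →₀ ℕ) →₀ ℤ) (ζ : Fin l → ℤ) :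
    Fin (r + l) → (Fin (n + l) →₀ ℕ) →₀ ℤ :=
  Fin.append (fun j => Finsupp.mapDomain (E l) (z' j))
    fun i => Finsupp.single (D n i) (ζ i) - Finsupp.single (E l (a i)) (ζ i)

theorem asm_left (a : Fin l → Fin n →₀ ℕ) (z' : Fin r → (Fin n →₀ ℕ) →₀ ℤ) (ζ : Fin l → ℤ)
    (j : Fin r) : asm a z' ζ (Fin.castAdd l j) = Finsupp.mapDomain (E l) (z' j) :=
  Fin.append_left _ _ j

theorem asm_right (a : Fin l → Fin n →₀ ℕ) (z' : Fin r → (Fin n →₀ ℕ) →₀ ℤ) (ζ : Fin l → ℤ)
    (i : Fin l) : asm a z' ζ (Fin.natAdd r i) =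
      Finsupp.single (D n i) (ζ i) - Finsupp.single (E l (a i)) (ζ i) :=
  Fin.append_right _ _ i

theorem sum_right (i : Fin l) (α : Fin n →₀ ℕ) (c : ℤ) (h : (Fin (n + l) →₀ ℕ) → ℤ) :
    (Finsupp.single (D n i) c - Finsupp.single (E l α) c).sum (fun γ c => c * h γ) =
      c * h (D n i) - c * h (E l α) := by
  rw [Finsupp.sum_sub_index fun γ b₁ b₂ => sub_mul _ _ _, Finsupp.sum_single_index (zero_mul _),
    Finsupp.sum_single_index (zero_mul _)]

theorem sum_left (z : (Fin n →₀ ℕ) →₀ ℤ) (h : (Fin (n + l) →₀ ℕ) → ℤ) :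
    (Finsupp.mapDomain (E l) z).sum (fun γ c => c * h γ) = z.sum fun α c => c * h (E l α) :=
  Finsupp.sum_mapDomain_index (fun _ => zero_mul _) fun _ _ _ => add_mul _ _ _

theorem sum_one {X : Type} (z : X →₀ ℤ) : (z.sum fun _ c => c) = z.sum fun _ c => c * 1 := by
  simp only [mul_one]

theorem asm_rel (f : Fin r → MvPolynomial (Fin n) k) (τ : Fin l → MvPolynomial (Fin n) k)
    (a : Fin l → Fin n →₀ ℕ) (ha : ∀ i, (τ i).support = {a i})
    (z' : Fin r → (Fin n →₀ ℕ) →₀ ℤ) (ζ : Fin l → ℤ) (h : Rel f z') :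
    Rel (sqs f τ) (asm a z' ζ) := by
  classical
  refine ⟨fun j => ?_, fun j => ?_⟩
  · refine Fin.addCases (fun j γ hγ => ?_) (fun i γ hγ => ?_) j
    · rw [asm_left] at hγ
      have h1 := Finsupp.mapDomain_support (Finsupp.mem_support_iff.2 hγ)
      obtain ⟨α, hα, rfl⟩ := Finset.mem_image.1 h1
      exact (supp1 f τ j _).2 ⟨α, h.1 j α (Finsupp.mem_support_iff.1 hα), rfl⟩
    · rw [asm_right] at hγ
      rw [supp2 f τ a ha, Finset.mem_insert, Finset.mem_singleton]
      by_contra h1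
      rw [not_or] at h1
      apply hγ
      rw [Finsupp.sub_apply, Finsupp.single_eq_of_ne h1.1, Finsupp.single_eq_of_ne h1.2, sub_zero]
  · refine Fin.addCases (fun j => ?_) (fun i => ?_) j
    · rw [asm_left, sum_one, sum_left (z' j) fun _ => 1, ← sum_one]
      exact h.2 j
    · rw [asm_right, sum_one, sum_right i (a i) (ζ i) fun _ => 1]
      ring

theorem tot_cast (a : Fin l → Fin n →₀ ℕ) (z' : Fin r → (Fin n →₀ ℕ) →₀ ℤ) (ζ : Fin l → ℤ)
    (v : Fin n) : tot (asm a z' ζ) (Fin.castAdd l v) = tot z' v - ∑ i, ζ i * (a i v : ℤ) := by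
  unfold tot
  rw [Fin.sum_univ_add, sub_eq_add_neg, ← Finset.sum_neg_distrib]
  refine congrArg₂ (· + ·) (Finset.sum_congr rfl fun j _ => ?_) (Finset.sum_congr rfl fun i _ => ?_)
  · rw [asm_left, sum_left (z' j) fun γ => (γ (Fin.castAdd l v) : ℤ)]
    simp only [E_cast]
  · rw [asm_right, sum_right i (a i) (ζ i) fun γ => (γ (Fin.castAdd l v) : ℤ), D_cast, E_cast]
    push_cast
    ring

theorem tot_nat (a : Fin l → Fin n →₀ ℕ) (z' : Fin r → (Fin n →₀ ℕ) →₀ ℤ) (ζ : Fin l → ℤ)
    (i : Fin l) : tot (asm a z' ζ) (Fin.natAdd n i) = 2 * ζ i := by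
  unfold tot
  rw [Fin.sum_univ_add]
  have h1 : ∑ j : Fin r, ((asm a z' ζ (Fin.castAdd l j)).sum fun α c =>
      c * (α (Fin.natAdd n i) : ℤ)) = 0 := by
    refine Finset.sum_eq_zero fun j _ => ?_
    rw [asm_left, sum_left (z' j) fun γ => (γ (Fin.natAdd n i) : ℤ)]
    simp only [E_nat, Nat.cast_zero, mul_zero]
    exact Finsupp.sum_fun_zero _
  rw [h1, zero_add, Finset.sum_eq_single i]
  · rw [asm_right, sum_right i (a i) (ζ i) fun γ => (γ (Fin.natAdd n i) : ℤ), D_nat, E_nat,
      if_pos rfl]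
    push_cast
    ring
  · intro i' _ hi
    rw [asm_right, sum_right i' (a i') (ζ i') fun γ => (γ (Fin.natAdd n i) : ℤ), D_nat, E_nat,
      if_neg hi]
    push_cast
    ring
  · intro h
    exact absurd (Finset.mem_univ i) h

theorem dec (f : Fin r → MvPolynomial (Fin n) k) (τ : Fin l → MvPolynomial (Fin n) k)
    (a : Fin l → Fin n →₀ ℕ) (ha : ∀ i, (τ i).support = {a i})
    (z : Fin (r + l) → (Fin (n + l) →₀ ℕ) →₀ ℤ) (h : Rel (sqs f τ) z) :
    ∃ (z' : Fin r → (Fin n →₀ ℕ) →₀ ℤ) (ζ : Fin l → ℤ), Rel f z' ∧ z = asm a z' ζ := by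
  classical
  obtain ⟨z', hz'⟩ : ∃ z' : Fin r → (Fin n →₀ ℕ) →₀ ℤ, ∀ j,
      Finsupp.mapDomain (E l) (z' j) = z (Fin.castAdd l j) := by
    refine ⟨fun j => Finsupp.comapDomain (E l) (z (Fin.castAdd l j)) (E_inj l).injOn, fun j => ?_⟩
    refine Finsupp.mapDomain_comapDomain (E l) (E_inj l) _ ?_
    intro γ hγ
    have h1 : z (Fin.castAdd l j) γ ≠ 0 := Finsupp.mem_support_iff.1 hγ
    obtain ⟨α, -, hα⟩ := (supp1 f τ j γ).1 (h.1 _ γ h1)
    exact ⟨α, hα⟩
  refine ⟨z', fun i => z (Fin.natAdd r i) (D n i), ⟨fun j α hα => ?_, fun j => ?_⟩, ?_⟩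
  · have h1 : z (Fin.castAdd l j) (E l α) ≠ 0 := by
      rw [← hz' j, Finsupp.mapDomain_apply (E_inj l)]
      exact hα
    obtain ⟨β, hβ, hβα⟩ := (supp1 f τ j _).1 (h.1 _ _ h1)
    rwa [← E_inj l hβα]
  · have h1 := h.2 (Fin.castAdd l j)
    rw [← hz' j, sum_one, sum_left (z' j) fun _ => 1, ← sum_one] at h1
    exact h1
  · funext j
    refine Fin.addCases (fun j => ?_) (fun i => ?_) j
    · rw [asm_left, hz' j]
    · rw [asm_right]
      have hs : (z (Fin.natAdd r i)).support ⊆ {D n i, E l (a i)} := by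
        intro γ hγ
        have h1 := h.1 _ γ (Finsupp.mem_support_iff.1 hγ)
        rwa [supp2 f τ a ha] at h1
      have hsum := h.2 (Fin.natAdd r i)
      rw [Finsupp.sum_of_support_subset _ hs _ fun _ _ => rfl,
        Finset.sum_pair (D_ne i (a i))] at hsum
      ext γ
      rw [Finsupp.sub_apply]
      by_cases h1 : γ = D n i
      · rw [h1, Finsupp.single_eq_same, Finsupp.single_eq_of_ne (D_ne i (a i)), sub_zero]
      · rw [Finsupp.single_eq_of_ne h1, zero_sub]
        by_cases h2 : γ = E l (a i)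
        · rw [h2, Finsupp.single_eq_same]
          linarith
        · rw [Finsupp.single_eq_of_ne h2, neg_zero]
          by_contra h3
          have h4 := hs (Finsupp.mem_support_iff.2 h3)
          rw [Finset.mem_insert, Finset.mem_singleton] at h4
          exact h4.elim h1 h2

end

end DSQAux

open DSQAux in
theorem t_DSQ : S_DSQ := by
  classical
  intro k _ n r l N f τ hf hτ
  have ha' : ∀ i, ∃ α, (τ i).support = {α} := fun i => Finset.card_eq_one.1 (hτ i)
  choose a ha using ha'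
  refine ⟨⟨fun z hz h0 => ?_, fun x t ht hx => ?_⟩, card1 f τ, fun i => ?_⟩
  · obtain ⟨z', ζ, hz', rfl⟩ := dec f τ a ha z hz
    have hζ : ζ = 0 := by
      funext i
      have h1 := congrFun h0 (Fin.natAdd n i)
      rw [tot_nat, Pi.zero_apply] at h1
      rw [Pi.zero_apply]
      omega
    have h1 : tot z' = 0 := by
      funext v
      have h2 := congrFun h0 (Fin.castAdd l v)
      rw [tot_cast, hζ] at h2
      simpa using h2
    have h2 := hf.ind z' hz' h1
    rw [hζ, h2]
    funext j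
    refine Fin.addCases (fun j => ?_) (fun i => ?_) j
    · rw [asm_left]
      exact Finsupp.mapDomain_zero
    · rw [asm_right]
      simp
  · obtain ⟨z, hz, hzt⟩ := hx
    obtain ⟨z', ζ, hz', rfl⟩ := dec f τ a ha z hz
    have hξ : ∀ i, t * x (Fin.natAdd n i) = 2 * ζ i := by
      intro i
      have h1 := congrFun hzt (Fin.natAdd n i)
      rw [tot_nat, Pi.smul_apply, smul_eq_mul] at h1
      exact h1
    have hx' : ∀ v, t * x (Fin.castAdd l v) = tot z' v - ∑ i, ζ i * (a i v : ℤ) := by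
      intro v
      have h1 := congrFun hzt (Fin.castAdd l v)
      rw [tot_cast, Pi.smul_apply, smul_eq_mul] at h1
      exact h1
    obtain ⟨w, hw, hwt⟩ := hf.exp
      (fun v => 2 * x (Fin.castAdd l v) + ∑ i, x (Fin.natAdd n i) * (a i v : ℤ)) t ht
      ⟨fun j => (2 : ℤ) • z' j, ⟨fun j α hα => hz'.1 j α fun h1 => hα (by
        rw [Finsupp.smul_apply, h1, smul_zero]), fun j => by
        rw [Finsupp.sum_smul_index fun _ => rfl, ← Finsupp.mul_sum, hz'.2 j, mul_zero]⟩, by
        funext v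
        have h2 : tot (fun j => (2 : ℤ) • z' j) v = 2 * tot z' v := by
          unfold tot
          rw [Finset.mul_sum]
          refine Finset.sum_congr rfl fun j _ => ?_
          rw [Finsupp.sum_smul_index fun _ => zero_mul _, Finsupp.mul_sum]
          refine Finsupp.sum_congr fun α _ => ?_
          ring
        rw [h2, Pi.smul_apply, smul_eq_mul, mul_add, Finset.mul_sum]
        have h3 : ∑ i, t * (x (Fin.natAdd n i) * (a i v : ℤ)) =
            2 * ∑ i, ζ i * (a i v : ℤ) := by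
          rw [Finset.mul_sum]
          refine Finset.sum_congr rfl fun i _ => ?_
          rw [← mul_assoc, hξ i]
          ring
        rw [h3]
        have h4 := hx' v
        linarith⟩
    refine ⟨asm a w fun i => N * x (Fin.natAdd n i), asm_rel f τ a ha w _ hw, ?_⟩
    funext j
    refine Fin.addCases (fun v => ?_) (fun i => ?_) j
    · rw [tot_cast, Pi.smul_apply, smul_eq_mul]
      have h1 := congrFun hwt v
      rw [Pi.smul_apply, smul_eq_mul] at h1
      rw [← h1, mul_add, Finset.mul_sum]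
      have h2 : ∑ i, (N : ℤ) * x (Fin.natAdd n i) * (a i v : ℤ) =
          ∑ i, (N : ℤ) * (x (Fin.natAdd n i) * (a i v : ℤ)) :=
        Finset.sum_congr rfl fun i _ => mul_assoc _ _ _
      rw [h2]
      push_cast
      ring
    · rw [tot_nat, Pi.smul_apply, smul_eq_mul]
      push_cast
      ring
  · rw [supp2 f τ a ha i]
    exact Finset.card_pair (D_ne i (a i))

end Pool.Agent.FMS
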