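import Pool.Agent.FMS.St2

/-!
# DSS: square roots over a stratum of a system of Delsarte type
-/

set_option autoImplicit false

open CategoryTheory AlgebraicGeometry Polynomial

namespace Pool.Agent.FMS

open Pool.Agent.Lib_helper55.Beil (Var)
open UQ (Mo DimLE sp szer sdbl)
open FMO (Univ Few Add CompX Comp Kp)
open FMQ (FreeCl Dels Fermat ferm)
open LFQ (BM)

namespace DSSAux

section

variable {k : Type} [Field k]

/-- more variables that are units -/
theorem univ_units {V ι : Type} {f : ι → MvPolynomial V k} {U U' Z : Set V} {C : Type} [CommRing C]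
    [Algebra k C] {φ : V → C} (h : Univ f U Z C φ) (hU : U ⊆ U') (hu : ∀ v ∈ U', IsUnit (φ v)) :
    Univ f U' Z C φ where
  sat := h.sat
  unit := hu
  zero := h.zero
  lift := fun D _ _ ψ h1 h2 h3 => h.lift D ψ h1 (fun v hv => h2 v (hU hv)) h3
  ext := h.ext

/-- the spectrum of the zero ring -/
theorem emp (A : Type) [CommRing A] [Algebra k A] [Algebra.FiniteType k A] [Subsingleton A] :
    IsEmpty (sp k A).X :=
  inferInstanceAs (IsEmpty (PrimeSpectrum A))

/-- the variable `x_i` is a unit -/
theorem unit_r {n l r : ℕ} {f : Fin r → MvPolynomial (Fin n) k} {τ : Fin l → MvPolynomial (Fin n) k}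
    {U Z : Set (Fin n ⊕ Fin l)} {C : Type} [CommRing C] [Algebra k C] {φ : Fin n ⊕ Fin l → C}
    (h : Univ (sym f (fun i => i) (fun _ => 1) (fun _ => 2) (fun i => -τ i)) U Z C φ) (i : Fin l)
    (hu : IsUnit (MvPolynomial.aeval (fun v => φ (Sum.inl v)) (τ i))) : IsUnit (φ (Sum.inr i)) := by
  have h1 := h.sat (Sum.inr i)
  unfold sym at h1
  have e : (Finset.univ.filter fun j : Fin l => j = i) = {i} := by
    ext j
    simp
  rw [Sum.elim_inr, e, Finset.sum_singleton, map_one, one_mul, map_neg, map_add, map_neg, map_pow,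
    MvPolynomial.aeval_X, MvPolynomial.aeval_rename] at h1
  have h2 : φ (Sum.inr i) ^ 2 = MvPolynomial.aeval (fun v => φ (Sum.inl v)) (τ i) :=
    add_neg_eq_zero.1 h1
  rw [← h2] at hu
  exact (isUnit_pow_iff two_ne_zero).1 hu

/-- change of the coefficients -/
theorem chg {V ι : Type} {F : ι → MvPolynomial V k} {l : ℕ} {U Z : Set V}
    {C : Type} [CommRing C] [Algebra k C] (A B b : Fin l → C) (hA : A = fun _ => 1)
    (hB : B = fun i => - b i) (χ : ∀ A B : Fin l → C, V → QM (fun i : Fin l => i) A (fun _ => 2) B)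
    (h : Univ F U Z (QM (fun i : Fin l => i) A (fun _ => 2) B) (χ A B)) :
    Univ F U Z (SQ b) (χ (fun _ => 1) fun i => - b i) := by
  subst hA hB
  exact h

/-- the value of a term in `SQ` -/
theorem unit_t {n l : ℕ} {C : Type} [CommRing C] [Algebra k C] (b : Fin l → C) (φ : Fin n → C)
    (p : MvPolynomial (Fin n) k) (hp : IsUnit (MvPolynomial.aeval φ p)) :
    IsUnit (MvPolynomial.aeval (fun v => (Ideal.Quotient.mk (Ideal.span (Set.range
      (qm (fun i : Fin l => i) (fun _ => (1 : C)) (fun _ => 2) fun i => - b i)))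
        (MvPolynomial.C (φ v)) : SQ b)) p) := by
  have h : MvPolynomial.aeval (fun v => (IsScalarTower.toAlgHom k C (SQ b)) (φ v)) p =
      (IsScalarTower.toAlgHom k C (SQ b)) (MvPolynomial.aeval φ p) :=
    (MvPolynomial.comp_aeval_apply (R := k) (f := φ) (IsScalarTower.toAlgHom k C (SQ b)) p).symm
  have h2 := hp.map (IsScalarTower.toAlgHom k C (SQ b))
  rw [← h] at h2
  exact h2

/-- other names of the variables and of the equations -/
theorem univ_ren {V V' ι ι' : Type} {f : ι → MvPolynomial V k} {g : ι' → MvPolynomial V' k}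
    (ε : V ≃ V') (ε' : ι ≃ ι') (hg : ∀ i, g (ε' i) = MvPolynomial.rename ε (f i)) {U Z : Set V}
    {C : Type} [CommRing C] [Algebra k C] {φ : V → C} (h : Univ f U Z C φ) :
    Univ g (ε '' U) (ε '' Z) C (φ ∘ ε.symm) where
  sat := by
    intro j
    obtain ⟨i, rfl⟩ := ε'.surjective j
    rw [hg, MvPolynomial.aeval_rename]
    have e : (φ ∘ ε.symm) ∘ ε = φ := by
      funext v
      simp
    rw [e, h.sat]
  unit := by
    rintro _ ⟨v, hv, rfl⟩
    simpa using h.unit v hv
  zero := by
    rintro _ ⟨v, hv, rfl⟩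
    simpa using h.zero v hv
  lift := by
    intro D _ _ ψ h1 h2 h3
    obtain ⟨q, hq⟩ := h.lift D (ψ ∘ ε)
      (fun i => by
        have := h1 (ε' i)
        rwa [hg, MvPolynomial.aeval_rename] at this)
      (fun v hv => h2 _ ⟨v, hv, rfl⟩) (fun v hv => h3 _ ⟨v, hv, rfl⟩)
    refine ⟨q, fun v => ?_⟩
    have := hq (ε.symm v)
    simpa using this
  ext := by
    intro D _ _ q q' h1
    refine h.ext D q q' fun v => ?_
    have := h1 (ε v)
    simpa using this

/-- the names of `sym` and `sqs` -/
theorem names {n r l : ℕ} (f : Fin r → MvPolynomial (Fin n) k) (τ : Fin l → MvPolynomial (Fin n) k)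
    (i : Fin r ⊕ Fin l) :
    sqs f τ (finSumFinEquiv i) = MvPolynomial.rename (finSumFinEquiv : Fin n ⊕ Fin l ≃ Fin (n + l))
      (sym f (fun i => i) (fun _ => 1) (fun _ => 2) (fun i => -τ i) i) := by
  rcases i with i | i
  · rw [finSumFinEquiv_apply_left]
    unfold sqs sym
    rw [Fin.append_left, Sum.elim_inl, MvPolynomial.rename_rename]
    congr 1
  · rw [finSumFinEquiv_apply_right]
    unfold sqs sym
    rw [Fin.append_right, Sum.elim_inr]
    have e : (Finset.univ.filter fun j : Fin l => j = i) = {i} := by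
      ext j
      simp
    rw [e, Finset.sum_singleton, map_add, map_mul, map_pow, map_one, map_one, one_mul,
      MvPolynomial.rename_X, finSumFinEquiv_apply_right, map_neg, map_neg,
      MvPolynomial.rename_rename, sub_eq_add_neg]
    congr 3

end

end DSSAux

open DSSAux in
theorem t_DSS : M_DSS := by
  intro hM hT hQ k _ P hP hF N m hN hFer n r f hD hc hs U Z hUZ C _ _ _ φ hφ l τ hτ hu
  rcases subsingleton_or_nontrivial C with hC | hC
  · have : Subsingleton (SQ fun i => MvPolynomial.aeval φ (τ i)) := by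
      have : Subsingleton (MvPolynomial (Fin l) C) := inferInstance
      exact (Ideal.Quotient.mk_surjective).subsingleton
    exact hP.empty _ (emp _)
  · have hτ1 : ∀ i, (τ i).support.card = 1 := by
      intro i
      refine le_antisymm (hτ i) ?_
      rw [Nat.one_le_iff_ne_zero, Ne, Finset.card_eq_zero, MvPolynomial.support_eq_empty]
      intro h
      have h1 := hu i
      rw [h, map_zero] at h1
      exact not_isUnit_zero h1
    obtain ⟨h1, h2, h3⟩ := hQ k n r l N f τ hD hτ1
    have h4 := hM k (Fin n) (Fin r) l l f (fun i => i) (fun _ => 1) (fun _ => 2) (fun i => -τ i)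
      U Z C φ hφ
    have e1 : (fun _ : Fin l => MvPolynomial.aeval φ (1 : MvPolynomial (Fin n) k)) = fun _ => (1 : C) := by
      funext _
      exact map_one _
    have e2 : (fun i : Fin l => MvPolynomial.aeval φ (-τ i)) = fun i => -MvPolynomial.aeval φ (τ i) := by
      funext i
      exact map_neg _ _
    have h8 := chg _ _ _ e1 e2 (fun A B => Sum.elim
      (fun v => Ideal.Quotient.mk _ (MvPolynomial.C (φ v)))
      fun j => Ideal.Quotient.mk _ (MvPolynomial.X j)) h4
    have h5 := univ_units (U' := Sum.inl '' U ∪ Set.range Sum.inr) h8 Set.subset_union_left (by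
      rintro _ (h | ⟨i, rfl⟩)
      · exact h8.unit _ h
      · exact unit_r h8 i (unit_t _ φ (τ i) (hu i)))
    have h7 := univ_ren (finSumFinEquiv : Fin n ⊕ Fin l ≃ Fin (n + l))
      (finSumFinEquiv : Fin r ⊕ Fin l ≃ Fin (r + l)) (names f τ) h5
    refine hT k P hP hF (2 * N) m (by omega) hFer (n + l) (r + l) (sqs f τ) h1 ?_ ?_ _ _ ?_ _ _ h7
    · intro j
      refine Fin.addCases (fun j => ?_) (fun j => ?_) j
      · rw [h2]
        exact hc j
      · rw [h3]
        omega
    · rw [Fin.sum_univ_add]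
      simp only [h2, h3]
      simpa using hs
    · intro v
      obtain ⟨v, rfl⟩ := (finSumFinEquiv : Fin n ⊕ Fin l ≃ Fin (n + l)).surjective v
      rcases v with v | v
      · rcases hUZ v with h | h
        · exact Or.inl ⟨_, Or.inl ⟨v, h, rfl⟩, rfl⟩
        · exact Or.inr ⟨_, ⟨v, h, rfl⟩, rfl⟩
      · exact Or.inl ⟨_, Or.inr ⟨v, rfl⟩, rfl⟩

end Pool.Agent.FMS
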