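import Pool.Agent.FMS.St2
import Pool.Agent.FMQ.St2

/-!
# Project FMS, module DST: a stratum of a system of Delsarte type
-/

set_option autoImplicit false

open CategoryTheory AlgebraicGeometry Polynomial Multiplicative

namespace Pool.Agent.FMS

open Pool.Agent.Lib_helper55.Beil (Var)
open UQ (Mo DimLE sp szer sdbl)
open FMO (Univ Few Add CompX Comp Kp)
open FMQ (FreeCl Dels Fermat ferm rs)

theorem t_DST : M_DST := by
  intro CLF GUT SDI LAT GUX GXT FR2 k _ P hP hF N m hN hX n r f hd h3 hm U Z hUZ C _ _ _ φ hU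
  have hC := CLF k P hP
  rcases subsingleton_or_nontrivial C with hc | hc
  · exact hC.triv C hc
  obtain ⟨M₃, M₂, j₃, j₂, α₀, α₁, α₂, β₀, β₁, c, c', d, χ, hsrv, hgu⟩ :=
    GUT k n r f h3 U Z hUZ C φ hU
  obtain ⟨hli, htor, hle⟩ := SDI k n r N f hd h3 U M₃ M₂ j₃ j₂ α₀ α₁ α₂ β₀ β₁ hsrv
  obtain ⟨q, θ, hinj, hfin, hθ⟩ := LAT (U → ℤ) ((Fin M₃ ⊕ Fin M₃) ⊕ Fin M₂) _ N hN hli htor
  have hfg : AddGroup.FG (((Fin M₃ ⊕ Fin M₃) ⊕ Fin M₂) ⊕ Fin q → ℤ) :=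
    Module.Finite.iff_addGroup_fg.1 inferInstance
  obtain ⟨C', i1, i2, i3, χ', hgu'⟩ := (GUX k (((Fin M₃ ⊕ Fin M₃) ⊕ Fin M₂) ⊕ Fin q → ℤ)
    (Fin M₃ ⊕ Fin M₂)
    (fun j => θ (Sum.elim (fun i => rs U (α₁ i) - rs U (α₀ i))
      (fun i => rs U (β₁ i) - rs U (β₀ i)) j))
    (fun j => θ (Sum.elim (fun i => rs U (α₂ i) - rs U (α₀ i)) (fun _ => 0) j))
    (Sum.elim c d) (Sum.elim c' fun _ => 0)).1 hfg
  refine GXT k P hP hF (U → ℤ) (((Fin M₃ ⊕ Fin M₃) ⊕ Fin M₂) ⊕ Fin q → ℤ) hfg θ hinj hfin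
    (Fin M₃ ⊕ Fin M₂) _ _ _ _ C χ hgu C' χ' hgu' ?_
  refine FR2 k P hP N m hN hX M₃ M₂ q ?_ c c' d C' χ' ?_
  · exact hle.trans hm
  · have hu : (fun j => θ (Sum.elim (fun i => rs U (α₁ i) - rs U (α₀ i))
        (fun i => rs U (β₁ i) - rs U (β₀ i)) j)) =
        (Sum.elim (fun j => Pi.single (Sum.inl (Sum.inl (Sum.inl j))) (N : ℤ))
          fun j => Pi.single (Sum.inl (Sum.inr j)) (N : ℤ) :
          Fin M₃ ⊕ Fin M₂ → (((Fin M₃ ⊕ Fin M₃) ⊕ Fin M₂) ⊕ Fin q → ℤ)) := by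
      funext j
      rcases j with j | j
      · exact hθ (Sum.inl (Sum.inl j))
      · exact hθ (Sum.inr j)
    have hv : (fun j => θ (Sum.elim (fun i => rs U (α₂ i) - rs U (α₀ i)) (fun _ => 0) j)) =
        (Sum.elim (fun j => Pi.single (Sum.inl (Sum.inl (Sum.inr j))) (N : ℤ)) fun _ => 0 :
          Fin M₃ ⊕ Fin M₂ → (((Fin M₃ ⊕ Fin M₃) ⊕ Fin M₂) ⊕ Fin q → ℤ)) := by
      funext j
      rcases j with j | j
      · exact hθ (Sum.inl (Sum.inr j))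
      · exact map_zero θ
    rw [hu, hv] at hgu'
    exact hgu'

end Pool.Agent.FMS
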