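import Pool.Agent.FMS.St

/-!
# FMS: module HPB, the hyperbolic step (helper84)
-/

set_option autoImplicit false

open Polynomial

namespace Pool.Agent.FMS

namespace HPBAux

/-! ### Universal algebras -/

/-- `B` with the family `b` is universal among the `A`-algebras with a family with the property
`E`. -/
structure UP (A : Type) [CommRing A] {ι : Type}
    (E : ∀ (D : Type) [CommRing D] [Algebra A D], (ι → D) → Prop) (B : Type) [CommRing B]
    [Algebra A B] (b : ι → B) : Prop where
  sat : E B b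
  lift : ∀ (D : Type) [CommRing D] [Algebra A D] (d : ι → D), E D d →
    ∃ f : B →ₐ[A] D, ∀ i, f (b i) = d i
  ext : ∀ (D : Type) [CommRing D] [Algebra A D] (f g : B →ₐ[A] D),
    (∀ i, f (b i) = g (b i)) → f = g

variable {A : Type} [CommRing A] {ι : Type}
  {E E' : ∀ (D : Type) [CommRing D] [Algebra A D], (ι → D) → Prop}
  {B B' : Type} [CommRing B] [Algebra A B] [CommRing B'] [Algebra A B'] {b : ι → B} {b' : ι → B'}

theorem UP.equiv (h : UP A E B b) (h' : UP A E B' b') : Nonempty (B ≃ₐ[A] B') := by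
  obtain ⟨f, hf⟩ := h.lift B' b' h'.sat
  obtain ⟨g, hg⟩ := h'.lift B b h.sat
  refine ⟨AlgEquiv.ofAlgHom f g ?_ ?_⟩
  · exact h'.ext _ _ _ fun i => by
      rw [AlgHom.comp_apply, hg, hf]
      rfl
  · exact h.ext _ _ _ fun i => by
      rw [AlgHom.comp_apply, hf, hg]
      rfl

theorem UP.congr (h : UP A E B b)
    (hE : ∀ (D : Type) [CommRing D] [Algebra A D] (d : ι → D), E D d ↔ E' D d) :
    UP A E' B b where
  sat := (hE B b).1 h.sat
  lift D _ _ d hd := h.lift D d ((hE D d).2 hd)
  ext := h.ext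

theorem UP.quot (h : UP A E B b) (a : B) :
    UP A (fun (D : Type) [CommRing D] [Algebra A D] (d : ι → D) =>
      ∃ f : B →ₐ[A] D, (∀ i, f (b i) = d i) ∧ f a = 0) (B ⧸ Ideal.span {a})
      (fun i => Ideal.Quotient.mk (Ideal.span {a}) (b i)) where
  sat := ⟨Ideal.Quotient.mkₐ A _, fun _ => rfl,
    Ideal.Quotient.eq_zero_iff_mem.2 (Ideal.mem_span_singleton_self _)⟩
  lift D _ _ d hd := by
    obtain ⟨f, hf, hfa⟩ := hd
    have h1 : ∀ x : B, x ∈ Ideal.span {a} → f x = 0 := by
      intro x hx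
      obtain ⟨y, rfl⟩ := Ideal.mem_span_singleton'.1 hx
      rw [map_mul, hfa, mul_zero]
    exact ⟨Ideal.Quotient.liftₐ (Ideal.span {a}) f h1, fun i => hf i⟩
  ext D _ _ g g' hgg := by
    have h1 := h.ext D (g.comp (Ideal.Quotient.mkₐ A (Ideal.span {a})))
      (g'.comp (Ideal.Quotient.mkₐ A (Ideal.span {a}))) fun w => hgg w
    exact Ideal.Quotient.algHom_ext A h1

theorem UP.loc (h : UP A E B b) (a : B) :
    UP A (fun (D : Type) [CommRing D] [Algebra A D] (d : ι → D) =>
      ∃ f : B →ₐ[A] D, (∀ i, f (b i) = d i) ∧ IsUnit (f a)) (Localization.Away a)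
      (fun i => algebraMap B (Localization.Away a) (b i)) where
  sat := ⟨IsScalarTower.toAlgHom A B (Localization.Away a), fun _ => rfl,
    IsLocalization.Away.algebraMap_isUnit _⟩
  lift D _ _ d hd := by
    obtain ⟨f, hf, hfa⟩ := hd
    have h1 : ∀ y : Submonoid.powers a, IsUnit (f y) := by
      rintro ⟨_, n, rfl⟩
      change IsUnit (f (a ^ n))
      rw [map_pow]
      exact hfa.pow n
    refine ⟨IsLocalization.liftAlgHom (M := Submonoid.powers a) (f := f) h1, fun i => ?_⟩
    rw [IsLocalization.liftAlgHom_apply, IsLocalization.lift_eq]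
    exact hf i
  ext D _ _ g g' hgg := by
    have h1 := h.ext D (g.comp (IsScalarTower.toAlgHom A B (Localization.Away a)))
      (g'.comp (IsScalarTower.toAlgHom A B (Localization.Away a))) fun w => hgg w
    have h2 : (g : Localization.Away a →+* D) = g' := by
      refine IsLocalization.ringHom_ext (Submonoid.powers a) (RingHom.ext fun x => ?_)
      exact congrArg (fun f : B →ₐ[A] D => f x) h1
    exact AlgHom.coe_ringHom_injective h2

/-! ### Homomorphisms from adjoined roots and polynomial rings -/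

theorem adj_lift {R D : Type} [CommRing R] [Algebra A R] [CommRing D] [Algebra A D] (p : R[X])
    (φ : R →ₐ[A] D) (x : D) (h : eval₂ (φ : R →+* D) x p = 0) :
    ∃ f : AdjoinRoot p →ₐ[A] D, (∀ r, f (AdjoinRoot.of p r) = φ r) ∧ f (AdjoinRoot.root p) = x := by
  refine ⟨AdjoinRoot.liftAlgHom p φ x h, fun r => ?_, ?_⟩
  · exact AdjoinRoot.lift_of h
  · exact AdjoinRoot.lift_root h

theorem adj_ext {R D : Type} [CommRing R] [Algebra A R] [CommRing D] [Algebra A D] (p : R[X])
    (f g : AdjoinRoot p →ₐ[A] D) (h : ∀ r, f (AdjoinRoot.of p r) = g (AdjoinRoot.of p r))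
    (hx : f (AdjoinRoot.root p) = g (AdjoinRoot.root p)) : f = g := by
  refine AlgHom.coe_ringHom_injective ?_
  refine Ideal.Quotient.ringHom_ext ?_
  refine Polynomial.ringHom_ext (fun r => ?_) ?_
  · exact h r
  · exact hx

theorem pol_lift {R D : Type} [CommRing R] [Algebra A R] [CommRing D] [Algebra A D]
    (φ : R →ₐ[A] D) (x : D) : ∃ f : R[X] →ₐ[A] D, (∀ r, f (C r) = φ r) ∧ f X = x := by
  refine ⟨{ Polynomial.eval₂RingHom (φ : R →+* D) x with commutes' := fun a => ?_ }, fun r => ?_, ?_⟩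
  · show Polynomial.eval₂ (φ : R →+* D) x (C (algebraMap A R a)) = _
    rw [Polynomial.eval₂_C]
    exact φ.commutes a
  · show Polynomial.eval₂ (φ : R →+* D) x (C r) = _
    rw [Polynomial.eval₂_C]
    rfl
  · show Polynomial.eval₂ (φ : R →+* D) x X = _
    rw [Polynomial.eval₂_X]

theorem pol_ext {R D : Type} [CommRing R] [Algebra A R] [CommRing D] [Algebra A D]
    (f g : R[X] →ₐ[A] D) (h : ∀ r, f (C r) = g (C r)) (hx : f X = g X) : f = g :=
  AlgHom.coe_ringHom_injective (Polynomial.ringHom_ext h hx)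

/-! ### The functors -/

/-- `r ^ q - r = κ (μ ^ (q ^ 2) - μ) x + ρ` for `(x, μ, r)` -/
def E1 (q : ℕ) (κ ρ : A) (D : Type) [CommRing D] [Algebra A D] (d : Fin 3 → D) : Prop :=
  d 2 ^ q - d 2 = algebraMap A D κ * (d 1 ^ (q ^ 2) - d 1) * d 0 + algebraMap A D ρ

def EZ (q : ℕ) (κ ρ : A) (D : Type) [CommRing D] [Algebra A D] (d : Fin 3 → D) : Prop :=
  E1 q κ ρ D d ∧ d 1 ^ (q ^ 2) - d 1 = 0

def EU (q : ℕ) (κ ρ : A) (D : Type) [CommRing D] [Algebra A D] (d : Fin 3 → D) : Prop :=
  E1 q κ ρ D d ∧ IsUnit (d 1 ^ (q ^ 2) - d 1)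

/-- additivity of the power `q` in all algebras -/
def Frob (q : ℕ) (A : Type) [CommRing A] : Prop :=
  ∀ (D : Type) [CommRing D] [Algebra A D] (a b : D), (a + b) ^ q = a ^ q + b ^ q ∧
    (a - b) ^ q = a ^ q - b ^ q

theorem frob {p q : ℕ} {K : Type} [Field K] (hK : Dat p q K) (A : Type) [CommRing A]
    [Algebra K A] : Frob q A := by
  intro D _ _ a b
  obtain ⟨ν, hν, rfl⟩ := hK.pow
  have hp := hK.pr
  have hc := hK.char
  rcases subsingleton_or_nontrivial D with hD | hD
  · exact ⟨Subsingleton.elim _ _, Subsingleton.elim _ _⟩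
  · let i : Algebra K D := ((algebraMap A D).comp (algebraMap K A)).toAlgebra
    have : CharP D p := charP_of_injective_algebraMap (algebraMap K D).injective p
    have : Fact p.Prime := ⟨hp⟩
    exact ⟨add_pow_char_pow .., sub_pow_char_pow ..⟩

theorem ap_root {R : Type} [CommRing R] (q : ℕ) (α : R) :
    AdjoinRoot.root (ap q α) ^ q - AdjoinRoot.root (ap q α) = AdjoinRoot.of (ap q α) α := by
  have h := AdjoinRoot.eval₂_root (ap q α)
  unfold ap at h ⊢
  rw [eval₂_sub, eval₂_sub, eval₂_X_pow, eval₂_X, eval₂_C] at h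
  exact sub_eq_zero.1 h

theorem ap_eval {R D : Type} [CommRing R] [CommRing D] (φ : R →+* D) (q : ℕ) (α : R) (x : D)
    (h : x ^ q - x = φ α) : eval₂ φ x (ap q α) = 0 := by
  unfold ap
  rw [eval₂_sub, eval₂_sub, eval₂_X_pow, eval₂_X, eval₂_C, h, sub_self]

/-- the algebra `R[μ] / (μ ^ q - y)` -/
theorem up_R {q : ℕ} (hF : Frob q A) {κ ρ : A} (hκ : κ ^ q = -κ) (α : MvPolynomial (Fin 2) A)
    (hα : α = MvPolynomial.C κ * (MvPolynomial.X 0 ^ q * MvPolynomial.X 1 +
      MvPolynomial.X 0 * MvPolynomial.X 1 ^ q) + MvPolynomial.C ρ) (P : (AS q α)[X])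
    (hP : P = X ^ q - C (AdjoinRoot.of (ap q α) (MvPolynomial.X 1))) :
    UP A (E1 q κ ρ) (AdjoinRoot P)
      ![AdjoinRoot.of P (AdjoinRoot.of (ap q α) (MvPolynomial.X 0)), AdjoinRoot.root P,
        AdjoinRoot.of P (AdjoinRoot.root (ap q α)) + algebraMap A (AdjoinRoot P) κ *
          AdjoinRoot.root P * AdjoinRoot.of P (AdjoinRoot.of (ap q α) (MvPolynomial.X 0))] := by
  have hμ : AdjoinRoot.root P ^ q =
      AdjoinRoot.of P (AdjoinRoot.of (ap q α) (MvPolynomial.X 1)) := by
    have h := AdjoinRoot.eval₂_root P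
    have ev : ∀ {T : Type} [CommRing T] (φ : AS q α →+* T) (x : T), eval₂ φ x P = x ^ q -
        φ (AdjoinRoot.of (ap q α) (MvPolynomial.X 1)) := by
      intro T _ φ x
      rw [hP, eval₂_sub, eval₂_X_pow, eval₂_C]
    have h2 := ev (AdjoinRoot.of P) (AdjoinRoot.root P)
    rw [h] at h2
    exact (sub_eq_zero.1 h2.symm)
  constructor
  · -- the relation
    have hz : AdjoinRoot.of P (AdjoinRoot.root (ap q α)) ^ q -
        AdjoinRoot.of P (AdjoinRoot.root (ap q α)) = algebraMap A (AdjoinRoot P) κ *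
        (AdjoinRoot.of P (AdjoinRoot.of (ap q α) (MvPolynomial.X 0)) ^ q *
          AdjoinRoot.of P (AdjoinRoot.of (ap q α) (MvPolynomial.X 1)) +
          AdjoinRoot.of P (AdjoinRoot.of (ap q α) (MvPolynomial.X 0)) *
          AdjoinRoot.of P (AdjoinRoot.of (ap q α) (MvPolynomial.X 1)) ^ q) +
        algebraMap A (AdjoinRoot P) ρ := by
      have h := congrArg (AdjoinRoot.of P) (ap_root q α)
      rw [map_sub, map_pow] at h
      rw [h]
      have hc : ∀ a : A, AdjoinRoot.of P (AdjoinRoot.of (ap q α) (MvPolynomial.C a)) =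
          algebraMap A (AdjoinRoot P) a := fun a => rfl
      rw [← hc, ← hc]
      refine (congrArg (fun t => AdjoinRoot.of P (AdjoinRoot.of (ap q α) t)) hα).trans ?_
      simp only [map_add, map_mul, map_pow]
    unfold E1
    simp only [Matrix.cons_val]
    generalize AdjoinRoot.of P (AdjoinRoot.root (ap q α)) = z at hz ⊢
    generalize AdjoinRoot.of P (AdjoinRoot.of (ap q α) (MvPolynomial.X 0)) = x at hz ⊢
    generalize AdjoinRoot.of P (AdjoinRoot.of (ap q α) (MvPolynomial.X 1)) = y at hz hμ ⊢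
    generalize AdjoinRoot.root P = μ at hμ ⊢
    have h2 : μ ^ (q ^ 2) = y ^ q := by rw [pow_two, pow_mul, hμ]
    have h3 : algebraMap A (AdjoinRoot P) κ ^ q = -algebraMap A (AdjoinRoot P) κ := by
      rw [← map_pow, hκ, map_neg]
    rw [(hF (AdjoinRoot P) _ _).1, mul_pow, mul_pow, h3, hμ, h2]
    linear_combination hz
  · -- the lift
    intro D _ _ d hd
    unfold E1 at hd
    have h3 : algebraMap A D κ ^ q = -algebraMap A D κ := by
      rw [← map_pow, hκ, map_neg]
    obtain ⟨φ1, h11, h12⟩ := adj_lift (ap q α) (MvPolynomial.aeval ![d 0, d 1 ^ q] :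
      MvPolynomial (Fin 2) A →ₐ[A] D) (d 2 - algebraMap A D κ * d 1 * d 0) (by
        refine ap_eval _ q α _ ?_
        have h4 : (MvPolynomial.aeval ![d 0, d 1 ^ q] : MvPolynomial (Fin 2) A →ₐ[A] D) α =
            algebraMap A D κ * (d 0 ^ q * d 1 ^ q + d 0 * (d 1 ^ q) ^ q) + algebraMap A D ρ := by
          rw [hα]
          simp [MvPolynomial.algHom_C]
        have h5 : (d 1 ^ q) ^ q = d 1 ^ (q ^ 2) := by rw [pow_two, pow_mul]
        refine Eq.trans ?_ h4.symm
        rw [(hF D _ _).2, mul_pow, mul_pow, h3, h5]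
        linear_combination hd)
    obtain ⟨φ2, h21, h22⟩ := adj_lift P φ1 (d 1) (by
      rw [hP, eval₂_sub, eval₂_X_pow, eval₂_C, sub_eq_zero]
      show d 1 ^ q = φ1 (AdjoinRoot.of (ap q α) (MvPolynomial.X 1))
      rw [h11]
      simp)
    refine ⟨φ2, fun i => ?_⟩
    have hx : φ2 (AdjoinRoot.of P (AdjoinRoot.of (ap q α) (MvPolynomial.X 0))) = d 0 := by
      rw [h21, h11]
      simp
    fin_cases i
    · exact hx
    · exact h22
    · show φ2 (AdjoinRoot.of P (AdjoinRoot.root (ap q α)) + algebraMap A (AdjoinRoot P) κ *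
          AdjoinRoot.root P * AdjoinRoot.of P (AdjoinRoot.of (ap q α) (MvPolynomial.X 0))) = d 2
      rw [map_add, map_mul, map_mul, hx, h22, h21, h12, AlgHom.commutes]
      ring
  · -- uniqueness
    intro D _ _ f g hfg
    have f0 : f (AdjoinRoot.of P (AdjoinRoot.of (ap q α) (MvPolynomial.X 0))) =
        g (AdjoinRoot.of P (AdjoinRoot.of (ap q α) (MvPolynomial.X 0))) := hfg 0
    have f1 : f (AdjoinRoot.root P) = g (AdjoinRoot.root P) := hfg 1
    have f2 : f (AdjoinRoot.of P (AdjoinRoot.root (ap q α)) + algebraMap A (AdjoinRoot P) κ *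
          AdjoinRoot.root P * AdjoinRoot.of P (AdjoinRoot.of (ap q α) (MvPolynomial.X 0))) =
        g (AdjoinRoot.of P (AdjoinRoot.root (ap q α)) + algebraMap A (AdjoinRoot P) κ *
          AdjoinRoot.root P * AdjoinRoot.of P (AdjoinRoot.of (ap q α) (MvPolynomial.X 0))) :=
      hfg 2
    rw [map_add, map_add, map_mul, map_mul, map_mul, map_mul, f0, f1, AlgHom.commutes,
      AlgHom.commutes] at f2
    have f2' := add_right_cancel f2
    have fy : f (AdjoinRoot.of P (AdjoinRoot.of (ap q α) (MvPolynomial.X 1))) =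
        g (AdjoinRoot.of P (AdjoinRoot.of (ap q α) (MvPolynomial.X 1))) := by
      rw [← hμ, map_pow, map_pow, f1]
    refine adj_ext P f g (fun r => ?_) f1
    have h5 : f.comp (IsScalarTower.toAlgHom A (AS q α) (AdjoinRoot P)) =
        g.comp (IsScalarTower.toAlgHom A (AS q α) (AdjoinRoot P)) := by
      refine adj_ext (ap q α) _ _ (fun r => ?_) f2'
      have h6 : (f.comp (IsScalarTower.toAlgHom A (AS q α) (AdjoinRoot P))).comp
          (IsScalarTower.toAlgHom A (MvPolynomial (Fin 2) A) (AS q α)) =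
          (g.comp (IsScalarTower.toAlgHom A (AS q α) (AdjoinRoot P))).comp
          (IsScalarTower.toAlgHom A (MvPolynomial (Fin 2) A) (AS q α)) := by
        refine MvPolynomial.algHom_ext fun i => ?_
        fin_cases i
        · exact f0
        · exact fy
      exact DFunLike.congr_fun h6 r
    exact DFunLike.congr_fun h5 r

/-- the closed part -/
theorem up_Z (q : ℕ) (κ ρ : A) (P : (AS q ρ)[X][X]) (hP : P = X ^ (q ^ 2) - X) :
    UP A (EZ q κ ρ) (AdjoinRoot P)
      ![AdjoinRoot.of P X, AdjoinRoot.root P, AdjoinRoot.of P (C (AdjoinRoot.root (ap q ρ)))] := by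
  have ev : ∀ {T : Type} [CommRing T] (φ : (AS q ρ)[X] →+* T) (x : T), eval₂ φ x P =
      x ^ (q ^ 2) - x := by
    intro T _ φ x
    rw [hP, eval₂_sub, eval₂_X_pow, eval₂_X]
  have hμ : AdjoinRoot.root P ^ (q ^ 2) - AdjoinRoot.root P = 0 := by
    rw [← ev (AdjoinRoot.of P) (AdjoinRoot.root P)]
    exact AdjoinRoot.eval₂_root P
  constructor
  · refine ⟨?_, hμ⟩
    have h := congrArg (AdjoinRoot.of P) (congrArg C (ap_root q ρ))
    rw [map_sub, map_pow, map_sub, map_pow] at h
    show AdjoinRoot.of P (C (AdjoinRoot.root (ap q ρ))) ^ q -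
      AdjoinRoot.of P (C (AdjoinRoot.root (ap q ρ))) = algebraMap A (AdjoinRoot P) κ *
        (AdjoinRoot.root P ^ (q ^ 2) - AdjoinRoot.root P) * AdjoinRoot.of P X +
          algebraMap A (AdjoinRoot P) ρ
    rw [h, hμ, mul_zero, zero_mul, zero_add]
    rfl
  · intro D _ _ d hd
    obtain ⟨hd1, hd2⟩ := hd
    unfold E1 at hd1
    rw [hd2, mul_zero, zero_mul, zero_add] at hd1
    obtain ⟨φ0, h01, h02⟩ := adj_lift (ap q ρ) (Algebra.ofId A D) (d 2) (ap_eval _ q ρ _ hd1)
    obtain ⟨φ1, h11, h12⟩ := pol_lift φ0 (d 0)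
    obtain ⟨φ2, h21, h22⟩ := adj_lift P φ1 (d 1) (by rw [ev, hd2])
    refine ⟨φ2, fun i => ?_⟩
    fin_cases i
    · show φ2 (AdjoinRoot.of P X) = d 0
      rw [h21, h12]
    · exact h22
    · show φ2 (AdjoinRoot.of P (C (AdjoinRoot.root (ap q ρ)))) = d 2
      rw [h21, h11, h02]
  · intro D _ _ f g hfg
    have f0 : f (AdjoinRoot.of P X) = g (AdjoinRoot.of P X) := hfg 0
    have f1 : f (AdjoinRoot.root P) = g (AdjoinRoot.root P) := hfg 1
    have f2 : f (AdjoinRoot.of P (C (AdjoinRoot.root (ap q ρ)))) =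
        g (AdjoinRoot.of P (C (AdjoinRoot.root (ap q ρ)))) := hfg 2
    refine adj_ext P f g (fun r => ?_) f1
    have h5 : f.comp (IsScalarTower.toAlgHom A (AS q ρ)[X] (AdjoinRoot P)) =
        g.comp (IsScalarTower.toAlgHom A (AS q ρ)[X] (AdjoinRoot P)) := by
      refine pol_ext _ _ (fun r => ?_) f0
      have h6 : (f.comp (IsScalarTower.toAlgHom A (AS q ρ)[X] (AdjoinRoot P))).comp
          (IsScalarTower.toAlgHom A (AS q ρ) (AS q ρ)[X]) =
          (g.comp (IsScalarTower.toAlgHom A (AS q ρ)[X] (AdjoinRoot P))).comp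
          (IsScalarTower.toAlgHom A (AS q ρ) (AS q ρ)[X]) := by
        refine adj_ext (ap q ρ) _ _ (fun r => ?_) f2
        exact (AlgHom.commutes _ r).trans (AlgHom.commutes _ r).symm
      exact DFunLike.congr_fun h6 r
    exact DFunLike.congr_fun h5 r

/-- the open part -/
theorem up_U (q : ℕ) {κ : A} (hκ : IsUnit κ) (ρ : A) (P : A[X][X]) (hP : P = X ^ (q ^ 2) - X) :
    ∃ b : Fin 3 → Localization.Away P, UP A (EU q κ ρ) (Localization.Away P) b := by
  have hPu : IsUnit (algebraMap A[X][X] (Localization.Away P) P) :=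
    IsLocalization.Away.algebraMap_isUnit _
  have hP' : algebraMap A[X][X] (Localization.Away P) P =
      algebraMap A[X][X] (Localization.Away P) X ^ (q ^ 2) -
        algebraMap A[X][X] (Localization.Away P) X := by
    have := congrArg (algebraMap A[X][X] (Localization.Away P)) hP
    rw [map_sub, map_pow] at this
    exact this
  have hu : IsUnit (algebraMap A (Localization.Away P) κ *
      algebraMap A[X][X] (Localization.Away P) P) := (hκ.map _).mul hPu
  obtain ⟨x, hx⟩ : ∃ x : Localization.Away P, algebraMap A (Localization.Away P) κ *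
      algebraMap A[X][X] (Localization.Away P) P * x =
      algebraMap A[X][X] (Localization.Away P) (C X) ^ q -
        algebraMap A[X][X] (Localization.Away P) (C X) - algebraMap A (Localization.Away P) ρ := by
    obtain ⟨w, hw⟩ := hu.exists_right_inv
    exact ⟨w * (algebraMap A[X][X] (Localization.Away P) (C X) ^ q -
        algebraMap A[X][X] (Localization.Away P) (C X) - algebraMap A (Localization.Away P) ρ),
      by rw [← mul_assoc, hw, one_mul]⟩
  refine ⟨![x, algebraMap A[X][X] (Localization.Away P) X,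
    algebraMap A[X][X] (Localization.Away P) (C X)], ?_, ?_, ?_⟩
  · refine ⟨?_, ?_⟩
    · show algebraMap A[X][X] (Localization.Away P) (C X) ^ q -
        algebraMap A[X][X] (Localization.Away P) (C X) = algebraMap A (Localization.Away P) κ *
        (algebraMap A[X][X] (Localization.Away P) X ^ (q ^ 2) -
          algebraMap A[X][X] (Localization.Away P) X) * x + algebraMap A (Localization.Away P) ρ
      rw [← hP', hx]
      ring
    · show IsUnit (algebraMap A[X][X] (Localization.Away P) X ^ (q ^ 2) -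
          algebraMap A[X][X] (Localization.Away P) X)
      rw [← hP']
      exact hPu
  · intro D _ _ d hd
    obtain ⟨hd1, hd2⟩ := hd
    unfold E1 at hd1
    obtain ⟨φ0, h01, h02⟩ := pol_lift (Algebra.ofId A D) (d 2)
    obtain ⟨φ1, h11, h12⟩ := pol_lift φ0 (d 1)
    have hφP : φ1 P = d 1 ^ (q ^ 2) - d 1 := by
      rw [hP, map_sub, map_pow, h12]
    have h1 : ∀ y : Submonoid.powers P, IsUnit (φ1 y) := by
      rintro ⟨_, n, rfl⟩
      change IsUnit (φ1 (P ^ n))
      rw [map_pow, hφP]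
      exact hd2.pow n
    set f : Localization.Away P →ₐ[A] D :=
      IsLocalization.liftAlgHom (M := Submonoid.powers P) (f := φ1) h1 with hf
    have hf1 : ∀ t : A[X][X], f (algebraMap A[X][X] (Localization.Away P) t) = φ1 t := by
      intro t
      rw [hf, IsLocalization.liftAlgHom_apply, IsLocalization.lift_eq]
      rfl
    refine ⟨f, fun i => ?_⟩
    fin_cases i
    · show f x = d 0
      have h2 := congrArg f hx
      rw [map_mul, map_mul, map_sub, map_sub, map_pow, hf1, hf1, h11, h02, AlgHom.commutes,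
        AlgHom.commutes, hφP] at h2
      have h3 : algebraMap A D κ * (d 1 ^ (q ^ 2) - d 1) * f x =
          algebraMap A D κ * (d 1 ^ (q ^ 2) - d 1) * d 0 := by
        rw [h2]
        linear_combination hd1
      exact ((hκ.map (algebraMap A D)).mul hd2).mul_left_cancel h3
    · show f (algebraMap A[X][X] (Localization.Away P) X) = d 1
      rw [hf1, h12]
    · show f (algebraMap A[X][X] (Localization.Away P) (C X)) = d 2
      rw [hf1, h11, h02]
  · intro D _ _ f g hfg
    have f1 : f (algebraMap A[X][X] (Localization.Away P) X) =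
      g (algebraMap A[X][X] (Localization.Away P) X) := hfg 1
    have f2 : f (algebraMap A[X][X] (Localization.Away P) (C X)) =
      g (algebraMap A[X][X] (Localization.Away P) (C X)) := hfg 2
    have h1 : f.comp (IsScalarTower.toAlgHom A A[X][X] (Localization.Away P)) =
        g.comp (IsScalarTower.toAlgHom A A[X][X] (Localization.Away P)) := by
      refine pol_ext _ _ (fun r => ?_) f1
      have h6 : (f.comp (IsScalarTower.toAlgHom A A[X][X] (Localization.Away P))).comp
          (IsScalarTower.toAlgHom A A[X] A[X][X]) =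
          (g.comp (IsScalarTower.toAlgHom A A[X][X] (Localization.Away P))).comp
          (IsScalarTower.toAlgHom A A[X] A[X][X]) := by
        refine pol_ext _ _ (fun r => ?_) f2
        exact (AlgHom.commutes _ r).trans (AlgHom.commutes _ r).symm
      exact DFunLike.congr_fun h6 r
    have h2 : (f : Localization.Away P →+* D) = g := by
      refine IsLocalization.ringHom_ext (Submonoid.powers P) (RingHom.ext fun x => ?_)
      exact DFunLike.congr_fun h1 x
    exact AlgHom.coe_ringHom_injective h2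

/-- the closed part and the open part of `C` -/
theorem strat {k : Type} [Field k] {C : Type} [CommRing C] [Algebra k C] (a : C) :
    FMO.Strat (k := k) a (Ideal.Quotient.mkₐ k (Ideal.span {a}))
    (IsScalarTower.toAlgHom k C (Localization.Away a)) where
  surj := Ideal.Quotient.mkₐ_surjective k _
  ker := by
    ext x
    exact Ideal.Quotient.eq_zero_iff_mem
  away := by
    have e : (IsScalarTower.toAlgHom k C (Localization.Away a)).toRingHom.toAlgebra =
        (inferInstance : Algebra C (Localization.Away a)) :=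
      Algebra.algebra_ext _ _ fun r => rfl
    rw [e]
    infer_instance

theorem ft_quot {k : Type} [Field k] {C : Type} [CommRing C] [Algebra k C]
    [Algebra.FiniteType k C] (a : C) : Algebra.FiniteType k (C ⧸ Ideal.span {a}) :=
  Algebra.FiniteType.of_surjective (Ideal.Quotient.mkₐ k (Ideal.span {a}))
    (Ideal.Quotient.mkₐ_surjective k _)

theorem ft_loc {k : Type} [Field k] {C : Type} [CommRing C] [Algebra k C]
    [Algebra.FiniteType k C] (a : C) : Algebra.FiniteType k (Localization.Away a) := by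
  have h1 : Algebra.FiniteType C (Localization.Away a) := inferInstance
  exact Algebra.FiniteType.trans (S := C) inferInstance h1

theorem E1.map {q : ℕ} {κ ρ : A} {B D : Type} [CommRing B] [Algebra A B] [CommRing D]
    [Algebra A D] {b : Fin 3 → B} (h : E1 q κ ρ B b) (f : B →ₐ[A] D) {d : Fin 3 → D}
    (hd : ∀ i, f (b i) = d i) : E1 q κ ρ D d := by
  unfold E1 at h ⊢
  have h1 := congrArg f h
  rw [map_sub, map_pow, map_add, map_mul, map_mul, map_sub, map_pow, AlgHom.commutes,
    AlgHom.commutes, hd, hd, hd] at h1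
  exact h1

theorem toZ {q : ℕ} {κ ρ : A} {B : Type} [CommRing B] [Algebra A B] {b : Fin 3 → B}
    (h : UP A (E1 q κ ρ) B b) (δ : B) (hδ : δ = b 1 ^ (q ^ 2) - b 1) :
    UP A (EZ q κ ρ) (B ⧸ Ideal.span {δ}) (fun i => Ideal.Quotient.mk (Ideal.span {δ}) (b i)) := by
  refine (h.quot δ).congr fun D _ _ d => ⟨?_, ?_⟩
  · rintro ⟨f, hf, hfδ⟩
    refine ⟨h.sat.map f hf, ?_⟩
    rw [hδ, map_sub, map_pow, hf] at hfδ
    exact hfδ
  · rintro ⟨h1, h2⟩
    obtain ⟨f, hf⟩ := h.lift D d h1
    refine ⟨f, hf, ?_⟩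
    rw [hδ, map_sub, map_pow, hf, h2]

theorem toU {q : ℕ} {κ ρ : A} {B : Type} [CommRing B] [Algebra A B] {b : Fin 3 → B}
    (h : UP A (E1 q κ ρ) B b) (δ : B) (hδ : δ = b 1 ^ (q ^ 2) - b 1) :
    UP A (EU q κ ρ) (Localization.Away δ) (fun i => algebraMap B (Localization.Away δ) (b i)) := by
  refine (h.loc δ).congr fun D _ _ d => ⟨?_, ?_⟩
  · rintro ⟨f, hf, hfδ⟩
    refine ⟨h.sat.map f hf, ?_⟩
    rw [hδ, map_sub, map_pow, hf] at hfδ
    exact hfδ
  · rintro ⟨h1, h2⟩
    obtain ⟨f, hf⟩ := h.lift D d h1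
    refine ⟨f, hf, ?_⟩
    rw [hδ, map_sub, map_pow, hf]
    exact h2

end HPBAux

open HPBAux in
theorem t_HPB : M_HPB := by
  intro hFQ hSPL p q K _ hK κ hκ0 hκ Q hQ hQF A _ _ _ ρ hA hAS
  obtain ⟨-, -, -, -, ⟨s, hs⟩, -⟩ := hFQ p q K hK
  have hq : q ≠ 0 := by
    obtain ⟨ν, -, rfl⟩ := hK.pow
    exact pow_ne_zero _ hK.pr.ne_zero
  have hκ' : algebraMap K A κ ^ q = -algebraMap K A κ := by rw [← map_pow, hκ, map_neg]
  have hκu : IsUnit (algebraMap K A κ) := (IsUnit.mk0 κ hκ0).map _
  have hF : Frob q A := frob hK A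
  -- products of linear factors
  have hprod : ∀ (T : Type) [CommRing T] [Algebra K T] [Algebra.FiniteType K T], Q T →
      Q (AdjoinRoot (X ^ (q ^ 2) - X : T[X])) := by
    intro T _ _ _ hT
    have h := hSPL K Q hQ T hT s
    have e : (s.map fun a => (X - C (algebraMap K T a) : T[X])).prod = X ^ (q ^ 2) - X := by
      have h1 := congrArg (Polynomial.mapRingHom (algebraMap K T)) hs
      rw [map_sub, map_pow, map_list_prod, List.map_map] at h1
      simp only [coe_mapRingHom, map_X] at h1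
      rw [h1]
      congr 1
      refine List.map_congr_left fun a _ => ?_
      simp
    have hcast : ∀ P P' : T[X], P = P' → Q (AdjoinRoot P) → Q (AdjoinRoot P') := by
      rintro P _ rfl h
      exact h
    exact hcast _ _ e h
  have hα : (κ • (MvPolynomial.X 0 ^ q * MvPolynomial.X 1 +
      MvPolynomial.X 0 * MvPolynomial.X 1 ^ q) + MvPolynomial.C ρ : MvPolynomial (Fin 2) A) =
      MvPolynomial.C (algebraMap K A κ) * (MvPolynomial.X 0 ^ q * MvPolynomial.X 1 +
      MvPolynomial.X 0 * MvPolynomial.X 1 ^ q) + MvPolynomial.C ρ := by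
    rw [Algebra.smul_def]
    rfl
  suffices hmain : ∀ α : MvPolynomial (Fin 2) A,
      α = MvPolynomial.C (algebraMap K A κ) * (MvPolynomial.X 0 ^ q * MvPolynomial.X 1 +
      MvPolynomial.X 0 * MvPolynomial.X 1 ^ q) + MvPolynomial.C ρ → Q (AS q α) from
    hmain _ hα
  clear hα
  intro α hα
  rcases subsingleton_or_nontrivial (AS q α) with hR | hR
  · exact hQ.triv _ hR
  -- the free extension
  have hmon : (X ^ q - C (AdjoinRoot.of (ap q α) (MvPolynomial.X 1)) : (AS q α)[X]).Monic :=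
    monic_X_pow_sub_C _ hq
  obtain ⟨P, hP⟩ : ∃ P : (AS q α)[X], P = X ^ q - C (AdjoinRoot.of (ap q α) (MvPolynomial.X 1)) :=
    ⟨_, rfl⟩
  have hmon' : P.Monic := hP ▸ hmon
  have hdeg : P.natDegree = q := by rw [hP, natDegree_X_pow_sub_C]
  have i1 : Module.Free (AS q α) (AdjoinRoot P) := hmon'.free_adjoinRoot
  have i2 : Module.Finite (AS q α) (AdjoinRoot P) := hmon'.finite_adjoinRoot
  refine hQF (AS q α) (AdjoinRoot P) ?_ ?_
  · rw [(AdjoinRoot.powerBasis' hmon').finrank]
    show 0 < P.natDegree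
    rw [hdeg]
    exact Nat.pos_of_ne_zero hq
  -- the gluing
  have hup := up_R hF hκ' α hα P hP
  obtain ⟨δ, hδ⟩ : ∃ δ : AdjoinRoot P, δ = AdjoinRoot.root P ^ (q ^ 2) - AdjoinRoot.root P :=
    ⟨_, rfl⟩
  have j1 : Algebra.FiniteType K (AdjoinRoot P ⧸ Ideal.span {δ}) := ft_quot δ
  have j2 : Algebra.FiniteType K (Localization.Away δ) := ft_loc δ
  refine hQ.glue δ (Ideal.Quotient.mkₐ K (Ideal.span {δ}))
    (IsScalarTower.toAlgHom K (AdjoinRoot P) (Localization.Away δ)) (strat δ) ?_ ?_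
  · obtain ⟨e⟩ := (up_Z q (algebraMap K A κ) ρ (X ^ (q ^ 2) - X) rfl).equiv (toZ hup δ hδ)
    exact hQ.iso (e.restrictScalars K) (hprod _ (hQ.line _ hAS))
  · obtain ⟨b, hb⟩ := up_U q hκu ρ (X ^ (q ^ 2) - X) rfl
    obtain ⟨e⟩ := hb.equiv (toU hup δ hδ)
    have j3 : Algebra.FiniteType K (Localization.Away (X ^ (q ^ 2) - X : A[X][X])) := ft_loc _
    refine hQ.iso (e.restrictScalars K) ?_
    have j4 : Algebra.FiniteType K (A[X][X] ⧸ Ideal.span {(X ^ (q ^ 2) - X : A[X][X])}) :=
      ft_quot _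
    have hst := strat (k := K) (X ^ (q ^ 2) - X : A[X][X])
    exact hQ.opn _ _ _ hst (hQ.line _ (hQ.line _ hA)) (hprod A[X] (hQ.line _ hA))

end Pool.Agent.FMS
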