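import Pool.Agent.Lib_helper55.Beil.Defs
import Pool.Agent.LFQ.Coh

/-!
# Equations with few terms, quadratic equations and Weil-etale motivic (co)homology: definitions

Everything which the final statement uses is defined in this file, except for the varieties and the
dimension of points (`Pool/Agent/Lib_helper55/Beil/Defs.lean`) and the cohomology `Coh` of one smooth
projective variety (`Pool/Agent/LFQ/Coh.lean`).
-/

set_option autoImplicit false

open CategoryTheory AlgebraicGeometry Polynomial

namespace FTS

open Pool.Agent.Lib_helper55.Beil (Var)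
open LFQ (Coh Zp Tors)

universe v

variable {k : Type} [Field k]

/-! ## Points and morphisms -/

/-- The points of a variety. -/
def Pt (X : Var k) : Type := X.X

/-- The variety `X` has dimension at most `n`. -/
def DimLE (X : Var k) (n : ℕ) : Prop := ∀ x : Pt X, X.dim x ≤ n

/-- The generic point of an integral variety. -/
noncomputable def gp (X : Var k) (h : IsIntegral X.X) : Pt X := genericPoint X.X

/-- The integral variety `X` has dimension `d`. -/
def IDim (X : Var k) (d : ℕ) : Prop := ∃ h : IsIntegral X.X, X.dim (gp X h) = d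

/-- A morphism of varieties. -/
structure Mo (X Y : Var k) where
  /-- the morphism of schemes -/
  g : X.X ⟶ Y.X
  comm : g ≫ Y.f = X.f

/-- The image of a point. -/
def im {X Y : Var k} (f : Mo X Y) (x : Pt X) : Pt Y := f.g x

/-- The morphism is a closed immersion. -/
def Mo.Cl {X Y : Var k} (f : Mo X Y) : Prop := IsClosedImmersion f.g

/-- The morphism is an open immersion. -/
def Mo.Op {X Y : Var k} (f : Mo X Y) : Prop := LocallyRingedSpace.IsOpenImmersion f.g.toLRSHom

/-- The morphism is proper. -/
def Mo.Pr {X Y : Var k} (f : Mo X Y) : Prop := IsProper f.g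

/-- The morphism is finite, etale and surjective. -/
def Mo.Et {X Y : Var k} (f : Mo X Y) : Prop := IsFinite f.g ∧ Etale f.g ∧ Surjective f.g

/-- The morphism `h` is the composition of `f` and `g`. -/
def Co {X Y Z : Var k} (f : Mo X Y) (g : Mo Y Z) (h : Mo X Z) : Prop := f.g ≫ g.g = h.g

/-- The morphism `f` is the identity. -/
def Mo.One {X : Var k} (f : Mo X X) : Prop := f.g = 𝟙 X.X

/-- The morphism `s` is a section of `q`. -/
def Sec {Y X : Var k} (q : Mo Y X) (s : Mo X Y) : Prop := s.g ≫ q.g = 𝟙 X.X

/-- The square is commutative. -/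
def Sq {A B C D : Var k} (a : Mo A B) (b : Mo A C) (c : Mo B D) (d : Mo C D) : Prop :=
  a.g ≫ c.g = b.g ≫ d.g

/-- The square is cartesian. -/
def Ca {A B C D : Var k} (a : Mo A B) (b : Mo A C) (c : Mo B D) (d : Mo C D) : Prop :=
  IsPullback a.g b.g c.g d.g

/-- `a` is a closed immersion, `j` is an open immersion, and their images are complementary. -/
def Compl {Z U X : Var k} (a : Mo Z X) (j : Mo U X) : Prop :=
  a.Cl ∧ j.Op ∧ ∀ x : Pt X, (∃ z, im a z = x) ↔ ¬ ∃ u, im j u = x

/-- `q` is the projection of the product of `X` and the affine line. -/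
def Mo.Line {Y X : Var k} (q : Mo Y X) : Prop :=
  ∃ t : Y.X ⟶ Spec (CommRingCat.of k[X]),
    IsPullback q.g t X.f (Spec.map (CommRingCat.ofHom (algebraMap k k[X])))

/-- `q` is, locally on `X`, the projection of the product with the affine line (for example the
projection of a line bundle). -/
def Mo.Bun {Y X : Var k} (q : Mo Y X) : Prop :=
  ∀ x : Pt X, ∃ (W V : Var k) (L : Mo W V) (l : Mo W Y) (j : Mo V X),
    L.Line ∧ l.Op ∧ j.Op ∧ Ca L l j q ∧ ∃ v, im j v = x

/-- `f` is a Galois covering: for all field-valued points `x`, `y` of `V` with the same image in `U` there is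
exactly one `g` with `s_g(x) = y`. -/
def Gal {V U : Var k} (f : Mo V U) {G : Type} (s : G → Mo V V) : Prop :=
  f.Et ∧ (∀ g, Co (s g) f f) ∧ ∀ (L : Type) [Field L] (x y : Spec (CommRingCat.of L) ⟶ V.X),
    x ≫ f.g = y ≫ f.g → ∃! g, x ≫ (s g).g = y

/-! ## Affine varieties -/

section Affine

variable (k) (A : Type) [CommRing A] [Algebra k A] [Algebra.FiniteType k A]

/-- The spectrum of an algebra. -/
noncomputable def sp : Var k where
  X := Spec (CommRingCat.of A)
  f := Spec.map (CommRingCat.ofHom (algebraMap k A))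
  sep := inferInstance
  lft := (HasRingHomProperty.Spec_iff (P := @LocallyOfFiniteType)).2
    (RingHom.finiteType_algebraMap.2 inferInstance)
  qc := inferInstance

/-- The projection `Spec C → Spec A`. -/
noncomputable def fm (C : Type) [CommRing C] [Algebra k C] [Algebra.FiniteType k C] [Algebra A C]
    [IsScalarTower k A C] : Mo (sp k C) (sp k A) where
  g := Spec.map (CommRingCat.ofHom (algebraMap A C))
  comm := by
    change Spec.map _ ≫ Spec.map _ = Spec.map _
    rw [← Spec.map_comp, ← CommRingCat.ofHom_comp, IsScalarTower.algebraMap_eq k A C]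

/-- The polynomial `t ^ 2 + b t + c`. -/
noncomputable def dp {A : Type} [CommRing A] (b c : A) : A[X] := X ^ 2 + C b * X + C c

lemma dp_monic {A : Type} [CommRing A] (b c : A) : (dp b c).Monic := by
  unfold dp
  monicity!

lemma ft_dp {A : Type} [CommRing A] [Algebra k A] [Algebra.FiniteType k A] (b c : A) :
    Algebra.FiniteType k (AdjoinRoot (dp b c)) := by
  have : Module.Finite A (AdjoinRoot (dp b c)) := (dp_monic b c).finite_adjoinRoot
  exact Algebra.FiniteType.trans (S := A) inferInstance inferInstance

/-- The spectrum of `A[t] / (t ^ 2 + b t + c)`. -/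
noncomputable def sdbl (b c : A) : Var k := @sp k _ (AdjoinRoot (dp b c)) _ _ (ft_dp k b c)

/-- The projection of the double cover. -/
noncomputable def dm (b c : A) : Mo (sdbl k A b c) (sp k A) where
  g := Spec.map (CommRingCat.ofHom (AdjoinRoot.of (dp b c)))
  comm := by
    change Spec.map _ ≫ Spec.map _ = Spec.map _
    rw [← Spec.map_comp, ← CommRingCat.ofHom_comp]
    rfl

/-- The morphism `s` is the involution `t ↦ - b - t` of the double cover. -/
def Invo (b c : A) (s : Mo (sdbl k A b c) (sdbl k A b c)) : Prop :=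
  ∃ h : AdjoinRoot (dp b c) →+* AdjoinRoot (dp b c),
    (∀ a, h (AdjoinRoot.of (dp b c) a) = AdjoinRoot.of (dp b c) a) ∧
    h (AdjoinRoot.root (dp b c)) = - AdjoinRoot.of (dp b c) b - AdjoinRoot.root (dp b c) ∧
    s.g = Spec.map (CommRingCat.ofHom h)

/-- The subvariety `f = 0` of the spectrum of `A`. -/
noncomputable def squo {ι : Type} (f : ι → A) : Var k := sp k (A ⧸ Ideal.span (Set.range f))

/-- The subvariety `f = 0` of the affine space over `A`. -/
noncomputable def szer {n : ℕ} {ι : Type} (f : ι → MvPolynomial (Fin n) A) : Var k :=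
  sp k (MvPolynomial (Fin n) A ⧸ Ideal.span (Set.range f))

/-- The variety `y ^ 2 - y = t_0 f_0 + ... + t_(m-1) f_(m-1)`. -/
noncomputable def sas {m : ℕ} (f : Fin m → A) : Var k :=
  sdbl k (MvPolynomial (Fin m) A) (-1) (-∑ j, MvPolynomial.X j * MvPolynomial.C (f j))

/-- The double cover `t ^ 2 = (-1) ^ m a_0 ... a_(n-1)`. -/
noncomputable def sdia (m : ℕ) {n : ℕ} (a : Fin n → A) : Var k :=
  sdbl k A 0 ((-1) ^ (m + 1) * ∏ j, a j)

/-- The quadric cone `a_0 x_0 ^ 2 + ... + a_(n-1) x_(n-1) ^ 2 = 0` over `A`. -/
noncomputable def cone {n : ℕ} (a : Fin n → A) : Var k :=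
  szer k A fun _ : Fin 1 => ∑ j, MvPolynomial.C (a j) * MvPolynomial.X j ^ 2

end Affine

/-- All `a j` are units. -/
def Units {A : Type} [CommRing A] {n : ℕ} (a : Fin n → A) : Prop := ∀ j, IsUnit (a j)

/-! ## Projective varieties -/

attribute [local instance] MvPolynomial.gradedAlgebra

/-- The grading of `R[x_0, ..., x_n]`. -/
noncomputable abbrev gr (R : Type) [CommRing R] (n : ℕ) :
    ℕ → Submodule R (MvPolynomial (Fin (n + 1)) R) :=
  MvPolynomial.homogeneousSubmodule (Fin (n + 1)) R

/-- The projective space `Proj R[x_0, ..., x_n]`. -/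
noncomputable abbrev PS (R : Type) [CommRing R] (n : ℕ) : Scheme.{0} := Proj (gr R n)

/-- The structure morphism of the projective space over `k`. -/
noncomputable def psf (k R : Type) [Field k] [CommRing R] [Algebra k R] (n : ℕ) :
    PS R n ⟶ Spec (CommRingCat.of k) :=
  Proj.toSpecZero (gr R n) ≫ Spec.map (CommRingCat.ofHom
    ((algebraMap R (gr R n 0)).comp (algebraMap k R)))

/-- The homogeneous polynomials `f j` vanish at the point `p`. -/
def VanAt {R : Type} [CommRing R] {n : ℕ} {ι : Type} (f : ι → MvPolynomial (Fin (n + 1)) R)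
    (p : ProjectiveSpectrum (gr R n)) : Prop := ∀ j, f j ∈ p.asHomogeneousIdeal.toIdeal

/-- `X` is a closed subvariety of the projective space over `R` which is, up to nilpotents, defined by
the homogeneous polynomials `f j`. -/
def PSub (k : Type) [Field k] {R : Type} [CommRing R] [Algebra k R] {n : ℕ} {ι : Type}
    (f : ι → MvPolynomial (Fin (n + 1)) R) (X : Var k) : Prop :=
  ∃ g : X.X ⟶ PS R n, IsClosedImmersion g ∧ g ≫ psf k R n = X.f ∧
    ∀ p : ProjectiveSpectrum (gr R n), (∃ x : X.X, g x = p) ↔ VanAt f p

/-- `Y` is a smooth projective integral variety of dimension `d`. -/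
def SPj (Y : Var k) (d : ℕ) : Prop :=
  Smooth Y.f ∧ IDim Y d ∧
    ∃ (n : ℕ) (g : Y.X ⟶ PS k n), IsClosedImmersion g ∧ g ≫ psf k k n = Y.f

/-! ## Homology theories -/

/-- Modules `H i n X` over the ring `Λ`, with their maps; the example is the Weil-etale Borel-Moore
motivic homology `H_n^W(X, ℤ(i)) ⊗ ℤ_ℓ`, that is the cohomology of the cone of `1 - F` on the etale
Borel-Moore motivic homology of `Xbar`.  The push-forward is used for proper morphisms, the pull-back
for open immersions, finite etale and finite free coverings, the pull-back `lb` for line bundles, the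
boundary map for complementary closed and open subvarieties. -/
structure BM (k : Type) [Field k] (Λ : Type) [CommRing Λ] where
  /-- the homology groups -/
  H : ℤ → ℤ → Var k → ModuleCat.{v} Λ
  /-- push-forward -/
  pf : ∀ (i n : ℤ) {X Y : Var k}, Mo X Y → (H i n X →ₗ[Λ] H i n Y)
  /-- pull-back -/
  pb : ∀ (i n : ℤ) {X Y : Var k}, Mo X Y → (H i n Y →ₗ[Λ] H i n X)
  /-- pull-back to a line bundle -/
  lb : ∀ (i n : ℤ) {Y X : Var k}, Mo Y X → (H i n X →ₗ[Λ] H (i + 1) (n + 2) Y)
  /-- boundary map -/
  bd : ∀ (i n : ℤ) {Z U X : Var k}, Mo Z X → Mo U X → (H i (n + 1) U →ₗ[Λ] H i n Z)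

section Theory

variable {Λ : Type} [CommRing Λ] (T : BM.{v} k Λ) {i n : ℤ}

/-- Push-forward. -/
def BM.P {X Y : Var k} (f : Mo X Y) (m : T.H i n X) : T.H i n Y := T.pf i n f m

/-- Pull-back. -/
def BM.R {X Y : Var k} (f : Mo X Y) (m : T.H i n Y) : T.H i n X := T.pb i n f m

/-- Pull-back to a line bundle. -/
def BM.V {Y X : Var k} (q : Mo Y X) (m : T.H i n X) : T.H (i + 1) (n + 2) Y := T.lb i n q m

/-- Boundary. -/
def BM.B {Z U X : Var k} (a : Mo Z X) (j : Mo U X) (u : T.H i (n + 1) U) : T.H i n Z :=
  T.bd i n a j u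

/-- All homology groups of `X` are finitely generated. -/
def BM.FG (X : Var k) : Prop := ∀ i n : ℤ, Module.Finite Λ (T.H i n X)

/-- The push-forward along proper morphisms. -/
structure BM.Push : Prop where
  one : ∀ (i n : ℤ) {X : Var k} (f : Mo X X), f.One → ∀ m : T.H i n X, T.P f m = m
  comp : ∀ (i n : ℤ) {X Y Z : Var k} (f : Mo X Y) (g : Mo Y Z) (h : Mo X Z), f.Pr → g.Pr →
    Co f g h → ∀ m : T.H i n X, T.P g (T.P f m) = T.P h m
  base : ∀ (i n : ℤ) {U' X' U X : Var k} (j' : Mo U' X') (f' : Mo U' U) (f : Mo X' X)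
    (j : Mo U X), f.Pr → j.Op → Ca j' f' f j → ∀ m : T.H i n X', T.R j (T.P f m) = T.P f' (T.R j' m)
  clopen : ∀ (i n : ℤ) {Z X : Var k} (a : Mo Z X), a.Cl → a.Op → ∀ m : T.H i n Z,
    T.R a (T.P a m) = m
  boundary : ∀ (i n : ℤ) {Z' U' X' Z U X : Var k} (a' : Mo Z' X') (j' : Mo U' X') (a : Mo Z X)
    (j : Mo U X) (r : Mo Z' Z) (s : Mo U' U) (f : Mo X' X), Compl a' j' → Compl a j → r.Pr → s.Pr →
    f.Pr → Sq a' r f a → Sq j' s f j →
    ∀ u : T.H i (n + 1) U', T.P r (T.B a' j' u) = T.B a j (T.P s u)

/-- The localisation sequences are exact. -/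
structure BM.Loc : Prop where
  atX : ∀ (i n : ℤ) {Z U X : Var k} (a : Mo Z X) (j : Mo U X), Compl a j →
    ∀ m : T.H i n X, T.R j m = 0 ↔ ∃ z : T.H i n Z, T.P a z = m
  atZ : ∀ (i n : ℤ) {Z U X : Var k} (a : Mo Z X) (j : Mo U X), Compl a j →
    ∀ z : T.H i n Z, T.P a z = 0 ↔ ∃ u : T.H i (n + 1) U, T.B a j u = z
  atU : ∀ (i n : ℤ) {Z U X : Var k} (a : Mo Z X) (j : Mo U X), Compl a j →
    ∀ u : T.H i (n + 1) U, T.B a j u = 0 ↔ ∃ m : T.H i (n + 1) X, T.R j m = u

/-- The pull-back along line bundles: homotopy invariance, base change. -/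
structure BM.Bundles : Prop where
  bij : ∀ (i n : ℤ) {Y X : Var k} (q : Mo Y X), q.Bun →
    Function.Bijective (T.V q : T.H i n X → T.H (i + 1) (n + 2) Y)
  push : ∀ (i n : ℤ) {Y X Y' X' : Var k} (q : Mo Y X) (q' : Mo Y' X') (r : Mo Y' Y) (s : Mo X' X),
    q.Bun → s.Pr → Ca q' r s q → ∀ m : T.H i n X', T.V q (T.P s m) = T.P r (T.V q' m)

/-- The push-forward of the pull-back along the covering `f` is the multiplication by `D`. -/
def BM.Deg {V U : Var k} (f : Mo V U) (D : ℕ) : Prop :=
  ∀ (i n : ℤ) (m : T.H i n U), T.P f (T.R f m) = (D : Λ) • m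

/-- The pull-back along coverings. -/
structure BM.Cov : Prop where
  etale : ∀ {V U : Var k} (f : Mo V U), f.Et → IsIntegral U.X → ∃ D : ℕ, D ≠ 0 ∧ T.Deg f D
  /-- Galois coverings -/
  gal : ∀ (i n : ℤ) {V U : Var k} (f : Mo V U) (G : Type) [Fintype G] (s : G → Mo V V), Gal f s →
    ∀ m : T.H i n V, T.R f (T.P f m) = ∑ g, T.P (s g) m
  /-- a finite free algebra `C` over `A` -/
  free : ∀ (A C : Type) [CommRing A] [Algebra k A] [Algebra.FiniteType k A] [CommRing C]
    [Algebra k C] [Algebra.FiniteType k C] [Algebra A C] [IsScalarTower k A C] [Module.Free A C]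
    [Module.Finite A C], T.Deg (fm k A C) (Module.finrank A C)
  /-- the involution `s` of a double cover -/
  inv : ∀ (i n : ℤ) (A : Type) [CommRing A] [Algebra k A] [Algebra.FiniteType k A] (b c : A)
    (s : Mo (sdbl k A b c) (sdbl k A b c)), Invo k A b c s → ∀ m : T.H i n (sdbl k A b c),
      T.R (dm k A b c) (T.P (dm k A b c) m) = m + T.P s m

/-- Finiteness theorems. -/
structure BM.Finiteness : Prop where
  empty : ∀ (i n : ℤ) (X : Var k), IsEmpty (Pt X) → Subsingleton (T.H i n X)
  /-- the homology modulo `D` is finitely generated (finite coefficients) -/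
  quot : ∀ (i n : ℤ) (X : Var k) (D : ℕ), D ≠ 0 → ∃ N : Submodule Λ (T.H i n X), N.FG ∧
    ∀ m : T.H i n X, ∃ m' : T.H i n X, m - (D : Λ) • m' ∈ N
  /-- twists larger than the dimension: the rational motivic homology vanishes (weights) -/
  large : ∀ (i n : ℤ) (d : ℕ) (X : Var k), DimLE X d → (d : ℤ) < i → Module.Finite Λ (T.H i n X)
  /-- curves (Harder, Quillen, Grayson) -/
  curves : ∀ X : Var k, DimLE X 1 → T.FG X

/-- The published properties of the homology which are used. -/
structure BM.Pub : Prop where
  push : T.Push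
  loc : T.Loc
  bundles : T.Bundles
  cov : T.Cov
  fin : T.Finiteness

end Theory

/-- The cohomology of all smooth projective integral varieties `Y` over `k`: `C^i = H^i(Ybar, ℤ(n))`,
`H^i = H_W^i(Y, ℤ(n))`, and so on; `C^(2n+1)` is torsion, and `H_W^i(Y, ℤ(n)) ⊗ ℤ_ℓ` is the homology
group `T.H (d - n) (2 d - i) Y`. -/
structure Fam (k : Type) [Field k] (ℓ : Nat.Primes) (T : BM.{v} k (Zp ℓ)) where
  /-- the cohomology -/
  coh : ∀ {Y : Var k} {d : ℕ}, SPj Y d → Coh
  char : ∀ {Y : Var k} {d : ℕ} (h : SPj Y d), CharP k (coh h).p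
  dim : ∀ {Y : Var k} {d : ℕ} (h : SPj Y d), (coh h).d = d
  above : ∀ {Y : Var k} {d : ℕ} (h : SPj Y d) (n : ℕ)
    (x : (((coh h).W n).C (2 * (n : ℤ) + 1)).T), Tors x
  comp : ∀ {Y : Var k} {d : ℕ} (h : SPj Y d) (n : ℕ) (i : ℤ),
    Nonempty (T.H ((d : ℤ) - n) (2 * (d : ℤ) - i) Y ≃ₗ[Zp ℓ] (((coh h).W n).H i).tens ℓ)

/-- `L^n(Y)` for all `n`: all groups `H_W^i(Y, ℤ(n))` are finitely generated. -/
def Fam.L {ℓ : Nat.Primes} {T : BM.{v} k (Zp ℓ)} (F : Fam k ℓ T) {Y : Var k} {d : ℕ}
    (h : SPj Y d) : Prop := ∀ n : ℕ, (F.coh h).L n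

/-! ## The class of varieties built from a given class -/

/-- The class of varieties over `k` which is built from the varieties with the property `B`. -/
inductive Bld (B : Var k → Prop) : Var k → Prop
  /-- the varieties with the property `B` -/
  | base (X : Var k) : B X → Bld B X
  /-- the empty variety -/
  | empty (X : Var k) : IsEmpty (Pt X) → Bld B X
  /-- isomorphic varieties -/
  | iso {X Y : Var k} (f : Mo X Y) : IsIso f.g → Bld B X → Bld B Y
  /-- `X` is the disjoint union of the closed subvariety `Z` and the open subvariety `U` -/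
  | paste {Z U X : Var k} (a : Mo Z X) (j : Mo U X) : Compl a j → Bld B Z → Bld B U → Bld B X
  /-- the complement `U` of the closed subvariety `Z` of `X` -/
  | cut {Z U X : Var k} (a : Mo Z X) (j : Mo U X) : Compl a j → Bld B X → Bld B Z → Bld B U
  /-- the complement `Z` of the open subvariety `U` of `X` -/
  | third {Z U X : Var k} (a : Mo Z X) (j : Mo U X) : Compl a j → Bld B X → Bld B U → Bld B Z
  /-- the product with the affine line -/
  | line (A : Type) [CommRing A] [Algebra k A] [Algebra.FiniteType k A] :
      Bld B (sp k A) → Bld B (sp k A[X])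
  /-- descent from the product `Y` of `X` and the affine line to `X` -/
  | unline {Y X : Var k} (q : Mo Y X) : q.Line → Bld B Y → Bld B X
  /-- descent along a finite free covering `Spec C → Spec A` -/
  | free (A C : Type) [CommRing A] [Algebra k A] [Algebra.FiniteType k A] [CommRing C]
      [Algebra k C] [Algebra.FiniteType k C] [Algebra A C] [IsScalarTower k A C]
      [Module.Free A C] [Module.Finite A C] : 0 < Module.finrank A C →
      Bld B (sp k C) → Bld B (sp k A)
  /-- descent along the finite etale covering `V → U` of an integral variety -/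
  | etale {V U : Var k} (f : Mo V U) : f.Et → IsIntegral U.X → Bld B V → Bld B U
  /-- the base `X` of a line bundle `Y → X`, if the complement `U` of the section `s` belongs to the
  class -/
  | bundle {Y X U : Var k} (q : Mo Y X) (s : Mo X Y) (j : Mo U Y) :
      q.Bun → Sec q s → Compl s j → Bld B U → Bld B X
  /-- the quadric cone `a_0 x_0 ^ 2 + ... + a_2m x_2m ^ 2 = 0` over `Spec A`, where the `a_j` are
  units of `A` -/
  | odd (A : Type) [CommRing A] [Algebra k A] [Algebra.FiniteType k A] (m : ℕ)
      (a : Fin (2 * m + 1) → A) : Units a → Bld B (sp k A) → Bld B (cone k A a)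
  /-- the quadric cone `a_0 x_0 ^ 2 + ... + a_(2m-1) x_(2m-1) ^ 2 = 0` over `Spec A`, where the `a_j` are
  units of `A`, if the double cover `t ^ 2 = (-1) ^ m a_0 ... a_(2m-1)` of `Spec A` belongs to the class
  (characteristic different from two) -/
  | even (A : Type) [CommRing A] [Algebra k A] [Algebra.FiniteType k A] (m : ℕ)
      (a : Fin (2 * m) → A) : (2 : k) ≠ 0 → Units a → Bld B (sdia k A m a) → Bld B (cone k A a)
  /-- the subvariety `f_0 = ... = f_m = 0` of `Spec A`, if the hypersurface
  `y ^ 2 - y = t_0 f_0 + ... + t_m f_m` in the product with the affine space of dimension `m + 2`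
  belongs to the class -/
  | zeros (A : Type) [CommRing A] [Algebra k A] [Algebra.FiniteType k A] (m : ℕ)
      (f : Fin (m + 1) → A) : Bld B (sas k A f) → Bld B (squo k A f)

/-! ## Fields -/

/-- A property of fields over `k`. -/
structure FP (k : Type) [Field k] where
  /-- the field `F` has the property -/
  P : ∀ (F : Type) [Field F] [Algebra k F], Prop

/-- The property `Φ` does not depend on the isomorphism class. -/
def Inv (Φ : FP k) : Prop :=
  ∀ (F F' : Type) [Field F] [Algebra k F] [Field F'] [Algebra k F'], (F ≃ₐ[k] F') → Φ.P F → Φ.P F'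

/-- The field `F` is contained in a compositum of an algebraic extension of `k` and `m` fields of
transcendence degree at most one over `k`. (`m = 0`, `m = 1`: transcendence degree at most `m`; `m = 2`,
transcendence degree two: the function fields of the surfaces dominated by products of two curves.) -/
def Comp (k : Type) [Field k] (m : ℕ) : FP k where
  P F _ _ := ∃ (L : Type) (_ : Field L) (_ : Algebra k L) (e : F →ₐ[k] L)
    (K₀ : IntermediateField k L) (K : Fin m → IntermediateField k L), Algebra.IsAlgebraic k K₀ ∧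
    (∀ j, Algebra.trdeg k (K j) ≤ 1) ∧ ∀ x, e x ∈ K₀ ⊔ ⨆ j, K j

/-- The field `F` has transcendence degree at most one over `k`, or it has transcendence degree two and the
property `Φ`. -/
def Sm (Φ : FP k) : FP k where
  P F _ _ := Algebra.trdeg k F ≤ 1 ∨ (Algebra.trdeg k F = 2 ∧ Φ.P F)

/-- The field `F` is the function field of the product of an affine variety of dimension at most one and
the affine line. -/
def Rul (k : Type) [Field k] : FP k where
  P F _ _ := ∃ (R : Type) (_ : CommRing R) (_ : IsDomain R) (_ : Algebra k R)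
    (_ : Algebra.FiniteType k R), DimLE (sp k R) 1 ∧ Nonempty (F ≃ₐ[k] FractionRing R[X])

/-- The residue field of `X` at the point `x` has the property `Φ`. -/
def At (Φ : FP k) (X : Var k) (x : Pt X) : Prop :=
  @FP.P k _ Φ (X.X.residueField x) _ (X.toResidue x).toAlgebra

/-- All residue fields of `X` have the property `Φ`. -/
def Res (Φ : FP k) (X : Var k) : Prop := ∀ x : Pt X, At Φ X x

/-- The residue field of `A` at the prime `q`. -/
abbrev Kp {A : Type} [CommRing A] (q : PrimeSpectrum A) : Type := FractionRing (A ⧸ q.asIdeal)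

/-- The value of `a` in the residue field. -/
noncomputable def val {A : Type} [CommRing A] (q : PrimeSpectrum A) (a : A) : Kp q :=
  algebraMap (A ⧸ q.asIdeal) (Kp q) (Ideal.Quotient.mk q.asIdeal a)

/-! ## Systems of equations -/

section Systems

variable {A : Type} [CommRing A] {n l r s : ℕ}

/-- The polynomial `p` is a sum of two terms `c x^a t_1^(b_1) ... t_i^(b_i)` in the variables `x` and in
the polynomials `t_j`, `j < i`. -/
def Two {m : ℕ} (t : Fin m → MvPolynomial (Fin n) A) (i : ℕ) (p : MvPolynomial (Fin n) A) : Prop :=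
  ∃ g : MvPolynomial (Fin n ⊕ Fin m) A, g.support.card ≤ 2 ∧
    (∀ j : Fin m, Sum.inr j ∈ g.vars → (j : ℕ) < i) ∧
    MvPolynomial.aeval (Sum.elim MvPolynomial.X t) g = p

/-- The system `f` over `A` needs only `m` additions, in addition to one for every equation: there are
polynomials `t_1, ..., t_m`, such that every `t_i` is a sum of two terms in the variables and the previous
`t_j`, and every `f_j` is a sum of two terms in the variables and the `t_j`. -/
def Add (m : ℕ) {ι : Type} (f : ι → MvPolynomial (Fin n) A) : Prop :=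
  ∃ t : Fin m → MvPolynomial (Fin n) A, (∀ i : Fin m, Two t i (t i)) ∧ ∀ j, Two t m (f j)

/-- The equations have at most two monomials, except for at most `m` equations with at most three
monomials. -/
def Few (m : ℕ) {ι : Type} (f : ι → MvPolynomial (Fin n) A) : Prop :=
  ∃ t : Finset ι, t.card ≤ m ∧ (∀ j ∈ t, (f j).support.card ≤ 3) ∧ ∀ j ∉ t, (f j).support.card ≤ 2

/-- The polynomial `p` is a term (or zero). -/
def Term (p : MvPolynomial (Fin n) A) : Prop := p.support.card ≤ 1

/-- The system `f_i(y) = 0`, `∑ a_j(y) x_j ^ (e_j) + c_i(y) = 0`, `i = 1, ..., s` (the sum over the `j` with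
`σ j = i`) in the variables `y_1, ..., y_n, x_1, ..., x_r`: every `x_j` occurs in one equation. -/
noncomputable def sys {ι : Type} (f : ι → MvPolynomial (Fin n) A) (σ : Fin r → Fin s)
    (a : Fin r → MvPolynomial (Fin n) A) (e : Fin r → ℕ) (c : Fin s → MvPolynomial (Fin n) A) :
    ι ⊕ Fin s → MvPolynomial (Fin (n + r)) A :=
  Sum.elim (fun i => MvPolynomial.rename (Fin.castAdd r) (f i)) fun i =>
    ∑ j with σ j = i, MvPolynomial.rename (Fin.castAdd r) (a j) *
      MvPolynomial.X (Fin.natAdd n j) ^ e j + MvPolynomial.rename (Fin.castAdd r) (c i)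

/-- The `a_j` and the `c_i` are terms, and the `e_j` are one or two. -/
def Qua (a : Fin r → MvPolynomial (Fin n) A) (e : Fin r → ℕ) (c : Fin s → MvPolynomial (Fin n) A) :
    Prop :=
  (∀ j, Term (a j)) ∧ (∀ i, Term (c i)) ∧ ∀ j, e j = 1 ∨ e j = 2

/-- The polynomial in `y`, `x` given by a polynomial in `x` whose coefficients are polynomials in `y`. -/
noncomputable def flat (g : MvPolynomial (Fin l) (MvPolynomial (Fin n) A)) :
    MvPolynomial (Fin (n + l)) A :=
  MvPolynomial.eval₂ (MvPolynomial.rename (Fin.castAdd l)).toRingHom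
    (fun j => MvPolynomial.X (Fin.natAdd n j)) g

/-- The system `f_i(y) = 0`, `g_j(y, x) = 0` in the variables `y_1, ..., y_n, x_1, ..., x_l`. -/
noncomputable def join {ι κ : Type} (f : ι → MvPolynomial (Fin n) A)
    (g : κ → MvPolynomial (Fin l) (MvPolynomial (Fin n) A)) :
    ι ⊕ κ → MvPolynomial (Fin (n + l)) A :=
  Sum.elim (fun i => MvPolynomial.rename (Fin.castAdd l) (f i)) fun j => flat (g j)

end Systems

/-- All polynomials are homogeneous of positive degree. -/
def Hom {R ι : Type} [CommRing R] {n : ℕ} (f : ι → MvPolynomial (Fin n) R) : Prop :=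
  ∀ j, ∃ d, 1 ≤ d ∧ (f j).IsHomogeneous d

/-! ## Systems of Delsarte type -/

/-- `z` assigns an integer to every monomial of every equation; the sum is zero for every equation. -/
def Rel {A : Type} [CommRing A] {n r : ℕ} (f : Fin r → MvPolynomial (Fin n) A)
    (z : Fin r → (Fin n →₀ ℕ) →₀ ℤ) : Prop :=
  (∀ j, ∀ α, z j α ≠ 0 → α ∈ (f j).support) ∧ ∀ j, ((z j).sum fun _ c => c) = 0

/-- The sum of the exponents, with the coefficients `z`. -/
noncomputable def tot {n r : ℕ} (z : Fin r → (Fin n →₀ ℕ) →₀ ℤ) : Fin n → ℤ :=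
  fun i => ∑ j, (z j).sum fun α c => c * (α i : ℤ)

/-- A system of Delsarte type over `A`, of exponent `N`: the exponents of the equations are affinely
independent (all differences of two exponents of one equation together), and the torsion of the group
`ℤ ^ n` modulo these differences is killed by `N`. -/
structure Dels (N : ℕ) {A : Type} [CommRing A] {n r : ℕ} (f : Fin r → MvPolynomial (Fin n) A) :
    Prop where
  ind : ∀ z, Rel f z → tot z = 0 → z = 0
  exp : ∀ (x : Fin n → ℤ) (t : ℤ), t ≠ 0 → (∃ z, Rel f z ∧ t • x = tot z) →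
    ∃ z, Rel f z ∧ (N : ℤ) • x = tot z

/-- The equations `1 + c_j x_j ^ N + c'_j y_j ^ N = 0`. -/
noncomputable def ferm (N : ℕ) {M : ℕ} (c c' : Fin M → k) : Fin M → MvPolynomial (Fin (M + M)) k :=
  fun j => 1 + MvPolynomial.C (c j) * MvPolynomial.X (Fin.castAdd M j) ^ N +
    MvPolynomial.C (c' j) * MvPolynomial.X (Fin.natAdd M j) ^ N

/-- `X` is a product of an affine variety `Spec A`, all residue fields of which are contained in composita
of algebraic extensions of `k` and `m` fields of transcendence degree at most one, of at most `h` affine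
Fermat curves `1 + c x ^ N + c' y ^ N = 0`, `c c' ≠ 0`, and of lines and finite sets (the equations
`1 + c x ^ N + c' y ^ N = 0` with `c c' = 0`). -/
def Over (m N h : ℕ) (X : Var k) : Prop :=
  ∃ (A : Type) (_ : CommRing A) (_ : Algebra k A) (_ : Algebra.FiniteType k A) (M : ℕ)
    (c c' : Fin M → k), Res (Comp k m) (sp k A) ∧ Nat.card {j // c j * c' j ≠ 0} ≤ h ∧
    X = szer k A fun j => MvPolynomial.map (algebraMap k A) (ferm N c c' j)

/-! ## Quadratic forms -/

/-- The matrix of second derivatives of a quadratic form. -/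
noncomputable def gram {A : Type} [CommRing A] {n : ℕ} (f : MvPolynomial (Fin n) A) :
    Matrix (Fin n) (Fin n) A :=
  fun i j => MvPolynomial.coeff 0 (MvPolynomial.pderiv i (MvPolynomial.pderiv j f))

/-- `F` is obtained from `K` by the adjunction of a square root of `b`. -/
def Root {K : Type} [Field K] (b : K) (F : Type) [Field F] [Algebra K F] : Prop :=
  ∃ t : F, t ^ 2 = algebraMap K F b ∧ IntermediateField.adjoin K {t} = ⊤

/-- The matrix `G` over the field `K` has odd rank, or a principal minor `d ≠ 0` of size the rank `r`,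
such that `K` with a square root of `(-1) ^ (r / 2) d` has the property `Φ`. -/
def Disc (Φ : FP k) {K : Type} [Field K] [Algebra k K] {n : ℕ} (G : Matrix (Fin n) (Fin n) K) :
    Prop :=
  Odd G.rank ∨ ∃ s : Finset (Fin n), s.card = G.rank ∧
    (G.submatrix (fun i : s => i.1) fun i : s => i.1).det ≠ 0 ∧
    ∀ (F : Type) [Field F] [Algebra k F] [Algebra K F] [IsScalarTower k K F],
      Root ((-1) ^ (G.rank / 2) * (G.submatrix (fun i : s => i.1) fun i : s => i.1).det) F → Φ.P F

/-- The residue field of `A` at `q` has the property `Φ`, and so has the discriminant double cover of the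
quadratic form `f` at `q`, if the rank is even. -/
def Good (Φ : FP k) {A : Type} [CommRing A] [Algebra k A] {n : ℕ} (f : MvPolynomial (Fin n) A)
    (q : PrimeSpectrum A) : Prop :=
  Φ.P (Kp q) ∧ Disc Φ ((gram f).map (val q))

/-! ## Actions of tori -/

/-- The subfield of the residue field of `A` at `q` which is generated by the Laurent monomials of
degree zero in those elements `a_i` (of degree `w_i`) which do not vanish at `q`. -/
noncomputable def Kw {n r : ℕ} {A : Type} [CommRing A] [Algebra k A] (w : Fin n → (Fin r → ℤ))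
    (a : Fin n → A) (q : PrimeSpectrum A) : IntermediateField k (Kp q) :=
  IntermediateField.adjoin k {x | ∃ α : Fin n → ℤ, (∀ i, a i ∈ q.asIdeal → α i = 0) ∧
    ∑ i, α i • w i = 0 ∧ x = ∏ i, val q (a i) ^ α i}

/-- The intermediate field `K` has the property `Φ`. -/
def Has (Φ : FP k) {F : Type} [Field F] [Algebra k F] (K : IntermediateField k F) : Prop := Φ.P K

/-- For every prime `q` of `A`, the subfield of the residue field at `q` generated by the Laurent monomials
of degree zero in those elements `a_i` (of degree `w_i`) which do not vanish at `q` has the property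
`Φ`. -/
def Sma (Φ : FP k) {n r : ℕ} {A : Type} [CommRing A] [Algebra k A] (w : Fin n → (Fin r → ℤ))
    (a : Fin n → A) : Prop :=
  ∀ q : PrimeSpectrum A, Has Φ (Kw (k := k) w a q)

/-- The zero set of polynomials `f_j` which are homogeneous for the degrees `w_i ∈ ℤ^r` of the variables
(an affine variety with an action of a torus); at every point the field generated by the Laurent
monomials of degree zero in the coordinates which do not vanish has the property `Φ`. -/
def Act (Φ : FP k) {n r : ℕ} (w : Fin n → (Fin r → ℤ)) {ι : Type}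
    (f : ι → MvPolynomial (Fin n) k) : Prop :=
  (∀ j, ∃ d : Fin r → ℤ, (f j).IsWeightedHomogeneous w d) ∧
    Sma Φ w fun i => Ideal.Quotient.mk (Ideal.span (Set.range f)) (MvPolynomial.X i)

/-! ## Results -/

/-- Families of varieties in the classes built from `B`. -/
structure Families (k : Type) [Field k] : Prop where
  point : ∀ B : Var k → Prop, (∀ X, DimLE X 0 → B X) → Bld B (sp k k)
  small : ∀ d m : ℕ, d ≤ 1 → d ≤ m → ∀ X : Var k, DimLE X d → Res (Comp k m) X
  base : ∀ (m N h : ℕ) (A : Type) [CommRing A] [Algebra k A] [Algebra.FiniteType k A],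
    Res (Comp k m) (sp k A) → Bld (Over m N h) (sp k A)
  /-- homogeneous systems over `A`: from the affine to the projective zero set -/
  proj : ∀ (B : Var k → Prop) (A : Type) [CommRing A] [Algebra k A] [Algebra.FiniteType k A]
    (n : ℕ) (ι : Type) (f : ι → MvPolynomial (Fin (n + 1)) A), Hom f → Bld B (sp k A) →
    Bld B (szer k A f) → ∀ X : Var k, PSub k f X → Bld B X
  /-- equations with at most two monomials, and `m` equations with three -/
  few : ∀ (A : Type) [CommRing A] (m n : ℕ) (ι : Type) (f : ι → MvPolynomial (Fin n) A), Few m f →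
    Add m f
  /-- one equation with at most `m + 2` monomials -/
  mono : ∀ (A : Type) [CommRing A] (m n : ℕ) (p : MvPolynomial (Fin n) A), p.support.card ≤ m + 2 →
    Add m fun _ : Fin 1 => p
  /-- a system `f` with `m` additional additions over an affine variety of dimension at most `d ≤ 1`, and
  a system `g` of Delsarte type, the coefficients of which are terms -/
  eqs : ∀ d m N h : ℕ, d ≤ 1 → 0 < N → ∀ (A : Type) [CommRing A] [Algebra k A]
    [Algebra.FiniteType k A], DimLE (sp k A) d → ∀ (n l r : ℕ) (ι : Type)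
    (f : ι → MvPolynomial (Fin n) A) (g : Fin r → MvPolynomial (Fin l) (MvPolynomial (Fin n) A)),
    Add m f → Dels N g → ∑ j, ((g j).support.card - 2) ≤ h →
    (∀ j α, Term (MvPolynomial.coeff α (g j))) → Bld (Over (m + d) N h) (szer k A (join f g))
  /-- such a system `f` and any number of equations `∑ a_j(y) x_j ^ (e_j) + c_i(y) = 0`, where the `a_j` and
  `c_i` are terms and `e_j` is one or two -/
  mix : ∀ d m : ℕ, d ≤ 1 → ∀ (A : Type) [CommRing A] [Algebra k A] [Algebra.FiniteType k A],
    DimLE (sp k A) d → ∀ (n r s : ℕ) (ι : Type) (f : ι → MvPolynomial (Fin n) A)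
    (σ : Fin r → Fin s) (a : Fin r → MvPolynomial (Fin n) A) (e : Fin r → ℕ)
    (c : Fin s → MvPolynomial (Fin n) A), Add m f → Qua a e c →
    Bld (Res (Comp k (m + d))) (szer k A (sys f σ a e c))
  /-- products without Fermat curves -/
  none : ∀ m N : ℕ, 0 < N → ∀ X : Var k, Over m N 0 X → Bld (Res (Comp k m)) X
  /-- one Fermat curve can be absorbed by the base -/
  move : ∀ m N h : ℕ, 0 < N → ∀ X : Var k, Over m N (h + 1) X → Bld (Over (m + 1) N h) X
  /-- a quadratic form over an affine variety, the points of which are small, with small discriminant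
  double covers -/
  quad : (2 : k) ≠ 0 → ∀ Φ : FP k, Inv Φ → ∀ (A : Type) [CommRing A] [Algebra k A]
    [Algebra.FiniteType k A] (n : ℕ) (f : MvPolynomial (Fin n) A), f.IsHomogeneous 2 →
    (∀ q, Good Φ f q) → Bld (Res Φ) (szer k A fun _ : Fin 1 => f)
  /-- a quadratic form over an affine variety, the residue fields of which have transcendence degree at
  most one, or transcendence degree two and the property `Φ`; in the second case the rank is odd -/
  odd : (2 : k) ≠ 0 → ∀ Φ : FP k, Inv Φ → ∀ (A : Type) [CommRing A] [Algebra k A]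
    [Algebra.FiniteType k A], Res (Sm Φ) (sp k A) → ∀ (n : ℕ) (f : MvPolynomial (Fin n) A),
    f.IsHomogeneous 2 → (∀ q : PrimeSpectrum A, Algebra.trdeg k (Kp q) = 2 →
      Odd ((gram f).map (val q)).rank) → Bld (Res (Sm Φ)) (szer k A fun _ : Fin 1 => f)
  /-- affine varieties with an action of a torus -/
  act : ∀ Φ : FP k, Inv Φ → ∀ (n r : ℕ) (w : Fin n → (Fin r → ℤ)) (ι : Type)
    (f : ι → MvPolynomial (Fin n) k), Act Φ w f → Bld (Res Φ) (szer k k f)

/-- Every integral surface is birationally equivalent to a smooth projective surface (Abhyankar). -/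
def Resol (k : Type) [Field k] : Prop :=
  ∀ U : Var k, IDim U 2 → ∃ (U' Y : Var k) (a : Mo U' U) (b : Mo U' Y),
    a.Op ∧ b.Op ∧ Nonempty (Pt U') ∧ SPj Y 2

section

variable {Λ : Type} [CommRing Λ] (T : BM.{v} k Λ)

/-- Finite generation for the smooth projective surfaces whose function field has the property `Φ`. -/
def SurfFG (Φ : FP k) : Prop :=
  ∀ (Y : Var k) (h : IsIntegral Y.X), SPj Y 2 → At Φ Y (gp Y h) → T.FG Y

/-- Finite generation for the products of affine curves and the smooth projective surfaces whose function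
field has the property `Φ`. -/
def ProdFG (Φ : FP k) : Prop :=
  ∀ (Y : Var k) (h : IsIntegral Y.X), SPj Y 2 → At Φ Y (gp Y h) → ∀ (R : Type) [CommRing R]
    [Algebra k R] [Algebra.FiniteType k R], DimLE (sp k R) 1 → ∀ (X : Var k) (q : Mo X Y)
    (t : X.X ⟶ Spec (CommRingCat.of R)),
    IsPullback q.g t Y.f (Spec.map (CommRingCat.ofHom (algebraMap k R))) → T.FG X

/-- The input for the products of `m` curves and Hermitian curves: `m = 0`: no input; `m = 1`: the
resolution of surfaces, and finite generation for surfaces; `m = 2`: in addition for the products of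
these surfaces and curves. -/
def Input (m : ℕ) : Prop :=
  (1 ≤ m → Resol k ∧ SurfFG T (Comp k 2)) ∧ (2 ≤ m → ProdFG T (Comp k 2))

/-- The results for a homology theory. -/
structure Built : Prop where
  /-- finite generation extends from `B` to the class built from `B` -/
  bld : ∀ B : Var k → Prop, (∀ X, B X → T.FG X) → ∀ X, Bld B X → T.FG X
  /-- finite generation for the class built from the varieties of dimension at most one -/
  one : ∀ m : ℕ, m ≤ 1 → ∀ X, Bld (Res (Comp k m)) X → T.FG X
  /-- any number of affine Fermat curves of degree `N ∣ p ^ a (p ^ ν + 1)` -/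
  herm : ∀ p a ν N m h : ℕ, p.Prime → CharP k p → 1 ≤ ν → N ∣ p ^ a * (p ^ ν + 1) → m ≤ 2 →
    Input T m → ∀ X, Bld (Over m N h) X → T.FG X
  /-- one affine Fermat curve of any degree -/
  three : ∀ N : ℕ, 0 < N → Input T 2 → ∀ X, Bld (Over 2 N 1) X → T.FG X
  /-- finite generation for varieties with small residue fields -/
  small : ∀ Φ : FP k, Inv Φ → Resol k → SurfFG T Φ → ∀ X, Bld (Res (Sm Φ)) X → T.FG X
  /-- finite generation for the class built from the varieties whose residue fields have transcendence
  degree at most one or are function fields of products of curves and the affine line -/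
  ruled : ∀ X, Bld (Res (Sm (Rul k))) X → T.FG X
  /-- finite generation for the class built from the varieties whose residue fields are contained in
  composita of two fields of transcendence degree at most one -/
  two : Resol k → SurfFG T (Comp k 2) → ∀ X, Bld (Res (Comp k 2)) X → T.FG X

end

/-- The question `Q1` for smooth projective varieties in the classes built from `B`. -/
structure LBuilt {ℓ : Nat.Primes} {T : BM.{v} k (Zp ℓ)} (F : Fam k ℓ T) : Prop where
  /-- `L^n(Y)` for all `n` is equivalent to finite generation of the homology of `Y` -/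
  link : ∀ (Y : Var k) (d : ℕ) (hY : SPj Y d), T.FG Y ↔ F.L hY
  bld : ∀ B : Var k → Prop, (∀ X, B X → T.FG X) → ∀ (Y : Var k) (d : ℕ) (hY : SPj Y d), Bld B Y →
    F.L hY
  /-- `Q1` for the surfaces whose function fields are contained in composita of two fields of
  transcendence degree one implies it for the class built from the varieties whose residue fields have
  this property -/
  two : Resol k → (∀ (Y : Var k) (h : IsIntegral Y.X) (hY : SPj Y 2), At (Comp k 2) Y (gp Y h) →
    F.L hY) → ∀ (Y : Var k) (d : ℕ) (hY : SPj Y d), Bld (Res (Comp k 2)) Y → F.L hY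
  /-- the same for the class built from the products of a curve and Fermat curves of degree
  `N ∣ p ^ a (p ^ ν + 1)` -/
  herm : ∀ p a ν N h : ℕ, p.Prime → CharP k p → 1 ≤ ν → N ∣ p ^ a * (p ^ ν + 1) → Resol k →
    (∀ (Y : Var k) (h : IsIntegral Y.X) (hY : SPj Y 2), At (Comp k 2) Y (gp Y h) → F.L hY) →
    ∀ (Y : Var k) (d : ℕ) (hY : SPj Y d), Bld (Over 1 N h) Y → F.L hY

end FTS
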