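import Pool.Agent.FMS.St3
import Pool.Agent.FMS.MIA

/-!
# Project FMS, module MIB: assembly for several quadratic equations, every characteristic
-/

set_option autoImplicit false

open CategoryTheory AlgebraicGeometry Polynomial

namespace Pool.Agent.FMS

open Pool.Agent.Lib_helper55.Beil (Var)
open UQ (Mo DimLE sp szer sdbl)
open FMO (Univ Few Add CompX Comp Kp)
open FMQ (FreeCl Dels Fermat ferm)
open LFQ (BM)

open MIAAux in
/-- MIB: assembly for systems with strata whose square roots have the property. -/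
theorem t_MIB : M_MIB := by
  intro hCLF hSTV hEXU hUNQ hMXM hQMM hQM2 k _ P hP hF n ι f V ι' _ f' ψ φ hφ huniv hB r s σ a e c
    ha hc he
  have hC := hCLF k P hP
  -- the algebra of the system
  have hsys : sysm f σ a e c = fun j => MvPolynomial.rename finSumFinEquiv (sym f σ a e c j) := by
    funext j
    unfold sysm sym
    rcases j with j | j
    · simp only [Sum.elim_inl, MvPolynomial.rename_rename]
      congr 1
    · simp only [Sum.elim_inr, map_add, map_sum, map_mul, map_pow, MvPolynomial.rename_rename,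
        MvPolynomial.rename_X]
      rfl
  have hR1 := FMO.t_UNI k (Fin (n + r)) (ι ⊕ Fin s) (sysm f σ a e c)
  rw [hsys] at hR1
  have hR := (hUNQ k).2 _ _ _ finSumFinEquiv (sym f σ a e c) _ _ hR1
  rw [← hsys] at hR
  -- the quotient of the polynomial ring over `A`
  have hA := FMO.t_UNI k (Fin n) ι f
  have hQ := hMXM k (Fin n) ι r s f σ a e c ∅ ∅ _ _ hA
  rw [Set.image_empty] at hQ
  obtain ⟨E1, -⟩ := (hUNQ k).1 _ _ _ _ _ _ _ _ _ hR hQ
  -- it is universal for the system with the auxiliary variables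
  obtain ⟨b, hb⟩ : ∃ b : Fin r → MvPolynomial V k,
    b = fun j => MvPolynomial.rename ψ (a j) := ⟨_, rfl⟩
  obtain ⟨c', hc'⟩ : ∃ c' : Fin s → MvPolynomial V k,
    c' = fun i => MvPolynomial.rename ψ (c i) := ⟨_, rfl⟩
  have hval : ∀ p : MvPolynomial (Fin n) k, MvPolynomial.aeval φ (MvPolynomial.rename ψ p) =
      MvPolynomial.aeval (fun v => Ideal.Quotient.mk (Ideal.span (Set.range f))
        (MvPolynomial.X v)) p := by
    intro p
    rw [MvPolynomial.aeval_rename]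
    congr 2
    funext v
    exact hφ v
  have hQ' : ∀ (α : Fin r → MvPolynomial (Fin n) k ⧸ Ideal.span (Set.range f))
      (γ : Fin s → MvPolynomial (Fin n) k ⧸ Ideal.span (Set.range f)),
      α = (fun j => MvPolynomial.aeval φ (b j)) → γ = (fun i => MvPolynomial.aeval φ (c' i)) →
      Univ (sym f' σ b e c') ∅ ∅ (QM σ α e γ)
        (Sum.elim (fun v => Ideal.Quotient.mk _ (MvPolynomial.C (φ v)))
          fun j => Ideal.Quotient.mk _ (MvPolynomial.X j)) := by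
    rintro _ _ rfl rfl
    have h1 := hMXM k _ ι' r s f' σ b e c' ∅ ∅ _ _ huniv
    rw [Set.image_empty] at h1
    exact h1
  have hQ2 := hQ' (fun j => MvPolynomial.aeval (fun v => Ideal.Quotient.mk
      (Ideal.span (Set.range f)) (MvPolynomial.X v)) (a j))
    (fun i => MvPolynomial.aeval (fun v => Ideal.Quotient.mk (Ideal.span (Set.range f))
      (MvPolynomial.X v)) (c i))
    (by rw [hb]; funext j; exact (hval _).symm) (by rw [hc']; funext i; exact (hval _).symm)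
  refine hC.iso E1.symm ?_
  refine hSTV k _ hC (V ⊕ Fin r) (ι' ⊕ Fin s) (sym f' σ b e c') (Set.range Sum.inl)
    ?_ _ _ hQ2
  intro U Z₁ hU hZ hUZ C _ _ _ ψ₁ hψ
  obtain ⟨U₀, rfl⟩ : ∃ U₀ : Set V, U = Sum.inl '' U₀ :=
    ⟨Sum.inl ⁻¹' U, (Set.image_preimage_eq_of_subset hU).symm⟩
  obtain ⟨Z₀, rfl⟩ : ∃ Z₀ : Set V, Z₁ = Sum.inl '' Z₀ :=
    ⟨Sum.inl ⁻¹' Z₁, (Set.image_preimage_eq_of_subset hZ).symm⟩
  have hUZ₀ : ∀ v, v ∈ U₀ ∨ v ∈ Z₀ := by
    intro v
    rcases hUZ (Sum.inl v) ⟨v, rfl⟩ with ⟨w, hw, hwv⟩ | ⟨w, hw, hwv⟩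
    · rw [Sum.inl_injective hwv] at hw
      exact Or.inl hw
    · rw [Sum.inl_injective hwv] at hw
      exact Or.inr hw
  obtain ⟨C₀, _, _, _, φ₀, hφ₀⟩ := hEXU k V ι' f' U₀ Z₀
  have hQ3 := hMXM k _ ι' r s f' σ b e c' U₀ Z₀ C₀ φ₀ hφ₀
  obtain ⟨E2, -⟩ := (hUNQ k).1 _ _ _ _ _ _ _ _ _ hψ hQ3
  have hv : ∀ v, Z (φ₀ v) := by
    intro v
    rcases hUZ₀ v with h | h
    · exact Or.inr (hφ₀.unit v h)
    · exact Or.inl (hφ₀.zero v h)
  have hbt : ∀ j, Trm (b j) := by
    intro j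
    rw [hb]
    exact trm_rename _ (trm_of_card (ha j))
  have hct : ∀ i, Trm (c' i) := by
    intro i
    rw [hc']
    exact trm_rename _ (trm_of_card (hc i))
  have hval2 : ∀ τ : MvPolynomial V k, Trm τ → MvPolynomial.aeval φ₀ τ = 0 ∨
      (IsUnit (MvPolynomial.aeval φ₀ τ) ∧ MvPolynomial.aeval φ₀ τ ∈ H (k := k) φ₀) := by
    intro τ hτ
    rcases Z_trm hv hτ with h | h
    · exact Or.inl h
    · exact Or.inr ⟨h, mem_H.2 ⟨τ, hτ, rfl⟩⟩
  refine hC.iso E2.symm ?_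
  have hmain : ∀ (l : ℕ) (x : Fin l → C₀), (∀ i, x i ∈ H (k := k) φ₀ ∧ IsUnit (x i)) →
      P (sp k (SQ x)) := by
    intro l x hx
    choose τ hτ hτx using fun i => mem_H.1 (hx i).1
    obtain rfl : (fun i => MvPolynomial.aeval φ₀ (τ i)) = x := funext hτx
    exact hB U₀ Z₀ hUZ₀ C₀ φ₀ hφ₀ l τ (fun i => card_of_trm (hτ i)) fun i => (hx i).2
  have hneg : (-1 : C₀) ∈ H (k := k) φ₀ := mem_H.2 ⟨-1, trm_neg_one, by rw [map_neg, map_one]⟩
  by_cases h2 : (2 : k) = 0
  · exact hQM2 k h2 P hP hF C₀ (H (k := k) φ₀) hneg hmain r s σ _ e _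
      (fun j => hval2 _ (hbt j)) (fun i => hval2 _ (hct i)) he
  · exact hQMM k h2 P hP C₀ (H (k := k) φ₀) hneg hmain r s σ _ e _
      (fun j => hval2 _ (hbt j)) (fun i => hval2 _ (hct i)) he

end Pool.Agent.FMS
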