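import Pool.Agent.FMS.St2

/-!
# Project FMS, module MID (helper21): quadratic equations over a system of Delsarte type
-/

set_option autoImplicit false

open CategoryTheory AlgebraicGeometry Polynomial

namespace Pool.Agent.FMS

open Pool.Agent.Lib_helper55.Beil (Var)
open UQ (Mo DimLE sp szer sdbl)
open FMO (Univ Few Add CompX Comp Kp)
open FMQ (FreeCl Dels Fermat ferm)
open LFQ (BM)

namespace MIDAux

/-- universality is invariant under isomorphisms -/
theorem univ_iso {k : Type} [Field k] {V ι : Type} {f : ι → MvPolynomial V k} {U Z : Set V}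
    {C C' : Type} [CommRing C] [Algebra k C] [CommRing C'] [Algebra k C'] {φ : V → C}
    (h : Univ f U Z C φ) (e : C ≃ₐ[k] C') : Univ f U Z C' (fun v => e (φ v)) where
  sat j := by
    have h2 : MvPolynomial.aeval (fun v => e (φ v)) = (e : C →ₐ[k] C').comp
        (MvPolynomial.aeval φ) := by
      refine MvPolynomial.algHom_ext fun v => ?_
      simp
    rw [h2]
    show e (MvPolynomial.aeval φ (f j)) = 0
    rw [h.sat j, map_zero]
  unit v hv := (h.unit v hv).map e
  zero v hv := by
    show e (φ v) = 0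
    rw [h.zero v hv, map_zero]
  lift D _ _ ψ h1 h2 h3 := by
    obtain ⟨g, hg⟩ := h.lift D ψ h1 h2 h3
    refine ⟨g.comp (e.symm : C' →ₐ[k] C), fun v => ?_⟩
    show g (e.symm (e (φ v))) = ψ v
    rw [e.symm_apply_apply, hg]
  ext D _ _ g g' hgg := by
    have h1 := h.ext D (g.comp (e : C →ₐ[k] C')) (g'.comp (e : C →ₐ[k] C')) (fun v => hgg v)
    refine AlgHom.ext fun x => ?_
    have h2 := congrArg (fun F : C →ₐ[k] D => F (e.symm x)) h1
    have h3 : g (e (e.symm x)) = g' (e (e.symm x)) := h2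
    rwa [e.apply_symm_apply] at h3

end MIDAux

/-- MID: quadratic equations over a system of Delsarte type. -/
theorem t_MID : M_MID := by
  intro THT DSS MIA k _ h2 P hP hF N m hN hX n r₀ f hd hm r s σ a e c ha hc he
  obtain ⟨n', r', f', ψ, hd', h3, hs, E, hE⟩ := THT k n r₀ N f hd
  refine MIA k h2 P hP n (Fin r₀) f (Fin n') (Fin r') f' ψ
    (fun v => E.symm (Ideal.Quotient.mk (Ideal.span (Set.range f')) (MvPolynomial.X v)))
    ?_ ?_ ?_ r s σ a e c ha hc he
  · intro v
    show E.symm (Ideal.Quotient.mk (Ideal.span (Set.range f')) (MvPolynomial.X (ψ v))) = _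
    rw [← hE v, E.symm_apply_apply]
  · exact MIDAux.univ_iso (FMO.t_UNI k (Fin n') (Fin r') f') E.symm
  · intro U Z hUZ C _ _ _ φ₀ hU l τ hτ hτu
    exact DSS k P hP hF N m hN hX n' r' f' hd' h3 (hs.le.trans hm) U Z hUZ C φ₀ hU l τ hτ hτu

end Pool.Agent.FMS
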