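import Pool.Agent.FMS.St3
import Pool.Agent.FMS.MID

/-!
# Project FMS, module MIE: quadratic equations over a system of Delsarte type, every characteristic
-/

set_option autoImplicit false

open CategoryTheory AlgebraicGeometry Polynomial

namespace Pool.Agent.FMS

open Pool.Agent.Lib_helper55.Beil (Var)
open UQ (Mo DimLE sp szer sdbl)
open FMO (Univ Few Add CompX Comp Kp)
open FMQ (FreeCl Dels Fermat ferm)
open LFQ (BM)

/-- MIE: quadratic equations over a system of Delsarte type. -/
theorem t_MIE : M_MIE := by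
  intro THT DSS MIB k _ P hP hF N m hN hX n r₀ f hd hm r s σ a e c ha hc he
  obtain ⟨n', r', f', ψ, hd', h3, hs, E, hE⟩ := THT k n r₀ N f hd
  refine MIB k P hP hF n (Fin r₀) f (Fin n') (Fin r') f' ψ
    (fun v => E.symm (Ideal.Quotient.mk (Ideal.span (Set.range f')) (MvPolynomial.X v)))
    ?_ ?_ ?_ r s σ a e c ha hc he
  · intro v
    show E.symm (Ideal.Quotient.mk (Ideal.span (Set.range f')) (MvPolynomial.X (ψ v))) = _
    rw [← hE v, E.symm_apply_apply]
  · exact MIDAux.univ_iso (FMO.t_UNI k (Fin n') (Fin r') f') E.symm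
  · intro U Z hUZ C _ _ _ φ₀ hU l τ hτ hτu
    exact DSS k P hP hF N m hN hX n' r' f' hd' h3 (hs.le.trans hm) U Z hUZ C φ₀ hU l τ hτ hτu

end Pool.Agent.FMS
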