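import Pool.Agent.FMS.St2

/-!
# Project FMS, module MIM: systems with few additions
-/

set_option autoImplicit false

open CategoryTheory AlgebraicGeometry Polynomial

namespace Pool.Agent.FMS

open Pool.Agent.Lib_helper55.Beil (Var)
open UQ (Mo DimLE sp szer sdbl)
open FMO (Univ Few Add CompX Comp Kp)

theorem t_MIM : M_MIM := by
  intro hRES hCIN hCLF hELN hDBM hMIA k _ h2 P hP m hm hB n r s ι f σ a e c hf ha hc he
  have hC := hCLF k P hP
  have hres : ∀ (A : Type) [CommRing A] [Algebra k A] [Algebra.FiniteType k A],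
      (∀ q : PrimeSpectrum A, Comp k m (Kp q)) → P (sp k A) := by
    intro A _ _ _ hq
    refine hB _ fun x => ?_
    obtain ⟨q, hq'⟩ := (hRES k A (fun F [Field F] [Algebra k F] => Comp k m F) (hCIN k m).1).1 x
    exact hq'.2 (hq q)
  obtain ⟨ι', f', φ, hφ, hfew, huniv⟩ := hELN k m n ι f hf
  refine hMIA k h2 P hP n ι f (Fin n ⊕ Fin m) ι' f' Sum.inl φ hφ huniv ?_ r s σ a e c ha hc he
  intro U Z hUZ C _ _ _ φ₀ hφ₀ l τ hτ hu
  exact hDBM k _ hC m hm hres _ ι' f' hfew U Z hUZ C φ₀ hφ₀ l τ hτ hu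

end Pool.Agent.FMS
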