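import Pool.Agent.FMS.St2
import Pool.Agent.FMQ.ONE

/-!
# FMS_ONT (helper9): one step of the elimination, with the values of the variables
-/

set_option autoImplicit false

open scoped Classical

namespace Pool.Agent.FMS

open FMQ (Dels)

namespace ONTAux

open MvPolynomial
open FMQ.ONEAux (nw gg mm rho fn fn_self fn_last fn_ne)

variable {k : Type} [Field k] {n r : ℕ} {f : Fin r → MvPolynomial (Fin n) k} {j : Fin r}
  {α β : Fin n →₀ ℕ}

/-- the algebras are isomorphic, with the values of the variables -/
lemma iso : ∃ e : (MvPolynomial (Fin n) k ⧸ Ideal.span (Set.range f)) ≃ₐ[k]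
    (MvPolynomial (Fin (n + 1)) k ⧸ Ideal.span (Set.range (fn f j α β))),
    ∀ v, e (Ideal.Quotient.mk (Ideal.span (Set.range f)) (X v)) =
      Ideal.Quotient.mk (Ideal.span (Set.range (fn f j α β))) (X (Fin.castSucc v)) := by
  have hm : ∀ i, fn f j α β i ∈ Ideal.span (Set.range (fn f j α β)) := fun i =>
    Ideal.subset_span ⟨i, rfl⟩
  have hf : ∀ i, f i ∈ Ideal.span (Set.range f) := fun i => Ideal.subset_span ⟨i, rfl⟩
  have hj : rho n k (f j) = fn f j α β (Fin.castSucc j) - fn f j α β (Fin.last r) := by
    rw [fn_self, fn_last, nw, nw, gg, map_add]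
    ring
  let F : (MvPolynomial (Fin n) k ⧸ Ideal.span (Set.range f)) →ₐ[k]
      (MvPolynomial (Fin (n + 1)) k ⧸ Ideal.span (Set.range (fn f j α β))) :=
    Ideal.Quotient.liftₐ _ ((Ideal.Quotient.mkₐ k _).comp (rho n k)) (by
      intro a ha
      have h1 : Ideal.span (Set.range f) ≤
          RingHom.ker ((Ideal.Quotient.mkₐ k (Ideal.span (Set.range (fn f j α β)))).comp
            (rho n k)) := by
        rw [Ideal.span_le]
        rintro _ ⟨i, rfl⟩
        change (Ideal.Quotient.mk (Ideal.span (Set.range (fn f j α β)))) (rho n k (f i)) = 0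
        rw [Ideal.Quotient.eq_zero_iff_mem]
        by_cases h : i = j
        · subst h
          rw [hj]
          exact Ideal.sub_mem _ (hm _) (hm _)
        · rw [← fn_ne f j α β h]
          exact hm _
      exact h1 ha)
  let G₀ : MvPolynomial (Fin (n + 1)) k →ₐ[k] MvPolynomial (Fin n) k :=
    aeval (Fin.snoc (α := fun _ => MvPolynomial (Fin n) k) X (- mm f j α β))
  have hG₀ : ∀ φ, G₀ (rho n k φ) = φ := by
    intro φ
    change aeval _ (rename _ φ) = φ
    rw [aeval_rename]
    have : (Fin.snoc (α := fun _ => MvPolynomial (Fin n) k) X (- mm f j α β)) ∘ Fin.castSucc =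
        (X : Fin n → MvPolynomial (Fin n) k) := by
      funext v
      exact Fin.snoc_castSucc _ _ _
    rw [this]
    exact aeval_X_left_apply φ
  have hGX : G₀ (X (Fin.last n)) = - mm f j α β := by
    change aeval _ (X (Fin.last n)) = _
    rw [aeval_X]
    exact Fin.snoc_last _ _
  have hGn : ∀ φ, G₀ (nw φ) = - mm f j α β + φ := by
    intro φ
    rw [nw, map_add, hG₀, hGX]
  let G : (MvPolynomial (Fin (n + 1)) k ⧸ Ideal.span (Set.range (fn f j α β))) →ₐ[k]
      (MvPolynomial (Fin n) k ⧸ Ideal.span (Set.range f)) :=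
    Ideal.Quotient.liftₐ _ ((Ideal.Quotient.mkₐ k _).comp G₀) (by
      intro a ha
      have h1 : Ideal.span (Set.range (fn f j α β)) ≤
          RingHom.ker ((Ideal.Quotient.mkₐ k (Ideal.span (Set.range f))).comp G₀) := by
        rw [Ideal.span_le]
        rintro _ ⟨i, rfl⟩
        change (Ideal.Quotient.mk (Ideal.span (Set.range f))) (G₀ (fn f j α β i)) = 0
        rw [Ideal.Quotient.eq_zero_iff_mem]
        induction i using Fin.lastCases with
        | last =>
          rw [fn_last, hGn, neg_add_cancel]
          exact Ideal.zero_mem _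
        | cast i =>
          by_cases h : i = j
          · subst h
            rw [fn_self, hGn, gg, add_comm, add_assoc, add_neg_cancel, add_zero]
            exact hf _
          · rw [fn_ne f j α β h, hG₀]
            exact hf _
      exact h1 ha)
  refine ⟨AlgEquiv.ofAlgHom F G ?_ ?_, fun v => ?_⟩
  · apply Ideal.Quotient.algHom_ext
    apply MvPolynomial.algHom_ext
    intro v
    change (Ideal.Quotient.mk (Ideal.span (Set.range (fn f j α β)))) (rho n k (G₀ (X v))) =
      (Ideal.Quotient.mk (Ideal.span (Set.range (fn f j α β)))) (X v)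
    induction v using Fin.lastCases with
    | last =>
      rw [hGX, Ideal.Quotient.eq, map_neg]
      have h1 : - rho n k (mm f j α β) - X (Fin.last n) = - fn f j α β (Fin.last r) := by
        rw [fn_last, nw]
        ring
      rw [h1]
      exact neg_mem (hm _)
    | cast v =>
      have h1 : (X (Fin.castSucc v) : MvPolynomial (Fin (n + 1)) k) = rho n k (X v) :=
        (rename_X _ _).symm
      rw [h1, hG₀]
  · apply Ideal.Quotient.algHom_ext
    apply MvPolynomial.algHom_ext
    intro v
    change (Ideal.Quotient.mk (Ideal.span (Set.range f))) (G₀ (rho n k (X v))) =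
      (Ideal.Quotient.mk (Ideal.span (Set.range f))) (X v)
    rw [hG₀]
  · change (Ideal.Quotient.mk (Ideal.span (Set.range (fn f j α β)))) (rho n k (X v)) = _
    congr 1
    exact rename_X _ _

end ONTAux

open FMQ.ONEAux in
theorem t_ONT : S_ONT := by
  intro k _ n r N f hD j h4
  obtain ⟨α, hα, β, hβ, hab⟩ := Finset.one_lt_card.1 (by omega : 1 < (f j).support.card)
  refine ⟨fn f j α β, dels hD hα hβ hab, ?_, ?_, ?_, ONTAux.iso⟩
  · rw [fn_self, card_nw]
    have := card_gg hα hβ hab
    omega
  · rw [fn_last, card_nw, card_mm hα hβ hab]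
  · intro i hi
    rw [fn_ne f j α β hi, card_rho]

end Pool.Agent.FMS
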