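import Pool.Agent.FMS.St4

/-!
# FMS: module STC, stratification by the coefficients (helper37)
-/

set_option autoImplicit false

open MvPolynomial

namespace Pool.Agent.FMS

open QCV (DL)

namespace STCAux

theorem mf_sS {A B : Type} [CommRing A] [CommRing B] {n r : ℕ}
    (S : Fin r → Finset (Fin n →₀ ℕ)) (a : Fin r → (Fin n →₀ ℕ) → A) (φ : A →+* B) :
    QCV.mf φ (sS S a) = sS S fun j α => φ (a j α) := by
  funext j
  show MvPolynomial.map φ (∑ α ∈ S j, MvPolynomial.monomial α (a j α)) =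
    ∑ α ∈ S j, MvPolynomial.monomial α (φ (a j α))
  rw [map_sum]
  exact Finset.sum_congr rfl fun α _ => MvPolynomial.map_monomial _ _ _

/-- the element is zero or a unit -/
def Good {A : Type} [CommRing A] (x : A) : Prop := x = 0 ∨ IsUnit x

theorem Good.map {A B : Type} [CommRing A] [CommRing B] {x : A} (h : Good x) (φ : A →+* B) :
    Good (φ x) := by
  rcases h with h | h
  · exact Or.inl (by rw [h, map_zero])
  · exact Or.inr (h.map φ)

open Classical in
/-- the pairs with a coefficient neither zero nor a unit -/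
noncomputable def bad {A : Type} [CommRing A] {n r : ℕ} (S : Fin r → Finset (Fin n →₀ ℕ))
    (a : Fin r → (Fin n →₀ ℕ) → A) : Finset (Σ _ : Fin r, Fin n →₀ ℕ) :=
  (Finset.univ.sigma S).filter fun p => ¬ Good (a p.1 p.2)

theorem mem_bad {A : Type} [CommRing A] {n r : ℕ} {S : Fin r → Finset (Fin n →₀ ℕ)}
    {a : Fin r → (Fin n →₀ ℕ) → A} (p : Σ _ : Fin r, Fin n →₀ ℕ) :
    p ∈ bad S a ↔ p.2 ∈ S p.1 ∧ ¬ Good (a p.1 p.2) := by
  classical
  unfold bad
  rw [Finset.mem_filter, Finset.mem_sigma]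
  exact ⟨fun h => ⟨h.1.2, h.2⟩, fun h => ⟨⟨Finset.mem_univ _, h.1⟩, h.2⟩⟩

theorem card_lt {A B : Type} [CommRing A] [CommRing B] {n r : ℕ}
    {S : Fin r → Finset (Fin n →₀ ℕ)} {a : Fin r → (Fin n →₀ ℕ) → A} (φ : A →+* B)
    (p : Σ _ : Fin r, Fin n →₀ ℕ) (hp : p ∈ bad S a) (h : Good (φ (a p.1 p.2))) :
    (bad S fun j α => φ (a j α)).card < (bad S a).card := by
  refine Finset.card_lt_card (Finset.ssubset_iff_subset_ne.2 ⟨fun q hq => ?_, fun he => ?_⟩)
  · rw [mem_bad] at hq ⊢
    exact ⟨hq.1, fun h1 => hq.2 (h1.map φ)⟩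
  · rw [← he, mem_bad] at hp
    exact hp.2 h

end STCAux

open STCAux in
theorem t_STC : S_STC := by
  intro k _ Q hQ d n r S hbase
  have key : ∀ (m : ℕ) (A : Type) [CommRing A] [Algebra k A] [Algebra.FiniteType k A]
      (a : Fin r → (Fin n →₀ ℕ) → A), DL k A d → (bad S a).card = m → Q (SA S a) := by
    intro m
    induction m using Nat.strong_induction_on with
    | _ m ih =>
      intro A _ _ _ a hA hm
      by_cases hg : ∀ j, ∀ α ∈ S j, a j α = 0 ∨ IsUnit (a j α)
      · exact hbase A a hA hg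
      · have hp : ∃ p : Σ _ : Fin r, Fin n →₀ ℕ, p ∈ bad S a := by
          by_contra h
          apply hg
          intro j α hα
          by_contra h2
          exact h ⟨⟨j, α⟩, (mem_bad _).2 ⟨hα, h2⟩⟩
        obtain ⟨p, hp⟩ := hp
        set x := a p.1 p.2 with hx
        have hs : QCV.Strat x (Ideal.Quotient.mkₐ k (Ideal.span {x})) (CUB.awayHom k x) :=
          ⟨Ideal.Quotient.mkₐ_surjective k _, Ideal.mk_ker, CUB.isLocalization_awayHom x⟩
        obtain ⟨z, u, h⟩ := QCV.Asm.s_FAM.1 k A _ _ (Fin r) n x _ _ (sS S a) hs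
        have hZ : Q (QCV.ER (QCV.mf (Ideal.Quotient.mkₐ k (Ideal.span {x})).toRingHom
            (sS S a))) := by
          rw [mf_sS]
          refine ih _ (hm ▸ card_lt _ p hp (Or.inl ?_)) (A ⧸ Ideal.span {x}) _
            (QCV.Asm.s_DLR.1 k A _ d (Ideal.Quotient.mkₐ k (Ideal.span {x}))
              (Ideal.Quotient.mkₐ_surjective k _) hA) rfl
          exact Ideal.Quotient.eq_zero_iff_mem.2 (Ideal.mem_span_singleton_self _)
        have hU : Q (QCV.ER (QCV.mf (CUB.awayHom k x).toRingHom (sS S a))) := by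
          rw [mf_sS]
          have : Algebra.FiniteType k (Localization.Away x) :=
            Algebra.FiniteType.trans (S := A) ‹_› (IsLocalization.finiteType_of_monoid_fg
              (Submonoid.powers x) _)
          refine ih _ (hm ▸ card_lt _ p hp (Or.inr ?_)) (Localization.Away x) _
            (QCV.Asm.s_DLR.2.1 k A _ d x (CUB.awayHom k x) hs.away hA) rfl
          exact IsLocalization.Away.algebraMap_isUnit x
        exact hQ.glue _ z u ⟨h.surj, h.ker, h.away⟩ hZ hU
  intro A _ _ _ a hA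
  exact key _ A a hA rfl

end Pool.Agent.FMS
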