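import Pool.Agent.FMS.St4

/-!
# FMS, SUB: smaller supports
-/

set_option autoImplicit false

namespace Pool.Agent.FMS

namespace SUBAux

/-- `tot` as a linear map -/
noncomputable def totL (n r : ℕ) : (Fin r → (Fin n →₀ ℕ) →₀ ℤ) →ₗ[ℤ] (Fin n → ℤ) where
  toFun := FMQ.tot
  map_add' z z' := by
    funext i
    simp only [FMQ.tot, Pi.add_apply]
    rw [← Finset.sum_add_distrib]
    refine Finset.sum_congr rfl fun j _ => ?_
    rw [Finsupp.sum_add_index']
    · intro a; simp
    · intro a b c; ring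
  map_smul' t z := by
    funext i
    simp only [FMQ.tot, Pi.smul_apply, RingHom.id_apply, smul_eq_mul]
    rw [Finset.mul_sum]
    refine Finset.sum_congr rfl fun j _ => ?_
    rw [Finsupp.sum_smul_index (by intro a; simp), Finsupp.mul_sum]
    refine Finset.sum_congr rfl fun a _ => ?_
    ring

theorem totL_apply {n r : ℕ} (z : Fin r → (Fin n →₀ ℕ) →₀ ℤ) : totL n r z = FMQ.tot z := rfl

/-- the sum of the coefficients as a linear map -/
noncomputable def sumL (n : ℕ) : ((Fin n →₀ ℕ) →₀ ℤ) →ₗ[ℤ] ℤ where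
  toFun z := z.sum fun _ c => c
  map_add' z z' := by
    rw [Finsupp.sum_add_index']
    · intro a; rfl
    · intro a b c; rfl
  map_smul' t z := by
    rw [Finsupp.sum_smul_index (by intro a; rfl)]
    simp only [RingHom.id_apply, smul_eq_mul]
    rw [Finsupp.mul_sum]

theorem rl_mono {n r : ℕ} {S S' : Fin r → Finset (Fin n →₀ ℕ)} (h : ∀ j, S' j ⊆ S j)
    {z : Fin r → (Fin n →₀ ℕ) →₀ ℤ} (hz : Rl S' z) : Rl S z :=
  ⟨fun j α hα => h j (hz.1 j α hα), hz.2⟩

theorem rl_lin {n r : ℕ} {S : Fin r → Finset (Fin n →₀ ℕ)} {z z' : Fin r → (Fin n →₀ ℕ) →₀ ℤ}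
    (hz : Rl S z) (hz' : Rl S z') (a b : ℤ) : Rl S (a • z - b • z') := by
  refine ⟨fun j α hα => ?_, fun j => ?_⟩
  · by_contra hn
    have h1 : z j α = 0 := by
      by_contra h
      exact hn (hz.1 j α h)
    have h2 : z' j α = 0 := by
      by_contra h
      exact hn (hz'.1 j α h)
    apply hα
    simp [h1, h2]
  · have h1 := hz.2 j
    have h2 := hz'.2 j
    change sumL n (z j) = 0 at h1
    change sumL n (z' j) = 0 at h2
    change sumL n ((a • z - b • z') j) = 0
    have e : (a • z - b • z') j = a • z j - b • z' j := rfl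
    rw [e, map_sub, map_smul, map_smul, h1, h2]
    simp

end SUBAux

open SUBAux in
theorem t_SUB : S_SUB := by
  intro n r N S S' hS h
  refine ⟨fun z hz h0 => h.ind z (rl_mono hS hz) h0, ?_⟩
  rintro x t ht ⟨z', hz', e'⟩
  obtain ⟨z, hz, e⟩ := h.exp x t ht ⟨z', rl_mono hS hz', e'⟩
  have key : t • z - (N : ℤ) • z' = 0 := by
    apply h.ind _ (rl_lin hz (rl_mono hS hz') t (N : ℤ))
    rw [← totL_apply, map_sub, map_smul, map_smul, totL_apply, totL_apply, ← e, ← e']
    rw [smul_comm, sub_self]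
  refine ⟨z, ⟨fun j α hα => hz'.1 j α fun h2 => ?_, hz.2⟩, e⟩
  have h3 : (t • z - (N : ℤ) • z') j α = 0 := by rw [key]; rfl
  have h4 : t * z j α - (N : ℤ) * z' j α = 0 := by simpa using h3
  rw [h2, mul_zero, sub_zero] at h4
  rcases mul_eq_zero.mp h4 with h5 | h5
  · exact ht h5
  · exact hα h5

end Pool.Agent.FMS
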