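import Pool.Agent.FMS.St2

/-!
# FMS, statements, third part: characteristic two, exponents divisible by the characteristic

Same rules as in `St.lean`: `theorem t_XXX : S_XXX` (or `M_XXX : S_YYY → ... → S_XXX`) in `Pool/Agent/FMS/XXX.lean`, import
`Pool.Agent.FMS.St3`, auxiliary lemmas in namespace `Pool.Agent.FMS.XXXAux`.
-/

set_option autoImplicit false

open CategoryTheory AlgebraicGeometry Polynomial

namespace Pool.Agent.FMS

open Pool.Agent.Lib_helper55.Beil (Var)
open UQ (Mo DimLE sp szer sdbl)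
open FMO (Univ Few Add CompX Comp Kp)
open FMQ (FreeCl Dels Fermat ferm)
open LFQ (BM)

universe v

/-- PIN (100 lines), exponents divisible by `p`. PROOF. `N = p ^ b N'` with `N'` prime to `p` (`N > 0`: `p ^ a (p ^ ν + 1) ≠ 0`), so `N' ∣ p ^ ν + 1`. `k` is perfect: `c_j = d_j ^ (p ^ b)`, `c'_j = d'_j ^ (p ^ b)`, and
`1 + c_j x ^ N + c'_j y ^ N = (1 + d_j x ^ N' + d'_j y ^ N') ^ (p ^ b)`: the closed immersion of `szer k k (ferm N' d d')` to `szer k k (ferm N c c')` is surjective (the kernel is generated by nilpotent elements). `Clo.paste` with the empty open subvariety (`LFQ.Clo.red`,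
`LFQ.same_range`, `QCV.complementary_surj`), or `FMO.Clo` (glue along nilpotent elements, one after the other). -/
def S_PIN : Prop := ∀ (k : Type) [Field k] [Finite k] (P : Var k → Prop), LFQ.Clo P →
  ∀ (p a ν N : ℕ), p.Prime → CharP k p → 1 ≤ ν →
  (∀ N', N' ∣ p ^ ν + 1 → ∀ (M : ℕ) (c c' : Fin M → k), P (szer k k (ferm N' c c'))) →
  N ∣ p ^ a * (p ^ ν + 1) → ∀ (M : ℕ) (c c' : Fin M → k), P (szer k k (ferm N c c'))

/-- QM2 (350 lines), several quadratic equations, characteristic two. PROOF. As `QMM` (`Pool/Agent/FMS/QMM.lean`, when it is there), but without `FMQ.S_QU3`: induction on `s`, for all `C`, `H`. With `B` = `QM` for the first `s` equations, as in `QMM`, it is enough to treat the last equation over `B`; `B ⊗ SQ b` (`b` a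
family of units in `H`) is `QM` over `SQ b`, so it has the property by induction (`SQ` over `SQ` is `SQ`). The last equation: if `a_j` is a unit and `e_j = 1` for some `j` then the algebra is the polynomial ring over `B` in the other variables. Otherwise let `J` be the set of the `j` with `a_j` a unit, `e_j = 2`; the
algebra is the polynomial ring in the other variables over `E = B[x_j, j ∈ J] / (∑ a_j x_j ^ 2 + c)`. Let `B' = B[√a_j, √c]` (`SQ`; if `c = 0` without `√c`), finite free over `B` of positive rank: by `FreeCl` it is enough to treat `E ⊗ B' = B'[x] / ((∑ √a_j x_j + √c) ^ 2)` (characteristic two); a closed subvariety with the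
same points is `B'[x] / (∑ √a_j x_j + √c)`, the polynomial ring in one variable less if `J` is not empty; `J` empty: trivial or `B'`. -/
def S_QM2 : Prop := ∀ (k : Type) [Field k], (2 : k) = 0 → ∀ P : Var k → Prop, LFQ.Clo P →
  FreeCl P → ∀ (C : Type) [CommRing C] [Algebra k C] [Algebra.FiniteType k C] (H : Submonoid C),
  -1 ∈ H →
  (∀ (l : ℕ) (b : Fin l → C), (∀ i, b i ∈ H ∧ IsUnit (b i)) → P (sp k (SQ b))) →
  ∀ (r s : ℕ) (σ : Fin r → Fin s) (a : Fin r → C) (e : Fin r → ℕ) (c : Fin s → C),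
  (∀ j, a j = 0 ∨ (IsUnit (a j) ∧ a j ∈ H)) → (∀ i, c i = 0 ∨ (IsUnit (c i) ∧ c i ∈ H)) →
  (∀ j, e j = 1 ∨ e j = 2) → P (sp k (QM σ a e c))

/-- MIB (10 lines after MIA): `MIA` in every characteristic. PROOF. As `Pool/Agent/FMS/MIA.lean` (it uses `(2 : k) ≠ 0` only for `QMM`), with `QMM` or `QM2`. -/
def S_MIB : Prop := ∀ (k : Type) [Field k] (P : Var k → Prop), LFQ.Clo P → FreeCl P →
  ∀ (n : ℕ) (ι : Type) (f : ι → MvPolynomial (Fin n) k) (V ι' : Type) [Finite V]
    (f' : ι' → MvPolynomial V k) (ψ : Fin n → V)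
    (φ : V → MvPolynomial (Fin n) k ⧸ Ideal.span (Set.range f)),
    (∀ v, φ (ψ v) = Ideal.Quotient.mk (Ideal.span (Set.range f)) (MvPolynomial.X v)) →
    Univ f' ∅ ∅ (MvPolynomial (Fin n) k ⧸ Ideal.span (Set.range f)) φ →
    (∀ U Z : Set V, (∀ v, v ∈ U ∨ v ∈ Z) → ∀ (C : Type) [CommRing C] [Algebra k C]
      [Algebra.FiniteType k C] (φ₀ : V → C), Univ f' U Z C φ₀ → ∀ (l : ℕ)
      (τ : Fin l → MvPolynomial V k), (∀ i, (τ i).support.card ≤ 1) →
      (∀ i, IsUnit (MvPolynomial.aeval φ₀ (τ i))) →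
      P (sp k (SQ fun i => MvPolynomial.aeval φ₀ (τ i)))) →
    ∀ (r s : ℕ) (σ : Fin r → Fin s) (a : Fin r → MvPolynomial (Fin n) k) (e : Fin r → ℕ)
      (c : Fin s → MvPolynomial (Fin n) k), (∀ j, (a j).support.card ≤ 1) →
      (∀ i, (c i).support.card ≤ 1) → (∀ j, e j = 1 ∨ e j = 2) →
      P (szer k k (sysm f σ a e c))

def M_MIB : Prop := FMQ.S_CLF → FMQ.S_STV → FMQ.S_EXU → FMQ.S_UNQ → S_MXM → S_QMM → S_QM2 →
  S_MIB

/-- MIN (copy of MIM with MIB). -/
def S_MIN : Prop := ∀ (k : Type) [Field k] (P : Var k → Prop), LFQ.Clo P → FreeCl P →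
  ∀ m : ℕ, 1 ≤ m → (∀ X, CompX m X → P X) → ∀ (n r s : ℕ) (ι : Type)
    (f : ι → MvPolynomial (Fin n) k) (σ : Fin r → Fin s) (a : Fin r → MvPolynomial (Fin n) k)
    (e : Fin r → ℕ) (c : Fin s → MvPolynomial (Fin n) k), Add m f → (∀ j, (a j).support.card ≤ 1) →
    (∀ i, (c i).support.card ≤ 1) → (∀ j, e j = 1 ∨ e j = 2) → P (szer k k (sysm f σ a e c))

def M_MIN : Prop := FMO.S_RES → FMO.S_CIN → FMQ.S_CLF → FMQ.S_ELN → S_DBM → S_MIB → S_MIN

/-- MIE (copy of MID with MIB). -/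
def S_MIE : Prop := ∀ (k : Type) [Field k] (P : Var k → Prop), LFQ.Clo P → FreeCl P →
  ∀ (N m : ℕ), 0 < N → (∀ X, Fermat (2 * N) m X → P X) → ∀ (n r₀ : ℕ)
    (f : Fin r₀ → MvPolynomial (Fin n) k), Dels N f → ∑ j, ((f j).support.card - 2) ≤ m →
    ∀ (r s : ℕ) (σ : Fin r → Fin s) (a : Fin r → MvPolynomial (Fin n) k) (e : Fin r → ℕ)
      (c : Fin s → MvPolynomial (Fin n) k), (∀ j, (a j).support.card ≤ 1) →
      (∀ i, (c i).support.card ≤ 1) → (∀ j, e j = 1 ∨ e j = 2) → P (szer k k (sysm f σ a e c))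

def M_MIE : Prop := S_THT → S_DSS → S_MIB → S_MIE

end Pool.Agent.FMS
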