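import Pool.Agent.FMS.St4

/-!
# FMS, statements, fifth part

Same rules as in `St.lean`: `theorem t_XXX : S_XXX` (or `M_XXX : S_YYY → ... → S_XXX`) in `Pool/Agent/FMS/XXX.lean`, import
`Pool.Agent.FMS.St5`, auxiliary lemmas in namespace `Pool.Agent.FMS.XXXAux`.
-/

set_option autoImplicit false

open CategoryTheory AlgebraicGeometry Polynomial

namespace Pool.Agent.FMS

open Pool.Agent.Lib_helper55.Beil (Var)
open UQ (Mo DimLE sp szer)
open FMO (Univ Few Add CompX Comp Kp)
open FMQ (FreeCl Dels Fermat ferm)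
open LFQ (BM)
open QCV (DL)

/-- OV1 (150 lines), a curve, one affine Fermat curve, lines and finite sets. PROOF. Induction on `M`, for all `A`. If `c j = c' j = 0` for some `j` the algebra is trivial (`1 = 0`). If `c j ≠ 0`, `c' j = 0`: the algebra is isomorphic to `R[Y]`, `R` the algebra of the other `M - 1` equations over
`A' = AdjoinRoot (1 + c_j X ^ N)` (finite over `A`: `DL k A' 1` by `QCV.Asm.s_DLR.2.2.1`; `c_j X ^ N + 1` is a unit times a monic polynomial): `LFQ.Clo.line`, induction. The same for `c j = 0`, `c' j ≠ 0`. So we may assume that `c j * c' j ≠ 0` for all `j`, so `M ≤ 1`. `M = 0`: the algebra is isomorphic to `A`;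
`M = 1`: it is isomorphic to `A ⊗[k] R`, `R = k[x, y] / (1 + c x ^ N + c' y ^ N)`, `DL k R 1` (`QCV.Asm.s_DLR.2.2.2.2`, `QCV.Asm.s_DLM`): `CPR`. All residue fields are `Comp k 2` (`M = 0`: transcendence degree at most one, `FMO.S_CIN`), so `CompX 2` (`FMO.S_RES`, as in `Pool/Agent/FMS/MIM.lean`). -/
def S_OV1 : Prop := ∀ (k : Type) [Field k] (P : Var k → Prop), LFQ.Clo P →
  (∀ X, CompX 2 X → P X) → ∀ N : ℕ, 0 < N → ∀ (A : Type) [CommRing A] [Algebra k A]
    [Algebra.FiniteType k A], DL k A 1 → ∀ (M : ℕ) (c c' : Fin M → k),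
    Nat.card {j // c j * c' j ≠ 0} ≤ 1 → P (szer k A (fermA A N c c'))

def M_OV1 : Prop := FMO.S_RES → FMO.S_CIN → S_CPR → S_MVT → S_OV1

end Pool.Agent.FMS
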