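import Pool.Agent.FMS.St5

/-!
# FMS, statements, sixth part: few additions over a base of dimension at most one, with a system of Delsarte type

Same rules as in `St.lean`: `theorem t_XXX : S_XXX` (or `M_XXX : S_YYY → ... → S_XXX`) in `Pool/Agent/FMS/XXX.lean`, import
`Pool.Agent.FMS.St6`, auxiliary lemmas in namespace `Pool.Agent.FMS.XXXAux`.
-/

set_option autoImplicit false

open CategoryTheory AlgebraicGeometry Polynomial Multiplicative

namespace Pool.Agent.FMS

open Pool.Agent.Lib_helper55.Beil (Var)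
open UQ (Mo DimLE sp szer gp Pt)
open FMO (Univ Few Add CompX Comp Kp Laur At Sm Inv)
open FMQ (FreeCl Dels Fermat ferm)
open LFQ (BM SPj)
open QCV (DL)

universe v

/-! ### fields -/

/-- The field `F` is contained in a compositum of a field which is algebraic over `k` and `m` fields of
transcendence degree at most one. -/
def CompA (k : Type) [Field k] (m : ℕ) (F : Type) [Field F] [Algebra k F] : Prop :=
  ∃ (L : Type) (_ : Field L) (_ : Algebra k L) (e : F →ₐ[k] L) (K₀ : IntermediateField k L)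
    (K : Fin m → IntermediateField k L), Algebra.IsAlgebraic k K₀ ∧
    (∀ j, Algebra.trdeg k (K j) ≤ 1) ∧ ∀ x, e x ∈ K₀ ⊔ ⨆ j, K j

/-- CMP (120 lines), comparison with `FMO.Comp`. PROOF. `Inv`: compose `e` with the isomorphism. `m ≥ 1`, `→`: replace `K j` by the elements of `L` which are algebraic over `K j` (transcendence degree at most one, contains `K₀`); `←`: `K₀ = ⊥`. `m = 0`: the supremum over `Fin 0` is `⊥`, so `F` is algebraic;
conversely `L = F`, `K₀ = ⊤`. `m = 1`: `FMO.S_CTR`, `FMO.S_CIN`. -/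
def S_CMP : Prop := ∀ (k : Type) [Field k],
  (∀ m : ℕ, Inv k fun F [Field F] [Algebra k F] => CompA k m F) ∧
  (∀ m : ℕ, 1 ≤ m → ∀ (F : Type) [Field F] [Algebra k F], CompA k m F ↔ Comp k m F) ∧
  (∀ (F : Type) [Field F] [Algebra k F], CompA k 0 F ↔ Algebra.trdeg k F ≤ 0) ∧
  ∀ (F : Type) [Field F] [Algebra k F], CompA k 1 F ↔ Algebra.trdeg k F ≤ 1

def M_CMP : Prop := FMO.S_CTR → FMO.S_CIN → S_CMP

/-- FLB (220 lines), the compositum. PROOF. As `Pool/Agent/FMO/FLF.lean` (copy it), with one more field: `K'` = the elements of `L` which are algebraic over `k(ι χ(g), g ∈ B)`, of transcendence degree at most `d`. CLAIM: for `h ∈ Subgroup.closure D` is `ι χ(h) = w₀ w' ∏ j, w_j` with nonzero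
`w₀` algebraic over `k`, `w' ∈ K'`, `w_j ∈ K j`. `d = 0`: `K'` is algebraic over `k`, put it into `K₀`; `d = 1`: it is the last of the `m + 1` fields. `K₀` = the elements algebraic over `k`. -/
def S_FLB : Prop := ∀ (k F : Type) [Field k] [Field F] [Algebra k F] (m d : ℕ) (_ : d ≤ 1)
  (G : Type) [CommGroup G] (χ : G →* Fˣ) (u v : Fin m → G) (D B : Set G)
  (_ : IntermediateField.adjoin k (Set.range fun g => (χ g : F)) = ⊤)
  (_ : ∀ j, ∃ c c' : k, c' ≠ 0 ∧ 1 + c • (χ (u j) : F) + c' • (χ (v j) : F) = 0)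
  (_ : Algebra.trdeg k (IntermediateField.adjoin k {x : F | ∃ g ∈ B, x = (χ g : F)}) ≤ d)
  (_ : ∀ g ∈ D, g ∈ B ∨ (∃ c : k, (χ g : F) = algebraMap k F c) ∨ ∃ j, g = u j ∨ g = v j)
  (_ : ∀ g : G, ∃ N : ℕ, 0 < N ∧ g ^ N ∈ Subgroup.closure D), CompA k (m + d) F

/-! ### systems with base variables -/

/-- The equations have at most two monomials or contain only the variables in `W`, except for at most `m`
equations with at most three monomials. -/
def FewB {k V : Type} [Field k] (W : Set V) (m : ℕ) {ι : Type} (f : ι → MvPolynomial V k) : Prop :=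
  ∃ t : Finset ι, t.card ≤ m ∧ (∀ j ∈ t, (f j).support.card ≤ 3) ∧
    ∀ j ∉ t, (f j).support.card ≤ 2 ∨ ∀ v ∈ (f j).vars, v ∈ W

/-- At every prime the values of the `v ∈ W` generate a field of transcendence degree at most `d`. -/
def BD (k : Type) [Field k] {V : Type} (W : Set V) (d : ℕ) {C : Type} [CommRing C] [Algebra k C]
    (φ : V → C) : Prop :=
  ∀ q : PrimeSpectrum C,
    Algebra.trdeg k (IntermediateField.adjoin k {x : Kp q | ∃ v ∈ W, x = FMO.val q (φ v)}) ≤ d

/-- BDH (60 lines). PROOF. `q` = the inverse image of `q'` under `g`; `Kp q → Kp q'` (a `k`-algebra homomorphism of fields) maps `val q (φ w)` to `val q' (g (φ w))`; the field for `q'` is contained in the image of the field for `q`. -/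
def S_BDH : Prop := ∀ (k : Type) [Field k] (V V' : Type) (W : Set V) (W' : Set V') (d : ℕ)
  (C C' : Type) [CommRing C] [Algebra k C] [CommRing C'] [Algebra k C'] (g : C →ₐ[k] C')
  (φ : V → C) (φ' : V' → C'), (∀ w' ∈ W', ∃ w ∈ W, φ' w' = g (φ w)) → BD k W d φ → BD k W' d φ'

/-- TOB (350 lines), the strata. PROOF. As `Pool/Agent/FMO/TOR.lean` and `Pool/Agent/FMO/FLD.lean` (copy them). `N` = the subgroup of `V → ℤ` generated by the differences `α - β`, `α, β ∈ (f j).support` both supported in `U`, for the `j` which are in `t` or have at most two monomials, by the `ev v`, `v ∉ U`, and by the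
`ev w`, `w ∈ W`. `GZT.exists_deg N`: `r`, `deg`, `s`. `TOZ`: the equations in the variables in `W` have degree zero. `Λ = Lam k χ deg`, generated by the `χ(α)`, `deg α = 0`, so of finite type (as in `FLD`). Let `q` be a prime of `Λ`: `FLB` for `F = Kp q`, `G = Multiplicative (ker deg)`, `B = {ev w | w ∈ W, w ∈ U}`, `u`, `v` from the
equations in `t` with three monomials supported in `U`, `D` = `B`, the constants, `u`, `v`. The condition on `B`: the retraction `ρ : C → Λ` (`e`, then `X i ↦ 1`) is surjective, `Q = ρ⁻¹(q)`, `Kp Q ≃ Kp q` maps `val Q (φ w)` to the value of `χ(ev w) = φ w ∈ Λ`: `BD`. -/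
def S_TOB : Prop := ∀ (k : Type) [Field k] (V : Type) [Fintype V] (ι : Type)
  (f : ι → MvPolynomial V k) (W : Set V) (m d : ℕ) (_ : d ≤ 1) (_ : FewB W m f) (U Z : Set V)
  (_ : ∀ v, v ∈ U ∨ v ∈ Z) (C : Type) [CommRing C] [Algebra k C] [Nontrivial C] (φ : V → C)
  (_ : Univ f U Z C φ) (_ : BD k W d φ),
  ∃ (r : ℕ) (Λ : Type) (_ : CommRing Λ) (_ : Algebra k Λ) (_ : Algebra.FiniteType k Λ),
    Nonempty (C ≃ₐ[k] Laur r Λ) ∧ ∀ q : PrimeSpectrum Λ, CompA k (m + d) (Kp q)

def M_TOB : Prop := FMO.S_TOZ → S_FLB → S_TOB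

/-- The system `f`, together with the polynomials `∑ a_jα x ^ α`, the sum over `α ∈ S j`. -/
noncomputable def syS {k : Type} [Field k] {V ι : Type} {l r : ℕ} (f : ι → MvPolynomial V k)
    (S : Fin r → Finset (Fin l →₀ ℕ)) (a : Fin r → (Fin l →₀ ℕ) → MvPolynomial V k) :
    ι ⊕ Fin r → MvPolynomial (V ⊕ Fin l) k :=
  Sum.elim (fun i => MvPolynomial.rename Sum.inl (f i)) fun j =>
    ∑ α ∈ S j, MvPolynomial.rename Sum.inl (a j α) *
      MvPolynomial.rename Sum.inr (MvPolynomial.monomial α (1 : k))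

/-- MXS (130 lines), more equations. PROOF. As `Pool/Agent/FMS/MXM.lean`. -/
def S_MXS : Prop := ∀ (k : Type) [Field k] (V ι : Type) (l r : ℕ) (f : ι → MvPolynomial V k)
  (S : Fin r → Finset (Fin l →₀ ℕ)) (a : Fin r → (Fin l →₀ ℕ) → MvPolynomial V k)
  (U Z : Set V) (C : Type) [CommRing C] [Algebra k C] (φ : V → C), Univ f U Z C φ →
  Univ (syS f S a) (Sum.inl '' U) (Sum.inl '' Z) (SA S fun j α => MvPolynomial.aeval φ (a j α))
    (Sum.elim (fun v => Ideal.Quotient.mk _ (MvPolynomial.C (φ v)))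
      fun j => Ideal.Quotient.mk _ (MvPolynomial.X j))

/-- The algebra `C[t_1, ..., t_l] / (t_i ^ N - b_i)`. -/
abbrev RQ (N : ℕ) {C : Type} [CommRing C] {l : ℕ} (b : Fin l → C) : Type :=
  QM (fun i : Fin l => i) (fun _ => (1 : C)) (fun _ => N) fun i => - b i

/-- RTF (120 lines), roots. PROOF. Induction on `l`: `RQ N b` for `l + 1` is isomorphic to `AdjoinRoot (X ^ N - C b_l)` over `RQ N` of the first `l` (`Pool/Agent/FMS/QMM.lean`, `QMMAux`); free of rank `N ^ l`. -/
def S_RTF : Prop := ∀ (C : Type) [CommRing C] [Nontrivial C] (N l : ℕ), 0 < N → ∀ b : Fin l → C,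
  Module.Free C (RQ N b) ∧ Module.Finite C (RQ N b) ∧ 0 < Module.finrank C (RQ N b) ∧
  ∀ i, (Ideal.Quotient.mk _ (MvPolynomial.X i) : RQ N b) ^ N = algebraMap C (RQ N b) (b i)

/-- BCF (120 lines), finite free change of the base. PROOF. `SA` over `C'` is isomorphic to `C' ⊗[C] SA S a`, finite free of the same rank over `SA S a` (if this ring is trivial: `Clo.triv`; see `RTSAux` in `Pool/Agent/FMS/RTS.lean`): `FreeA`. -/
def S_BCF : Prop := ∀ (k : Type) [Field k] (Q : Prp k), FMO.Clo k Q → FreeA Q → ∀ (C C' : Type)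
  [CommRing C] [Algebra k C] [Algebra.FiniteType k C] [CommRing C'] [Algebra k C']
  [Algebra.FiniteType k C'] [Algebra C C'] [IsScalarTower k C C'] [Module.Free C C']
  [Module.Finite C C'], 0 < Module.finrank C C' → ∀ (n r : ℕ) (S : Fin r → Finset (Fin n →₀ ℕ))
  (a : Fin r → (Fin n →₀ ℕ) → C), Q (SA S fun j α => algebraMap C C' (a j α)) → Q (SA S a)

open TensorProduct in
/-- The products of `Spec Λ`, `Λ` with residue fields in composita of `m` fields of transcendence degree at
most one, and at most `m'` affine Fermat curves, lines and finite sets have the property. -/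
def HFA {k : Type} [Field k] (m N m' : ℕ) (Q : Prp k) : Prop :=
  ∀ (Λ : Type) [CommRing Λ] [Algebra k Λ] [Algebra.FiniteType k Λ],
    (∀ q : PrimeSpectrum Λ, CompA k m (Kp q)) → ∀ (M : ℕ) (c c' : Fin M → k),
    Nat.card {j // c j * c' j ≠ 0} ≤ m' → Q (FX N c c' ⊗[k] Λ)

/-- TKS (350 lines), a stratum. PROOF. `C` trivial: `Clo.triv`. The values `aeval φ (a j α)` are zero or units (all variables are zero or units). `S' j = {α ∈ S j | aeval φ (a j α) ≠ 0}`; `SA S _ ≃ SA S' _`; `SUB`: `Ds N S'`. Number the pairs `(j, α)`, `α ∈ S' j`, by `Fin l'`: `τ_i = a j α`, `b_i` = its value. `C' = RQ N b`: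
`RTF`, `BCF`: it is enough to treat `SA` over `C'`; the images of the `b_i` are `N`-th powers of units (`t_i ^ N = b_i`): `RSC`: `≃ SA S' 1` over `C'`, `MVT`: `≃ (SA S' 1 over k) ⊗ C'`. `DEA` for `Q' D = Q (D ⊗[k] C')` (`TNB`) and the system `sS S' 1` over `k`: `HF N m' Q'`: let `R = FX N c c'`, `Q'' D = Q (D ⊗[k] R)`
(`TNB`). By `MXM`, `C'` is universal for `f'' = sym f id 1 N (-τ)` with the units `inl '' U`, and (as in `Pool/Agent/FMS/DBM.lean`) with the units `inl '' U` and all `t_i`; `FewB (inl '' W) m f''` (`t_i ^ N - τ_i` has at most two monomials); `BD` by `BDH`. `TOB`: `C' ≃ Laur r' Λ`; `Q'' Λ` by `HFA`, `LAU`. -/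
def S_TKS : Prop := ∀ (k : Type) [Field k] (Q : Prp k), ACl k Q → ∀ (V : Type) [Finite V]
  (W : Set V) (m d : ℕ) (_ : d ≤ 1) (ι : Type) (f : ι → MvPolynomial V k), FewB W m f →
  ∀ (N m' : ℕ), 0 < N → HFA (m + d) N m' Q → ∀ (U Z : Set V), (∀ v, v ∈ U ∨ v ∈ Z) →
  ∀ (C : Type) [CommRing C] [Algebra k C] [Algebra.FiniteType k C] (φ : V → C), Univ f U Z C φ →
  BD k W d φ → ∀ (l r : ℕ) (S : Fin r → Finset (Fin l →₀ ℕ)), Ds N S →
  ∑ j, ((S j).card - 2) ≤ m' → ∀ (a : Fin r → (Fin l →₀ ℕ) → MvPolynomial V k),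
  (∀ j, ∀ α ∈ S j, (a j α).support.card ≤ 1) → Q (SA S fun j α => MvPolynomial.aeval φ (a j α))

def M_TKS : Prop := S_TNB → FMO.S_LAU → S_MXM → S_RTF → S_BCF → S_SUB → S_RSC → S_DEA → S_MVT →
  S_TOB → S_BDH → S_TKS

/-- THK (150 lines), stratification. PROOF. As `Pool/Agent/FMS/MIA.lean`. `SA` over `C` is universal for `syS f S a` (`MXS`); `STV` with `W = range inl`: a stratum is universal for `inl '' U₀`, `inl '' Z₀`; `EXU`: `C₀`, `φ₀` for `f`, `U₀`, `Z₀`; `MXS`, `UNQ`: the stratum is `SA` over `C₀`; `BD` for `φ₀` by `BDH` (`Univ.lift` gives `C → C₀`); `TKS`. -/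
def S_THK : Prop := ∀ (k : Type) [Field k] (Q : Prp k), ACl k Q → ∀ (V : Type) [Finite V]
  (W : Set V) (m d : ℕ) (_ : d ≤ 1) (ι : Type) (f : ι → MvPolynomial V k), FewB W m f →
  ∀ (N m' : ℕ), 0 < N → HFA (m + d) N m' Q →
  ∀ (C : Type) [CommRing C] [Algebra k C] [Algebra.FiniteType k C] (φ : V → C), Univ f ∅ ∅ C φ →
  BD k W d φ → ∀ (l r : ℕ) (S : Fin r → Finset (Fin l →₀ ℕ)), Ds N S →
  ∑ j, ((S j).card - 2) ≤ m' → ∀ (a : Fin r → (Fin l →₀ ℕ) → MvPolynomial V k),
  (∀ j, ∀ α ∈ S j, (a j α).support.card ≤ 1) → Q (SA S fun j α => MvPolynomial.aeval φ (a j α))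

def M_THK : Prop := FMQ.S_STV → FMQ.S_EXU → FMQ.S_UNQ → S_MXS → S_BDH → S_TKS → S_THK

/-! ### systems over a base of dimension at most one -/

/-- The polynomial `p` is a sum of two terms `c x^a s_1^(b_1) ... s_i^(b_i)` in the variables `x` and in
the polynomials `s_j`, `j < i`. -/
def TwoA {A : Type} [CommRing A] {n m : ℕ} (s : Fin m → MvPolynomial (Fin n) A) (i : ℕ)
    (p : MvPolynomial (Fin n) A) : Prop :=
  ∃ g : MvPolynomial (Fin n ⊕ Fin m) A, g.support.card ≤ 2 ∧
    (∀ j : Fin m, Sum.inr j ∈ g.vars → (j : ℕ) < i) ∧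
    MvPolynomial.aeval (Sum.elim MvPolynomial.X s) g = p

/-- The system `f` over `A` needs only `m` additions, in addition to one for every equation. -/
def AddA (m : ℕ) {A : Type} [CommRing A] {n : ℕ} {ι : Type} (f : ι → MvPolynomial (Fin n) A) :
    Prop :=
  ∃ s : Fin m → MvPolynomial (Fin n) A, (∀ i : Fin m, TwoA s i (s i)) ∧ ∀ j, TwoA s m (f j)

/-- The equations have at most two monomials, except for at most `m` equations with at most three
monomials. -/
def FewA (m : ℕ) {A : Type} [CommRing A] {n : ℕ} {ι : Type} (f : ι → MvPolynomial (Fin n) A) :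
    Prop :=
  ∃ t : Finset ι, t.card ≤ m ∧ (∀ j ∈ t, (f j).support.card ≤ 3) ∧ ∀ j ∉ t, (f j).support.card ≤ 2

/-- FEA: copy of `Pool/Agent/FMO/FEW.lean` over a ring `A`. -/
def S_FEA : Prop := ∀ (A : Type) [CommRing A] (m n : ℕ) (ι : Type)
  (f : ι → MvPolynomial (Fin n) A), FewA m f → AddA m f

/-- MNA: copy of `Pool/Agent/FMO/MNO.lean` over a ring `A`. -/
def S_MNA : Prop := ∀ (A : Type) [CommRing A] (m n : ℕ) (p : MvPolynomial (Fin n) A),
  p.support.card ≤ m + 2 → AddA m (fun _ : Fin 1 => p)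

/-- EXP (300 lines), systems over `A` as systems over `k`. PROOF. Let `π : MvPolynomial (Fin p) k → A` be surjective, `s`, `g_i`, `h_j` from `AddA` (in the variables `Fin n ⊕ Fin m`, at most two monomials), `E ⊆ A` the finite set of the coefficients of the `g_i`, `h_j` and of the `a κ`. `V = (Fin p ⊕ E) ⊕ (Fin n ⊕ Fin m)`,
`W = range inl`. For a polynomial `g` over `A` let `g^ = ∑ β, X_(coeff β g) X^β` over `k` (a coefficient becomes a variable), the same number of monomials. `ι' = (ker π ⊕ E) ⊕ (Fin m ⊕ Fin t)`: `rename` of the element of `ker π`; `X_e - rename (a lift of e)` (both only variables in `W`); `X_(s_i) - g_i^` (at most three monomials);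
`h_j^` (at most two). `φ`: `π z`, `e`, the class of `y_i`, the class of `s_i`. `Univ`: `sat` clear; `lift`: `ψ` gives `A → D` (`ker π` is killed; `e ↦ ψ(e)` by the second equations), `A[y] → D`, `s_i ↦ ψ(s_i)` by strong induction (as in `Pool/Agent/FMO/ELM.lean`), so `f_j ↦ 0`; `ext`: the values generate. `τ κ = (a κ)^`. `BD`: for a
prime `q` let `p` be its inverse image in `A`; the field generated by `φ(W)` is contained in the image of `Kp p → Kp q`, and `trdeg k (Kp p) ≤ d` (`DL`, `CUB.rdim`). -/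
def S_EXP : Prop := ∀ (k : Type) [Field k] (A : Type) [CommRing A] [Algebra k A]
  [Algebra.FiniteType k A] (d : ℕ), DL k A d → ∀ (m n t : ℕ) (f : Fin t → MvPolynomial (Fin n) A),
  AddA m f → ∀ (K : Type) [Finite K] (a : K → MvPolynomial (Fin n) A),
  (∀ κ, (a κ).support.card ≤ 1) →
  ∃ (V : Type) (_ : Finite V) (W : Set V) (ι' : Type) (f' : ι' → MvPolynomial V k)
    (φ : V → MvPolynomial (Fin n) A ⧸ Ideal.span (Set.range f)) (τ : K → MvPolynomial V k),
    FewB W m f' ∧
    Univ f' ∅ ∅ (MvPolynomial (Fin n) A ⧸ Ideal.span (Set.range f)) φ ∧ BD k W d φ ∧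
    ∀ κ, (τ κ).support.card ≤ 1 ∧
      MvPolynomial.aeval φ (τ κ) = Ideal.Quotient.mk (Ideal.span (Set.range f)) (a κ)

/-- The polynomial in `y`, `x` given by a polynomial in `x` whose coefficients are polynomials in `y`. -/
noncomputable def flat {A : Type} [CommRing A] {n l : ℕ}
    (g : MvPolynomial (Fin l) (MvPolynomial (Fin n) A)) : MvPolynomial (Fin (n + l)) A :=
  MvPolynomial.eval₂ (MvPolynomial.rename (Fin.castAdd l)).toRingHom
    (fun j => MvPolynomial.X (Fin.natAdd n j)) g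

/-- The system `f_i(y) = 0`, `g_j(y, x) = 0`. -/
noncomputable def sysG {A : Type} [CommRing A] {n l : ℕ} {ι κ : Type}
    (f : ι → MvPolynomial (Fin n) A) (g : κ → MvPolynomial (Fin l) (MvPolynomial (Fin n) A)) :
    ι ⊕ κ → MvPolynomial (Fin (n + l)) A :=
  Sum.elim (fun i => MvPolynomial.rename (Fin.castAdd l) (f i)) fun j => flat (g j)

/-- The algebra of the system `f`. -/
abbrev QR {A : Type} [CommRing A] {n : ℕ} {ι : Type} (f : ι → MvPolynomial (Fin n) A) : Type :=
  MvPolynomial (Fin n) A ⧸ Ideal.span (Set.range f)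

/-- ISG (120 lines). PROOF. Both sides represent (over `A`): `y`, `x` in an `A`-algebra with `f_i(y) = 0`, `g_j(y, x) = 0`. -/
def S_ISG : Prop := ∀ (k : Type) [Field k] (A : Type) [CommRing A] [Algebra k A] (n l : ℕ)
  (ι κ : Type) (f : ι → MvPolynomial (Fin n) A)
  (g : κ → MvPolynomial (Fin l) (MvPolynomial (Fin n) A)),
  Nonempty (QR (sysG f g) ≃ₐ[k]
    QR (A := QR f) fun j => MvPolynomial.map (Ideal.Quotient.mk (Ideal.span (Set.range f))) (g j))

/-- THA (150 lines), few additions over a base of dimension at most one, with a system of Delsarte type. PROOF. `MvPolynomial (Fin n) A` is noetherian: there is a finite subfamily of `f` with the same ideal (`Submodule.fg_span_iff_fg_span_finset_subset`), it is again `AddA m`; so `ι = Fin t` (the zero sets agree: `sysG` for the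
subfamily generates the same ideal). `Q D = P (sp k D)` (`ACL`). `ISG`; over `C = MvPolynomial (Fin n) A ⧸ (f)` the algebra is `SA S a`, `S j = (g j).support`, `a j α` = the class of `coeff α (g j)`. `EXP` with `K` = the pairs `(j, α)`, `α ∈ S j`; `THK`; `HFA` by the hypothesis and `MVT`. -/
def S_THA : Prop := ∀ (k : Type) [Field k] (P : Var k → Prop), LFQ.Clo P → FreeCl P →
  ∀ (m d N m' : ℕ), d ≤ 1 → 0 < N →
  (∀ (Λ : Type) [CommRing Λ] [Algebra k Λ] [Algebra.FiniteType k Λ],
    (∀ q : PrimeSpectrum Λ, CompA k (m + d) (Kp q)) → ∀ (M : ℕ) (c c' : Fin M → k),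
    Nat.card {j // c j * c' j ≠ 0} ≤ m' → P (szer k Λ (fermA Λ N c c'))) →
  ∀ (A : Type) [CommRing A] [Algebra k A] [Algebra.FiniteType k A], DL k A d →
  ∀ (n l r : ℕ) (ι : Type) (f : ι → MvPolynomial (Fin n) A)
    (g : Fin r → MvPolynomial (Fin l) (MvPolynomial (Fin n) A)), AddA m f →
    Ds N (fun j => (g j).support) → ∑ j, ((g j).support.card - 2) ≤ m' →
    (∀ j α, (MvPolynomial.coeff α (g j)).support.card ≤ 1) → P (szer k A (sysG f g))

def M_THA : Prop := S_ACL → S_EXP → S_THK → S_MVT → S_ISG → S_THA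

/-! ### products of small varieties and curves -/

open TensorProduct in
/-- CPG (180 lines), the product with a curve. PROOF. `p`, `p'` = the inverse images of `q` in `A`, `R`. `Kp q` is generated by the images of `Kp p` and `Kp p'`, and `trdeg k (Kp p') ≤ d`. `Kp p → L` as in `CompA`. Let `L'` be a residue field of `L ⊗[Kp p] Kp q` (not trivial): fields `L → L' ← Kp q` over `Kp p`. The images of the `K j` and of `Kp p'`
in `L'`. (`d = 0`: the image of `Kp p'` is algebraic over `k`, put it into `K₀`.) -/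
def S_CPG : Prop := ∀ (k : Type) [Field k] (A R : Type) [CommRing A] [Algebra k A]
  [Algebra.FiniteType k A] [CommRing R] [Algebra k R] [Algebra.FiniteType k R] (m d : ℕ), d ≤ 1 →
  (∀ q : PrimeSpectrum A, CompA k m (Kp q)) → DL k R d →
  ∀ q : PrimeSpectrum (A ⊗[k] R), CompA k (m + d) (Kp q)

/-- OV3 (200 lines), lines, finite sets, one Fermat curve into the base. PROOF. First statement: induction on `M`, for all `A`. `c j = c' j = 0`: the algebra is trivial. `c j ≠ 0`, `c' j = 0`: the algebra is isomorphic to `R[Y]`, `R` the algebra of the other equations over `A' = A ⊗[k] k[x] / (1 + c_j x ^ N)` (`CPG` with `d = 0`: `CompA k m`): `LFQ.Clo.line` (see `Pool/Agent/FMS/OV1.lean`). `M = 0`: the algebra is `A`. Second statement: if at most `m'` of the `c j * c' j` are not zero: use `A ⊗[k] k` or: `CompA k m F` implies `CompA k (m + 1) F`. Otherwise `c j * c' j ≠ 0` for some `j`: the algebra is isomorphic to the algebra of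
the other equations over `A ⊗[k] R`, `R = k[x, y] / (1 + c_j x ^ N + c'_j y ^ N)`, `DL k R 1`: `CPG`. -/
def S_OV3 : Prop := ∀ (k : Type) [Field k] (P : Var k → Prop), LFQ.Clo P → ∀ (N m : ℕ), 0 < N →
  ((∀ (A : Type) [CommRing A] [Algebra k A] [Algebra.FiniteType k A],
    (∀ q : PrimeSpectrum A, CompA k m (Kp q)) → P (sp k A)) →
    ∀ (A : Type) [CommRing A] [Algebra k A] [Algebra.FiniteType k A],
    (∀ q : PrimeSpectrum A, CompA k m (Kp q)) → ∀ (M : ℕ) (c c' : Fin M → k),
    Nat.card {j // c j * c' j ≠ 0} ≤ 0 → P (szer k A (fermA A N c c'))) ∧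
  ∀ m' : ℕ, (∀ (A : Type) [CommRing A] [Algebra k A] [Algebra.FiniteType k A],
    (∀ q : PrimeSpectrum A, CompA k (m + 1) (Kp q)) → ∀ (M : ℕ) (c c' : Fin M → k),
    Nat.card {j // c j * c' j ≠ 0} ≤ m' → P (szer k A (fermA A N c c'))) →
    ∀ (A : Type) [CommRing A] [Algebra k A] [Algebra.FiniteType k A],
    (∀ q : PrimeSpectrum A, CompA k m (Kp q)) → ∀ (M : ℕ) (c c' : Fin M → k),
    Nat.card {j // c j * c' j ≠ 0} ≤ m' + 1 → P (szer k A (fermA A N c c'))

def M_OV3 : Prop := S_CPG → S_MVT → S_OV3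

section Product

open Pool.Agent.Lib_helper55.Beil Pool.Agent.Lib_helper66.OneP CUB

/-- Four closure properties. -/
structure Cl4 {k : Type} [Field k] (P : Var k → Prop) : Prop where
  iso : ∀ {X Y : Var k}, VIso X Y → P X → P Y
  empty : ∀ X : Var k, IsEmpty X.X → P X
  paste : ∀ {Z U X : Var k} (a : ClosedIn Z X) (j : OpenIn U X), Complementary a j → P Z → P U → P X
  cut : ∀ {Z U X : Var k} (a : ClosedIn Z X) (j : OpenIn U X), Complementary a j → P X → P Z → P U

end Product

/-- `Y` is the product of `X` and `Spec R`. -/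
def IsPr {k : Type} [Field k] (R : Type) [CommRing R] [Algebra k R] {Y X : Var k} (q : Mo Y X)
    (t : Y.X ⟶ Spec (CommRingCat.of R)) : Prop :=
  IsPullback q.g t X.f (Spec.map (CommRingCat.ofHom (algebraMap k R)))

/-- The product of `X` and `Spec R` has the property. -/
def PrP {k : Type} [Field k] (P : Var k → Prop) (R : Type) [CommRing R] [Algebra k R]
    (X : Var k) : Prop :=
  ∀ (Y : Var k) (q : Mo Y X) (t : Y.X ⟶ Spec (CommRingCat.of R)), IsPr R q t → P Y

/-- PVR (250 lines). PROOF. The product exists as a variety: the pull-back, which is separated and of finite type over `X`. `iso`, `empty`: clear (paste the squares). `paste`, `cut`: for a closed immersion `Z → X` and `Y` the product of `X` and `Spec R` the pull-back `Z ×_X Y` is the product of `Z` and `Spec R`, and a closed subvariety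
of `Y`; the same for `U`; they are complementary, because set-theoretically they are the inverse images of `Z`, `U`. (`cut`: start with the product of `U` and `Spec R`, it is isomorphic to the open subvariety of the product of `X` and `Spec R`.) -/
def S_PVR : Prop := ∀ (k : Type) [Field k] (P : Var k → Prop), LFQ.Clo P → ∀ (R : Type)
  [CommRing R] [Algebra k R] [Algebra.FiniteType k R], Cl4 (PrP P R)

/-- CPV (120 lines). PROOF. `y ∈ Y`; `Spec A → X` an affine open neighbourhood of the image `x` of `y` (as a variety `sp k A`, `DL k A 1`); its inverse image in `Y` is `sp k (A ⊗[k] R)`, an open subvariety which contains `y`: `CPR`, `FMO.S_RES`, `FMO.S_IMM`. -/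
def S_CPV : Prop := ∀ (k : Type) [Field k] (R : Type) [CommRing R] [Algebra k R]
  [Algebra.FiniteType k R] (X Y : Var k) (q : Mo Y X) (t : Y.X ⟶ Spec (CommRingCat.of R)),
  IsPr R q t → DimLE X 1 → DL k R 1 → CompX 2 Y

def M_CPV : Prop := FMO.S_RES → FMO.S_IMM → FMO.S_CIN → S_CPR → S_CPV

/-- BSG: copy of `Pool/Agent/FMQ/BSF.lean` with `Cl4 P` (`LFQ.Clo.red` uses only `paste` and `empty`). -/
def S_BSG : Prop := ∀ (k : Type) [Field k] [Finite k] (P : Var k → Prop), Cl4 P →
  (∀ X, DimLE X 1 → P X) → ∀ Φ : ∀ (F : Type) [Field F] [Algebra k F], Prop, Inv k Φ →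
  FMQ.Resol k → (∀ (Y : Var k) (h : IsIntegral Y.X), SPj Y 2 → At Φ Y (gp Y h) → P Y) →
  ∀ X, FMQ.Res (Sm Φ) X → P X

def M_BSG : Prop := FMO.S_IMM → FMO.S_SMC → S_BSG

open TensorProduct in
/-- TRI (100 lines). PROOF. `BSG` for `PrP P R` (`PVR`) and `Φ = Comp k 2`: the varieties of dimension at most one by `CPV` and the hypothesis on `CompX 2`; `FMO.S_SMC`, `FMO.S_RES`: `sp k A` satisfies the condition. `sp k (A ⊗[k] R)` is the product of `sp k A` and `Spec R` (`CommRingCat.isPushout_tensorProduct`). -/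
def S_TRI : Prop := ∀ (k : Type) [Field k] [Finite k] (P : Var k → Prop), LFQ.Clo P →
  (∀ X, CompX 2 X → P X) → FMQ.Resol k → ∀ (R : Type) [CommRing R] [Algebra k R]
  [Algebra.FiniteType k R], DL k R 1 →
  (∀ (Y : Var k) (h : IsIntegral Y.X), SPj Y 2 →
    At (fun F [Field F] [Algebra k F] => Comp k 2 F) Y (gp Y h) → PrP P R Y) →
  ∀ (A : Type) [CommRing A] [Algebra k A] [Algebra.FiniteType k A],
    (∀ q : PrimeSpectrum A, Comp k 2 (Kp q)) → P (sp k (A ⊗[k] R))

def M_TRI : Prop := FMO.S_RES → FMO.S_SMC → S_PVR → S_CPV → S_BSG → S_TRI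

end Pool.Agent.FMS
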