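import Pool.Agent.FMS.St6

/-!
# FMS, statements, seventh part: quadratic equations over a base of dimension at most one

Same rules as in `St.lean`: `theorem t_XXX : S_XXX` (or `M_XXX : S_YYY → ... → S_XXX`) in `Pool/Agent/FMS/XXX.lean`, import
`Pool.Agent.FMS.St7`, auxiliary lemmas in namespace `Pool.Agent.FMS.XXXAux`.
-/

set_option autoImplicit false

open CategoryTheory AlgebraicGeometry Polynomial Multiplicative

namespace Pool.Agent.FMS

open Pool.Agent.Lib_helper55.Beil (Var)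
open UQ (Mo DimLE sp szer gp Pt)
open FMO (Univ Few Add CompX Comp Kp Laur At Sm Inv)
open FMQ (FreeCl Dels Fermat ferm)
open LFQ (BM SPj)
open QCV (DL)

/-- THQ (200 lines), quadratic equations over a system with base variables. PROOF. As the second half of `Pool/Agent/FMS/MIB.lean`: the algebra is universal for `sym f σ a e c` (`MXM`); `STV` with `W = range inl`; `EXU`: `C₀`, `φ₀`; `MXM`, `UNQ`: a stratum is `QM` over `C₀`; `QMM`, `QM2` with `H` = the values of terms. `SQ b` over `C₀`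
(`b_i` units, values of the terms `τ_i`) is by `MXM` universal for `f'' = sym f id 1 2 (-τ)` with the units `inl '' U₀`, and (as in `Pool/Agent/FMS/DBM.lean`) with the units `inl '' U₀` and all `t_i`; `FewB (inl '' W) m f''`, `BD` by `BDH` (from `C` to `C₀` by `Univ.lift`, to `SQ b`); trivial: `Clo.triv`; otherwise `TOB`, `LAU`. -/
def S_THQ : Prop := ∀ (k : Type) [Field k] (P : Var k → Prop), LFQ.Clo P → FreeCl P →
  ∀ (V : Type) [Finite V] (W : Set V) (m d : ℕ) (_ : d ≤ 1) (ι : Type)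
    (f : ι → MvPolynomial V k), FewB W m f →
  (∀ (Λ : Type) [CommRing Λ] [Algebra k Λ] [Algebra.FiniteType k Λ],
    (∀ q : PrimeSpectrum Λ, CompA k (m + d) (Kp q)) → P (sp k Λ)) →
  ∀ (C : Type) [CommRing C] [Algebra k C] [Algebra.FiniteType k C] (φ : V → C), Univ f ∅ ∅ C φ →
  BD k W d φ → ∀ (r s : ℕ) (σ : Fin r → Fin s) (a : Fin r → MvPolynomial V k) (e : Fin r → ℕ)
  (c : Fin s → MvPolynomial V k), (∀ j, (a j).support.card ≤ 1) → (∀ i, (c i).support.card ≤ 1) →
  (∀ j, e j = 1 ∨ e j = 2) →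
  P (sp k (QM σ (fun j => MvPolynomial.aeval φ (a j)) e fun i => MvPolynomial.aeval φ (c i)))

def M_THQ : Prop := FMQ.S_CLF → FMQ.S_STV → FMQ.S_EXU → FMQ.S_UNQ → S_MXM → S_QMM → S_QM2 →
  S_BDH → FMO.S_LAU → S_TOB → S_THQ

/-- The system `f_i(y) = 0`, `∑ a_j(y) x_j ^ (e_j) + c_i(y) = 0` (the sum over the `j` with `σ j = i`) over `A`. -/
noncomputable def sysQ {A : Type} [CommRing A] {n r s : ℕ} {ι : Type}
    (f : ι → MvPolynomial (Fin n) A) (σ : Fin r → Fin s) (a : Fin r → MvPolynomial (Fin n) A)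
    (e : Fin r → ℕ) (c : Fin s → MvPolynomial (Fin n) A) :
    ι ⊕ Fin s → MvPolynomial (Fin (n + r)) A :=
  Sum.elim (fun i => MvPolynomial.rename (Fin.castAdd r) (f i)) fun i =>
    ∑ j with σ j = i, MvPolynomial.rename (Fin.castAdd r) (a j) *
      MvPolynomial.X (Fin.natAdd n j) ^ e j + MvPolynomial.rename (Fin.castAdd r) (c i)

/-- THB (150 lines). PROOF. As `THA`: a finite subfamily of `f` generates the same ideal and is again `AddA m`. The algebra of `sysQ f σ a e c` is isomorphic (over `k`) to `QM σ` of the classes over `C = MvPolynomial (Fin n) A ⧸ (f)` (both represent: `y`, `x` in an `A`-algebra with the equations). `EXP` with `K = Fin r ⊕ Fin s`; `THQ`. -/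
def S_THB : Prop := ∀ (k : Type) [Field k] (P : Var k → Prop), LFQ.Clo P → FreeCl P →
  ∀ (m d : ℕ), d ≤ 1 →
  (∀ (Λ : Type) [CommRing Λ] [Algebra k Λ] [Algebra.FiniteType k Λ],
    (∀ q : PrimeSpectrum Λ, CompA k (m + d) (Kp q)) → P (sp k Λ)) →
  ∀ (A : Type) [CommRing A] [Algebra k A] [Algebra.FiniteType k A], DL k A d →
  ∀ (n r s : ℕ) (ι : Type) (f : ι → MvPolynomial (Fin n) A) (σ : Fin r → Fin s)
    (a : Fin r → MvPolynomial (Fin n) A) (e : Fin r → ℕ) (c : Fin s → MvPolynomial (Fin n) A),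
    AddA m f → (∀ j, (a j).support.card ≤ 1) → (∀ i, (c i).support.card ≤ 1) →
    (∀ j, e j = 1 ∨ e j = 2) → P (szer k A (sysQ f σ a e c))

def M_THB : Prop := FMQ.S_CLF → S_EXP → S_THQ → S_THB

end Pool.Agent.FMS
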