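import Pool.Agent.FMS.St7

/-!
# FMS, statements, eighth part

Same rules as in `St.lean`: `theorem t_XXX : S_XXX` (or `M_XXX : S_YYY → ... → S_XXX`) in `Pool/Agent/FMS/XXX.lean`, import
`Pool.Agent.FMS.St8`, auxiliary lemmas in namespace `Pool.Agent.FMS.XXXAux`.
-/

set_option autoImplicit false

open CategoryTheory AlgebraicGeometry Polynomial

namespace Pool.Agent.FMS

open Pool.Agent.Lib_helper55.Beil (Var)
open UQ (Mo DimLE sp szer)
open FMO (Kp)
open QCV (DL)

open TensorProduct in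
/-- OV4 (150 lines), one Fermat curve over a base. PROOF. Lines and finite sets are removed as in `Pool/Agent/FMS/OV3.lean` (when it is there; see also `Pool/Agent/FMS/OV1.lean`; `CPG` with `d = 0`). So `c j * c' j ≠ 0` for all `j`, `M ≤ 1`. `M = 1`: the algebra is isomorphic to `A ⊗[k] R`, `R = k[x, y] / (1 + c x ^ N + c' y ^ N)`, `DL k R 1`. `M = 0`:
the algebra is isomorphic to `A`, and `P (sp k (A ⊗[k] k[X]))`, `A ⊗[k] k[X] ≃ A[X]`, `hP.unline (CUB.lineX A)`. -/
def S_OV4 : Prop := ∀ (k : Type) [Field k] (P : Var k → Prop), LFQ.Clo P → ∀ (N m : ℕ), 0 < N →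
  (∀ (A R : Type) [CommRing A] [Algebra k A] [Algebra.FiniteType k A] [CommRing R] [Algebra k R]
    [Algebra.FiniteType k R], (∀ q : PrimeSpectrum A, CompA k m (Kp q)) → DL k R 1 →
    P (sp k (A ⊗[k] R))) →
  ∀ (A : Type) [CommRing A] [Algebra k A] [Algebra.FiniteType k A],
    (∀ q : PrimeSpectrum A, CompA k m (Kp q)) → ∀ (M : ℕ) (c c' : Fin M → k),
    Nat.card {j // c j * c' j ≠ 0} ≤ 1 → P (szer k A (fermA A N c c'))

def M_OV4 : Prop := S_CPG → S_MVT → S_OV4

end Pool.Agent.FMS
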