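import Pool.Agent.FMS.St8

/-!
# FMS: statements of the modules for birationally ruled surfaces
-/

set_option autoImplicit false

open CategoryTheory AlgebraicGeometry Polynomial

namespace Pool.Agent.FMS

open Pool.Agent.Lib_helper55.Beil (Var OpenIn)
open UQ (Pt DimLE sp)
open FMO (Inv Sm At Kp)
open QCV (DL)

/-- BIR (100 lines), birational integral affine varieties. PROOF. `e⁻¹(B)` is contained in `A[1/a]` (finitely many generators), `e(A)` in `B[1/b]`; `A' = A[1/a, 1/e⁻¹(b)]` and `B' = B[1/b, 1/e(a)]` correspond to each other under `e`; `e⁻¹(b) = c/aⁿ`, so `A'` is the localization of `A` at `a c`, and similarly for `B'`. -/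
def S_BIR : Prop := ∀ (k A B : Type) [Field k] [CommRing A] [IsDomain A] [Algebra k A]
  [Algebra.FiniteType k A] [CommRing B] [IsDomain B] [Algebra k B] [Algebra.FiniteType k B]
  (_ : FractionRing A ≃ₐ[k] FractionRing B), ∃ (a : A) (b : B), a ≠ 0 ∧ b ≠ 0 ∧
    Nonempty (Localization.Away a ≃ₐ[k] Localization.Away b)

/-- The field `F` is the function field of the product of an affine variety of dimension at most one and
the affine line. -/
def Rul (k : Type) [Field k] (F : Type) [Field F] [Algebra k F] : Prop :=
  ∃ (R : Type) (_ : CommRing R) (_ : IsDomain R) (_ : Algebra k R) (_ : Algebra.FiniteType k R),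
    DL k R 1 ∧ Nonempty (F ≃ₐ[k] FractionRing R[X])

/-- RUL (150 lines), varieties whose residue fields have transcendence degree at most one or are ruled. -/
def S_RUL : Prop := ∀ (k : Type) [Field k] [Finite k] (P : Var k → Prop), LFQ.Clo P →
  (∀ X, DimLE X 1 → P X) →
  ∀ X : Var k, (∀ x : Pt X, At (Sm fun F [Field F] [Algebra k F] => Rul k F) X x) → P X

def M_RUL : Prop := S_BIR → S_RUL

/-- PMN (60 lines), a symmetric matrix has a nonzero principal minor of size the rank. PROOF. Let `s` be a set of `r` rows which is a basis of the row space, `G = C G_s`, where `G_s` are these rows. By symmetry `G = G_sᵀ Cᵀ`, and the rows in `s` give `G_s = G_ss Cᵀ`, so `r = rank G_s ≤ rank G_ss`. -/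
def S_PMN : Prop := ∀ (K : Type) [Field K] (n : ℕ) (G : Matrix (Fin n) (Fin n) K),
  G.transpose = G → ∃ s : Finset (Fin n), s.card = G.rank ∧
    (G.submatrix (fun i : s => i.1) fun i : s => i.1).det ≠ 0

end Pool.Agent.FMS
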