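import Pool.Agent.FMS.St2

/-!
# Project FMS (MP_cb388a_ag): module THT, elimination with the values of the variables
-/

set_option autoImplicit false

namespace Pool.Agent.FMS

open FMQ (Dels)

namespace THTAux

/-- The sums over `Fin (r + 1)` after one step. -/
theorem sums {r : ℕ} (c : Fin r → ℕ) (c' : Fin (r + 1) → ℕ) (j : Fin r) (h4 : 4 ≤ c j)
    (hj : c' (Fin.castSucc j) + 1 = c j) (hl : c' (Fin.last r) = 3)
    (ho : ∀ i, i ≠ j → c' (Fin.castSucc i) = c i) :
    ∑ i, (c' i - 2) = ∑ i, (c i - 2) ∧ ∑ i, (c' i - 3) + 1 = ∑ i, (c i - 3) := by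
  rw [Fin.sum_univ_castSucc, Fin.sum_univ_castSucc, hl]
  rw [← Finset.add_sum_erase Finset.univ (fun i => c' (Fin.castSucc i) - 2) (Finset.mem_univ j),
    ← Finset.add_sum_erase Finset.univ (fun i => c i - 2) (Finset.mem_univ j),
    ← Finset.add_sum_erase Finset.univ (fun i => c' (Fin.castSucc i) - 3) (Finset.mem_univ j),
    ← Finset.add_sum_erase Finset.univ (fun i => c i - 3) (Finset.mem_univ j)]
  have e2 : ∑ i ∈ Finset.univ.erase j, (c' (Fin.castSucc i) - 2) =
      ∑ i ∈ Finset.univ.erase j, (c i - 2) :=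
    Finset.sum_congr rfl fun i hi => by rw [ho i (Finset.ne_of_mem_erase hi)]
  have e3 : ∑ i ∈ Finset.univ.erase j, (c' (Fin.castSucc i) - 3) =
      ∑ i ∈ Finset.univ.erase j, (c i - 3) :=
    Finset.sum_congr rfl fun i hi => by rw [ho i (Finset.ne_of_mem_erase hi)]
  rw [e2, e3]
  constructor <;> omega

end THTAux

theorem t_THT : M_THT := by
  intro hONE k _ n r N f hf
  induction hm : ∑ j, ((f j).support.card - 3) using Nat.strong_induction_on generalizing n r with
  | _ m ih =>
    by_cases h : ∀ j, (f j).support.card ≤ 3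
    · exact ⟨n, r, f, id, hf, h, rfl, AlgEquiv.refl, fun v => rfl⟩
    · push Not at h
      obtain ⟨j, hj⟩ := h
      obtain ⟨f', hD, h1, h2, h3, e, he⟩ := hONE k n r N f hf j hj
      obtain ⟨s2, s3⟩ := THTAux.sums (fun i => (f i).support.card)
        (fun i => (f' i).support.card) j hj h1 h2 h3
      obtain ⟨n'', r'', f'', ψ, hD', hc, hs, e', he'⟩ := ih (∑ j, ((f' j).support.card - 3))
        (by omega) (n + 1) (r + 1) f' hD rfl
      refine ⟨n'', r'', f'', fun v => ψ (Fin.castSucc v), hD', hc, hs.trans s2, e.trans e',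
        fun v => ?_⟩
      rw [AlgEquiv.trans_apply, he v, he' (Fin.castSucc v)]

end Pool.Agent.FMS
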